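import Pool.Agent.RSF.Stmts3

/-!
# Statements of the modules, fourth part: arbitrary periods, all `q`

A lower bound for the number of representations of an element `A` of `SL_n(q)` all whose eigenspaces
have dimension at most `3 n / 4` as a commutator (and as `a ^ 2 b ^ 2`): at least
`|SL_n(q)| q ^ (- gx n)`, `gx n = O (log n) ^ 2`, for all `q`. Paper: `PAPER.md`, part 4.
-/

namespace RSF

open Polynomial

noncomputable section

/-! ## The results -/

/-- (T). Transfer for arbitrary periods and `PSL_n(q)`, all `q`: `P_Γ(E) ≤ q ^ ((1 + ε) n) P_free(E)`. -/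
def MainT : Prop :=
  ∀ m : List ℕ, m ≠ [] → (∀ k ∈ m, 2 ≤ k) → ∀ ε : ℝ, 0 < ε → ∃ r : ℕ, ∀ n, r ≤ n →
    ∀ (F : Type) [Field F] [Finite F] (E : (Fin m.length → PS n F) → Prop),
    prob (OGroup 1 m) (PS n F) (fun ρ => E fun j => ρ (ox 1 m j)) ≤
      (Nat.card F : ℝ) ^ ((1 + ε) * (n : ℝ)) *
        ((Nat.card {t : Fin m.length → PS n F // (∀ j, t j ^ m.get j = 1) ∧ E t} : ℝ) /
          Nat.card {t : Fin m.length → PS n F // ∀ j, t j ^ m.get j = 1}) ∧
    prob (NGroup 2 m) (PS n F) (fun ρ => E fun j => ρ (nx 2 m j)) ≤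
      (Nat.card F : ℝ) ^ ((1 + ε) * (n : ℝ)) *
        ((Nat.card {t : Fin m.length → PS n F // (∀ j, t j ^ m.get j = 1) ∧ E t} : ℝ) /
          Nat.card {t : Fin m.length → PS n F // ∀ j, t j ^ m.get j = 1})

/-- (G). Arbitrary periods with `σ > 1`, all `q`: a random homomorphism to `PSL_n(q)` has irreducible
image with probability tending to `1`. -/
def MainG : Prop :=
  ∀ m : List ℕ, (∀ k ∈ m, 2 ≤ k) → 1 < sig m → ∃ r : ℕ, ∀ ε : ℝ, 0 < ε → ∃ N : ℕ, ∀ n, r ≤ n →
    ∀ (F : Type) [Field F] [Finite F], N ≤ Nat.card (PS n F) →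
      1 - ε ≤ prob (OGroup 1 m) (PS n F) (fun ρ => Irr ρ.range) ∧
      1 - ε ≤ prob (NGroup 2 m) (PS n F) (fun ρ => Irr ρ.range)

/-- (H). Arbitrary periods with `σ > 2`, all `q`: the subgroup generated by the images of the elliptic
generators is irreducible with probability tending to `1`. -/
def MainH : Prop :=
  ∀ m : List ℕ, (∀ k ∈ m, 2 ≤ k) → 2 < sig m → ∃ r : ℕ, ∀ ε : ℝ, 0 < ε → ∃ N : ℕ, ∀ n, r ≤ n →
    ∀ (F : Type) [Field F] [Finite F], N ≤ Nat.card (PS n F) →
      1 - ε ≤ prob (OGroup 1 m) (PS n F) (fun ρ => Irr (oell ρ)) ∧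
      1 - ε ≤ prob (NGroup 2 m) (PS n F) (fun ρ => Irr (nell ρ))

/-- (B) for arbitrary periods. -/
def MainB2 : Prop :=
  ∀ m : List ℕ, m ≠ [] → (∀ k ∈ m, 2 ≤ k) → ∀ θ : ℝ, (m.length - sig m) < θ * (m.length - 1) →
    ∃ (η : ℝ) (r : ℕ), 0 < η ∧ ∀ ε : ℝ, 0 < ε → ∃ N : ℕ, ∀ n, r ≤ n →
    ∀ (F : Type) [Field F] [Finite F], N ≤ Nat.card (PS n F) →
    ∀ S : Set (Subgroup (PS n F)), (S.ncard : ℝ) ≤ (Nat.card F : ℝ) ^ (η * (n : ℝ) ^ 2) →
      (∀ M ∈ S, (Nat.card F : ℝ) ^ (θ * (n : ℝ) ^ 2) ≤ M.index) →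
      prob (OGroup 1 m) (PS n F) (fun ρ => ∃ M ∈ S, InConj (oell ρ) M) ≤ ε ∧
      prob (NGroup 2 m) (PS n F) (fun ρ => ∃ M ∈ S, InConj (nell ρ) M) ≤ ε

/-! ## Definitions -/

/-- invertible endomorphisms, a group -/
abbrev GV (F V : Type) [Field F] [AddCommGroup V] [Module F V] : Type := V ≃ₗ[F] V

/-- `x` or `x⁻¹` -/
def pw {G : Type} [Group G] (e : Bool) (x : G) : G := if e then x else x⁻¹

/-- the characteristic polynomial -/
def chp {F V : Type} [Field F] [AddCommGroup V] [Module F V] [FiniteDimensional F V]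
    (A : GV F V) : F[X] := (A : V →ₗ[F] V).charpoly

/-- the determinant -/
def dt {F V : Type} [Field F] [AddCommGroup V] [Module F V] (A : GV F V) : F :=
  LinearMap.det (A : V →ₗ[F] V)

/-- all eigenspaces (for eigenvalues in `F`) have dimension at most `k` -/
def EL {F V : Type} [Field F] [AddCommGroup V] [Module F V] (A : GV F V) (k : ℕ) : Prop :=
  ∀ μ : F, Module.finrank F (LinearMap.ker ((A : V →ₗ[F] V) - μ • LinearMap.id)) ≤ k

/-- the irreducible factors of the characteristic polynomial have degree less than `D` -/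
def Dg {F V : Type} [Field F] [AddCommGroup V] [Module F V] [FiniteDimensional F V]
    (A : GV F V) (D : ℕ) : Prop :=
  ∀ p : F[X], Irreducible p → p ∣ chp A → p.natDegree < D

/-- every nonzero element is the determinant of an element that commutes with `A` -/
def DS {F V : Type} [Field F] [AddCommGroup V] [Module F V] (A : GV F V) : Prop :=
  ∀ δ : F, δ ≠ 0 → ∃ w : GV F V, Commute w A ∧ dt w = δ

/-- the order of the centraliser -/
def cz {F V : Type} [Field F] [AddCommGroup V] [Module F V] (A : GV F V) : ℕ :=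
  Nat.card {w : GV F V // Commute w A}

/-- cyclic: only the whole space is invariant and contains the vector `v` -/
def Cyc {F V : Type} [Field F] [AddCommGroup V] [Module F V] (f : V →ₗ[F] V) : Prop :=
  ∃ v : V, ∀ W : Submodule F V, v ∈ W → (∀ w ∈ W, f w ∈ W) → W = ⊤

/-- the factorisations `A = B C` with `C` conjugate to `B` or `B⁻¹`, `det B = 1`, and conditions on `B` -/
def Fc {F V : Type} [Field F] [AddCommGroup V] [Module F V] [FiniteDimensional F V]
    (e : Bool) (D Z : ℕ) (A : GV F V) : ℕ :=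
  Nat.card {z : GV F V × GV F V // z.1 * z.2 = A ∧ dt z.1 = 1 ∧ IsConj (pw e z.1) z.2 ∧
    Dg z.1 D ∧ DS z.1 ∧ Z ≤ cz z.1}

/-- `S` is the Schur complement: `u : F^h → V`, `φ : V → F^h`, `φ u = 1`; the endomorphism `S` of `ker φ`
is the inverse of the compression of `A⁻¹` along the range of `u`. With `T = φ A u` invertible:
`S w = A (w - u T⁻¹ φ A w)`. -/
def Sch {F V : Type} [Field F] [AddCommGroup V] [Module F V] {h : ℕ} (A : GV F V)
    (u : (Fin h → F) →ₗ[F] V) (φ : V →ₗ[F] (Fin h → F)) (S : GV F (LinearMap.ker φ)) : Prop :=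
  ∀ w : LinearMap.ker φ, ∃ x : Fin h → F, (S w : V) = A ((w : V) - u x)

/-- `V = range u + ker φ`; `B` preserves `ker φ` and is block triangular with diagonal blocks `a`, `a'`; `C`
preserves `range u` and has diagonal blocks `c`, `c'`. -/
def Blk {F V : Type} [Field F] [AddCommGroup V] [Module F V] {h : ℕ}
    (u : (Fin h → F) →ₗ[F] V) (φ : V →ₗ[F] (Fin h → F)) (a c : GV F (Fin h → F))
    (a' c' : GV F (LinearMap.ker φ)) (B C : GV F V) : Prop :=
  (∀ x, C (u x) = u (c x)) ∧ (∀ w : LinearMap.ker φ, ∃ x, C (w : V) = (c' w : V) + u x) ∧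
    (∀ w : LinearMap.ker φ, B (w : V) = (a' w : V)) ∧ ∀ x, φ (B (u x)) = a x

/-! ## Blocks -/

/-- Existence: `C (u x + w) = u (c x) + u (a⁻¹ φ (A w)) + c' w`, `B = A C⁻¹`. -/
def S_B1 : Prop :=
  ∀ (F V : Type) [Field F] [AddCommGroup V] [Module F V] [FiniteDimensional F V] (h : ℕ)
    (A : GV F V) (u : (Fin h → F) →ₗ[F] V) (φ : V →ₗ[F] (Fin h → F)) (a c : GV F (Fin h → F))
    (a' c' : GV F (LinearMap.ker φ)), (∀ x, φ (u x) = x) → (∀ x, φ (A (u x)) = a (c x)) →
    Sch A u φ (a' * c') → ∃ B C : GV F V, B * C = A ∧ Blk u φ a c a' c' B C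

/-- Block triangular maps. `B` annihilated by the product of the two characteristic polynomials; if they
are coprime, `ker φ` is the kernel of the second one at `B`, and `φ` maps the kernel of the first
one isomorphically to `F^h`. For `C`: the range of `u` is the kernel of `chp c` at `C`, the other
kernel is a complement. -/
def S_BT : Prop :=
  ∀ (F V : Type) [Field F] [AddCommGroup V] [Module F V] [FiniteDimensional F V] (h : ℕ)
    (u : (Fin h → F) →ₗ[F] V) (φ : V →ₗ[F] (Fin h → F)) (a c : GV F (Fin h → F))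
    (a' c' : GV F (LinearMap.ker φ)) (B C : GV F V), (∀ x, φ (u x) = x) →
    Blk u φ a c a' c' B C →
    chp B = chp a * chp a' ∧ chp C = chp c * chp c' ∧ dt B = dt a * dt a' ∧ dt C = dt c * dt c' ∧
    (IsCoprime (chp a) (chp a') → ∃ ψ : V ≃ₗ[F] (Fin h → F) × LinearMap.ker φ,
      ∀ v, ψ (B v) = (a (ψ v).1, a' (ψ v).2)) ∧
    (IsCoprime (chp c) (chp c') → ∃ ψ : V ≃ₗ[F] (Fin h → F) × LinearMap.ker φ,
      ∀ v, ψ (C v) = (c (ψ v).1, c' (ψ v).2))

/-- Existence, uniqueness and determinant of the Schur complement. For the determinant: S_B1 with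
`a = T`, `c = 1`, `a' = S`, `c' = 1` and S_BT. -/
def S_B2 : Prop :=
  ∀ (F V : Type) [Field F] [AddCommGroup V] [Module F V] [FiniteDimensional F V] (h : ℕ)
    (A : GV F V) (u : (Fin h → F) →ₗ[F] V) (φ : V →ₗ[F] (Fin h → F)) (T : GV F (Fin h → F)),
    (∀ x, φ (u x) = x) → (∀ x, φ (A (u x)) = T x) →
    ∃ S : GV F (LinearMap.ker φ), Sch A u φ S ∧ dt A = dt T * dt S ∧ ∀ S', Sch A u φ S' → S' = S

def M_B2 : Prop := S_B1 → S_BT → S_B2

/-- The inverse. `chp f⁻¹` is `det f⁻¹ (-x)^n chp f (1/x)`; invariant subspaces of `f` and `f⁻¹` are the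
same; irreducible and coprime by the formula (or roots in an algebraic closure). -/
def S_IV : Prop :=
  ∀ (F V W : Type) [Field F] [AddCommGroup V] [Module F V] [FiniteDimensional F V]
    [AddCommGroup W] [Module F W] [FiniteDimensional F W] (f : GV F V) (g : GV F W),
    C ((chp f).coeff 0) * chp f⁻¹ = (chp f).reverse ∧
    (Cyc (f : V →ₗ[F] V) → Cyc ((f⁻¹ : GV F V) : V →ₗ[F] V)) ∧
    (Irreducible (chp f) → Irreducible (chp f⁻¹)) ∧
    (IsCoprime (chp f) (chp g) → IsCoprime (chp f⁻¹) (chp g⁻¹)) ∧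
    (chp f = chp g → chp f⁻¹ = chp g⁻¹) ∧ dt f⁻¹ = (dt f)⁻¹ ∧
    ∀ k, Dg f k → Dg f⁻¹ k

/-- The combination of two blocks. By S_BT `B` is conjugate to `a × a'` and `C` to `c × c'`, `c × c'` is
conjugate to `pw e (a × a')`. Centraliser: `w × w'`. -/
def S_CB : Prop :=
  ∀ (F V : Type) [Field F] [Finite F] [AddCommGroup V] [Module F V] [FiniteDimensional F V] (h : ℕ)
    (e : Bool) (u : (Fin h → F) →ₗ[F] V) (φ : V →ₗ[F] (Fin h → F)) (a c : GV F (Fin h → F))
    (a' c' : GV F (LinearMap.ker φ)) (B C : GV F V), (∀ x, φ (u x) = x) →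
    Blk u φ a c a' c' B C → IsConj (pw e a) c → IsConj (pw e a') c' → IsCoprime (chp a) (chp a') →
    IsCoprime (chp c) (chp c') ∧ IsConj (pw e B) C ∧ cz a * cz a' ≤ cz B ∧ (DS a → DS B)

def M_CB : Prop := S_BT → S_IV → S_CB

/-- Irreducible elements: `F[a]` is a field with `q ^ h` elements and `F^h` is a one-dimensional vector
space over it. The determinant of the multiplication by `z` is the norm of `z`, and the norm of finite
fields is surjective (`FiniteField.norm_surjective` or the like). Same irreducible characteristic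
polynomial: conjugate. -/
def S_IR : Prop :=
  ∀ (F : Type) [Field F] [Finite F] (h : ℕ) (a : GV F (Fin h → F)), Irreducible (chp a) →
    cz a + 1 = Nat.card F ^ h ∧ DS a ∧ Cyc (a : (Fin h → F) →ₗ[F] (Fin h → F)) ∧
    ∀ b : GV F (Fin h → F), chp b = chp a → IsConj a b

/-- The recursion inequality. Take `(u, φ)` in `Gd`, `a`, `c` with `φ A u = a c`, the Schur complement `S`
(S_B2; `dt S = 1` since `dt c = dt (pw e a) = 1`) and a factorisation `S = a' c'` counted by `M`: this
gives `A = B C` (S_B1), counted by `Fc` (S_CB, S_IR; the irreducible factors of `chp B` are `chp a`,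
of degree `h < D`, and those of `chp a'`, of degree `< h`). Every `(B, C)` is obtained at most
`|GL_h|` times: `chp a` is the only irreducible monic factor of degree `h` of `chp B`, `ker φ` is the
kernel of `chp a'` at `B` (`chp a' = chp B / chp a`), the range of `u` is the kernel of `chp c` at `C`
(`chp c = chp (pw e a)` is determined by `chp a`, S_IR), `u` is then one of the `|GL_h|` isomorphisms of
`F^h` to the range, and `φ`, `a`, `c`, `a'`, `c'` are determined. -/
def S_RE : Prop :=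
  ∀ (F V : Type) [Field F] [Finite F] [AddCommGroup V] [Module F V] [FiniteDimensional F V]
    (e : Bool) (h D Z M : ℕ) (A : GV F V)
    (Gd : Set (((Fin h → F) →ₗ[F] V) × (V →ₗ[F] (Fin h → F)))), 1 ≤ h → h < D → dt A = 1 →
    (∀ z ∈ Gd, (∀ x, z.2 (z.1 x) = x) ∧
      ∀ S : GV F (LinearMap.ker z.2), Sch A z.1 z.2 S → dt S = 1 → M ≤ Fc e h Z S) →
    Nat.card {y : (((Fin h → F) →ₗ[F] V) × (V →ₗ[F] (Fin h → F))) ×
        GV F (Fin h → F) × GV F (Fin h → F) // y.1 ∈ Gd ∧
          (∀ x, y.1.2 (A (y.1.1 x)) = y.2.1 (y.2.2 x)) ∧ dt y.2.1 = 1 ∧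
          Irreducible (chp y.2.1) ∧ IsConj (pw e y.2.1) y.2.2} * M ≤
      Nat.card (GV F (Fin h → F)) * Fc e D ((Nat.card F ^ h - 1) * Z) A

def M_RE : Prop := S_B1 → S_B2 → S_BT → S_IV → S_CB → S_IR → S_RE

/-! ## The step -/

/-- Number of `(u, φ)` with `φ u = 1`, `φ A u = T` such that the eigenspaces of the Schur complement have
dimension at most `κ'`. Let `E_μ = ker (A - μ)`, `k_μ = dim E_μ`.
(0) `u` with `(x, y) ↦ u x + A u y` not injective: at most `q^(2h) q^(κ-n) q^(hn)` (for `(x, y) ≠ 0` the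
equation `u x + A u y = 0` has at most `q^(hn + κ - n)` solutions `u`: `x = - μ y` gives `(A - μ) u y = 0`).
(1) `k_μ ≥ 3h + 10` and `u x ∈ range (A - μ)` for some `x ≠ 0`: at most `q^(h - k_μ) q^(hn)` of the `u`; sum
over at most `q` values `μ`.
(2) For the other `u` there are `q^(h (n - 2h))` maps `φ`, all values on a complement of the range `D` of
`(x, y) ↦ u x + A u y`. If `k_μ ≥ 3h + 10` then `φ` is not surjective on `E_μ` for at most
`q^(h - (k_μ - 2h)) q^(h (n - 2h))` of them (for a functional `ψ ≠ 0` on `F^h`: `ψ φ = 0` on a complement of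
`E_μ ∩ D` in `E_μ`); sum over `μ`.
(3) If `S w = μ w` then `w ∈ ker φ` and `(A - μ) w ∈ A (range u)`. The dimension of the space of the `w` with
`(A - μ) w ∈ A (range u)` is `k_μ + dim (A (range u) ∩ range (A - μ)) ≤ k_μ + h`, fine if `k_μ < 3h + 10`. If
`k_μ ≥ 3h + 10` the intersection is `0` (`range (A - μ)` is `A`-invariant), so `w ∈ E_μ ∩ ker φ`, of
dimension `k_μ - h`. -/
def S_ND : Prop :=
  ∀ (F V : Type) [Field F] [Finite F] [AddCommGroup V] [Module F V] [FiniteDimensional F V]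
    (A : GV F V) (h κ κ' : ℕ) (T : (Fin h → F) →ₗ[F] (Fin h → F)), 1 ≤ h → EL A κ →
    κ + 2 * h + 10 ≤ Module.finrank F V → κ ≤ κ' + h → 4 * h + 10 ≤ κ' →
    Nat.card F ^ (2 * h * (Module.finrank F V - h)) ≤
      2 * Nat.card {z : ((Fin h → F) →ₗ[F] V) × (V →ₗ[F] (Fin h → F)) //
        (∀ x, z.2 (z.1 x) = x) ∧ (∀ x, z.2 (A (z.1 x)) = T x) ∧
        ∀ S : GV F (LinearMap.ker z.2), Sch A z.1 z.2 S → EL S κ'}

/-- Number of pairs `(a, c)`, `a` irreducible of determinant `1`, `c` conjugate to `a` or `a⁻¹`. The class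
of `pw e a` has `|GL_h| / (q^h - 1)` elements (S_IR). Let `K` be the field with `q^h` elements and `β` in `K`
of norm `1` that generates `K`: at least `(q^h - 1) / (q - 1) - q^(h/2 + 1) ≥ (q^h - 1) / (2 (q - 1))` (the
elements of norm `1` minus the elements of proper subfields). The pairs (isomorphism
`F^h → K`, `β`) give the `a`, each one `h (q^h - 1)` times. So there are at least
`|GL_h| / (2 h (q - 1))` such `a`. -/
def S_NI : Prop :=
  ∀ (F : Type) [Field F] [Finite F] (h : ℕ) (e : Bool), 6 ≤ h →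
    Nat.card (GV F (Fin h → F)) ^ 2 ≤ 2 * h * Nat.card F ^ (h + 1) *
      Nat.card {y : GV F (Fin h → F) × GV F (Fin h → F) // dt y.1 = 1 ∧ Irreducible (chp y.1) ∧
        IsConj (pw e y.1) y.2}

def M_NI : Prop := S_IR → S_IV → S_NI

/-- orders of the general linear groups -/
def S_GH : Prop :=
  ∀ (F V : Type) [Field F] [Finite F] [AddCommGroup V] [Module F V] [FiniteDimensional F V] (h : ℕ),
    h ≤ Module.finrank F V →
    (∀ (W : Type) [AddCommGroup W] [Module F W] [FiniteDimensional F W],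
      Module.finrank F W + h = Module.finrank F V →
      Nat.card (GV F V) ≤ 4 * Nat.card (GV F (Fin h → F)) * Nat.card (GV F W) *
        Nat.card F ^ (2 * h * (Module.finrank F V - h))) ∧
    Nat.card (GV F V) ≤ Nat.card F ^ (Module.finrank F V ^ 2) ∧
    Nat.card (GV F V) = Nat.card (GL (Fin (Module.finrank F V)) F)

def M_GH : Prop := S_PI → S_GH

/-! ## The end of the recursion: existence of one factorisation -/

/-- Upper Hessenberg matrices. `e_j = f_j (M) e_1` for a polynomial of degree `j - 1` determined by the first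
columns; the characteristic polynomial is a multiple of `X f_h - ∑ x_i f_i`. -/
def S_HC : Prop :=
  ∀ (F : Type) [Field F] (h : ℕ) (M : Matrix (Fin (h + 1)) (Fin (h + 1)) F),
    (∀ i : Fin h, M i.succ i.castSucc ≠ 0) → (∀ i j : Fin (h + 1), j.val + 1 < i.val → M i j = 0) →
    Cyc (Matrix.toLin' M) ∧ ∀ r : F[X], r.Monic → r.natDegree = h + 1 →
      ∃ x : Fin (h + 1) → F, (M.updateCol (Fin.last h) x).charpoly = r

/-- Cyclic endomorphisms with the same characteristic polynomial are conjugate: `F[X] / (χ)`. -/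
def S_CC : Prop :=
  ∀ (F V W : Type) [Field F] [AddCommGroup V] [Module F V] [FiniteDimensional F V]
    [AddCommGroup W] [Module F W] [FiniteDimensional F W] (f : V →ₗ[F] V) (g : W →ₗ[F] W),
    Cyc f → Cyc g → f.charpoly = g.charpoly → ∃ ψ : V ≃ₗ[F] W, ∀ v, ψ (f v) = g (ψ v)

/-- Every invertible matrix is conjugate to a product `U L`, `U` upper triangular, `L` lower unitriangular.
Induction: if `G` is a scalar, clear. Otherwise there is `v` with `v`, `G v` independent, so in a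
suitable basis the last diagonal entry is `d = 1`:
`[[D, y], [x, d]] = [[1, y/d], [0, 1]] [[D - y x / d, 0], [0, d]] [[1, 0], [x/d, 1]]`, and apply the
induction hypothesis to `D - y x / d`. -/
def S_UL : Prop :=
  ∀ (F : Type) [Field F] (h : ℕ) (G : GL (Fin h) F), ∃ (P : GL (Fin h) F)
    (U L : Matrix (Fin h) (Fin h) F), (∀ i j, j < i → U i j = 0) ∧ (∀ i j, i < j → L i j = 0) ∧
    (∀ i, L i i = 1) ∧ (P * G * P⁻¹ : GL (Fin h) F).1 = U * L

/-- For every `G` and `r` there is `C`, cyclic with characteristic polynomial `r`, such that `G C` is cyclic.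
Let `G = U L` (S_UL) and `W` the cyclic permutation matrix, `e_j ↦ e_(j+1)`, `e_h ↦ e_1`. Put
`C = W (U⁻¹ + x ⊗ ε_h)` (`ε_h` the last coordinate): upper Hessenberg with arbitrary last column (S_HC).
`C G = W (1 + λ x ⊗ ε_h) L` (`ε_h U = λ ε_h`), so `(C G)⁻¹ = L⁻¹ (1 - λ' x ⊗ ε_h) W⁻¹`, and
`(C G)⁻¹ e_(j+1) = L⁻¹ e_j = e_j + …` for `j < h`: in the reversed order of the basis it is upper
Hessenberg. So `C G` and `G C` are cyclic. -/
def S_LT : Prop :=
  ∀ (F : Type) [Field F] (h : ℕ) (G : GV F (Fin h → F)) (r : F[X]), 1 ≤ h → r.Monic →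
    r.natDegree = h → r.coeff 0 ≠ 0 → ∃ C : GV F (Fin h → F), chp C = r ∧
      Cyc (C : (Fin h → F) →ₗ[F] (Fin h → F)) ∧
      Cyc ((G * C : GV F (Fin h → F)) : (Fin h → F) →ₗ[F] (Fin h → F))

def M_LT : Prop := S_UL → S_HC → S_IV → S_LT

/-- Irreducible polynomials with constant term `(-1)^h`: the group of the elements of norm `1` of the
field with `q^h` elements is cyclic of order `N = (q^h - 1) / (q - 1) > q^(h-1) - 1`; its generator is in
no proper subfield. -/
def S_IE : Prop :=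
  ∀ (F : Type) [Field F] [Finite F] (h : ℕ), 2 ≤ h →
    ∃ p : F[X], p.Monic ∧ Irreducible p ∧ p.natDegree = h ∧ p.coeff 0 = (-1) ^ h

/-- regular unipotent matrices are cyclic, of characteristic polynomial `(X - 1)^k` -/
def S_RU : Prop :=
  ∀ (F : Type) [Field F] (k : ℕ) (U : Matrix (Fin (k + 1)) (Fin (k + 1)) F), (∀ i, U i i = 1) →
    ((∀ i j, j < i → U i j = 0) → (∀ i : Fin k, U i.castSucc i.succ ≠ 0) →
      Cyc (Matrix.toLin' U) ∧ U.charpoly = (X - 1) ^ (k + 1)) ∧
    ((∀ i j, i < j → U i j = 0) → (∀ i : Fin k, U i.succ i.castSucc ≠ 0) →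
      Cyc (Matrix.toLin' U) ∧ U.charpoly = (X - 1) ^ (k + 1))

/-- A matrix with characteristic polynomial `r` in block form. `T` is upper Hessenberg (size `3`), the lower
left block has only the entry `1` at `(1, 3)`, and the Schur complement is `L U`, `L = 1 + (subdiagonal)`,
`U` upper unitriangular with superdiagonal entries `1`. Let `k + 1` be the size of `U`. Choose
`U e_j = e_j + e_(j-1)` for `j ≤ k`; the column `1` of `Y` is `y`, the columns `2, …, k` are `0`, and
`D = L U + X T⁻¹ Y`, where `X T⁻¹ Y` has only the first row `ε_3 T⁻¹ Y`. The last column (of `Y` and `D`) is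
given by S_HC for `r`; this defines the last column of `U`. `det (L U) = 1`, so the last diagonal
entry of `U` is `1`; the trace of `L U` is `trace r - trace T - ε_3 T⁻¹ y`, and it is
`(k + 1) + (k - 1) + U_(k, k+1)`: choose `y` such that `U_(k, k+1) = 1`. -/
def S_MX : Prop :=
  ∀ (F : Type) [Field F] (k : ℕ) (T : Matrix (Fin 3) (Fin 3) F) (r : F[X]), 2 ≤ k → T.det = 1 →
    T 1 0 = 1 → T 2 1 = 1 → T 2 0 = 0 → r.Monic → r.natDegree = k + 4 → r.coeff 0 = (-1) ^ (k + 4) →
    ∃ (Y : Matrix (Fin 3) (Fin (k + 1)) F) (D U : Matrix (Fin (k + 1)) (Fin (k + 1)) F),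
      (Matrix.fromBlocks T Y (Matrix.single 0 2 1) D).charpoly = r ∧
      Cyc (Matrix.toLin' (Matrix.fromBlocks T Y (Matrix.single 0 2 1) D)) ∧
      (∀ i, U i i = 1) ∧ (∀ i j, j < i → U i j = 0) ∧ (∀ i : Fin k, U i.castSucc i.succ = 1) ∧
      D - (Matrix.single 0 2 1 : Matrix (Fin (k + 1)) (Fin 3) F) * T⁻¹ * Y =
        (Matrix.of fun i j : Fin (k + 1) => if i = j then 1 else if i.val = j.val + 1 then 1 else 0) *
          U

def M_MX : Prop := S_HC → S_MX

/-- Cyclic elements of determinant `1`. Let `a` be cyclic on `F^3` with irreducible characteristic polynomial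
`p` (S_IE, companion matrix by S_HC), `c` cyclic with the characteristic polynomial of `pw e a` such that
`a c` is cyclic (S_LT); `c` is conjugate to `pw e a` (S_CC). Conjugate such that `T = a c` is a companion
matrix (S_CC). S_MX with `r = chp S`: the matrix `M` is conjugate to `S` (S_CC). `u` the inclusion of
the first three coordinates, `φ` the projection; the Schur complement is `L U`, `U` is conjugate to
`pw e L` (S_RU, S_CC, S_IV). Then S_B1, S_CB, S_BT. -/
def S_CY : Prop :=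
  ∀ (F V : Type) [Field F] [Finite F] [AddCommGroup V] [Module F V] [FiniteDimensional F V]
    (e : Bool) (S : GV F V), 6 ≤ Module.finrank F V → Cyc (S : V →ₗ[F] V) → dt S = 1 →
    ∃ B C : GV F V, B * C = S ∧ dt B = 1 ∧ IsConj (pw e B) C ∧
      ∀ p : F[X], Irreducible p → p ∣ chp B → p.natDegree = 1 ∨ p.natDegree = 3

def M_CY : Prop :=
  S_B1 → S_B2 → S_BT → S_CB → S_IV → S_HC → S_CC → S_LT → S_IE → S_RU → S_MX → S_CY

/-- There is `u` with `(x, y) ↦ u x + A u y` injective: count the `u` (see S_ND (0)). -/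
def S_UI : Prop :=
  ∀ (F V : Type) [Field F] [Finite F] [AddCommGroup V] [Module F V] [FiniteDimensional F V]
    (A : GV F V) (k h : ℕ), EL A k → k + 2 * h ≤ Module.finrank F V →
    ∃ u : (Fin h → F) →ₗ[F] V,
      Function.Injective fun z : (Fin h → F) × (Fin h → F) => u z.1 + A (u z.2)

/-- There is `U` with `V = U ⊕ A U`. First `u` on `F^i`, `i = k + 3`, such that `(x, y) ↦ u x + A u y` is
injective and `range u + range (A - μ) = V` for all `μ`: the first fails for at most a fraction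
`q^(2i + k - 2h)` of the `u`, the second for a fraction `(q - 1) q^(k - i)` (`μ ≠ 0`). Now add vectors: let
`W = U + A U`, of dimension `2i < 2h`, `U + range (A - μ) = V` for all `μ`. Then `(A - μ)⁻¹ W` has dimension
`2i` (it is `dim ker + dim (W ∩ range) `), so `W` and the `(A - μ)⁻¹ W`, `q + 1` subspaces of dimension
`2i ≤ 2h - 2`, do not cover `V`; a vector `v` outside: `v`, `A v` are independent modulo `W`. -/
def S_EU : Prop :=
  ∀ (F V : Type) [Field F] [Finite F] [AddCommGroup V] [Module F V] [FiniteDimensional F V]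
    (A : GV F V) (k h : ℕ), EL A k → Module.finrank F V = 2 * h → 3 * k + 8 ≤ 2 * h →
    ∃ u : (Fin h → F) →ₗ[F] V,
      Function.Bijective fun z : (Fin h → F) × (Fin h → F) => u z.1 + A (u z.2)

/-- Dimension `4 j`, `h = 2 j`. Let `V = U ⊕ A U` (S_EU) and `A^2 u = u Y + A u D`, `Z = - Y`. For every
`M` in `GL_h` let `φ (u x + A u y) = x + M y`. Then `φ u = 1`, `φ A u = M`, and the Schur complement is
`w ↦ - M⁻¹ Y w` in the basis `A u - u M` of `ker φ`. Take `a` cyclic with characteristic polynomial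
`s^j`, `s` irreducible of degree `2` with constant term `1` (S_IE, S_HC), and (S_LT) `c` cyclic with
`chp c = chp (pw e a)` such that `Z⁻¹ a c` is cyclic; `c` is conjugate to `pw e a` (S_CC, S_IV). `M = a c`:
the Schur complement is conjugate to `(Z⁻¹ a c)⁻¹`, cyclic; its determinant is `1`; S_CY. Then S_B1,
S_CB. -/
def S_E2 : Prop :=
  ∀ (F V : Type) [Field F] [Finite F] [AddCommGroup V] [Module F V] [FiniteDimensional F V]
    (e : Bool) (A : GV F V) (k j : ℕ), dt A = 1 → EL A k → Module.finrank F V = 4 * j → 3 ≤ j →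
    3 * k + 8 ≤ 4 * j →
    ∃ B C : GV F V, B * C = A ∧ dt B = 1 ∧ IsConj (pw e B) C ∧
      ∀ p : F[X], Irreducible p → p ∣ chp B → p.natDegree ≤ 3

def M_E2 : Prop :=
  S_B1 → S_B2 → S_BT → S_CB → S_IV → S_HC → S_CC → S_LT → S_IE → S_EU → S_CY → S_E2

/-- One factorisation. Let `h` in `{5,6,7,8}`, `n - h = 4 j`; `a` with irreducible characteristic polynomial
of degree `h`, `det a = 1` (S_IE), `c = pw e a`, `u` by S_UI, `φ u = 1`, `φ A u = a c`. The
Schur complement has determinant `1` and eigenspaces of dimension at most `n / 4 + h`; S_E2. Then S_B1,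
S_CB; `DS B` because of `DS a` (S_IR). -/
def S_EN : Prop :=
  ∀ (F V : Type) [Field F] [Finite F] [AddCommGroup V] [Module F V] [FiniteDimensional F V]
    (e : Bool) (A : GV F V), dt A = 1 → 400 ≤ Module.finrank F V →
    EL A (Module.finrank F V / 4) → 1 ≤ Fc e 9 1 A

def M_EN : Prop :=
  S_B1 → S_B2 → S_BT → S_CB → S_IV → S_HC → S_IR → S_IE → S_UI → S_E2 → S_EN

/-! ## The recursion -/

/-- the number of steps -/
def st (n : ℕ) : ℕ :=
  if n < 1024 then 0 else st (n - n / 32) + 1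
termination_by n
decreasing_by omega

/-- the bound for the eigenspaces -/
def kap (n ρ : ℕ) : ℕ := max (n - ρ) (n / 4)

/-- Induction on `n`. `n < 1024`: S_EN (`kap n ρ ≤ n / 4`), `|GL_n| ≤ q^(2^20)`. `n ≥ 1024`: `h = n / 32`,
`κ = kap n ρ`, `κ' = kap (n - h) ρ`; S_ND, S_NI and S_RE with `Gd` the set of the `(u, φ)`, `φ u = 1`,
with Schur complement `EL κ'`, `D` replaced by `h` (`(n - h) / 32 < h`):
`Fc ≥ |GL_h| |GL_(n-h)| q^(2h(n-h)) / (4 h q^(h+1) q^E) ≥ |GL_n| / (16 h q^(h+1) q^E)`, `E` the exponent for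
`n - h`, `16 h ≤ q^(log n)`. Also `q^(n - 1024 - st n) ≤ (q^h - 1) q^(n - h - 1024 - st (n-h))`. -/
def S_MA : Prop :=
  ∀ (F V : Type) [Field F] [Finite F] [AddCommGroup V] [Module F V] [FiniteDimensional F V]
    (e : Bool) (A : GV F V) (n ρ D : ℕ), Module.finrank F V = n → 992 ≤ n → 768 ≤ ρ → n ≤ 4 * ρ →
    n / 32 < D → dt A = 1 → EL A (kap n ρ) →
    Nat.card (GV F V) ≤ Nat.card F ^ (n + st n * (3 + Nat.log 2 n) + 2 ^ 20) *
      Fc e D (Nat.card F ^ (n - 1024 - st n)) A

def M_MA : Prop := S_RE → S_ND → S_NI → S_GH → S_EN → S_MA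

/-- the final exponent -/
def gx (n : ℕ) : ℕ := 2 ^ 21 + st n * (4 + Nat.log 2 n)

/-- `st n ≤ 16 √n` by induction -/
def S_ST : Prop := ∀ c : ℝ, 0 < c → ∃ r : ℕ, ∀ n, r ≤ n → (gx n : ℝ) ≤ c * n

/-- S_MA with `ρ = (n + 3) / 4`, `D = n`. For every `(B, C)` counted by `Fc` the `g` with
`g (pw e B) g⁻¹ = C` are a coset of the centraliser of `B`; because of `DS B` a fraction `1 / (q - 1)` of
them have determinant `1`. So `Fc * q^(n - 1024 - st n) ≤ (q - 1) * (the number)`. -/
def S_NG : Prop :=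
  ∀ (F : Type) [Field F] [Finite F] (n : ℕ) (e : Bool), 3072 ≤ n →
    ∀ A : Matrix.SpecialLinearGroup (Fin n) F,
    (∀ μ : F, Module.finrank F (LinearMap.ker (Matrix.toLin' A.1 - μ • LinearMap.id)) ≤
      3 * n / 4) →
    Nat.card (Matrix.SpecialLinearGroup (Fin n) F) ≤ Nat.card F ^ gx n *
      Nat.card {z : Matrix.SpecialLinearGroup (Fin n) F × Matrix.SpecialLinearGroup (Fin n) F //
        z.1 * (z.2 * pw e z.1 * z.2⁻¹) = A}

def M_NG : Prop := S_MA → S_NG

/-- large eigenspaces of some preimage -/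
def BgE {n : ℕ} {F : Type} [Field F] (g : PS n F) : Prop :=
  ∃ A : Matrix.SpecialLinearGroup (Fin n) F, mk A = g ∧ ∃ μ : F,
    3 * n / 4 < Module.finrank F (LinearMap.ker (Matrix.toLin' A.1 - μ • LinearMap.id))

/-- In `PSL_n(q)`. `g [a, b] = 1` is `[a, b] = g⁻¹` (`e = false`); `a^2 b^2 = A` with `c = a b` is
`(a c a⁻¹) c = A`: `z = (a c a⁻¹, a⁻¹)` (`e = true`). Every pair in `PSL_n` has `z^2` preimages, `z` the
order of the centre; sum over the `z` preimages of `g⁻¹` (compare `NP.lean`). -/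
def S_NX : Prop :=
  ∀ (F : Type) [Field F] [Finite F] (n : ℕ), 3072 ≤ n → ∀ g : PS n F, ¬ BgE g →
    Nat.card (PS n F) ≤ Nat.card F ^ gx n *
      Nat.card {p : PS n F × PS n F // g * (p.1 * p.2 * p.1⁻¹ * p.2⁻¹) = 1} ∧
    Nat.card (PS n F) ≤ Nat.card F ^ gx n *
      Nat.card {p : PS n F × PS n F // g * (p.1 ^ 2 * p.2 ^ 2) = 1}

def M_NX : Prop := S_NG → S_NX

/-- The number of matrices with an eigenspace of dimension at least `k` is at most
`q * 4 q^(k (n-k)) * q^(n (n-k))` (S_SUB), `k > 3 n / 4`. -/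
def S_GB : Prop :=
  ∀ (F : Type) [Field F] [Finite F] (n : ℕ), 1 ≤ n →
    (Nat.card {g : PS n F // BgE g} : ℝ) ≤ 4 * (Nat.card F : ℝ) ^ (1 + 7 / 16 * (n : ℝ) ^ 2)

def M_GB : Prop := S_SUB → S_GB

/-- The lower bound. `fL m g * jn (first entry) ≤ JJ m`, so (S_GB, S_PJ, `|PSL_n| ≥ q^(n^2 - 2) / 4`) for
`n ≥ r` at most half of the tuples have a product with a large eigenspace; S_NX for the others. -/
def S_LG : Prop :=
  ∀ m : List ℕ, m ≠ [] → (∀ k ∈ m, 2 ≤ k) → ∃ r : ℕ, ∀ n, r ≤ n →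
    ∀ (F : Type) [Field F] [Finite F],
    Nat.card (PS n F) * JJ (PS n F) m ≤
      2 * Nat.card F ^ gx n * OT (PS n F) m (fun _ => True) ∧
    Nat.card (PS n F) * JJ (PS n F) m ≤ 2 * Nat.card F ^ gx n * NT (PS n F) m (fun _ => True)

def M_LG : Prop := S_CNT → S_PI → S_PJ → S_NX → S_GB → S_LG

/-- `#(t in E) |G| k(G)` from above (S_UP, S_KP), S_LG from below, `8 q^(1 + gx n) ≤ q^(ε n)`. -/
def M_MT : Prop := S_HO → S_HN → S_UP → S_KP → S_LG → S_ST → MainT

/-- S_BH, S_R2 from above, S_LG from below. -/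
def M_MG : Prop := S_H2 → S_BH → S_R2 → S_LG → S_ST → S_AS → MainG

/-- `(T)` with `ε = (σ - 2) / 2` and S_RG. -/
def M_MH : Prop := MainT → S_RG → S_AS → MainH

/-- `(T)` with `ε = 1`; as `B.lean`. -/
def M_MB : Prop := MainT → S_PJ → S_AS → MainB2

/-- the final theorem -/
def Main4 : Prop := MainC ∧ MainT ∧ MainG ∧ MainH ∧ MainB2

end

end RSF
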