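import Pool.Agent.RSF.Stmts

/-!
# Final assembly of (A): a random homomorphism has irreducible elliptic image
-/

namespace RSF

namespace A

/-- the complement of an event -/
theorem prob_compl {Γ G : Type} [Group Γ] [Group G] (hfin : Finite (Γ →* G))
    (P : (Γ →* G) → Prop) : prob Γ G P = 1 - prob Γ G (fun ρ => ¬ P ρ) := by
  classical
  have hne : Nonempty (Γ →* G) := ⟨1⟩
  have hpos : (0 : ℝ) < Nat.card (Γ →* G) := by exact_mod_cast Nat.card_pos
  have h1 : Nat.card {ρ : Γ →* G // P ρ} + Nat.card {ρ : Γ →* G // ¬ P ρ} = Nat.card (Γ →* G) := by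
    rw [← Nat.card_sum]
    exact Nat.card_congr (Equiv.sumCompl P)
  have h2 : (Nat.card {ρ : Γ →* G // P ρ} : ℝ) + Nat.card {ρ : Γ →* G // ¬ P ρ} =
      Nat.card (Γ →* G) := by exact_mod_cast h1
  unfold prob
  rw [eq_sub_iff_add_eq, ← add_div, h2, div_self hpos.ne']

theorem finite_ogen (g d : ℕ) : Finite (OGen g d) := by
  refine Finite.of_surjective
    (fun s : Fin g ⊕ Fin g ⊕ Fin d => (match s with
      | Sum.inl i => OGen.a i
      | Sum.inr (Sum.inl i) => OGen.b i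
      | Sum.inr (Sum.inr j) => OGen.x j : OGen g d)) ?_
  rintro (i | i | j)
  · exact ⟨Sum.inl i, rfl⟩
  · exact ⟨Sum.inr (Sum.inl i), rfl⟩
  · exact ⟨Sum.inr (Sum.inr j), rfl⟩

theorem finite_ngen (g d : ℕ) : Finite (NGen g d) := by
  refine Finite.of_surjective
    (fun s : Fin g ⊕ Fin d => (match s with
      | Sum.inl i => NGen.a i
      | Sum.inr j => NGen.x j : NGen g d)) ?_
  rintro (i | j)
  · exact ⟨Sum.inl i, rfl⟩
  · exact ⟨Sum.inr j, rfl⟩

theorem finite_ohom (g : ℕ) (m : List ℕ) (G : Type) [Group G] [Finite G] :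
    Finite (OGroup g m →* G) := by
  have := finite_ogen g m.length
  refine Finite.of_injective
    (fun ρ : OGroup g m →* G => fun s : OGen g m.length => ρ (PresentedGroup.of s)) ?_
  intro ρ τ h
  exact PresentedGroup.ext fun s => congrFun h s

theorem finite_nhom (g : ℕ) (m : List ℕ) (G : Type) [Group G] [Finite G] :
    Finite (NGroup g m →* G) := by
  have := finite_ngen g m.length
  refine Finite.of_injective
    (fun ρ : NGroup g m →* G => fun s : NGen g m.length => ρ (PresentedGroup.of s)) ?_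
  intro ρ τ h
  exact PresentedGroup.ext fun s => congrFun h s

/-- the estimate -/
theorem bound (q C D s : ℝ) (n : ℕ) (hq : 1 ≤ q) (hC : 0 < C) (hD : D = 4 * C + 1)
    (k b t : ℝ) (hk : k ≤ 4 * q ^ ((n : ℝ) + 1)) (hk0 : 0 ≤ k)
    (ht : 0 ≤ t)
    (hb : b ≤ C * ((n : ℝ) + 1) ^ C * q ^ (C - (s - 1) * (n : ℝ)) * t) :
    k * (b / t) ≤ D * ((n : ℝ) + 1) ^ D * q ^ (D - (s - 2) * (n : ℝ)) := by
  have hq0 : 0 < q := by linarith
  have hn1 : (1 : ℝ) ≤ (n : ℝ) + 1 := by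
    have : (0 : ℝ) ≤ n := Nat.cast_nonneg n
    linarith
  have hn0 : (0 : ℝ) < (n : ℝ) + 1 := by linarith
  have hX : 0 ≤ C * ((n : ℝ) + 1) ^ C * q ^ (C - (s - 1) * (n : ℝ)) := by positivity
  have h1 : b / t ≤ C * ((n : ℝ) + 1) ^ C * q ^ (C - (s - 1) * (n : ℝ)) :=
    div_le_of_le_mul₀ ht hX hb
  have h2 : k * (b / t) ≤ 4 * q ^ ((n : ℝ) + 1) *
      (C * ((n : ℝ) + 1) ^ C * q ^ (C - (s - 1) * (n : ℝ))) := by
    calc k * (b / t) ≤ k * (C * ((n : ℝ) + 1) ^ C * q ^ (C - (s - 1) * (n : ℝ))) :=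
          mul_le_mul_of_nonneg_left h1 hk0
      _ ≤ _ := mul_le_mul_of_nonneg_right hk hX
  refine h2.trans ?_
  have h3 : 4 * q ^ ((n : ℝ) + 1) *
      (C * ((n : ℝ) + 1) ^ C * q ^ (C - (s - 1) * (n : ℝ))) =
      (4 * C) * ((n : ℝ) + 1) ^ C * q ^ ((C + 1) - (s - 2) * (n : ℝ)) := by
    have : q ^ ((C + 1) - (s - 2) * (n : ℝ)) =
        q ^ ((n : ℝ) + 1) * q ^ (C - (s - 1) * (n : ℝ)) := by
      rw [← Real.rpow_add hq0]
      congr 1
      ring
    rw [this]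
    ring
  rw [h3]
  have h4 : ((n : ℝ) + 1) ^ C ≤ ((n : ℝ) + 1) ^ D :=
    Real.rpow_le_rpow_of_exponent_le hn1 (by linarith)
  have h5 : q ^ ((C + 1) - (s - 2) * (n : ℝ)) ≤ q ^ (D - (s - 2) * (n : ℝ)) :=
    Real.rpow_le_rpow_of_exponent_le hq (by linarith)
  have h6 : 4 * C ≤ D := by linarith
  have h7 : 0 ≤ ((n : ℝ) + 1) ^ C := by positivity
  have h8 : 0 ≤ q ^ ((C + 1) - (s - 2) * (n : ℝ)) := by positivity
  have h9 : 0 ≤ D := by linarith
  have h10 : 0 ≤ ((n : ℝ) + 1) ^ D := by positivity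
  calc (4 * C) * ((n : ℝ) + 1) ^ C * q ^ ((C + 1) - (s - 2) * (n : ℝ))
      ≤ D * ((n : ℝ) + 1) ^ D * q ^ ((C + 1) - (s - 2) * (n : ℝ)) :=
        mul_le_mul_of_nonneg_right (mul_le_mul h6 h4 h7 h9) h8
    _ ≤ _ := mul_le_mul_of_nonneg_left h5 (mul_nonneg h9 h10)

end A

theorem t_A : M_A := by
  intro hC hKP hSG hRT hAS m hm
  obtain ⟨C, hC0, hbad⟩ := hRT m hm
  have hs : 0 < sig m - 2 := by
    have := hSG m hm
    linarith
  obtain ⟨r, hr, hr2⟩ := hAS (sig m - 2) (4 * C + 1) hs (by linarith)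
  refine ⟨r, fun ε hε => ?_⟩
  obtain ⟨N, hN⟩ := hr2 ε hε
  refine ⟨N, fun n hn F _ _ hcard => ?_⟩
  have hfinal := hN n hn F hcard
  have hn1 : 1 ≤ n := le_trans hr hn
  have hq : (1 : ℝ) ≤ (Nat.card F : ℝ) := by
    have : 0 < Nat.card F := Nat.card_pos
    exact_mod_cast this
  have hk : (Nat.card (ConjClasses (PS n F)) : ℝ) ≤ 4 * (Nat.card F : ℝ) ^ ((n : ℝ) + 1) := by
    have h1 := hKP F n
    have h2 : (Nat.card (ConjClasses (PS n F)) : ℝ) ≤ 4 * (Nat.card F : ℝ) ^ (n + 1) := by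
      exact_mod_cast h1
    have h3 : (Nat.card F : ℝ) ^ ((n : ℝ) + 1) = (Nat.card F : ℝ) ^ (n + 1) := by
      rw [← Real.rpow_natCast]
      push_cast
      rfl
    rw [h3]
    exact h2
  have hb := A.bound (Nat.card F : ℝ) C (4 * C + 1) (sig m) n hq hC0 rfl
    (Nat.card (ConjClasses (PS n F)) : ℝ) _ _ hk (Nat.cast_nonneg _) (Nat.cast_nonneg _)
    (hbad n hn1 F)
  have hb2 := hb.trans hfinal
  have hmain := hC m hm.even (PS n F) (fun t => ¬ Irr (Subgroup.closure (Set.range t)))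
  have f1 := A.finite_ohom 1 m (PS n F)
  have f2 := A.finite_nhom 2 m (PS n F)
  constructor
  · rw [A.prob_compl f1]
    have := hmain.1.trans hb2
    unfold oell
    linarith
  · rw [A.prob_compl f2]
    have := hmain.2.trans hb2
    unfold nell
    linarith

end RSF
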