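import Pool.Agent.RSF.Stmts

/-!
# Module B: the final assembly of (B)
-/

namespace RSF

namespace B

/-- the tuples in a conjugate of `M` -/
theorem card_conj {G : Type} [Group G] [Finite G] (M : Subgroup G) (d : ℕ) :
    Nat.card {t : Fin d → G // ∃ g : G, ∀ j, g⁻¹ * t j * g ∈ M} ≤ M.index * Nat.card M ^ d := by
  classical
  have key : ∀ t : {t : Fin d → G // ∃ g : G, ∀ j, g⁻¹ * t j * g ∈ M},
      ∃ c : G ⧸ M, ∀ j, c.out⁻¹ * t.1 j * c.out ∈ M := by
    rintro ⟨t, g, hg⟩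
    refine ⟨(g : G ⧸ M), fun j => ?_⟩
    obtain ⟨h, hh⟩ := QuotientGroup.mk_out_eq_mul M g
    change (Quotient.out (g : G ⧸ M))⁻¹ * t j * (Quotient.out (g : G ⧸ M)) ∈ M
    rw [hh]
    have h1 : (g * (h : G))⁻¹ * t j * (g * (h : G)) = (h : G)⁻¹ * (g⁻¹ * t j * g) * (h : G) := by
      group
    rw [h1]
    exact M.mul_mem (M.mul_mem (M.inv_mem h.2) (hg j)) h.2
  choose c hc using key
  have h1 : Nat.card {t : Fin d → G // ∃ g : G, ∀ j, g⁻¹ * t j * g ∈ M} ≤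
      Nat.card ((G ⧸ M) × (Fin d → M)) := by
    refine Nat.card_le_card_of_injective
      (fun t => (c t, fun j => (⟨(c t).out⁻¹ * t.1 j * (c t).out, hc t j⟩ : M))) ?_
    intro t t' h
    simp only [Prod.mk.injEq] at h
    obtain ⟨h2, h3⟩ := h
    apply Subtype.ext
    funext j
    have h4 := congrArg Subtype.val (congrFun h3 j)
    simp only at h4
    rw [h2] at h4
    have h5 := mul_right_cancel h4
    exact mul_left_cancel h5
  refine h1.trans (le_of_eq ?_)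
  rw [Nat.card_prod, Nat.card_fun, Nat.card_fin, Subgroup.index]

/-- the tuples of elements of given orders -/
theorem card_tup {G : Type} [Group G] [Finite G] (m : List ℕ) :
    Nat.card {t : Fin m.length → G // ∀ j, t j ^ m.get j = 1} = ∏ j, jn G (m.get j) := by
  rw [Nat.card_congr (Equiv.subtypePiEquivPi (p := fun j (x : G) => x ^ m.get j = 1)), Nat.card_pi]
  rfl

theorem sig_eq (m : List ℕ) : (m.length : ℝ) - sig m = ∑ j : Fin m.length, 1 / (m.get j : ℝ) := by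
  have h : sig m = ∑ j : Fin m.length, (1 - 1 / (m.get j : ℝ)) := by
    rw [sig, ← Fin.sum_univ_fun_getElem m (fun k : ℕ => 1 - 1 / (k : ℝ))]
    rfl
  rw [h, Finset.sum_sub_distrib, Finset.sum_const, Finset.card_univ, Fintype.card_fin,
    nsmul_eq_mul, mul_one]
  ring

/-- the union over the set of subgroups -/
theorem card_union {G : Type} [Group G] [Finite G] (S : Set (Subgroup G)) (d : ℕ) (X : ℝ)
    (hX : ∀ M ∈ S, (Nat.card {t : Fin d → G // ∃ g : G, ∀ j, g⁻¹ * t j * g ∈ M} : ℝ) ≤ X) :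
    (Nat.card {t : Fin d → G // ∃ M ∈ S, ∃ g : G, ∀ j, g⁻¹ * t j * g ∈ M} : ℝ) ≤
      S.ncard * X := by
  classical
  haveI : Fintype S := Fintype.ofFinite S
  have h1 : Nat.card {t : Fin d → G // ∃ M ∈ S, ∃ g : G, ∀ j, g⁻¹ * t j * g ∈ M} ≤
      Nat.card (Σ M : S, {t : Fin d → G // ∃ g : G, ∀ j, g⁻¹ * t j * g ∈ M.1}) := by
    refine Nat.card_le_card_of_injective
      (fun t => ⟨⟨t.2.choose, t.2.choose_spec.1⟩, ⟨t.1, t.2.choose_spec.2⟩⟩) ?_
    intro t t' h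
    simp only [Sigma.mk.injEq] at h
    obtain ⟨h2, h3⟩ := h
    apply Subtype.ext
    have key : ∀ (M M' : S) (x : {t : Fin d → G // ∃ g : G, ∀ j, g⁻¹ * t j * g ∈ M.1})
        (x' : {t : Fin d → G // ∃ g : G, ∀ j, g⁻¹ * t j * g ∈ M'.1}), M = M' → HEq x x' →
        x.1 = x'.1 := by
      rintro M M' x x' rfl hx
      rw [eq_of_heq hx]
    exact key _ _ _ _ h2 h3
  have h2 : (Nat.card (Σ M : S, {t : Fin d → G // ∃ g : G, ∀ j, g⁻¹ * t j * g ∈ M.1}) : ℝ) =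
      ∑ M : S, (Nat.card {t : Fin d → G // ∃ g : G, ∀ j, g⁻¹ * t j * g ∈ M.1} : ℝ) := by
    rw [Nat.card_sigma]
    push_cast
    rfl
  calc (Nat.card {t : Fin d → G // ∃ M ∈ S, ∃ g : G, ∀ j, g⁻¹ * t j * g ∈ M} : ℝ)
      ≤ (Nat.card (Σ M : S, {t : Fin d → G // ∃ g : G, ∀ j, g⁻¹ * t j * g ∈ M.1}) : ℝ) := by
        exact_mod_cast h1
    _ = ∑ M : S, (Nat.card {t : Fin d → G // ∃ g : G, ∀ j, g⁻¹ * t j * g ∈ M.1} : ℝ) := h2
    _ ≤ ∑ _M : S, X := Finset.sum_le_sum fun M _ => hX M.1 M.2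
    _ = S.ncard * X := by
        rw [Finset.sum_const, Finset.card_univ, nsmul_eq_mul, ← Nat.card_eq_fintype_card]
        rfl

theorem fin_ps (n : ℕ) (F : Type) [Field F] [Finite F] : Finite (PS n F) := by
  haveI : Finite (Matrix.SpecialLinearGroup (Fin n) F) := by
    unfold Matrix.SpecialLinearGroup
    infer_instance
  exact Quotient.finite _

/-- the main estimate, for a finite group -/
theorem ratio {G : Type} [Group G] [Finite G] (m : List ℕ) (hm : 1 ≤ m.length) (Q Y : ℝ)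
    (hQ : 0 < Q) (D : Fin m.length → ℝ) (hD : ∀ j, 0 < D j)
    (hj : ∀ j, (Nat.card G : ℝ) * D j ≤ jn G (m.get j)) (S : Set (Subgroup G))
    (hY : (S.ncard : ℝ) ≤ Y) (hS : ∀ M ∈ S, Q ≤ M.index)
    (E : (Fin m.length → G) → Prop)
    (hE : ∀ t, E t → ∃ M ∈ S, ∃ g : G, ∀ j, g⁻¹ * t j * g ∈ M) :
    ((Nat.card {t : Fin m.length → G // (∀ j, t j ^ m.get j = 1) ∧ E t} : ℝ) /
      Nat.card {t : Fin m.length → G // ∀ j, t j ^ m.get j = 1}) ≤
      Y / (Q ^ (m.length - 1) * ∏ j, D j) := by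
  classical
  have hG : (0 : ℝ) < Nat.card G := by exact_mod_cast Nat.card_pos
  have hP : 0 < ∏ j, D j := Finset.prod_pos fun j _ => hD j
  obtain ⟨e, he⟩ : ∃ e, m.length = e + 1 := ⟨m.length - 1, by omega⟩
  -- denominator
  have h1 : (Nat.card G : ℝ) ^ m.length * ∏ j, D j ≤
      (Nat.card {t : Fin m.length → G // ∀ j, t j ^ m.get j = 1} : ℝ) := by
    rw [card_tup]
    push_cast
    have h2 : (Nat.card G : ℝ) ^ m.length * ∏ j, D j = ∏ j : Fin m.length, (Nat.card G : ℝ) * D j := by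
      rw [Finset.prod_mul_distrib, Finset.prod_const, Finset.card_univ, Fintype.card_fin]
    rw [h2]
    exact Finset.prod_le_prod (fun j _ => mul_nonneg hG.le (hD j).le) fun j _ => hj j
  -- numerator
  have h3 : ∀ M ∈ S, (Nat.card {t : Fin m.length → G // ∃ g : G, ∀ j, g⁻¹ * t j * g ∈ M} : ℝ) ≤
      (Nat.card G : ℝ) ^ m.length / Q ^ (m.length - 1) := by
    intro M hM
    have h4 : (Nat.card {t : Fin m.length → G // ∃ g : G, ∀ j, g⁻¹ * t j * g ∈ M} : ℝ) ≤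
        M.index * (Nat.card M : ℝ) ^ m.length := by
      exact_mod_cast card_conj M m.length
    have h5 : (M.index : ℝ) * Nat.card M = Nat.card G := by
      have := M.card_mul_index
      rw [mul_comm] at this
      exact_mod_cast this
    have h6 : (Nat.card M : ℝ) * Q ≤ Nat.card G := by
      rw [← h5, mul_comm]
      exact mul_le_mul_of_nonneg_right (hS M hM) (Nat.cast_nonneg _)
    refine h4.trans ?_
    rw [le_div_iff₀ (pow_pos hQ _), he, Nat.add_sub_cancel, pow_succ, pow_succ]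
    calc (M.index : ℝ) * ((Nat.card M : ℝ) ^ e * Nat.card M) * Q ^ e
        = ((M.index : ℝ) * Nat.card M) * ((Nat.card M : ℝ) * Q) ^ e := by
          rw [mul_pow]; ring
      _ ≤ (Nat.card G : ℝ) * (Nat.card G : ℝ) ^ e := by
          rw [h5]
          exact mul_le_mul_of_nonneg_left (pow_le_pow_left₀ (by positivity) h6 e) hG.le
      _ = (Nat.card G : ℝ) ^ e * Nat.card G := by ring
  have h7 : (Nat.card {t : Fin m.length → G // (∀ j, t j ^ m.get j = 1) ∧ E t} : ℝ) ≤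
      Y * ((Nat.card G : ℝ) ^ m.length / Q ^ (m.length - 1)) := by
    have h8 : Nat.card {t : Fin m.length → G // (∀ j, t j ^ m.get j = 1) ∧ E t} ≤
        Nat.card {t : Fin m.length → G // ∃ M ∈ S, ∃ g : G, ∀ j, g⁻¹ * t j * g ∈ M} := by
      refine Nat.card_le_card_of_injective (fun t => ⟨t.1, hE t.1 t.2.2⟩) ?_
      intro t t' h
      simp only [Subtype.mk.injEq] at h
      exact Subtype.ext h
    calc (Nat.card {t : Fin m.length → G // (∀ j, t j ^ m.get j = 1) ∧ E t} : ℝ)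
        ≤ (Nat.card {t : Fin m.length → G // ∃ M ∈ S, ∃ g : G, ∀ j, g⁻¹ * t j * g ∈ M} : ℝ) := by
          exact_mod_cast h8
      _ ≤ S.ncard * ((Nat.card G : ℝ) ^ m.length / Q ^ (m.length - 1)) := card_union S _ _ h3
      _ ≤ Y * ((Nat.card G : ℝ) ^ m.length / Q ^ (m.length - 1)) :=
          mul_le_mul_of_nonneg_right hY (by positivity)
  have h9 : 0 < (Nat.card G : ℝ) ^ m.length * ∏ j, D j := by positivity
  have hY0 : 0 ≤ Y := le_trans (Nat.cast_nonneg _) hY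
  calc ((Nat.card {t : Fin m.length → G // (∀ j, t j ^ m.get j = 1) ∧ E t} : ℝ) /
      Nat.card {t : Fin m.length → G // ∀ j, t j ^ m.get j = 1})
      ≤ (Y * ((Nat.card G : ℝ) ^ m.length / Q ^ (m.length - 1))) /
        ((Nat.card G : ℝ) ^ m.length * ∏ j, D j) := by
        exact div_le_div₀ (by positivity) h7 h9 h1
    _ = Y / (Q ^ (m.length - 1) * ∏ j, D j) := by
        have hG' : (Nat.card G : ℝ) ^ m.length ≠ 0 := by positivity
        have hQ' : Q ^ (m.length - 1) ≠ 0 := by positivity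
        have hP' : ∏ j, D j ≠ 0 := hP.ne'
        field_simp

end B

open B in
theorem t_B : M_B := by
  intro hC hKP hPJ hAS m hm θ hθ
  have hd : 1 ≤ m.length := by have := hm.len; omega
  obtain ⟨κ, hκ⟩ : ∃ κ, κ = θ * (m.length - 1) - (m.length - sig m) := ⟨_, rfl⟩
  have hκ0 : 0 < κ := by rw [hκ]; linarith
  obtain ⟨C1, hC1⟩ : ∃ C1 : ℝ, C1 = ∑ j : Fin m.length, 4 * (m.get j : ℝ) ^ 2 := ⟨_, rfl⟩
  have hC10 : 0 ≤ C1 := by
    rw [hC1]
    exact Finset.sum_nonneg fun j _ => by positivity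
  obtain ⟨C, hCC⟩ : ∃ C : ℝ, C = 5 + C1 + 2 / κ := ⟨_, rfl⟩
  have h2κ : 0 < 2 / κ := by positivity
  have hC0 : 0 < C := by rw [hCC]; linarith
  obtain ⟨r, hr1, hr⟩ := hAS 1 C one_pos hC0
  refine ⟨κ / 2, r, by positivity, fun ε hε => ?_⟩
  obtain ⟨N, hN⟩ := hr ε hε
  refine ⟨N, fun n hn F _ _ hF S hS hM => ?_⟩
  have hfin : Finite (PS n F) := fin_ps n F
  have hlim := hN n hn F hF
  obtain ⟨q, hq⟩ : ∃ q : ℝ, q = Nat.card F := ⟨_, rfl⟩
  rw [← hq] at hS hM hlim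
  have hq1 : 1 < q := by
    rw [hq]
    exact_mod_cast Finite.one_lt_card
  have hq0 : 0 < q := by linarith
  -- the number of classes
  have hk : (Nat.card (ConjClasses (PS n F)) : ℝ) ≤ 4 * q ^ ((n : ℝ) + 1) := by
    have h1 := hKP F n
    have h2 : (q : ℝ) ^ ((n : ℝ) + 1) = q ^ (n + 1) := by
      rw [← Real.rpow_natCast q (n + 1)]
      push_cast
      rfl
    rw [h2, hq]
    exact_mod_cast h1
  have hD : ∀ j : Fin m.length,
      (Nat.card (PS n F) : ℝ) * q ^ (-((n : ℝ) ^ 2 / m.get j) - 4 * (m.get j : ℝ) ^ 2) ≤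
        jn (PS n F) (m.get j) := by
    intro j
    rw [hq]
    exact hPJ F n (m.get j) (by have := hm.two (m.get j) (List.get_mem m j); omega)
  -- the final inequality
  have hfinal : (Nat.card (ConjClasses (PS n F)) : ℝ) *
      (q ^ (κ / 2 * (n : ℝ) ^ 2) / ((q ^ (θ * (n : ℝ) ^ 2)) ^ (m.length - 1) *
        ∏ j : Fin m.length, q ^ (-((n : ℝ) ^ 2 / m.get j) - 4 * (m.get j : ℝ) ^ 2))) ≤ ε := by
    have e1 : (q ^ (θ * (n : ℝ) ^ 2)) ^ (m.length - 1) =
        q ^ (θ * (n : ℝ) ^ 2 * (m.length - 1)) := by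
      rw [← Real.rpow_natCast, ← Real.rpow_mul hq0.le, Nat.cast_sub hd, Nat.cast_one]
    have e2 : ∏ j : Fin m.length, q ^ (-((n : ℝ) ^ 2 / m.get j) - 4 * (m.get j : ℝ) ^ 2) =
        q ^ (-((n : ℝ) ^ 2 * (m.length - sig m)) - C1) := by
      rw [← Real.rpow_sum_of_pos hq0, Finset.sum_sub_distrib, ← hC1, sig_eq,
        Finset.mul_sum, Finset.sum_neg_distrib]
      congr 3
      refine Finset.sum_congr rfl fun j _ => ?_
      ring
    rw [e1, e2, ← Real.rpow_add hq0, ← Real.rpow_sub hq0]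
    have e3 : κ / 2 * (n : ℝ) ^ 2 - (θ * (n : ℝ) ^ 2 * (m.length - 1) +
        (-((n : ℝ) ^ 2 * (m.length - sig m)) - C1)) = C1 - κ / 2 * (n : ℝ) ^ 2 := by
      rw [hκ]; ring
    rw [e3]
    have e4 : (n : ℝ) + 1 + (C1 - κ / 2 * (n : ℝ) ^ 2) ≤ C - 1 * n := by
      rw [hCC]
      have h5 : 2 * (n : ℝ) ≤ 2 / κ + κ / 2 * (n : ℝ) ^ 2 := by
        have h6 : 2 / κ + κ / 2 * (n : ℝ) ^ 2 - 2 * (n : ℝ) = (2 - κ * n) ^ 2 / (2 * κ) := by
          field_simp
          ring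
        have h7 : 0 ≤ (2 - κ * n) ^ 2 / (2 * κ) := by positivity
        linarith
      linarith
    have hC4 : (4 : ℝ) ≤ C := by rw [hCC]; linarith
    have hpow : (1 : ℝ) ≤ ((n : ℝ) + 1) ^ C := by
      apply Real.one_le_rpow _ hC0.le
      have : (0 : ℝ) ≤ n := Nat.cast_nonneg n
      linarith
    calc (Nat.card (ConjClasses (PS n F)) : ℝ) * q ^ (C1 - κ / 2 * (n : ℝ) ^ 2)
        ≤ 4 * q ^ ((n : ℝ) + 1) * q ^ (C1 - κ / 2 * (n : ℝ) ^ 2) :=
          mul_le_mul_of_nonneg_right hk (Real.rpow_nonneg hq0.le _)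
      _ = 4 * q ^ ((n : ℝ) + 1 + (C1 - κ / 2 * (n : ℝ) ^ 2)) := by
          rw [Real.rpow_add hq0 ((n : ℝ) + 1), mul_assoc]
      _ ≤ 4 * q ^ (C - 1 * n) :=
          mul_le_mul_of_nonneg_left (Real.rpow_le_rpow_of_exponent_le hq1.le e4) (by norm_num)
      _ ≤ C * ((n : ℝ) + 1) ^ C * q ^ (C - 1 * n) := by
          refine mul_le_mul_of_nonneg_right ?_ (Real.rpow_nonneg hq0.le _)
          calc (4 : ℝ) = 4 * 1 := by ring
            _ ≤ C * ((n : ℝ) + 1) ^ C := mul_le_mul hC4 hpow zero_le_one hC0.le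
      _ ≤ ε := hlim
  have hmain : ∀ E : (Fin m.length → PS n F) → Prop,
      (∀ t, E t → ∃ M ∈ S, ∃ g : PS n F, ∀ j, g⁻¹ * t j * g ∈ M) →
      (Nat.card (ConjClasses (PS n F)) : ℝ) *
        ((Nat.card {t : Fin m.length → PS n F // (∀ j, t j ^ m.get j = 1) ∧ E t} : ℝ) /
          Nat.card {t : Fin m.length → PS n F // ∀ j, t j ^ m.get j = 1}) ≤ ε := by
    intro E hE
    refine le_trans (mul_le_mul_of_nonneg_left ?_ (Nat.cast_nonneg _)) hfinal
    exact ratio m hd (q ^ (θ * (n : ℝ) ^ 2)) (q ^ (κ / 2 * (n : ℝ) ^ 2)) (Real.rpow_pos_of_pos hq0 _)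
      (fun j => q ^ (-((n : ℝ) ^ 2 / m.get j) - 4 * (m.get j : ℝ) ^ 2))
      (fun j => Real.rpow_pos_of_pos hq0 _) hD S hS hM E hE
  have hEE : ∀ t : Fin m.length → PS n F,
      (∃ M ∈ S, InConj (Subgroup.closure (Set.range t)) M) →
      ∃ M ∈ S, ∃ g : PS n F, ∀ j, g⁻¹ * t j * g ∈ M := by
    rintro t ⟨M, hMS, g, hg⟩
    exact ⟨M, hMS, g, fun j => hg (t j) (Subgroup.subset_closure ⟨j, rfl⟩)⟩
  have hc := hC m hm.even (PS n F) (fun t => ∃ M ∈ S, InConj (Subgroup.closure (Set.range t)) M)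
  exact ⟨hc.1.trans (hmain _ hEE), hc.2.trans (hmain _ hEE)⟩

end RSF
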