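import Pool.Agent.RSF.Stmts3

/-!
# Final assembly of (E): periods with even multiplicities, `σ > 1`
-/

namespace RSF

namespace E

theorem finite_ogen (g d : ℕ) : Finite (OGen g d) := by
  refine Finite.of_surjective
    (fun s : Fin g ⊕ Fin g ⊕ Fin d => (match s with
      | Sum.inl i => OGen.a i
      | Sum.inr (Sum.inl i) => OGen.b i
      | Sum.inr (Sum.inr j) => OGen.x j : OGen g d)) ?_
  rintro (i | i | j)
  · exact ⟨Sum.inl i, rfl⟩
  · exact ⟨Sum.inr (Sum.inl i), rfl⟩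
  · exact ⟨Sum.inr (Sum.inr j), rfl⟩

theorem finite_ngen (g d : ℕ) : Finite (NGen g d) := by
  refine Finite.of_surjective
    (fun s : Fin g ⊕ Fin d => (match s with
      | Sum.inl i => NGen.a i
      | Sum.inr j => NGen.x j : NGen g d)) ?_
  rintro (i | j)
  · exact ⟨Sum.inl i, rfl⟩
  · exact ⟨Sum.inr j, rfl⟩

theorem finite_ohom (g : ℕ) (m : List ℕ) (G : Type) [Group G] [Finite G] :
    Finite (OGroup g m →* G) := by
  have := finite_ogen g m.length
  refine Finite.of_injective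
    (fun ρ : OGroup g m →* G => fun s : OGen g m.length => ρ (PresentedGroup.of s)) ?_
  intro ρ τ h
  exact PresentedGroup.ext fun s => congrFun h s

theorem finite_nhom (g : ℕ) (m : List ℕ) (G : Type) [Group G] [Finite G] :
    Finite (NGroup g m →* G) := by
  have := finite_ngen g m.length
  refine Finite.of_injective
    (fun ρ : NGroup g m →* G => fun s : NGen g m.length => ρ (PresentedGroup.of s)) ?_
  intro ρ τ h
  exact PresentedGroup.ext fun s => congrFun h s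

/-- the estimate for a group `Γ`: `R` bounds the bad homomorphisms and `T` is at most their number -/
theorem main {Γ G : Type} [Group Γ] [Group G] (hfin : Finite (Γ →* G)) (P : (Γ →* G) → Prop)
    (R T : ℕ) (x ε : ℝ) (hbad : Nat.card {ρ : Γ →* G // ¬ P ρ} ≤ R)
    (hT : T ≤ Nat.card (Γ →* G)) (hR : (R : ℝ) ≤ x * T) (hx : x ≤ ε) (hε : 0 < ε) :
    1 - ε ≤ prob Γ G P := by
  classical
  have hne : Nonempty (Γ →* G) := ⟨1⟩
  have hpos : (0 : ℝ) < Nat.card (Γ →* G) := by exact_mod_cast Nat.card_pos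
  have h1 : Nat.card {ρ : Γ →* G // P ρ} + Nat.card {ρ : Γ →* G // ¬ P ρ} = Nat.card (Γ →* G) := by
    rw [← Nat.card_sum]
    exact Nat.card_congr (Equiv.sumCompl P)
  have h2 : (Nat.card {ρ : Γ →* G // P ρ} : ℝ) + Nat.card {ρ : Γ →* G // ¬ P ρ} =
      Nat.card (Γ →* G) := by exact_mod_cast h1
  have h3 : (Nat.card {ρ : Γ →* G // ¬ P ρ} : ℝ) ≤ R := by exact_mod_cast hbad
  have h4 : (T : ℝ) ≤ Nat.card (Γ →* G) := by exact_mod_cast hT
  have h5 : (0 : ℝ) ≤ (T : ℝ) := Nat.cast_nonneg T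
  have h6 : x * (T : ℝ) ≤ ε * (T : ℝ) := mul_le_mul_of_nonneg_right hx h5
  have h7 : ε * (T : ℝ) ≤ ε * Nat.card (Γ →* G) := mul_le_mul_of_nonneg_left h4 hε.le
  unfold prob
  rw [le_div_iff₀ hpos]
  linarith

end E

theorem t_E : M_E := by
  intro hH hLO hLN hBH hR2 hAS m h2 hev hs
  obtain ⟨C, r₁, hC0, -, hbad⟩ := hR2 m h2 hs
  have hs2 : 0 < (sig m - 1) / 2 := by linarith
  obtain ⟨r₂, -, hr2⟩ := hAS ((sig m - 1) / 2) C hs2 hC0
  refine ⟨max r₁ r₂, fun ε hε => ?_⟩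
  obtain ⟨N, hN⟩ := hr2 ε hε
  refine ⟨N, fun n hn F _ _ hcard => ?_⟩
  have hfinal := hN n (le_trans (le_max_right _ _) hn) F hcard
  have hb := hbad n (le_trans (le_max_left _ _) hn) F
  have hbh := hBH F n m
  have hHH := hH (PS n F) m (fun _ _ _ => True)
  have f1 := E.finite_ohom 1 m (PS n F)
  have f2 := E.finite_nhom 2 m (PS n F)
  have hcO : Nat.card {ρ : OGroup 1 m →* PS n F // True} = Nat.card (OGroup 1 m →* PS n F) :=
    Nat.card_congr (Equiv.subtypeUnivEquiv fun _ => trivial)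
  have hcN : Nat.card {ρ : NGroup 2 m →* PS n F // True} = Nat.card (NGroup 2 m →* PS n F) :=
    Nat.card_congr (Equiv.subtypeUnivEquiv fun _ => trivial)
  have hO : Nat.card (PS n F) * JJ (PS n F) m ≤ Nat.card (OGroup 1 m →* PS n F) := by
    rw [← hcO]
    exact (hLO (PS n F) m hev).trans (le_of_eq hHH.1.symm)
  have hNn : Nat.card (PS n F) * JJ (PS n F) m ≤ Nat.card (NGroup 2 m →* PS n F) := by
    rw [← hcN]
    exact (hLN (PS n F) m hev).trans (le_of_eq hHH.2.symm)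
  have hb' : (RB F n m : ℝ) ≤ C * ((n : ℝ) + 1) ^ C *
      (Nat.card F : ℝ) ^ (C - (sig m - 1) / 2 * (n : ℝ)) *
        ((Nat.card (PS n F) * JJ (PS n F) m : ℕ) : ℝ) := by
    rw [Nat.cast_mul]
    exact hb
  exact ⟨E.main f1 _ (RB F n m) _ _ ε hbh.1 hO hb' hfinal hε,
    E.main f2 _ (RB F n m) _ _ ε hbh.2 hNn hb' hfinal hε⟩

end RSF
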