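import Pool.Agent.RSF.Stmts4

/-!
# Module LG: the lower bound for arbitrary periods
-/

namespace RSF

noncomputable section

namespace LG

/-! ### tuples -/

/-- the tuples -/
abbrev TP (G : Type) [Group G] (m : List ℕ) : Type :=
  {t : Fin m.length → G // ∀ j, t j ^ m.get j = 1}

theorem card_TP (G : Type) [Group G] [Finite G] (m : List ℕ) : Nat.card (TP G m) = JJ G m := by
  classical
  have h1 : Nat.card (TP G m) = Nat.card ((j : Fin m.length) → {x : G // x ^ m.get j = 1}) :=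
    Nat.card_congr (Equiv.subtypePiEquivPi (p := fun j x => x ^ m.get j = 1))
  rw [h1, Nat.card_pi, JJ]
  have h2 : ∀ j : Fin m.length, Nat.card {x : G // x ^ m.get j = 1} = jn G (m.get j) :=
    fun _ => rfl
  simp only [h2]
  rw [← Fin.prod_univ_fun_getElem]
  rfl

/-- the tuples with a bad product -/
abbrev TB (G : Type) [Group G] (m : List ℕ) (Bad : G → Prop) : Type :=
  {t : TP G m // Bad (List.ofFn t.1).prod}

theorem prod_cons' {G : Type} [Group G] {k : ℕ} (t : Fin (k + 1) → G) :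
    (List.ofFn t).prod = t 0 * (List.ofFn (Fin.tail (n := k) (α := fun _ => G) t)).prod := by
  have h3 : List.ofFn (n := k + 1) t = t 0 :: List.ofFn (fun j : Fin k => t j.succ) :=
    List.ofFn_succ
  rw [h3, List.prod_cons]
  rfl

theorem card_TB (G : Type) [Group G] [Finite G] (k : ℕ) (L : List ℕ) (Bad : G → Prop) :
    Nat.card (TB G (k :: L) Bad) * jn G k ≤ Nat.card {g : G // Bad g} * Nat.card (TP G (k :: L)) := by
  rw [jn, ← Nat.card_prod, ← Nat.card_prod]
  refine Nat.card_le_card_of_injective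
    (fun z : TB G (k :: L) Bad × {x : G // x ^ k = 1} =>
      ((⟨(List.ofFn z.1.1.1).prod, z.1.2⟩ : {g : G // Bad g}),
      (⟨(Fin.cons z.2.1 (Fin.tail (n := L.length) (α := fun _ => G) z.1.1.1) :
        Fin (L.length + 1) → G), ?_⟩ : TP G (k :: L)))) ?_
  · intro j
    refine Fin.cases ?_ (fun j => ?_) j
    · exact z.2.2
    · exact z.1.1.2 j.succ
  · rintro ⟨⟨⟨t, ht⟩, ht1⟩, x, hx⟩ ⟨⟨⟨t', ht'⟩, ht1'⟩, x', hx'⟩ h
    have hp : (List.ofFn t).prod = (List.ofFn t').prod :=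
      congrArg (fun z => (Prod.fst z).1) h
    have h0 : (Fin.cons x (Fin.tail (n := L.length) (α := fun _ => G) t) :
        Fin (L.length + 1) → G) = Fin.cons x' (Fin.tail (n := L.length) (α := fun _ => G) t') :=
      congrArg (fun z => (Prod.snd z).1) h
    have hx0 : x = x' := by
      have := congrFun h0 0
      simpa using this
    have htail : Fin.tail (n := L.length) (α := fun _ => G) t =
        Fin.tail (n := L.length) (α := fun _ => G) t' := by
      funext j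
      have := congrFun h0 j.succ
      simpa using this
    have e2 : t 0 = t' 0 := by
      have e1 := prod_cons' (k := L.length) t
      have e1' := prod_cons' (k := L.length) t'
      have hp' : (List.ofFn (n := L.length + 1) t).prod = (List.ofFn (n := L.length + 1) t').prod := hp
      rw [e1, e1', htail] at hp'
      exact mul_right_cancel hp'
    have e3 : t = t' := by
      funext j
      refine Fin.cases (motive := fun j : Fin (L.length + 1) => t j = t' j) e2 (fun j => ?_) j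
      exact congrFun htail j
    subst e3
    subst hx0
    rfl

theorem general (G : Type) [Group G] [Finite G] (m : List ℕ) (c : ℕ) (Bad : G → Prop)
    (h3 : 2 * Nat.card (TB G m Bad) ≤ Nat.card (TP G m)) (w : G → G → G)
    (hw : ∀ g : G, ¬ Bad g → Nat.card G ≤ c * Nat.card {p : G × G // g * w p.1 p.2 = 1}) :
    Nat.card G * JJ G m ≤ 2 * c * Nat.card {p : (Fin m.length → G) × G × G //
      (∀ j, p.1 j ^ m.get j = 1) ∧ True ∧ (List.ofFn p.1).prod * w p.2.1 p.2.2 = 1} := by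
  classical
  have h6 : Nat.card (TB G m Bad) +
      Nat.card {t : TP G m // ¬ Bad (List.ofFn t.1).prod} = Nat.card (TP G m) := by
    rw [← Nat.card_sum]
    exact Nat.card_congr (Equiv.sumCompl _)
  have h7 : Nat.card (TP G m) ≤
      2 * Nat.card {t : TP G m // ¬ Bad (List.ofFn t.1).prod} := by omega
  have : Fintype {t : TP G m // ¬ Bad (List.ofFn t.1).prod} := Fintype.ofFinite _
  have h8 : Nat.card G * Nat.card {t : TP G m // ¬ Bad (List.ofFn t.1).prod} ≤
      c * Nat.card ((t : {t : TP G m // ¬ Bad (List.ofFn t.1).prod}) ×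
        {p : G × G // (List.ofFn t.1.1).prod * w p.1 p.2 = 1}) := by
    rw [Nat.card_sigma, Finset.mul_sum, Nat.card_eq_fintype_card (α := {t : TP G m //
      ¬ Bad (List.ofFn t.1).prod}), Nat.mul_comm, ← smul_eq_mul, ← Finset.card_univ,
      ← Finset.sum_const]
    exact Finset.sum_le_sum fun t _ => hw _ t.2
  have h9 : Nat.card ((t : {t : TP G m // ¬ Bad (List.ofFn t.1).prod}) ×
        {p : G × G // (List.ofFn t.1.1).prod * w p.1 p.2 = 1}) ≤
      Nat.card {p : (Fin m.length → G) × G × G //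
      (∀ j, p.1 j ^ m.get j = 1) ∧ True ∧ (List.ofFn p.1).prod * w p.2.1 p.2.2 = 1} := by
    refine Nat.card_le_card_of_injective
      (fun z => ⟨(z.1.1.1, z.2.1), z.1.1.2, trivial, z.2.2⟩) ?_
    rintro ⟨⟨⟨t, ht⟩, ht1⟩, p, hp⟩ ⟨⟨⟨t', ht'⟩, ht1'⟩, p', hp'⟩ h
    simp only [Subtype.mk.injEq, Prod.mk.injEq] at h
    obtain ⟨rfl, rfl⟩ := h
    rfl
  rw [← card_TP]
  calc Nat.card G * Nat.card (TP G m)
      ≤ Nat.card G * (2 * Nat.card {t : TP G m // ¬ Bad (List.ofFn t.1).prod}) :=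
        Nat.mul_le_mul_left _ h7
    _ = 2 * (Nat.card G * Nat.card {t : TP G m // ¬ Bad (List.ofFn t.1).prod}) := by ring
    _ ≤ 2 * (c * _) := Nat.mul_le_mul_left _ h8
    _ ≤ 2 * (c * _) := Nat.mul_le_mul_left _ (Nat.mul_le_mul_left _ h9)
    _ = _ := by ring

/-! ### the order of `PSL_n(F)` -/

variable {F : Type} [Field F] {n : ℕ}

/-- the centre of `SL_n(F)` -/
abbrev Z (n : ℕ) (F : Type) [Field F] : Subgroup (Matrix.SpecialLinearGroup (Fin n) F) :=
  Subgroup.center (Matrix.SpecialLinearGroup (Fin n) F)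

theorem ex_scalar (c : Z n F) : ∃ r : F, Matrix.scalar (Fin n) r = c.1.1 := by
  obtain ⟨r, -, hr⟩ := Matrix.SpecialLinearGroup.mem_center_iff.mp c.2
  exact ⟨r, hr⟩

theorem finSL [Finite F] : Finite (Matrix.SpecialLinearGroup (Fin n) F) :=
  Subtype.finite

theorem finPS [Finite F] : Finite (PS n F) := by
  have := finSL (F := F) (n := n)
  exact Finite.of_surjective (mk : Matrix.SpecialLinearGroup (Fin n) F → PS n F)
    (QuotientGroup.mk_surjective)

theorem card_Z_le [Finite F] : Nat.card (Z n F) ≤ Nat.card F := by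
  refine Nat.card_le_card_of_injective (fun c : Z n F => (ex_scalar c).choose) ?_
  intro c d h
  apply Subtype.ext
  apply Subtype.ext
  have h' : (ex_scalar c).choose = (ex_scalar d).choose := h
  rw [← (ex_scalar c).choose_spec, ← (ex_scalar d).choose_spec, h']

/-- `|GL| ≤ q |SL|` -/
theorem card_GL_le [Finite F] :
    Nat.card (GL (Fin n) F) ≤ Nat.card F * Nat.card (Matrix.SpecialLinearGroup (Fin n) F) := by
  classical
  have := finSL (F := F) (n := n)
  let d : GL (Fin n) F →* Fˣ := Matrix.GeneralLinearGroup.det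
  have h1 : Nat.card d.ker * d.ker.index = Nat.card (GL (Fin n) F) := Subgroup.card_mul_index _
  have h2 : d.ker.index = Nat.card d.range := Subgroup.index_ker d
  have h3 : Nat.card d.range ≤ Nat.card Fˣ :=
    Nat.card_le_card_of_injective (fun x => x.1) Subtype.val_injective
  have h4 : Nat.card Fˣ ≤ Nat.card F :=
    Nat.card_le_card_of_injective (fun x : Fˣ => (x : F)) Units.val_injective
  have h5 : Nat.card d.ker ≤ Nat.card (Matrix.SpecialLinearGroup (Fin n) F) := by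
    refine Nat.card_le_card_of_injective
      (fun x : d.ker => (⟨(x.1 : Matrix (Fin n) (Fin n) F), ?_⟩ :
        Matrix.SpecialLinearGroup (Fin n) F)) ?_
    · have h := x.2
      rw [MonoidHom.mem_ker] at h
      have h' := congrArg (fun u : Fˣ => (u : F)) h
      simpa [d] using h'
    · intro x y hxy
      have h : (x.1 : Matrix (Fin n) (Fin n) F) = (y.1 : Matrix (Fin n) (Fin n) F) :=
        congrArg Subtype.val hxy
      exact Subtype.ext (Units.ext h)
  calc Nat.card (GL (Fin n) F) = Nat.card d.ker * d.ker.index := h1.symm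
    _ = Nat.card d.ker * Nat.card d.range := by rw [h2]
    _ ≤ Nat.card (Matrix.SpecialLinearGroup (Fin n) F) * Nat.card F :=
      Nat.mul_le_mul h5 (h3.trans h4)
    _ = Nat.card F * Nat.card (Matrix.SpecialLinearGroup (Fin n) F) := Nat.mul_comm _ _

/-- the order of `GL_n(F)` -/
theorem card_GL_ge (hPI : S_PI) [Finite F] :
    (Nat.card F : ℝ) ^ (n ^ 2) / 4 ≤ (Nat.card (GL (Fin n) F) : ℝ) := by
  have : Fintype F := Fintype.ofFinite F
  have hq : (2 : ℝ) ≤ (Nat.card F : ℝ) := by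
    exact_mod_cast Finite.one_lt_card (α := F)
  have h0 : (0 : ℝ) < (Nat.card F : ℝ) := by linarith
  have h1 : (Nat.card (GL (Fin n) F) : ℝ) =
      ∏ i ∈ Finset.range n, ((Nat.card F : ℝ) ^ n - (Nat.card F : ℝ) ^ i) := by
    rw [Matrix.card_GL_field, Nat.card_eq_fintype_card, Nat.cast_prod,
      Finset.prod_range fun i => ((Fintype.card F : ℝ) ^ n - (Fintype.card F : ℝ) ^ i)]
    refine Finset.prod_congr rfl fun i _ => ?_
    rw [Nat.cast_sub]
    · push_cast
      rfl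
    · exact Nat.pow_le_pow_right Fintype.card_pos i.2.le
  rw [h1, ← Finset.prod_range_reflect]
  have h2 : ∏ j ∈ Finset.range n, ((Nat.card F : ℝ) ^ n - (Nat.card F : ℝ) ^ (n - 1 - j)) =
      (Nat.card F : ℝ) ^ (n ^ 2) * ∏ j ∈ Finset.range n, (1 - ((Nat.card F : ℝ)⁻¹) ^ (j + 1)) := by
    have h3 : (Nat.card F : ℝ) ^ (n ^ 2) = ∏ _j ∈ Finset.range n, (Nat.card F : ℝ) ^ n := by
      rw [Finset.prod_const, Finset.card_range, ← pow_mul, sq]
    rw [h3, ← Finset.prod_mul_distrib]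
    refine Finset.prod_congr rfl fun j hj => ?_
    have hj' : j < n := Finset.mem_range.mp hj
    have h4 : (Nat.card F : ℝ) ^ n = (Nat.card F : ℝ) ^ (n - 1 - j) * (Nat.card F : ℝ) ^ (j + 1) := by
      rw [← pow_add]
      congr 1
      omega
    rw [mul_sub, mul_one, inv_pow]
    congr 1
    rw [h4, mul_assoc, mul_inv_cancel₀ (pow_ne_zero _ h0.ne'), mul_one]
  rw [h2]
  have h5 := hPI (Nat.card F : ℝ) hq n
  have h6 : (0 : ℝ) ≤ (Nat.card F : ℝ) ^ (n ^ 2) := by positivity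
  calc (Nat.card F : ℝ) ^ (n ^ 2) / 4 = (Nat.card F : ℝ) ^ (n ^ 2) * (1 / 4) := by ring
    _ ≤ _ := mul_le_mul_of_nonneg_left h5 h6

theorem card_PS_ge (hPI : S_PI) [Finite F] :
    (Nat.card F : ℝ) ^ (n ^ 2) / 4 ≤ (Nat.card F : ℝ) ^ 2 * Nat.card (PS n F) := by
  have hf := finSL (F := F) (n := n)
  have h1 := card_GL_ge (F := F) (n := n) hPI
  have h2 := card_GL_le (F := F) (n := n)
  have h3 : Nat.card (Matrix.SpecialLinearGroup (Fin n) F) = Nat.card (PS n F) * Nat.card (Z n F) :=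
    Subgroup.card_eq_card_quotient_mul_card_subgroup (Z n F)
  have h4 := card_Z_le (F := F) (n := n)
  have h5 : Nat.card (GL (Fin n) F) ≤ Nat.card F ^ 2 * Nat.card (PS n F) := by
    calc Nat.card (GL (Fin n) F) ≤ Nat.card F * (Nat.card (PS n F) * Nat.card (Z n F)) := by
          rw [← h3]; exact h2
      _ ≤ Nat.card F * (Nat.card (PS n F) * Nat.card F) :=
        Nat.mul_le_mul_left _ (Nat.mul_le_mul_left _ h4)
      _ = _ := by ring
  have h6 : (Nat.card (GL (Fin n) F) : ℝ) ≤ (Nat.card F : ℝ) ^ 2 * Nat.card (PS n F) := by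
    exact_mod_cast h5
  linarith

theorem bad_le (hPI : S_PI) (hPJ : S_PJ) (hGB : S_GB) [Finite F] (k : ℕ) (hk : 2 ≤ k)
    (hn : 128 + 64 * k ^ 2 ≤ n) :
    2 * (Nat.card {g : PS n F // BgE g} : ℝ) ≤ jn (PS n F) k := by
  have hn1 : 1 ≤ n := by omega
  have hq : (2 : ℝ) ≤ (Nat.card F : ℝ) := by
    exact_mod_cast Finite.one_lt_card (α := F)
  have h0 : (0 : ℝ) < (Nat.card F : ℝ) := by linarith
  have hq1 : (1 : ℝ) ≤ (Nat.card F : ℝ) := by linarith
  set q : ℝ := (Nat.card F : ℝ) with hqdef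
  have h1 := hGB F n hn1
  have h2 := hPJ F n k (by omega)
  have h3 := card_PS_ge (F := F) (n := n) hPI
  have hkr : (2 : ℝ) ≤ (k : ℝ) := by exact_mod_cast hk
  have hnr : (128 : ℝ) + 64 * (k : ℝ) ^ 2 ≤ (n : ℝ) := by exact_mod_cast hn
  have hn1r : (1 : ℝ) ≤ (n : ℝ) := by exact_mod_cast hn1
  have hnn : (n : ℝ) ≤ (n : ℝ) ^ 2 := by nlinarith
  -- the exponents
  have e1 : q ^ (n ^ 2) = q ^ ((n : ℝ) ^ 2) := by
    rw [← Real.rpow_natCast]
    push_cast
    rfl
  have e2 : q ^ 2 = q ^ (2 : ℝ) := by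
    rw [← Real.rpow_natCast]
    norm_num
  have h4 : q ^ ((n : ℝ) ^ 2 - 2) / 4 ≤ (Nat.card (PS n F) : ℝ) := by
    rw [Real.rpow_sub h0, ← e1, ← e2]
    rw [div_div, mul_comm, ← div_div, div_le_iff₀ (by positivity)]
    calc q ^ (n ^ 2) / 4 ≤ q ^ 2 * Nat.card (PS n F) := h3
      _ = _ := mul_comm _ _
  have h5 : q ^ ((n : ℝ) ^ 2 / 2 - 2 - 4 * (k : ℝ) ^ 2) / 4 ≤ jn (PS n F) k := by
    have h6 : (n : ℝ) ^ 2 / k ≤ (n : ℝ) ^ 2 / 2 :=
      div_le_div_of_nonneg_left (by positivity) (by norm_num) hkr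
    calc q ^ ((n : ℝ) ^ 2 / 2 - 2 - 4 * (k : ℝ) ^ 2) / 4
        ≤ q ^ (((n : ℝ) ^ 2 - 2) + (-((n : ℝ) ^ 2 / k) - 4 * (k : ℝ) ^ 2)) / 4 := by
          refine div_le_div_of_nonneg_right ?_ (by norm_num)
          exact Real.rpow_le_rpow_of_exponent_le hq1 (by linarith)
      _ = (q ^ ((n : ℝ) ^ 2 - 2) / 4) * q ^ (-((n : ℝ) ^ 2 / k) - 4 * (k : ℝ) ^ 2) := by
          rw [Real.rpow_add h0]
          ring
      _ ≤ (Nat.card (PS n F) : ℝ) * q ^ (-((n : ℝ) ^ 2 / k) - 4 * (k : ℝ) ^ 2) :=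
          mul_le_mul_of_nonneg_right h4 (Real.rpow_nonneg h0.le _)
      _ ≤ _ := h2
  have h32 : (32 : ℝ) ≤ q ^ (5 : ℝ) := by
    have : q ^ (5 : ℝ) = q ^ 5 := by
      rw [← Real.rpow_natCast]
      norm_num
    rw [this]
    calc (32 : ℝ) = 2 ^ 5 := by norm_num
      _ ≤ q ^ 5 := pow_le_pow_left₀ (by norm_num) hq 5
  calc 2 * (Nat.card {g : PS n F // BgE g} : ℝ)
      ≤ 2 * (4 * q ^ (1 + 7 / 16 * (n : ℝ) ^ 2)) := by linarith
    _ = (32 * q ^ (1 + 7 / 16 * (n : ℝ) ^ 2)) / 4 := by ring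
    _ ≤ (q ^ (5 : ℝ) * q ^ (1 + 7 / 16 * (n : ℝ) ^ 2)) / 4 := by
        refine div_le_div_of_nonneg_right ?_ (by norm_num)
        exact mul_le_mul_of_nonneg_right h32 (Real.rpow_nonneg h0.le _)
    _ = q ^ (5 + (1 + 7 / 16 * (n : ℝ) ^ 2)) / 4 := by rw [← Real.rpow_add h0]
    _ ≤ q ^ ((n : ℝ) ^ 2 / 2 - 2 - 4 * (k : ℝ) ^ 2) / 4 := by
        refine div_le_div_of_nonneg_right ?_ (by norm_num)
        refine Real.rpow_le_rpow_of_exponent_le hq1 ?_
        nlinarith
    _ ≤ _ := h5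

theorem half (hPI : S_PI) (hPJ : S_PJ) (hGB : S_GB) [Finite F] (k : ℕ) (L : List ℕ) (hk : 2 ≤ k)
    (hn : 128 + 64 * k ^ 2 ≤ n) :
    2 * Nat.card (TB (PS n F) (k :: L) BgE) ≤ Nat.card (TP (PS n F) (k :: L)) := by
  have := finPS (F := F) (n := n)
  have h1 := bad_le (F := F) (n := n) hPI hPJ hGB k hk hn
  have h1' : 2 * Nat.card {g : PS n F // BgE g} ≤ jn (PS n F) k := by exact_mod_cast h1
  have h2 := card_TB (PS n F) k L BgE
  have h3 : 0 < jn (PS n F) k := by
    have : Nonempty {x : PS n F // x ^ k = 1} := ⟨⟨1, one_pow k⟩⟩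
    exact Nat.card_pos
  refine Nat.le_of_mul_le_mul_right ?_ h3
  calc 2 * Nat.card (TB (PS n F) (k :: L) BgE) * jn (PS n F) k
      = 2 * (Nat.card (TB (PS n F) (k :: L) BgE) * jn (PS n F) k) := by ring
    _ ≤ 2 * (Nat.card {g : PS n F // BgE g} * Nat.card (TP (PS n F) (k :: L))) :=
        Nat.mul_le_mul_left _ h2
    _ = (2 * Nat.card {g : PS n F // BgE g}) * Nat.card (TP (PS n F) (k :: L)) := by ring
    _ ≤ jn (PS n F) k * Nat.card (TP (PS n F) (k :: L)) := Nat.mul_le_mul_right _ h1'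
    _ = _ := Nat.mul_comm _ _

end LG

theorem t_LG : M_LG := by
  intro _ hPI hPJ hNX hGB m hm h2
  obtain ⟨k, L, rfl⟩ := List.exists_cons_of_ne_nil hm
  have hk : 2 ≤ k := h2 k (by simp)
  refine ⟨max 3072 (128 + 64 * k ^ 2), fun n hn F _ _ => ?_⟩
  have hn1 : 3072 ≤ n := (le_max_left _ _).trans hn
  have hn2 : 128 + 64 * k ^ 2 ≤ n := (le_max_right _ _).trans hn
  have := LG.finPS (F := F) (n := n)
  have hh := LG.half (F := F) (n := n) hPI hPJ hGB k L hk hn2
  constructor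
  · exact LG.general (PS n F) (k :: L) (Nat.card F ^ gx n) BgE hh
      (fun a b => a * b * a⁻¹ * b⁻¹) fun g hg => (hNX F n hn1 g hg).1
  · exact LG.general (PS n F) (k :: L) (Nat.card F ^ gx n) BgE hh
      (fun a b => a ^ 2 * b ^ 2) fun g hg => (hNX F n hn1 g hg).2

end

end RSF
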