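import Pool.Agent.RSF.Stmts4

/-!
# Module RSF_B1: existence of block factorisations
-/

namespace RSF

namespace B1

/-- The projection to `ker φ` along the range of `u`. -/
noncomputable def pr {F V : Type} [Field F] [AddCommGroup V] [Module F V] {h : ℕ}
    (u : (Fin h → F) →ₗ[F] V) (φ : V →ₗ[F] (Fin h → F)) (hu : ∀ x, φ (u x) = x) :
    V →ₗ[F] LinearMap.ker φ where
  toFun v := ⟨v - u (φ v), by
    rw [LinearMap.mem_ker, map_sub, hu, sub_self]⟩
  map_add' v w := by
    apply Subtype.ext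
    simp only [map_add, Submodule.coe_add]
    abel
  map_smul' r v := by
    apply Subtype.ext
    simp only [map_smul, RingHom.id_apply, Submodule.coe_smul, smul_sub]

theorem pr_coe {F V : Type} [Field F] [AddCommGroup V] [Module F V] {h : ℕ}
    (u : (Fin h → F) →ₗ[F] V) (φ : V →ₗ[F] (Fin h → F)) (hu : ∀ x, φ (u x) = x) (v : V) :
    ((pr u φ hu v : LinearMap.ker φ) : V) = v - u (φ v) := rfl

theorem pr_u {F V : Type} [Field F] [AddCommGroup V] [Module F V] {h : ℕ}
    (u : (Fin h → F) →ₗ[F] V) (φ : V →ₗ[F] (Fin h → F)) (hu : ∀ x, φ (u x) = x)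
    (x : Fin h → F) : pr u φ hu (u x) = 0 := by
  apply Subtype.ext
  rw [pr_coe, hu, sub_self]
  rfl

theorem pr_w {F V : Type} [Field F] [AddCommGroup V] [Module F V] {h : ℕ}
    (u : (Fin h → F) →ₗ[F] V) (φ : V →ₗ[F] (Fin h → F)) (hu : ∀ x, φ (u x) = x)
    (w : LinearMap.ker φ) : pr u φ hu (w : V) = w := by
  apply Subtype.ext
  rw [pr_coe, LinearMap.mem_ker.1 w.2, map_zero, sub_zero]

theorem t_B1_aux (F V : Type) [Field F] [AddCommGroup V] [Module F V] [FiniteDimensional F V]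
    (h : ℕ) (A : GV F V) (u : (Fin h → F) →ₗ[F] V) (φ : V →ₗ[F] (Fin h → F))
    (a c : GV F (Fin h → F)) (a' c' : GV F (LinearMap.ker φ)) (hu : ∀ x, φ (u x) = x)
    (hA : ∀ x, φ (A (u x)) = a (c x)) (hS : Sch A u φ (a' * c')) :
    ∃ B C : GV F V, B * C = A ∧ Blk u φ a c a' c' B C := by
  -- the endomorphism `C`
  set Cf : V →ₗ[F] V :=
    u ∘ₗ (c : (Fin h → F) →ₗ[F] (Fin h → F)) ∘ₗ φ +
      u ∘ₗ (a.symm : (Fin h → F) →ₗ[F] (Fin h → F)) ∘ₗ φ ∘ₗ (A : V →ₗ[F] V) ∘ₗ
        (LinearMap.ker φ).subtype ∘ₗ pr u φ hu +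
      (LinearMap.ker φ).subtype ∘ₗ (c' : LinearMap.ker φ →ₗ[F] LinearMap.ker φ) ∘ₗ
        pr u φ hu with hCf
  have hCv : ∀ v, Cf v = u (c (φ v)) + u (a.symm (φ (A (pr u φ hu v : V)))) +
      (c' (pr u φ hu v) : V) := fun v => rfl
  have hphi0 : ∀ w : LinearMap.ker φ, φ (w : V) = 0 := fun w => LinearMap.mem_ker.1 w.2
  have hCu : ∀ x, Cf (u x) = u (c x) := by
    intro x
    rw [hCv, hu, pr_u]
    simp
  have hCw : ∀ w : LinearMap.ker φ, Cf (w : V) = (c' w : V) + u (a.symm (φ (A (w : V)))) := by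
    intro w
    rw [hCv, hphi0, pr_w]
    simp only [map_zero, zero_add]
    rw [add_comm]
  have hinj : Function.Injective Cf := by
    rw [← LinearMap.ker_eq_bot, LinearMap.ker_eq_bot']
    intro v hv
    have hdec : v = u (φ v) + (pr u φ hu v : V) := by
      rw [pr_coe]; abel
    have h1 : c' (pr u φ hu v) = 0 := by
      have h2 := congrArg (pr u φ hu) hv
      rw [hCv, map_add, map_add, pr_u, pr_u, pr_w, map_zero, zero_add, zero_add] at h2
      exact h2
    have h3 : pr u φ hu v = 0 := by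
      rw [← map_zero c'] at h1
      exact c'.injective h1
    have h4 : c (φ v) = 0 := by
      have h5 := congrArg φ hv
      rw [hCv, h3] at h5
      simp only [map_zero, add_zero, ZeroMemClass.coe_zero, hu] at h5
      exact h5
    have h6 : φ v = 0 := by
      rw [← map_zero c] at h4
      exact c.injective h4
    rw [hdec, h3, h6]
    simp
  set C : GV F V := LinearEquiv.ofInjectiveEndo Cf hinj with hC
  have hCC : ∀ v, C v = Cf v := fun v => rfl
  refine ⟨A * C⁻¹, C, by group, ?_, ?_, ?_, ?_⟩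
  · intro x
    rw [hCC, hCu]
  · intro w
    exact ⟨a.symm (φ (A (w : V))), by rw [hCC, hCw]⟩
  · intro w
    obtain ⟨x, hx⟩ := hS (c'.symm w)
    have hx' : ((a' w : LinearMap.ker φ) : V) = A (((c'.symm w : LinearMap.ker φ) : V) - u x) := by
      rw [← hx]
      change ((a' w : LinearMap.ker φ) : V) = (a' (c' (c'.symm w)) : V)
      rw [LinearEquiv.apply_symm_apply]
    have h1 : φ (A ((c'.symm w : LinearMap.ker φ) : V)) = a (c x) := by
      have h2 := congrArg φ hx'
      rw [hphi0, map_sub, map_sub, hA] at h2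
      exact (sub_eq_zero.1 h2.symm)
    have h3 : C (((c'.symm w : LinearMap.ker φ) : V) - u x) = (w : V) := by
      rw [map_sub, hCC, hCC, hCw, hCu, h1, LinearEquiv.symm_apply_apply,
        LinearEquiv.apply_symm_apply, add_sub_cancel_right]
    have h4 : C⁻¹ (w : V) = ((c'.symm w : LinearMap.ker φ) : V) - u x := by
      rw [← h3]
      exact C.symm_apply_apply _
    change A (C⁻¹ (w : V)) = _
    rw [h4, hx']
  · intro x
    have h3 : C (u (c.symm x)) = u x := by
      rw [hCC, hCu, LinearEquiv.apply_symm_apply]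
    have h4 : C⁻¹ (u x) = u (c.symm x) := by
      rw [← h3]
      exact C.symm_apply_apply _
    change φ (A (C⁻¹ (u x))) = _
    rw [h4, hA, LinearEquiv.apply_symm_apply]

end B1

theorem t_B1 : S_B1 := fun F V _ _ _ _ h A u φ a c a' c' hu hA hS =>
  B1.t_B1_aux F V h A u φ a c a' c' hu hA hS

end RSF
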