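import Pool.Agent.RSF.Stmts4

/-!
# Existence, uniqueness and determinant of the Schur complement
-/

namespace RSF

namespace B2

variable {F V : Type} [Field F] [AddCommGroup V] [Module F V]

theorem dt_mul (A B : GV F V) : dt (A * B) = dt A * dt B := by
  unfold dt
  rw [← map_mul]
  rfl

theorem dt_one : dt (1 : GV F V) = 1 := by
  unfold dt
  have h : ((1 : GV F V) : V →ₗ[F] V) = 1 := rfl
  rw [h, map_one]

/-- the map `w ↦ A (w - u T⁻¹ φ A w)` on `ker φ` -/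
noncomputable def sc {h : ℕ} (A : GV F V) (u : (Fin h → F) →ₗ[F] V) (φ : V →ₗ[F] (Fin h → F))
    (T : GV F (Fin h → F)) : V →ₗ[F] V :=
  (A : V →ₗ[F] V) ∘ₗ (LinearMap.id - u ∘ₗ (T.symm : (Fin h → F) →ₗ[F] (Fin h → F)) ∘ₗ φ ∘ₗ
    (A : V →ₗ[F] V))

theorem sc_apply {h : ℕ} (A : GV F V) (u : (Fin h → F) →ₗ[F] V) (φ : V →ₗ[F] (Fin h → F))
    (T : GV F (Fin h → F)) (w : V) : sc A u φ T w = A (w - u (T.symm (φ (A w)))) := rfl

theorem phi_sc {h : ℕ} (A : GV F V) (u : (Fin h → F) →ₗ[F] V) (φ : V →ₗ[F] (Fin h → F))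
    (T : GV F (Fin h → F)) (hT : ∀ x, φ (A (u x)) = T x) (w : V) : φ (sc A u φ T w) = 0 := by
  rw [sc_apply, map_sub, map_sub, hT, LinearEquiv.apply_symm_apply, sub_self]

/-- the endomorphism of `ker φ` -/
noncomputable def sk {h : ℕ} (A : GV F V) (u : (Fin h → F) →ₗ[F] V) (φ : V →ₗ[F] (Fin h → F))
    (T : GV F (Fin h → F)) (hT : ∀ x, φ (A (u x)) = T x) :
    LinearMap.ker φ →ₗ[F] LinearMap.ker φ :=
  LinearMap.codRestrict (LinearMap.ker φ) (sc A u φ T ∘ₗ (LinearMap.ker φ).subtype)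
    (fun w => by
      rw [LinearMap.mem_ker]
      exact phi_sc A u φ T hT _)

theorem sk_apply {h : ℕ} (A : GV F V) (u : (Fin h → F) →ₗ[F] V) (φ : V →ₗ[F] (Fin h → F))
    (T : GV F (Fin h → F)) (hT : ∀ x, φ (A (u x)) = T x) (w : LinearMap.ker φ) :
    ((sk A u φ T hT w : LinearMap.ker φ) : V) = A ((w : V) - u (T.symm (φ (A (w : V))))) := rfl

theorem sk_inj {h : ℕ} (A : GV F V) (u : (Fin h → F) →ₗ[F] V) (φ : V →ₗ[F] (Fin h → F))
    (T : GV F (Fin h → F)) (hu : ∀ x, φ (u x) = x) (hT : ∀ x, φ (A (u x)) = T x) :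
    Function.Injective (sk A u φ T hT) := by
  rw [injective_iff_map_eq_zero]
  intro w hw
  have h1 : A ((w : V) - u (T.symm (φ (A (w : V))))) = 0 := by
    rw [← sk_apply A u φ T hT w, hw]; rfl
  have h2 : (w : V) - u (T.symm (φ (A (w : V)))) = 0 := by
    have := A.injective (h1.trans (map_zero A).symm)
    exact this
  have h3 : (w : V) = u (T.symm (φ (A (w : V)))) := sub_eq_zero.mp h2
  have h4 : φ (w : V) = 0 := w.2
  have h5 : T.symm (φ (A (w : V))) = 0 := by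
    have := hu (T.symm (φ (A (w : V))))
    rw [← h3, h4] at this
    exact this.symm
  apply Subtype.ext
  rw [h3, h5, map_zero]
  rfl

theorem sch_unique {h : ℕ} (A : GV F V) (u : (Fin h → F) →ₗ[F] V) (φ : V →ₗ[F] (Fin h → F))
    (T : GV F (Fin h → F)) (hT : ∀ x, φ (A (u x)) = T x) (S S' : GV F (LinearMap.ker φ))
    (hS : Sch A u φ S) (hS' : Sch A u φ S') : S' = S := by
  have key : ∀ S : GV F (LinearMap.ker φ), Sch A u φ S → ∀ w : LinearMap.ker φ,
      (S w : V) = A ((w : V) - u (T.symm (φ (A (w : V))))) := by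
    intro S hS w
    obtain ⟨x, hx⟩ := hS w
    have h1 : φ (S w : V) = 0 := (S w).2
    rw [hx, map_sub, map_sub, hT] at h1
    have h2 : φ (A (w : V)) = T x := sub_eq_zero.mp h1
    have h3 : x = T.symm (φ (A (w : V))) := by
      rw [h2, LinearEquiv.symm_apply_apply]
    rw [hx, ← h3]
  apply LinearEquiv.ext
  intro w
  apply Subtype.ext
  rw [key S hS w, key S' hS' w]

end B2

theorem t_B2 : M_B2 := by
  intro hB1 hBT F V _ _ _ _ h A u φ T hu hT
  let S : GV F (LinearMap.ker φ) := LinearEquiv.ofInjectiveEndo _ (B2.sk_inj A u φ T hu hT)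
  have hS : Sch A u φ S := fun w => ⟨T.symm (φ (A (w : V))), B2.sk_apply A u φ T hT w⟩
  refine ⟨S, hS, ?_, fun S' hS' => B2.sch_unique A u φ T hT S S' hS hS'⟩
  obtain ⟨B, C, hBC, hblk⟩ := hB1 F V h A u φ T 1 S 1 hu (fun x => hT x)
    (by rw [mul_one]; exact hS)
  obtain ⟨-, -, h3, h4, -, -⟩ := hBT F V h u φ T 1 S 1 B C hu hblk
  rw [← hBC, B2.dt_mul, h3, h4, B2.dt_one, B2.dt_one, mul_one, mul_one]

end RSF
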