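import Pool.Agent.RSF.Stmts4

/-!
# BT: block triangular maps
-/

namespace RSF

open Polynomial

noncomputable section

namespace BT

variable {F : Type} [Field F]

/-- lower block triangular maps -/
theorem lower {P K : Type} [AddCommGroup P] [Module F P] [FiniteDimensional F P] [AddCommGroup K]
    [Module F K] [FiniteDimensional F K] (f : P × K →ₗ[F] P × K) (α : P →ₗ[F] P)
    (α' : K →ₗ[F] K) (h1 : ∀ z, (f z).1 = α z.1) (h2 : ∀ w, (f (0, w)).2 = α' w) :
    f.charpoly = α.charpoly * α'.charpoly ∧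
      LinearMap.det f = LinearMap.det α * LinearMap.det α' := by
  let b1 := Module.finBasis F P
  let b2 := Module.finBasis F K
  have key : LinearMap.toMatrix (b1.prod b2) (b1.prod b2) f = Matrix.fromBlocks
      (LinearMap.toMatrix b1 b1 α) 0
      (Matrix.of fun i j => b2.repr (f (b1 j, 0)).2 i) (LinearMap.toMatrix b2 b2 α') := by
    ext i j
    rcases i with i | i <;> rcases j with j | j
    · rw [LinearMap.toMatrix_apply, Matrix.fromBlocks_apply₁₁, LinearMap.toMatrix_apply]
      simp [h1]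
    · rw [LinearMap.toMatrix_apply, Matrix.fromBlocks_apply₁₂]
      simp [h1]
    · rw [LinearMap.toMatrix_apply, Matrix.fromBlocks_apply₂₁]
      simp
    · rw [LinearMap.toMatrix_apply, Matrix.fromBlocks_apply₂₂, LinearMap.toMatrix_apply]
      simp [h2]
  constructor
  · rw [← LinearMap.charpoly_toMatrix f (b1.prod b2), key, Matrix.charpoly_fromBlocks_zero₁₂,
      LinearMap.charpoly_toMatrix, LinearMap.charpoly_toMatrix]
  · rw [← LinearMap.det_toMatrix (b1.prod b2), key, Matrix.det_fromBlocks_zero₁₂,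
      LinearMap.det_toMatrix, LinearMap.det_toMatrix]

/-- upper block triangular maps -/
theorem upper {P K : Type} [AddCommGroup P] [Module F P] [FiniteDimensional F P] [AddCommGroup K]
    [Module F K] [FiniteDimensional F K] (f : P × K →ₗ[F] P × K) (α : P →ₗ[F] P)
    (α' : K →ₗ[F] K) (h1 : ∀ z, (f z).2 = α' z.2) (h2 : ∀ x, (f (x, 0)).1 = α x) :
    f.charpoly = α.charpoly * α'.charpoly ∧
      LinearMap.det f = LinearMap.det α * LinearMap.det α' := by
  let e := LinearEquiv.prodComm F P K
  obtain ⟨h3, h4⟩ := lower (e.conj f) α' α (by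
    intro z
    change (f (z.2, z.1)).2 = α' z.1
    rw [h1]) (by
    intro x
    change (f (x, 0)).1 = α x
    rw [h2])
  rw [LinearEquiv.charpoly_conj] at h3
  have h5 : LinearMap.det (e.conj f) = LinearMap.det f := LinearMap.det_conj f e
  rw [h5] at h4
  exact ⟨h3.trans (mul_comm _ _), h4.trans (mul_comm _ _)⟩

variable {V : Type} [AddCommGroup V] [Module F V]

theorem aev {W : Type} [AddCommGroup W] [Module F W] (f : V →ₗ[F] V) (g : W →ₗ[F] W)
    (θ : V →ₗ[F] W) (h : ∀ v, θ (f v) = g (θ v)) (p : F[X]) (v : V) :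
    θ (aeval f p v) = aeval g p (θ v) := by
  induction p using Polynomial.induction_on' with
  | add p q hp hq => rw [map_add, map_add, LinearMap.add_apply, LinearMap.add_apply, map_add, hp, hq]
  | monomial n a =>
    have h1 : ∀ n v, θ ((f ^ n) v) = (g ^ n) (θ v) := by
      intro n
      induction n with
      | zero => intro v; rfl
      | succ n ih => intro v; rw [pow_succ, pow_succ, Module.End.mul_apply, Module.End.mul_apply, ih, h]
    rw [aeval_monomial, aeval_monomial, Module.End.mul_apply, Module.End.mul_apply,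
      Module.algebraMap_end_apply, Module.algebraMap_end_apply, map_smul, h1]

end BT

theorem t_BT : S_BT := by
  intro F V _ _ _ _ h u φ a c a' c' B C hu hblk
  obtain ⟨hC1, hC2, hB1, hB2⟩ := hblk
  have hq : ∀ v, v - u (φ v) ∈ LinearMap.ker φ := by
    intro v
    rw [LinearMap.mem_ker, map_sub, hu, sub_self]
  let q : V →ₗ[F] LinearMap.ker φ := LinearMap.codRestrict _ (LinearMap.id - u.comp φ) hq
  have hqv : ∀ v, (q v : V) = v - u (φ v) := fun v => rfl
  have hφw : ∀ w : LinearMap.ker φ, φ (w : V) = 0 := fun w => w.2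
  have hqw : ∀ w : LinearMap.ker φ, q (w : V) = w := by
    intro w
    apply Subtype.ext
    rw [hqv, hφw, map_zero, sub_zero]
  have hqu : ∀ x, q (u x) = 0 := by
    intro x
    apply Subtype.ext
    rw [hqv, hu, sub_self]
    rfl
  have hdec : ∀ v, v = u (φ v) + (q v : V) := by
    intro v
    rw [hqv]
    abel
  -- equivalences from pairs of maps
  have mk : ∀ (τ : V →ₗ[F] (Fin h → F)) (π : V →ₗ[F] LinearMap.ker φ),
      (∀ v, τ v = 0 → π v = 0 → v = 0) →
      (∀ x w, ∃ v, τ v = x ∧ π v = w) → ∃ ψ : V ≃ₗ[F] (Fin h → F) × LinearMap.ker φ,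
        ∀ v, ψ v = (τ v, π v) := by
    intro τ π h1 h2
    refine ⟨LinearEquiv.ofBijective (τ.prod π) ⟨?_, ?_⟩, fun v => rfl⟩
    · rw [injective_iff_map_eq_zero]
      intro v hv
      exact h1 v (congrArg Prod.fst hv) (congrArg Prod.snd hv)
    · rintro ⟨x, w⟩
      obtain ⟨v, hv1, hv2⟩ := h2 x w
      exact ⟨v, Prod.ext hv1 hv2⟩
  obtain ⟨e, he⟩ := mk φ q (fun v h1 h2 => by
    rw [hdec v, h1, h2, map_zero, zero_add]
    rfl) (fun x w => ⟨u x + w, by rw [map_add, hu, hφw, add_zero], by
      rw [map_add, hqu, hqw, zero_add]⟩)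
  have hes : ∀ x w, e.symm (x, w) = u x + w := by
    intro x w
    rw [LinearEquiv.symm_apply_eq, he, map_add, hu, hφw, add_zero, map_add, hqu, hqw, zero_add]
  have hφB : ∀ v, φ (B v) = a (φ v) := by
    intro v
    conv_lhs => rw [hdec v]
    rw [map_add, map_add, hB2, hB1, hφw, add_zero]
  have hqC : ∀ v, q (C v) = c' (q v) := by
    intro v
    obtain ⟨x, hx⟩ := hC2 (q v)
    conv_lhs => rw [hdec v]
    rw [map_add, hC1, hx, map_add, map_add, hqu, hqw, hqu, zero_add, add_zero]
  obtain ⟨hB3, hB4⟩ := BT.lower (e.conj (B : V →ₗ[F] V)) (a : (Fin h → F) →ₗ[F] (Fin h → F))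
    (a' : LinearMap.ker φ →ₗ[F] LinearMap.ker φ) (by
      rintro ⟨x, w⟩
      change (e (B (e.symm (x, w)))).1 = a x
      rw [he, hφB, hes, map_add, hu, hφw, add_zero]) (by
      intro w
      change (e (B (e.symm (0, w)))).2 = a' w
      rw [he, hes, map_zero, zero_add, hB1, hqw])
  obtain ⟨hC3, hC4⟩ := BT.upper (e.conj (C : V →ₗ[F] V)) (c : (Fin h → F) →ₗ[F] (Fin h → F))
    (c' : LinearMap.ker φ →ₗ[F] LinearMap.ker φ) (by
      rintro ⟨x, w⟩
      change (e (C (e.symm (x, w)))).2 = c' w
      rw [he, hes]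
      change q (C (u x + (w : V))) = c' w
      rw [hqC, map_add, hqu, hqw, zero_add]) (by
      intro x
      change (e (C (e.symm (x, 0)))).1 = c x
      rw [he, hes, ZeroMemClass.coe_zero, add_zero, hC1, hu])
  rw [LinearEquiv.charpoly_conj] at hB3 hC3
  have hdB : LinearMap.det (e.conj (B : V →ₗ[F] V)) = LinearMap.det (B : V →ₗ[F] V) :=
    LinearMap.det_conj _ e
  have hdC : LinearMap.det (e.conj (C : V →ₗ[F] V)) = LinearMap.det (C : V →ₗ[F] V) :=
    LinearMap.det_conj _ e
  rw [hdB] at hB4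
  rw [hdC] at hC4
  refine ⟨hB3, hC3, hB4, hC4, ?_, ?_⟩
  · -- the map `B`
    rintro ⟨α, β, hαβ⟩
    have hann : ∀ x, aeval (a : (Fin h → F) →ₗ[F] (Fin h → F)) (chp a) x = 0 := by
      intro x
      rw [chp, LinearMap.aeval_self_charpoly]
      rfl
    have hann' : ∀ w, aeval (a' : LinearMap.ker φ →ₗ[F] LinearMap.ker φ) (chp a') w = 0 := by
      intro w
      rw [chp, LinearMap.aeval_self_charpoly]
      rfl
    have h1 : ∀ v, aeval (B : V →ₗ[F] V) (α * chp a) v ∈ LinearMap.ker φ := by
      intro v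
      rw [LinearMap.mem_ker, BT.aev (B : V →ₗ[F] V) (a : (Fin h → F) →ₗ[F] (Fin h → F)) φ hφB,
        map_mul, Module.End.mul_apply, hann, map_zero]
    let π : V →ₗ[F] LinearMap.ker φ :=
      LinearMap.codRestrict _ (aeval (B : V →ₗ[F] V) (α * chp a)) h1
    have hπ : ∀ v, (π v : V) = aeval (B : V →ₗ[F] V) (α * chp a) v := fun v => rfl
    have hπw : ∀ w : LinearMap.ker φ, π (w : V) = w := by
      intro w
      apply Subtype.ext
      rw [hπ]
      have h2 : aeval (B : V →ₗ[F] V) (α * chp a) (w : V) =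
          ((aeval (a' : LinearMap.ker φ →ₗ[F] LinearMap.ker φ) (α * chp a) w : LinearMap.ker φ) :
            V) := by
        have h3 := BT.aev (a' : LinearMap.ker φ →ₗ[F] LinearMap.ker φ) (B : V →ₗ[F] V)
          (LinearMap.ker φ).subtype (fun v => (hB1 v).symm) (α * chp a) w
        exact h3.symm
      rw [h2]
      have h4 : aeval (a' : LinearMap.ker φ →ₗ[F] LinearMap.ker φ) (α * chp a) w = w := by
        have h5 : α * chp a = 1 - β * chp a' := by rw [← hαβ]; ring
        rw [h5, map_sub, map_one, map_mul, LinearMap.sub_apply, Module.End.mul_apply, hann',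
          map_zero, sub_zero]
        rfl
      rw [h4]
    have hπB : ∀ v, π (B v) = a' (π v) := by
      intro v
      apply Subtype.ext
      rw [hπ, ← hB1, hπ]
      have h2 := BT.aev (B : V →ₗ[F] V) (B : V →ₗ[F] V) (B : V →ₗ[F] V) (fun v => rfl)
        (α * chp a) v
      exact h2.symm
    obtain ⟨ψ, hψ⟩ := mk φ π (fun v h2 h3 => by
      have h4 : v ∈ LinearMap.ker φ := h2
      have h5 := hπw ⟨v, h4⟩
      rw [h3] at h5
      exact (congrArg Subtype.val h5).symm) (fun x w => ⟨u x + ((w - π (u x) : LinearMap.ker φ) : V), by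
        rw [map_add, hu, hφw, add_zero], by
        rw [map_add, hπw]
        abel⟩)
    exact ⟨ψ, fun v => by rw [hψ, hφB, hπB, hψ]⟩
  · -- the map `C`
    rintro ⟨α, β, hαβ⟩
    have hann : ∀ x, aeval (c : (Fin h → F) →ₗ[F] (Fin h → F)) (chp c) x = 0 := by
      intro x
      rw [chp, LinearMap.aeval_self_charpoly]
      rfl
    have hann' : ∀ w, aeval (c' : LinearMap.ker φ →ₗ[F] LinearMap.ker φ) (chp c') w = 0 := by
      intro w
      rw [chp, LinearMap.aeval_self_charpoly]
      rfl
    let E : V →ₗ[F] V := aeval (C : V →ₗ[F] V) (β * chp c')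
    let τ : V →ₗ[F] (Fin h → F) := φ.comp E
    have hE : ∀ v, E v = u (τ v) := by
      intro v
      have h1 : q (E v) = 0 := by
        change q (aeval (C : V →ₗ[F] V) (β * chp c') v) = 0
        rw [BT.aev (C : V →ₗ[F] V) (c' : LinearMap.ker φ →ₗ[F] LinearMap.ker φ) q hqC,
          map_mul, Module.End.mul_apply, hann', map_zero]
      rw [hdec (E v), h1]
      exact add_zero _
    have hτu : ∀ x, τ (u x) = x := by
      intro x
      have h2 := BT.aev (c : (Fin h → F) →ₗ[F] (Fin h → F)) (C : V →ₗ[F] V) u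
        (fun v => (hC1 v).symm) (β * chp c') x
      change φ (aeval (C : V →ₗ[F] V) (β * chp c') (u x)) = x
      rw [← h2, hu]
      have h5 : β * chp c' = 1 - α * chp c := by rw [← hαβ]; ring
      rw [h5, map_sub, map_one, map_mul, LinearMap.sub_apply, Module.End.mul_apply, hann,
        map_zero, sub_zero]
      rfl
    have hτC : ∀ v, τ (C v) = c (τ v) := by
      intro v
      have h2 : E (C v) = C (E v) := by
        have h3 := BT.aev (C : V →ₗ[F] V) (C : V →ₗ[F] V) (C : V →ₗ[F] V) (fun v => rfl)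
          (β * chp c') v
        exact h3.symm
      rw [hE, hE, hC1] at h2
      have h3 := congrArg φ h2
      rwa [hu, hu] at h3
    obtain ⟨ψ, hψ⟩ := mk τ q (fun v h2 h3 => by
      have h4 := hdec v
      rw [h3] at h4
      have h5 : v = u (φ v) := h4.trans (add_zero _)
      rw [h5, hτu] at h2
      rw [h5, h2, map_zero]) (fun x w => ⟨u (x - τ (w : V)) + (w : V), by
        rw [map_add, hτu]
        abel, by rw [map_add, hqu, hqw, zero_add]⟩)
    exact ⟨ψ, fun v => by rw [hψ, hqC, hτC, hψ]⟩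

end

end RSF
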