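import Pool.Agent.RSF.Stmts4

/-!
# The combination of two blocks (module RSF_CB)
-/

namespace RSF

open Polynomial

noncomputable section

namespace CB

lemma conj_chp {F V : Type} [Field F] [AddCommGroup V] [Module F V] [FiniteDimensional F V]
    (a c : GV F V) (h : IsConj a c) : chp a = chp c := by
  obtain ⟨g, hg⟩ := isConj_iff.1 h
  have h1 : (c : V →ₗ[F] V) = g.conj (a : V →ₗ[F] V) := by
    rw [← hg]
    ext v
    rfl
  unfold chp
  rw [h1, LinearEquiv.charpoly_conj]

/-- the product of two automorphisms transported by `ψ` -/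
def pr {F V X K : Type} [Field F] [AddCommGroup V] [Module F V] [AddCommGroup X] [Module F X]
    [AddCommGroup K] [Module F K] (ψ : V ≃ₗ[F] X × K) (w : GV F X) (w' : GV F K) : GV F V :=
  ψ.trans ((LinearEquiv.prodCongr w w').trans ψ.symm)

lemma pr_apply {F V X K : Type} [Field F] [AddCommGroup V] [Module F V] [AddCommGroup X]
    [Module F X] [AddCommGroup K] [Module F K] (ψ : V ≃ₗ[F] X × K) (w : GV F X) (w' : GV F K)
    (v : V) : ψ (pr ψ w w' v) = (w (ψ v).1, w' (ψ v).2) := by
  simp [pr]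

lemma pr_det {F V X K : Type} [Field F] [AddCommGroup V] [Module F V] [AddCommGroup X]
    [Module F X] [AddCommGroup K] [Module F K] [FiniteDimensional F X] [FiniteDimensional F K]
    (ψ : V ≃ₗ[F] X × K) (w : GV F X) (w' : GV F K) : dt (pr ψ w w') = dt w * dt w' := by
  unfold dt
  rw [← LinearMap.det_prodMap, ← LinearMap.det_conj (LinearMap.prodMap (w : X →ₗ[F] X) (w' : K →ₗ[F] K)) ψ.symm]
  congr 1

end CB

open CB

theorem t_CB : M_CB := by
  intro hBT hIV F V _ _ _ _ _ h e u φ a c a' c' B C hφ hblk hac hac' hco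
  obtain ⟨-, -, -, -, hB, hC⟩ := hBT F V h u φ a c a' c' B C hφ hblk
  have hcc : IsCoprime (chp c) (chp c') := by
    rw [← conj_chp _ _ hac, ← conj_chp _ _ hac']
    cases e with
    | true => simpa [pw] using hco
    | false =>
      have := (hIV F (Fin h → F) (LinearMap.ker φ) a a').2.2.2.1 hco
      simpa [pw] using this
  obtain ⟨ψ, hψ⟩ := hB hco
  obtain ⟨χ, hχ⟩ := hC hcc
  have hBeq : B = pr ψ a a' := by
    ext v
    apply ψ.injective
    rw [hψ, pr_apply]
  have hCeq : C = pr χ c c' := by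
    ext v
    apply χ.injective
    rw [hχ, pr_apply]
  have hmul : ∀ w₁ w₂ : GV F (Fin h → F), ∀ w₁' w₂' : GV F (LinearMap.ker φ),
      pr ψ w₁ w₁' * pr ψ w₂ w₂' = pr ψ (w₁ * w₂) (w₁' * w₂') := by
    intro w₁ w₂ w₁' w₂'
    ext v
    apply ψ.injective
    show ψ (pr ψ w₁ w₁' (pr ψ w₂ w₂' v)) = _
    rw [pr_apply, pr_apply, pr_apply]
    rfl
  have hone : pr ψ (1 : GV F (Fin h → F)) (1 : GV F (LinearMap.ker φ)) = 1 := by
    ext v
    apply ψ.injective
    rw [pr_apply]
    rfl
  have hinv : pr ψ a⁻¹ a'⁻¹ = (pr ψ a a')⁻¹ := by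
    rw [eq_inv_iff_mul_eq_one, hmul, inv_mul_cancel, inv_mul_cancel, hone]
  have hpwB : pw e B = pr ψ (pw e a) (pw e a') := by
    cases e with
    | true => simp [pw, hBeq]
    | false => simp [pw, hBeq, hinv]
  refine ⟨hcc, ?_, ?_, ?_⟩
  · obtain ⟨g, hg⟩ := isConj_iff.1 hac
    obtain ⟨g', hg'⟩ := isConj_iff.1 hac'
    rw [isConj_iff]
    let G : GV F V := ψ.trans ((LinearEquiv.prodCongr g g').trans χ.symm)
    have hG : ∀ v, χ (G v) = (g (ψ v).1, g' (ψ v).2) := by
      intro v
      simp [G]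
    refine ⟨G, ?_⟩
    rw [mul_inv_eq_iff_eq_mul]
    ext v
    apply χ.injective
    show χ (G (pw e B v)) = χ (C (G v))
    rw [hG, hχ, hG, hpwB, pr_apply]
    have e1 : g * pw e a = c * g := by
      rw [← hg]
      group
    have e2 : g' * pw e a' = c' * g' := by
      rw [← hg']
      group
    have e1' := LinearEquiv.congr_fun e1 (ψ v).1
    have e2' := LinearEquiv.congr_fun e2 (ψ v).2
    exact Prod.ext e1' e2'
  · haveI : Finite V := Module.finite_of_finite F
    haveI : Finite (GV F V) := Finite.of_injective (fun w : GV F V => (w : V → V)) (by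
      intro x y hxy
      exact LinearEquiv.ext (congr_fun hxy))
    unfold cz
    rw [← Nat.card_prod]
    refine Nat.card_le_card_of_injective
      (fun p : {w : GV F (Fin h → F) // Commute w a} × {w : GV F (LinearMap.ker φ) // Commute w a'} =>
        (⟨pr ψ p.1.1 p.2.1, by
          show _ * _ = _ * _
          rw [hBeq, hmul, hmul, p.1.2.eq, p.2.2.eq]⟩ : {w : GV F V // Commute w B})) ?_
    rintro ⟨⟨w₁, h₁⟩, ⟨w₁', h₁'⟩⟩ ⟨⟨w₂, h₂⟩, ⟨w₂', h₂'⟩⟩ hEq
    have hE : pr ψ w₁ w₁' = pr ψ w₂ w₂' := congrArg Subtype.val hEq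
    have h3 : ∀ x y, (w₁ x, w₁' y) = (w₂ x, w₂' y) := by
      intro x y
      have h4 := congrArg ψ (LinearEquiv.congr_fun hE (ψ.symm (x, y)))
      rw [pr_apply, pr_apply] at h4
      simpa using h4
    have e1 : w₁ = w₂ := by
      ext1 x
      exact congrArg Prod.fst (h3 x 0)
    have e2 : w₁' = w₂' := by
      ext1 y
      exact congrArg Prod.snd (h3 0 y)
    subst e1
    subst e2
    rfl
  · intro hDS δ hδ
    obtain ⟨w, hw, hwd⟩ := hDS δ hδ
    refine ⟨pr ψ w 1, ?_, ?_⟩
    · show _ * _ = _ * _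
      rw [hBeq, hmul, hmul, hw.eq, one_mul, mul_one]
    · rw [pr_det, hwd]
      have : dt (1 : GV F (LinearMap.ker φ)) = 1 := by
        unfold dt
        exact LinearMap.det_id
      rw [this, mul_one]

end

end RSF
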