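import Pool.Agent.RSF.Stmts4

/-!
# Module CC: cyclic endomorphisms with the same characteristic polynomial are conjugate
-/

set_option autoImplicit false

namespace RSF

open Polynomial

noncomputable section

namespace CC

variable {F V : Type} [Field F] [AddCommGroup V] [Module F V] [FiniteDimensional F V]

/-- `p ↦ p(f) v` -/
def ev (f : V →ₗ[F] V) (v : V) : F[X] →ₗ[F] V where
  toFun p := aeval f p v
  map_add' p q := by rw [map_add, LinearMap.add_apply]
  map_smul' c p := by rw [map_smul, LinearMap.smul_apply, RingHom.id_apply]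

omit [FiniteDimensional F V] in
lemma ev_apply (f : V →ₗ[F] V) (v : V) (p : F[X]) : ev f v p = aeval f p v := rfl

omit [FiniteDimensional F V] in
lemma ev_surj (f : V →ₗ[F] V) (v : V)
    (hv : ∀ W : Submodule F V, v ∈ W → (∀ w ∈ W, f w ∈ W) → W = ⊤) :
    Function.Surjective (ev f v) := by
  rw [← LinearMap.range_eq_top]
  apply hv
  · refine ⟨1, ?_⟩
    rw [ev_apply, map_one, Module.End.one_apply]
  · rintro _ ⟨p, rfl⟩
    refine ⟨X * p, ?_⟩
    rw [ev_apply, ev_apply, map_mul, aeval_X, Module.End.mul_apply]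

lemma ev_mod (f : V →ₗ[F] V) (v : V) (p : F[X]) :
    ev f v (p %ₘ f.charpoly) = ev f v p := by
  rw [ev_apply, ev_apply, aeval_modByMonic_eq_self_of_root f.aeval_self_charpoly]

lemma mod_mem (f : V →ₗ[F] V) (p : F[X]) :
    p %ₘ f.charpoly ∈ degreeLT F (Module.finrank F V) := by
  rw [mem_degreeLT, ← f.charpoly_natDegree, ← degree_eq_natDegree f.charpoly_monic.ne_zero]
  exact degree_modByMonic_lt p f.charpoly_monic

lemma ev_eq_zero_iff (f : V →ₗ[F] V) (v : V)
    (hv : ∀ W : Submodule F V, v ∈ W → (∀ w ∈ W, f w ∈ W) → W = ⊤) (p : F[X]) :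
    ev f v p = 0 ↔ f.charpoly ∣ p := by
  have hsurj : Function.Surjective ((ev f v).domRestrict (degreeLT F (Module.finrank F V))) := by
    intro w
    obtain ⟨p, rfl⟩ := ev_surj f v hv w
    exact ⟨⟨p %ₘ f.charpoly, mod_mem f p⟩, ev_mod f v p⟩
  have : FiniteDimensional F (degreeLT F (Module.finrank F V)) :=
    Module.Finite.equiv (degreeLTEquiv F (Module.finrank F V)).symm
  have hfin : Module.finrank F (degreeLT F (Module.finrank F V)) = Module.finrank F V := by
    rw [(degreeLTEquiv F (Module.finrank F V)).finrank_eq, Module.finrank_fin_fun]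
  have hinj : Function.Injective ((ev f v).domRestrict (degreeLT F (Module.finrank F V))) :=
    (LinearMap.injective_iff_surjective_of_finrank_eq_finrank hfin).2 hsurj
  constructor
  · intro h
    rw [← modByMonic_eq_zero_iff_dvd f.charpoly_monic]
    have h1 : (ev f v).domRestrict (degreeLT F (Module.finrank F V))
        ⟨p %ₘ f.charpoly, mod_mem f p⟩ = 0 := (ev_mod f v p).trans h
    have h2 := hinj (h1.trans (map_zero _).symm)
    exact congrArg Subtype.val h2
  · rintro ⟨q, rfl⟩
    rw [ev_apply, map_mul, f.aeval_self_charpoly, zero_mul, LinearMap.zero_apply]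

end CC

open CC

/-- MODULE CC. -/
theorem t_CC : S_CC := by
  intro F V W _ _ _ _ _ _ _ f g hf hg hfg
  obtain ⟨v, hv⟩ := hf
  obtain ⟨w, hw⟩ := hg
  have hker : LinearMap.ker (ev f v) = LinearMap.ker (ev g w) := by
    ext p
    rw [LinearMap.mem_ker, LinearMap.mem_ker, ev_eq_zero_iff f v hv, ev_eq_zero_iff g w hw, hfg]
  let e1 := (ev f v).quotKerEquivOfSurjective (ev_surj f v hv)
  let e2 := (ev g w).quotKerEquivOfSurjective (ev_surj g w hw)
  let e3 := Submodule.quotEquivOfEq _ _ hker
  have key : ∀ p : F[X], (e1.symm.trans (e3.trans e2)) (ev f v p) = ev g w p := by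
    intro p
    have h1 : e1.symm (ev f v p) = Submodule.Quotient.mk p := by
      rw [LinearEquiv.symm_apply_eq]
      rfl
    rw [LinearEquiv.trans_apply, h1, LinearEquiv.trans_apply]
    rfl
  refine ⟨e1.symm.trans (e3.trans e2), fun u => ?_⟩
  obtain ⟨p, rfl⟩ := ev_surj f v hv u
  have h1 : f (ev f v p) = ev f v (X * p) := by
    rw [ev_apply, ev_apply, map_mul, aeval_X, Module.End.mul_apply]
  rw [h1, key, key, ev_apply, ev_apply, map_mul, aeval_X, Module.End.mul_apply]

end

end RSF
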