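import Pool.Agent.RSF.Stmts4

/-!
# Module RSF_CY: factorisations of cyclic elements of determinant one
-/

namespace RSF

open Polynomial

noncomputable section

namespace CY

section gen

variable {F : Type} [Field F] {V W : Type} [AddCommGroup V] [Module F V]
  [AddCommGroup W] [Module F W]

/-- transport of structure -/
def cj (ψ : V ≃ₗ[F] W) : GV F V →* GV F W where
  toFun f := (ψ.symm.trans f).trans ψ
  map_one' := by
    ext w
    simp
  map_mul' f g := by
    ext w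
    simp

theorem cj_apply (ψ : V ≃ₗ[F] W) (f : GV F V) (w : W) : cj ψ f w = ψ (f (ψ.symm w)) := rfl

theorem cj_pw (ψ : V ≃ₗ[F] W) (e : Bool) (f : GV F V) : cj ψ (pw e f) = pw e (cj ψ f) := by
  unfold pw
  split_ifs
  · rfl
  · exact map_inv _ _

theorem cj_eq (ψ : V ≃ₗ[F] W) (f : GV F V) (g : GV F W) (h : ∀ v, ψ (f v) = g (ψ v)) :
    cj ψ f = g := by
  apply LinearEquiv.ext
  intro w
  rw [cj_apply, h, LinearEquiv.apply_symm_apply]

theorem conj_of (ψ : V ≃ₗ[F] V) (f g : GV F V) (h : ∀ v, ψ (f v) = g (ψ v)) : IsConj f g := by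
  rw [isConj_iff]
  refine ⟨ψ, ?_⟩
  rw [mul_inv_eq_iff_eq_mul]
  exact LinearEquiv.ext h

theorem cyc_tr (ψ : V ≃ₗ[F] W) (f : V →ₗ[F] V) (g : W →ₗ[F] W) (h : ∀ v, ψ (f v) = g (ψ v))
    (hf : Cyc f) : Cyc g := by
  obtain ⟨v, hv⟩ := hf
  refine ⟨ψ v, fun X hX hinv => ?_⟩
  have h1 : X.comap (ψ : V →ₗ[F] W) = ⊤ := by
    apply hv
    · exact hX
    · intro w hw
      have : ψ (f w) ∈ X := by
        rw [h]
        exact hinv _ hw
      exact this
  rw [eq_top_iff]
  intro w _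
  have h2 : ψ.symm w ∈ X.comap (ψ : V →ₗ[F] W) := by
    rw [h1]
    trivial
  have h3 : ψ (ψ.symm w) ∈ X := h2
  rwa [LinearEquiv.apply_symm_apply] at h3

theorem dt_mul (f g : GV F V) : dt (f * g) = dt f * dt g := by
  unfold dt
  rw [← LinearMap.det_comp]
  rfl

theorem dt_ne (f : GV F V) : dt f ≠ 0 := by
  intro h
  have h1 : dt (f * f⁻¹) = 1 := by
    rw [mul_inv_cancel]
    unfold dt
    exact LinearMap.det_id
  rw [dt_mul, h, zero_mul] at h1
  exact zero_ne_one h1

theorem dt_cj (ψ : V ≃ₗ[F] W) (f : GV F V) : dt (cj ψ f) = dt f := by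
  unfold dt
  have : ((cj ψ f : GV F W) : W →ₗ[F] W) =
      (ψ : V →ₗ[F] W) ∘ₗ (f : V →ₗ[F] V) ∘ₗ (ψ.symm : W →ₗ[F] V) := rfl
  rw [this, LinearMap.det_conj]

variable [FiniteDimensional F V] [FiniteDimensional F W]

theorem chp_cj (ψ : V ≃ₗ[F] W) (f : GV F V) : chp (cj ψ f) = chp f := by
  unfold chp
  have : ((cj ψ f : GV F W) : W →ₗ[F] W) = ψ.conj (f : V →ₗ[F] V) := rfl
  rw [this, LinearEquiv.charpoly_conj]

theorem chp_monic (f : GV F V) : (chp f).Monic := LinearMap.charpoly_monic _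

theorem chp_deg (f : GV F V) : (chp f).natDegree = Module.finrank F V :=
  LinearMap.charpoly_natDegree _

theorem dt_eq (f : GV F V) : dt f = (-1) ^ Module.finrank F V * (chp f).coeff 0 :=
  LinearMap.det_eq_sign_charpoly_coeff _

theorem neg_sq (n : ℕ) : (-1 : F) ^ n * (-1) ^ n = 1 := by
  rw [← mul_pow]
  simp

theorem coeff_ne (f : GV F V) : (chp f).coeff 0 ≠ 0 := by
  intro h
  apply dt_ne f
  rw [dt_eq, h, mul_zero]

theorem dt_one_iff (f : GV F V) :
    dt f = 1 ↔ (chp f).coeff 0 = (-1) ^ Module.finrank F V := by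
  rw [dt_eq]
  constructor
  · intro h
    have := congrArg (fun x => (-1 : F) ^ Module.finrank F V * x) h
    simpa only [← mul_assoc, neg_sq, one_mul, mul_one] using this
  · intro h
    rw [h, neg_sq]

/-- an endomorphism with nonzero determinant -/
theorem mk_gv (f : V →ₗ[F] V) (h : LinearMap.det f ≠ 0) : ∃ g : GV F V, (g : V →ₗ[F] V) = f :=
  ⟨LinearMap.equivOfIsUnitDet (isUnit_iff_ne_zero.2 h), LinearMap.coe_equivOfIsUnitDet _⟩

end gen

/-! ## The first block -/

theorem blk1 (h0 : S_HC) (hCC : S_CC) (hLT : S_LT) (hIE : S_IE) (hIV : S_IV)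
    (F : Type) [Field F] [Finite F] (e : Bool) :
    ∃ (a c : GV F (Fin 3 → F)) (T : Matrix (Fin 3) (Fin 3) F), Irreducible (chp a) ∧
      (chp a).natDegree = 3 ∧ dt a = 1 ∧ IsConj (pw e a) c ∧
      (∀ x, a (c x) = Matrix.toLin' T x) ∧ T.det = 1 ∧ T 1 0 = 1 ∧ T 2 1 = 1 ∧ T 2 0 = 0 := by
  obtain ⟨p, hpm, hpi, hpd, hp0⟩ := hIE F 3 (by norm_num)
  have hne : p.coeff 0 ≠ 0 := by
    rw [hp0]
    exact pow_ne_zero _ (neg_ne_zero.2 one_ne_zero)
  obtain ⟨a, hachp, hacyc, -⟩ := hLT F 3 1 p (by norm_num) hpm hpd hne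
  have hfr : Module.finrank F (Fin 3 → F) = 3 := by simp
  have hdta : dt a = 1 := by
    rw [dt_one_iff, hachp, hp0, hfr]
  -- the power
  have hpwcyc : Cyc ((pw e a : GV F (Fin 3 → F)) : (Fin 3 → F) →ₗ[F] (Fin 3 → F)) := by
    unfold pw
    split_ifs
    · exact hacyc
    · exact (hIV F (Fin 3 → F) (Fin 3 → F) a a).2.1 hacyc
  have hpwdt : dt (pw e a) = 1 := by
    unfold pw
    split_ifs
    · exact hdta
    · rw [(hIV F (Fin 3 → F) (Fin 3 → F) a a).2.2.2.2.2.1, hdta, inv_one]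
  obtain ⟨c, hcchp, hccyc, haccyc⟩ := hLT F 3 a (chp (pw e a)) (by norm_num) (chp_monic _)
    ((chp_deg _).trans hfr) (coeff_ne _)
  have hconj : IsConj (pw e a) c := by
    obtain ⟨ψ, hψ⟩ := hCC F (Fin 3 → F) (Fin 3 → F) _ _ hpwcyc hccyc hcchp.symm
    exact conj_of ψ _ _ hψ
  have hdtc : dt c = 1 := by
    rw [dt_one_iff, hcchp, ← dt_one_iff, hpwdt]
  have hdtac : dt (a * c) = 1 := by
    rw [dt_mul, hdta, hdtc, mul_one]
  -- the companion matrix
  set M0 : Matrix (Fin 3) (Fin 3) F := Matrix.of ![![0, 0, 0], ![1, 0, 0], ![0, 1, 0]] with hM0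
  obtain ⟨-, hup⟩ := h0 F 2 M0 (by
    intro i
    fin_cases i <;> simp [hM0]) (by
    intro i j hij
    fin_cases i <;> fin_cases j <;> simp_all)
  obtain ⟨x, hx⟩ := hup (chp (a * c)) (chp_monic _) ((chp_deg _).trans hfr)
  set T : Matrix (Fin 3) (Fin 3) F := M0.updateCol (Fin.last 2) x with hT
  have hT10 : T 1 0 = 1 := by
    rw [hT, Matrix.updateCol_apply]
    simp [hM0]
  have hT21 : T 2 1 = 1 := by
    rw [hT, Matrix.updateCol_apply]
    simp [hM0]
  have hT20 : T 2 0 = 0 := by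
    rw [hT, Matrix.updateCol_apply]
    simp [hM0]
  obtain ⟨hTcyc, -⟩ := h0 F 2 T (by
    intro i
    fin_cases i
    · change T 1 0 ≠ 0
      rw [hT10]
      exact one_ne_zero
    · change T 2 1 ≠ 0
      rw [hT21]
      exact one_ne_zero) (by
    intro i j hij
    have h1 : i = 2 ∧ j = 0 := by
      have := i.2
      refine ⟨Fin.ext ?_, Fin.ext ?_⟩
      · change i.val = 2
        omega
      · change j.val = 0
        omega
    rw [h1.1, h1.2]
    exact hT20)
  have hchT : (Matrix.toLin' T).charpoly = chp (a * c) := by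
    rw [Matrix.charpoly_toLin', hx]
  obtain ⟨ψ, hψ⟩ := hCC F (Fin 3 → F) (Fin 3 → F) _ _ haccyc hTcyc hchT.symm
  refine ⟨cj ψ a, cj ψ c, T, ?_, ?_, ?_, ?_, ?_, ?_, hT10, hT21, hT20⟩
  · rw [chp_cj, hachp]
    exact hpi
  · rw [chp_cj, hachp]
    exact hpd
  · rw [dt_cj]
    exact hdta
  · rw [← cj_pw]
    exact (cj ψ).map_isConj hconj
  · intro y
    have h1 : cj ψ a (cj ψ c y) = ψ ((a * c) (ψ.symm y)) := by
      rw [cj_apply, cj_apply, LinearEquiv.symm_apply_apply]
      rfl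
    rw [h1]
    have h2 := hψ (ψ.symm y)
    rw [LinearEquiv.apply_symm_apply] at h2
    exact h2
  · rw [← LinearMap.det_toLin', LinearMap.det_eq_sign_charpoly_coeff, hchT,
      ← dt_eq, hdtac]

/-! ## The second block -/

theorem rev_pow (F : Type) [Field F] (n : ℕ) :
    ((X - 1 : F[X]) ^ n).reverse = (1 - X) ^ n := by
  induction n with
  | zero =>
    rw [pow_zero, pow_zero, ← C_1, reverse_C]
  | succ n ih =>
    rw [pow_succ, reverse_mul_of_domain, ih, pow_succ]
    congr 1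
    have h1 : (X - 1 : F[X]) = X - C 1 := by simp
    rw [h1]
    ext k
    rw [coeff_reverse]
    have h2 : (X - C (1 : F)).natDegree = 1 := natDegree_X_sub_C _
    rw [h2]
    have h3 : (1 : F[X]).coeff 1 = 0 := by
      rw [coeff_one]
      simp
    rcases k with _ | _ | k
    · simp [revAt_le, h3]
    · simp [revAt_le, coeff_X, h3]
    · rw [revAt_eq_self_of_lt (by omega)]
      simp [coeff_X, coeff_one]

theorem blk2 (hCC : S_CC) (hRU : S_RU) (hIV : S_IV) (F : Type) [Field F] (k : ℕ) (e : Bool)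
    (L U : Matrix (Fin (k + 1)) (Fin (k + 1)) F) (hL1 : ∀ i, L i i = 1)
    (hL2 : ∀ i j, i < j → L i j = 0) (hL3 : ∀ i : Fin k, L i.succ i.castSucc ≠ 0)
    (hU1 : ∀ i, U i i = 1) (hU2 : ∀ i j, j < i → U i j = 0)
    (hU3 : ∀ i : Fin k, U i.castSucc i.succ ≠ 0) :
    ∃ l v : GV F (Fin (k + 1) → F), (∀ x, l x = Matrix.toLin' L x) ∧
      (∀ x, v x = Matrix.toLin' U x) ∧ IsConj (pw e l) v ∧ chp l = (X - 1) ^ (k + 1) := by
  obtain ⟨hLc, hLp⟩ := (hRU F k L hL1).2 hL2 hL3
  obtain ⟨hUc, hUp⟩ := (hRU F k U hU1).1 hU2 hU3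
  have hfr : Module.finrank F (Fin (k + 1) → F) = k + 1 := by simp
  have hc0 : ((X - 1 : F[X]) ^ (k + 1)).coeff 0 = (-1) ^ (k + 1) := by
    rw [coeff_zero_eq_eval_zero]
    simp
  have hdet : ∀ M : Matrix (Fin (k + 1)) (Fin (k + 1)) F, M.charpoly = (X - 1) ^ (k + 1) →
      LinearMap.det (Matrix.toLin' M) = 1 := by
    intro M hM
    rw [LinearMap.det_eq_sign_charpoly_coeff, Matrix.charpoly_toLin', hM, hc0, hfr, neg_sq]
  obtain ⟨l, hl⟩ := mk_gv (Matrix.toLin' L) (by
    rw [hdet L hLp]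
    exact one_ne_zero)
  obtain ⟨v, hv⟩ := mk_gv (Matrix.toLin' U) (by
    rw [hdet U hUp]
    exact one_ne_zero)
  have hchl : chp l = (X - 1) ^ (k + 1) := by
    unfold chp
    rw [hl, Matrix.charpoly_toLin', hLp]
  have hchv : chp v = (X - 1) ^ (k + 1) := by
    unfold chp
    rw [hv, Matrix.charpoly_toLin', hUp]
  have hcl : Cyc ((l : GV F (Fin (k + 1) → F)) : (Fin (k + 1) → F) →ₗ[F] (Fin (k + 1) → F)) := by
    rw [hl]
    exact hLc
  have hcv : Cyc ((v : GV F (Fin (k + 1) → F)) : (Fin (k + 1) → F) →ₗ[F] (Fin (k + 1) → F)) := by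
    rw [hv]
    exact hUc
  refine ⟨l, v, fun x => by rw [← hl]; rfl, fun x => by rw [← hv]; rfl, ?_, hchl⟩
  have hpwc : Cyc ((pw e l : GV F (Fin (k + 1) → F)) :
      (Fin (k + 1) → F) →ₗ[F] (Fin (k + 1) → F)) := by
    unfold pw
    split_ifs
    · exact hcl
    · exact (hIV F _ (Fin (k + 1) → F) l l).2.1 hcl
  have hpwp : chp (pw e l) = (X - 1) ^ (k + 1) := by
    unfold pw
    split_ifs
    · exact hchl
    · have h1 := (hIV F _ (Fin (k + 1) → F) l l).1
      rw [hchl, hc0, rev_pow] at h1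
      have h2 : (1 - X : F[X]) ^ (k + 1) = C ((-1) ^ (k + 1)) * (X - 1) ^ (k + 1) := by
        rw [C_pow, ← mul_pow]
        congr 1
        simp
      rw [h2] at h1
      have h3 : (C ((-1) ^ (k + 1)) : F[X]) ≠ 0 := by
        rw [Ne, C_eq_zero]
        exact pow_ne_zero _ (neg_ne_zero.2 one_ne_zero)
      exact mul_left_cancel₀ h3 h1
  obtain ⟨ψ, hψ⟩ := hCC F _ _ _ _ hpwc hcv (hpwp.trans hchv.symm)
  exact conj_of ψ _ _ hψ

/-! ## The decomposition of the space -/

section dec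

variable (F : Type) [Field F] (k : ℕ)

/-- inclusion of the first three coordinates -/
def iu : (Fin 3 → F) →ₗ[F] (Fin 3 ⊕ Fin (k + 1) → F) where
  toFun x := Sum.elim x 0
  map_add' x y := by
    ext i
    rcases i with i | i <;> simp
  map_smul' r x := by
    ext i
    rcases i with i | i <;> simp

/-- projection to the first three coordinates -/
def ph : (Fin 3 ⊕ Fin (k + 1) → F) →ₗ[F] (Fin 3 → F) where
  toFun v := v ∘ Sum.inl
  map_add' _ _ := rfl
  map_smul' _ _ := rfl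

/-- the kernel of the projection -/
def ke : (Fin (k + 1) → F) ≃ₗ[F] LinearMap.ker (ph F k) where
  toFun y := ⟨Sum.elim 0 y, by
    rw [LinearMap.mem_ker]
    rfl⟩
  invFun w := (w : Fin 3 ⊕ Fin (k + 1) → F) ∘ Sum.inr
  map_add' x y := by
    apply Subtype.ext
    ext i
    rcases i with i | i <;> simp
  map_smul' r x := by
    apply Subtype.ext
    ext i
    rcases i with i | i <;> simp
  left_inv y := rfl
  right_inv w := by
    apply Subtype.ext
    ext i
    rcases i with i | i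
    · have h1 := LinearMap.mem_ker.1 w.2
      have h2 := congrFun h1 i
      exact h2.symm
    · rfl

end dec

theorem t_CY_aux (h1 : S_B1) (hBT : S_BT) (hCB : S_CB) (hIV : S_IV) (hHC : S_HC) (hCC : S_CC)
    (hLT : S_LT) (hIE : S_IE) (hRU : S_RU) (hMX : S_MX) : S_CY := by
  intro F V _ _ _ _ _ e S hdim hcyc hdt
  obtain ⟨k, hk⟩ : ∃ k, Module.finrank F V = k + 4 := ⟨Module.finrank F V - 4, by omega⟩
  have hk2 : 2 ≤ k := by omega
  obtain ⟨a, c, T, hai, had, hdta, hac, hacT, hTd, hT10, hT21, hT20⟩ :=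
    blk1 hHC hCC hLT hIE hIV F e
  obtain ⟨Y, D, U, hMp, hMc, hU1, hU2, hU3, hLU⟩ := hMX F k T (chp S) hk2 hTd hT10 hT21 hT20
    (chp_monic _) ((chp_deg _).trans hk) (by
      rw [← hk]
      exact (dt_one_iff S).1 hdt)
  set E : Matrix (Fin (k + 1)) (Fin 3) F := Matrix.single 0 2 1 with hE
  set L : Matrix (Fin (k + 1)) (Fin (k + 1)) F := Matrix.of fun i j : Fin (k + 1) =>
    if i = j then 1 else if i.val = j.val + 1 then 1 else 0 with hL
  set M := Matrix.fromBlocks T Y E D with hM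
  -- the second block
  obtain ⟨l, v, hl, hv, hlv, hlp⟩ := blk2 hCC hRU hIV F k e L U (by
      intro i
      simp [hL]) (by
      intro i j hij
      have h2 : i ≠ j := ne_of_lt hij
      have h3 : i.val ≠ j.val + 1 := by
        have : i.val < j.val := hij
        omega
      simp [hL, h2, h3]) (by
      intro i
      have h2 : i.succ ≠ i.castSucc := by
        intro h
        have := congrArg Fin.val h
        simp at this
      simp [hL, h2]) hU1 hU2 (by
      intro i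
      rw [hU3]
      exact one_ne_zero)
  -- the transport
  have hMp' : (Matrix.toLin' M).charpoly = chp S := by
    rw [Matrix.charpoly_toLin', hMp]
  obtain ⟨A, hA⟩ := mk_gv (Matrix.toLin' M) (by
    have h3 : Module.finrank F (Fin 3 ⊕ Fin (k + 1) → F) = Module.finrank F V := by
      rw [hk]
      simp
      omega
    rw [LinearMap.det_eq_sign_charpoly_coeff, hMp', h3, ← dt_eq, hdt]
    exact one_ne_zero)
  obtain ⟨ψ, hψ⟩ := hCC F _ _ _ _ hMc hcyc hMp'
  have hAψ : ∀ w, ψ (A w) = S (ψ w) := by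
    intro w
    have h3 := hψ w
    rw [← hA] at h3
    exact h3
  have hAS : cj ψ A = S := cj_eq ψ A S hAψ
  have hAM : ∀ w, A w = M.mulVec w := by
    intro w
    have : A w = Matrix.toLin' M w := by
      rw [← hA]
      rfl
    rw [this, Matrix.toLin'_apply]
  have hTu : IsUnit T.det := by
    rw [hTd]
    exact isUnit_one
  -- the blocks
  have hφu : ∀ x, ph F k (iu F k x) = x := fun x => rfl
  have hTx : ∀ x, ph F k (A (iu F k x)) = a (c x) := by
    intro x
    rw [hacT, hAM]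
    change (M.mulVec (Sum.elim x 0)) ∘ Sum.inl = _
    rw [hM, Matrix.fromBlocks_mulVec]
    simp
  have hSch : Sch A (iu F k) (ph F k) (cj (ke F k) l * cj (ke F k) v) := by
    intro w
    obtain ⟨y, rfl⟩ := (ke F k).surjective w
    refine ⟨(T⁻¹).mulVec (Y.mulVec y), ?_⟩
    have h3 : ((cj (ke F k) l * cj (ke F k) v) (ke F k y) : Fin 3 ⊕ Fin (k + 1) → F) =
        Sum.elim (0 : Fin 3 → F) ((L * U).mulVec y) := by
      have h4 : (cj (ke F k) l * cj (ke F k) v) (ke F k y) = ke F k (l (v y)) := by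
        rw [← map_mul, cj_apply, LinearEquiv.symm_apply_apply]
        rfl
      rw [h4, hl, hv, Matrix.toLin'_apply, Matrix.toLin'_apply, Matrix.mulVec_mulVec]
      rfl
    rw [h3, hAM]
    have h5 : (((ke F k y : LinearMap.ker (ph F k)) : Fin 3 ⊕ Fin (k + 1) → F) -
        iu F k ((T⁻¹).mulVec (Y.mulVec y))) =
        Sum.elim (-((T⁻¹).mulVec (Y.mulVec y))) y := by
      ext i
      rcases i with i | i
      · change (0 : F) - ((T⁻¹).mulVec (Y.mulVec y)) i = _
        simp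
      · change y i - 0 = _
        simp
    rw [h5, hM, Matrix.fromBlocks_mulVec]
    have h6 : T.mulVec (-((T⁻¹).mulVec (Y.mulVec y))) = -(Y.mulVec y) := by
      rw [Matrix.mulVec_neg, Matrix.mulVec_mulVec, Matrix.mul_nonsing_inv T hTu,
        Matrix.one_mulVec]
    have h7 : (L * U).mulVec y = E.mulVec (-((T⁻¹).mulVec (Y.mulVec y))) + D.mulVec y := by
      rw [← hLU, Matrix.sub_mulVec, Matrix.mulVec_neg, Matrix.mulVec_mulVec,
        Matrix.mulVec_mulVec]
      exact sub_eq_neg_add _ _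
    rw [h7]
    congr 1
    · simp only [Sum.elim_comp_inl, Sum.elim_comp_inr]
      rw [h6]
      simp
  obtain ⟨B, C', hBC, hBlk⟩ := h1 F _ 3 A (iu F k) (ph F k) a c (cj (ke F k) l)
    (cj (ke F k) v) hφu hTx hSch
  have hchl : chp (cj (ke F k) l) = (X - 1) ^ (k + 1) := by
    rw [chp_cj, hlp]
  have hX1 : Irreducible (X - 1 : F[X]) := by
    have := irreducible_X_sub_C (1 : F)
    rwa [C_1] at this
  have hX1d : (X - 1 : F[X]).natDegree = 1 := by
    have := natDegree_X_sub_C (1 : F)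
    rwa [C_1] at this
  have hdiv : ∀ p q : F[X], Irreducible p → Irreducible q → p ∣ q →
      p.natDegree = q.natDegree := by
    intro p q hp hq hpq
    exact natDegree_eq_of_degree_eq (degree_eq_degree_of_associated
      ((hp.dvd_irreducible_iff_associated hq).1 hpq))
  have hcop : IsCoprime (chp a) (chp (cj (ke F k) l)) := by
    rw [hchl]
    apply IsCoprime.pow_right
    rw [hai.coprime_iff_not_dvd]
    intro hd
    have := hdiv _ _ hai hX1 hd
    rw [had, hX1d] at this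
    omega
  have hconj2 : IsConj (pw e (cj (ke F k) l)) (cj (ke F k) v) := by
    rw [← cj_pw]
    exact (cj (ke F k)).map_isConj hlv
  obtain ⟨-, hBCc, -, -⟩ := hCB F _ 3 e (iu F k) (ph F k) a c _ _ B C' hφu hBlk hac hconj2 hcop
  obtain ⟨hchB, -, hdtB, -, -, -⟩ := hBT F _ 3 (iu F k) (ph F k) a c _ _ B C' hφu hBlk
  have hdtl : dt l = 1 := by
    rw [dt_one_iff, hlp, coeff_zero_eq_eval_zero]
    simp
  refine ⟨cj ψ B, cj ψ C', ?_, ?_, ?_, ?_⟩
  · rw [← map_mul, hBC, hAS]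
  · rw [dt_cj, hdtB, hdta, dt_cj, hdtl, one_mul]
  · rw [← cj_pw]
    exact (cj ψ).map_isConj hBCc
  · intro p hp hpB
    rw [chp_cj, hchB, hchl] at hpB
    rcases hp.prime.dvd_or_dvd hpB with h3 | h3
    · right
      rw [hdiv p _ hp hai h3, had]
    · left
      have h4 := hp.prime.dvd_of_dvd_pow h3
      rw [hdiv p _ hp hX1 h4, hX1d]

end CY

theorem t_CY : M_CY := fun h1 _ hBT hCB hIV hHC hCC hLT hIE hRU hMX =>
  CY.t_CY_aux h1 hBT hCB hIV hHC hCC hLT hIE hRU hMX

end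

end RSF
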