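import Pool.Agent.RSF.Stmts4

/-! Module E2: factorisations in dimension `4 j`. -/

namespace RSF

namespace E2

open Polynomial

noncomputable section

theorem cyc_conj {F V W : Type} [Field F] [AddCommGroup V] [Module F V] [AddCommGroup W]
    [Module F W] (f : V →ₗ[F] V) (g : W →ₗ[F] W) (θ : V ≃ₗ[F] W) (h : ∀ v, θ (f v) = g (θ v))
    (hf : Cyc f) : Cyc g := by
  obtain ⟨v, hv⟩ := hf
  refine ⟨θ v, fun W' h1 h2 => ?_⟩
  have h3 : W'.comap (θ : V →ₗ[F] W) = ⊤ := by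
    refine hv _ (by simpa using h1) ?_
    intro w hw
    simp only [Submodule.mem_comap, LinearEquiv.coe_coe] at hw ⊢
    rw [h]
    exact h2 _ hw
  rw [eq_top_iff]
  intro w _
  have h4 : θ.symm w ∈ W'.comap (θ : V →ₗ[F] W) := by rw [h3]; trivial
  simpa using h4

/-- the data of a complement -/
theorem data {F V : Type} [Field F] [AddCommGroup V] [Module F V] [FiniteDimensional F V]
    (h : ℕ) (A : GV F V) (u : (Fin h → F) →ₗ[F] V)
    (hu : Function.Bijective fun z : (Fin h → F) × (Fin h → F) => u z.1 + A (u z.2)) :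
    ∃ Z : GV F (Fin h → F), ∀ M : GV F (Fin h → F), ∃ φ : V →ₗ[F] (Fin h → F),
      (∀ x, φ (u x) = x) ∧ (∀ x, φ (A (u x)) = M x) ∧
      ∃ θ : (Fin h → F) ≃ₗ[F] LinearMap.ker φ, ∀ S : GV F (LinearMap.ker φ), Sch A u φ S →
        ∀ y, S (θ y) = θ (M⁻¹ (Z y)) := by
  classical
  let Φ0 : ((Fin h → F) × (Fin h → F)) →ₗ[F] V :=
    (u ∘ₗ LinearMap.fst F _ _) + ((A : V →ₗ[F] V) ∘ₗ u ∘ₗ LinearMap.snd F _ _)
  have hΦ0 : ∀ z, Φ0 z = u z.1 + A (u z.2) := fun z => rfl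
  let Φ : ((Fin h → F) × (Fin h → F)) ≃ₗ[F] V := LinearEquiv.ofBijective Φ0 hu
  have hΦ : ∀ z, Φ z = u z.1 + A (u z.2) := fun z => rfl
  let Y0 : (Fin h → F) →ₗ[F] (Fin h → F) :=
    LinearMap.fst F _ _ ∘ₗ Φ.symm.toLinearMap ∘ₗ (A : V →ₗ[F] V) ∘ₗ (A : V →ₗ[F] V) ∘ₗ u
  let D0 : (Fin h → F) →ₗ[F] (Fin h → F) :=
    LinearMap.snd F _ _ ∘ₗ Φ.symm.toLinearMap ∘ₗ (A : V →ₗ[F] V) ∘ₗ (A : V →ₗ[F] V) ∘ₗ u
  have hYD : ∀ y, A (A (u y)) = u (Y0 y) + A (u (D0 y)) := by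
    intro y
    have h1 := hΦ (Φ.symm (A (A (u y))))
    rw [LinearEquiv.apply_symm_apply] at h1
    exact h1
  have hY : Function.Injective Y0 := by
    rw [← LinearMap.ker_eq_bot, LinearMap.ker_eq_bot']
    intro y hy
    have h1 := hYD y
    rw [hy, map_zero, zero_add] at h1
    have h2 := A.injective h1
    have h3 : Φ (- D0 y, y) = Φ (0, 0) := by
      rw [hΦ, hΦ]
      simp only [map_neg, map_zero, add_zero]
      rw [h2]; abel
    have h4 := Φ.injective h3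
    exact (Prod.ext_iff.1 h4).2
  let Y : GV F (Fin h → F) := LinearEquiv.ofInjectiveEndo Y0 hY
  have hYa : ∀ y, Y y = Y0 y := fun y => rfl
  refine ⟨Y.trans (LinearEquiv.neg F), fun M => ?_⟩
  let φ : V →ₗ[F] (Fin h → F) :=
    (LinearMap.fst F _ _ + (M : (Fin h → F) →ₗ[F] (Fin h → F)) ∘ₗ LinearMap.snd F _ _) ∘ₗ
      Φ.symm.toLinearMap
  have hφ : ∀ z, φ (Φ z) = z.1 + M z.2 := by
    intro z
    change (Φ.symm (Φ z)).1 + M (Φ.symm (Φ z)).2 = _
    rw [LinearEquiv.symm_apply_apply]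
  have hφu : ∀ x y, φ (u x + A (u y)) = x + M y := fun x y => hφ (x, y)
  have h1 : ∀ x, φ (u x) = x := by
    intro x
    have := hφu x 0
    simpa using this
  have h2 : ∀ x, φ (A (u x)) = M x := by
    intro x
    have := hφu 0 x
    simpa using this
  refine ⟨φ, h1, h2, ?_⟩
  let θ0 : (Fin h → F) →ₗ[F] LinearMap.ker φ :=
    LinearMap.codRestrict (LinearMap.ker φ)
      ((A : V →ₗ[F] V) ∘ₗ u - u ∘ₗ (M : (Fin h → F) →ₗ[F] (Fin h → F))) (by
        intro y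
        rw [LinearMap.mem_ker]
        change φ (A (u y) - u (M y)) = 0
        rw [map_sub, h1, h2, sub_self])
  have hθ0 : ∀ y, (θ0 y : V) = A (u y) - u (M y) := fun y => rfl
  have hθb : Function.Bijective θ0 := by
    constructor
    · rw [← LinearMap.ker_eq_bot, LinearMap.ker_eq_bot']
      intro y hy
      have h3 : (θ0 y : V) = 0 := by rw [hy]; rfl
      rw [hθ0] at h3
      have h4 : Φ (- M y, y) = Φ (0, 0) := by
        rw [hΦ, hΦ]
        simp only [map_neg, map_zero, add_zero]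
        rw [← h3]; abel
      have h5 := Φ.injective h4
      exact (Prod.ext_iff.1 h5).2
    · rintro ⟨w, hw⟩
      refine ⟨(Φ.symm w).2, ?_⟩
      apply Subtype.ext
      rw [hθ0]
      have h3 := hΦ (Φ.symm w)
      rw [LinearEquiv.apply_symm_apply] at h3
      have h4 := hφ (Φ.symm w)
      rw [LinearEquiv.apply_symm_apply, LinearMap.mem_ker.1 hw] at h4
      have h5 : (Φ.symm w).1 = - M (Φ.symm w).2 := eq_neg_of_add_eq_zero_left h4.symm
      change _ = w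
      rw [h5] at h3
      refine Eq.trans ?_ h3.symm
      simp only [map_neg]
      abel
  let θ : (Fin h → F) ≃ₗ[F] LinearMap.ker φ := LinearEquiv.ofBijective θ0 hθb
  have hθ : ∀ y, (θ y : V) = A (u y) - u (M y) := fun y => rfl
  refine ⟨θ, fun S hS y => ?_⟩
  obtain ⟨x, hx⟩ := hS (θ y)
  have h3 : φ (S (θ y) : V) = 0 := LinearMap.mem_ker.1 (S (θ y)).2
  rw [hx, hθ] at h3
  have h4 : A (A (u y) - u (M y) - u x) = u (Y0 y) + A (u (D0 y - M y - x)) := by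
    simp only [map_sub]
    rw [hYD y]; abel
  rw [h4, hφu] at h3
  have h5 : D0 y - M y - x = M⁻¹ (- Y0 y) := by
    apply M.injective
    have h6 : M (M⁻¹ (- Y0 y)) = - Y0 y := LinearEquiv.apply_symm_apply M _
    rw [h6]
    exact eq_neg_of_add_eq_zero_right h3
  apply Subtype.ext
  rw [hx, hθ (M⁻¹ _), hθ, h4, h5]
  have h6 : (Y.trans (LinearEquiv.neg F)) y = - Y0 y := rfl
  rw [h6]
  have h7 : M (M⁻¹ (- Y0 y)) = - Y0 y := LinearEquiv.apply_symm_apply M _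
  rw [h7]
  simp only [map_neg]
  abel

theorem conj_of {F V : Type} [Field F] [AddCommGroup V] [Module F V] (f g : GV F V)
    (ψ : V ≃ₗ[F] V) (h : ∀ v, ψ (f v) = g (ψ v)) : IsConj f g := by
  rw [isConj_iff]
  refine ⟨ψ, ?_⟩
  rw [mul_inv_eq_iff_eq_mul]
  ext v
  exact h v

theorem dt_of {F V : Type} [Field F] [AddCommGroup V] [Module F V] [FiniteDimensional F V]
    (a : GV F V) (n : ℕ) (hn : Module.finrank F V = 2 * n) (h : (chp a).coeff 0 = 1) :
    dt a = 1 := by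
  have h1 := LinearMap.det_eq_sign_charpoly_coeff (a : V →ₗ[F] V)
  rw [hn, pow_mul] at h1
  unfold dt
  rw [h1]
  unfold chp at h
  rw [h]
  simp

end

end E2

open Polynomial in
theorem t_E2 : M_E2 := by
  intro hB1 hB2 hBT hCB hIV hHC hCC hLT hIE hEU hCY F V _ _ _ _ _ e A k j hA hEL hdim hj hk
  obtain ⟨u, hu⟩ := hEU F V A k (2 * j) hEL (by omega) (by omega)
  obtain ⟨Z, hZ⟩ := E2.data (2 * j) A u hu
  obtain ⟨s, hs1, hs2, hs3, hs4⟩ := hIE F 2 le_rfl
  have hs4' : s.coeff 0 = 1 := by rw [hs4]; norm_num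
  have hr1 : (s ^ j).Monic := hs1.pow j
  have hr2 : (s ^ j).natDegree = 2 * j := by
    rw [hs1.natDegree_pow, hs3]; ring
  have hr3 : (s ^ j).coeff 0 = 1 := by
    rw [coeff_zero_eq_eval_zero, eval_pow, ← coeff_zero_eq_eval_zero, hs4', one_pow]
  obtain ⟨a, ha1, ha2, -⟩ := hLT F (2 * j) 1 (s ^ j) (by omega) hr1 hr2 (by rw [hr3]; exact one_ne_zero)
  have hfr : Module.finrank F (Fin (2 * j) → F) = 2 * j := by simp
  have hda1 : dt a = 1 := E2.dt_of a j hfr (by rw [ha1, hr3])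
  -- the power of `a`
  obtain ⟨hI1, hI2, -, -, -, hI6, -⟩ := hIV F (Fin (2 * j) → F) (Fin (2 * j) → F) a a
  have hcyc : Cyc ((pw e a : GV F (Fin (2 * j) → F)) : (Fin (2 * j) → F) →ₗ[F] (Fin (2 * j) → F)) := by
    cases e
    · exact hI2 ha2
    · exact ha2
  have hdpw : dt (pw e a) = 1 := by
    cases e
    · change dt a⁻¹ = 1
      rw [hI6, hda1, inv_one]
    · exact hda1
  have hmon : (chp (pw e a)).Monic := LinearMap.charpoly_monic _
  have hdeg : (chp (pw e a)).natDegree = 2 * j := by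
    unfold chp
    rw [LinearMap.charpoly_natDegree, hfr]
  have hcf : (chp (pw e a)).coeff 0 ≠ 0 := by
    intro h0
    have h1 := LinearMap.det_eq_sign_charpoly_coeff
      ((pw e a : GV F (Fin (2 * j) → F)) : (Fin (2 * j) → F) →ₗ[F] (Fin (2 * j) → F))
    unfold chp at h0
    rw [h0, mul_zero] at h1
    unfold dt at hdpw
    rw [hdpw] at h1
    exact one_ne_zero h1
  obtain ⟨c, hc1, hc2, hc3⟩ := hLT F (2 * j) (Z⁻¹ * a) (chp (pw e a)) (by omega) hmon hdeg hcf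
  have hconj : IsConj (pw e a) c := by
    obtain ⟨ψ, hψ⟩ := hCC F _ _ _ _ hcyc hc2 hc1.symm
    exact E2.conj_of _ _ ψ hψ
  have hdc : dt c = 1 := by
    obtain ⟨g, hg⟩ := isConj_iff.1 hconj
    have : dt c = dt (pw e a) := by
      rw [← hg]
      unfold dt
      have := LinearMap.det_conj ((pw e a : GV F (Fin (2 * j) → F)) : (Fin (2 * j) → F) →ₗ[F] (Fin (2 * j) → F)) g
      rw [← this]
      rfl
    rw [this, hdpw]
  obtain ⟨φ, hφ1, hφ2, θ, hθ⟩ := hZ (a * c)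
  obtain ⟨S, hS1, hS2, -⟩ := hB2 F V (2 * j) A u φ (a * c) hφ1 hφ2
  have hdS : dt S = 1 := by
    have h1 : dt (a * c) = dt a * dt c := by
      unfold dt
      rw [← map_mul]
      rfl
    rw [hA, h1, hda1, hdc, one_mul, one_mul] at hS2
    exact hS2.symm
  have hScyc : Cyc (S : LinearMap.ker φ →ₗ[F] LinearMap.ker φ) := by
    obtain ⟨-, hJ2, -, -, -, -, -⟩ :=
      hIV F (Fin (2 * j) → F) (Fin (2 * j) → F) (Z⁻¹ * a * c) (Z⁻¹ * a * c)
    refine E2.cyc_conj _ _ θ ?_ (hJ2 hc3)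
    intro y
    change θ ((Z⁻¹ * a * c)⁻¹ y) = S (θ y)
    rw [hθ S hS1 y]
    have : (Z⁻¹ * a * c)⁻¹ = (a * c)⁻¹ * Z := by group
    rw [this]
    rfl
  have hker : Module.finrank F (LinearMap.ker φ) = 2 * j := by
    rw [← θ.finrank_eq, hfr]
  obtain ⟨a', c', hac, hda', hca', hp'⟩ := hCY F (LinearMap.ker φ) e S (by omega) hScyc hdS
  have hφ2' : ∀ x, φ (A (u x)) = a (c x) := fun x => hφ2 x
  obtain ⟨B, C, hBC, hBlk⟩ := hB1 F V (2 * j) A u φ a c a' c' hφ1 hφ2' (by rw [hac]; exact hS1)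
  obtain ⟨hT1, -, hT3, -, -, -⟩ := hBT F V (2 * j) u φ a c a' c' B C hφ1 hBlk
  have hcop : IsCoprime (chp a) (chp a') := by
    rw [ha1]
    apply IsCoprime.pow_left
    rw [hs2.coprime_iff_not_dvd]
    intro h
    rcases hp' s hs2 h with h | h <;> omega
  obtain ⟨-, hB, -, -⟩ := hCB F V (2 * j) e u φ a c a' c' B C hφ1 hBlk hconj hca' hcop
  refine ⟨B, C, hBC, by rw [hT3, hda1, hda', one_mul], hB, ?_⟩
  intro p hp hdvd
  rw [hT1, ha1] at hdvd
  rcases hp.prime.dvd_or_dvd hdvd with h | h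
  · have h1 := hp.prime.dvd_of_dvd_pow h
    have h2 := natDegree_le_of_dvd h1 hs2.ne_zero
    omega
  · rcases hp' p hp h with h | h <;> omega

end RSF
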