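import Pool.Agent.RSF.Stmts4

/-! Module EN: existence of one factorisation. -/

namespace RSF

namespace EN

open Polynomial

noncomputable section

variable {F : Type} [Field F]

theorem dt_mul {V : Type} [AddCommGroup V] [Module F V] (f g : GV F V) :
    dt (f * g) = dt f * dt g := by
  unfold dt
  rw [← LinearMap.det_comp]
  rfl

theorem neg_sq (n : ℕ) : (-1 : F) ^ n * (-1) ^ n = 1 := by
  rw [← mul_pow]
  simp

/-- an automorphism with a given characteristic polynomial -/
theorem exists_chp (hHC : S_HC) (h : ℕ) (p : F[X]) (hm : p.Monic) (hd : p.natDegree = h + 1)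
    (h0 : p.coeff 0 = (-1) ^ (h + 1)) :
    ∃ a : GV F (Fin (h + 1) → F), chp a = p ∧ dt a = 1 := by
  set M : Matrix (Fin (h + 1)) (Fin (h + 1)) F :=
    Matrix.of fun i j => if i.val = j.val + 1 then 1 else 0 with hM
  obtain ⟨-, hx⟩ := hHC F h M (by
      intro i
      simp [hM]) (by
      intro i j hij
      have : ¬ (i.val = j.val + 1) := by omega
      simp [hM, this])
  obtain ⟨x, hx⟩ := hx p hm hd
  set N := M.updateCol (Fin.last h) x with hN
  have hch : (Matrix.toLin' N).charpoly = p := by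
    rw [← hx]
    exact Matrix.charpoly_toLin' N
  have hfr : Module.finrank F (Fin (h + 1) → F) = h + 1 := by simp
  have hdet : LinearMap.det (Matrix.toLin' N) = 1 := by
    rw [LinearMap.det_eq_sign_charpoly_coeff, hch, h0, hfr, neg_sq]
  have hu : IsUnit (LinearMap.det (Matrix.toLin' N)) := by rw [hdet]; exact isUnit_one
  refine ⟨LinearMap.equivOfIsUnitDet hu, ?_, ?_⟩
  · unfold chp
    rw [LinearMap.coe_equivOfIsUnitDet, hch]
  · unfold dt
    rw [LinearMap.coe_equivOfIsUnitDet, hdet]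

/-- a map with prescribed values -/
theorem exists_phi {V : Type} [AddCommGroup V] [Module F V] (h : ℕ) (A : GV F V)
    (T : GV F (Fin h → F)) (u : (Fin h → F) →ₗ[F] V)
    (hu : Function.Injective fun z : (Fin h → F) × (Fin h → F) => u z.1 + A (u z.2)) :
    ∃ φ : V →ₗ[F] (Fin h → F), (∀ x, φ (u x) = x) ∧ ∀ x, φ (A (u x)) = T x := by
  let Φ0 : ((Fin h → F) × (Fin h → F)) →ₗ[F] V :=
    (u ∘ₗ LinearMap.fst F _ _) + ((A : V →ₗ[F] V) ∘ₗ u ∘ₗ LinearMap.snd F _ _)
  have hΦ0 : ∀ x y, Φ0 (x, y) = u x + A (u y) := fun x y => rfl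
  have hinj : Function.Injective Φ0 := hu
  obtain ⟨L, hL⟩ := LinearMap.exists_leftInverse_of_injective Φ0 (LinearMap.ker_eq_bot.2 hinj)
  have hL' : ∀ x y, L (u x + A (u y)) = (x, y) := by
    intro x y
    rw [← hΦ0]
    exact LinearMap.congr_fun hL (x, y)
  refine ⟨(LinearMap.fst F _ _ + (T : (Fin h → F) →ₗ[F] (Fin h → F)) ∘ₗ LinearMap.snd F _ _) ∘ₗ L,
    ?_, ?_⟩
  · intro x
    have h1 := hL' x 0
    rw [map_zero, map_zero, add_zero] at h1
    change (L (u x)).1 + T (L (u x)).2 = x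
    rw [h1, map_zero, add_zero]
  · intro x
    have h1 := hL' 0 x
    rw [map_zero, zero_add] at h1
    change (L (A (u x))).1 + T (L (A (u x))).2 = T x
    rw [h1, zero_add]

/-- preimages -/
theorem finrank_comap_le {V W : Type} [AddCommGroup V] [Module F V] [FiniteDimensional F V]
    [AddCommGroup W] [Module F W] [FiniteDimensional F W] (f : V →ₗ[F] W) (X : Submodule F W) :
    Module.finrank F (X.comap f) ≤ Module.finrank F (LinearMap.ker f) + Module.finrank F X := by
  let g : X.comap f →ₗ[F] X := f.restrict (fun x hx => hx)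
  have h1 := g.finrank_range_add_finrank_ker
  have h2 : Module.finrank F (LinearMap.range g) ≤ Module.finrank F X :=
    Submodule.finrank_le _
  have h3 : Module.finrank F (LinearMap.ker g) ≤ Module.finrank F (LinearMap.ker f) := by
    let j : LinearMap.ker g →ₗ[F] LinearMap.ker f :=
      LinearMap.codRestrict (LinearMap.ker f)
        ((X.comap f).subtype ∘ₗ (LinearMap.ker g).subtype) (by
          rintro ⟨⟨x, hx⟩, hy⟩
          rw [LinearMap.mem_ker] at hy ⊢
          have := congrArg Subtype.val hy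
          exact this)
    apply LinearMap.finrank_le_finrank_of_injective (f := j)
    rintro ⟨⟨x, hx⟩, hy⟩ ⟨⟨x', hx'⟩, hy'⟩ h
    have h4 : x = x' := congrArg Subtype.val h
    subst h4
    rfl
  omega

/-- eigenspaces of the Schur complement -/
theorem el_sch {V : Type} [AddCommGroup V] [Module F V] [FiniteDimensional F V] (h κ : ℕ)
    (A : GV F V) (u : (Fin h → F) →ₗ[F] V) (φ : V →ₗ[F] (Fin h → F))
    (S : GV F (LinearMap.ker φ)) (hS : Sch A u φ S) (hA : EL A κ) : EL S (κ + h) := by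
  intro μ
  have h1 := hA μ
  set f : V →ₗ[F] V := (A : V →ₗ[F] V) - μ • LinearMap.id with hf
  set X : Submodule F V := LinearMap.range ((A : V →ₗ[F] V) ∘ₗ u) with hX
  have h2 := finrank_comap_le f X
  have h3 : Module.finrank F X ≤ h := by
    have := LinearMap.finrank_range_le ((A : V →ₗ[F] V) ∘ₗ u)
    simpa using this
  have h4 : Module.finrank F (LinearMap.ker ((S : LinearMap.ker φ →ₗ[F] LinearMap.ker φ) -
      μ • LinearMap.id)) ≤ Module.finrank F (X.comap f) := by
    let j : LinearMap.ker ((S : LinearMap.ker φ →ₗ[F] LinearMap.ker φ) - μ • LinearMap.id) →ₗ[F]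
        X.comap f :=
      LinearMap.codRestrict (X.comap f)
        ((LinearMap.ker φ).subtype ∘ₗ (LinearMap.ker
          ((S : LinearMap.ker φ →ₗ[F] LinearMap.ker φ) - μ • LinearMap.id)).subtype) (by
          rintro ⟨w, hw⟩
          change f (w : V) ∈ X
          rw [LinearMap.mem_ker] at hw
          have hw' : S w = μ • w := sub_eq_zero.1 hw
          obtain ⟨x, hx⟩ := hS w
          rw [hw', map_sub] at hx
          refine ⟨x, ?_⟩
          change A (u x) = A (w : V) - μ • (w : V)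
          have h5 : ((μ • w : LinearMap.ker φ) : V) = μ • (w : V) := rfl
          rw [h5] at hx
          rw [hx]
          abel)
    apply LinearMap.finrank_le_finrank_of_injective (f := j)
    rintro ⟨⟨x, hx⟩, hy⟩ ⟨⟨x', hx'⟩, hy'⟩ h
    have h4 : x = x' := congrArg Subtype.val h
    subst h4
    rfl
  omega

theorem finite_gv {V : Type} [Finite F] [AddCommGroup V] [Module F V] [FiniteDimensional F V] :
    Finite (GV F V) := by
  have : Finite V := Module.finite_of_finite F
  exact DFunLike.finite _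

end

end EN

open Polynomial in
theorem t_EN : M_EN := by
  intro hB1 hB2 hBT hCB hIV hHC hIR hIE hUI hE2 F V _ _ _ _ _ e A hA hn hEL
  obtain ⟨g, j, hg4, hg8, hgj⟩ : ∃ g j : ℕ, 4 ≤ g ∧ g ≤ 7 ∧ Module.finrank F V = 4 * j + (g + 1) :=
    ⟨4 + (Module.finrank F V - 5) % 4, (Module.finrank F V - 5) / 4, by omega, by omega, by omega⟩
  set n := Module.finrank F V with hndef
  set κ := n / 4 with hκ
  obtain ⟨p, hp1, hp2, hp3, hp4⟩ := hIE F (g + 1) (by omega)
  obtain ⟨a, ha1, ha2⟩ := EN.exists_chp hHC g p hp1 hp3 hp4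
  have hirr : Irreducible (chp a) := by rw [ha1]; exact hp2
  obtain ⟨-, hDS, -, -⟩ := hIR F (g + 1) a hirr
  have hdc : dt (pw e a) = 1 := by
    cases e
    · change dt a⁻¹ = 1
      rw [(hIV F (Fin (g + 1) → F) (Fin (g + 1) → F) a a).2.2.2.2.2.1, ha2, inv_one]
    · exact ha2
  obtain ⟨u, hu⟩ := hUI F V A κ (g + 1) hEL (by omega)
  obtain ⟨φ, hφ1, hφ2⟩ := EN.exists_phi (g + 1) A (a * pw e a) u hu
  obtain ⟨S, hS1, hS2, -⟩ := hB2 F V (g + 1) A u φ (a * pw e a) hφ1 hφ2
  have hdS : dt S = 1 := by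
    rw [hA, EN.dt_mul, ha2, hdc, one_mul, one_mul] at hS2
    exact hS2.symm
  have hELS : EL S (κ + (g + 1)) := EN.el_sch (g + 1) κ A u φ S hS1 hEL
  have hker : Module.finrank F (LinearMap.ker φ) = 4 * j := by
    have h1 := φ.finrank_range_add_finrank_ker
    have h2 : LinearMap.range φ = ⊤ := by
      rw [LinearMap.range_eq_top]
      intro x
      exact ⟨u x, hφ1 x⟩
    rw [h2, finrank_top] at h1
    have h3 : Module.finrank F (Fin (g + 1) → F) = g + 1 := by simp
    omega
  obtain ⟨a', c', hac, hda', hca', hp'⟩ :=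
    hE2 F (LinearMap.ker φ) e S (κ + (g + 1)) j hdS hELS hker (by omega) (by omega)
  obtain ⟨B, C, hBC, hBlk⟩ := hB1 F V (g + 1) A u φ a (pw e a) a' c' hφ1 hφ2
    (by rw [hac]; exact hS1)
  obtain ⟨hT1, -, hT3, -, -, -⟩ := hBT F V (g + 1) u φ a (pw e a) a' c' B C hφ1 hBlk
  have hdeg : (chp a).natDegree = g + 1 := by rw [ha1, hp3]
  have hcop : IsCoprime (chp a) (chp a') := by
    rw [hirr.coprime_iff_not_dvd]
    intro h
    have := hp' _ hirr h
    omega
  obtain ⟨-, hB, -, hDSB⟩ := hCB F V (g + 1) e u φ a (pw e a) a' c' B C hφ1 hBlk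
    (IsConj.refl _) hca' hcop
  have : Finite (GV F V) := EN.finite_gv
  have hcz : 1 ≤ cz B := by
    unfold cz
    have : Nonempty {w : GV F V // Commute w B} := ⟨⟨1, Commute.one_left B⟩⟩
    exact Nat.card_pos
  have hDg : Dg B 9 := by
    intro q hq hdvd
    rw [hT1] at hdvd
    rcases hq.prime.dvd_or_dvd hdvd with h | h
    · have h2 := natDegree_le_of_dvd h hirr.ne_zero
      omega
    · have := hp' q hq h
      omega
  unfold Fc
  have : Nonempty {z : GV F V × GV F V // z.1 * z.2 = A ∧ dt z.1 = 1 ∧ IsConj (pw e z.1) z.2 ∧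
    Dg z.1 9 ∧ DS z.1 ∧ 1 ≤ cz z.1} :=
    ⟨⟨(B, C), hBC, by rw [hT3, ha2, hda', one_mul], hB, hDg, hDSB hDS, hcz⟩⟩
  exact Nat.card_pos

end RSF
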