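import Pool.Agent.RSF.Stmts4

/-!
# A subspace `U` with `V = U ⊕ A U`

Greedy construction: vectors are added one by one; a vector outside `q + 1` subspaces of small
dimension and outside the proper ones among the `U + range (A - μ)`.
-/

namespace RSF

namespace EU

open Module

variable {F V : Type} [Field F] [AddCommGroup V] [Module F V]

/-- finitely many small subspaces do not cover the space -/
theorem avoid [Finite F] [FiniteDimensional F V] {ι : Type} [Fintype ι] (S : ι → Submodule F V)
    (h : ∑ i, Nat.card F ^ (finrank F (S i)) < Nat.card F ^ (finrank F V)) :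
    ∃ v : V, ∀ i, v ∉ S i := by
  by_contra hc
  push Not at hc
  have : Finite V := Module.finite_of_finite F
  have hsurj : Function.Surjective (fun z : (Σ i, S i) => (z.2 : V)) := by
    intro v
    obtain ⟨i, hi⟩ := hc v
    exact ⟨⟨i, ⟨v, hi⟩⟩, rfl⟩
  have h1 : Nat.card V ≤ Nat.card (Σ i, S i) := Nat.card_le_card_of_surjective _ hsurj
  rw [Nat.card_sigma] at h1
  have h2 : ∀ i, Nat.card (S i) = Nat.card F ^ (finrank F (S i)) := fun i =>
    Module.natCard_eq_pow_finrank
  have h3 : Nat.card V = Nat.card F ^ (finrank F V) := Module.natCard_eq_pow_finrank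
  simp only [h2] at h1
  rw [h3] at h1
  omega

/-- `A - μ` -/
abbrev T (A : GV F V) (μ : F) : V →ₗ[F] V := (A : V →ₗ[F] V) - μ • LinearMap.id

/-- the dimension of a preimage -/
theorem finrank_comap_le [FiniteDimensional F V] (f : V →ₗ[F] V) (W : Submodule F V) :
    finrank F (W.comap f) + finrank F (W ⊔ LinearMap.range f : Submodule F V) ≤
      finrank F V + finrank F W := by
  have h1 := LinearMap.finrank_range_add_finrank_ker (f.domRestrict (W.comap f))
  have h2 : finrank F (LinearMap.range (f.domRestrict (W.comap f))) ≤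
      finrank F (W ⊓ LinearMap.range f : Submodule F V) := by
    apply Submodule.finrank_mono
    rintro y ⟨⟨x, hx⟩, rfl⟩
    exact ⟨hx, ⟨x, rfl⟩⟩
  have h3 : finrank F (LinearMap.ker (f.domRestrict (W.comap f))) ≤
      finrank F (LinearMap.ker f) := by
    apply LinearMap.finrank_le_finrank_of_injective
      (f := ((W.comap f).subtype.restrict (p := LinearMap.ker (f.domRestrict (W.comap f)))
        (q := LinearMap.ker f) (fun x hx => by simpa using hx)))
    intro x y hxy
    have := congrArg Subtype.val hxy
    exact Subtype.ext (Subtype.ext this)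
  have h4 := LinearMap.finrank_range_add_finrank_ker f
  have h5 := Submodule.finrank_sup_add_finrank_inf_eq W (LinearMap.range f)
  omega

/-- the invariant of the construction -/
structure Inv (A : GV F V) (k h i : ℕ) (b : Fin i → V) : Prop where
  ind : ∀ x y : Fin i → F, (∑ j, x j • b j) + A (∑ j, y j • b j) = 0 → x = 0 ∧ y = 0
  big : ∀ μ : F, 2 * h ≤
    finrank F (Submodule.span F (Set.range b) ⊔ LinearMap.range (T A μ) : Submodule F V) + (k - i)

theorem start [FiniteDimensional F V] (A : GV F V) (k h : ℕ) (hk : EL A k)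
    (hV : finrank F V = 2 * h) : Inv A k h 0 (fun j => j.elim0) := by
  refine ⟨fun x y _ => ⟨Subsingleton.elim _ _, Subsingleton.elim _ _⟩, fun μ => ?_⟩
  have h1 := LinearMap.finrank_range_add_finrank_ker (T A μ)
  have h2 : finrank F (LinearMap.ker (T A μ)) ≤ k := hk μ
  have h3 : finrank F (LinearMap.range (T A μ)) ≤
      finrank F (Submodule.span F (Set.range (fun j : Fin 0 => (j.elim0 : V))) ⊔
        LinearMap.range (T A μ) : Submodule F V) := Submodule.finrank_mono le_sup_right
  omega

/-- numbers -/
theorem num1 (q m : ℕ) (hq : 2 ≤ q) :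
    (q + 1) * q ^ m + (q - 1) * q ^ (m + 2) < q ^ (m + 3) := by
  obtain ⟨r, rfl⟩ : ∃ r, q = r + 1 := ⟨q - 1, by omega⟩
  have hr : 1 ≤ r := by omega
  have hp : 0 < (r + 1) ^ m := by positivity
  have e1 : (r + 1) ^ (m + 2) = (r + 1) ^ m * (r + 1) ^ 2 := pow_add _ _ _
  have e2 : (r + 1) ^ (m + 3) = (r + 1) ^ m * (r + 1) ^ 3 := pow_add _ _ _
  rw [e1, e2]
  simp only [Nat.add_sub_cancel]
  have : (r + 1 + 1) + r * (r + 1) ^ 2 < (r + 1) ^ 3 := by nlinarith
  calc (r + 1 + 1) * (r + 1) ^ m + r * ((r + 1) ^ m * (r + 1) ^ 2)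
      = (r + 1) ^ m * ((r + 1 + 1) + r * (r + 1) ^ 2) := by ring
    _ < (r + 1) ^ m * (r + 1) ^ 3 := Nat.mul_lt_mul_of_pos_left this hp

theorem num2 (q m : ℕ) (hq : 2 ≤ q) : (q + 1) * q ^ m < q ^ (m + 2) := by
  have hp : 0 < q ^ m := by positivity
  rw [pow_add]
  have : q + 1 < q ^ 2 := by nlinarith
  calc (q + 1) * q ^ m = q ^ m * (q + 1) := by ring
    _ < q ^ m * q ^ 2 := Nat.mul_lt_mul_of_pos_left this hp

/-- the subspace `W = U + A U` -/
def WW (A : GV F V) {i : ℕ} (b : Fin i → V) : Submodule F V :=
  Submodule.span F (Set.range b) ⊔ (Submodule.span F (Set.range b)).map (A : V →ₗ[F] V)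

theorem finrank_WW [FiniteDimensional F V] (A : GV F V) {i : ℕ} (b : Fin i → V) :
    finrank F (WW A b) ≤ 2 * i := by
  have h1 : finrank F (Submodule.span F (Set.range b)) ≤ i := by
    have := finrank_range_le_card (R := F) b
    rw [Fintype.card_fin] at this
    exact this
  have h2 := Submodule.finrank_map_le (A : V →ₗ[F] V) (Submodule.span F (Set.range b))
  have h3 := Submodule.finrank_add_le_finrank_add_finrank (Submodule.span F (Set.range b))
    ((Submodule.span F (Set.range b)).map (A : V →ₗ[F] V))
  unfold WW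
  omega

theorem finrank_pre [FiniteDimensional F V] (A : GV F V) {k h i : ℕ} (b : Fin i → V)
    (hV : finrank F V = 2 * h) (hI : Inv A k h i b) (μ : F) :
    finrank F ((WW A b).comap (T A μ)) ≤ 2 * i + (k - i) := by
  have h1 := finrank_comap_le (T A μ) (WW A b)
  have h2 := hI.big μ
  have h3 := finrank_WW A b
  have h4 : finrank F (Submodule.span F (Set.range b) ⊔ LinearMap.range (T A μ) : Submodule F V) ≤
      finrank F (WW A b ⊔ LinearMap.range (T A μ) : Submodule F V) :=
    Submodule.finrank_mono (sup_le_sup_right le_sup_left _)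
  omega

/-- the new vector -/
theorem pick [Finite F] [FiniteDimensional F V] (A : GV F V) {k h i : ℕ} (b : Fin i → V)
    (hV : finrank F V = 2 * h) (h3 : 3 * k + 8 ≤ 2 * h) (hi : i < h) (hI : Inv A k h i b) :
    ∃ v : V, v ∉ WW A b ∧ (∀ μ : F, T A μ v ∉ WW A b) ∧
      ∀ μ : F, (Submodule.span F (Set.range b) ⊔ LinearMap.range (T A μ) : Submodule F V) ≠ ⊤ →
        v ∉ (Submodule.span F (Set.range b) ⊔ LinearMap.range (T A μ) : Submodule F V) := by
  classical
  letI : Fintype F := Fintype.ofFinite F
  have hq : 2 ≤ Nat.card F := Finite.one_lt_card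
  have hq0 : 0 < Nat.card F := by omega
  have hcard : Fintype.card F = Nat.card F := Nat.card_eq_fintype_card.symm
  have hW := finrank_WW A b
  have hP := finrank_pre A b hV hI
  rcases Nat.lt_or_ge i k with hik | hik
  · -- few vectors
    let R : F → Submodule F V := fun μ =>
      if (Submodule.span F (Set.range b) ⊔ LinearMap.range (T A μ) : Submodule F V) = ⊤ then ⊥
      else Submodule.span F (Set.range b) ⊔ LinearMap.range (T A μ)
    have hR : ∀ μ, finrank F (R μ) ≤ 2 * h - 1 := by
      intro μ
      by_cases ht : (Submodule.span F (Set.range b) ⊔ LinearMap.range (T A μ) : Submodule F V) = ⊤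
      · have : R μ = ⊥ := if_pos ht
        rw [this, finrank_bot]; omega
      · have e : R μ = Submodule.span F (Set.range b) ⊔ LinearMap.range (T A μ) := if_neg ht
        rw [e]
        have := Submodule.finrank_lt ht
        omega
    let S : (Option F ⊕ {μ : F // μ ≠ 0}) → Submodule F V := fun s =>
      match s with
      | Sum.inl none => WW A b
      | Sum.inl (some μ) => (WW A b).comap (T A μ)
      | Sum.inr μ => R μ.1
    have hS : ∑ s, Nat.card F ^ (finrank F (S s)) < Nat.card F ^ (finrank F V) := by
      rw [Fintype.sum_sum_type, Fintype.sum_option]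
      have a1 : Nat.card F ^ (finrank F (S (Sum.inl none))) ≤ Nat.card F ^ (2 * h - 3) :=
        Nat.pow_le_pow_right hq0 (by show finrank F (WW A b) ≤ _; omega)
      have a2 : ∑ μ : F, Nat.card F ^ (finrank F (S (Sum.inl (some μ)))) ≤
          Nat.card F * Nat.card F ^ (2 * h - 3) := by
        refine (Finset.sum_le_card_nsmul Finset.univ _ (Nat.card F ^ (2 * h - 3)) ?_).trans ?_
        · intro μ _
          have := hP μ
          exact Nat.pow_le_pow_right hq0
            (by show finrank F ((WW A b).comap (T A μ)) ≤ _; omega)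
        · rw [Finset.card_univ, hcard, smul_eq_mul]
      have a3 : ∑ μ : {μ : F // μ ≠ 0}, Nat.card F ^ (finrank F (S (Sum.inr μ))) ≤
          (Nat.card F - 1) * Nat.card F ^ (2 * h - 1) := by
        refine (Finset.sum_le_card_nsmul Finset.univ _ (Nat.card F ^ (2 * h - 1)) ?_).trans ?_
        · intro μ _
          exact Nat.pow_le_pow_right hq0 (hR μ.1)
        · rw [Finset.card_univ, smul_eq_mul]
          have : Fintype.card {μ : F // μ ≠ 0} = Nat.card F - 1 := by
            rw [Fintype.card_subtype_compl, hcard]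
            simp
          rw [this]
      have a4 := num1 (Nat.card F) (2 * h - 3) hq
      have e1 : 2 * h - 3 + 2 = 2 * h - 1 := by omega
      have e2 : 2 * h - 3 + 3 = 2 * h := by omega
      rw [e1, e2] at a4
      rw [hV]
      have a5 : (Nat.card F + 1) * Nat.card F ^ (2 * h - 3) =
        Nat.card F ^ (2 * h - 3) + Nat.card F * Nat.card F ^ (2 * h - 3) := by ring
      rw [a5] at a4
      omega
    obtain ⟨v, hv⟩ := avoid S hS
    refine ⟨v, hv (Sum.inl none), fun μ hμ => hv (Sum.inl (some μ)) hμ, fun μ ht hμ => ?_⟩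
    have hμ0 : μ ≠ 0 := by
      rintro rfl
      apply ht
      rw [eq_top_iff]
      intro x _
      refine Submodule.mem_sup_right ⟨A.symm x, ?_⟩
      simp
    have e : R μ = Submodule.span F (Set.range b) ⊔ LinearMap.range (T A μ) := if_neg ht
    have := hv (Sum.inr ⟨μ, hμ0⟩)
    apply this
    show v ∈ R μ
    rw [e]
    exact hμ
  · -- many vectors
    let S : Option F → Submodule F V := fun s =>
      match s with
      | none => WW A b
      | some μ => (WW A b).comap (T A μ)
    have hS : ∑ s, Nat.card F ^ (finrank F (S s)) < Nat.card F ^ (finrank F V) := by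
      rw [Fintype.sum_option]
      have a1 : Nat.card F ^ (finrank F (S none)) ≤ Nat.card F ^ (2 * h - 2) :=
        Nat.pow_le_pow_right hq0 (by show finrank F (WW A b) ≤ _; omega)
      have a2 : ∑ μ : F, Nat.card F ^ (finrank F (S (some μ))) ≤
          Nat.card F * Nat.card F ^ (2 * h - 2) := by
        refine (Finset.sum_le_card_nsmul Finset.univ _ (Nat.card F ^ (2 * h - 2)) ?_).trans ?_
        · intro μ _
          have := hP μ
          exact Nat.pow_le_pow_right hq0
            (by show finrank F ((WW A b).comap (T A μ)) ≤ _; omega)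
        · rw [Finset.card_univ, hcard, smul_eq_mul]
      have a4 := num2 (Nat.card F) (2 * h - 2) hq
      have e1 : 2 * h - 2 + 2 = 2 * h := by omega
      rw [e1] at a4
      rw [hV]
      have a5 : (Nat.card F + 1) * Nat.card F ^ (2 * h - 2) =
        Nat.card F ^ (2 * h - 2) + Nat.card F * Nat.card F ^ (2 * h - 2) := by ring
      rw [a5] at a4
      omega
    obtain ⟨v, hv⟩ := avoid S hS
    refine ⟨v, hv none, fun μ hμ => hv (some μ) hμ, fun μ ht _ => ?_⟩
    apply ht
    have := hI.big μ
    apply Submodule.eq_top_of_finrank_eq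
    have h6 := Submodule.finrank_le
      (Submodule.span F (Set.range b) ⊔ LinearMap.range (T A μ) : Submodule F V)
    omega

theorem step [Finite F] [FiniteDimensional F V] (A : GV F V) {k h i : ℕ} (b : Fin i → V)
    (hV : finrank F V = 2 * h) (h3 : 3 * k + 8 ≤ 2 * h) (hi : i < h) (hI : Inv A k h i b) :
    ∃ b' : Fin (i + 1) → V, Inv A k h (i + 1) b' := by
  obtain ⟨v, hv1, hv2, hv3⟩ := pick A b hV h3 hi hI
  refine ⟨Fin.cons v b, ?_, ?_⟩
  · intro x y hxy
    rw [Fin.sum_univ_succ, Fin.sum_univ_succ] at hxy
    simp only [Fin.cons_zero, Fin.cons_succ, map_add, map_smul] at hxy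
    have hX : ∀ z : Fin i → F, ∑ j, z j • b j ∈ Submodule.span F (Set.range b) := fun z =>
      Submodule.sum_mem _ fun j _ =>
        Submodule.smul_mem _ _ (Submodule.subset_span ⟨j, rfl⟩)
    have hXW : ∑ j : Fin i, x j.succ • b j ∈ WW A b := Submodule.mem_sup_left (hX _)
    have hYW : A (∑ j : Fin i, y j.succ • b j) ∈ WW A b :=
      Submodule.mem_sup_right ⟨_, hX _, rfl⟩
    have hsum : x 0 • v + y 0 • A v ∈ WW A b := by
      have e : x 0 • v + y 0 • A v =
          -(∑ j : Fin i, x j.succ • b j + A (∑ j : Fin i, y j.succ • b j)) := by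
        rw [eq_neg_iff_add_eq_zero]
        rw [← hxy]
        abel
      rw [e]
      exact Submodule.neg_mem _ (Submodule.add_mem _ hXW hYW)
    have hy0 : y 0 = 0 := by
      by_contra hy
      apply hv2 (-((y 0)⁻¹ * x 0))
      have e : T A (-((y 0)⁻¹ * x 0)) v = (y 0)⁻¹ • (x 0 • v + y 0 • A v) := by
        simp only [T, LinearMap.sub_apply, LinearMap.smul_apply, LinearMap.id_apply,
          smul_add, smul_smul, inv_mul_cancel₀ hy, one_smul, neg_smul, sub_neg_eq_add]
        rw [add_comm]
        rfl
      rw [e]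
      exact Submodule.smul_mem _ _ hsum
    have hx0 : x 0 = 0 := by
      by_contra hx
      apply hv1
      rw [hy0, zero_smul, add_zero] at hsum
      exact (Submodule.smul_mem_iff _ hx).1 hsum
    rw [hx0, hy0] at hxy
    simp only [zero_smul, zero_add] at hxy
    obtain ⟨t1, t2⟩ := hI.ind (fun j => x j.succ) (fun j => y j.succ) hxy
    constructor
    · funext j
      refine Fin.cases hx0 (fun j => congrFun t1 j) j
    · funext j
      refine Fin.cases hy0 (fun j => congrFun t2 j) j
  · intro μ
    have hsub : Submodule.span F (Set.range b) ≤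
        Submodule.span F (Set.range (Fin.cons v b : Fin (i + 1) → V)) := by
      apply Submodule.span_mono
      rintro _ ⟨j, rfl⟩
      exact ⟨j.succ, by simp⟩
    have hvm : v ∈ Submodule.span F (Set.range (Fin.cons v b : Fin (i + 1) → V)) :=
      Submodule.subset_span ⟨0, by simp⟩
    have hle : (Submodule.span F (Set.range b) ⊔ LinearMap.range (T A μ) : Submodule F V) ≤
        Submodule.span F (Set.range (Fin.cons v b : Fin (i + 1) → V)) ⊔
          LinearMap.range (T A μ) := sup_le_sup_right hsub _
    have hbig := hI.big μ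
    by_cases ht : (Submodule.span F (Set.range b) ⊔ LinearMap.range (T A μ) : Submodule F V) = ⊤
    · have e : (Submodule.span F (Set.range (Fin.cons v b : Fin (i + 1) → V)) ⊔
          LinearMap.range (T A μ) : Submodule F V) = ⊤ := by
        rw [eq_top_iff, ← ht]; exact hle
      rw [e, finrank_top]
      omega
    · have hlt : (Submodule.span F (Set.range b) ⊔ LinearMap.range (T A μ) : Submodule F V) <
          Submodule.span F (Set.range (Fin.cons v b : Fin (i + 1) → V)) ⊔
            LinearMap.range (T A μ) := by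
        refine lt_of_le_of_ne hle fun he => hv3 μ ht ?_
        rw [he]
        exact Submodule.mem_sup_left hvm
      have hlt2 := Submodule.finrank_lt_finrank_of_lt hlt
      have hlt3 := Submodule.finrank_lt ht
      omega

theorem all [Finite F] [FiniteDimensional F V] (A : GV F V) {k h : ℕ} (hk : EL A k)
    (hV : finrank F V = 2 * h) (h3 : 3 * k + 8 ≤ 2 * h) :
    ∀ i, i ≤ h → ∃ b : Fin i → V, Inv A k h i b := by
  intro i
  induction i with
  | zero => exact fun _ => ⟨_, start A k h hk hV⟩
  | succ i ih =>
    intro hi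
    obtain ⟨b, hb⟩ := ih (by omega)
    exact step A b hV h3 (by omega) hb

end EU

theorem t_EU : S_EU := by
  intro F V _ _ _ _ _ A k h hk hV h3
  obtain ⟨b, hb⟩ := EU.all A hk hV h3 h le_rfl
  refine ⟨Fintype.linearCombination F b, ?_⟩
  let g : ((Fin h → F) × (Fin h → F)) →ₗ[F] V :=
    (Fintype.linearCombination F b).coprod ((A : V →ₗ[F] V) ∘ₗ Fintype.linearCombination F b)
  have hg : (fun z : (Fin h → F) × (Fin h → F) =>
      (Fintype.linearCombination F b) z.1 + A ((Fintype.linearCombination F b) z.2)) = g := by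
    funext z
    simp [g, LinearMap.coprod_apply]
  rw [hg]
  have hinj : Function.Injective g := by
    rw [injective_iff_map_eq_zero]
    rintro ⟨x, y⟩ hxy
    have : (∑ j, x j • b j) + A (∑ j, y j • b j) = 0 := by
      simpa [g, LinearMap.coprod_apply, Fintype.linearCombination_apply] using hxy
    obtain ⟨t1, t2⟩ := hb.ind x y this
    rw [t1, t2]; rfl
  have hfr : Module.finrank F ((Fin h → F) × (Fin h → F)) = Module.finrank F V := by
    rw [Module.finrank_prod, Module.finrank_fin_fun, hV]
    omega
  exact ⟨hinj, (LinearMap.injective_iff_surjective_of_finrank_eq_finrank hfr).1 hinj⟩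

end RSF
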