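import Pool.Agent.RSF.Stmts4

/-!
# Module GB (MP_5b5212_al): the number of elements with a large eigenspace
-/

namespace RSF

namespace GB

open Module

section

variable {F V : Type} [Field F] [AddCommGroup V] [Module F V] [FiniteDimensional F V]

/-- a subspace of dimension `k` inside a given one -/
theorem exW (E : Submodule F V) {k : ℕ} (hk : k ≤ finrank F E) :
    ∃ W : Submodule F V, finrank F W = k ∧ W ≤ E := by
  obtain ⟨v, hv⟩ := exists_linearIndependent_of_le_finrank hk
  have hv' : LinearIndependent F fun i => (v i : V) :=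
    hv.map' (Submodule.subtype _) (Submodule.ker_subtype _)
  refine ⟨Submodule.span F (Set.range fun i => (v i : V)), ?_, ?_⟩
  · rw [finrank_span_eq_card hv', Fintype.card_fin]
  · rw [Submodule.span_le]
    rintro _ ⟨i, rfl⟩
    exact (v i).2

/-- endomorphisms that are the scalar `μ` on `W` -/
theorem cardf [Finite F] (W : Submodule F V) (μ : F) :
    Nat.card {f : V →ₗ[F] V // ∀ w ∈ W, f w = μ • w} ≤
      Nat.card F ^ ((finrank F V - finrank F W) * finrank F V) := by
  have : Finite V := Module.finite_of_finite F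
  obtain ⟨W', hW'⟩ := Submodule.exists_isCompl W
  have hd : finrank F W + finrank F W' = finrank F V := Submodule.finrank_add_eq_of_isCompl hW'
  have hfin : Finite (W' →ₗ[F] V) := Module.finite_of_finite F
  have hinj : Function.Injective
      (fun f : {f : V →ₗ[F] V // ∀ w ∈ W, f w = μ • w} => f.1.domRestrict W') := by
    intro f g hfg
    apply Subtype.ext
    apply LinearMap.ext
    intro v
    have hv : v ∈ W ⊔ W' := by
      rw [hW'.sup_eq_top]
      trivial
    obtain ⟨w, hw, w', hw', rfl⟩ := Submodule.mem_sup.mp hv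
    have h1 := LinearMap.congr_fun hfg ⟨w', hw'⟩
    have h2 : f.1 w' = g.1 w' := h1
    rw [map_add, map_add, f.2 w hw, g.2 w hw, h2]
  calc Nat.card {f : V →ₗ[F] V // ∀ w ∈ W, f w = μ • w} ≤ Nat.card (W' →ₗ[F] V) :=
        Nat.card_le_card_of_injective _ hinj
    _ = Nat.card F ^ ((finrank F V - finrank F W) * finrank F V) := by
        rw [Module.natCard_eq_pow_finrank (K := F), Module.finrank_linearMap]
        congr 2
        omega

/-- endomorphisms with an eigenspace of dimension at least `k` -/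
theorem cardE (hS : S_SUB) [Finite F] (k : ℕ) (hk : k ≤ finrank F V) :
    Nat.card {f : V →ₗ[F] V // ∃ μ : F, k ≤ finrank F (LinearMap.ker (f - μ • LinearMap.id))} ≤
      Nat.card F * ((4 * Nat.card F ^ (k * (finrank F V - k))) *
        Nat.card F ^ ((finrank F V - k) * finrank F V)) := by
  classical
  have : Fintype F := Fintype.ofFinite F
  have : Finite V := Module.finite_of_finite F
  have : Finite (V →ₗ[F] V) := Module.finite_of_finite F
  have : Finite (Submodule F V) := Finite.of_injective (fun W : Submodule F V => (W : Set V))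
    SetLike.coe_injective
  have : Fintype {W : Submodule F V // finrank F W = k} := Fintype.ofFinite _
  have hch : ∀ f : {f : V →ₗ[F] V //
      ∃ μ : F, k ≤ finrank F (LinearMap.ker (f - μ • LinearMap.id))},
      ∃ z : Σ z : F × {W : Submodule F V // finrank F W = k},
        {f : V →ₗ[F] V // ∀ w ∈ z.2.1, f w = z.1 • w}, z.2.1 = f.1 := by
    intro f
    obtain ⟨μ, hμ⟩ := f.2
    obtain ⟨W, hW, hWE⟩ := exW _ hμ
    refine ⟨⟨(μ, ⟨W, hW⟩), ⟨f.1, ?_⟩⟩, rfl⟩
    intro w hw
    have h := hWE hw
    rw [LinearMap.mem_ker, LinearMap.sub_apply, LinearMap.smul_apply, LinearMap.id_apply,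
      sub_eq_zero] at h
    exact h
  choose Φ hΦ using hch
  have hinj : Function.Injective Φ := by
    intro f g hfg
    apply Subtype.ext
    rw [← hΦ f, ← hΦ g, hfg]
  calc Nat.card {f : V →ₗ[F] V //
        ∃ μ : F, k ≤ finrank F (LinearMap.ker (f - μ • LinearMap.id))}
      ≤ Nat.card (Σ z : F × {W : Submodule F V // finrank F W = k},
        {f : V →ₗ[F] V // ∀ w ∈ z.2.1, f w = z.1 • w}) :=
        Nat.card_le_card_of_injective _ hinj
    _ = ∑ z : F × {W : Submodule F V // finrank F W = k},
        Nat.card {f : V →ₗ[F] V // ∀ w ∈ z.2.1, f w = z.1 • w} := Nat.card_sigma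
    _ ≤ ∑ _z : F × {W : Submodule F V // finrank F W = k},
        Nat.card F ^ ((finrank F V - k) * finrank F V) := by
        apply Finset.sum_le_sum
        intro z _
        have h := cardf z.2.1 z.1
        rw [z.2.2] at h
        exact h
    _ = Nat.card F * Nat.card {W : Submodule F V // finrank F W = k} *
        Nat.card F ^ ((finrank F V - k) * finrank F V) := by
        rw [Finset.sum_const, smul_eq_mul, Finset.card_univ, ← Nat.card_eq_fintype_card,
          Nat.card_prod]
    _ ≤ Nat.card F * (4 * Nat.card F ^ (k * (finrank F V - k))) *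
        Nat.card F ^ ((finrank F V - k) * finrank F V) :=
        Nat.mul_le_mul_right _ (Nat.mul_le_mul_left _ (hS F V k hk).2)
    _ = _ := mul_assoc _ _ _

end

/-- elements of `PSL_n` with a large eigenspace -/
theorem cardG {F : Type} [Field F] [Finite F] (n : ℕ) :
    Nat.card {g : PS n F // BgE g} ≤
      Nat.card {f : (Fin n → F) →ₗ[F] (Fin n → F) //
        ∃ μ : F, 3 * n / 4 + 1 ≤ finrank F (LinearMap.ker (f - μ • LinearMap.id))} := by
  have : Finite ((Fin n → F) →ₗ[F] (Fin n → F)) := Module.finite_of_finite F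
  have hch : ∀ g : {g : PS n F // BgE g}, ∃ A : Matrix.SpecialLinearGroup (Fin n) F,
      mk A = g.1 ∧ ∃ μ : F,
        3 * n / 4 < finrank F (LinearMap.ker (Matrix.toLin' A.1 - μ • LinearMap.id)) :=
    fun g => g.2
  choose A hA hE using hch
  refine Nat.card_le_card_of_injective
    (fun g => ⟨Matrix.toLin' (A g).1, by
      obtain ⟨μ, hμ⟩ := hE g
      exact ⟨μ, hμ⟩⟩) ?_
  intro g g' h
  have h1 : Matrix.toLin' (A g).1 = Matrix.toLin' (A g').1 := congrArg Subtype.val h
  have h2 : (A g).1 = (A g').1 := Matrix.toLin'.injective h1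
  have h3 : A g = A g' := Subtype.ext h2
  apply Subtype.ext
  rw [← hA g, ← hA g', h3]

end GB

theorem t_GB : M_GB := by
  intro hS F _ _ n hn
  have hk : 3 * n / 4 + 1 ≤ n := by omega
  have h1 := GB.cardE (F := F) (V := Fin n → F) hS (3 * n / 4 + 1) (by
    rw [Module.finrank_fin_fun]
    exact hk)
  rw [Module.finrank_fin_fun] at h1
  have h2 := (GB.cardG (F := F) n).trans h1
  have hq : (1 : ℝ) < (Nat.card F : ℝ) := by
    exact_mod_cast Finite.one_lt_card (α := F)
  have hq0 : (0 : ℝ) < (Nat.card F : ℝ) := by linarith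
  have h3 : (Nat.card {g : PS n F // BgE g} : ℝ) ≤
      (Nat.card F : ℝ) * ((4 * (Nat.card F : ℝ) ^ ((3 * n / 4 + 1) * (n - (3 * n / 4 + 1)))) *
        (Nat.card F : ℝ) ^ ((n - (3 * n / 4 + 1)) * n)) := by
    exact_mod_cast h2
  refine h3.trans ?_
  generalize hkk : 3 * n / 4 + 1 = k at *
  have hk4 : 3 * n < 4 * k := by omega
  have e1 : (Nat.card F : ℝ) * ((4 * (Nat.card F : ℝ) ^ (k * (n - k))) *
      (Nat.card F : ℝ) ^ ((n - k) * n)) =
      4 * (Nat.card F : ℝ) ^ (1 + k * (n - k) + (n - k) * n) := by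
    rw [pow_add, pow_add, pow_one]
    ring
  rw [e1, ← Real.rpow_natCast]
  apply mul_le_mul_of_nonneg_left _ (by norm_num)
  apply Real.rpow_le_rpow_of_exponent_le hq.le
  push_cast [Nat.cast_sub hk]
  have hk4' : 3 * (n : ℝ) < 4 * (k : ℝ) := by exact_mod_cast hk4
  have hn0 : (0 : ℝ) ≤ (n : ℝ) := Nat.cast_nonneg n
  nlinarith

end RSF
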