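import Pool.Agent.RSF.Stmts4

/-!
# The image is irreducible and in no conjugate of a subgroup of a small family
-/

namespace RSF

noncomputable section

/-- Arbitrary periods at least `2` with `σ > 1`, `θ > (∑ 1/m_i) / (d - 1)`: with probability tending to `1`
the image of a random homomorphism to `PSL_n(q)` is irreducible and in no conjugate of one of
any `q ^ (η n²)` given subgroups of index at least `q ^ (θ n²)`. -/
def MainGB : Prop :=
  ∀ m : List ℕ, (∀ k ∈ m, 2 ≤ k) → 1 < sig m → ∀ θ : ℝ,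
    (m.length - sig m) < θ * (m.length - 1) →
    ∃ (η : ℝ) (r : ℕ), 0 < η ∧ ∀ ε : ℝ, 0 < ε → ∃ N : ℕ, ∀ n, r ≤ n →
    ∀ (F : Type) [Field F] [Finite F], N ≤ Nat.card (PS n F) →
    ∀ S : Set (Subgroup (PS n F)), (S.ncard : ℝ) ≤ (Nat.card F : ℝ) ^ (η * (n : ℝ) ^ 2) →
      (∀ M ∈ S, (Nat.card F : ℝ) ^ (θ * (n : ℝ) ^ 2) ≤ M.index) →
      1 - ε ≤ prob (OGroup 1 m) (PS n F)
        (fun ρ => Irr ρ.range ∧ ∀ M ∈ S, ¬ InConj ρ.range M) ∧
      1 - ε ≤ prob (NGroup 2 m) (PS n F)
        (fun ρ => Irr ρ.range ∧ ∀ M ∈ S, ¬ InConj ρ.range M)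

/-- `P(A and B) ≥ P(A) - P(C)` if `C` is implied by the negation of `B` -/
theorem prob_and (Γ G : Type) [Group Γ] [Group G] [Finite (Γ →* G)] (P Q R : (Γ →* G) → Prop)
    (h : ∀ ρ, ¬ Q ρ → R ρ) : prob Γ G P - prob Γ G R ≤ prob Γ G (fun ρ => P ρ ∧ Q ρ) := by
  classical
  unfold prob
  have h1 : Nat.card {ρ : Γ →* G // P ρ} ≤
      Nat.card {ρ : Γ →* G // P ρ ∧ Q ρ} + Nat.card {ρ : Γ →* G // R ρ} := by
    have := Fintype.ofFinite (Γ →* G)
    rw [Nat.card_eq_fintype_card, Nat.card_eq_fintype_card, Nat.card_eq_fintype_card,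
      Fintype.card_subtype, Fintype.card_subtype, Fintype.card_subtype]
    refine le_trans (Finset.card_le_card ?_) (Finset.card_union_le _ _)
    intro ρ hρ
    rw [Finset.mem_filter] at hρ
    rw [Finset.mem_union, Finset.mem_filter, Finset.mem_filter]
    by_cases hq : Q ρ
    · exact Or.inl ⟨hρ.1, hρ.2, hq⟩
    · exact Or.inr ⟨hρ.1, h ρ hq⟩
  have h2 : (Nat.card {ρ : Γ →* G // P ρ} : ℝ) ≤
      Nat.card {ρ : Γ →* G // P ρ ∧ Q ρ} + Nat.card {ρ : Γ →* G // R ρ} := by exact_mod_cast h1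
  rw [← sub_div]
  exact div_le_div_of_nonneg_right (by linarith) (Nat.cast_nonneg _)

theorem inConj_mono {G : Type} [Group G] {H K M : Subgroup G} (hHK : H ≤ K) (h : InConj K M) :
    InConj H M := by
  obtain ⟨g, hg⟩ := h
  exact ⟨g, fun x hx => hg x (hHK hx)⟩

theorem finite_hom (g : ℕ) (m : List ℕ) (G : Type) [Group G] [Finite G] :
    Finite (OGroup g m →* G) ∧ Finite (NGroup g m →* G) := by
  have h1 : Finite (OGen g m.length) := by
    have e : Function.Surjective (fun z : Fin g ⊕ Fin g ⊕ Fin m.length =>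
        match z with
        | Sum.inl i => OGen.a i
        | Sum.inr (Sum.inl i) => OGen.b i
        | Sum.inr (Sum.inr j) => OGen.x j) := by
      intro y
      cases y with
      | a i => exact ⟨Sum.inl i, rfl⟩
      | b i => exact ⟨Sum.inr (Sum.inl i), rfl⟩
      | x j => exact ⟨Sum.inr (Sum.inr j), rfl⟩
    exact Finite.of_surjective _ e
  have h2 : Finite (NGen g m.length) := by
    have e : Function.Surjective (fun z : Fin g ⊕ Fin m.length =>
        match z with
        | Sum.inl i => NGen.a i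
        | Sum.inr j => NGen.x j) := by
      intro y
      cases y with
      | a i => exact ⟨Sum.inl i, rfl⟩
      | x j => exact ⟨Sum.inr j, rfl⟩
    exact Finite.of_surjective _ e
  constructor
  · exact Finite.of_injective (fun (ρ : OGroup g m →* G) (y : OGen g m.length) =>
      ρ (PresentedGroup.of y)) fun ρ τ h => PresentedGroup.ext fun y => congrFun h y
  · exact Finite.of_injective (fun (ρ : NGroup g m →* G) (y : NGen g m.length) =>
      ρ (PresentedGroup.of y)) fun ρ τ h => PresentedGroup.ext fun y => congrFun h y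

theorem mainGB (hG : MainG) (hB : MainB2) : MainGB := by
  intro m hm hs θ hθ
  have hne : m ≠ [] := by
    rintro rfl
    simp only [sig, List.map_nil, List.sum_nil] at hs
    linarith
  obtain ⟨r1, h1⟩ := hG m hm hs
  obtain ⟨η, r2, hη, h2⟩ := hB m hne hm θ hθ
  refine ⟨η, max r1 r2, hη, fun ε hε => ?_⟩
  obtain ⟨N1, h1⟩ := h1 (ε / 2) (by linarith)
  obtain ⟨N2, h2⟩ := h2 (ε / 2) (by linarith)
  refine ⟨max N1 N2, fun n hn F _ _ hN S hS hI => ?_⟩
  obtain ⟨a1, b1⟩ := h1 n (le_trans (le_max_left _ _) hn) F (le_trans (le_max_left _ _) hN)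
  obtain ⟨a2, b2⟩ := h2 n (le_trans (le_max_right _ _) hn) F (le_trans (le_max_right _ _) hN)
    S hS hI
  have hf := finite_hom 1 m (PS n F)
  have hf2 := finite_hom 2 m (PS n F)
  have := hf.1
  have := hf2.2
  constructor
  · refine le_trans ?_ (prob_and (OGroup 1 m) (PS n F) (fun ρ => Irr ρ.range)
      (fun ρ => ∀ M ∈ S, ¬ InConj ρ.range M) (fun ρ => ∃ M ∈ S, InConj (oell ρ) M) ?_)
    · linarith
    · intro ρ h
      simp only [not_forall, not_not] at h
      obtain ⟨M, hM, h3⟩ := h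
      refine ⟨M, hM, inConj_mono ?_ h3⟩
      rw [oell, Subgroup.closure_le]
      rintro _ ⟨j, rfl⟩
      exact ⟨_, rfl⟩
  · refine le_trans ?_ (prob_and (NGroup 2 m) (PS n F) (fun ρ => Irr ρ.range)
      (fun ρ => ∀ M ∈ S, ¬ InConj ρ.range M) (fun ρ => ∃ M ∈ S, InConj (nell ρ) M) ?_)
    · linarith
    · intro ρ h
      simp only [not_forall, not_not] at h
      obtain ⟨M, hM, h3⟩ := h
      refine ⟨M, hM, inConj_mono ?_ h3⟩
      rw [nell, Subgroup.closure_le]
      rintro _ ⟨j, rfl⟩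
      exact ⟨_, rfl⟩

end

end RSF
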