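import Pool.Agent.RSF.Stmts4

/-!
Module GH: orders of the general linear groups.
-/

set_option autoImplicit false

namespace RSF

namespace GH

/-- The product `∏ (1 - q ^ (-i))`. -/
noncomputable def pr (q : ℝ) (n : ℕ) : ℝ := ∏ i ∈ Finset.range n, (1 - (q⁻¹) ^ (i + 1))

lemma fac_nonneg {q : ℝ} (hq : 2 ≤ q) (i : ℕ) : 0 ≤ 1 - (q⁻¹) ^ (i + 1) := by
  have h1 : q⁻¹ ≤ 1 := inv_le_one_of_one_le₀ (by linarith)
  have h0 : 0 ≤ q⁻¹ := by positivity
  have := pow_le_one₀ (n := i + 1) h0 h1
  linarith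

lemma fac_le {q : ℝ} (hq : 2 ≤ q) (i : ℕ) : 1 - (q⁻¹) ^ (i + 1) ≤ 1 := by
  have h0 : 0 ≤ (q⁻¹) ^ (i + 1) := by positivity
  linarith

lemma pr_nonneg {q : ℝ} (hq : 2 ≤ q) (n : ℕ) : 0 ≤ pr q n :=
  Finset.prod_nonneg fun i _ => fac_nonneg hq i

lemma pr_anti {q : ℝ} (hq : 2 ≤ q) {h n : ℕ} (hn : h ≤ n) : pr q n ≤ pr q h := by
  induction n, hn using Nat.le_induction with
  | base => exact le_rfl
  | succ n _ ih =>
    have : pr q (n + 1) = pr q n * (1 - (q⁻¹) ^ (n + 1)) := by
      unfold pr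
      rw [Finset.prod_range_succ]
    rw [this]
    calc pr q n * (1 - (q⁻¹) ^ (n + 1)) ≤ pr q n * 1 :=
          mul_le_mul_of_nonneg_left (fac_le hq n) (pr_nonneg hq n)
      _ ≤ pr q h := by rw [mul_one]; exact ih

lemma pr_le_one {q : ℝ} (hq : 2 ≤ q) (n : ℕ) : pr q n ≤ 1 := by
  have := pr_anti hq (Nat.zero_le n)
  simpa [pr] using this

lemma card_pos' (F : Type) [Field F] [Finite F] : (2 : ℝ) ≤ (Nat.card F : ℝ) := by
  have : 1 < Nat.card F := Finite.one_lt_card
  exact_mod_cast this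

/-- The order of `GL_n` as a real number. -/
lemma card_GL (F : Type) [Field F] [Finite F] (n : ℕ) :
    (Nat.card (GL (Fin n) F) : ℝ) = (Nat.card F : ℝ) ^ (n ^ 2) * pr (Nat.card F : ℝ) n := by
  have := Fintype.ofFinite F
  have hq := card_pos' F
  rw [Matrix.card_GL_field, Nat.card_eq_fintype_card] at *
  set q : ℝ := (Fintype.card F : ℝ) with hqd
  have hq0 : q ≠ 0 := by linarith
  rw [Finset.prod_fin_eq_prod_range, Nat.cast_prod]
  have h1 : ∀ i ∈ Finset.range n,
      ((if h : i < n then Fintype.card F ^ n - Fintype.card F ^ ((⟨i, h⟩ : Fin n) : ℕ) else 1 : ℕ) : ℝ)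
        = q ^ n * (1 - (q⁻¹) ^ (n - 1 - i + 1)) := by
    intro i hi
    rw [Finset.mem_range] at hi
    rw [dif_pos hi]
    have hle : Fintype.card F ^ i ≤ Fintype.card F ^ n :=
      Nat.pow_le_pow_right Fintype.card_pos hi.le
    push_cast [Nat.cast_sub hle]
    have h2 : n - 1 - i + 1 = n - i := by omega
    rw [h2, mul_sub, mul_one, ← hqd]
    congr 1
    have h3 : n = (n - i) + i := by omega
    have h4 : q ^ n = q ^ (n - i) * q ^ i := by
      rw [← pow_add]
      congr 1
    rw [h4, inv_pow]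
    field_simp
  rw [Finset.prod_congr rfl h1, Finset.prod_mul_distrib, Finset.prod_const, Finset.card_range,
    Finset.prod_range_reflect (fun j => 1 - (q⁻¹) ^ (j + 1)) n, ← pow_mul]
  congr 2
  ring

/-- The automorphisms of `V` and the matrices. -/
lemma card_GV (F V : Type) [Field F] [AddCommGroup V] [Module F V]
    [FiniteDimensional F V] :
    Nat.card (GV F V) = Nat.card (GL (Fin (Module.finrank F V)) F) := by
  let b := Module.finBasis F V
  have e1 : GV F V ≃ ((Fin (Module.finrank F V) → F) ≃ₗ[F] (Fin (Module.finrank F V) → F)) :=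
    { toFun := fun f => b.equivFun.symm.trans (f.trans b.equivFun)
      invFun := fun f => b.equivFun.trans (f.trans b.equivFun.symm)
      left_inv := fun f => by
        apply LinearEquiv.ext
        intro x
        simp only [LinearEquiv.trans_apply, LinearEquiv.symm_apply_apply]
      right_inv := fun f => by
        apply LinearEquiv.ext
        intro x
        simp only [LinearEquiv.trans_apply, LinearEquiv.apply_symm_apply] }
  have e2 := (LinearMap.GeneralLinearGroup.generalLinearEquiv F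
    (Fin (Module.finrank F V) → F)).symm.toEquiv
  have e3 := (Matrix.GeneralLinearGroup.toLin (n := Fin (Module.finrank F V)) (R := F)).symm.toEquiv
  exact Nat.card_congr (e1.trans (e2.trans e3))

end GH

theorem t_GH : M_GH := by
  intro hPI F V _ _ _ _ _ h hh
  have hq := GH.card_pos' F
  have hq0 : (0 : ℝ) < (Nat.card F : ℝ) := by linarith
  refine ⟨?_, ?_, GH.card_GV F V⟩
  · intro W _ _ _ hW
    rw [GH.card_GV F V, GH.card_GV F W, GH.card_GV F (Fin h → F), Module.finrank_fin_fun]
    set n := Module.finrank F V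
    set w := Module.finrank F W
    have hn : n = w + h := hW.symm
    have hR : (Nat.card (GL (Fin n) F) : ℝ) ≤ 4 * Nat.card (GL (Fin h) F) *
        Nat.card (GL (Fin w) F) * (Nat.card F : ℝ) ^ (2 * h * (n - h)) := by
      rw [GH.card_GL F n, GH.card_GL F h, GH.card_GL F w]
      set q : ℝ := (Nat.card F : ℝ) with hqd
      have h1 : GH.pr q n ≤ GH.pr q h := GH.pr_anti hq hh
      have h2 : (1 : ℝ) ≤ 4 * GH.pr q w := by
        have := hPI q hq w
        unfold GH.pr
        linarith
      have h3 : q ^ (n ^ 2) = q ^ (h ^ 2) * q ^ (w ^ 2) * q ^ (2 * h * (n - h)) := by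
        rw [← pow_add, ← pow_add]
        congr 1
        have : n - h = w := by omega
        rw [this, hn]
        ring
      have h4 : 0 ≤ GH.pr q h := GH.pr_nonneg hq h
      have h5 : 0 ≤ GH.pr q w := GH.pr_nonneg hq w
      calc q ^ (n ^ 2) * GH.pr q n ≤ q ^ (n ^ 2) * GH.pr q h := by gcongr
        _ = q ^ (n ^ 2) * GH.pr q h * 1 := (mul_one _).symm
        _ ≤ q ^ (n ^ 2) * GH.pr q h * (4 * GH.pr q w) := by gcongr
        _ = 4 * (q ^ (h ^ 2) * GH.pr q h) * (q ^ (w ^ 2) * GH.pr q w) *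
            q ^ (2 * h * (n - h)) := by rw [h3]; ring
    exact_mod_cast hR
  · rw [GH.card_GV F V]
    set n := Module.finrank F V
    have hR : (Nat.card (GL (Fin n) F) : ℝ) ≤ (Nat.card F : ℝ) ^ (n ^ 2) := by
      rw [GH.card_GL F n]
      calc (Nat.card F : ℝ) ^ (n ^ 2) * GH.pr (Nat.card F : ℝ) n
          ≤ (Nat.card F : ℝ) ^ (n ^ 2) * 1 := by
            have := GH.pr_le_one hq n
            gcongr
        _ = _ := mul_one _
    exact_mod_cast hR

end RSF
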