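import Pool.Agent.RSF.Stmts4

/-!
# Module HC: upper Hessenberg matrices
-/

namespace RSF

open Polynomial

noncomputable section

namespace HC

open Matrix

variable {F : Type} [Field F] {h : ℕ}

/-- the first basis vector -/
def e0 : Fin (h + 1) → F := Pi.single 0 1

/-- the conditions of an upper Hessenberg matrix -/
structure Hes (M : Matrix (Fin (h + 1)) (Fin (h + 1)) F) : Prop where
  sub : ∀ i : Fin h, M i.succ i.castSucc ≠ 0
  low : ∀ i j : Fin (h + 1), j.val + 1 < i.val → M i j = 0

/-- The powers of an upper Hessenberg matrix on the first basis vector. -/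
theorem pow_e0 {M : Matrix (Fin (h + 1)) (Fin (h + 1)) F} (hM : Hes M) (k : ℕ) (hk : k < h + 1) :
    (∀ i : Fin (h + 1), k < i.val → ((M ^ k) *ᵥ e0) i = 0) ∧ ((M ^ k) *ᵥ e0) ⟨k, hk⟩ ≠ 0 := by
  induction k with
  | zero =>
    constructor
    · intro i hi
      rw [pow_zero, one_mulVec]
      unfold e0
      rw [Pi.single_eq_of_ne]
      rintro rfl
      exact absurd hi (lt_irrefl 0)
    · rw [pow_zero, one_mulVec]
      unfold e0
      have : (⟨0, hk⟩ : Fin (h + 1)) = 0 := rfl
      rw [this, Pi.single_eq_same]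
      exact one_ne_zero
  | succ k ih =>
    have hk' : k < h + 1 := by omega
    obtain ⟨ih1, ih2⟩ := ih hk'
    constructor
    · intro i hi
      rw [pow_succ', ← mulVec_mulVec]
      change ∑ j, M i j * ((M ^ k) *ᵥ e0) j = 0
      apply Finset.sum_eq_zero
      intro j _
      by_cases hj : k < j.val
      · rw [ih1 j hj, mul_zero]
      · rw [hM.low i j (by omega), zero_mul]
    · rw [pow_succ', ← mulVec_mulVec]
      change ∑ j, M ⟨k + 1, hk⟩ j * ((M ^ k) *ᵥ e0) j ≠ 0
      rw [Finset.sum_eq_single (⟨k, hk'⟩ : Fin (h + 1))]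
      · refine mul_ne_zero ?_ ih2
        have h1 := hM.sub ⟨k, by omega⟩
        exact h1
      · intro j _ hj
        by_cases hj' : k < j.val
        · rw [ih1 j hj', mul_zero]
        · have h2 : j.val ≠ k := fun h3 => hj (Fin.ext h3)
          rw [hM.low _ j (by simp only; omega), zero_mul]
      · intro h3
        exact absurd (Finset.mem_univ _) h3

/-- A polynomial of small degree that kills the first vector is zero. -/
theorem eq_zero_of_aeval {M : Matrix (Fin (h + 1)) (Fin (h + 1)) F} (hM : Hes M) (d : F[X])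
    (hd : d.natDegree < h + 1) (h0 : (aeval M d) *ᵥ e0 = 0) : d = 0 := by
  by_contra hne
  have h1 := congrFun h0 ⟨d.natDegree, hd⟩
  rw [aeval_eq_sum_range, Matrix.sum_mulVec, Finset.sum_apply, Finset.sum_eq_single d.natDegree] at h1
  · rw [smul_mulVec, Pi.smul_apply, Pi.zero_apply, smul_eq_mul] at h1
    rcases mul_eq_zero.1 h1 with h2 | h2
    · exact hne (leadingCoeff_eq_zero.1 h2)
    · exact (pow_e0 hM d.natDegree hd).2 h2
  · intro k hk hk'
    rw [Finset.mem_range] at hk
    have hlt : k < d.natDegree := by omega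
    rw [smul_mulVec, Pi.smul_apply, (pow_e0 hM k (by omega)).1 _ hlt, smul_zero]
  · intro h2
    exact absurd (Finset.mem_range.2 (Nat.lt_succ_self _)) h2

/-- Changing the last column does not change the first powers. -/
theorem pow_agree {M : Matrix (Fin (h + 1)) (Fin (h + 1)) F} (hM : Hes M) (x : Fin (h + 1) → F)
    (k : ℕ) (hk : k < h + 1) :
    ((M.updateCol (Fin.last h) x) ^ k) *ᵥ e0 = (M ^ k) *ᵥ e0 := by
  induction k with
  | zero => rw [pow_zero, pow_zero]
  | succ k ih =>
    rw [pow_succ', ← mulVec_mulVec, ih (by omega), pow_succ', ← mulVec_mulVec]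
    funext i
    change ∑ j, (M.updateCol (Fin.last h) x) i j * ((M ^ k) *ᵥ e0) j = ∑ j, M i j * ((M ^ k) *ᵥ e0) j
    apply Finset.sum_congr rfl
    intro j _
    by_cases hj : j = Fin.last h
    · have h1 : k < j.val := by
        rw [hj, Fin.val_last]
        omega
      rw [(pow_e0 hM k (by omega)).1 j h1, mul_zero, mul_zero]
    · rw [updateCol_ne hj]

theorem hes_update {M : Matrix (Fin (h + 1)) (Fin (h + 1)) F} (hM : Hes M) (x : Fin (h + 1) → F) :
    Hes (M.updateCol (Fin.last h) x) := by
  constructor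
  · intro i
    rw [updateCol_ne (Fin.castSucc_lt_last i).ne]
    exact hM.sub i
  · intro i j hij
    have h1 : j ≠ Fin.last h := by
      rintro rfl
      rw [Fin.val_last] at hij
      have := i.2
      omega
    rw [updateCol_ne h1]
    exact hM.low i j hij

theorem aeval_agree {M : Matrix (Fin (h + 1)) (Fin (h + 1)) F} (hM : Hes M) (x : Fin (h + 1) → F)
    (s : F[X]) (hs : s.natDegree < h + 1) :
    (aeval (M.updateCol (Fin.last h) x) s) *ᵥ e0 = (aeval M s) *ᵥ e0 := by
  rw [aeval_eq_sum_range, aeval_eq_sum_range, Matrix.sum_mulVec, Matrix.sum_mulVec]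
  apply Finset.sum_congr rfl
  intro k hk
  rw [Finset.mem_range] at hk
  rw [smul_mulVec, smul_mulVec, pow_agree hM x k (by omega)]

/-- Every monic polynomial of the right degree is a characteristic polynomial. -/
theorem exists_col {M : Matrix (Fin (h + 1)) (Fin (h + 1)) F} (hM : Hes M) (r : F[X]) (hr : r.Monic)
    (hd : r.natDegree = h + 1) :
    ∃ x : Fin (h + 1) → F, (M.updateCol (Fin.last h) x).charpoly = r := by
  -- the remaining part
  have hs : (r - X ^ (h + 1)).natDegree < h + 1 := by
    have h1 : (r - X ^ (h + 1)).degree < r.degree := by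
      apply degree_sub_lt
      · rw [degree_X_pow, degree_eq_natDegree hr.ne_zero, hd]
      · exact hr.ne_zero
      · rw [hr.leadingCoeff, leadingCoeff_X_pow]
    rw [degree_eq_natDegree hr.ne_zero, hd] at h1
    by_cases h2 : r - X ^ (h + 1) = 0
    · rw [h2, natDegree_zero]
      omega
    · exact (natDegree_lt_iff_degree_lt h2).2 h1
  set s := r - X ^ (h + 1) with hsdef
  set w := (aeval M s) *ᵥ e0 with hw
  set u := (M ^ h) *ᵥ (e0 : Fin (h + 1) → F) with hu
  have huh : u (Fin.last h) ≠ 0 := (pow_e0 hM h (Nat.lt_succ_self h)).2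
  let x : Fin (h + 1) → F := fun i =>
    -(w i + ∑ j ∈ Finset.univ.erase (Fin.last h), M i j * u j) / u (Fin.last h)
  refine ⟨x, ?_⟩
  set N := M.updateCol (Fin.last h) x with hN
  have hNH : Hes N := hes_update hM x
  have hr0 : (aeval N r) *ᵥ e0 = 0 := by
    have h1 : r = X ^ (h + 1) + s := by
      rw [hsdef]
      ring
    rw [h1, map_add, Matrix.add_mulVec, aeval_agree hM x s hs, map_pow, aeval_X, pow_succ',
      ← mulVec_mulVec, pow_agree hM x h (Nat.lt_succ_self h)]
    funext i
    change ∑ j, N i j * u j + w i = 0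
    rw [← Finset.add_sum_erase _ _ (Finset.mem_univ (Fin.last h))]
    have h2 : ∑ j ∈ Finset.univ.erase (Fin.last h), N i j * u j =
        ∑ j ∈ Finset.univ.erase (Fin.last h), M i j * u j := by
      apply Finset.sum_congr rfl
      intro j hj
      rw [hN, updateCol_ne (Finset.ne_of_mem_erase hj)]
    rw [h2, hN, updateCol_self]
    change -(w i + ∑ j ∈ Finset.univ.erase (Fin.last h), M i j * u j) / u (Fin.last h) * u (Fin.last h) +
      ∑ j ∈ Finset.univ.erase (Fin.last h), M i j * u j + w i = 0
    rw [div_mul_cancel₀ _ huh]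
    ring
  have hc0 : (aeval N N.charpoly) *ᵥ (e0 : Fin (h + 1) → F) = 0 := by
    rw [Matrix.aeval_self_charpoly, Matrix.zero_mulVec]
  have hcd : N.charpoly.natDegree = h + 1 := by
    rw [Matrix.charpoly_natDegree_eq_dim, Fintype.card_fin]
  have hcm : N.charpoly.Monic := Matrix.charpoly_monic N
  have hdiff : (N.charpoly - r).natDegree < h + 1 := by
    have h1 : (N.charpoly - r).degree < N.charpoly.degree := by
      apply degree_sub_lt
      · rw [degree_eq_natDegree hcm.ne_zero, degree_eq_natDegree hr.ne_zero, hd, hcd]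
      · exact hcm.ne_zero
      · rw [hr.leadingCoeff, hcm.leadingCoeff]
    rw [degree_eq_natDegree hcm.ne_zero, hcd] at h1
    by_cases h2 : N.charpoly - r = 0
    · rw [h2, natDegree_zero]
      omega
    · exact (natDegree_lt_iff_degree_lt h2).2 h1
  have h3 := eq_zero_of_aeval hNH (N.charpoly - r) hdiff (by
    rw [map_sub, Matrix.sub_mulVec, hc0, hr0, sub_zero])
  exact sub_eq_zero.1 h3

/-- The first vector is cyclic. -/
theorem cyc {M : Matrix (Fin (h + 1)) (Fin (h + 1)) F} (hM : Hes M) : Cyc (Matrix.toLin' M) := by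
  refine ⟨e0, ?_⟩
  intro W h0 hinv
  have key : ∀ k : ℕ, ∀ hk : k < h + 1, (Pi.single (⟨k, hk⟩ : Fin (h + 1)) (1 : F)) ∈ W := by
    intro k
    induction k using Nat.strong_induction_on with
    | _ k ih =>
      intro hk
      rcases Nat.eq_zero_or_pos k with rfl | hpos
      · exact h0
      · obtain ⟨l, rfl⟩ : ∃ l, k = l + 1 := ⟨k - 1, by omega⟩
        have hl : l < h + 1 := by omega
        have h1 : Matrix.toLin' M (Pi.single (⟨l, hl⟩ : Fin (h + 1)) (1 : F)) ∈ W :=
          hinv _ (ih l (Nat.lt_succ_self l) hl)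
        have h2 : Matrix.toLin' M (Pi.single (⟨l, hl⟩ : Fin (h + 1)) (1 : F)) =
            ∑ k : Fin (h + 1), M k ⟨l, hl⟩ • (Pi.single k (1 : F) : Fin (h + 1) → F) := by
          rw [Matrix.toLin'_apply]
          funext i
          rw [Finset.sum_apply]
          simp only [Pi.smul_apply, smul_eq_mul]
          rw [Finset.sum_eq_single i]
          · rw [Pi.single_eq_same, mul_one, Matrix.mulVec_single_one]
            rfl
          · intro j _ hj
            rw [Pi.single_eq_of_ne hj.symm, mul_zero]
          · intro h3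
            exact absurd (Finset.mem_univ _) h3
        rw [h2, ← Finset.add_sum_erase _ _ (Finset.mem_univ (⟨l + 1, hk⟩ : Fin (h + 1)))] at h1
        have h3 : ∑ k ∈ Finset.univ.erase (⟨l + 1, hk⟩ : Fin (h + 1)),
            M k ⟨l, hl⟩ • (Pi.single k (1 : F) : Fin (h + 1) → F) ∈ W := by
          apply Submodule.sum_mem
          intro k hk'
          have hne := Finset.ne_of_mem_erase hk'
          have hne' : k.val ≠ l + 1 := fun h4 => hne (Fin.ext h4)
          by_cases h5 : l + 1 < k.val
          · rw [hM.low k ⟨l, hl⟩ h5, zero_smul]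
            exact Submodule.zero_mem _
          · exact W.smul_mem _ (ih k.val (by omega) k.2)
        have h4 := (W.add_mem_iff_left h3).1 h1
        have h5 : M ⟨l + 1, hk⟩ ⟨l, hl⟩ ≠ 0 := hM.sub ⟨l, by omega⟩
        have h6 := W.smul_mem (M ⟨l + 1, hk⟩ ⟨l, hl⟩)⁻¹ h4
        rw [smul_smul, inv_mul_cancel₀ h5, one_smul] at h6
        exact h6
  rw [eq_top_iff]
  intro v _
  have h1 : v = ∑ k : Fin (h + 1), v k • (Pi.single k (1 : F) : Fin (h + 1) → F) := by
    funext i
    rw [Finset.sum_apply]
    simp only [Pi.smul_apply, smul_eq_mul]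
    rw [Finset.sum_eq_single i]
    · rw [Pi.single_eq_same, mul_one]
    · intro j _ hj
      rw [Pi.single_eq_of_ne hj.symm, mul_zero]
    · intro h3
      exact absurd (Finset.mem_univ _) h3
  rw [h1]
  apply Submodule.sum_mem
  intro k _
  exact W.smul_mem _ (key k.val k.2)

end HC

theorem t_HC : S_HC := by
  intro F _ h M hsub hlow
  have hM : HC.Hes M := ⟨hsub, hlow⟩
  exact ⟨HC.cyc hM, fun r hr hd => HC.exists_col hM r hr hd⟩

end

end RSF
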