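import Pool.Agent.RSF.Stmts4

/-!
# Module IE: irreducible polynomials with constant term `(-1) ^ h`
-/

namespace RSF

open Polynomial IntermediateField

noncomputable section

namespace IE

theorem arith (q d h : ℕ) (hq : 2 ≤ q) (hd : 1 ≤ d) (hdh : d < h)
    (h1 : q ^ h - 1 ∣ (q - 1) * (q ^ d - 1)) : False := by
  have h2 : q ^ (d + 1) ≤ q ^ h := Nat.pow_le_pow_right (by omega) hdh
  have h3 : q ≤ q ^ d := by
    calc q = q ^ 1 := (pow_one q).symm
      _ ≤ q ^ d := Nat.pow_le_pow_right (by omega) hd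
  obtain ⟨a, ha⟩ : ∃ a, q = a + 1 := ⟨q - 1, by omega⟩
  obtain ⟨b, hb⟩ : ∃ b, q ^ d = b + 1 := ⟨q ^ d - 1, by omega⟩
  have hpos : 0 < (q - 1) * (q ^ d - 1) := Nat.mul_pos (by omega) (by omega)
  have h4 := Nat.le_of_dvd hpos h1
  have h5 : q ^ (d + 1) = (b + 1) * (a + 1) := by rw [pow_succ, hb, ← ha]
  have h6 : (q - 1) * (q ^ d - 1) = a * b := by
    rw [hb]
    have : q - 1 = a := by omega
    rw [this]
    simp
  rw [h6] at h4
  have h7 : (b + 1) * (a + 1) = a * b + a + b + 1 := by ring
  omega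

end IE

open IE

theorem t_IE : S_IE := by
  intro F _ _ h hh
  classical
  obtain ⟨p, hp⟩ := CharP.exists F
  have hpp : Fact p.Prime := ⟨(CharP.char_is_prime_or_zero F p).resolve_right
    (CharP.char_ne_zero_of_finite F p)⟩
  have : NeZero h := ⟨by omega⟩
  let K := FiniteField.Extension F p h
  have hfr : Module.finrank F K = h := FiniteField.finrank_extension F p h
  have hcard : Nat.card K = Nat.card F ^ h := FiniteField.natCard_extension F p h
  set q := Nat.card F with hq
  have hq2 : 2 ≤ q := Finite.one_lt_card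
  have : Finite K := inferInstance
  obtain ⟨g, hg⟩ := IsCyclic.exists_generator (α := Kˣ)
  have hord : orderOf g = q ^ h - 1 := by
    rw [orderOf_eq_card_of_forall_mem_zpowers hg, Nat.card_units, hcard]
  let β : K := ((g ^ (q - 1) : Kˣ) : K)
  have hβ0 : β ≠ 0 := Units.ne_zero _
  have hint : IsIntegral F β := IsIntegral.of_finite F β
  have hN : Algebra.norm F β = 1 := by
    apply (algebraMap F K).injective
    rw [FiniteField.algebraMap_norm_eq_pow, map_one, hcard, ← hq]
    have h1 : (q - 1) * ((q ^ h - 1) / (q - 1)) = q ^ h - 1 := by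
      refine Nat.mul_div_cancel' ?_
      have := Nat.sub_dvd_pow_sub_pow q 1 h
      rwa [one_pow] at this
    have h2 : (g ^ (q - 1)) ^ ((q ^ h - 1) / (q - 1)) = 1 := by
      rw [← pow_mul, h1, ← hord, pow_orderOf_eq_one]
    have h3 := congrArg (fun x : Kˣ => (x : K)) h2
    simp only [Units.val_pow_eq_pow_val, Units.val_one] at h3
    show (((g ^ (q - 1) : Kˣ) : K)) ^ ((q ^ h - 1) / (q - 1)) = 1
    rw [Units.val_pow_eq_pow_val]
    exact h3
  set d := Module.finrank F F⟮β⟯ with hd
  have hdpos : 1 ≤ d := Module.finrank_pos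
  have hmul : d * Module.finrank F⟮β⟯ K = h := by
    rw [hd, Module.finrank_mul_finrank, hfr]
  have hdh : d = h := by
    by_contra hne
    have hle : d ≤ h := Nat.le_of_dvd (by omega) ⟨_, hmul.symm⟩
    have hlt : d < h := lt_of_le_of_ne hle hne
    have hc : Nat.card F⟮β⟯ = q ^ d := by
      rw [Module.natCard_eq_pow_finrank (K := F) (V := F⟮β⟯)]
    have hg1 : (AdjoinSimple.gen F β) ^ (q ^ d - 1) = 1 := by
      have : Fintype F⟮β⟯ := Fintype.ofFinite _
      have h4 := FiniteField.pow_card_sub_one_eq_one (AdjoinSimple.gen F β) (by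
        intro h0
        apply hβ0
        have h5 := congrArg (algebraMap F⟮β⟯ K) h0
        rwa [AdjoinSimple.algebraMap_gen, map_zero] at h5)
      rwa [Fintype.card_eq_nat_card, hc] at h4
    have hg2 : β ^ (q ^ d - 1) = 1 := by
      have h5 := congrArg (algebraMap F⟮β⟯ K) hg1
      rwa [map_pow, AdjoinSimple.algebraMap_gen, map_one] at h5
    have hg3 : g ^ ((q - 1) * (q ^ d - 1)) = 1 := by
      rw [pow_mul]
      apply Units.ext
      rw [Units.val_pow_eq_pow_val]
      exact hg2
    have h6 := orderOf_dvd_of_pow_eq_one hg3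
    rw [hord] at h6
    exact arith q d h hq2 hdpos hlt h6
  have he : Module.finrank F⟮β⟯ K = 1 := by
    rw [hdh] at hmul
    exact Nat.eq_of_mul_eq_mul_left (by omega : 0 < h) (by rw [hmul, mul_one])
  have hdeg : (minpoly F β).natDegree = h := by
    rw [← IntermediateField.adjoin.finrank hint, ← hd, hdh]
  refine ⟨minpoly F β, minpoly.monic hint, minpoly.irreducible hint, hdeg, ?_⟩
  have h7 := Algebra.norm_eq_norm_adjoin F β
  rw [he, pow_one, hN] at h7
  have h8 := Algebra.PowerBasis.norm_gen_eq_coeff_zero_minpoly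
    (IntermediateField.adjoin.powerBasis hint)
  rw [IntermediateField.adjoin.powerBasis_gen hint] at h8
  rw [← h7, IntermediateField.adjoin.powerBasis_dim hint, IntermediateField.minpoly_gen, hdeg] at h8
  have h9 : (-1 : F) ^ h * (-1) ^ h = 1 := by
    rw [← mul_pow]
    simp
  calc (minpoly F β).coeff 0 = ((-1 : F) ^ h * (-1) ^ h) * (minpoly F β).coeff 0 := by
        rw [h9, one_mul]
    _ = (-1) ^ h * ((-1) ^ h * (minpoly F β).coeff 0) := by ring
    _ = (-1) ^ h := by rw [← h8, mul_one]

end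

end RSF
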