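import Pool.Agent.RSF.Stmts4

/-!
# Irreducible elements

The proof of `S_IR`: the field `K = F[X]/(p)` with `p = chp a` and the space `F^h` are isomorphic, with
the multiplication by the root corresponding to `a`.
-/

namespace RSF

open Polynomial

noncomputable section

namespace IR

/-- the isomorphism of the field `F[X]/(p)` with the space -/
theorem exists_equiv {F V : Type} [Field F] [AddCommGroup V] [Module F V] [FiniteDimensional F V]
    (f : V →ₗ[F] V) (p : F[X]) (hp : f.charpoly = p) (hi : Irreducible p) :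
    ∃ Φ : AdjoinRoot p ≃ₗ[F] V, ∀ x, Φ (AdjoinRoot.root p * x) = f (Φ x) := by
  have : Fact (Irreducible p) := ⟨hi⟩
  have hmon : p.Monic := hp ▸ f.charpoly_monic
  have hdeg : p.natDegree = Module.finrank F V := by rw [← hp, LinearMap.charpoly_natDegree]
  have hpos : 0 < Module.finrank F V := hdeg ▸ hi.natDegree_pos
  have : Nontrivial V := Module.nontrivial_of_finrank_pos hpos
  obtain ⟨v, hv⟩ := exists_ne (0 : V)
  have hpf : aeval f p = 0 := by rw [← hp]; exact f.aeval_self_charpoly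
  let L : F[X] →ₗ[F] V := (LinearMap.applyₗ v).comp (aeval f).toLinearMap
  have hL : ∀ g : F[X], L g = aeval f g v := fun g => rfl
  let M : F[X] →ₗ[F] AdjoinRoot p := (AdjoinRoot.mkₐ p).toLinearMap
  have hM : ∀ g : F[X], M g = AdjoinRoot.mk p g := fun g => rfl
  have hMs : Function.Surjective M := fun x => by
    obtain ⟨g, hg⟩ := AdjoinRoot.mk_surjective x
    exact ⟨g, hg⟩
  have hker : LinearMap.ker M = LinearMap.ker L := by
    ext g
    rw [LinearMap.mem_ker, LinearMap.mem_ker, hM, hL, AdjoinRoot.mk_eq_zero]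
    constructor
    · rintro ⟨q, rfl⟩
      rw [mul_comm, map_mul, hpf, mul_zero, LinearMap.zero_apply]
    · intro hg
      by_contra hnd
      have hc : IsCoprime p g := (hi.coprime_iff_not_dvd).2 hnd
      obtain ⟨r, s, hrs⟩ := hc
      apply hv
      have h1 : aeval f (r * p + s * g) v = v := by rw [hrs, map_one, Module.End.one_apply]
      rw [← h1, map_add, map_mul, map_mul, hpf, mul_zero, zero_add, Module.End.mul_apply, hg,
        map_zero]
  let E : (F[X] ⧸ LinearMap.ker M) ≃ₗ[F] AdjoinRoot p := M.quotKerEquivOfSurjective hMs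
  have hfr : Module.finrank F (AdjoinRoot p) = Module.finrank F V := by
    rw [(AdjoinRoot.powerBasis' hmon).finrank, AdjoinRoot.powerBasis'_dim, hdeg]
  have hLs : Function.Surjective L := by
    rw [← LinearMap.range_eq_top]
    apply Submodule.eq_top_of_finrank_eq
    rw [← hfr, ← L.quotKerEquivRange.finrank_eq, ← hker, E.finrank_eq]
  let Φ : AdjoinRoot p ≃ₗ[F] V := E.symm.trans
    ((Submodule.quotEquivOfEq _ _ hker).trans (L.quotKerEquivOfSurjective hLs))
  have hΦ : ∀ g : F[X], Φ (AdjoinRoot.mk p g) = aeval f g v := by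
    intro g
    have h1 : E.symm (AdjoinRoot.mk p g) = Submodule.Quotient.mk g := by
      rw [LinearEquiv.symm_apply_eq]
      rfl
    show (L.quotKerEquivOfSurjective hLs) ((Submodule.quotEquivOfEq _ _ hker) (E.symm (AdjoinRoot.mk p g))) = _
    rw [h1, Submodule.quotEquivOfEq_mk]
    rfl
  refine ⟨Φ, fun x => ?_⟩
  obtain ⟨g, rfl⟩ := AdjoinRoot.mk_surjective x
  rw [← AdjoinRoot.mk_X, ← map_mul, hΦ, hΦ, map_mul, aeval_X, Module.End.mul_apply]

section
variable {F V : Type} [Field F] [AddCommGroup V] [Module F V] {p : F[X]}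

/-- the root generates: polynomials in the root correspond to polynomials in `f` -/
theorem equiv_mk (f : V →ₗ[F] V) (Φ : AdjoinRoot p ≃ₗ[F] V)
    (hΦ : ∀ x, Φ (AdjoinRoot.root p * x) = f (Φ x)) (g : F[X]) (x : AdjoinRoot p) :
    Φ (AdjoinRoot.mk p g * x) = aeval f g (Φ x) := by
  induction g using Polynomial.induction_on' generalizing x with
  | add g₁ g₂ h₁ h₂ => rw [map_add, add_mul, map_add, h₁, h₂, map_add, LinearMap.add_apply]
  | monomial n a =>
    rw [← C_mul_X_pow_eq_monomial, RingHom.map_mul, RingHom.map_pow, AdjoinRoot.mk_X, AdjoinRoot.mk_C,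
      map_mul (aeval f), map_pow (aeval f), aeval_X, aeval_C, Module.End.mul_apply]
    have h1 : ∀ n : ℕ, ∀ x, Φ (AdjoinRoot.root p ^ n * x) = (f ^ n) (Φ x) := by
      intro n
      induction n with
      | zero => intro x; rw [pow_zero, one_mul, pow_zero, Module.End.one_apply]
      | succ n ih => intro x; rw [pow_succ, mul_assoc, ih, hΦ, pow_succ, Module.End.mul_apply]
    have h2 : AdjoinRoot.of p a = algebraMap F (AdjoinRoot p) a := rfl
    rw [h2, mul_assoc, ← Algebra.smul_def, map_smul, h1, Module.algebraMap_end_apply]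

/-- conjugacy -/
theorem conj (a b : GV F V) (Φ Ψ : AdjoinRoot p ≃ₗ[F] V)
    (hΦ : ∀ x, Φ (AdjoinRoot.root p * x) = (a : V →ₗ[F] V) (Φ x))
    (hΨ : ∀ x, Ψ (AdjoinRoot.root p * x) = (b : V →ₗ[F] V) (Ψ x)) : IsConj a b := by
  rw [isConj_iff]
  refine ⟨Φ.symm.trans Ψ, ?_⟩
  rw [mul_inv_eq_iff_eq_mul]
  ext v
  show Ψ (Φ.symm (a v)) = b (Ψ (Φ.symm v))
  have h1 : a v = Φ (AdjoinRoot.root p * Φ.symm v) := by
    rw [hΦ, LinearEquiv.apply_symm_apply]; rfl
  rw [h1, LinearEquiv.symm_apply_apply, hΨ]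
  rfl

/-- cyclic -/
theorem cyc (f : V →ₗ[F] V) (Φ : AdjoinRoot p ≃ₗ[F] V)
    (hΦ : ∀ x, Φ (AdjoinRoot.root p * x) = f (Φ x)) : Cyc f := by
  refine ⟨Φ 1, fun W hv hW => ?_⟩
  rw [eq_top_iff]
  intro y _
  obtain ⟨g, hg⟩ := AdjoinRoot.mk_surjective (Φ.symm y)
  have h1 : y = aeval f g (Φ 1) := by
    rw [← equiv_mk f Φ hΦ, mul_one, hg, LinearEquiv.apply_symm_apply]
  have h2 : ∀ (g : F[X]), ∀ w ∈ W, aeval f g w ∈ W := by
    intro g
    induction g using Polynomial.induction_on' with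
    | add g₁ g₂ h₁ h₂ =>
      intro w hw
      rw [map_add, LinearMap.add_apply]
      exact W.add_mem (h₁ w hw) (h₂ w hw)
    | monomial n a =>
      intro w hw
      rw [aeval_monomial, Module.End.mul_apply, Module.algebraMap_end_apply]
      apply W.smul_mem
      have h3 : ∀ n : ℕ, ∀ w ∈ W, (f ^ n) w ∈ W := by
        intro n
        induction n with
        | zero => intro w hw; simpa using hw
        | succ n ih =>
          intro w hw
          rw [pow_succ, Module.End.mul_apply]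
          exact ih _ (hW w hw)
      exact h3 n w hw
  rw [h1]
  exact h2 g _ hv

end

section
variable {F V : Type} [Field F] [AddCommGroup V] [Module F V] {p : F[X]} [Fact (Irreducible p)]

/-- the multiplication by a unit -/
def mulE (z : (AdjoinRoot p)ˣ) : AdjoinRoot p ≃ₗ[F] AdjoinRoot p where
  toFun x := (z : AdjoinRoot p) * x
  map_add' x y := mul_add _ x y
  map_smul' c x := mul_smul_comm c _ x
  invFun x := ((z⁻¹ : (AdjoinRoot p)ˣ) : AdjoinRoot p) * x
  left_inv x := Units.inv_mul_cancel_left z x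
  right_inv x := Units.mul_inv_cancel_left z x

/-- the element of the centraliser -/
def cen (Φ : AdjoinRoot p ≃ₗ[F] V) (z : (AdjoinRoot p)ˣ) : GV F V :=
  Φ.symm.trans ((mulE z).trans Φ)

theorem cen_apply (Φ : AdjoinRoot p ≃ₗ[F] V) (z : (AdjoinRoot p)ˣ) (v : V) :
    cen Φ z v = Φ (z * Φ.symm v) := rfl

theorem cen_commute (a : GV F V) (Φ : AdjoinRoot p ≃ₗ[F] V)
    (hΦ : ∀ x, Φ (AdjoinRoot.root p * x) = (a : V →ₗ[F] V) (Φ x)) (z : (AdjoinRoot p)ˣ) :
    Commute (cen Φ z) a := by
  show cen Φ z * a = a * cen Φ z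
  ext v
  show cen Φ z (a v) = a (cen Φ z v)
  have h1 : a v = Φ (AdjoinRoot.root p * Φ.symm v) := by
    rw [hΦ, LinearEquiv.apply_symm_apply]; rfl
  rw [cen_apply, cen_apply, h1, LinearEquiv.symm_apply_apply]
  have h2 := hΦ (z * Φ.symm v)
  rw [mul_left_comm]
  exact h2

theorem cen_dt (Φ : AdjoinRoot p ≃ₗ[F] V) (z : (AdjoinRoot p)ˣ) :
    dt (cen Φ z) = Algebra.norm F (z : AdjoinRoot p) := by
  rw [Algebra.norm_apply]
  have h := LinearMap.det_conj (Algebra.lmul F (AdjoinRoot p) (z : AdjoinRoot p)) Φ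
  rw [← h]
  rfl

theorem cen_bij (a : GV F V) (Φ : AdjoinRoot p ≃ₗ[F] V)
    (hΦ : ∀ x, Φ (AdjoinRoot.root p * x) = (a : V →ₗ[F] V) (Φ x)) :
    Function.Bijective (fun z : (AdjoinRoot p)ˣ =>
      (⟨cen Φ z, cen_commute a Φ hΦ z⟩ : {w : GV F V // Commute w a})) := by
  constructor
  · intro z z' h
    have h1 : cen Φ z = cen Φ z' := congrArg Subtype.val h
    have h2 := congrArg (fun w : GV F V => Φ.symm (w (Φ 1))) h1
    simp only [cen_apply, LinearEquiv.symm_apply_apply, mul_one] at h2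
    exact Units.ext h2
  · rintro ⟨w, hw⟩
    have hne : Φ.symm (w (Φ 1)) ≠ 0 := by
      intro h
      have h1 : w (Φ 1) = 0 := by
        have := congrArg Φ h
        rwa [LinearEquiv.apply_symm_apply, map_zero] at this
      have h2 : Φ 1 = 0 := by
        have := congrArg w.symm h1
        rwa [LinearEquiv.symm_apply_apply, map_zero] at this
      have h3 : (1 : AdjoinRoot p) = 0 := by
        have := congrArg Φ.symm h2
        rwa [LinearEquiv.symm_apply_apply, map_zero] at this
      exact one_ne_zero h3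
    refine ⟨Units.mk0 _ hne, Subtype.ext ?_⟩
    ext v
    show cen Φ (Units.mk0 _ hne) v = w v
    rw [cen_apply, Units.val_mk0]
    obtain ⟨g, hg⟩ := AdjoinRoot.mk_surjective (Φ.symm v)
    have h1 : ∀ x, w ((a : V →ₗ[F] V) x) = (a : V →ₗ[F] V) (w x) := by
      intro x
      exact congrArg (fun u : GV F V => u x) hw.eq
    have h2 : ∀ (n : ℕ) (x : V), w (((a : V →ₗ[F] V) ^ n) x) = ((a : V →ₗ[F] V) ^ n) (w x) := by
      intro n
      induction n with
      | zero => intro x; simp
      | succ n ih => intro x; rw [pow_succ, Module.End.mul_apply, Module.End.mul_apply, ih, h1]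
    have h3 : ∀ (g : F[X]) (x : V), w (aeval (a : V →ₗ[F] V) g x) = aeval (a : V →ₗ[F] V) g (w x) := by
      intro g
      induction g using Polynomial.induction_on' with
      | add g₁ g₂ h₁ h₂ =>
        intro x
        rw [map_add, LinearMap.add_apply, LinearMap.add_apply, map_add, h₁, h₂]
      | monomial n c =>
        intro x
        rw [aeval_monomial, Module.End.mul_apply, Module.End.mul_apply, Module.algebraMap_end_apply,
          Module.algebraMap_end_apply, map_smul, h2]
    have h4 : v = aeval (a : V →ₗ[F] V) g (Φ 1) := by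
      rw [← equiv_mk _ Φ hΦ, mul_one, hg, LinearEquiv.apply_symm_apply]
    rw [← hg, mul_comm, equiv_mk _ Φ hΦ, LinearEquiv.apply_symm_apply]
    conv_rhs => rw [h4]
    rw [h3]

end

end IR

theorem t_IR : S_IR := by
  intro F _ _ h a hi
  have : Fact (Irreducible (chp a)) := ⟨hi⟩
  obtain ⟨Φ, hΦ⟩ := IR.exists_equiv (a : (Fin h → F) →ₗ[F] (Fin h → F)) (chp a) rfl hi
  have : Finite (AdjoinRoot (chp a)) := Finite.of_equiv _ Φ.toEquiv.symm
  have hcardK : Nat.card (AdjoinRoot (chp a)) = Nat.card F ^ h := by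
    rw [Nat.card_congr Φ.toEquiv, Nat.card_fun, Nat.card_eq_fintype_card (α := Fin h), Fintype.card_fin]
  refine ⟨?_, ?_, IR.cyc _ Φ hΦ, ?_⟩
  · have h1 : cz a = Nat.card (AdjoinRoot (chp a))ˣ :=
      (Nat.card_congr (Equiv.ofBijective _ (IR.cen_bij a Φ hΦ))).symm
    rw [h1, Nat.card_units, hcardK]
    have : 0 < Nat.card F ^ h := pow_pos Nat.card_pos h
    omega
  · intro δ hδ
    obtain ⟨z, hz⟩ := FiniteField.norm_surjective F (AdjoinRoot (chp a)) δ
    have hz0 : z ≠ 0 := by
      rintro rfl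
      apply hδ
      rw [← hz, Algebra.norm_zero]
    refine ⟨IR.cen Φ (Units.mk0 z hz0), IR.cen_commute a Φ hΦ _, ?_⟩
    rw [IR.cen_dt, Units.val_mk0, hz]
  · intro b hb
    obtain ⟨Ψ, hΨ⟩ := IR.exists_equiv (b : (Fin h → F) →ₗ[F] (Fin h → F)) (chp a) hb hi
    exact IR.conj a b Φ Ψ hΦ hΨ

end

end RSF
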