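import Pool.Agent.RSF.Stmts4

/-!
# RSF, module IV: the inverse of an invertible endomorphism
-/

namespace RSF

open Polynomial

noncomputable section

namespace IV

variable {F : Type} [Field F]

theorem natDegree_rev {p : F[X]} (h : p.coeff 0 ≠ 0) : p.reverse.natDegree = p.natDegree := by
  rw [reverse_natDegree, natTrailingDegree_eq_zero.2 (Or.inr h), Nat.sub_zero]

theorem rev_rev {p : F[X]} (h : p.coeff 0 ≠ 0) : p.reverse.reverse = p := by
  ext n
  rw [coeff_reverse, natDegree_rev h, coeff_reverse, revAt_invol]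

theorem rev_irreducible {p : F[X]} (hp : Irreducible p) (h : p.coeff 0 ≠ 0) :
    Irreducible p.reverse := by
  have hp0 : p ≠ 0 := hp.ne_zero
  constructor
  · intro hu
    have h1 := natDegree_eq_zero_of_isUnit hu
    rw [natDegree_rev h] at h1
    exact absurd h1 hp.natDegree_pos.ne'
  · intro a b hab
    have hc : a.coeff 0 * b.coeff 0 ≠ 0 := by
      rw [← mul_coeff_zero, ← hab, coeff_zero_reverse]
      exact leadingCoeff_ne_zero.2 hp0
    have ha := left_ne_zero_of_mul hc
    have hb := right_ne_zero_of_mul hc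
    have h1 : p = a.reverse * b.reverse := by
      rw [← reverse_mul_of_domain, ← hab, rev_rev h]
    have key : ∀ c : F[X], c.coeff 0 ≠ 0 → IsUnit c.reverse → IsUnit c := by
      intro c hc hu
      have h2 := natDegree_eq_zero_of_isUnit hu
      rw [natDegree_rev hc] at h2
      rw [eq_C_of_natDegree_eq_zero h2]
      exact (isUnit_iff_ne_zero.2 hc).map C
    rcases hp.isUnit_or_isUnit h1 with hu | hu
    · exact Or.inl (key a ha hu)
    · exact Or.inr (key b hb hu)

theorem coeff_ne_of_dvd {z p : F[X]} (h : p.coeff 0 ≠ 0) (hz : z ∣ p) : z.coeff 0 ≠ 0 := by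
  obtain ⟨s, rfl⟩ := hz
  rw [mul_coeff_zero] at h
  exact left_ne_zero_of_mul h

theorem rev_dvd {z p p' : F[X]} {c : F} (hc : c ≠ 0) (h : C c * p = p'.reverse) (hz : z ∣ p') :
    z.reverse ∣ p := by
  obtain ⟨s, rfl⟩ := hz
  rw [reverse_mul_of_domain] at h
  have h1 : z.reverse ∣ C c * p := ⟨s.reverse, h⟩
  exact ((isUnit_iff_ne_zero.2 hc).map C).dvd_mul_left.1 h1

section

variable {V : Type} [AddCommGroup V] [Module F V] [FiniteDimensional F V]

theorem dt_mul (f g : GV F V) : dt (f * g) = dt f * dt g := by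
  unfold dt
  rw [← LinearMap.det_comp]
  rfl

theorem dt_one : dt (1 : GV F V) = 1 := by
  unfold dt
  exact LinearMap.det_id

theorem dt_inv (f : GV F V) : dt f⁻¹ = (dt f)⁻¹ := by
  have h : dt f * dt f⁻¹ = 1 := by
    rw [← dt_mul, mul_inv_cancel, dt_one]
  exact eq_inv_of_mul_eq_one_right h

theorem dt_ne (f : GV F V) : dt f ≠ 0 := by
  have h : dt f * dt f⁻¹ = 1 := by
    rw [← dt_mul, mul_inv_cancel, dt_one]
  exact left_ne_zero_of_mul_eq_one h

theorem coeff_ne (f : GV F V) : (chp f).coeff 0 ≠ 0 := by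
  have h := dt_ne f
  unfold dt at h
  rw [LinearMap.det_eq_sign_charpoly_coeff] at h
  exact right_ne_zero_of_mul h

theorem chp_inv (f : GV F V) : C ((chp f).coeff 0) * chp f⁻¹ = (chp f).reverse := by
  let b := Module.finBasis F V
  let A := LinearMap.toMatrix b b (f : V →ₗ[F] V)
  let B := LinearMap.toMatrix b b ((f⁻¹ : GV F V) : V →ₗ[F] V)
  have hA : A.charpoly = chp f := LinearMap.charpoly_toMatrix _ _
  have hB : B.charpoly = chp f⁻¹ := LinearMap.charpoly_toMatrix _ _
  have hAB : A * B = 1 := by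
    rw [← LinearMap.toMatrix_comp]
    have : ((f : V →ₗ[F] V)) ∘ₗ ((f⁻¹ : GV F V) : V →ₗ[F] V) = LinearMap.id := by
      ext v
      exact LinearEquiv.apply_symm_apply f v
    rw [this, LinearMap.toMatrix_id]
  have hinv : A⁻¹ = B := Matrix.inv_eq_right_inv hAB
  have hu : IsUnit A := IsUnit.of_mul_eq_one B hAB
  have h1 := Matrix.charpoly_inv A hu
  have hdet : A.det ≠ 0 := ((Matrix.isUnit_iff_isUnit_det A).1 hu).ne_zero
  rw [hinv, hB, ← Matrix.reverse_charpoly, hA] at h1
  rw [h1]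
  have h2 : A.det = (-1) ^ Fintype.card (Fin (Module.finrank F V)) * (chp f).coeff 0 := by
    rw [← hA]
    exact Matrix.det_eq_sign_charpoly_coeff A
  have h3 : C ((chp f).coeff 0) * ((-1) ^ Fintype.card (Fin (Module.finrank F V)) *
      C (Ring.inverse A.det) * (chp f).reverse) =
      C (((-1) ^ Fintype.card (Fin (Module.finrank F V)) * (chp f).coeff 0) * Ring.inverse A.det) *
        (chp f).reverse := by
    simp only [C_mul, C_pow, C_neg, C_1]
    ring
  rw [h3, ← h2, Ring.mul_inverse_cancel _ (isUnit_iff_ne_zero.2 hdet), C_1, one_mul]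

theorem cyc_inv (f : GV F V) (h : Cyc (f : V →ₗ[F] V)) : Cyc ((f⁻¹ : GV F V) : V →ₗ[F] V) := by
  obtain ⟨v, hv⟩ := h
  refine ⟨v, fun W hW hW' => hv W hW fun w hw => ?_⟩
  let g : W →ₗ[F] W := ((f⁻¹ : GV F V) : V →ₗ[F] V).restrict hW'
  have hg : Function.Injective g := by
    intro x y hxy
    have h1 : (f⁻¹ : GV F V) (x : V) = (f⁻¹ : GV F V) (y : V) := congrArg Subtype.val hxy
    exact Subtype.ext ((f⁻¹ : GV F V).injective h1)
  obtain ⟨x, hx⟩ := LinearMap.injective_iff_surjective.1 hg ⟨w, hw⟩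
  have h1 : (f⁻¹ : GV F V) (x : V) = w := congrArg Subtype.val hx
  have h2 : f w = x := by
    rw [← h1]
    exact LinearEquiv.apply_symm_apply f (x : V)
  change f w ∈ W
  rw [h2]
  exact x.2

theorem rev_eq (f : GV F V) : C ((chp f⁻¹).coeff 0) * chp f = (chp f⁻¹).reverse := by
  have := chp_inv f⁻¹
  rwa [inv_inv] at this

end

end IV

theorem t_IV : S_IV := by
  intro F V W _ _ _ _ _ _ _ f g
  refine ⟨IV.chp_inv f, IV.cyc_inv f, ?_, ?_, ?_, IV.dt_inv f, ?_⟩
  · intro h
    have h1 := IV.rev_irreducible h (IV.coeff_ne f)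
    rw [← IV.chp_inv f] at h1
    exact (irreducible_isUnit_mul ((isUnit_iff_ne_zero.2 (IV.coeff_ne f)).map C)).1 h1
  · intro h
    refine isCoprime_of_irreducible_dvd ?_ ?_
    · rintro ⟨h1, -⟩
      have := IV.coeff_ne f⁻¹
      rw [h1, coeff_zero] at this
      exact this rfl
    · intro z hz h1 h2
      have hz0 := IV.coeff_ne_of_dvd (IV.coeff_ne f⁻¹) h1
      have h3 := IV.rev_dvd (IV.coeff_ne f⁻¹) (IV.rev_eq f) h1
      have h4 := IV.rev_dvd (IV.coeff_ne g⁻¹) (IV.rev_eq g) h2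
      exact (IV.rev_irreducible hz hz0).not_isUnit (h.isUnit_of_dvd' h3 h4)
  · intro h
    have h1 := IV.chp_inv f
    rw [h, ← IV.chp_inv g] at h1
    exact mul_left_cancel₀ (C_ne_zero.2 (IV.coeff_ne g)) h1
  · intro k hk p hp hpd
    have hp0 := IV.coeff_ne_of_dvd (IV.coeff_ne f⁻¹) hpd
    have h1 := hk p.reverse (IV.rev_irreducible hp hp0)
      (IV.rev_dvd (IV.coeff_ne f⁻¹) (IV.rev_eq f) hpd)
    rwa [IV.natDegree_rev hp0] at h1

end

end RSF
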