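import Pool.Agent.RSF.Stmts4

/-!
# RSF, LT: an element with prescribed characteristic polynomial such that the product is cyclic
-/

namespace RSF

open Polynomial

namespace LT

/-- invertible matrices as invertible endomorphisms -/
noncomputable def E (F : Type) [Field F] (n : ℕ) : GL (Fin n) F ≃* GV F (Fin n → F) :=
  Matrix.GeneralLinearGroup.toLin.trans
    (LinearMap.GeneralLinearGroup.generalLinearEquiv F (Fin n → F))

theorem E_coe {F : Type} [Field F] {n : ℕ} (g : GL (Fin n) F) :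
    ((E F n g : GV F (Fin n → F)) : (Fin n → F) →ₗ[F] (Fin n → F)) = Matrix.toLin' g.1 := rfl

theorem cyc_conj {F V W : Type} [Field F] [AddCommGroup V] [Module F V] [AddCommGroup W]
    [Module F W] (f : V →ₗ[F] V) (g : W →ₗ[F] W) (ψ : V ≃ₗ[F] W)
    (h : ∀ v, ψ (f v) = g (ψ v)) (hf : Cyc f) : Cyc g := by
  obtain ⟨v, hv⟩ := hf
  refine ⟨ψ v, fun S hS hg => ?_⟩
  have h1 := hv (S.comap ψ.toLinearMap) hS (fun w hw => by
    change ψ (f w) ∈ S
    rw [h]
    exact hg _ hw)
  rw [eq_top_iff]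
  intro w _
  have h2 : ψ.symm w ∈ S.comap ψ.toLinearMap := by
    rw [h1]
    trivial
  simpa using h2

/-- inverse of an upper triangular matrix -/
theorem upper_inv {F : Type} [Field F] {n : ℕ} (U : Matrix (Fin n) (Fin n) F)
    (hU : ∀ i j, j < i → U i j = 0) (hdet : U.det ≠ 0) :
    (∀ i j, j < i → U⁻¹ i j = 0) ∧ (∀ i, U i i * U⁻¹ i i = 1) := by
  have hunit : IsUnit U.det := isUnit_iff_ne_zero.mpr hdet
  have hinv : Invertible U := U.invertibleOfIsUnitDet hunit
  have h1 : ∀ i j, j < i → U⁻¹ i j = 0 := by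
    have h2 : Matrix.BlockTriangular U id := fun i j hij => hU i j hij
    have h3 := Matrix.blockTriangular_inv_of_blockTriangular h2
    exact fun i j hij => h3 hij
  refine ⟨h1, fun i => ?_⟩
  have h2 : (U * U⁻¹) i i = 1 := by
    rw [Matrix.mul_nonsing_inv _ hunit]
    simp
  rw [Matrix.mul_apply, Finset.sum_eq_single i] at h2
  · exact h2
  · intro l _ hl
    rcases lt_or_gt_of_ne hl with h | h
    · rw [hU i l h, zero_mul]
    · rw [h1 l i h, mul_zero]
  · intro h
    exact absurd (Finset.mem_univ i) h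

/-- inverse of a lower triangular matrix -/
theorem lower_inv {F : Type} [Field F] {n : ℕ} (L : Matrix (Fin n) (Fin n) F)
    (hL : ∀ i j, i < j → L i j = 0) (hdet : L.det ≠ 0) :
    (∀ i j, i < j → L⁻¹ i j = 0) ∧ (∀ i, L i i * L⁻¹ i i = 1) := by
  have h1 := upper_inv L.transpose (fun i j hij => hL j i hij)
    (by rw [Matrix.det_transpose]; exact hdet)
  rw [← Matrix.transpose_nonsing_inv] at h1
  exact ⟨fun i j hij => h1.1 j i hij, fun i => h1.2 i⟩

theorem lower_det {F : Type} [Field F] {n : ℕ} (L : Matrix (Fin n) (Fin n) F)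
    (hL : ∀ i j, i < j → L i j = 0) (h1 : ∀ i, L i i = 1) : L.det = 1 := by
  rw [Matrix.det_of_isLowerTriangular L (fun i j hij => hL i j hij)]
  simp [h1]

/-- the Hessenberg matrix -/
def M0 {F : Type} [Field F] {k : ℕ} (V : Matrix (Fin (k + 1)) (Fin (k + 1)) F) :
    Matrix (Fin (k + 1)) (Fin (k + 1)) F :=
  Matrix.of fun i j => Fin.cases (motive := fun _ => F) 0 (fun i' => V i'.castSucc j) i

theorem M0_zero {F : Type} [Field F] {k : ℕ} (V : Matrix (Fin (k + 1)) (Fin (k + 1)) F)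
    (j : Fin (k + 1)) : M0 V 0 j = 0 := rfl

theorem M0_succ {F : Type} [Field F] {k : ℕ} (V : Matrix (Fin (k + 1)) (Fin (k + 1)) F)
    (i : Fin k) (j : Fin (k + 1)) : M0 V i.succ j = V i.castSucc j := rfl

/-- the core: matrices -/
theorem core {F : Type} [Field F] {k : ℕ} (hHC : S_HC)
    (U L : Matrix (Fin (k + 1)) (Fin (k + 1)) F) (hU : ∀ i j, j < i → U i j = 0)
    (hL : ∀ i j, i < j → L i j = 0) (hL1 : ∀ i, L i i = 1) (hdet : (U * L).det ≠ 0)
    (r : F[X]) (hr : r.Monic) (hdeg : r.natDegree = k + 1) :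
    ∃ M : Matrix (Fin (k + 1)) (Fin (k + 1)) F, M.charpoly = r ∧ Cyc (Matrix.toLin' M) ∧
      ∀ N : Matrix (Fin (k + 1)) (Fin (k + 1)) F, N * (M * (U * L)) = 1 →
        Cyc (Matrix.toLin' N) := by
  have hLd : L.det = 1 := lower_det L hL hL1
  have hUd : U.det ≠ 0 := by
    rw [Matrix.det_mul, hLd, mul_one] at hdet
    exact hdet
  obtain ⟨hUi, hUd1⟩ := upper_inv U hU hUd
  obtain ⟨hLi, hLd1⟩ := lower_inv L hL (by rw [hLd]; exact one_ne_zero)
  have hUu : U⁻¹ * U = 1 := Matrix.nonsing_inv_mul _ (isUnit_iff_ne_zero.mpr hUd)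
  have hLu : L * L⁻¹ = 1 := Matrix.mul_nonsing_inv _ (by rw [hLd]; exact isUnit_one)
  -- Hessenberg
  have hS1 : ∀ i : Fin k, M0 U⁻¹ i.succ i.castSucc ≠ 0 := by
    intro i
    rw [M0_succ]
    exact right_ne_zero_of_mul (by rw [hUd1]; exact one_ne_zero)
  have hS2 : ∀ i j : Fin (k + 1), j.val + 1 < i.val → M0 U⁻¹ i j = 0 := by
    intro i j hij
    induction i using Fin.cases with
    | zero => rfl
    | succ i =>
      rw [M0_succ]
      apply hUi
      rw [Fin.lt_def]
      simp only [Fin.val_succ, Fin.val_castSucc] at hij ⊢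
      omega
  obtain ⟨x, hx⟩ := (hHC F k (M0 U⁻¹) hS1 hS2).2 r hr hdeg
  have hcol : ∀ (i : Fin (k + 1)) (j : Fin k),
      (M0 U⁻¹).updateCol (Fin.last k) x i j.castSucc = M0 U⁻¹ i j.castSucc := by
    intro i j
    rw [Matrix.updateCol_ne (Fin.castSucc_lt_last j).ne]
  have hT1 : ∀ i : Fin k, (M0 U⁻¹).updateCol (Fin.last k) x i.succ i.castSucc ≠ 0 := by
    intro i
    rw [hcol]
    exact hS1 i
  have hT2 : ∀ i j : Fin (k + 1), j.val + 1 < i.val →
      (M0 U⁻¹).updateCol (Fin.last k) x i j = 0 := by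
    intro i j hij
    have hj : j ≠ Fin.last k := by
      intro h
      rw [h] at hij
      have := i.isLt
      simp only [Fin.val_last] at hij
      omega
    rw [Matrix.updateCol_ne hj]
    exact hS2 i j hij
  refine ⟨(M0 U⁻¹).updateCol (Fin.last k) x, hx, (hHC F k _ hT1 hT2).1, ?_⟩
  set M := (M0 U⁻¹).updateCol (Fin.last k) x with hM
  intro N hN
  -- the columns of M U
  have hMU : ∀ (i : Fin (k + 1)) (j : Fin k), (M * U) i j.castSucc = if i = j.succ then 1 else 0 := by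
    intro i j
    have h1 : (M * U) i j.castSucc = (M0 U⁻¹ * U) i j.castSucc := by
      rw [Matrix.mul_apply, Matrix.mul_apply]
      refine Finset.sum_congr rfl fun l _ => ?_
      by_cases hl : l = Fin.last k
      · rw [hl, hU _ _ (Fin.castSucc_lt_last j), mul_zero, mul_zero]
      · rw [hM, Matrix.updateCol_ne hl]
    rw [h1, Matrix.mul_apply]
    induction i using Fin.cases with
    | zero =>
      rw [if_neg (Fin.succ_ne_zero j).symm]
      exact Finset.sum_eq_zero fun l _ => by rw [M0_zero, zero_mul]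
    | succ i =>
      have h2 : (U⁻¹ * U) i.castSucc j.castSucc = if i.succ = j.succ then 1 else 0 := by
        rw [hUu, Matrix.one_apply]
        by_cases hij : i = j
        · rw [if_pos (by rw [hij]), if_pos (by rw [hij])]
        · rw [if_neg (fun h => hij (Fin.castSucc_injective _ h)),
            if_neg (fun h => hij (Fin.succ_injective _ h))]
      rw [← h2, Matrix.mul_apply]
      rfl
  have hNL : N * (M * U) = L⁻¹ := by
    have h1 : N * (M * U) = N * (M * (U * L)) * L⁻¹ := by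
      rw [Matrix.mul_assoc N, Matrix.mul_assoc M, Matrix.mul_assoc U, hLu, Matrix.mul_one]
    rw [h1, hN, Matrix.one_mul]
  have hNc : ∀ (i : Fin (k + 1)) (j : Fin k), N i j.succ = L⁻¹ i j.castSucc := by
    intro i j
    rw [← hNL, Matrix.mul_apply, Finset.sum_eq_single j.succ]
    · rw [hMU, if_pos rfl, mul_one]
    · intro l _ hl
      rw [hMU, if_neg hl, mul_zero]
    · intro h
      exact absurd (Finset.mem_univ _) h
  -- the reversed matrix
  have hR1 : ∀ i : Fin k, N.submatrix Fin.rev Fin.rev i.succ i.castSucc ≠ 0 := by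
    intro i
    rw [Matrix.submatrix_apply, Fin.rev_succ, Fin.rev_castSucc, hNc]
    exact right_ne_zero_of_mul (by rw [hLd1]; exact one_ne_zero)
  have hR2 : ∀ i j : Fin (k + 1), j.val + 1 < i.val → N.submatrix Fin.rev Fin.rev i j = 0 := by
    intro i j hij
    induction j using Fin.lastCases with
    | last =>
      have := i.isLt
      simp only [Fin.val_last] at hij
      omega
    | cast j =>
      rw [Matrix.submatrix_apply, Fin.rev_castSucc, hNc]
      apply hLi
      rw [Fin.lt_def]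
      simp only [Fin.val_rev, Fin.val_castSucc] at hij ⊢
      have := i.isLt
      have := j.isLt
      omega
  have hc := (hHC F k (N.submatrix Fin.rev Fin.rev) hR1 hR2).1
  refine cyc_conj _ _ (LinearEquiv.funCongrLeft F F Fin.revPerm) (fun v => ?_) hc
  funext i
  rw [LinearEquiv.funCongrLeft_apply, LinearMap.funLeft_apply, Matrix.toLin'_apply,
    Matrix.toLin'_apply, Matrix.mulVec, Matrix.mulVec, dotProduct, dotProduct]
  refine Fintype.sum_equiv Fin.revPerm _ _ fun l => ?_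
  rw [LinearEquiv.funCongrLeft_apply, LinearMap.funLeft_apply, Matrix.submatrix_apply]
  simp

end LT

theorem t_LT : M_LT := by
  intro hUL hHC hIV F _ h G r hh hr hdeg h0
  obtain ⟨k, rfl⟩ : ∃ k, h = k + 1 := ⟨h - 1, by omega⟩
  obtain ⟨g0, rfl⟩ := (LT.E F (k + 1)).surjective G
  obtain ⟨P, U, L, hU, hL, hL1, hPUL⟩ := hUL F (k + 1) g0
  have hdet : (U * L).det ≠ 0 := by
    rw [← hPUL]
    exact (Matrix.GeneralLinearGroup.det (P * g0 * P⁻¹)).ne_zero
  obtain ⟨M, hMr, hMc, hMN⟩ := LT.core hHC U L hU hL hL1 hdet r hr hdeg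
  have hMd : M.det ≠ 0 := by
    rw [Matrix.det_eq_sign_charpoly_coeff, hMr]
    exact mul_ne_zero (pow_ne_zero _ (neg_ne_zero.mpr one_ne_zero)) h0
  obtain ⟨mM, hmM⟩ : ∃ m : GL (Fin (k + 1)) F, m.1 = M :=
    ⟨Matrix.GeneralLinearGroup.mkOfDetNeZero M hMd, rfl⟩
  set g1 : GL (Fin (k + 1)) F := P * g0 * P⁻¹ with hg1
  have hN : Cyc (Matrix.toLin' ((mM * g1)⁻¹ : GL (Fin (k + 1)) F).1) := by
    apply hMN
    have h1 : ((mM * g1)⁻¹ : GL (Fin (k + 1)) F) * (mM * g1) = 1 := inv_mul_cancel _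
    have h2 := congrArg (fun u : GL (Fin (k + 1)) F => u.1) h1
    simp only [Units.val_mul, Units.val_one] at h2
    rw [hmM, hPUL] at h2
    rw [← h2]
  rw [← LT.E_coe] at hN
  have hN2 := (hIV F _ (Fin (k + 1) → F) (LT.E F (k + 1) (mM * g1)⁻¹) 1).2.1 hN
  have e1 : (LT.E F (k + 1) (mM * g1)⁻¹)⁻¹ = LT.E F (k + 1) (mM * g1) := by
    rw [map_inv, inv_inv]
  rw [e1] at hN2
  refine ⟨LT.E F (k + 1) (P⁻¹ * mM * P), ?_, ?_, ?_⟩
  · rw [chp, LT.E_coe, Matrix.charpoly_toLin', ← hMr, ← hmM]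
    rw [Units.val_mul, Units.val_mul]
    rw [Matrix.coe_units_inv]
    exact Matrix.charpoly_units_conj' P mM.1
  · refine LT.cyc_conj (Matrix.toLin' M) _ (LT.E F (k + 1) P⁻¹) (fun v => ?_) hMc
    rw [← hmM, ← LT.E_coe]
    change (LT.E F (k + 1) P⁻¹ * LT.E F (k + 1) mM) v =
      (LT.E F (k + 1) (P⁻¹ * mM * P) * LT.E F (k + 1) P⁻¹) v
    rw [← map_mul, ← map_mul]
    congr 2
    group
  · refine LT.cyc_conj _ _ (LT.E F (k + 1) (mM * P)⁻¹) (fun v => ?_) hN2
    change (LT.E F (k + 1) (mM * P)⁻¹ * LT.E F (k + 1) (mM * g1)) v =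
      (LT.E F (k + 1) g0 * LT.E F (k + 1) (P⁻¹ * mM * P) * LT.E F (k + 1) (mM * P)⁻¹) v
    rw [← map_mul, ← map_mul, ← map_mul]
    congr 2
    rw [hg1]
    group

end RSF
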