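import Pool.Agent.RSF.Stmts4

/-!
# Module MA: the recursion
-/

set_option autoImplicit false

namespace RSF

open Polynomial

noncomputable section

namespace MA

theorem fin_lin {F V W : Type} [Field F] [Finite F] [AddCommGroup V] [Module F V]
    [FiniteDimensional F V] [AddCommGroup W] [Module F W] [FiniteDimensional F W] :
    Finite (V →ₗ[F] W) := by
  have h1 : Finite V := Module.finite_of_finite F
  have h2 : Finite W := Module.finite_of_finite F
  exact Finite.of_injective (fun f => (f : V → W)) DFunLike.coe_injective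

theorem fin_GV {F V : Type} [Field F] [Finite F] [AddCommGroup V] [Module F V]
    [FiniteDimensional F V] : Finite (GV F V) := by
  have h1 : Finite V := Module.finite_of_finite F
  exact Finite.of_injective (fun f => (f : V → V)) DFunLike.coe_injective

theorem Fc_mono {F V : Type} [Field F] [Finite F] [AddCommGroup V] [Module F V]
    [FiniteDimensional F V] (e : Bool) {D D' Z Z' : ℕ} (A : GV F V) (hD : D ≤ D') (hZ : Z' ≤ Z) :
    Fc e D Z A ≤ Fc e D' Z' A := by
  have h1 : Finite (GV F V) := fin_GV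
  refine Nat.card_le_card_of_injective (fun z => ⟨z.1, z.2.1, z.2.2.1, z.2.2.2.1,
    fun p hp hp' => lt_of_lt_of_le (z.2.2.2.2.1 p hp hp') hD, z.2.2.2.2.2.1,
    hZ.trans z.2.2.2.2.2.2⟩) ?_
  intro z z' h
  have h' := congrArg Subtype.val h
  exact Subtype.ext h'

/-- arithmetic of the step -/
theorem arith {q n : ℕ} (hq : 2 ≤ q) (hn : 1024 ≤ n) :
    q ^ (n - 1024 - st n) ≤
      (q ^ (n / 32) - 1) * q ^ (n - n / 32 - 1024 - st (n - n / 32)) := by
  have hst : st n = st (n - n / 32) + 1 := by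
    rw [st, if_neg (by omega)]
  have h1 : q ^ (n / 32 - 1) ≤ q ^ (n / 32) - 1 := by
    have e : n / 32 = (n / 32 - 1) + 1 := by omega
    have h2 : q ^ (n / 32) = q ^ (n / 32 - 1) * q := by
      conv_lhs => rw [e]
      rw [pow_succ]
    have h3 : 1 ≤ q ^ (n / 32 - 1) := Nat.one_le_pow _ _ (by omega)
    have h4 : q ^ (n / 32 - 1) * 2 ≤ q ^ (n / 32 - 1) * q := Nat.mul_le_mul_left _ hq
    omega
  rw [hst]
  calc q ^ (n - 1024 - (st (n - n / 32) + 1))
      ≤ q ^ (n / 32 - 1 + (n - n / 32 - 1024 - st (n - n / 32))) :=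
        Nat.pow_le_pow_right (by omega) (by omega)
    _ = q ^ (n / 32 - 1) * q ^ (n - n / 32 - 1024 - st (n - n / 32)) := pow_add _ _ _
    _ ≤ _ := Nat.mul_le_mul_right _ h1

theorem log_bound {q n : ℕ} (hq : 2 ≤ q) : 16 * (n / 32) ≤ q ^ Nat.log 2 n := by
  have h1 : n < 2 ^ (Nat.log 2 n + 1) := Nat.lt_pow_succ_log_self (by norm_num) n
  have h2 : 2 ^ Nat.log 2 n ≤ q ^ Nat.log 2 n := Nat.pow_le_pow_left hq _
  rw [pow_succ] at h1
  omega

theorem expo {n h a b s L E' c : ℕ} (hh : h ≤ n) (hE : E' = (n - h) + a + c) (h1 : a ≤ b)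
    (h2 : s = b + (3 + L)) : L + (h + 1) + E' ≤ n + s + c := by
  omega

/-- the final computation -/
theorem final {G g G' Q P Y M Fc h q a b c : ℕ} (hg : 0 < g) (h1 : G ≤ 4 * g * G' * Q)
    (h2 : g ^ 2 ≤ 2 * h * q ^ a * P) (h3 : P * Q ≤ 2 * Y) (h4 : G' ≤ q ^ b * M)
    (h5 : Y * M ≤ g * Fc) (h6 : 16 * h ≤ q ^ c) : G ≤ q ^ (c + a + b) * Fc := by
  have h7 : G * g ≤ q ^ (c + a + b) * Fc * g := by
    calc G * g ≤ (4 * g * G' * Q) * g := Nat.mul_le_mul_right _ h1
      _ = 4 * g ^ 2 * G' * Q := by ring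
      _ ≤ 4 * (2 * h * q ^ a * P) * (q ^ b * M) * Q := by gcongr
      _ = 8 * h * q ^ a * q ^ b * M * (P * Q) := by ring
      _ ≤ 8 * h * q ^ a * q ^ b * M * (2 * Y) := by gcongr
      _ = 16 * h * q ^ a * q ^ b * (Y * M) := by ring
      _ ≤ q ^ c * q ^ a * q ^ b * (g * Fc) := by gcongr
      _ = q ^ (c + a + b) * Fc * g := by rw [pow_add, pow_add]; ring
  exact Nat.le_of_mul_le_mul_right h7 hg

theorem ker_rank {F V : Type} [Field F] [AddCommGroup V] [Module F V] [FiniteDimensional F V]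
    {h : ℕ} (u : (Fin h → F) →ₗ[F] V) (φ : V →ₗ[F] (Fin h → F)) (hu : ∀ x, φ (u x) = x) :
    Module.finrank F (LinearMap.ker φ) + h = Module.finrank F V := by
  have h1 := LinearMap.finrank_range_add_finrank_ker φ
  have h2 : LinearMap.range φ = ⊤ := LinearMap.range_eq_top.2 fun x => ⟨u x, hu x⟩
  rw [h2, finrank_top, Module.finrank_fin_fun] at h1
  omega

theorem main {F : Type} [Field F] [Finite F] (hRE : S_RE) (hND : S_ND) (hNI : S_NI) (hGH : S_GH)
    (hEN : S_EN) (e : Bool) (ρ : ℕ) (hρ : 768 ≤ ρ) (n : ℕ) : 992 ≤ n → n ≤ 4 * ρ →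
    ∀ (V : Type) [AddCommGroup V] [Module F V] [FiniteDimensional F V] (A : GV F V) (D : ℕ),
      Module.finrank F V = n → n / 32 < D → dt A = 1 → EL A (kap n ρ) →
      Nat.card (GV F V) ≤ Nat.card F ^ (n + st n * (3 + Nat.log 2 n) + 2 ^ 20) *
        Fc e D (Nat.card F ^ (n - 1024 - st n)) A := by
  induction n using Nat.strong_induction_on with
  | _ n ih =>
  intro hn hnρ V _ _ _ A D hV hD hA hE
  have hq : 2 ≤ Nat.card F := Finite.one_lt_card
  by_cases hsmall : n < 1024
  · -- the end of the recursion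
    have hk : kap n ρ = n / 4 := by
      unfold kap
      exact max_eq_right (by omega)
    rw [hk, ← hV] at hE
    have h1 := hEN F V e A hA (by omega) hE
    have hst : st n = 0 := by
      rw [st, if_pos hsmall]
    have h2 : 1 ≤ Fc e D (Nat.card F ^ (n - 1024 - st n)) A := by
      refine h1.trans (Fc_mono e A (by omega) ?_)
      rw [show n - 1024 - st n = 0 by omega, pow_zero]
    have h3 := (hGH F V 0 (Nat.zero_le _)).2.1
    calc Nat.card (GV F V) ≤ Nat.card F ^ (Module.finrank F V ^ 2) := h3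
      _ ≤ Nat.card F ^ (n + st n * (3 + Nat.log 2 n) + 2 ^ 20) := by
        refine Nat.pow_le_pow_right (by omega) ?_
        rw [hV]
        have : n ^ 2 ≤ 1024 ^ 2 := Nat.pow_le_pow_left (by omega) 2
        have e2 : (1024 : ℕ) ^ 2 = 2 ^ 20 := by norm_num
        omega
      _ = Nat.card F ^ (n + st n * (3 + Nat.log 2 n) + 2 ^ 20) * 1 := (mul_one _).symm
      _ ≤ _ := Nat.mul_le_mul_left _ h2
  · -- the step
    have hbig : 1024 ≤ n := by omega
    obtain ⟨h, hh⟩ : ∃ h, h = n / 32 := ⟨_, rfl⟩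
    have hst : st n = st (n - h) + 1 := by
      rw [st, if_neg (by omega), hh]
    obtain ⟨E', hE'⟩ : ∃ E', E' = (n - h) + st (n - h) * (3 + Nat.log 2 (n - h)) + 2 ^ 20 :=
      ⟨_, rfl⟩
    obtain ⟨Z, hZ⟩ : ∃ Z, Z = Nat.card F ^ (n - h - 1024 - st (n - h)) := ⟨_, rfl⟩
    obtain ⟨G', hG'⟩ : ∃ G', G' = Nat.card (GV F (Fin (n - h) → F)) := ⟨_, rfl⟩
    have hqE : 0 < Nat.card F ^ E' := pow_pos (by omega) _
    obtain ⟨M, hM⟩ : ∃ M, M = (G' + Nat.card F ^ E' - 1) / Nat.card F ^ E' := ⟨_, rfl⟩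
    -- the set of the good `(u, φ)`
    let Gd : Set (((Fin h → F) →ₗ[F] V) × (V →ₗ[F] (Fin h → F))) :=
      {z | (∀ x, z.2 (z.1 x) = x) ∧
        ∀ S : GV F (LinearMap.ker z.2), Sch A z.1 z.2 S → EL S (kap (n - h) ρ)}
    have hGd : ∀ z ∈ Gd, (∀ x, z.2 (z.1 x) = x) ∧
        ∀ S : GV F (LinearMap.ker z.2), Sch A z.1 z.2 S → dt S = 1 → M ≤ Fc e h Z S := by
      intro z hz
      refine ⟨hz.1, fun S hS hdS => ?_⟩
      have hr := ker_rank z.1 z.2 hz.1
      rw [hV] at hr
      have hr2 : Module.finrank F (LinearMap.ker z.2) = n - h := by omega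
      have h1 := ih (n - h) (by omega) (by omega) (by omega) (LinearMap.ker z.2) S h hr2
        (by omega) hdS (hz.2 S hS)
      rw [← hE', ← hZ] at h1
      have h2 : Nat.card (GV F (LinearMap.ker z.2)) = G' := by
        have e1 := (hGH F (LinearMap.ker z.2) 0 (Nat.zero_le _)).2.2
        have e2 := (hGH F (Fin (n - h) → F) 0 (Nat.zero_le _)).2.2
        rw [hr2] at e1
        rw [Module.finrank_fin_fun] at e2
        rw [hG', e1, e2]
      rw [h2] at h1
      rw [hM]
      have h3 : G' + Nat.card F ^ E' - 1 < Nat.card F ^ E' * (Fc e h Z S + 1) := by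
        rw [Nat.mul_add, Nat.mul_one]
        omega
      have h4 := Nat.div_lt_of_lt_mul h3
      omega
    have hMG : G' ≤ Nat.card F ^ E' * M := by
      rw [hM]
      have h1 := Nat.lt_mul_div_succ (G' + Nat.card F ^ E' - 1) hqE
      have h2 := Nat.div_add_mod (G' + Nat.card F ^ E' - 1) (Nat.card F ^ E')
      have h3 := Nat.mod_lt (G' + Nat.card F ^ E' - 1) hqE
      omega
    have hRE' := hRE F V e h D Z M A Gd (by omega) (by omega) hA hGd
    have hNI' := hNI F h e (by omega)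
    -- the number of the tuples
    have hfin1 : Finite (GV F (Fin h → F)) := fin_GV
    have hfin2 : Finite ((Fin h → F) →ₗ[F] V) := fin_lin
    have hfin3 : Finite (V →ₗ[F] (Fin h → F)) := fin_lin
    have hcount : Nat.card {y : GV F (Fin h → F) × GV F (Fin h → F) // dt y.1 = 1 ∧
        Irreducible (chp y.1) ∧ IsConj (pw e y.1) y.2} * Nat.card F ^ (2 * h * (n - h)) ≤
        2 * Nat.card {y : (((Fin h → F) →ₗ[F] V) × (V →ₗ[F] (Fin h → F))) ×
        GV F (Fin h → F) × GV F (Fin h → F) // y.1 ∈ Gd ∧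
          (∀ x, y.1.2 (A (y.1.1 x)) = y.2.1 (y.2.2 x)) ∧ dt y.2.1 = 1 ∧
          Irreducible (chp y.2.1) ∧ IsConj (pw e y.2.1) y.2.2} := by
      let P : Type := {y : GV F (Fin h → F) × GV F (Fin h → F) // dt y.1 = 1 ∧
        Irreducible (chp y.1) ∧ IsConj (pw e y.1) y.2}
      let N : P → Type := fun p => {z : ((Fin h → F) →ₗ[F] V) × (V →ₗ[F] (Fin h → F)) //
        (∀ x, z.2 (z.1 x) = x) ∧ (∀ x, z.2 (A (z.1 x)) = p.1.1 (p.1.2 x)) ∧
        ∀ S : GV F (LinearMap.ker z.2), Sch A z.1 z.2 S → EL S (kap (n - h) ρ)}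
      have hN : ∀ p : P, Nat.card F ^ (2 * h * (n - h)) ≤ 2 * Nat.card (N p) := by
        intro p
        have h1 := hND F V A h (kap n ρ) (kap (n - h) ρ)
          ((p.1.1 : (Fin h → F) →ₗ[F] (Fin h → F)) ∘ₗ (p.1.2 : (Fin h → F) →ₗ[F] (Fin h → F)))
          (by omega) hE (by rw [hV]; unfold kap; omega) (by unfold kap; omega)
          (by unfold kap; omega)
        rw [hV] at h1
        exact h1
      have hfP : Finite P := Subtype.finite
      have hfN : ∀ p, Finite (N p) := fun p => Subtype.finite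
      let _ : Fintype P := Fintype.ofFinite P
      have h2 : Nat.card P * Nat.card F ^ (2 * h * (n - h)) ≤ 2 * Nat.card (Σ p : P, N p) := by
        rw [Nat.card_sigma, Finset.mul_sum, Nat.card_eq_fintype_card, ← Finset.card_univ,
          ← smul_eq_mul, ← Finset.sum_const]
        exact Finset.sum_le_sum fun p _ => hN p
      refine h2.trans (Nat.mul_le_mul_left 2 ?_)
      refine Nat.card_le_card_of_injective (fun s => ⟨(s.2.1, s.1.1),
        ⟨s.2.2.1, s.2.2.2.2⟩, s.2.2.2.1, s.1.2.1, s.1.2.2.1, s.1.2.2.2⟩) ?_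
      rintro ⟨p, z⟩ ⟨p', z'⟩ hpz
      have h3 := congrArg Subtype.val hpz
      have h4 : (z.1, p.1) = (z'.1, p'.1) := h3
      have h5 : p = p' := Subtype.ext (congrArg Prod.snd h4)
      subst h5
      have h6 : z = z' := Subtype.ext (congrArg Prod.fst h4)
      rw [h6]
    -- the order of the general linear group
    have hG := (hGH F V h (by omega)).1 (Fin (n - h) → F) (by
      rw [Module.finrank_fin_fun]
      omega)
    rw [hV, ← hG'] at hG
    have hg0 : 0 < Nat.card (GV F (Fin h → F)) := Nat.card_pos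
    have hfinal := final hg0 hG hNI' hcount hMG hRE' (by rw [hh]; exact log_bound hq)
    refine hfinal.trans (Nat.mul_le_mul ?_ (Fc_mono e A le_rfl ?_))
    · refine Nat.pow_le_pow_right (by omega) ?_
      have hlog : Nat.log 2 (n - h) ≤ Nat.log 2 n := Nat.log_mono_right (Nat.sub_le _ _)
      have h1 : st (n - h) * (3 + Nat.log 2 (n - h)) ≤ st (n - h) * (3 + Nat.log 2 n) :=
        Nat.mul_le_mul_left _ (by omega)
      have h2 : st n * (3 + Nat.log 2 n) =
          st (n - h) * (3 + Nat.log 2 n) + (3 + Nat.log 2 n) := by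
        rw [hst, Nat.add_mul, Nat.one_mul]
      exact expo (by omega) hE' h1 h2
    · have := arith hq hbig
      rw [hZ, hh]
      exact this

end MA

theorem t_MA : M_MA := by
  intro hRE hND hNI hGH hEN F V _ _ _ _ _ e A n ρ D hV hn hρ hnρ hD hA hE
  exact MA.main hRE hND hNI hGH hEN e ρ hρ n hn hnρ V A D hV hD hA hE

end

end RSF
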