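import Pool.Agent.RSF.Stmts4

/-!
# Final assembly of (G): arbitrary periods, `σ > 1`, all `q`
-/

namespace RSF

namespace MG

theorem finite_ogen (g d : ℕ) : Finite (OGen g d) := by
  refine Finite.of_surjective
    (fun s : Fin g ⊕ Fin g ⊕ Fin d => (match s with
      | Sum.inl i => OGen.a i
      | Sum.inr (Sum.inl i) => OGen.b i
      | Sum.inr (Sum.inr j) => OGen.x j : OGen g d)) ?_
  rintro (i | i | j)
  · exact ⟨Sum.inl i, rfl⟩
  · exact ⟨Sum.inr (Sum.inl i), rfl⟩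
  · exact ⟨Sum.inr (Sum.inr j), rfl⟩

theorem finite_ngen (g d : ℕ) : Finite (NGen g d) := by
  refine Finite.of_surjective
    (fun s : Fin g ⊕ Fin d => (match s with
      | Sum.inl i => NGen.a i
      | Sum.inr j => NGen.x j : NGen g d)) ?_
  rintro (i | j)
  · exact ⟨Sum.inl i, rfl⟩
  · exact ⟨Sum.inr j, rfl⟩

theorem finite_ohom (g : ℕ) (m : List ℕ) (G : Type) [Group G] [Finite G] :
    Finite (OGroup g m →* G) := by
  have := finite_ogen g m.length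
  refine Finite.of_injective
    (fun ρ : OGroup g m →* G => fun s : OGen g m.length => ρ (PresentedGroup.of s)) ?_
  intro ρ τ h
  exact PresentedGroup.ext fun s => congrFun h s

theorem finite_nhom (g : ℕ) (m : List ℕ) (G : Type) [Group G] [Finite G] :
    Finite (NGroup g m →* G) := by
  have := finite_ngen g m.length
  refine Finite.of_injective
    (fun ρ : NGroup g m →* G => fun s : NGen g m.length => ρ (PresentedGroup.of s)) ?_
  intro ρ τ h
  exact PresentedGroup.ext fun s => congrFun h s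

/-- the estimate for a group `Γ`: `R` bounds the bad homomorphisms -/
theorem main {Γ G : Type} [Group Γ] [Group G] (hfin : Finite (Γ →* G)) (P : (Γ →* G) → Prop)
    (R : ℕ) (x ε : ℝ) (hbad : Nat.card {ρ : Γ →* G // ¬ P ρ} ≤ R)
    (hR : (R : ℝ) ≤ x * Nat.card (Γ →* G)) (hx : x ≤ ε) :
    1 - ε ≤ prob Γ G P := by
  classical
  have hne : Nonempty (Γ →* G) := ⟨1⟩
  have hpos : (0 : ℝ) < Nat.card (Γ →* G) := by exact_mod_cast Nat.card_pos
  have h1 : Nat.card {ρ : Γ →* G // P ρ} + Nat.card {ρ : Γ →* G // ¬ P ρ} = Nat.card (Γ →* G) := by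
    rw [← Nat.card_sum]
    exact Nat.card_congr (Equiv.sumCompl P)
  have h2 : (Nat.card {ρ : Γ →* G // P ρ} : ℝ) + Nat.card {ρ : Γ →* G // ¬ P ρ} =
      Nat.card (Γ →* G) := by exact_mod_cast h1
  have h3 : (Nat.card {ρ : Γ →* G // ¬ P ρ} : ℝ) ≤ R := by exact_mod_cast hbad
  have h6 : x * (Nat.card (Γ →* G) : ℝ) ≤ ε * (Nat.card (Γ →* G) : ℝ) :=
    mul_le_mul_of_nonneg_right hx hpos.le
  unfold prob
  rw [le_div_iff₀ hpos]
  linarith

/-- the estimate of the factor -/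
theorem factor (C σ q : ℝ) (n g : ℕ) (hC : 0 < C) (hq : 1 ≤ q)
    (hg : (g : ℝ) ≤ (σ - 1) / 4 * n) :
    C * ((n : ℝ) + 1) ^ C * q ^ (C - (σ - 1) / 2 * (n : ℝ)) * (2 * q ^ g) ≤
      2 * C * ((n : ℝ) + 1) ^ (2 * C) * q ^ (2 * C - (σ - 1) / 4 * (n : ℝ)) := by
  have hq0 : 0 < q := by linarith
  have hn : (1 : ℝ) ≤ (n : ℝ) + 1 := by
    have : (0 : ℝ) ≤ n := Nat.cast_nonneg n
    linarith
  have h1 : ((n : ℝ) + 1) ^ C ≤ ((n : ℝ) + 1) ^ (2 * C) :=
    Real.rpow_le_rpow_of_exponent_le hn (by linarith)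
  have h2 : q ^ (C - (σ - 1) / 2 * (n : ℝ)) * q ^ g ≤ q ^ (2 * C - (σ - 1) / 4 * (n : ℝ)) := by
    rw [← Real.rpow_natCast q g, ← Real.rpow_add hq0]
    exact Real.rpow_le_rpow_of_exponent_le hq (by linarith)
  have h3 : 0 ≤ ((n : ℝ) + 1) ^ C := Real.rpow_nonneg (by linarith) _
  have h4 : 0 ≤ q ^ (C - (σ - 1) / 2 * (n : ℝ)) * q ^ g :=
    mul_nonneg (Real.rpow_nonneg hq0.le _) (pow_nonneg hq0.le _)
  calc C * ((n : ℝ) + 1) ^ C * q ^ (C - (σ - 1) / 2 * (n : ℝ)) * (2 * q ^ g)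
      = 2 * C * (((n : ℝ) + 1) ^ C * (q ^ (C - (σ - 1) / 2 * (n : ℝ)) * q ^ g)) := by ring
    _ ≤ 2 * C * (((n : ℝ) + 1) ^ (2 * C) * q ^ (2 * C - (σ - 1) / 4 * (n : ℝ))) := by
        refine mul_le_mul_of_nonneg_left ?_ (by linarith)
        exact mul_le_mul h1 h2 h4 (h3.trans h1)
    _ = 2 * C * ((n : ℝ) + 1) ^ (2 * C) * q ^ (2 * C - (σ - 1) / 4 * (n : ℝ)) := by ring

end MG

theorem t_MG : M_MG := by
  intro hH hBH hR2 hLG hST hAS m h2 hs
  have hm : m ≠ [] := by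
    rintro rfl
    norm_num [sig] at hs
  obtain ⟨C, r₁, hC0, -, hbad⟩ := hR2 m h2 hs
  obtain ⟨r₃, hr3⟩ := hLG m hm h2
  have hs2 : 0 < (sig m - 1) / 4 := by linarith
  obtain ⟨r₄, hr4⟩ := hST ((sig m - 1) / 4) hs2
  obtain ⟨r₂, -, hr2⟩ := hAS ((sig m - 1) / 4) (2 * C) hs2 (by linarith)
  refine ⟨max (max r₁ r₂) (max r₃ r₄), fun ε hε => ?_⟩
  obtain ⟨N, hN⟩ := hr2 ε hε
  refine ⟨N, fun n hn F _ _ hcard => ?_⟩
  have hn12 := le_trans (le_max_left _ _) hn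
  have hn34 := le_trans (le_max_right _ _) hn
  have hfinal := hN n (le_trans (le_max_right _ _) hn12) F hcard
  have hb := hbad n (le_trans (le_max_left _ _) hn12) F
  have hlg := hr3 n (le_trans (le_max_left _ _) hn34) F
  have hst := hr4 n (le_trans (le_max_right _ _) hn34)
  have hbh := hBH F n m
  have hHH := hH (PS n F) m (fun _ _ _ => True)
  have f1 := MG.finite_ohom 1 m (PS n F)
  have f2 := MG.finite_nhom 2 m (PS n F)
  have hcO : Nat.card {ρ : OGroup 1 m →* PS n F // True} = Nat.card (OGroup 1 m →* PS n F) :=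
    Nat.card_congr (Equiv.subtypeUnivEquiv fun _ => trivial)
  have hcN : Nat.card {ρ : NGroup 2 m →* PS n F // True} = Nat.card (NGroup 2 m →* PS n F) :=
    Nat.card_congr (Equiv.subtypeUnivEquiv fun _ => trivial)
  have hO : Nat.card (PS n F) * JJ (PS n F) m ≤
      2 * Nat.card F ^ gx n * Nat.card (OGroup 1 m →* PS n F) := by
    rw [← hcO]
    refine hlg.1.trans (Nat.mul_le_mul_left _ ?_)
    exact le_of_eq hHH.1.symm
  have hNn : Nat.card (PS n F) * JJ (PS n F) m ≤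
      2 * Nat.card F ^ gx n * Nat.card (NGroup 2 m →* PS n F) := by
    rw [← hcN]
    refine hlg.2.trans (Nat.mul_le_mul_left _ ?_)
    exact le_of_eq hHH.2.symm
  have hq : (1 : ℝ) ≤ (Nat.card F : ℝ) := by
    have : 0 < Nat.card F := Nat.card_pos
    exact_mod_cast this
  have hfac := MG.factor C (sig m) (Nat.card F : ℝ) n (gx n) hC0 hq hst
  have hgen : ∀ T : ℕ, Nat.card (PS n F) * JJ (PS n F) m ≤ 2 * Nat.card F ^ gx n * T →
      (RB F n m : ℝ) ≤ 2 * C * ((n : ℝ) + 1) ^ (2 * C) *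
        (Nat.card F : ℝ) ^ (2 * C - (sig m - 1) / 4 * (n : ℝ)) * (T : ℝ) := by
    intro T hT
    have hT' : (Nat.card (PS n F) : ℝ) * (JJ (PS n F) m : ℝ) ≤
        2 * (Nat.card F : ℝ) ^ gx n * (T : ℝ) := by exact_mod_cast hT
    have hA : 0 ≤ C * ((n : ℝ) + 1) ^ C *
        (Nat.card F : ℝ) ^ (C - (sig m - 1) / 2 * (n : ℝ)) := by positivity
    have hT0 : (0 : ℝ) ≤ T := Nat.cast_nonneg T
    calc (RB F n m : ℝ) ≤ C * ((n : ℝ) + 1) ^ C *
          (Nat.card F : ℝ) ^ (C - (sig m - 1) / 2 * (n : ℝ)) *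
            ((Nat.card (PS n F) : ℝ) * (JJ (PS n F) m : ℝ)) := hb
      _ ≤ C * ((n : ℝ) + 1) ^ C *
          (Nat.card F : ℝ) ^ (C - (sig m - 1) / 2 * (n : ℝ)) *
            (2 * (Nat.card F : ℝ) ^ gx n * (T : ℝ)) := mul_le_mul_of_nonneg_left hT' hA
      _ = C * ((n : ℝ) + 1) ^ C *
          (Nat.card F : ℝ) ^ (C - (sig m - 1) / 2 * (n : ℝ)) *
            (2 * (Nat.card F : ℝ) ^ gx n) * (T : ℝ) := by ring
      _ ≤ _ := mul_le_mul_of_nonneg_right hfac hT0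
  exact ⟨MG.main f1 _ (RB F n m) _ ε hbh.1 (hgen _ hO) hfinal,
    MG.main f2 _ (RB F n m) _ ε hbh.2 (hgen _ hNn) hfinal⟩

end RSF
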