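import Pool.Agent.RSF.Stmts4
import Pool.Agent.RSF.A

/-!
# Final assembly of (H): arbitrary periods with `σ > 2`, all `q`
-/

namespace RSF

namespace MH

/-- the estimate -/
theorem bound (q C s e c : ℝ) (n : ℕ) (hq : 0 < q) (hC : 0 < C) (hc : c = s - 2 - e)
    (b t : ℝ) (ht : 0 ≤ t)
    (hb : b ≤ C * ((n : ℝ) + 1) ^ C * q ^ (C - (s - 1) * (n : ℝ)) * t) :
    q ^ ((1 + e) * (n : ℝ)) * (b / t) ≤ C * ((n : ℝ) + 1) ^ C * q ^ (C - c * (n : ℝ)) := by
  have hX : 0 ≤ C * ((n : ℝ) + 1) ^ C * q ^ (C - (s - 1) * (n : ℝ)) := by positivity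
  have h1 : b / t ≤ C * ((n : ℝ) + 1) ^ C * q ^ (C - (s - 1) * (n : ℝ)) :=
    div_le_of_le_mul₀ ht hX hb
  have h0 : 0 ≤ q ^ ((1 + e) * (n : ℝ)) := by positivity
  refine (mul_le_mul_of_nonneg_left h1 h0).trans (le_of_eq ?_)
  have h2 : q ^ (C - c * (n : ℝ)) = q ^ ((1 + e) * (n : ℝ)) * q ^ (C - (s - 1) * (n : ℝ)) := by
    rw [← Real.rpow_add hq]
    congr 1
    rw [hc]
    ring
  rw [h2]
  ring

end MH

theorem t_MH : M_MH := by
  intro hT hRG hAS m hm hs2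
  have hne : m ≠ [] := by
    rintro rfl
    have h0 : sig [] = 0 := by simp [sig]
    rw [h0] at hs2
    linarith
  have hs : 0 < (sig m - 2) / 2 := by linarith
  obtain ⟨C, hC0, hbad⟩ := hRG m hm hs2
  obtain ⟨r1, hr1⟩ := hT m hne hm ((sig m - 2) / 2) hs
  obtain ⟨r2, hr2, hr3⟩ := hAS ((sig m - 2) / 2) C hs hC0
  refine ⟨max r1 r2, fun ε hε => ?_⟩
  obtain ⟨N, hN⟩ := hr3 ε hε
  refine ⟨N, fun n hn F _ _ hcard => ?_⟩
  have hn1 : r1 ≤ n := (le_max_left _ _).trans hn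
  have hn2 : r2 ≤ n := (le_max_right _ _).trans hn
  have hfinal := hN n hn2 F hcard
  have hq : (0 : ℝ) < (Nat.card F : ℝ) := by
    have : 0 < Nat.card F := Nat.card_pos
    exact_mod_cast this
  have hb := MH.bound (Nat.card F : ℝ) C (sig m) ((sig m - 2) / 2) ((sig m - 2) / 2) n hq hC0
    (by ring) _ _ (Nat.cast_nonneg _) (hbad n (hr2.trans hn2) F)
  have hb2 := hb.trans hfinal
  have hmain := hr1 n hn1 F (fun t => ¬ Irr (Subgroup.closure (Set.range t)))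
  have f1 := A.finite_ohom 1 m (PS n F)
  have f2 := A.finite_nhom 2 m (PS n F)
  constructor
  · rw [A.prob_compl f1]
    have := hmain.1.trans hb2
    unfold oell
    linarith
  · rw [A.prob_compl f2]
    have := hmain.2.trans hb2
    unfold nell
    linarith

end RSF
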