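import Pool.Agent.RSF.Stmts

/-!
# The transfer theorem (module C)
-/

namespace RSF

namespace C

noncomputable section

lemma card_tors (G : Type) [Group G] [Finite G] (m : List ℕ) :
    Nat.card {t : Fin m.length → G // ∀ j, t j ^ m.get j = 1} = JJ G m := by
  have e : {t : Fin m.length → G // ∀ j, t j ^ m.get j = 1} ≃
      ((j : Fin m.length) → {x : G // x ^ m.get j = 1}) :=
    { toFun := fun t j => ⟨t.1 j, t.2 j⟩
      invFun := fun f => ⟨fun j => (f j).1, fun j => (f j).2⟩
      left_inv := fun t => rfl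
      right_inv := fun f => rfl }
  rw [Nat.card_congr e, Nat.card_pi]
  unfold JJ
  have h1 : (m.map (jn G)).prod = ∏ j : Fin m.length, jn G (m.get j) := by
    conv_lhs => rw [← List.ofFn_get m]
    rw [List.map_ofFn, List.prod_ofFn]
    rfl
  rw [h1]
  rfl

lemma card_fiber (G : Type) [Group G] [Finite G] {I : Type} [Finite I] (Q : I → Prop)
    (R : I → G × G → Prop) (c : ℕ)
    (h : ∀ t, Nat.card {p : G × G // R t p} ≤ c) :
    Nat.card {p : I × G × G // Q p.1 ∧ R p.1 p.2} ≤ Nat.card {t : I // Q t} * c := by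
  have e : {p : I × G × G // Q p.1 ∧ R p.1 p.2} ≃
      ((t : {t : I // Q t}) × {p : G × G // R t.1 p}) :=
    { toFun := fun p => ⟨⟨p.1.1, p.2.1⟩, ⟨p.1.2, p.2.2⟩⟩
      invFun := fun s => ⟨(s.1.1, s.2.1), s.1.2, s.2.2⟩
      left_inv := fun p => rfl
      right_inv := fun s => rfl }
  rw [Nat.card_congr e]
  haveI := Fintype.ofFinite {t : I // Q t}
  rw [Nat.card_sigma, Nat.card_eq_fintype_card]
  calc ∑ a : {t : I // Q t}, Nat.card {p : G × G // R a.1 p}
      ≤ ∑ _a : {t : I // Q t}, c := Finset.sum_le_sum fun a _ => h a.1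
    _ = Fintype.card {t : I // Q t} * c := by simp

lemma final {N NE T TE k g c J : ℕ} (hJ : T = J) (hJpos : 0 < J) (hg : 0 < g)
    (hc : c = k * g) (hN : g * J ≤ N) (hNE : NE ≤ TE * c) :
    (NE : ℝ) / N ≤ k * ((TE : ℝ) / T) := by
  subst hJ
  subst hc
  have h1 : (0 : ℝ) < g := by exact_mod_cast hg
  have h2 : (0 : ℝ) < T := by exact_mod_cast hJpos
  have h3 : (g : ℝ) * T ≤ N := by exact_mod_cast hN
  have h4 : (NE : ℝ) ≤ TE * (k * g) := by exact_mod_cast hNE
  have h5 : (0 : ℝ) < N := lt_of_lt_of_le (mul_pos h1 h2) h3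
  rw [div_le_iff₀ h5]
  have h6 : (k : ℝ) * ((TE : ℝ) / T) * (g * T) = TE * (k * g) := by
    field_simp
  calc (NE : ℝ) ≤ TE * (k * g) := h4
    _ = (k : ℝ) * ((TE : ℝ) / T) * (g * T) := h6.symm
    _ ≤ (k : ℝ) * ((TE : ℝ) / T) * N := by
        apply mul_le_mul_of_nonneg_left h3
        positivity

end

end C

theorem t_C : M_C := by
  intro hHO hHN hLO hLN hUP m hm G _ _ E
  have hJ := C.card_tors G m
  have hJpos : 0 < JJ G m := by
    rw [← hJ]
    haveI : Nonempty {t : Fin m.length → G // ∀ j, t j ^ m.get j = 1} :=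
      ⟨⟨fun _ => 1, fun j => one_pow _⟩⟩
    exact Nat.card_pos
  have hg : 0 < Nat.card G := Nat.card_pos
  have hc : cm G = Nat.card (ConjClasses G) * Nat.card G := by
    unfold cm
    exact card_comm_eq_card_conjClasses_mul_card G
  have hfib : ∀ (R : G → G × G → Prop), (∀ g, Nat.card {p : G × G // R g p} ≤ cm G) →
      Nat.card {p : (Fin m.length → G) × G × G // (∀ j, p.1 j ^ m.get j = 1) ∧ E p.1 ∧
        R (List.ofFn p.1).prod p.2} ≤
      Nat.card {t : Fin m.length → G // (∀ j, t j ^ m.get j = 1) ∧ E t} * cm G := by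
    intro R hR
    have h := C.card_fiber G (I := Fin m.length → G)
      (fun t => (∀ j, t j ^ m.get j = 1) ∧ E t) (fun t p => R (List.ofFn t).prod p) (cm G)
      (fun t => hR _)
    refine le_trans (le_of_eq (Nat.card_congr (Equiv.subtypeEquivRight fun p => ?_))) h
    rw [and_assoc]
  constructor
  · unfold prob
    have h1 : Nat.card (OGroup 1 m →* G) = OT G m (fun _ => True) := by
      rw [← hHO G m (fun _ => True)]
      exact Nat.card_congr (Equiv.subtypeUnivEquiv fun _ => trivial).symm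
    rw [h1, hHO G m E]
    refine C.final hJ hJpos hg hc (hLO G m hm) ?_
    exact hfib (fun g p => g * (p.1 * p.2 * p.1⁻¹ * p.2⁻¹) = 1) fun g => (hUP G g).1
  · unfold prob
    have h1 : Nat.card (NGroup 2 m →* G) = NT G m (fun _ => True) := by
      rw [← hHN G m (fun _ => True)]
      exact Nat.card_congr (Equiv.subtypeUnivEquiv fun _ => trivial).symm
    rw [h1, hHN G m E]
    refine C.final hJ hJpos hg hc (hLN G m hm) ?_
    exact hfib (fun g p => g * (p.1 ^ 2 * p.2 ^ 2) = 1) fun g => (hUP G g).2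

end RSF
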