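import Pool.Agent.RSF.Stmts4
import Pool.Agent.RSF.C

/-!
# The transfer theorem for `PSL_n(q)` and arbitrary periods (module MT)
-/

namespace RSF

namespace MT2

/-- the final computation -/
theorem final {N NE T TE k g c J x n : ℕ} {q ε : ℝ} (hq : 2 ≤ q) (hJ : T = J) (hJpos : 0 < J)
    (hg : 0 < g) (hc : c = k * g) (hk : (k : ℝ) ≤ 4 * q ^ (n + 1))
    (hN : ((g * J : ℕ) : ℝ) ≤ 2 * q ^ x * N) (hNE : NE ≤ TE * c)
    (hx : (x : ℝ) ≤ ε / 2 * n) (hn : 4 ≤ ε / 2 * n) :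
    (NE : ℝ) / N ≤ q ^ ((1 + ε) * (n : ℝ)) * ((TE : ℝ) / T) := by
  subst hJ
  subst hc
  have hq0 : 0 < q := by linarith
  have h1 : (0 : ℝ) < g := by exact_mod_cast hg
  have h2 : (0 : ℝ) < T := by exact_mod_cast hJpos
  have h4 : (NE : ℝ) ≤ TE * (k * g) := by exact_mod_cast hNE
  rw [Nat.cast_mul] at hN
  have hqx : 0 < q ^ x := pow_pos hq0 _
  have h5 : (0 : ℝ) < N := by
    by_contra h
    have h0 : (N : ℝ) = 0 := le_antisymm (not_lt.1 h) (Nat.cast_nonneg _)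
    rw [h0, mul_zero] at hN
    exact absurd (mul_pos h1 h2) (not_lt.2 hN)
  rw [div_le_iff₀ h5]
  have hTE : (0 : ℝ) ≤ TE := Nat.cast_nonneg _
  have hk0 : (0 : ℝ) ≤ k := Nat.cast_nonneg _
  -- the power
  have h8 : 8 * q ^ (n + 1) * q ^ x ≤ q ^ ((1 + ε) * (n : ℝ)) := by
    have e1 : (8 : ℝ) ≤ q ^ (3 : ℝ) := by
      have : (8 : ℝ) = 2 ^ (3 : ℝ) := by norm_num
      rw [this]
      exact Real.rpow_le_rpow (by norm_num) hq (by norm_num)
    have e2 : q ^ (n + 1) = q ^ ((n : ℝ) + 1) := by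
      rw [← Real.rpow_natCast q (n + 1)]
      push_cast
      rfl
    have e3 : q ^ x = q ^ (x : ℝ) := (Real.rpow_natCast q x).symm
    rw [e2, e3]
    calc 8 * q ^ ((n : ℝ) + 1) * q ^ (x : ℝ)
        ≤ q ^ (3 : ℝ) * q ^ ((n : ℝ) + 1) * q ^ (x : ℝ) := by
          have := Real.rpow_pos_of_pos hq0 ((n : ℝ) + 1)
          have := Real.rpow_pos_of_pos hq0 (x : ℝ)
          gcongr
      _ = q ^ (3 + ((n : ℝ) + 1) + (x : ℝ)) := by
          rw [Real.rpow_add hq0 (3 + ((n : ℝ) + 1)) (x : ℝ), Real.rpow_add hq0 3 ((n : ℝ) + 1)]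
      _ ≤ q ^ ((1 + ε) * (n : ℝ)) :=
          Real.rpow_le_rpow_of_exponent_le (by linarith) (by nlinarith)
  have h9 : (TE : ℝ) * (k * g) ≤ TE * (4 * q ^ (n + 1) * g) := by
    gcongr
  have h10 : (g : ℝ) ≤ 2 * q ^ x * N / T := by
    rw [le_div_iff₀ h2]
    exact hN
  calc (NE : ℝ) ≤ TE * (k * g) := h4
    _ ≤ TE * (4 * q ^ (n + 1) * g) := h9
    _ ≤ TE * (4 * q ^ (n + 1) * (2 * q ^ x * N / T)) := by
        have : 0 < q ^ (n + 1) := pow_pos hq0 _
        gcongr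
    _ = (8 * q ^ (n + 1) * q ^ x) * ((TE : ℝ) / T) * N := by ring
    _ ≤ q ^ ((1 + ε) * (n : ℝ)) * ((TE : ℝ) / T) * N := by
        have : 0 ≤ (TE : ℝ) / T := div_nonneg hTE h2.le
        gcongr

end MT2

theorem t_MT2 : M_MT := by
  intro hHO hHN hUP hKP hLG hST m hm h2 ε hε
  obtain ⟨r₁, h₁⟩ := hLG m hm h2
  obtain ⟨r₂, h₂⟩ := hST (ε / 2) (by linarith)
  obtain ⟨r₃, h₃⟩ := exists_nat_ge (4 / (ε / 2))
  refine ⟨max r₁ (max r₂ r₃), fun n hn F _ _ E => ?_⟩
  have hn1 : r₁ ≤ n := le_trans (le_max_left _ _) hn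
  have hn2 : r₂ ≤ n := le_trans (le_trans (le_max_left _ _) (le_max_right _ _)) hn
  have hn3 : r₃ ≤ n := le_trans (le_trans (le_max_right _ _) (le_max_right _ _)) hn
  have hx := h₂ n hn2
  have h4 : (4 : ℝ) ≤ ε / 2 * n := by
    have a1 : (r₃ : ℝ) ≤ n := by exact_mod_cast hn3
    have a2 : 4 / (ε / 2) ≤ (n : ℝ) := le_trans h₃ a1
    rw [div_le_iff₀ (by linarith)] at a2
    linarith
  have hq : (2 : ℝ) ≤ Nat.card F := by
    have : 1 < Nat.card F := Finite.one_lt_card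
    exact_mod_cast this
  have hJ := C.card_tors (PS n F) m
  have hJpos : 0 < JJ (PS n F) m := by
    rw [← hJ]
    haveI : Nonempty {t : Fin m.length → PS n F // ∀ j, t j ^ m.get j = 1} :=
      ⟨⟨fun _ => 1, fun j => one_pow _⟩⟩
    exact Nat.card_pos
  have hg : 0 < Nat.card (PS n F) := Nat.card_pos
  have hc : cm (PS n F) = Nat.card (ConjClasses (PS n F)) * Nat.card (PS n F) := by
    unfold cm
    exact card_comm_eq_card_conjClasses_mul_card (PS n F)
  have hk : (Nat.card (ConjClasses (PS n F)) : ℝ) ≤ 4 * (Nat.card F : ℝ) ^ (n + 1) := by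
    exact_mod_cast hKP F n
  have hfib : ∀ (R : PS n F → PS n F × PS n F → Prop),
      (∀ g, Nat.card {p : PS n F × PS n F // R g p} ≤ cm (PS n F)) →
      Nat.card {p : (Fin m.length → PS n F) × PS n F × PS n F // (∀ j, p.1 j ^ m.get j = 1) ∧
        E p.1 ∧ R (List.ofFn p.1).prod p.2} ≤
      Nat.card {t : Fin m.length → PS n F // (∀ j, t j ^ m.get j = 1) ∧ E t} *
        cm (PS n F) := by
    intro R hR
    have h := C.card_fiber (PS n F) (I := Fin m.length → PS n F)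
      (fun t => (∀ j, t j ^ m.get j = 1) ∧ E t) (fun t p => R (List.ofFn t).prod p)
      (cm (PS n F)) (fun t => hR _)
    refine le_trans (le_of_eq (Nat.card_congr (Equiv.subtypeEquivRight fun p => ?_))) h
    rw [and_assoc]
  have hlg := h₁ n hn1 F
  constructor
  · unfold prob
    have h1 : Nat.card (OGroup 1 m →* PS n F) = OT (PS n F) m (fun _ => True) := by
      rw [← hHO (PS n F) m (fun _ => True)]
      exact Nat.card_congr (Equiv.subtypeUnivEquiv fun _ => trivial).symm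
    rw [h1, hHO (PS n F) m E]
    refine MT2.final hq hJ hJpos hg hc hk ?_ ?_ hx h4
    · exact_mod_cast hlg.1
    · exact hfib (fun g p => g * (p.1 * p.2 * p.1⁻¹ * p.2⁻¹) = 1) fun g => (hUP (PS n F) g).1
  · unfold prob
    have h1 : Nat.card (NGroup 2 m →* PS n F) = NT (PS n F) m (fun _ => True) := by
      rw [← hHN (PS n F) m (fun _ => True)]
      exact Nat.card_congr (Equiv.subtypeUnivEquiv fun _ => trivial).symm
    rw [h1, hHN (PS n F) m E]
    refine MT2.final hq hJ hJpos hg hc hk ?_ ?_ hx h4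
    · exact_mod_cast hlg.2
    · exact hfib (fun g p => g * (p.1 ^ 2 * p.2 ^ 2) = 1) fun g => (hUP (PS n F) g).2

end RSF
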