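import Pool.Agent.RSF.Stmts4

/-!
Fourth part, arbitrary periods: a matrix with given characteristic polynomial in block form, with a
prescribed Schur complement `L U` (MP_5b5212_al).
-/

namespace RSF

open Polynomial

noncomputable section

namespace MX

lemma cyc_conj {F V W : Type} [Field F] [AddCommGroup V] [Module F V] [AddCommGroup W] [Module F W]
    {f : V →ₗ[F] V} {g : W →ₗ[F] W} (ψ : V ≃ₗ[F] W) (h : ∀ v, ψ (f v) = g (ψ v)) (hf : Cyc f) :
    Cyc g := by
  obtain ⟨v, hv⟩ := hf
  refine ⟨ψ v, fun Wd hW hinv => ?_⟩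
  have h1 := hv (Wd.comap (ψ : V →ₗ[F] W)) hW (fun w hw => by
    show ψ (f w) ∈ Wd
    rw [h]
    exact hinv _ hw)
  rw [eq_top_iff]
  intro w _
  have h2 : ψ.symm w ∈ Wd.comap (ψ : V →ₗ[F] W) := by rw [h1]; trivial
  have h3 : ψ (ψ.symm w) ∈ Wd := h2
  rwa [LinearEquiv.apply_symm_apply] at h3

lemma cyc_reindex {F : Type} [Field F] {m n : Type} [Fintype m] [Fintype n] [DecidableEq m]
    [DecidableEq n] (e : m ≃ n) (A : Matrix m m F)
    (h : Cyc (Matrix.toLin' (Matrix.reindex e e A))) : Cyc (Matrix.toLin' A) := by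
  refine cyc_conj (LinearEquiv.funCongrLeft F F e) (fun v => ?_) h
  ext i
  rw [LinearEquiv.funCongrLeft_apply, LinearEquiv.funCongrLeft_apply, LinearMap.funLeft_apply,
    Matrix.toLin'_apply, Matrix.toLin'_apply, Matrix.mulVec, Matrix.mulVec, dotProduct, dotProduct,
    ← Equiv.sum_comp e]
  refine Finset.sum_congr rfl fun j _ => ?_
  rw [Matrix.reindex_apply, Matrix.submatrix_apply, Equiv.symm_apply_apply, Equiv.symm_apply_apply,
    LinearMap.funLeft_apply]

/-- the lower unitriangular matrix -/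
def LL (F : Type) [Field F] (k : ℕ) : Matrix (Fin (k + 1)) (Fin (k + 1)) F :=
  Matrix.of fun i j : Fin (k + 1) => if i = j then 1 else if i.val = j.val + 1 then 1 else 0

/-- the upper unitriangular matrix -/
def UU (F : Type) [Field F] (k : ℕ) : Matrix (Fin (k + 1)) (Fin (k + 1)) F :=
  Matrix.of fun i j : Fin (k + 1) => if i = j then 1 else if j.val = i.val + 1 then 1 else 0

lemma LL_mul_zero {F : Type} [Field F] {k : ℕ} {m : Type} (A : Matrix (Fin (k + 1)) m F) (j : m) :
    (LL F k * A) 0 j = A 0 j := by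
  rw [Matrix.mul_apply, Finset.sum_eq_single 0]
  · simp [LL]
  · intro b _ hb
    have h1 : ¬ ((0 : Fin (k + 1)) = b) := fun h => hb h.symm
    have h2 : ¬ ((0 : Fin (k + 1)).val = b.val + 1) := by simp
    rw [LL, Matrix.of_apply, if_neg h1, if_neg h2, zero_mul]
  · intro h
    exact absurd (Finset.mem_univ _) h

lemma LL_mul_succ {F : Type} [Field F] {k : ℕ} {m : Type} (A : Matrix (Fin (k + 1)) m F)
    (i : Fin k) (j : m) :
    (LL F k * A) i.succ j = A i.succ j + A i.castSucc j := by
  have hne : i.succ ≠ i.castSucc := (Fin.castSucc_lt_succ).ne'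
  rw [Matrix.mul_apply, ← Finset.sum_subset (Finset.subset_univ {i.succ, i.castSucc})]
  · rw [Finset.sum_pair hne]
    have h1 : LL F k i.succ i.succ = 1 := by
      rw [LL, Matrix.of_apply, if_pos rfl]
    have h2 : LL F k i.succ i.castSucc = 1 := by
      rw [LL, Matrix.of_apply, if_neg hne, if_pos (by simp)]
    rw [h1, h2, one_mul, one_mul]
  · intro b _ hb
    rw [Finset.mem_insert, Finset.mem_singleton, not_or] at hb
    have h1 : ¬ (i.succ = b) := fun h => hb.1 h.symm
    have h2 : ¬ (i.succ.val = b.val + 1) := by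
      intro h
      apply hb.2
      ext
      rw [Fin.val_succ] at h
      rw [Fin.val_castSucc]
      omega
    rw [LL, Matrix.of_apply, if_neg h1, if_neg h2, zero_mul]

lemma LL_det {F : Type} [Field F] (k : ℕ) : (LL F k).det = 1 := by
  rw [Matrix.det_of_isLowerTriangular]
  · apply Finset.prod_eq_one
    intro i _
    rw [LL, Matrix.of_apply, if_pos rfl]
  · intro i j hij
    have hij' : i < j := hij
    have h1 : ¬ (i = j) := hij'.ne
    have h2 : ¬ (i.val = j.val + 1) := by
      have := Fin.lt_def.1 hij'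
      omega
    rw [LL, Matrix.of_apply, if_neg h1, if_neg h2]

lemma X_mul {F : Type} [Field F] {k : ℕ} {m : Type} (A : Matrix (Fin 3) m F)
    (i : Fin (k + 1)) (j : m) :
    ((Matrix.single 0 2 1 : Matrix (Fin (k + 1)) (Fin 3) F) * A) i j =
      if i = 0 then A 2 j else 0 := by
  rw [Matrix.mul_apply, Fin.sum_univ_three]
  by_cases h : i = 0
  · subst h
    simp
  · have h' : ¬ (0 = i) := fun h1 => h h1.symm
    simp [h, h']

/-- the upper right block -/
def YY {F : Type} [Field F] (k : ℕ) (T : Matrix (Fin 3) (Fin 3) F) (c : F) (z : Fin 3 → F) :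
    Matrix (Fin 3) (Fin (k + 1)) F :=
  Matrix.of fun i j => if j = Fin.last k then z i else if j = 0 then c * T i 2 else 0

/-- the lower right block -/
def DD {F : Type} [Field F] (k : ℕ) (T : Matrix (Fin 3) (Fin 3) F) (c : F)
    (w : Fin (k + 1) → F) : Matrix (Fin (k + 1)) (Fin (k + 1)) F :=
  Matrix.of fun i j => if j = Fin.last k then w i else
    (LL F k * UU F k) i j + if i = 0 then (T⁻¹ * YY k T c 0) 2 j else 0

/-- the whole matrix -/
def NN {F : Type} [Field F] (k : ℕ) (T : Matrix (Fin 3) (Fin 3) F) (c : F) (z : Fin 3 → F)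
    (w : Fin (k + 1) → F) : Matrix (Fin 3 ⊕ Fin (k + 1)) (Fin 3 ⊕ Fin (k + 1)) F :=
  Matrix.fromBlocks T (YY k T c z) (Matrix.single 0 2 1) (DD k T c w)

/-- the numbering of the coordinates -/
def ee (k : ℕ) : Fin 3 ⊕ Fin (k + 1) ≃ Fin (3 + k + 1) := finSumFinEquiv

lemma ee_inl (k : ℕ) (i : Fin 3) : (ee k (Sum.inl i)).val = i.val := by
  unfold ee
  rw [finSumFinEquiv_apply_left]
  rfl

lemma ee_inr (k : ℕ) (i : Fin (k + 1)) : (ee k (Sum.inr i)).val = 3 + i.val := by
  unfold ee
  rw [finSumFinEquiv_apply_right]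
  rfl

lemma DD_succ {F : Type} [Field F] {k : ℕ} (T : Matrix (Fin 3) (Fin 3) F) (c : F)
    (w : Fin (k + 1) → F) (i : Fin k) (j : Fin (k + 1)) (hj : j ≠ Fin.last k) :
    DD k T c w i.succ j = UU F k i.succ j + UU F k i.castSucc j := by
  rw [DD, Matrix.of_apply, if_neg hj, if_neg (Fin.succ_ne_zero i), add_zero, LL_mul_succ]

lemma hess1 {F : Type} [Field F] {k : ℕ} {T : Matrix (Fin 3) (Fin 3) F} (h1 : T 1 0 = 1)
    (h2 : T 2 1 = 1) (c : F) (z : Fin 3 → F) (w : Fin (k + 1) → F)
    (s t : Fin 3 ⊕ Fin (k + 1)) (h : (ee k s).val = (ee k t).val + 1) : NN k T c z w s t ≠ 0 := by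
  rcases s with i | i <;> rcases t with j | j
  · rw [ee_inl, ee_inl] at h
    rw [NN, Matrix.fromBlocks_apply₁₁]
    have h3 := i.isLt
    have h4 := j.isLt
    by_cases h5 : j.val = 0
    · have e1 : i = 1 := by ext; simpa [h5] using h
      have e2 : j = 0 := by ext; simpa using h5
      rw [e1, e2, h1]
      exact one_ne_zero
    · have e2 : j = 1 := by
        ext
        show j.val = 1
        omega
      have e1 : i = 2 := by
        ext
        show i.val = 2
        omega
      rw [e1, e2, h2]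
      exact one_ne_zero
  · rw [ee_inl, ee_inr] at h
    have h3 := i.isLt
    omega
  · rw [ee_inr, ee_inl] at h
    have h3 := j.isLt
    have e1 : i = 0 := by
      ext
      show i.val = 0
      omega
    have e2 : j = 2 := by
      ext
      show j.val = 2
      omega
    rw [NN, Matrix.fromBlocks_apply₂₁, e1, e2, Matrix.single_apply_same]
    exact one_ne_zero
  · rw [ee_inr, ee_inr] at h
    rw [NN, Matrix.fromBlocks_apply₂₂]
    have h3 := i.isLt
    obtain ⟨i', rfl⟩ : ∃ i' : Fin k, i = i'.succ := by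
      refine ⟨⟨i.val - 1, by omega⟩, ?_⟩
      ext
      simp only [Fin.val_succ]
      omega
    rw [Fin.val_succ] at h
    have hj : j ≠ Fin.last k := by
      intro hj
      rw [hj, Fin.val_last] at h
      have := i'.isLt
      omega
    have hj' : j = i'.castSucc := by
      ext
      rw [Fin.val_castSucc]
      omega
    rw [DD_succ T c w i' j hj, hj', UU, Matrix.of_apply, Matrix.of_apply, if_pos rfl,
      if_neg (Fin.castSucc_lt_succ).ne', if_neg, zero_add]
    · exact one_ne_zero
    · rw [Fin.val_castSucc, Fin.val_succ]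
      omega

lemma hess2 {F : Type} [Field F] {k : ℕ} {T : Matrix (Fin 3) (Fin 3) F} (h3 : T 2 0 = 0) (c : F)
    (z : Fin 3 → F) (w : Fin (k + 1) → F)
    (s t : Fin 3 ⊕ Fin (k + 1)) (h : (ee k t).val + 1 < (ee k s).val) : NN k T c z w s t = 0 := by
  rcases s with i | i <;> rcases t with j | j
  · rw [ee_inl, ee_inl] at h
    have h4 := i.isLt
    have e1 : i = 2 := by
      ext
      show i.val = 2
      omega
    have e2 : j = 0 := by
      ext
      show j.val = 0
      omega
    rw [NN, Matrix.fromBlocks_apply₁₁, e1, e2, h3]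
  · rw [ee_inl, ee_inr] at h
    have h3 := i.isLt
    omega
  · rw [ee_inr, ee_inl] at h
    rw [NN, Matrix.fromBlocks_apply₂₁, Matrix.single_apply_of_ne]
    rintro ⟨e1, e2⟩
    have h4 : i.val = 0 := by rw [← e1]; rfl
    have h5 : j.val = 2 := by rw [← e2]; rfl
    omega
  · rw [ee_inr, ee_inr] at h
    rw [NN, Matrix.fromBlocks_apply₂₂]
    have h3 := i.isLt
    obtain ⟨i', rfl⟩ : ∃ i' : Fin k, i = i'.succ := by
      refine ⟨⟨i.val - 1, by omega⟩, ?_⟩
      ext
      simp only [Fin.val_succ]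
      omega
    rw [Fin.val_succ] at h
    have hj : j ≠ Fin.last k := by
      intro hj
      rw [hj, Fin.val_last] at h
      have := i'.isLt
      omega
    have n1 : ¬ (i'.succ = j) := by
      intro h'
      rw [← h', Fin.val_succ] at h
      omega
    have n2 : ¬ (j.val = i'.succ.val + 1) := by
      rw [Fin.val_succ]
      omega
    have n3 : ¬ (i'.castSucc = j) := by
      intro h'
      rw [← h', Fin.val_castSucc] at h
      omega
    have n4 : ¬ (j.val = i'.castSucc.val + 1) := by
      rw [Fin.val_castSucc]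
      omega
    rw [DD_succ T c w i' j hj, UU, Matrix.of_apply, Matrix.of_apply, if_neg n1, if_neg n2,
      if_neg n3, if_neg n4, zero_add]

lemma upd_col {F : Type} [Field F] {k : ℕ} (T : Matrix (Fin 3) (Fin 3) F) (c : F) (z : Fin 3 → F)
    (w : Fin (k + 1) → F) (x : Fin (3 + k + 1) → F) :
    (Matrix.reindex (ee k) (ee k) (NN k T c z w)).updateCol (Fin.last (3 + k)) x =
      Matrix.reindex (ee k) (ee k) (NN k T c (fun i => x (ee k (Sum.inl i)))
        (fun i => x (ee k (Sum.inr i)))) := by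
  ext a b
  obtain ⟨s, rfl⟩ := (ee k).surjective a
  obtain ⟨t, rfl⟩ := (ee k).surjective b
  rw [Matrix.updateCol_apply, Matrix.reindex_apply, Matrix.reindex_apply, Matrix.submatrix_apply,
    Matrix.submatrix_apply, Equiv.symm_apply_apply, Equiv.symm_apply_apply]
  rcases t with j | j
  · have h1 : ¬ (ee k (Sum.inl j) = Fin.last (3 + k)) := by
      intro h
      have h2 := congrArg Fin.val h
      rw [ee_inl, Fin.val_last] at h2
      have := j.isLt
      omega
    rw [if_neg h1]
    rcases s with i | i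
    · rw [NN, NN, Matrix.fromBlocks_apply₁₁, Matrix.fromBlocks_apply₁₁]
    · rw [NN, NN, Matrix.fromBlocks_apply₂₁, Matrix.fromBlocks_apply₂₁]
  · by_cases hj : j = Fin.last k
    · have h1 : ee k (Sum.inr j) = Fin.last (3 + k) := by
        ext
        rw [ee_inr, hj, Fin.val_last, Fin.val_last]
      rw [if_pos h1]
      rcases s with i | i
      · rw [NN, Matrix.fromBlocks_apply₁₂, YY, Matrix.of_apply, if_pos hj]
      · rw [NN, Matrix.fromBlocks_apply₂₂, DD, Matrix.of_apply, if_pos hj]
    · have h1 : ¬ (ee k (Sum.inr j) = Fin.last (3 + k)) := by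
        intro h
        have h2 := congrArg Fin.val h
        rw [ee_inr, Fin.val_last] at h2
        apply hj
        ext
        rw [Fin.val_last]
        omega
      rw [if_neg h1]
      rcases s with i | i
      · rw [NN, NN, Matrix.fromBlocks_apply₁₂, Matrix.fromBlocks_apply₁₂, YY, YY, Matrix.of_apply,
          Matrix.of_apply, if_neg hj, if_neg hj]
      · rw [NN, NN, Matrix.fromBlocks_apply₂₂, Matrix.fromBlocks_apply₂₂, DD, DD, Matrix.of_apply,
          Matrix.of_apply, if_neg hj, if_neg hj]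

/-- the upper triangular factor of the Schur complement -/
def VV {F : Type} [Field F] (k : ℕ) (u : Fin (k + 1) → F) :
    Matrix (Fin (k + 1)) (Fin (k + 1)) F :=
  Matrix.of fun i j => if j = Fin.last k then u i else UU F k i j

lemma schur {F : Type} [Field F] {k : ℕ} (T : Matrix (Fin 3) (Fin 3) F) (c : F) (z : Fin 3 → F)
    (w : Fin (k + 1) → F) : ∃ u : Fin (k + 1) → F,
    DD k T c w - (Matrix.single 0 2 1 : Matrix (Fin (k + 1)) (Fin 3) F) * T⁻¹ * YY k T c z =
      LL F k * VV k u := by
  set v : Fin (k + 1) → F := fun i => w i -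
    ((Matrix.single 0 2 1 : Matrix (Fin (k + 1)) (Fin 3) F) * T⁻¹ * YY k T c z) i (Fin.last k)
    with hv
  have hL : IsUnit (LL F k).det := by rw [LL_det]; exact isUnit_one
  refine ⟨(LL F k)⁻¹.mulVec v, ?_⟩
  ext i j
  by_cases hj : j = Fin.last k
  · have h1 : (LL F k * VV k ((LL F k)⁻¹.mulVec v)) i j =
        (LL F k).mulVec ((LL F k)⁻¹.mulVec v) i := by
      rw [Matrix.mul_apply, Matrix.mulVec, dotProduct]
      refine Finset.sum_congr rfl fun l _ => ?_
      rw [VV, Matrix.of_apply, if_pos hj]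
    rw [h1, Matrix.mulVec_mulVec, Matrix.mul_nonsing_inv _ hL, Matrix.one_mulVec, hv,
      Matrix.sub_apply, hj, DD, Matrix.of_apply, if_pos rfl]
  · have h1 : (LL F k * VV k ((LL F k)⁻¹.mulVec v)) i j = (LL F k * UU F k) i j := by
      rw [Matrix.mul_apply, Matrix.mul_apply]
      refine Finset.sum_congr rfl fun l _ => ?_
      rw [VV, Matrix.of_apply, if_neg hj]
    have h2 : (T⁻¹ * YY k T c z) 2 j = (T⁻¹ * YY k T c 0) 2 j := by
      rw [Matrix.mul_apply, Matrix.mul_apply]
      refine Finset.sum_congr rfl fun l _ => ?_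
      rw [YY, YY, Matrix.of_apply, Matrix.of_apply, if_neg hj, if_neg hj]
    rw [h1, Matrix.sub_apply, Matrix.mul_assoc, X_mul, DD, Matrix.of_apply, if_neg hj, h2,
      add_sub_cancel_right]

lemma VV_lower {F : Type} [Field F] {k : ℕ} (u : Fin (k + 1) → F) (i j : Fin (k + 1))
    (h : j < i) : VV k u i j = 0 := by
  have h1 := Fin.lt_def.1 h
  have hj : j ≠ Fin.last k := by
    intro hj
    rw [hj, Fin.val_last] at h1
    have := i.isLt
    omega
  have n1 : ¬ (i = j) := h.ne'
  have n2 : ¬ (j.val = i.val + 1) := by omega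
  rw [VV, Matrix.of_apply, if_neg hj, UU, Matrix.of_apply, if_neg n1, if_neg n2]

lemma VV_diag {F : Type} [Field F] {k : ℕ} (u : Fin (k + 1) → F) (i : Fin k) :
    VV k u i.castSucc i.castSucc = 1 := by
  rw [VV, Matrix.of_apply, if_neg (Fin.castSucc_lt_last i).ne, UU, Matrix.of_apply, if_pos rfl]

lemma VV_det {F : Type} [Field F] {k : ℕ} (u : Fin (k + 1) → F) :
    (VV k u).det = u (Fin.last k) := by
  rw [Matrix.det_of_isUpperTriangular (fun i j hij => VV_lower u i j hij), Fin.prod_univ_castSucc,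
    Finset.prod_eq_one (fun i _ => VV_diag u i), one_mul, VV, Matrix.of_apply, if_pos rfl]

lemma VV_super {F : Type} [Field F] {k : ℕ} (u : Fin (k + 1) → F) (i : Fin k)
    (hi : i.succ ≠ Fin.last k) : VV k u i.castSucc i.succ = 1 := by
  rw [VV, Matrix.of_apply, if_neg hi, UU, Matrix.of_apply, if_neg (Fin.castSucc_lt_succ).ne,
    if_pos (by rw [Fin.val_succ, Fin.val_castSucc])]

lemma trace_LV {F : Type} [Field F] {k : ℕ} (u : Fin (k + 1 + 1) → F)
    (h : u (Fin.last (k + 1)) = 1) :
    (LL F (k + 1) * VV (k + 1) u).trace = 2 * k + 2 + u (Fin.last k).castSucc := by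
  have hd : ∀ i, VV (k + 1) u i i = 1 := by
    intro i
    refine Fin.lastCases ?_ (fun i => ?_) i
    · rw [VV, Matrix.of_apply, if_pos rfl, h]
    · exact VV_diag u i
  have h1 : (LL F (k + 1) * VV (k + 1) u).trace =
      (∑ i, VV (k + 1) u i i) + ∑ i : Fin (k + 1), VV (k + 1) u i.castSucc i.succ := by
    have h5 : ∑ i : Fin (k + 1), (LL F (k + 1) * VV (k + 1) u).diag i.succ =
        (∑ i : Fin (k + 1), VV (k + 1) u i.succ i.succ) +
          ∑ i : Fin (k + 1), VV (k + 1) u i.castSucc i.succ := by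
      rw [← Finset.sum_add_distrib]
      refine Finset.sum_congr rfl fun i _ => ?_
      rw [Matrix.diag_apply, LL_mul_succ]
    rw [Matrix.trace, Fin.sum_univ_succ, h5, Fin.sum_univ_succ (fun i => VV (k + 1) u i i),
      Matrix.diag_apply, LL_mul_zero]
    ring
  have h2 : ∑ i : Fin (k + 1), VV (k + 1) u i.castSucc i.succ = k + u (Fin.last k).castSucc := by
    rw [Fin.sum_univ_castSucc]
    congr 1
    · rw [Finset.sum_congr rfl (fun i _ => VV_super u (Fin.castSucc i) ?_)]
      · rw [Finset.sum_const, Finset.card_univ, Fintype.card_fin, nsmul_eq_mul, mul_one]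
      · intro hi
        have h3 := congrArg Fin.val hi
        rw [Fin.val_succ, Fin.val_castSucc, Fin.val_last] at h3
        omega
    · rw [VV, Matrix.of_apply, Fin.succ_last, if_pos rfl]
  rw [h1, h2, Finset.sum_congr rfl (fun i _ => hd i), Finset.sum_const, Finset.card_univ,
    Fintype.card_fin, nsmul_eq_mul, mul_one]
  push_cast
  ring

lemma trace_XY {F : Type} [Field F] {k : ℕ} (T : Matrix (Fin 3) (Fin 3) F) (hT : T.det = 1) (c : F)
    (z : Fin 3 → F) :
    ((Matrix.single 0 2 1 : Matrix (Fin (k + 1 + 1)) (Fin 3) F) * T⁻¹ * YY (k + 1) T c z).trace =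
      c := by
  have h0 : (0 : Fin (k + 1 + 1)) ≠ Fin.last (k + 1) := by
    intro h
    have h1 := congrArg Fin.val h
    rw [Fin.val_last] at h1
    simp at h1
  have h1 : (T⁻¹ * YY (k + 1) T c z) 2 0 = c * (T⁻¹ * T) 2 2 := by
    rw [Matrix.mul_apply, Matrix.mul_apply, Finset.mul_sum]
    refine Finset.sum_congr rfl fun l _ => ?_
    rw [YY, Matrix.of_apply, if_neg h0, if_pos rfl]
    ring
  rw [Matrix.mul_assoc, Matrix.trace, Finset.sum_eq_single 0]
  · rw [Matrix.diag_apply, X_mul, if_pos rfl, h1, Matrix.nonsing_inv_mul _ (by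
      rw [hT]; exact isUnit_one), Matrix.one_apply_eq, mul_one]
  · intro b _ hb
    rw [Matrix.diag_apply, X_mul, if_neg hb]
  · intro h
    exact absurd (Finset.mem_univ _) h

end MX

open MX in
theorem t_MX : M_MX := by
  intro hHC F _ k T r hk hT h10 h21 h20 hr hd h0
  obtain ⟨k, rfl⟩ : ∃ k', k = k' + 1 := ⟨k - 1, by omega⟩
  set c : F := -r.coeff (k + 4) - T.trace - (2 * k + 3) with hc
  have key : ∀ (z : Fin 3 → F) (w : Fin (k + 1 + 1) → F),
      Cyc (Matrix.toLin' (Matrix.reindex (ee (k + 1)) (ee (k + 1)) (NN (k + 1) T c z w))) ∧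
      ∀ r : F[X], r.Monic → r.natDegree = 3 + (k + 1) + 1 →
      ∃ x : Fin (3 + (k + 1) + 1) → F,
        ((Matrix.reindex (ee (k + 1)) (ee (k + 1)) (NN (k + 1) T c z w)).updateCol
          (Fin.last (3 + (k + 1))) x).charpoly = r := by
    intro z w
    apply hHC F (3 + (k + 1))
    · intro i
      rw [Matrix.reindex_apply, Matrix.submatrix_apply]
      apply hess1 h10 h21
      rw [Equiv.apply_symm_apply, Equiv.apply_symm_apply, Fin.val_succ, Fin.val_castSucc]
    · intro i j hij
      rw [Matrix.reindex_apply, Matrix.submatrix_apply]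
      apply hess2 h20
      rwa [Equiv.apply_symm_apply, Equiv.apply_symm_apply]
  obtain ⟨x, hx⟩ := (key 0 0).2 r hr (by omega)
  rw [upd_col, Matrix.charpoly_reindex] at hx
  set z : Fin 3 → F := fun i => x (ee (k + 1) (Sum.inl i)) with hz
  set w : Fin (k + 1 + 1) → F := fun i => x (ee (k + 1) (Sum.inr i)) with hw
  obtain ⟨u, hu⟩ := schur T c z w
  have hcard : Fintype.card (Fin 3 ⊕ Fin (k + 1 + 1)) = 3 + (k + 1 + 1) := by
    rw [Fintype.card_sum, Fintype.card_fin, Fintype.card_fin]
  -- the determinant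
  have hu1 : u (Fin.last (k + 1)) = 1 := by
    have h1 := Matrix.det_eq_sign_charpoly_coeff (NN (k + 1) T c z w)
    rw [hx, hcard, h0, ← pow_add] at h1
    have h2 : (-1 : F) ^ (3 + (k + 1 + 1) + (k + 1 + 4)) = 1 := by
      rw [Even.neg_one_pow]
      exact ⟨k + 5, by ring⟩
    rw [h2] at h1
    have : Invertible T := T.invertibleOfIsUnitDet (by rw [hT]; exact isUnit_one)
    rw [NN, Matrix.det_fromBlocks₁₁, hT, one_mul, Matrix.invOf_eq_nonsing_inv, hu, Matrix.det_mul,
      LL_det, one_mul, VV_det] at h1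
    exact h1
  -- the trace
  have hu2 : u (Fin.last k).castSucc = 1 := by
    have h1 := Matrix.trace_eq_neg_charpoly_coeff (NN (k + 1) T c z w)
    rw [hx, hcard] at h1
    have h2 : (DD (k + 1) T c w).trace = 2 * k + 2 + u (Fin.last k).castSucc + c := by
      have e1 := trace_XY (k := k) T hT c z
      have e2 := trace_LV u hu1
      rw [← hu, Matrix.trace_sub, e1] at e2
      linear_combination e2
    have e4 : (NN (k + 1) T c z w).trace = T.trace + (DD (k + 1) T c w).trace := by
      rw [Matrix.trace, Fintype.sum_sum_type, Matrix.trace, Matrix.trace]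
      rfl
    rw [e4, h2, hc] at h1
    have h3 : 3 + (k + 1 + 1) - 1 = k + 4 := by omega
    rw [h3] at h1
    linear_combination h1
  refine ⟨YY (k + 1) T c z, DD (k + 1) T c w, VV (k + 1) u, hx,
    cyc_reindex (ee (k + 1)) _ (key z w).1, ?_, VV_lower u, ?_, hu⟩
  · intro i
    refine Fin.lastCases ?_ (fun i => ?_) i
    · rw [VV, Matrix.of_apply, if_pos rfl, hu1]
    · exact VV_diag u i
  · intro i
    by_cases hi : i.succ = Fin.last (k + 1)
    · have h1 : i = Fin.last k := by
        ext
        have h2 := congrArg Fin.val hi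
        rw [Fin.val_succ, Fin.val_last] at h2
        rw [Fin.val_last]
        omega
      rw [VV, Matrix.of_apply, if_pos hi, h1, hu2]
    · exact VV_super u i hi

end

end RSF
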