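import Pool.Agent.RSF.Stmts4

/-!
# S_ND: most decompositions keep the eigenspaces of the Schur complement small
-/

namespace RSF

open Module

namespace ND

/-! ### Counting -/

lemma fib {F M N : Type} [Field F] [AddCommGroup M] [AddCommGroup N] [Module F M] [Module F N]
    (L : M →ₗ[F] N) (hL : Function.Surjective L) (b : N) :
    Nat.card {m : M // L m = b} * Nat.card N = Nat.card M := by
  obtain ⟨m₀, hm₀⟩ := hL b
  have e : {m : M // L m = b} ≃ LinearMap.ker L :=
    { toFun := fun m => ⟨m.1 - m₀, by rw [LinearMap.mem_ker, map_sub, m.2, hm₀, sub_self]⟩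
      invFun := fun k => ⟨k.1 + m₀, by rw [map_add, LinearMap.mem_ker.1 k.2, hm₀, zero_add]⟩
      left_inv := fun m => Subtype.ext (by simp)
      right_inv := fun k => Subtype.ext (by simp) }
  rw [Nat.card_congr e, Submodule.card_eq_card_quotient_mul_card (LinearMap.ker L),
    Nat.card_congr (L.quotKerEquivOfSurjective hL).toEquiv]

lemma ub {α ι : Type} [Finite α] [Finite ι] (P : ι → α → Prop) (c d : ℕ)
    (hP : ∀ i, Nat.card {a // P i a} * c ≤ d) :
    Nat.card {a // ∃ i, P i a} * c ≤ Nat.card ι * d := by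
  classical
  have : Fintype ι := Fintype.ofFinite ι
  have h1 : Nat.card {a // ∃ i, P i a} ≤ Nat.card (Σ i, {a // P i a}) := by
    refine Nat.card_le_card_of_injective
      (fun a : {a // ∃ i, P i a} => (⟨a.2.choose, a.1, a.2.choose_spec⟩ : Σ i, {a // P i a})) ?_
    intro a b hab
    have h2 := congrArg (fun s : Σ i, {a // P i a} => s.2.1) hab
    exact Subtype.ext h2
  rw [Nat.card_sigma] at h1
  calc Nat.card {a // ∃ i, P i a} * c ≤ (∑ i, Nat.card {a // P i a}) * c :=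
        Nat.mul_le_mul_right _ h1
    _ = ∑ i, Nat.card {a // P i a} * c := Finset.sum_mul _ _ _
    _ ≤ ∑ _i : ι, d := Finset.sum_le_sum fun i _ => hP i
    _ = Nat.card ι * d := by simp [Nat.card_eq_fintype_card]

lemma card_or {α : Type} [Finite α] (P Q : α → Prop) :
    Nat.card {a // P a ∨ Q a} ≤ Nat.card {a // P a} + Nat.card {a // Q a} := by
  classical
  have : Fintype α := Fintype.ofFinite α
  rw [Nat.card_eq_fintype_card, Nat.card_eq_fintype_card, Nat.card_eq_fintype_card]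
  exact Fintype.card_subtype_or P Q

lemma card_not {α : Type} [Finite α] (P : α → Prop) :
    Nat.card {a // P a} + Nat.card {a // ¬ P a} = Nat.card α := by
  classical
  rw [← Nat.card_sum, Nat.card_congr (Equiv.sumCompl P)]

lemma card_imp {α : Type} [Finite α] {P Q : α → Prop} (h : ∀ a, P a → Q a) :
    Nat.card {a // P a} ≤ Nat.card {a // Q a} :=
  Nat.card_le_card_of_injective (Subtype.map id h) (Subtype.map_injective _ Function.injective_id)

lemma card_pairs {α β : Type} [Finite α] [Finite β] (P : α → Prop) (Q : α → β → Prop)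
    (R : α × β → Prop) (c d : ℕ) (h : ∀ a b, P a → Q a b → R (a, b))
    (hc : ∀ a, P a → c ≤ Nat.card {b // Q a b} * d) :
    Nat.card {a // P a} * c ≤ Nat.card {z // R z} * d := by
  classical
  have : Fintype {a // P a} := Fintype.ofFinite _
  have h1 : Nat.card (Σ a : {a // P a}, {b // Q a.1 b}) ≤ Nat.card {z // R z} := by
    refine Nat.card_le_card_of_injective
      (fun s : Σ a : {a // P a}, {b // Q a.1 b} =>
        (⟨(s.1.1, s.2.1), h _ _ s.1.2 s.2.2⟩ : {z // R z})) ?_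
    rintro ⟨⟨a, ha⟩, ⟨b, hb⟩⟩ ⟨⟨a', ha'⟩, ⟨b', hb'⟩⟩ hab
    simp only [Subtype.mk.injEq, Prod.mk.injEq] at hab
    obtain ⟨rfl, rfl⟩ := hab
    rfl
  rw [Nat.card_sigma] at h1
  calc Nat.card {a // P a} * c = ∑ _a : {a // P a}, c := by simp [Nat.card_eq_fintype_card]
    _ ≤ ∑ a : {a // P a}, Nat.card {b // Q a.1 b} * d := Finset.sum_le_sum fun a _ => hc a.1 a.2
    _ = (∑ a : {a // P a}, Nat.card {b // Q a.1 b}) * d := (Finset.sum_mul _ _ _).symm
    _ ≤ Nat.card {z // R z} * d := Nat.mul_le_mul_right _ h1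

/-! ### The maps `u` -/

section U

variable {F V : Type} [Field F] [Finite F] [AddCommGroup V] [Module F V] [FiniteDimensional F V]

lemma ev_surj {h : ℕ} (y : Fin h → F) (hy : y ≠ 0) (v : V) :
    ∃ u : (Fin h → F) →ₗ[F] V, u y = v := by
  obtain ⟨f, hf, -⟩ := Submodule.exists_le_ker_of_notMem (p := (⊥ : Submodule F (Fin h → F)))
    (v := y) (by simpa using hy)
  refine ⟨(LinearMap.toSpanSingleton F V v) ∘ₗ ((f y)⁻¹ • f), ?_⟩
  simp [LinearMap.toSpanSingleton_apply, inv_mul_cancel₀ hf]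

lemma cardU {h : ℕ} (y : Fin h → F) (hy : y ≠ 0) (S : Submodule F V) :
    Nat.card {u : (Fin h → F) →ₗ[F] V // u y ∈ S} * Nat.card V =
      Nat.card ((Fin h → F) →ₗ[F] V) * Nat.card S := by
  classical
  have : Finite V := Module.finite_of_finite F
  have : Finite ((Fin h → F) →ₗ[F] V) := Module.finite_of_finite F
  have : Fintype S := Fintype.ofFinite _
  let e : {u : (Fin h → F) →ₗ[F] V // u y ∈ S} ≃
      Σ s : S, {u : (Fin h → F) →ₗ[F] V // LinearMap.applyₗ y u = s.1} :=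
    { toFun := fun u => ⟨⟨u.1 y, u.2⟩, ⟨u.1, rfl⟩⟩
      invFun := fun s => ⟨s.2.1, by
        have h1 : s.2.1 y = s.1.1 := s.2.2
        rw [h1]; exact s.1.2⟩
      left_inv := fun u => rfl
      right_inv := by
        rintro ⟨⟨s, hs⟩, ⟨u, hu⟩⟩
        have h1 : u y = s := hu
        subst h1
        rfl }
  rw [Nat.card_congr e, Nat.card_sigma, Finset.sum_mul]
  have h1 : ∀ s : S, Nat.card {u : (Fin h → F) →ₗ[F] V // LinearMap.applyₗ y u = s.1} *
      Nat.card V = Nat.card ((Fin h → F) →ₗ[F] V) := fun s =>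
    fib (LinearMap.applyₗ y) (fun v => ev_surj y hy v) s.1
  rw [Finset.sum_congr rfl fun s _ => h1 s]
  simp [Nat.card_eq_fintype_card, mul_comm]

lemma card_sub (S : Submodule F V) : Nat.card S = Nat.card F ^ finrank F S :=
  Module.natCard_eq_pow_finrank

lemma bad0 {h κ : ℕ} (A : GV F V) (hA : EL A κ) (x y : Fin h → F) (hxy : (x, y) ≠ 0) :
    Nat.card {u : (Fin h → F) →ₗ[F] V // u x + A (u y) = 0} * Nat.card V ≤
      Nat.card ((Fin h → F) →ₗ[F] V) * Nat.card F ^ κ := by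
  classical
  have : Finite V := Module.finite_of_finite F
  have : Finite ((Fin h → F) →ₗ[F] V) := Module.finite_of_finite F
  have hq : 0 < Nat.card F := Nat.card_pos
  by_cases hx : x ∈ Submodule.span F {y}
  · obtain ⟨c, rfl⟩ := Submodule.mem_span_singleton.1 hx
    have hy : y ≠ 0 := by
      rintro rfl
      exact hxy (by simp)
    have h1 : Nat.card {u : (Fin h → F) →ₗ[F] V // u (c • y) + A (u y) = 0} ≤
        Nat.card {u : (Fin h → F) →ₗ[F] V //
          u y ∈ LinearMap.ker ((A : V →ₗ[F] V) - (-c) • LinearMap.id)} := by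
      refine card_imp fun u hu => ?_
      rw [LinearMap.mem_ker]
      simp only [map_smul] at hu
      simp only [LinearMap.sub_apply, LinearMap.smul_apply, LinearMap.id_apply,
        LinearEquiv.coe_coe, neg_smul, sub_neg_eq_add]
      rw [add_comm]
      exact hu
    refine (Nat.mul_le_mul_right _ h1).trans ?_
    rw [cardU y hy, card_sub]
    exact Nat.mul_le_mul_left _ (Nat.pow_le_pow_right hq (hA _))
  · obtain ⟨f, hf, hk⟩ := Submodule.exists_le_ker_of_notMem hx
    have hfy : f y = 0 := LinearMap.mem_ker.1 (hk (Submodule.mem_span_singleton_self y))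
    let L : ((Fin h → F) →ₗ[F] V) →ₗ[F] V :=
      LinearMap.applyₗ x + (A : V →ₗ[F] V) ∘ₗ LinearMap.applyₗ y
    have hL : Function.Surjective L := by
      intro v
      refine ⟨(LinearMap.toSpanSingleton F V v) ∘ₗ ((f x)⁻¹ • f), ?_⟩
      simp [L, LinearMap.toSpanSingleton_apply, inv_mul_cancel₀ hf, hfy]
    have h1 := fib L hL 0
    have h2 : Nat.card {u : (Fin h → F) →ₗ[F] V // u x + A (u y) = 0} * Nat.card V =
        Nat.card ((Fin h → F) →ₗ[F] V) := h1
    rw [h2]
    exact Nat.le_mul_of_pos_right _ (Nat.pow_pos hq)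

/-- the conditions for `u` -/
def BadU {h : ℕ} (A : GV F V) (u : (Fin h → F) →ₗ[F] V) : Prop :=
  (∃ z : (Fin h → F) × (Fin h → F), z ≠ 0 ∧ u z.1 + A (u z.2) = 0) ∨
    ∃ w : F × (Fin h → F), 3 * h + 10 ≤
      finrank F (LinearMap.ker ((A : V →ₗ[F] V) - w.1 • LinearMap.id)) ∧ w.2 ≠ 0 ∧
      u w.2 ∈ LinearMap.range ((A : V →ₗ[F] V) - w.1 • LinearMap.id)

lemma card_bad0 {h κ : ℕ} (A : GV F V) (hA : EL A κ) (hκ : κ + 2 * h + 10 ≤ finrank F V) :
    Nat.card {u : (Fin h → F) →ₗ[F] V //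
      ∃ z : (Fin h → F) × (Fin h → F), z ≠ 0 ∧ u z.1 + A (u z.2) = 0} * Nat.card F ^ 10 ≤
      Nat.card ((Fin h → F) →ₗ[F] V) := by
  classical
  have : Finite V := Module.finite_of_finite F
  have : Finite ((Fin h → F) →ₗ[F] V) := Module.finite_of_finite F
  have hq : 0 < Nat.card F := Nat.card_pos
  have h1 := ub (α := (Fin h → F) →ₗ[F] V) (ι := (Fin h → F) × (Fin h → F))
    (fun z u => z ≠ 0 ∧ u z.1 + A (u z.2) = 0) (Nat.card V)
    (Nat.card ((Fin h → F) →ₗ[F] V) * Nat.card F ^ κ) (by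
      intro z
      by_cases hz : z = 0
      · have h2 : Nat.card {u : (Fin h → F) →ₗ[F] V // z ≠ 0 ∧ u z.1 + A (u z.2) = 0} = 0 := by
          rw [Nat.card_eq_zero]
          left
          exact ⟨fun u => u.2.1 hz⟩
        rw [h2, zero_mul]
        exact Nat.zero_le _
      · refine le_trans (Nat.mul_le_mul_right _ (card_imp (Q := fun u => u z.1 + A (u z.2) = 0)
          fun u hu => hu.2)) ?_
        exact bad0 A hA z.1 z.2 hz)
  have h3 : Nat.card ((Fin h → F) × (Fin h → F)) = Nat.card F ^ (2 * h) := by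
    rw [Nat.card_prod, Nat.card_fun, Nat.card_eq_fintype_card (α := Fin h), Fintype.card_fin,
      ← pow_add, two_mul]
  have h4 : Nat.card V = Nat.card F ^ finrank F V := Module.natCard_eq_pow_finrank
  rw [h3, h4] at h1
  have h5 : Nat.card F ^ (2 * h) * Nat.card F ^ κ * Nat.card F ^ 10 ≤ Nat.card F ^ finrank F V := by
    rw [← pow_add, ← pow_add]
    exact Nat.pow_le_pow_right hq (by omega)
  refine Nat.le_of_mul_le_mul_right ?_ (Nat.pow_pos (n := finrank F V) hq)
  calc _ = (Nat.card {u : (Fin h → F) →ₗ[F] V //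
      ∃ z : (Fin h → F) × (Fin h → F), z ≠ 0 ∧ u z.1 + A (u z.2) = 0} *
        Nat.card F ^ finrank F V) * Nat.card F ^ 10 := by ring
    _ ≤ (Nat.card F ^ (2 * h) * (Nat.card ((Fin h → F) →ₗ[F] V) * Nat.card F ^ κ)) *
        Nat.card F ^ 10 := Nat.mul_le_mul_right _ h1
    _ = Nat.card ((Fin h → F) →ₗ[F] V) * (Nat.card F ^ (2 * h) * Nat.card F ^ κ *
        Nat.card F ^ 10) := by ring
    _ ≤ Nat.card ((Fin h → F) →ₗ[F] V) * Nat.card F ^ finrank F V := Nat.mul_le_mul_left _ h5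

lemma card_bad1 {h : ℕ} (A : GV F V) :
    Nat.card {u : (Fin h → F) →ₗ[F] V //
      ∃ w : F × (Fin h → F), 3 * h + 10 ≤
      finrank F (LinearMap.ker ((A : V →ₗ[F] V) - w.1 • LinearMap.id)) ∧ w.2 ≠ 0 ∧
      u w.2 ∈ LinearMap.range ((A : V →ₗ[F] V) - w.1 • LinearMap.id)} * Nat.card F ^ 9 ≤
      Nat.card ((Fin h → F) →ₗ[F] V) := by
  classical
  have : Finite V := Module.finite_of_finite F
  have : Finite ((Fin h → F) →ₗ[F] V) := Module.finite_of_finite F
  have hq : 0 < Nat.card F := Nat.card_pos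
  have h1 := ub (α := (Fin h → F) →ₗ[F] V) (ι := F × (Fin h → F))
    (fun w u => 3 * h + 10 ≤
      finrank F (LinearMap.ker ((A : V →ₗ[F] V) - w.1 • LinearMap.id)) ∧ w.2 ≠ 0 ∧
      u w.2 ∈ LinearMap.range ((A : V →ₗ[F] V) - w.1 • LinearMap.id)) (Nat.card F ^ (3 * h + 10))
    (Nat.card ((Fin h → F) →ₗ[F] V)) (by
      intro w
      by_cases hw : 3 * h + 10 ≤
        finrank F (LinearMap.ker ((A : V →ₗ[F] V) - w.1 • LinearMap.id)) ∧ w.2 ≠ 0
      · refine le_trans (Nat.mul_le_mul_right _ (card_imp (Q := fun u : (Fin h → F) →ₗ[F] V =>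
          u w.2 ∈ LinearMap.range ((A : V →ₗ[F] V) - w.1 • LinearMap.id))
          fun u hu => hu.2.2)) ?_
        have h2 := cardU w.2 hw.2 (LinearMap.range ((A : V →ₗ[F] V) - w.1 • LinearMap.id))
        have h3 := LinearMap.finrank_range_add_finrank_ker
          ((A : V →ₗ[F] V) - w.1 • LinearMap.id)
        rw [card_sub, Module.natCard_eq_pow_finrank (K := F) (V := V), ← h3, pow_add,
          mul_comm (Nat.card F ^ _) (Nat.card F ^ _), ← mul_assoc] at h2
        have h4 := Nat.eq_of_mul_eq_mul_right (Nat.pow_pos hq) h2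
        rw [← h4]
        exact Nat.mul_le_mul_left _ (Nat.pow_le_pow_right hq hw.1)
      · have h2 : Nat.card {u : (Fin h → F) →ₗ[F] V // 3 * h + 10 ≤
            finrank F (LinearMap.ker ((A : V →ₗ[F] V) - w.1 • LinearMap.id)) ∧ w.2 ≠ 0 ∧
            u w.2 ∈ LinearMap.range ((A : V →ₗ[F] V) - w.1 • LinearMap.id)} = 0 := by
          rw [Nat.card_eq_zero]
          left
          exact ⟨fun u => hw ⟨u.2.1, u.2.2.1⟩⟩
        rw [h2, zero_mul]
        exact Nat.zero_le _)
  have h3 : Nat.card (F × (Fin h → F)) = Nat.card F ^ (h + 1) := by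
    rw [Nat.card_prod, Nat.card_fun, Nat.card_eq_fintype_card (α := Fin h), Fintype.card_fin,
      pow_succ, mul_comm]
  rw [h3] at h1
  have h5 : Nat.card F ^ (h + 1) * Nat.card F ^ 9 ≤ Nat.card F ^ (3 * h + 10) := by
    rw [← pow_add]
    exact Nat.pow_le_pow_right hq (by omega)
  refine Nat.le_of_mul_le_mul_left ?_ (Nat.pow_pos (n := h + 1) hq)
  refine le_trans ?_ h1
  calc _ = Nat.card {u : (Fin h → F) →ₗ[F] V //
      ∃ w : F × (Fin h → F), 3 * h + 10 ≤
      finrank F (LinearMap.ker ((A : V →ₗ[F] V) - w.1 • LinearMap.id)) ∧ w.2 ≠ 0 ∧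
      u w.2 ∈ LinearMap.range ((A : V →ₗ[F] V) - w.1 • LinearMap.id)} *
      (Nat.card F ^ (h + 1) * Nat.card F ^ 9) := by ring
    _ ≤ _ := Nat.mul_le_mul_left _ h5

lemma card_badU {h κ : ℕ} (A : GV F V) (hA : EL A κ) (hκ : κ + 2 * h + 10 ≤ finrank F V) :
    255 * Nat.card ((Fin h → F) →ₗ[F] V) ≤
      256 * Nat.card {u : (Fin h → F) →ₗ[F] V // ¬ BadU A u} := by
  classical
  have : Finite ((Fin h → F) →ₗ[F] V) := Module.finite_of_finite F
  have hq : 2 ≤ Nat.card F := by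
    have : 1 < Nat.card F := Finite.one_lt_card
    omega
  have h0 := card_bad0 A hA hκ
  have h1 := card_bad1 (h := h) A
  have h2 := card_or (α := (Fin h → F) →ₗ[F] V)
    (fun u => ∃ z : (Fin h → F) × (Fin h → F), z ≠ 0 ∧ u z.1 + A (u z.2) = 0)
    (fun u => ∃ w : F × (Fin h → F), 3 * h + 10 ≤
      finrank F (LinearMap.ker ((A : V →ₗ[F] V) - w.1 • LinearMap.id)) ∧ w.2 ≠ 0 ∧
      u w.2 ∈ LinearMap.range ((A : V →ₗ[F] V) - w.1 • LinearMap.id))
  have h3 := card_not (α := (Fin h → F) →ₗ[F] V) (fun u => BadU A u)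
  have h4 : Nat.card {u : (Fin h → F) →ₗ[F] V // BadU A u} = Nat.card {u : (Fin h → F) →ₗ[F] V //
    (∃ z : (Fin h → F) × (Fin h → F), z ≠ 0 ∧ u z.1 + A (u z.2) = 0) ∨
    ∃ w : F × (Fin h → F), 3 * h + 10 ≤
      finrank F (LinearMap.ker ((A : V →ₗ[F] V) - w.1 • LinearMap.id)) ∧ w.2 ≠ 0 ∧
      u w.2 ∈ LinearMap.range ((A : V →ₗ[F] V) - w.1 • LinearMap.id)} := rfl
  have h5 : 1024 ≤ Nat.card F ^ 10 := (Nat.pow_le_pow_left hq 10)
  have h6 : 512 ≤ Nat.card F ^ 9 := (Nat.pow_le_pow_left hq 9)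
  have h7 := (Nat.mul_le_mul_left _ h5).trans h0
  have h8 := (Nat.mul_le_mul_left _ h6).trans h1
  omega

end U

/-! ### The maps `φ` -/

section Phi

variable {F V : Type} [Field F] [Finite F] [AddCommGroup V] [Module F V] [FiniteDimensional F V]

lemma surj1 {M W : Type} [AddCommGroup M] [Module F M] [AddCommGroup W] [Module F W] (j : M →ₗ[F] V) (hj : Function.Injective j) (α : M →ₗ[F] W) :
    ∃ φ : V →ₗ[F] W, φ ∘ₗ j = α := by
  obtain ⟨l, hl⟩ := LinearMap.exists_leftInverse_of_injective j (LinearMap.ker_eq_bot.2 hj)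
  exact ⟨α ∘ₗ l, by rw [LinearMap.comp_assoc, hl, LinearMap.comp_id]⟩

/-- a subspace of `E` of large dimension that meets the range of `j` trivially -/
lemma exC {M : Type} [AddCommGroup M] [Module F M] [FiniteDimensional F M] (j : M →ₗ[F] V)
    (hj : Function.Injective j) (E : Submodule F V) :
    ∃ C : Submodule F V, C ≤ E ∧ finrank F E ≤ finrank F C + finrank F M ∧
      Function.Injective (j.coprod C.subtype) := by
  obtain ⟨C, hC⟩ := Submodule.exists_isCompl ((LinearMap.range j).comap E.subtype)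
  refine ⟨C.map E.subtype, ?_, ?_, ?_⟩
  · rintro _ ⟨c, -, rfl⟩
    exact c.2
  · have h1 := Submodule.finrank_add_eq_of_isCompl hC
    have h2 : finrank F (C.map E.subtype) = finrank F C :=
      (Submodule.equivMapOfInjective E.subtype (Submodule.injective_subtype E) C).finrank_eq.symm
    have h3 : finrank F ((LinearMap.range j).comap E.subtype) ≤ finrank F (LinearMap.range j) := by
      refine LinearMap.finrank_le_finrank_of_injective
        (f := (E.subtype ∘ₗ ((LinearMap.range j).comap E.subtype).subtype).codRestrict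
          (LinearMap.range j) fun x => x.2) ?_
      intro x y hxy
      have := congrArg Subtype.val hxy
      exact Subtype.ext (Subtype.ext this)
    have h4 : finrank F (LinearMap.range j) = finrank F M := LinearMap.finrank_range_of_inj hj
    omega
  · rw [← LinearMap.ker_eq_bot, LinearMap.ker_eq_bot']
    rintro ⟨z, ⟨_, ⟨c, hc, rfl⟩⟩⟩ hz
    have h1 : j z + (c : V) = 0 := hz
    have h2 : c ∈ (LinearMap.range j).comap E.subtype := by
      refine ⟨-z, ?_⟩
      rw [map_neg]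
      exact neg_eq_of_add_eq_zero_right h1
    have h3 : c = 0 := by
      have := hC.disjoint.le_bot ⟨h2, hc⟩
      simpa using this
    subst h3
    have h4 : z = 0 := hj (by rw [map_zero]; simpa using h1)
    subst h4
    rfl

/-- the number of the `φ` with `φ j = c`, `φ E` in the kernel of a fixed functional -/
lemma cardPsi {M : Type} [AddCommGroup M] [Module F M] [FiniteDimensional F M] {h : ℕ}
    (j : M →ₗ[F] V) (hj : Function.Injective j) (E : Submodule F V)
    (c : M →ₗ[F] (Fin h → F)) (ψ : (Fin h → F) →ₗ[F] F) (hψ : ψ ≠ 0) (k : ℕ)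
    (hk : k + finrank F M ≤ finrank F E) :
    Nat.card {φ : V →ₗ[F] (Fin h → F) // φ ∘ₗ j = c ∧ ∀ e ∈ E, ψ (φ e) = 0} *
      Nat.card F ^ k ≤ Nat.card {φ : V →ₗ[F] (Fin h → F) // φ ∘ₗ j = c} := by
  classical
  have : Finite (V →ₗ[F] (Fin h → F)) := Module.finite_of_finite F
  have : Finite (M →ₗ[F] (Fin h → F)) := Module.finite_of_finite F
  have hq : 0 < Nat.card F := Nat.card_pos
  obtain ⟨C, hCE, hC, hi⟩ := exC j hj E
  let L : (V →ₗ[F] (Fin h → F)) →ₗ[F] (M →ₗ[F] (Fin h → F)) := LinearMap.lcomp F _ j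
  have hL : Function.Surjective L := by
    intro α
    obtain ⟨φ, hφ⟩ := surj1 j hj α
    exact ⟨φ, hφ⟩
  have h1 := fib L hL c
  let L2 : (V →ₗ[F] (Fin h → F)) →ₗ[F] (M →ₗ[F] (Fin h → F)) × (C →ₗ[F] F) :=
    { toFun := fun φ => (φ ∘ₗ j, ψ ∘ₗ φ ∘ₗ C.subtype)
      map_add' := fun φ φ' => by
        ext <;> simp
      map_smul' := fun a φ => by
        ext <;> simp }
  have hL2 : Function.Surjective L2 := by
    rintro ⟨α, β⟩
    obtain ⟨a₀, ha₀⟩ : ∃ a, ψ a ≠ 0 := by
      by_contra hcon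
      push Not at hcon
      exact hψ (LinearMap.ext hcon)
    obtain ⟨φ, hφ⟩ := surj1 (j.coprod C.subtype) hi
      (α.coprod ((LinearMap.toSpanSingleton F (Fin h → F) ((ψ a₀)⁻¹ • a₀)) ∘ₗ β))
    refine ⟨φ, Prod.ext ?_ ?_⟩
    · refine LinearMap.ext fun z => ?_
      have h2 := LinearMap.congr_fun hφ (z, 0)
      simpa [L2] using h2
    · refine LinearMap.ext fun z => ?_
      have h2 := LinearMap.congr_fun hφ (0, z)
      simp only [LinearMap.comp_apply, LinearMap.coprod_apply, map_zero, zero_add,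
        LinearMap.toSpanSingleton_apply] at h2
      change ψ (φ (C.subtype z)) = β z
      rw [h2]
      simp [ha₀]
  have h2 := fib L2 hL2 (c, 0)
  rw [Nat.card_prod, Module.natCard_eq_pow_finrank (K := F) (V := C →ₗ[F] F),
    Module.finrank_linearMap_self] at h2
  have h3 : Nat.card {φ : V →ₗ[F] (Fin h → F) // φ ∘ₗ j = c ∧ ∀ e ∈ E, ψ (φ e) = 0} ≤
      Nat.card {φ : V →ₗ[F] (Fin h → F) // L2 φ = (c, 0)} := by
    refine card_imp fun φ hφ => ?_
    refine Prod.ext hφ.1 (LinearMap.ext fun z => ?_)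
    exact hφ.2 z (hCE z.2)
  have h4 : 0 < Nat.card (M →ₗ[F] (Fin h → F)) := Nat.card_pos
  refine Nat.le_of_mul_le_mul_right ?_ h4
  have h5 : Nat.card {φ : V →ₗ[F] (Fin h → F) // L φ = c} =
      Nat.card {φ : V →ₗ[F] (Fin h → F) // φ ∘ₗ j = c} := rfl
  rw [← h5, h1, ← h2]
  calc _ ≤ Nat.card {φ : V →ₗ[F] (Fin h → F) // L2 φ = (c, 0)} * Nat.card F ^ finrank F C *
        Nat.card (M →ₗ[F] (Fin h → F)) :=
        Nat.mul_le_mul_right _ (Nat.mul_le_mul h3 (Nat.pow_le_pow_right hq (by omega)))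
    _ = _ := by ring

/-- the condition for `φ` -/
def BadP {h : ℕ} (A : GV F V) (φ : V →ₗ[F] (Fin h → F)) : Prop :=
  ∃ w : F × ((Fin h → F) →ₗ[F] F), 3 * h + 10 ≤
      finrank F (LinearMap.ker ((A : V →ₗ[F] V) - w.1 • LinearMap.id)) ∧ w.2 ≠ 0 ∧
      ∀ e ∈ LinearMap.ker ((A : V →ₗ[F] V) - w.1 • LinearMap.id), w.2 (φ e) = 0

lemma card_badP {h : ℕ} (A : GV F V) (j : (Fin h → F) × (Fin h → F) →ₗ[F] V)
    (hj : Function.Injective j) (c : (Fin h → F) × (Fin h → F) →ₗ[F] (Fin h → F)) :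
    511 * Nat.card {φ : V →ₗ[F] (Fin h → F) // φ ∘ₗ j = c} ≤
      512 * Nat.card {φ : V →ₗ[F] (Fin h → F) // φ ∘ₗ j = c ∧ ¬ BadP A φ} := by
  classical
  have : Finite (V →ₗ[F] (Fin h → F)) := Module.finite_of_finite F
  have : Finite ((Fin h → F) →ₗ[F] F) := Module.finite_of_finite F
  have hq0 : 0 < Nat.card F := Nat.card_pos
  have hq : 2 ≤ Nat.card F := by
    have : 1 < Nat.card F := Finite.one_lt_card
    omega
  have h1 := ub (α := {φ : V →ₗ[F] (Fin h → F) // φ ∘ₗ j = c})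
    (ι := F × ((Fin h → F) →ₗ[F] F))
    (fun w φ => 3 * h + 10 ≤
      finrank F (LinearMap.ker ((A : V →ₗ[F] V) - w.1 • LinearMap.id)) ∧ w.2 ≠ 0 ∧
      ∀ e ∈ LinearMap.ker ((A : V →ₗ[F] V) - w.1 • LinearMap.id), w.2 (φ.1 e) = 0)
    (Nat.card F ^ (h + 10))
    (Nat.card {φ : V →ₗ[F] (Fin h → F) // φ ∘ₗ j = c}) (by
      intro w
      by_cases hw : 3 * h + 10 ≤
        finrank F (LinearMap.ker ((A : V →ₗ[F] V) - w.1 • LinearMap.id)) ∧ w.2 ≠ 0
      · refine le_trans (Nat.mul_le_mul_right _ ?_)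
          (cardPsi j hj (LinearMap.ker ((A : V →ₗ[F] V) - w.1 • LinearMap.id)) c w.2 hw.2
            (h + 10) (by
              have h3 : finrank F ((Fin h → F) × (Fin h → F)) = h + h := by simp
              omega))
        refine Nat.card_le_card_of_injective (fun φ => ⟨φ.1.1, φ.1.2, φ.2.2.2⟩) ?_
        intro φ φ' hh
        exact Subtype.ext (Subtype.ext (by simpa using hh))
      · refine le_trans (le_of_eq ?_) (Nat.zero_le _)
        refine mul_eq_zero_of_left ?_ _
        rw [Nat.card_eq_zero]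
        left
        exact ⟨fun u => hw ⟨u.2.1, u.2.2.1⟩⟩)
  have h3 : Nat.card (F × ((Fin h → F) →ₗ[F] F)) = Nat.card F ^ (h + 1) := by
    rw [Nat.card_prod, Module.natCard_eq_pow_finrank (K := F) (V := (Fin h → F) →ₗ[F] F),
      Module.finrank_linearMap_self, pow_succ, mul_comm]
    simp
  rw [h3] at h1
  have h5 : Nat.card F ^ (h + 1) * 512 ≤ Nat.card F ^ (h + 10) := by
    rw [show h + 10 = (h + 1) + 9 by ring, pow_add _ (h + 1) 9]
    exact Nat.mul_le_mul_left _ (Nat.pow_le_pow_left hq 9)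
  have h6 : Nat.card {φ : {φ : V →ₗ[F] (Fin h → F) // φ ∘ₗ j = c} // BadP A φ.1} * 512 ≤
      Nat.card {φ : V →ₗ[F] (Fin h → F) // φ ∘ₗ j = c} := by
    refine Nat.le_of_mul_le_mul_left ?_ (Nat.pow_pos (n := h + 1) hq0)
    refine le_trans ?_ h1
    calc _ = Nat.card {φ : {φ : V →ₗ[F] (Fin h → F) // φ ∘ₗ j = c} // BadP A φ.1} *
        (Nat.card F ^ (h + 1) * 512) := by ring
      _ ≤ _ := Nat.mul_le_mul_left _ h5
  have h7 := card_not (α := {φ : V →ₗ[F] (Fin h → F) // φ ∘ₗ j = c}) (fun φ => BadP A φ.1)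
  have h8 : Nat.card {φ : {φ : V →ₗ[F] (Fin h → F) // φ ∘ₗ j = c} // ¬ BadP A φ.1} ≤
      Nat.card {φ : V →ₗ[F] (Fin h → F) // φ ∘ₗ j = c ∧ ¬ BadP A φ} := by
    refine Nat.card_le_card_of_injective (fun φ => ⟨φ.1.1, φ.1.2, φ.2⟩) ?_
    intro φ φ' hh
    exact Subtype.ext (Subtype.ext (by simpa using hh))
  omega

end Phi

/-! ### The eigenspaces of the Schur complement -/

section Eig

variable {F V : Type} [Field F] [AddCommGroup V] [Module F V] [FiniteDimensional F V]

lemma small {h κ κ' : ℕ} (A : GV F V) (hA : EL A κ) (hκ : κ ≤ κ' + h) (h4 : 4 * h + 10 ≤ κ')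
    (u : (Fin h → F) →ₗ[F] V) (φ : V →ₗ[F] (Fin h → F))
    (hu : ∀ μ : F, 3 * h + 10 ≤ finrank F (LinearMap.ker ((A : V →ₗ[F] V) - μ • LinearMap.id)) →
      ∀ x, u x ∈ LinearMap.range ((A : V →ₗ[F] V) - μ • LinearMap.id) → x = 0)
    (hp : ∀ μ : F, 3 * h + 10 ≤ finrank F (LinearMap.ker ((A : V →ₗ[F] V) - μ • LinearMap.id)) →
      ∀ ψ : (Fin h → F) →ₗ[F] F,
        (∀ e ∈ LinearMap.ker ((A : V →ₗ[F] V) - μ • LinearMap.id), ψ (φ e) = 0) → ψ = 0)
    (S : GV F (LinearMap.ker φ)) (hS : Sch A u φ S) : EL S κ' := by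
  intro μ
  set K := LinearMap.ker ((S : LinearMap.ker φ →ₗ[F] LinearMap.ker φ) - μ • LinearMap.id) with hK
  set E := LinearMap.ker ((A : V →ₗ[F] V) - μ • LinearMap.id) with hE
  have hKE : ∀ w : K, ∃ x : Fin h → F,
      ((A : V →ₗ[F] V) - μ • LinearMap.id : V →ₗ[F] V) ((w : LinearMap.ker φ) : V) =
        A (u x) := by
    intro w
    obtain ⟨x, hx⟩ := hS w.1
    refine ⟨x, ?_⟩
    have h1 := LinearMap.mem_ker.1 w.2
    have h2 : S w.1 = μ • w.1 := by
      have h3 : S w.1 - μ • w.1 = 0 := h1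
      exact sub_eq_zero.1 h3
    rw [h2] at hx
    have h3 : μ • ((w : LinearMap.ker φ) : V) = A ((w : LinearMap.ker φ) : V) - A (u x) := by
      rw [← map_sub]
      exact hx
    change A ((w : LinearMap.ker φ) : V) - μ • ((w : LinearMap.ker φ) : V) = A (u x)
    rw [h3]
    abel
  by_cases hb : 3 * h + 10 ≤ finrank F E
  · -- large eigenspaces
    have h1 : ∀ w : K, ((w : LinearMap.ker φ) : V) ∈ E := by
      intro w
      obtain ⟨x, hx⟩ := hKE w
      have h2 : u x ∈ LinearMap.range ((A : V →ₗ[F] V) - μ • LinearMap.id) := by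
        refine ⟨A.symm ((w : LinearMap.ker φ) : V), ?_⟩
        have h3 : A.symm (((A : V →ₗ[F] V) - μ • LinearMap.id : V →ₗ[F] V)
            ((w : LinearMap.ker φ) : V)) = A.symm (A (u x)) := by rw [hx]
        rw [LinearEquiv.symm_apply_apply] at h3
        rw [← h3]
        simp [map_sub]
      have h3 := hu μ hb x h2
      rw [h3, map_zero, map_zero] at hx
      exact hx
    -- `φ` is onto on `E`
    let g : E →ₗ[F] (Fin h → F) := φ ∘ₗ E.subtype
    have hg : LinearMap.range g = ⊤ := by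
      by_contra hcon
      obtain ⟨ψ, hψ, hle⟩ := Submodule.exists_le_ker_of_lt_top _ (lt_top_iff_ne_top.2 hcon)
      refine hψ (hp μ hb ψ fun e he => ?_)
      exact LinearMap.mem_ker.1 (hle ⟨⟨e, he⟩, rfl⟩)
    have h2 := LinearMap.finrank_range_add_finrank_ker g
    rw [hg, finrank_top, Module.finrank_fin_fun] at h2
    have h3 : finrank F K ≤ finrank F (LinearMap.ker g) := by
      refine LinearMap.finrank_le_finrank_of_injective
        (f := ((((LinearMap.ker φ).subtype ∘ₗ K.subtype).codRestrict E h1).codRestrict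
          (LinearMap.ker g) fun w => ?_)) ?_
      · exact LinearMap.mem_ker.1 (w : LinearMap.ker φ).2
      · intro x y hxy
        have := congrArg (fun z : LinearMap.ker g => ((z : E) : V)) hxy
        exact Subtype.ext (Subtype.ext this)
    have h5 := hA μ
    rw [← hE] at h5
    omega
  · -- small eigenspaces
    let g : K →ₗ[F] V := ((A : V →ₗ[F] V) - μ • LinearMap.id) ∘ₗ
      (LinearMap.ker φ).subtype ∘ₗ K.subtype
    have h1 := LinearMap.finrank_range_add_finrank_ker g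
    have h2 : finrank F (LinearMap.range g) ≤ h := by
      have h3 : LinearMap.range g ≤ LinearMap.range ((A : V →ₗ[F] V) ∘ₗ u) := by
        rintro _ ⟨w, rfl⟩
        obtain ⟨x, hx⟩ := hKE w
        exact ⟨x, hx.symm⟩
      refine (Submodule.finrank_mono h3).trans ((LinearMap.finrank_range_le _).trans ?_)
      simp
    have h3 : finrank F (LinearMap.ker g) ≤ finrank F E := by
      refine LinearMap.finrank_le_finrank_of_injective
        (f := (((LinearMap.ker φ).subtype ∘ₗ K.subtype ∘ₗ (LinearMap.ker g).subtype).codRestrict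
          E fun w => ?_)) ?_
      · exact LinearMap.mem_ker.1 w.2
      · intro x y hxy
        have := congrArg Subtype.val hxy
        exact Subtype.ext (Subtype.ext (Subtype.ext this))
    omega

end Eig

end ND

theorem t_ND : S_ND := by
  intro F V _ _ _ _ _ A h κ κ' T hh hA hκ hκ' h4
  classical
  have : Finite ((Fin h → F) →ₗ[F] V) := Module.finite_of_finite F
  have : Finite (V →ₗ[F] (Fin h → F)) := Module.finite_of_finite F
  have hq : 0 < Nat.card F := Nat.card_pos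
  have hn : 2 * h ≤ finrank F V := by omega
  have h1 := ND.card_badU (h := h) A hA hκ
  have hH1 : Nat.card ((Fin h → F) →ₗ[F] V) = Nat.card F ^ (h * finrank F V) := by
    rw [Module.natCard_eq_pow_finrank (K := F), Module.finrank_linearMap, Module.finrank_fin_fun]
  have hH2 : Nat.card (V →ₗ[F] (Fin h → F)) = Nat.card F ^ (h * finrank F V) := by
    rw [Module.natCard_eq_pow_finrank (K := F), Module.finrank_linearMap, Module.finrank_fin_fun,
      mul_comm]
  have hH3 : Nat.card ((Fin h → F) × (Fin h → F) →ₗ[F] (Fin h → F)) =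
      Nat.card F ^ (2 * h * h) := by
    have h0 : finrank F ((Fin h → F) × (Fin h → F)) = 2 * h := by simp [two_mul]
    rw [Module.natCard_eq_pow_finrank (K := F), Module.finrank_linearMap, h0,
      Module.finrank_fin_fun]
  -- the number of the `φ`
  have h2 : ∀ u : (Fin h → F) →ₗ[F] V, ¬ ND.BadU A u →
      511 * Nat.card F ^ (h * finrank F V) ≤
        Nat.card {φ : V →ₗ[F] (Fin h → F) //
          (∀ x, φ (u x) = x) ∧ (∀ x, φ (A (u x)) = T x) ∧ ¬ ND.BadP A φ} *
          (512 * Nat.card F ^ (2 * h * h)) := by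
    intro u hu
    let j : (Fin h → F) × (Fin h → F) →ₗ[F] V := u.coprod ((A : V →ₗ[F] V) ∘ₗ u)
    have hj : Function.Injective j := by
      rw [← LinearMap.ker_eq_bot, LinearMap.ker_eq_bot']
      intro z hz
      by_contra hz0
      exact hu (Or.inl ⟨z, hz0, hz⟩)
    let c : (Fin h → F) × (Fin h → F) →ₗ[F] (Fin h → F) := LinearMap.id.coprod T
    have h3 := ND.card_badP A j hj c
    have hL : Function.Surjective (LinearMap.lcomp F (Fin h → F) j) := by
      intro α
      obtain ⟨φ, hφ⟩ := ND.surj1 j hj α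
      exact ⟨φ, hφ⟩
    have h5 := ND.fib (LinearMap.lcomp F (Fin h → F) j) hL c
    have h6 : Nat.card {φ : V →ₗ[F] (Fin h → F) // LinearMap.lcomp F (Fin h → F) j φ = c} =
      Nat.card {φ : V →ₗ[F] (Fin h → F) // φ ∘ₗ j = c} := rfl
    rw [h6, hH2, hH3] at h5
    have h7 : Nat.card {φ : V →ₗ[F] (Fin h → F) // φ ∘ₗ j = c ∧ ¬ ND.BadP A φ} ≤
        Nat.card {φ : V →ₗ[F] (Fin h → F) //
          (∀ x, φ (u x) = x) ∧ (∀ x, φ (A (u x)) = T x) ∧ ¬ ND.BadP A φ} := by
      refine ND.card_imp fun φ hφ => ⟨fun x => ?_, fun x => ?_, hφ.2⟩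
      · have := LinearMap.congr_fun hφ.1 (x, 0)
        simpa [j, c] using this
      · have := LinearMap.congr_fun hφ.1 (0, x)
        simpa [j, c] using this
    rw [← h5]
    calc _ = (511 * Nat.card {φ : V →ₗ[F] (Fin h → F) // φ ∘ₗ j = c}) *
          Nat.card F ^ (2 * h * h) := by ring
      _ ≤ (512 * Nat.card {φ : V →ₗ[F] (Fin h → F) // φ ∘ₗ j = c ∧ ¬ ND.BadP A φ}) *
          Nat.card F ^ (2 * h * h) := Nat.mul_le_mul_right _ h3
      _ ≤ (512 * Nat.card {φ : V →ₗ[F] (Fin h → F) //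
          (∀ x, φ (u x) = x) ∧ (∀ x, φ (A (u x)) = T x) ∧ ¬ ND.BadP A φ}) *
          Nat.card F ^ (2 * h * h) := Nat.mul_le_mul_right _ (Nat.mul_le_mul_left _ h7)
      _ = _ := by ring
  have h3 := ND.card_pairs (fun u : (Fin h → F) →ₗ[F] V => ¬ ND.BadU A u)
    (fun u φ => (∀ x, φ (u x) = x) ∧ (∀ x, φ (A (u x)) = T x) ∧ ¬ ND.BadP A φ)
    (fun z : ((Fin h → F) →ₗ[F] V) × (V →ₗ[F] (Fin h → F)) =>
        (∀ x, z.2 (z.1 x) = x) ∧ (∀ x, z.2 (A (z.1 x)) = T x) ∧
        ∀ S : GV F (LinearMap.ker z.2), Sch A z.1 z.2 S → EL S κ')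
    (511 * Nat.card F ^ (h * finrank F V)) (512 * Nat.card F ^ (2 * h * h))
    (by
      intro u φ hu hφ
      refine ⟨hφ.1, hφ.2.1, fun S hS => ?_⟩
      refine ND.small A hA hκ' h4 u φ ?_ ?_ S hS
      · intro μ hμ x hx
        by_contra hx0
        exact hu (Or.inr ⟨(μ, x), hμ, hx0, hx⟩)
      · intro μ hμ ψ hψ
        by_contra hψ0
        exact hφ.2.2 ⟨(μ, ψ), hμ, hψ0, hψ⟩)
    h2
  set G := Nat.card {z : ((Fin h → F) →ₗ[F] V) × (V →ₗ[F] (Fin h → F)) //
        (∀ x, z.2 (z.1 x) = x) ∧ (∀ x, z.2 (A (z.1 x)) = T x) ∧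
        ∀ S : GV F (LinearMap.ker z.2), Sch A z.1 z.2 S → EL S κ'} with hG
  set U := Nat.card {u : (Fin h → F) →ₗ[F] V // ¬ ND.BadU A u} with hU
  rw [hH1] at h1
  set Q := Nat.card F ^ (h * finrank F V) with hQ
  set R := Nat.card F ^ (2 * h * h) with hR
  have hR0 : 0 < R := Nat.pow_pos hq
  have h5 : Nat.card F ^ (2 * h * (finrank F V - h)) * R = Q * Q := by
    rw [hR, hQ, ← pow_add, ← pow_add]
    congr 1
    obtain ⟨m, hm⟩ := Nat.exists_eq_add_of_le (show h ≤ finrank F V by omega)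
    rw [hm, Nat.add_sub_cancel_left]
    ring
  refine Nat.le_of_mul_le_mul_right ?_ hR0
  rw [h5]
  -- `255 Q ≤ 256 U`, `U (511 Q) ≤ G (512 R)`
  have h6 : 255 * Q * (511 * Q) ≤ 256 * (G * (512 * R)) := by
    calc 255 * Q * (511 * Q) ≤ 256 * U * (511 * Q) := Nat.mul_le_mul_right _ h1
      _ = 256 * (U * (511 * Q)) := by ring
      _ ≤ 256 * (G * (512 * R)) := Nat.mul_le_mul_left _ h3
  have h7 : 130305 * (Q * Q) ≤ 131072 * (G * R) := by
    calc 130305 * (Q * Q) = 255 * Q * (511 * Q) := by ring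
      _ ≤ 256 * (G * (512 * R)) := h6
      _ = 131072 * (G * R) := by ring
  have h8 : 2 * G * R = 2 * (G * R) := by ring
  rw [h8]
  omega

end RSF
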