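import Pool.Agent.RSF.Stmts4

/-!
# Module NG: from factorisations with conjugate factors to commutators in SL
-/

namespace RSF

open Polynomial

noncomputable section

namespace NG

section basic

variable {F : Type} [Field F] {n : ℕ}

/-- a matrix of determinant one as an invertible endomorphism -/
def tG (A : Matrix.SpecialLinearGroup (Fin n) F) : GV F (Fin n → F) :=
  Matrix.SpecialLinearGroup.toLin' A

theorem tG_mul (A B : Matrix.SpecialLinearGroup (Fin n) F) : tG (A * B) = tG A * tG B :=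
  map_mul _ _ _

theorem tG_inv (A : Matrix.SpecialLinearGroup (Fin n) F) : tG A⁻¹ = (tG A)⁻¹ :=
  map_inv _ _

theorem tG_inj : Function.Injective (tG : Matrix.SpecialLinearGroup (Fin n) F → _) :=
  Matrix.SpecialLinearGroup.toLin'_injective

theorem tG_lin (A : Matrix.SpecialLinearGroup (Fin n) F) :
    ((tG A : GV F (Fin n → F)) : (Fin n → F) →ₗ[F] (Fin n → F)) = Matrix.toLin' A.1 :=
  Matrix.SpecialLinearGroup.toLin'_to_linearMap A

theorem dt_tG (A : Matrix.SpecialLinearGroup (Fin n) F) : dt (tG A) = 1 := by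
  unfold dt
  rw [tG_lin, LinearMap.det_toLin']
  exact A.2

theorem dt_mul (a b : GV F (Fin n → F)) : dt (a * b) = dt a * dt b := by
  unfold dt
  have : ((a * b : GV F (Fin n → F)) : (Fin n → F) →ₗ[F] (Fin n → F)) =
      (a : (Fin n → F) →ₗ[F] (Fin n → F)) * (b : (Fin n → F) →ₗ[F] (Fin n → F)) := rfl
  rw [this, map_mul]

theorem dt_one : dt (1 : GV F (Fin n → F)) = 1 := by
  unfold dt
  have : ((1 : GV F (Fin n → F)) : (Fin n → F) →ₗ[F] (Fin n → F)) = 1 := rfl
  rw [this, map_one]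

theorem dt_inv_mul (a : GV F (Fin n → F)) : dt a⁻¹ * dt a = 1 := by
  rw [← dt_mul, inv_mul_cancel, dt_one]

theorem dt_ne (a : GV F (Fin n → F)) : dt a ≠ 0 := by
  intro h
  have := dt_inv_mul a
  rw [h, mul_zero] at this
  exact zero_ne_one this

theorem exists_tG (B : GV F (Fin n → F)) (hB : dt B = 1) :
    ∃ A : Matrix.SpecialLinearGroup (Fin n) F, tG A = B := by
  refine ⟨⟨LinearMap.toMatrix' (B : (Fin n → F) →ₗ[F] (Fin n → F)), ?_⟩, ?_⟩
  · rw [LinearMap.det_toMatrix']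
    exact hB
  · apply LinearEquiv.toLinearMap_injective
    rw [tG_lin]
    exact Matrix.toLin'_toMatrix' _

theorem tG_pw (e : Bool) (x : Matrix.SpecialLinearGroup (Fin n) F) :
    tG (pw e x) = pw e (tG x) := by
  unfold pw
  split_ifs
  · rfl
  · exact tG_inv x

end basic

section count

variable {F : Type} [Field F] [Finite F] {n : ℕ}

instance : Finite (GV F (Fin n → F)) :=
  Finite.of_injective (fun (f : GV F (Fin n → F)) => (f : (Fin n → F) → (Fin n → F)))
    (fun _ _ h => LinearEquiv.ext fun x => congrFun h x)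

instance : Finite (Matrix.SpecialLinearGroup (Fin n) F) :=
  Finite.of_injective (fun x => x.1) (fun _ _ h => Subtype.ext h)

/-- the elements of determinant one conjugating `x` to `C` -/
def GBC (x C : GV F (Fin n → F)) : Type :=
  {g : GV F (Fin n → F) // g * x * g⁻¹ = C ∧ dt g = 1}

instance (x C : GV F (Fin n → F)) : Finite (GBC x C) :=
  inferInstanceAs (Finite {g : GV F (Fin n → F) // g * x * g⁻¹ = C ∧ dt g = 1})

omit [Finite F] in
theorem comm_pw (e : Bool) {B w : GV F (Fin n → F)} (h : Commute w B) : Commute w (pw e B) := by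
  unfold pw
  split_ifs
  · exact h
  · exact h.inv_right

theorem cz_le (e : Bool) (B C : GV F (Fin n → F)) (hC : IsConj (pw e B) C) (hD : DS B) :
    cz B ≤ Nat.card (GBC (pw e B) C) * Nat.card Fˣ := by
  classical
  obtain ⟨g0, hg0⟩ := isConj_iff.1 hC
  choose w hw1 hw2 using hD
  unfold cz
  rw [← Nat.card_prod]
  have hne : ∀ v : GV F (Fin n → F), (dt (g0 * v))⁻¹ ≠ 0 := fun v => inv_ne_zero (dt_ne _)
  refine Nat.card_le_card_of_injective
    (fun v : {v : GV F (Fin n → F) // Commute v B} =>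
      ((⟨g0 * v.1 * w (dt (g0 * v.1))⁻¹ (hne v.1), ?_, ?_⟩ : GBC (pw e B) C),
        Units.mk0 (dt (g0 * v.1))⁻¹ (hne v.1))) ?_
  · have hc : Commute (v.1 * w (dt (g0 * v.1))⁻¹ (hne v.1)) (pw e B) :=
      comm_pw e (v.2.mul_left (hw1 _ _))
    have hc2 := hc.eq
    set u := v.1 * w (dt (g0 * v.1))⁻¹ (hne v.1) with hu
    have h1 : g0 * v.1 * w (dt (g0 * v.1))⁻¹ (hne v.1) = g0 * u := by rw [hu, mul_assoc]
    rw [h1, mul_inv_rev]
    calc g0 * u * pw e B * (u⁻¹ * g0⁻¹) = g0 * (u * pw e B) * u⁻¹ * g0⁻¹ := by group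
      _ = g0 * (pw e B * u) * u⁻¹ * g0⁻¹ := by rw [hc2]
      _ = g0 * pw e B * g0⁻¹ := by group
      _ = C := hg0
  · rw [dt_mul, hw2]
    exact mul_inv_cancel₀ (dt_ne _)
  · intro v v' h
    simp only [Prod.mk.injEq] at h
    obtain ⟨h1, h2⟩ := h
    have h3 : (dt (g0 * v.1))⁻¹ = (dt (g0 * v'.1))⁻¹ := by
      have := congrArg (fun z : Fˣ => (z : F)) h2
      simpa using this
    have h4 : g0 * v.1 * w (dt (g0 * v.1))⁻¹ (hne v.1) =
        g0 * v'.1 * w (dt (g0 * v'.1))⁻¹ (hne v'.1) := congrArg Subtype.val h1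
    have h5 : w (dt (g0 * v.1))⁻¹ (hne v.1) = w (dt (g0 * v'.1))⁻¹ (hne v'.1) := by
      congr 1
    rw [h5] at h4
    apply Subtype.ext
    exact mul_left_cancel (mul_right_cancel h4)

theorem fc_le (e : Bool) (D Z : ℕ) (A : Matrix.SpecialLinearGroup (Fin n) F) :
    Fc e D Z (tG A) * Z ≤
      Nat.card {z : Matrix.SpecialLinearGroup (Fin n) F × Matrix.SpecialLinearGroup (Fin n) F //
        z.1 * (z.2 * pw e z.1 * z.2⁻¹) = A} * Nat.card Fˣ := by
  classical
  set P := {z : GV F (Fin n → F) × GV F (Fin n → F) // z.1 * z.2 = tG A ∧ dt z.1 = 1 ∧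
    IsConj (pw e z.1) z.2 ∧ Dg z.1 D ∧ DS z.1 ∧ Z ≤ cz z.1} with hP
  have h1 : Nat.card (Σ z : P, GBC (pw e z.1.1) z.1.2) ≤
      Nat.card {z : Matrix.SpecialLinearGroup (Fin n) F × Matrix.SpecialLinearGroup (Fin n) F //
        z.1 * (z.2 * pw e z.1 * z.2⁻¹) = A} := by
    have hex : ∀ s : (Σ z : P, GBC (pw e z.1.1) z.1.2),
        ∃ y : {z : Matrix.SpecialLinearGroup (Fin n) F × Matrix.SpecialLinearGroup (Fin n) F //
        z.1 * (z.2 * pw e z.1 * z.2⁻¹) = A}, tG y.1.1 = s.1.1.1 ∧ tG y.1.2 = s.2.1 := by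
      rintro ⟨⟨⟨B, C⟩, hBC, hB, -⟩, ⟨g, hg, hg1⟩⟩
      obtain ⟨b, hb⟩ := exists_tG B hB
      obtain ⟨c, hc⟩ := exists_tG g hg1
      refine ⟨⟨⟨b, c⟩, ?_⟩, hb, hc⟩
      apply tG_inj
      simp only at hg hBC ⊢
      rw [tG_mul, tG_mul, tG_mul, tG_inv, tG_pw, hb, hc, hg, hBC]
    choose f hf1 hf2 using hex
    refine Nat.card_le_card_of_injective f ?_
    intro s t hst
    have e1 : s.1.1.1 = t.1.1.1 := by rw [← hf1, ← hf1, hst]
    have e2 : s.2.1 = t.2.1 := by rw [← hf2, ← hf2, hst]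
    clear hst hf1 hf2 f
    obtain ⟨⟨⟨B, C⟩, hs⟩, ⟨g, hg⟩⟩ := s
    obtain ⟨⟨⟨B', C'⟩, hs'⟩, ⟨g', hg'⟩⟩ := t
    simp only at e1 e2
    subst e1 e2
    have e3 : C = C' := hg.1.symm.trans hg'.1
    subst e3
    rfl
  refine le_trans ?_ (Nat.mul_le_mul_right _ h1)
  have : Fintype P := Fintype.ofFinite P
  rw [Nat.card_sigma, Finset.sum_mul]
  have h2 : Fc e D Z (tG A) = Fintype.card P := by
    unfold Fc
    exact Nat.card_eq_fintype_card
  rw [h2, ← Finset.card_univ, ← smul_eq_mul, ← Finset.sum_const]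
  refine Finset.sum_le_sum fun z _ => ?_
  exact z.2.2.2.2.2.2.trans (cz_le e _ _ z.2.2.2.1 z.2.2.2.2.2.1)

theorem sl_le (B : GV F (Fin n → F)) (hD : DS B) :
    Nat.card (Matrix.SpecialLinearGroup (Fin n) F) * Nat.card Fˣ ≤
      Nat.card (GV F (Fin n → F)) := by
  choose w hw1 hw2 using hD
  rw [← Nat.card_prod]
  refine Nat.card_le_card_of_injective
    (fun z : Matrix.SpecialLinearGroup (Fin n) F × Fˣ => tG z.1 * w z.2.1 z.2.ne_zero) ?_
  rintro ⟨s, δ⟩ ⟨t, γ⟩ h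
  simp only at h
  have h1 : δ = γ := by
    have := congrArg dt h
    rw [dt_mul, dt_mul, dt_tG, dt_tG, hw2, hw2, one_mul, one_mul] at this
    exact Units.ext this
  subst h1
  rw [tG_inj (mul_right_cancel h)]

end count

theorem arith (n s L : ℕ) : 1024 + s + (n + s * (3 + L) + 2 ^ 20) ≤ 2 ^ 21 + s * (4 + L) + n := by
  have h1 : s * (4 + L) = s * (3 + L) + s := by ring
  generalize s * (4 + L) = x at h1 ⊢
  generalize s * (3 + L) = y at h1 ⊢
  have h2 : (1024 : ℕ) + 2 ^ 20 ≤ 2 ^ 21 := by norm_num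
  generalize (2 : ℕ) ^ 20 = u at h2 ⊢
  generalize (2 : ℕ) ^ 21 = v at h2 ⊢
  omega

end NG

open NG in
theorem t_NG : M_NG := by
  intro hMA F _ _ n e hn A hA
  classical
  set q := Nat.card F with hq
  have hq1 : 1 ≤ q := Nat.card_pos
  set N := Nat.card {z : Matrix.SpecialLinearGroup (Fin n) F × Matrix.SpecialLinearGroup (Fin n) F //
        z.1 * (z.2 * pw e z.1 * z.2⁻¹) = A} with hN
  have hfin : Module.finrank F (Fin n → F) = n := by simp
  have hEL : EL (tG A) (kap n ((n + 3) / 4)) := by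
    intro μ
    rw [tG_lin]
    refine (hA μ).trans ?_
    unfold kap
    refine le_trans ?_ (le_max_left _ _)
    omega
  have h1 := hMA F (Fin n → F) e (tG A) n ((n + 3) / 4) n hfin (by omega) (by omega) (by omega)
    (by omega) (dt_tG A) hEL
  set Z := q ^ (n - 1024 - st n) with hZ
  obtain ⟨K, hK⟩ : ∃ K : ℕ, K = n + st n * (3 + Nat.log 2 n) + 2 ^ 20 := ⟨_, rfl⟩
  rw [← hK] at h1
  have h2 : Fc e n Z (tG A) * Z ≤ N * Nat.card Fˣ := fc_le e n Z A
  have hpos : 0 < Nat.card (GV F (Fin n → F)) := Nat.card_pos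
  have hFc : 0 < Fc e n Z (tG A) := by
    by_contra h0
    have : Fc e n Z (tG A) = 0 := by omega
    rw [this, mul_zero] at h1
    omega
  have hex : ∃ B : GV F (Fin n → F), DS B := by
    unfold Fc at hFc
    obtain ⟨⟨⟨z, hz⟩⟩, -⟩ := Nat.card_pos_iff.1 hFc
    exact ⟨z.1, hz.2.2.2.2.1⟩
  obtain ⟨B, hB⟩ := hex
  have h3 := sl_le B hB
  have hu : 0 < Nat.card Fˣ := Nat.card_pos
  set S := Nat.card (Matrix.SpecialLinearGroup (Fin n) F) with hS
  have h4 : S * Z ≤ q ^ K * N := by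
    refine Nat.le_of_mul_le_mul_right (c := Nat.card Fˣ) ?_ hu
    calc S * Z * Nat.card Fˣ = (S * Nat.card Fˣ) * Z := by ring
      _ ≤ Nat.card (GV F (Fin n → F)) * Z := Nat.mul_le_mul_right _ h3
      _ ≤ (q ^ K * Fc e n Z (tG A)) * Z := Nat.mul_le_mul_right _ h1
      _ = q ^ K * (Fc e n Z (tG A) * Z) := by ring
      _ ≤ q ^ K * (N * Nat.card Fˣ) := Nat.mul_le_mul_left _ h2
      _ = q ^ K * N * Nat.card Fˣ := by ring
  have hKg : 1024 + st n + K ≤ gx n + n := by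
    rw [hK]
    exact arith n (st n) (Nat.log 2 n)
  have h5 : q ^ n ≤ q ^ (1024 + st n) * Z := by
    rw [hZ, ← pow_add]
    exact Nat.pow_le_pow_right hq1 (by omega)
  have h6 : S * q ^ n ≤ (q ^ gx n * N) * q ^ n := by
    calc S * q ^ n ≤ S * (q ^ (1024 + st n) * Z) := Nat.mul_le_mul_left _ h5
      _ = q ^ (1024 + st n) * (S * Z) := by ring
      _ ≤ q ^ (1024 + st n) * (q ^ K * N) := Nat.mul_le_mul_left _ h4
      _ = q ^ (1024 + st n + K) * N := by rw [pow_add]; ring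
      _ ≤ q ^ (gx n + n) * N := by
          exact Nat.mul_le_mul_right _ (Nat.pow_le_pow_right hq1 hKg)
      _ = (q ^ gx n * N) * q ^ n := by rw [pow_add]; ring
  exact Nat.le_of_mul_le_mul_right h6 (pow_pos (by omega) n)

end

end RSF
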