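import Pool.Agent.RSF.Stmts4

/-!
# The number of pairs `(a, c)`

The proof of `S_NI`: `K` is the field with `q ^ h` elements; the pairs (isomorphism `F^h → K`, element `β`
of norm `1` and degree `h`) are counted by the maps `a`.
-/

namespace RSF

open Polynomial

noncomputable section

namespace NI

/-- counting with bounded fibres -/
theorem card_le {α β : Type} [Finite α] [Finite β] (f : α → β) (n : ℕ)
    (hf : ∀ b, Nat.card {a : α // f a = b} ≤ n) : Nat.card α ≤ n * Nat.card β := by
  classical
  have : Fintype α := Fintype.ofFinite α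
  have : Fintype β := Fintype.ofFinite β
  rw [Nat.card_eq_fintype_card, Nat.card_eq_fintype_card, ← Finset.card_univ, ← Finset.card_univ]
  apply Finset.card_le_mul_card_image_of_maps_to (f := f) (fun a _ => Finset.mem_univ _)
  intro b _
  have h1 := hf b
  rw [Nat.card_eq_fintype_card, Fintype.card_subtype] at h1
  exact h1

theorem geom (q : ℕ) (hq : 2 ≤ q) (k : ℕ) : ∑ d ∈ Finset.range (k + 1), q ^ d ≤ q ^ (k + 1) := by
  induction k with
  | zero => simp; omega
  | succ k ih =>
    rw [Finset.sum_range_succ]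
    have : q ^ (k + 1 + 1) = q ^ (k + 1) * q := pow_succ _ _
    nlinarith [pow_pos (show 0 < q by omega) (k + 1)]

section
variable {F K : Type} [Field F] [Field K] [Algebra F K] [Finite F] [Finite K]

/-- elements of norm one -/
theorem norm_count (h : ℕ) (hK : Nat.card K = Nat.card F ^ h) :
    Nat.card {β : K // Algebra.norm F β = 1} * (Nat.card F - 1) = Nat.card F ^ h - 1 := by
  let N : Kˣ →* Fˣ := Units.map (Algebra.norm F)
  have hN : Function.Surjective N := by
    intro u
    obtain ⟨z, hz⟩ := FiniteField.norm_surjective F K (u : F)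
    have hz0 : z ≠ 0 := by
      rintro rfl
      rw [Algebra.norm_zero] at hz
      exact u.ne_zero hz.symm
    refine ⟨Units.mk0 z hz0, Units.ext ?_⟩
    exact hz
  have h1 : Nat.card Kˣ = Nat.card Fˣ * Nat.card N.ker := by
    rw [Subgroup.card_eq_card_quotient_mul_card_subgroup N.ker]
    congr 1
    exact Nat.card_congr (QuotientGroup.quotientKerEquivOfSurjective N hN).toEquiv
  have h2 : Nat.card N.ker = Nat.card {β : K // Algebra.norm F β = 1} := by
    refine Nat.card_congr
      { toFun := fun z => ⟨(z : Kˣ), ?_⟩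
        invFun := fun β => ⟨Units.mk0 β.1 ?_, ?_⟩
        left_inv := ?_
        right_inv := ?_ }
    · have := congrArg (fun u : Fˣ => (u : F)) (MonoidHom.mem_ker.1 z.2)
      exact this
    · intro h0
      have := β.2
      rw [h0, Algebra.norm_zero] at this
      exact zero_ne_one this
    · rw [MonoidHom.mem_ker]
      exact Units.ext β.2
    · intro z
      ext
      rfl
    · intro z
      ext
      rfl
  rw [Nat.card_units, Nat.card_units, h2, hK] at h1
  rw [h1, mul_comm]

/-- elements of small degree -/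
theorem low_pow (h : ℕ) (hh : Module.finrank F K = h) (β : K)
    (hβ : (minpoly F β).natDegree ≠ h) :
    ∃ d ∈ Finset.Icc 1 (h / 2), β ^ (Nat.card F ^ d) = β := by
  have : FiniteDimensional F K := Module.Finite.of_finite
  have hint : IsIntegral F β := Algebra.IsIntegral.isIntegral β
  have hfin : Module.finrank F (IntermediateField.adjoin F {β}) = (minpoly F β).natDegree :=
    IntermediateField.adjoin.finrank hint
  have hd : (minpoly F β).natDegree ∣ h := by
    rw [← hh, ← hfin]
    exact ⟨_, (Module.finrank_mul_finrank F (IntermediateField.adjoin F {β}) K).symm⟩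
  have hh0 : 0 < h := by rw [← hh]; exact Module.finrank_pos
  have hpos : 0 < (minpoly F β).natDegree := minpoly.natDegree_pos hint
  obtain ⟨c, hc⟩ := hd
  have hc2 : 2 ≤ c := by
    rcases c with _ | _ | c
    · simp at hc; omega
    · exfalso; apply hβ; rw [hc]; simp
    · omega
  refine ⟨(minpoly F β).natDegree, ?_, ?_⟩
  · rw [Finset.mem_Icc]
    have : (minpoly F β).natDegree * 2 ≤ h := by
      conv_rhs => rw [hc]
      exact Nat.mul_le_mul_left _ hc2
    omega
  · have hcard : Nat.card (IntermediateField.adjoin F {β}) = Nat.card F ^ (minpoly F β).natDegree := by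
      rw [← hfin]
      exact Module.natCard_eq_pow_finrank
    have : Fintype (IntermediateField.adjoin F {β}) := Fintype.ofFinite _
    have h1 := FiniteField.pow_card (K := IntermediateField.adjoin F {β})
      (⟨β, IntermediateField.mem_adjoin_simple_self F β⟩)
    rw [← Nat.card_eq_fintype_card, hcard] at h1
    have h2 := congrArg (fun z : IntermediateField.adjoin F {β} => (z : K)) h1
    simpa using h2

omit [Finite F] [Algebra F K] [Field F] [Finite K] in
/-- roots of `X ^ m - X` -/
theorem root_count [Fintype K] [DecidableEq K] (m : ℕ) (hm : 1 < m) :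
    (Finset.univ.filter fun β : K => β ^ m = β).card ≤ m := by
  have hne : (X ^ m - X : K[X]) ≠ 0 := FiniteField.X_pow_card_sub_X_ne_zero K hm
  have hdeg : (X ^ m - X : K[X]).natDegree = m := FiniteField.X_pow_card_sub_X_natDegree_eq K hm
  have h1 : (Finset.univ.filter fun β : K => β ^ m = β) = (X ^ m - X : K[X]).roots.toFinset := by
    ext β
    rw [Finset.mem_filter, Multiset.mem_toFinset, mem_roots hne, IsRoot.def, eval_sub, eval_pow,
      eval_X, sub_eq_zero]
    simp
  rw [h1]
  calc _ ≤ (X ^ m - X : K[X]).roots.card := Multiset.toFinset_card_le _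
    _ ≤ _ := Polynomial.card_roots' _
    _ = m := hdeg

theorem low_count [Fintype K] [DecidableEq K] (h : ℕ) (hh : Module.finrank F K = h) :
    (Finset.univ.filter fun β : K => (minpoly F β).natDegree ≠ h).card ≤
      Nat.card F ^ (h / 2 + 1) := by
  have hq : 2 ≤ Nat.card F := Finite.one_lt_card
  have hsub : (Finset.univ.filter fun β : K => (minpoly F β).natDegree ≠ h) ⊆
      (Finset.Icc 1 (h / 2)).biUnion fun d =>
        Finset.univ.filter fun β : K => β ^ (Nat.card F ^ d) = β := by
    intro β hβ
    rw [Finset.mem_filter] at hβ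
    obtain ⟨d, hd, hd2⟩ := low_pow h hh β hβ.2
    rw [Finset.mem_biUnion]
    exact ⟨d, hd, Finset.mem_filter.2 ⟨Finset.mem_univ _, hd2⟩⟩
  calc _ ≤ _ := Finset.card_le_card hsub
    _ ≤ ∑ d ∈ Finset.Icc 1 (h / 2), (Finset.univ.filter fun β : K => β ^ (Nat.card F ^ d) = β).card :=
      Finset.card_biUnion_le
    _ ≤ ∑ d ∈ Finset.Icc 1 (h / 2), Nat.card F ^ d := by
      apply Finset.sum_le_sum
      intro d hd
      apply root_count
      rw [Finset.mem_Icc] at hd
      calc 1 < Nat.card F ^ 1 := by rw [pow_one]; omega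
        _ ≤ Nat.card F ^ d := Nat.pow_le_pow_right (by omega) hd.1
    _ ≤ ∑ d ∈ Finset.range (h / 2 + 1), Nat.card F ^ d := by
      apply Finset.sum_le_sum_of_subset
      intro d hd
      rw [Finset.mem_Icc] at hd
      rw [Finset.mem_range]
      omega
    _ ≤ _ := geom _ hq _

/-- elements of norm one and degree `h` -/
theorem good_count (h : ℕ) (hh : Module.finrank F K = h) (h6 : 6 ≤ h) :
    Nat.card F ^ (h - 1) ≤
      Nat.card {β : K // Algebra.norm F β = 1 ∧ (minpoly F β).natDegree = h} := by
  classical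
  have : Fintype K := Fintype.ofFinite K
  have hq : 2 ≤ Nat.card F := Finite.one_lt_card
  have hK : Nat.card K = Nat.card F ^ h := by
    rw [← hh]
    exact Module.natCard_eq_pow_finrank
  have h1 := norm_count (F := F) (K := K) h hK
  have h2 := low_count (F := F) (K := K) h hh
  rw [Nat.card_eq_fintype_card, Fintype.card_subtype] at h1
  rw [Nat.card_eq_fintype_card (α := {β : K // Algebra.norm F β = 1 ∧ (minpoly F β).natDegree = h}),
    Fintype.card_subtype]
  have h3 : (Finset.univ.filter fun β : K => Algebra.norm F β = 1) ⊆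
      (Finset.univ.filter fun β : K => Algebra.norm F β = 1 ∧ (minpoly F β).natDegree = h) ∪
      (Finset.univ.filter fun β : K => (minpoly F β).natDegree ≠ h) := by
    intro β hβ
    rw [Finset.mem_filter] at hβ
    rw [Finset.mem_union, Finset.mem_filter, Finset.mem_filter]
    by_cases h0 : (minpoly F β).natDegree = h
    · exact Or.inl ⟨Finset.mem_univ _, hβ.2, h0⟩
    · exact Or.inr ⟨Finset.mem_univ _, h0⟩
  have h4 := (Finset.card_le_card h3).trans (Finset.card_union_le _ _)
  set R := (Finset.univ.filter fun β : K => Algebra.norm F β = 1).card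
  set B := (Finset.univ.filter fun β : K => Algebra.norm F β = 1 ∧ (minpoly F β).natDegree = h).card
  set L := (Finset.univ.filter fun β : K => (minpoly F β).natDegree ≠ h).card
  obtain ⟨k, rfl⟩ : ∃ k, h = k + 2 := ⟨h - 2, by omega⟩
  obtain ⟨q, hq2⟩ : ∃ q, Nat.card F = q + 1 := ⟨Nat.card F - 1, by omega⟩
  rw [hq2] at h1 h2 ⊢
  have h5 : (q + 1) ^ ((k + 2) / 2 + 1) ≤ (q + 1) ^ k := Nat.pow_le_pow_right (by omega) (by omega)
  have e1 : k + 2 - 1 = k + 1 := by omega
  rw [e1]
  have h6 : (q + 1) ^ (k + 1) + (q + 1) ^ k ≤ R := by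
    have hq0 : 0 < q := by omega
    apply Nat.le_of_mul_le_mul_right _ hq0
    have e2 : q + 1 - 1 = q := by omega
    rw [e2] at h1
    rw [h1]
    have h7 : 1 ≤ (q + 1) ^ k := Nat.one_le_pow _ _ (by omega)
    have h8 : (q + 1) ^ (k + 2) = (q + 1) ^ k * (q + 1) * (q + 1) := by ring
    have h9 : ((q + 1) ^ (k + 1) + (q + 1) ^ k) * q + (q + 1) ^ k = (q + 1) ^ (k + 2) := by ring
    omega
  omega

end

/-! ## The pairs -/

section
variable {F K V : Type} [Field F] [Field K] [Algebra F K] [AddCommGroup V] [Module F V]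
  [FiniteDimensional F V]

/-- multiplication by a nonzero element -/
def mulE (z : Kˣ) : K ≃ₗ[F] K where
  toFun x := (z : K) * x
  map_add' x y := mul_add _ x y
  map_smul' c x := mul_smul_comm c _ x
  invFun x := ((z⁻¹ : Kˣ) : K) * x
  left_inv x := Units.inv_mul_cancel_left z x
  right_inv x := Units.mul_inv_cancel_left z x

/-- the map `a` -/
def am (ψ : V ≃ₗ[F] K) (z : Kˣ) : GV F V := ψ.trans ((mulE z).trans ψ.symm)

theorem am_apply (ψ : V ≃ₗ[F] K) (z : Kˣ) (v : V) : am ψ z v = ψ.symm (z * ψ v) := rfl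

theorem am_dt (ψ : V ≃ₗ[F] K) (z : Kˣ) : dt (am ψ z) = Algebra.norm F (z : K) := by
  rw [Algebra.norm_apply]
  have h := LinearMap.det_conj (Algebra.lmul F K (z : K)) ψ.symm
  rw [← h]
  rfl

theorem am_chp (ψ : V ≃ₗ[F] K) (z : Kˣ)
    (hz : (minpoly F (z : K)).natDegree = Module.finrank F V) :
    chp (am ψ z) = minpoly F (z : K) := by
  have : FiniteDimensional F K := ψ.finiteDimensional
  have hint : IsIntegral F (z : K) := Algebra.IsIntegral.isIntegral _
  have h0 : chp (am ψ z) = (Algebra.lmul F K (z : K)).charpoly := by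
    have h := LinearEquiv.charpoly_conj ψ.symm (Algebra.lmul F K (z : K))
    rw [← h]
    rfl
  rw [h0]
  have h1 : minpoly F (Algebra.lmul F K (z : K)) = minpoly F (z : K) :=
    minpoly.algHom_eq (Algebra.lmul F K) Algebra.lmul_injective (z : K)
  have h2 : minpoly F (z : K) ∣ (Algebra.lmul F K (z : K)).charpoly := by
    rw [← h1]
    exact LinearMap.minpoly_dvd_charpoly _
  apply eq_of_monic_of_dvd_of_natDegree_le (minpoly.monic hint) (LinearMap.charpoly_monic _) h2
  rw [LinearMap.charpoly_natDegree, hz, ψ.finrank_eq]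

/-- equal maps differ by an element of the centraliser -/
theorem am_comm (ψ ψ' : V ≃ₗ[F] K) (z : Kˣ) (h : am ψ z = am ψ' z) :
    Commute (ψ.trans ψ'.symm : GV F V) (am ψ z) := by
  show (ψ.trans ψ'.symm : GV F V) * am ψ z = am ψ z * (ψ.trans ψ'.symm : GV F V)
  conv_rhs => rw [h]
  ext v
  show ψ'.symm (ψ (ψ.symm (z * ψ v))) = ψ'.symm (z * ψ' (ψ'.symm (ψ v)))
  rw [LinearEquiv.apply_symm_apply, LinearEquiv.apply_symm_apply]

end

theorem finite_equiv {F V W : Type} [Field F] [AddCommGroup V] [Module F V] [AddCommGroup W]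
    [Module F W] [Finite V] [Finite W] : Finite (V ≃ₗ[F] W) :=
  Finite.of_injective (fun f : V ≃ₗ[F] W => (f : V → W)) DFunLike.coe_injective

/-- the number of the `a` -/
theorem count_a (hIR : S_IR) (F : Type) [Field F] [Finite F] (h : ℕ) (h6 : 6 ≤ h) :
    Nat.card (GV F (Fin h → F)) * Nat.card F ^ (h - 1) ≤
      h * (Nat.card F ^ h - 1) *
        Nat.card {a : GV F (Fin h → F) // dt a = 1 ∧ Irreducible (chp a)} := by
  classical
  obtain ⟨p, hp⟩ := CharP.exists F
  have hpp : Fact p.Prime := ⟨CharP.char_is_prime F p⟩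
  have : NeZero h := ⟨by omega⟩
  let K := FiniteField.Extension F p h
  have hfr : Module.finrank F K = h := FiniteField.finrank_extension F p h
  have hfin : FiniteDimensional F K := Module.Finite.of_finite
  have hV : Module.finrank F (Fin h → F) = h := by simp
  have hVf : Finite (Fin h → F) := inferInstance
  have hG : Finite (GV F (Fin h → F)) := finite_equiv
  have hΨ : Finite ((Fin h → F) ≃ₗ[F] K) := finite_equiv
  let Φ : (Fin h → F) ≃ₗ[F] K := LinearEquiv.ofFinrankEq _ _ (by rw [hV, hfr])
  have hΨc : Nat.card ((Fin h → F) ≃ₗ[F] K) = Nat.card (GV F (Fin h → F)) := by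
    apply Nat.card_congr
    exact
      { toFun := fun ψ => ψ.trans Φ.symm
        invFun := fun g => g.trans Φ
        left_inv := fun ψ => by ext v; simp
        right_inv := fun g => by ext v; simp }
  let Bt := {β : K // Algebra.norm F β = 1 ∧ (minpoly F β).natDegree = h}
  let At := {a : GV F (Fin h → F) // dt a = 1 ∧ Irreducible (chp a)}
  have hne : ∀ β : Bt, (β.1 : K) ≠ 0 := by
    intro β h0
    have := β.2.1
    rw [h0, Algebra.norm_zero] at this
    exact zero_ne_one this
  have hchp : ∀ (ψ : (Fin h → F) ≃ₗ[F] K) (β : Bt),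
      chp (am ψ (Units.mk0 β.1 (hne β))) = minpoly F β.1 := by
    intro ψ β
    apply am_chp
    rw [hV]
    exact β.2.2
  let f : ((Fin h → F) ≃ₗ[F] K) × Bt → At := fun y =>
    ⟨am y.1 (Units.mk0 y.2.1 (hne y.2)), by
      constructor
      · rw [am_dt, Units.val_mk0]; exact y.2.2.1
      · rw [hchp]
        exact minpoly.irreducible (Algebra.IsIntegral.isIntegral _)⟩
  have hmain : Nat.card (((Fin h → F) ≃ₗ[F] K) × Bt) ≤ h * (Nat.card F ^ h - 1) * Nat.card At := by
    apply card_le f
    intro a
    have hroots : Nat.card {β : K // aeval β (chp a.1) = 0} ≤ h := by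
      have hne : (chp a.1).map (algebraMap F K) ≠ 0 :=
        ((LinearMap.charpoly_monic _).map _).ne_zero
      have h1 : Nat.card {β : K // aeval β (chp a.1) = 0} =
          (((chp a.1).map (algebraMap F K)).roots.toFinset).card := by
        rw [← Nat.card_eq_finsetCard]
        apply Nat.card_congr
        apply Equiv.subtypeEquivRight
        intro β
        rw [Multiset.mem_toFinset, mem_roots hne, IsRoot.def, eval_map_algebraMap]
      rw [h1]
      calc _ ≤ ((chp a.1).map (algebraMap F K)).roots.card := Multiset.toFinset_card_le _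
        _ ≤ _ := Polynomial.card_roots' _
        _ ≤ (chp a.1).natDegree := Polynomial.natDegree_map_le
        _ = h := by
          show (LinearMap.charpoly _).natDegree = h
          rw [LinearMap.charpoly_natDegree, hV]
    have hz : cz a.1 = Nat.card F ^ h - 1 := by
      have := (hIR F h a.1 a.2.2).1
      omega
    have hroot : ∀ y : {y // f y = a}, aeval (y.1.2.1 : K) (chp a.1) = 0 := by
      intro y
      have h1 : chp a.1 = minpoly F y.1.2.1 := by
        rw [← hchp y.1.1 y.1.2]
        exact (congrArg (fun b : At => chp b.1) y.2).symm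
      rw [h1]
      exact minpoly.aeval _ _
    let k : {y // f y = a} → {β : K // aeval β (chp a.1) = 0} := fun y => ⟨y.1.2.1, hroot y⟩
    have hk := card_le k (Nat.card F ^ h - 1) ?_
    · calc _ ≤ _ := hk
        _ ≤ (Nat.card F ^ h - 1) * h := Nat.mul_le_mul_left _ hroots
        _ = _ := mul_comm _ _
    · intro b
      rcases isEmpty_or_nonempty {y : {y // f y = a} // k y = b} with he | ⟨⟨y0⟩⟩
      · rw [Nat.card_of_isEmpty]; exact Nat.zero_le _
      · rw [← hz]
        have hβ : ∀ y : {y : {y // f y = a} // k y = b}, y.1.1.2 = y0.1.1.2 := by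
          intro y
          apply Subtype.ext
          have h1 := congrArg Subtype.val y.2
          have h2 := congrArg Subtype.val y0.2
          exact h1.trans h2.symm
        have hc : ∀ y : {y : {y // f y = a} // k y = b},
            Commute (y0.1.1.1.trans y.1.1.1.symm : GV F (Fin h → F)) a.1 := by
          intro y
          have h1 : am y0.1.1.1 (Units.mk0 y0.1.1.2.1 (hne _)) = a.1 := congrArg Subtype.val y0.1.2
          have h2 : am y.1.1.1 (Units.mk0 y.1.1.2.1 (hne _)) = a.1 := congrArg Subtype.val y.1.2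
          have h3 : am y.1.1.1 (Units.mk0 y0.1.1.2.1 (hne _)) = a.1 := by
            refine Eq.trans ?_ h2
            congr 1
            apply Units.ext
            rw [Units.val_mk0, Units.val_mk0, hβ y]
          have h4 := am_comm y0.1.1.1 y.1.1.1 (Units.mk0 y0.1.1.2.1 (hne _)) (h1.trans h3.symm)
          rw [h1] at h4
          exact h4
        have hfin : Finite {w : GV F (Fin h → F) // Commute w a.1} := inferInstance
        apply Nat.card_le_card_of_injective
          (fun y => (⟨_, hc y⟩ : {w : GV F (Fin h → F) // Commute w a.1}))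
        intro y y' hyy
        have h1 : (y0.1.1.1.trans y.1.1.1.symm : GV F (Fin h → F)) =
          y0.1.1.1.trans y'.1.1.1.symm := congrArg Subtype.val hyy
        apply Subtype.ext
        apply Subtype.ext
        apply Prod.ext
        · have h2 : y.1.1.1.symm = y'.1.1.1.symm := by
            ext x
            have h3 := congrArg (fun g : GV F (Fin h → F) => g (y0.1.1.1.symm x)) h1
            simp only [LinearEquiv.trans_apply, LinearEquiv.apply_symm_apply] at h3
            exact congrFun h3 _
          have h4 := congrArg LinearEquiv.symm h2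
          simpa using h4
        · rw [hβ y, hβ y']
  rw [Nat.card_prod, hΨc] at hmain
  have hgood : Nat.card F ^ (h - 1) ≤ Nat.card Bt := good_count (F := F) (K := K) h hfr h6
  exact (Nat.mul_le_mul_left _ hgood).trans hmain

/-- the number of the pairs -/
theorem count_c (hIR : S_IR) (F : Type) [Field F] [Finite F] (h : ℕ) (e : Bool) :
    Nat.card {a : GV F (Fin h → F) // dt a = 1 ∧ Irreducible (chp a)} *
      Nat.card (GV F (Fin h → F)) ≤ (Nat.card F ^ h - 1) *
      Nat.card {y : GV F (Fin h → F) × GV F (Fin h → F) // dt y.1 = 1 ∧ Irreducible (chp y.1) ∧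
        IsConj (pw e y.1) y.2} := by
  classical
  have hG : Finite (GV F (Fin h → F)) := finite_equiv
  rw [← Nat.card_prod]
  let f : {a : GV F (Fin h → F) // dt a = 1 ∧ Irreducible (chp a)} × GV F (Fin h → F) →
      {y : GV F (Fin h → F) × GV F (Fin h → F) // dt y.1 = 1 ∧ Irreducible (chp y.1) ∧
        IsConj (pw e y.1) y.2} := fun z =>
    ⟨(z.1.1, z.2 * pw e z.1.1 * z.2⁻¹), z.1.2.1, z.1.2.2, isConj_iff.2 ⟨z.2, rfl⟩⟩
  apply card_le f
  intro b
  rcases isEmpty_or_nonempty {z // f z = b} with he | ⟨⟨z0⟩⟩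
  · rw [Nat.card_of_isEmpty]; exact Nat.zero_le _
  · have hz : cz b.1.1 = Nat.card F ^ h - 1 := by
      have := (hIR F h b.1.1 b.2.2.1).1
      omega
    rw [← hz]
    have ha : ∀ z : {z // f z = b}, z.1.1.1 = b.1.1 := fun z =>
      congrArg (fun y : {y : GV F (Fin h → F) × GV F (Fin h → F) // dt y.1 = 1 ∧
        Irreducible (chp y.1) ∧ IsConj (pw e y.1) y.2} => y.1.1) z.2
    have hc : ∀ z : {z // f z = b}, z.1.2 * pw e b.1.1 * z.1.2⁻¹ = b.1.2 := by
      intro z
      have h1 := congrArg (fun y : {y : GV F (Fin h → F) × GV F (Fin h → F) // dt y.1 = 1 ∧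
        Irreducible (chp y.1) ∧ IsConj (pw e y.1) y.2} => y.1.2) z.2
      rw [← ha z]
      exact h1
    have hcom : ∀ z : {z // f z = b}, Commute (z0.1.2⁻¹ * z.1.2) b.1.1 := by
      intro z
      have h1 : Commute (z0.1.2⁻¹ * z.1.2) (pw e b.1.1) := by
        show z0.1.2⁻¹ * z.1.2 * pw e b.1.1 = pw e b.1.1 * (z0.1.2⁻¹ * z.1.2)
        have h2 := (hc z).trans (hc z0).symm
        have h3 : z.1.2 * pw e b.1.1 = z0.1.2 * pw e b.1.1 * z0.1.2⁻¹ * z.1.2 := by
          rw [← h2, inv_mul_cancel_right]
        rw [mul_assoc, h3]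
        group
      cases e
      · have h2 : pw false b.1.1 = b.1.1⁻¹ := rfl
        rw [h2] at h1
        exact (Commute.inv_right_iff).1 h1
      · exact h1
    have hfin : Finite {w : GV F (Fin h → F) // Commute w b.1.1} := inferInstance
    apply Nat.card_le_card_of_injective
      (fun z => (⟨_, hcom z⟩ : {w : GV F (Fin h → F) // Commute w b.1.1}))
    intro z z' hzz
    have h1 : z0.1.2⁻¹ * z.1.2 = z0.1.2⁻¹ * z'.1.2 := congrArg Subtype.val hzz
    apply Subtype.ext
    apply Prod.ext
    · apply Subtype.ext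
      rw [ha z, ha z']
    · exact mul_left_cancel h1

end NI

theorem t_NI : M_NI := by
  intro hIR _ F _ _ h e h6
  have h1 := NI.count_a hIR F h h6
  have h2 := NI.count_c hIR F h e
  set G := Nat.card (GV F (Fin h → F))
  set a := Nat.card {a : GV F (Fin h → F) // dt a = 1 ∧ Irreducible (chp a)}
  set N := Nat.card {y : GV F (Fin h → F) × GV F (Fin h → F) // dt y.1 = 1 ∧ Irreducible (chp y.1) ∧
        IsConj (pw e y.1) y.2}
  have hq : 2 ≤ Nat.card F := Finite.one_lt_card
  set q := Nat.card F
  obtain ⟨k, rfl⟩ : ∃ k, h = k + 1 := ⟨h - 1, by omega⟩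
  have e1 : k + 1 - 1 = k := by omega
  rw [e1] at h1
  have hpos : 0 < q ^ (k + 1) - 1 := by
    have : 1 < q ^ (k + 1) := Nat.one_lt_pow (by omega) (by omega)
    omega
  set Q := q ^ (k + 1) - 1
  have hQ : Q ≤ q ^ (k + 1) := Nat.sub_le _ _
  have h3 : G * q ^ k * G ≤ (k + 1) * Q * (Q * N) := by
    calc G * q ^ k * G ≤ (k + 1) * Q * a * G := Nat.mul_le_mul_right _ h1
      _ = (k + 1) * Q * (a * G) := by ring
      _ ≤ _ := Nat.mul_le_mul_left _ h2
  have hk : 0 < q ^ k := pow_pos (by omega) k
  apply Nat.le_of_mul_le_mul_right _ hk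
  calc G ^ 2 * q ^ k = G * q ^ k * G := by ring
    _ ≤ (k + 1) * Q * (Q * N) := h3
    _ ≤ (k + 1) * q ^ (k + 1) * (q ^ (k + 1) * N) := by gcongr
    _ = (k + 1) * q ^ (k + 1 + 1) * N * q ^ k := by ring
    _ ≤ 2 * (k + 1) * q ^ (k + 1 + 1) * N * q ^ k := by
      gcongr
      omega

end

end RSF
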