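import Pool.Agent.RSF.Stmts4

/-!
# Module NX: from `SL_n(q)` to `PSL_n(q)`, elements without large eigenspaces
-/

namespace RSF

namespace NX

open Finset

/-- all the fibres of a surjective homomorphism have the same number of elements -/
lemma card_fib {G Q : Type} [Group G] [Fintype G] [Group Q] [DecidableEq Q] (f : G →* Q)
    (hf : Function.Surjective f) (x : Q) :
    #{a : G | f a = x} = Nat.card f.ker := by
  rw [← Nat.card_congr (MonoidHom.fiberEquivKerOfSurjective hf x)]
  rw [← Fintype.card_subtype, ← Nat.card_eq_fintype_card]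
  rfl

/-- A word in two letters: from a group to a quotient. -/
lemma gen {G Q : Type} [Group G] [Finite G] [Group Q] (f : G →* Q)
    (hf : Function.Surjective f) (w : G → G → G) (w' : Q → Q → Q)
    (hw : ∀ a b, f (w a b) = w' (f a) (f b)) (g : Q) (c : ℕ)
    (h : ∀ B : G, f B = g⁻¹ → Nat.card G ≤ c * Nat.card {p : G × G // w p.1 p.2 = B}) :
    Nat.card Q ≤ c * Nat.card {p : Q × Q // g * w' p.1 p.2 = 1} := by
  classical
  have hQ : Finite Q := Finite.of_surjective f hf
  obtain ⟨hG'⟩ := nonempty_fintype G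
  obtain ⟨hQ'⟩ := nonempty_fintype Q
  set z := Nat.card f.ker with hz
  have hzpos : 0 < z := Nat.card_pos
  -- the order of `G`
  have hG : Nat.card G = Nat.card Q * z := by
    rw [Nat.card_eq_fintype_card, Nat.card_eq_fintype_card (α := Q)]
    rw [← Finset.card_univ (α := G)]
    rw [Finset.card_eq_sum_card_fiberwise (f := f) (s := univ) (t := univ)
      (fun a _ => Finset.mem_coe.mpr (Finset.mem_univ _))]
    rw [Finset.sum_congr rfl (fun x _ => card_fib f hf x)]
    rw [Finset.sum_const, smul_eq_mul, Finset.card_univ]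
  -- the pairs in `G`
  set s : Finset (G × G) := {p : G × G | g * w' (f p.1) (f p.2) = 1} with hs
  set t : Finset (Q × Q) := {p : Q × Q | g * w' p.1 p.2 = 1} with ht
  have hN : Nat.card {p : Q × Q // g * w' p.1 p.2 = 1} = #t := by
    rw [Nat.card_eq_fintype_card, Fintype.card_subtype]
  have hs1 : #s = #t * (z * z) := by
    rw [Finset.card_eq_sum_card_fiberwise (f := fun p : G × G => (f p.1, f p.2)) (s := s) (t := t)]
    · have key : ∀ q ∈ t, #{p ∈ s | (f p.1, f p.2) = q} = z * z := by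
        intro q hq
        have e : ({p ∈ s | (f p.1, f p.2) = q} : Finset (G × G)) =
            ({a : G | f a = q.1} : Finset G) ×ˢ ({a : G | f a = q.2} : Finset G) := by
          ext p
          simp only [hs, Finset.mem_filter, Finset.mem_univ, true_and, Finset.mem_product]
          constructor
          · rintro ⟨-, h2⟩
            rw [Prod.ext_iff] at h2
            exact h2
          · intro h2
            refine ⟨?_, Prod.ext h2.1 h2.2⟩
            rw [h2.1, h2.2]
            exact (Finset.mem_filter.mp hq).2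
        rw [e, Finset.card_product, card_fib f hf, card_fib f hf]
      rw [Finset.sum_congr rfl key, Finset.sum_const, smul_eq_mul]
    · intro p hp
      have hp' := (Finset.mem_filter.mp (Finset.mem_coe.mp hp)).2
      exact Finset.mem_coe.mpr (Finset.mem_filter.mpr ⟨Finset.mem_univ _, hp'⟩)
  have hs2 : z * Nat.card G ≤ c * #s := by
    have e := Finset.card_eq_sum_card_fiberwise (f := fun p : G × G => w p.1 p.2) (s := s)
      (t := ({B : G | f B = g⁻¹} : Finset G)) (by
        intro p hp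
        have hp' := (Finset.mem_filter.mp (Finset.mem_coe.mp hp)).2
        refine Finset.mem_coe.mpr (Finset.mem_filter.mpr ⟨Finset.mem_univ _, ?_⟩)
        rw [hw]
        exact eq_inv_of_mul_eq_one_right hp')
    rw [e, Finset.mul_sum, hz, ← card_fib f hf g⁻¹, ← smul_eq_mul, ← Finset.sum_const]
    refine Finset.sum_le_sum ?_
    intro B hB
    have hB' : f B = g⁻¹ := (Finset.mem_filter.mp hB).2
    have h1 := h B hB'
    have h2 : Nat.card {p : G × G // w p.1 p.2 = B} = #{p ∈ s | w p.1 p.2 = B} := by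
      rw [Nat.card_eq_fintype_card, Fintype.card_subtype]
      congr 1
      ext p
      simp only [hs, Finset.mem_filter, Finset.mem_univ, true_and]
      constructor
      · intro h3
        refine ⟨?_, h3⟩
        rw [← hw, h3, hB', mul_inv_cancel]
      · exact fun h3 => h3.2
    rw [← h2]
    exact h1
  rw [hN]
  rw [hs1, hG] at hs2
  have h3 : (z * z) * Nat.card Q ≤ (z * z) * (c * #t) := by
    calc (z * z) * Nat.card Q = z * (Nat.card Q * z) := by ring
      _ ≤ c * (#t * (z * z)) := hs2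
      _ = (z * z) * (c * #t) := by ring
  exact Nat.le_of_mul_le_mul_left h3 (Nat.mul_pos hzpos hzpos)

/-- the eigenspaces of the inverse -/
lemma ker_inv {F : Type} [Field F] {n : ℕ} (B : Matrix.SpecialLinearGroup (Fin n) F) (k : ℕ)
    (h : ∀ μ : F, Module.finrank F
      (LinearMap.ker (Matrix.toLin' (B⁻¹ : Matrix.SpecialLinearGroup (Fin n) F).1 -
        μ • LinearMap.id)) ≤ k) (μ : F) :
    Module.finrank F (LinearMap.ker (Matrix.toLin' B.1 - μ • LinearMap.id)) ≤ k := by
  have h1 : (B⁻¹ : Matrix.SpecialLinearGroup (Fin n) F).1 * B.1 = 1 := by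
    have h2 := congrArg Subtype.val (inv_mul_cancel B)
    exact h2
  refine le_trans (Submodule.finrank_mono ?_) (h μ⁻¹)
  intro v hv
  rw [LinearMap.mem_ker, LinearMap.sub_apply, LinearMap.smul_apply, LinearMap.id_apply,
    Matrix.toLin'_apply, sub_eq_zero] at hv
  rw [LinearMap.mem_ker, LinearMap.sub_apply, LinearMap.smul_apply, LinearMap.id_apply,
    Matrix.toLin'_apply, sub_eq_zero]
  have h3 : (B⁻¹ : Matrix.SpecialLinearGroup (Fin n) F).1.mulVec (B.1.mulVec v) = v := by
    rw [Matrix.mulVec_mulVec, h1, Matrix.one_mulVec]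
  rw [hv, Matrix.mulVec_smul] at h3
  by_cases hμ : μ = 0
  · rw [hμ, zero_smul] at h3
    rw [← h3, Matrix.mulVec_zero, smul_zero]
  · rw [← h3, smul_smul, inv_mul_cancel₀ hμ, one_smul, h3]

/-- squares and conjugates -/
lemma card_sq {G : Type} [Group G] (A : G) :
    Nat.card {z : G × G // z.1 * (z.2 * pw true z.1 * z.2⁻¹) = A} =
      Nat.card {p : G × G // p.1 ^ 2 * p.2 ^ 2 = A} := by
  refine Nat.card_congr ⟨fun z => ⟨(z.1.2⁻¹, z.1.2 * (z.1.2 * z.1.1 * z.1.2⁻¹)), ?_⟩,
    fun p => ⟨(p.1.1 * (p.1.1 * p.1.2) * p.1.1⁻¹, p.1.1⁻¹), ?_⟩, ?_, ?_⟩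
  · have h := z.2
    rw [pw, if_pos rfl] at h
    refine Eq.trans ?_ h
    change z.1.2⁻¹ ^ 2 * (z.1.2 * (z.1.2 * z.1.1 * z.1.2⁻¹)) ^ 2 = _
    rw [pow_two, pow_two]
    group
  · have h := p.2
    change p.1.1 * (p.1.1 * p.1.2) * p.1.1⁻¹ *
      (p.1.1⁻¹ * pw true (p.1.1 * (p.1.1 * p.1.2) * p.1.1⁻¹) * p.1.1⁻¹⁻¹) = A
    rw [pw, if_pos rfl]
    refine Eq.trans ?_ h
    rw [pow_two, pow_two]
    group
  · rintro ⟨⟨a, b⟩, h⟩
    apply Subtype.ext
    refine Prod.ext ?_ ?_
    · change b⁻¹ * (b⁻¹ * (b * (b * a * b⁻¹))) * b⁻¹⁻¹ = a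
      group
    · change b⁻¹⁻¹ = b
      group
  · rintro ⟨⟨a, b⟩, h⟩
    apply Subtype.ext
    refine Prod.ext ?_ ?_
    · change a⁻¹⁻¹ = a
      group
    · change a⁻¹ * (a⁻¹ * (a * (a * b) * a⁻¹) * a⁻¹⁻¹) = b
      group

lemma card_com {G : Type} [Group G] (A : G) :
    Nat.card {z : G × G // z.1 * (z.2 * pw false z.1 * z.2⁻¹) = A} =
      Nat.card {p : G × G // p.1 * p.2 * p.1⁻¹ * p.2⁻¹ = A} := by
  refine Nat.card_congr (Equiv.subtypeEquivRight fun z => ?_)
  have h : z.1 * (z.2 * pw false z.1 * z.2⁻¹) = z.1 * z.2 * z.1⁻¹ * z.2⁻¹ := by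
    rw [pw, if_neg Bool.false_ne_true]
    group
  rw [h]

/-- the eigenspaces of the preimages of `g⁻¹` -/
lemma small {F : Type} [Field F] {n : ℕ} {g : PS n F} (hg : ¬ BgE g)
    (B : Matrix.SpecialLinearGroup (Fin n) F)
    (hB : QuotientGroup.mk' (Subgroup.center (Matrix.SpecialLinearGroup (Fin n) F)) B = g⁻¹) :
    ∀ μ : F, Module.finrank F (LinearMap.ker (Matrix.toLin' B.1 - μ • LinearMap.id)) ≤
      3 * n / 4 := by
  refine ker_inv B _ fun μ => ?_
  by_contra hc
  apply hg
  refine ⟨B⁻¹, ?_, μ, not_le.mp hc⟩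
  change QuotientGroup.mk' (Subgroup.center (Matrix.SpecialLinearGroup (Fin n) F)) B⁻¹ = g
  rw [map_inv, hB, inv_inv]

end NX

theorem t_NX : M_NX := by
  intro hNG F _ _ n hn g hg
  have hfin : Finite (Matrix.SpecialLinearGroup (Fin n) F) := inferInstance
  constructor
  · refine NX.gen (QuotientGroup.mk' (Subgroup.center (Matrix.SpecialLinearGroup (Fin n) F)))
      (QuotientGroup.mk'_surjective _) (fun a b => a * b * a⁻¹ * b⁻¹)
      (fun a b => a * b * a⁻¹ * b⁻¹) ?_ g _ ?_
    · intro a b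
      simp only [map_mul, map_inv]
    · intro B hB
      have h := hNG F n false hn B (NX.small hg B hB)
      rw [NX.card_com] at h
      exact h
  · refine NX.gen (QuotientGroup.mk' (Subgroup.center (Matrix.SpecialLinearGroup (Fin n) F)))
      (QuotientGroup.mk'_surjective _) (fun a b => a ^ 2 * b ^ 2)
      (fun a b => a ^ 2 * b ^ 2) ?_ g _ ?_
    · intro a b
      simp only [map_mul, map_pow]
    · intro B hB
      have h := hNG F n true hn B (NX.small hg B hB)
      rw [NX.card_sq] at h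
      exact h

end RSF
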