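import Pool.Agent.RSF.Stmts4

/-!
# RSF_RE: the recursion inequality
-/

namespace RSF

open Polynomial

noncomputable section

namespace RE

variable {F V : Type} [Field F] [AddCommGroup V] [Module F V] [FiniteDimensional F V]

theorem fin_GV [Finite F] : Finite (GV F V) := by
  have : Finite V := Module.finite_of_finite F
  exact DFunLike.finite _

/-- intertwining and polynomials -/
theorem inter {W : Type} [AddCommGroup W] [Module F W] (f : V →ₗ[F] V) (g : W →ₗ[F] W)
    (k : V →ₗ[F] W) (hk : ∀ v, k (f v) = g (k v)) (p : F[X]) (v : V) :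
    k (aeval f p v) = aeval g p (k v) := by
  induction p using Polynomial.induction_on' generalizing v with
  | add p q hp hq => simp only [map_add, LinearMap.add_apply, hp, hq]
  | monomial n a =>
    rw [aeval_monomial, aeval_monomial]
    simp only [Module.End.mul_apply, Module.algebraMap_end_apply, map_smul]
    congr 1
    induction n generalizing v with
    | zero => simp
    | succ n ih =>
      rw [pow_succ, pow_succ, Module.End.mul_apply, Module.End.mul_apply, ih, hk]

theorem kill (a : GV F V) (v : V) : aeval (a : V →ₗ[F] V) (chp a) v = 0 := by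
  have := LinearMap.aeval_self_charpoly (a : V →ₗ[F] V)
  unfold chp
  rw [this]
  rfl

theorem inj (a : GV F V) (p : F[X]) (h : IsCoprime (chp a) p) (v : V)
    (hv : aeval (a : V →ₗ[F] V) p v = 0) : v = 0 := by
  obtain ⟨r, s, hrs⟩ := h
  have h1 : aeval (a : V →ₗ[F] V) (r * chp a + s * p) v = v := by
    rw [hrs]; simp
  rw [map_add, map_mul, map_mul, LinearMap.add_apply, Module.End.mul_apply, Module.End.mul_apply,
    hv, kill, map_zero, map_zero, add_zero] at h1
  exact h1.symm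

section

variable {h : ℕ} {u : (Fin h → F) →ₗ[F] V} {φ : V →ₗ[F] (Fin h → F)} {a c : GV F (Fin h → F)}
    {a' c' : GV F (LinearMap.ker φ)} {B C : GV F V}

theorem proj_mem (hu : ∀ x, φ (u x) = x) (v : V) : v - u (φ v) ∈ LinearMap.ker φ := by
  rw [LinearMap.mem_ker, map_sub, hu, sub_self]

theorem phiB (hu : ∀ x, φ (u x) = x) (hb : Blk u φ a c a' c' B C) (v : V) :
    φ (B v) = a (φ v) := by
  have h1 := hb.2.2.1 ⟨v - u (φ v), proj_mem hu v⟩
  have h2 : φ (B (v - u (φ v))) = 0 := by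
    have : B (v - u (φ v)) = (a' ⟨v - u (φ v), proj_mem hu v⟩ : V) := h1
    rw [this]
    exact (a' ⟨v - u (φ v), proj_mem hu v⟩).2
  rw [map_sub, map_sub, hb.2.2.2, sub_eq_zero] at h2
  exact h2

theorem kerphi (hu : ∀ x, φ (u x) = x) (hb : Blk u φ a c a' c' B C)
    (hc : IsCoprime (chp a) (chp a')) :
    LinearMap.ker φ = LinearMap.ker (aeval (B : V →ₗ[F] V) (chp a')) := by
  ext v
  constructor
  · intro hv
    have h1 := inter (a' : LinearMap.ker φ →ₗ[F] LinearMap.ker φ) (B : V →ₗ[F] V)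
      (LinearMap.ker φ).subtype (fun w => (hb.2.2.1 w).symm) (chp a') ⟨v, hv⟩
    rw [kill, map_zero] at h1
    exact h1.symm
  · intro hv
    have h1 := inter (B : V →ₗ[F] V) (a : (Fin h → F) →ₗ[F] (Fin h → F)) φ
      (fun w => phiB hu hb w) (chp a') v
    rw [LinearMap.mem_ker] at hv ⊢
    rw [hv, map_zero] at h1
    exact inj a (chp a') hc _ h1.symm

/-- the projection to `ker φ` along the range of `u` -/
def pr (u : (Fin h → F) →ₗ[F] V) (φ : V →ₗ[F] (Fin h → F)) (hu : ∀ x, φ (u x) = x) :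
    V →ₗ[F] LinearMap.ker φ :=
  LinearMap.codRestrict (LinearMap.ker φ) (LinearMap.id - u ∘ₗ φ) (fun v => proj_mem hu v)

theorem pr_apply (hu : ∀ x, φ (u x) = x) (v : V) : ((pr u φ hu v : LinearMap.ker φ) : V) =
    v - u (φ v) := rfl

theorem prC (hu : ∀ x, φ (u x) = x) (hb : Blk u φ a c a' c' B C) (v : V) :
    pr u φ hu (C v) = c' (pr u φ hu v) := by
  obtain ⟨x, hx⟩ := hb.2.1 (pr u φ hu v)
  rw [pr_apply, map_sub, hb.1] at hx
  have hCv : C v = (c' (pr u φ hu v) : V) + u (x + c (φ v)) := by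
    rw [map_add, ← add_assoc, ← hx]; abel
  have h0 : φ (c' (pr u φ hu v) : V) = 0 := (c' (pr u φ hu v)).2
  have h1 : φ (C v) = x + c (φ v) := by rw [hCv, φ.map_add, hu, h0, zero_add]
  apply Subtype.ext
  rw [pr_apply, h1, hCv, add_sub_cancel_right]

theorem pr_self (hu : ∀ x, φ (u x) = x) (w : LinearMap.ker φ) : pr u φ hu (w : V) = w := by
  apply Subtype.ext
  have h0 : φ (w : V) = 0 := w.2
  rw [pr_apply, h0, map_zero, sub_zero]

theorem rangeu (hu : ∀ x, φ (u x) = x) (hb : Blk u φ a c a' c' B C)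
    (hc : IsCoprime (chp c) (chp c')) :
    LinearMap.range u = LinearMap.ker (aeval (C : V →ₗ[F] V) (chp c)) := by
  ext v
  constructor
  · rintro ⟨x, rfl⟩
    have h1 := inter (c : (Fin h → F) →ₗ[F] (Fin h → F)) (C : V →ₗ[F] V) u
      (fun w => (hb.1 w).symm) (chp c) x
    rw [kill, map_zero] at h1
    exact h1.symm
  · intro hv
    have h1 := inter (C : V →ₗ[F] V) (c' : LinearMap.ker φ →ₗ[F] LinearMap.ker φ) (pr u φ hu)
      (fun w => prC hu hb w) (chp c) v
    rw [LinearMap.mem_ker] at hv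
    rw [hv, map_zero] at h1
    have h2 := inj c' (chp c) hc.symm _ h1.symm
    have h3 := congrArg (fun w : LinearMap.ker φ => (w : V)) h2
    simp only [pr_apply, ZeroMemClass.coe_zero] at h3
    exact ⟨φ v, (sub_eq_zero.1 h3).symm⟩

end

theorem chp_conj {x y : GV F V} (hxy : IsConj x y) : chp x = chp y := by
  obtain ⟨g, hg⟩ := isConj_iff.1 hxy
  unfold chp
  have : (y : V →ₗ[F] V) = g.conj (x : V →ₗ[F] V) := by
    ext v
    rw [← hg]
    rfl
  rw [this, LinearEquiv.charpoly_conj]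

theorem dt_conj {x y : GV F V} (hxy : IsConj x y) : dt x = dt y := by
  obtain ⟨g, hg⟩ := isConj_iff.1 hxy
  unfold dt
  have : (y : V →ₗ[F] V) = g.conj (x : V →ₗ[F] V) := by
    ext v
    rw [← hg]
    rfl
  rw [this]
  exact (LinearMap.det_conj _ _).symm

theorem dt_mul (x y : GV F V) : dt (x * y) = dt x * dt y := by
  unfold dt
  have : ((x * y : GV F V) : V →ₗ[F] V) = (x : V →ₗ[F] V) * (y : V →ₗ[F] V) := rfl
  rw [this, map_mul]

theorem dt_one : dt (1 : GV F V) = 1 := by
  unfold dt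
  have : ((1 : GV F V) : V →ₗ[F] V) = 1 := rfl
  rw [this, map_one]

theorem dt_pw (e : Bool) {x : GV F V} (hx : dt x = 1) : dt (pw e x) = 1 := by
  unfold pw
  cases e with
  | true => simpa using hx
  | false =>
    have h1 := dt_mul x x⁻¹
    rw [mul_inv_cancel, dt_one, hx, one_mul] at h1
    simpa using h1.symm

theorem deg_chp (a : GV F V) : (chp a).natDegree = Module.finrank F V :=
  LinearMap.charpoly_natDegree _

theorem monic_chp (a : GV F V) : (chp a).Monic := LinearMap.charpoly_monic _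

theorem cop {W : Type} [AddCommGroup W] [Module F W] [FiniteDimensional F W]
    (a : GV F V) (a' : GV F W) (ha : Irreducible (chp a))
    (h' : Dg a' (Module.finrank F V)) : IsCoprime (chp a) (chp a') := by
  rw [ha.coprime_iff_not_dvd]
  intro hd
  have := h' _ ha hd
  rw [deg_chp] at this
  exact lt_irrefl _ this

/-- the characteristic polynomial of the irreducible block is determined -/
theorem detm {W W2 U : Type} [AddCommGroup W] [Module F W] [FiniteDimensional F W]
    [AddCommGroup W2] [Module F W2] [FiniteDimensional F W2]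
    [AddCommGroup U] [Module F U] [FiniteDimensional F U]
    (B : GV F U) (a a2 : GV F V) (a' : GV F W) (a2' : GV F W2)
    (ha : Irreducible (chp a)) (ha2 : Irreducible (chp a2))
    (h2' : Dg a2' (Module.finrank F V))
    (hB : chp B = chp a * chp a') (hB2 : chp B = chp a2 * chp a2') :
    chp a = chp a2 ∧ chp a' = chp a2' := by
  have hd : chp a ∣ chp a2 * chp a2' := by rw [← hB2, hB]; exact dvd_mul_right _ _
  have h1 : chp a ∣ chp a2 := by
    rcases ha.prime.dvd_or_dvd hd with h | h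
    · exact h
    · exfalso
      have := h2' _ ha h
      rw [deg_chp] at this
      exact lt_irrefl _ this
  have h2 : chp a = chp a2 :=
    eq_of_monic_of_associated (monic_chp a) (monic_chp a2) (ha.associated_of_dvd ha2 h1)
  refine ⟨h2, ?_⟩
  have h3 : chp a * chp a' = chp a * chp a2' := by
    rw [← hB, hB2, h2]
  exact mul_left_cancel₀ (monic_chp a).ne_zero h3

/-- reference maps -/
theorem refm (h : ℕ) : ∃ v : Submodule F V → ((Fin h → F) →ₗ[F] V),
    ∀ u : (Fin h → F) →ₗ[F] V, Function.Injective u →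
      ∃ g : GV F (Fin h → F), ∀ x, u x = v (LinearMap.range u) (g x) := by
  classical
  refine ⟨fun R => if hR : ∃ u : (Fin h → F) →ₗ[F] V, Function.Injective u ∧
    LinearMap.range u = R then hR.choose else 0, fun u hu => ?_⟩
  have hR : ∃ u' : (Fin h → F) →ₗ[F] V, Function.Injective u' ∧
    LinearMap.range u' = LinearMap.range u := ⟨u, hu, rfl⟩
  simp only [dif_pos hR]
  obtain ⟨h1, h2⟩ := hR.choose_spec
  refine ⟨((LinearEquiv.ofInjective u hu).trans (LinearEquiv.ofEq _ _ h2.symm)).trans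
    (LinearEquiv.ofInjective hR.choose h1).symm, fun x => ?_⟩
  have h3 := (LinearEquiv.ofInjective hR.choose h1).apply_symm_apply
    (((LinearEquiv.ofInjective u hu).trans (LinearEquiv.ofEq _ _ h2.symm)) x)
  have h4 := congrArg (fun w : LinearMap.range hR.choose => (w : V)) h3
  simp only [LinearEquiv.ofInjective_apply] at h4
  exact h4.symm

end RE

open RE in
theorem t_RE : M_RE := by
  intro hB1 hB2 hBT hIV hCB hIR F V _ _ _ _ _ e h D Z M A Gd h1 hD hA hGd
  classical
  have : Finite (GV F V) := fin_GV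
  have : Finite (GV F (Fin h → F)) := fin_GV
  have fr : Module.finrank F (Fin h → F) = h := by simp
  obtain ⟨v, hv⟩ := refm (F := F) (V := V) h
  -- the data
  let X := {y : (((Fin h → F) →ₗ[F] V) × (V →ₗ[F] (Fin h → F))) ×
        GV F (Fin h → F) × GV F (Fin h → F) // y.1 ∈ Gd ∧
          (∀ x, y.1.2 (A (y.1.1 x)) = y.2.1 (y.2.2 x)) ∧ dt y.2.1 = 1 ∧
          Irreducible (chp y.2.1) ∧ IsConj (pw e y.2.1) y.2.2}
  have hS : ∀ y : X, ∃ S : GV F (LinearMap.ker y.1.1.2), Sch A y.1.1.1 y.1.1.2 S ∧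
      ∃ P : Fin M → {z : GV F (LinearMap.ker y.1.1.2) × GV F (LinearMap.ker y.1.1.2) //
        z.1 * z.2 = S ∧ dt z.1 = 1 ∧ IsConj (pw e z.1) z.2 ∧ Dg z.1 h ∧ DS z.1 ∧ Z ≤ cz z.1},
        Function.Injective P := by
    rintro ⟨y, hy, hy1, hy2, hy3, hy4⟩
    obtain ⟨hg1, hg2⟩ := hGd y.1 hy
    obtain ⟨S, s1, s2, -⟩ := hB2 F V h A y.1.1 y.1.2 (y.2.1 * y.2.2) hg1 (fun x => hy1 x)
    have hdc : dt y.2.2 = 1 := by rw [← dt_conj hy4]; exact dt_pw e hy2
    rw [hA, dt_mul, hy2, hdc, one_mul, one_mul] at s2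
    have hM := hg2 S s1 s2.symm
    refine ⟨S, s1, ?_⟩
    have : Finite (GV F (LinearMap.ker y.1.2)) := fin_GV
    have : Finite {z : GV F (LinearMap.ker y.1.2) × GV F (LinearMap.ker y.1.2) //
        z.1 * z.2 = S ∧ dt z.1 = 1 ∧ IsConj (pw e z.1) z.2 ∧ Dg z.1 h ∧ DS z.1 ∧ Z ≤ cz z.1} :=
      inferInstance
    unfold Fc at hM
    refine ⟨fun i => (Finite.equivFin _).symm (Fin.castLE hM i), ?_⟩
    intro i j hij
    have := (Finite.equivFin _).symm.injective hij
    exact Fin.castLE_injective hM this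
  choose S hS1 P hP using hS
  have hu : ∀ y : X, ∀ x, y.1.1.2 (y.1.1.1 x) = x := fun y => (hGd y.1.1 y.2.1).1
  have hBC : ∀ (y : X) (i : Fin M), ∃ B C : GV F V, B * C = A ∧
      Blk y.1.1.1 y.1.1.2 y.1.2.1 y.1.2.2 (P y i).1.1 (P y i).1.2 B C := by
    intro y i
    refine hB1 F V h A y.1.1.1 y.1.1.2 y.1.2.1 y.1.2.2 (P y i).1.1 (P y i).1.2 (hu y)
      y.2.2.1 ?_
    have h3 := (P y i).2.1
    rw [h3]
    exact hS1 y
  choose B C hBC1 hBlk using hBC
  have hcop : ∀ (y : X) (i : Fin M), IsCoprime (chp y.1.2.1) (chp (P y i).1.1) := by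
    intro y i
    apply cop _ _ y.2.2.2.2.1
    rw [fr]
    exact (P y i).2.2.2.2.1
  have hcb : ∀ (y : X) (i : Fin M), IsCoprime (chp y.1.2.2) (chp (P y i).1.2) ∧
      IsConj (pw e (B y i)) (C y i) ∧ cz y.1.2.1 * cz (P y i).1.1 ≤ cz (B y i) ∧
      (DS y.1.2.1 → DS (B y i)) := by
    intro y i
    exact hCB F V h e y.1.1.1 y.1.1.2 y.1.2.1 y.1.2.2 (P y i).1.1 (P y i).1.2 (B y i) (C y i)
      (hu y) (hBlk y i) y.2.2.2.2.2 (P y i).2.2.2.1 (hcop y i)
  have hbt := fun (y : X) (i : Fin M) =>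
    hBT F V h y.1.1.1 y.1.1.2 y.1.2.1 y.1.2.2 (P y i).1.1 (P y i).1.2 (B y i) (C y i)
      (hu y) (hBlk y i)
  have hFc : ∀ (y : X) (i : Fin M), B y i * C y i = A ∧ dt (B y i) = 1 ∧
      IsConj (pw e (B y i)) (C y i) ∧ Dg (B y i) D ∧ DS (B y i) ∧
      (Nat.card F ^ h - 1) * Z ≤ cz (B y i) := by
    intro y i
    have hir := hIR F h y.1.2.1 y.2.2.2.2.1
    refine ⟨hBC1 y i, ?_, (hcb y i).2.1, ?_, (hcb y i).2.2.2 hir.2.1, ?_⟩
    · rw [(hbt y i).2.2.1, y.2.2.2.1, (P y i).2.2.1, one_mul]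
    · intro p hp hpd
      rw [(hbt y i).1] at hpd
      rcases hp.prime.dvd_or_dvd hpd with hd | hd
      · refine lt_of_le_of_lt ?_ hD
        have := natDegree_le_of_dvd hd (monic_chp _).ne_zero
        rw [deg_chp, fr] at this
        exact this
      · exact lt_trans ((P y i).2.2.2.2.1 p hp hd) hD
    · refine le_trans ?_ (hcb y i).2.2.1
      have h5 := hir.1
      exact Nat.mul_le_mul (by omega) (P y i).2.2.2.2.2.2
  have hg : ∀ y : X, ∃ g : GV F (Fin h → F), ∀ x, y.1.1.1 x =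
      v (LinearMap.range y.1.1.1) (g x) := by
    intro y
    apply hv
    intro a b hab
    have := congrArg y.1.1.2 hab
    rwa [hu, hu] at this
  choose g hg using hg
  let Θ : X × Fin M → GV F (Fin h → F) × {z : GV F V × GV F V // z.1 * z.2 = A ∧ dt z.1 = 1 ∧
      IsConj (pw e z.1) z.2 ∧ Dg z.1 D ∧ DS z.1 ∧ (Nat.card F ^ h - 1) * Z ≤ cz z.1} :=
    fun yi => (g yi.1, ⟨(B yi.1 yi.2, C yi.1 yi.2), hFc yi.1 yi.2⟩)
  have hΘ : Function.Injective Θ := by
    rintro ⟨y, i⟩ ⟨z, j⟩ hyz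
    simp only [Θ, Prod.mk.injEq, Subtype.mk.injEq] at hyz
    obtain ⟨e1, e2, e3⟩ := hyz
    -- the characteristic polynomials
    have hd := detm (B y i) y.1.2.1 z.1.2.1 (P y i).1.1 (P z j).1.1 y.2.2.2.2.1 z.2.2.2.2.1
      (by rw [fr]; exact (P z j).2.2.2.2.1) (hbt y i).1 (by rw [e2]; exact (hbt z j).1)
    have hcc : chp y.1.2.2 = chp z.1.2.2 := by
      rw [← chp_conj y.2.2.2.2.2, ← chp_conj z.2.2.2.2.2]
      unfold pw
      cases e with
      | true => simpa using hd.1
      | false => simpa using (hIV F _ _ y.1.2.1 z.1.2.1).2.2.2.2.1 hd.1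
    have hk : LinearMap.ker y.1.1.2 = LinearMap.ker z.1.1.2 := by
      rw [kerphi (hu y) (hBlk y i) (hcop y i), kerphi (hu z) (hBlk z j) (hcop z j), e2, hd.2]
    have hr : LinearMap.range y.1.1.1 = LinearMap.range z.1.1.1 := by
      rw [rangeu (hu y) (hBlk y i) (hcb y i).1, rangeu (hu z) (hBlk z j) (hcb z j).1, e3, hcc]
    have hueq : y.1.1.1 = z.1.1.1 := by
      apply LinearMap.ext
      intro x
      rw [hg y x, hg z x, e1, hr]
    have hφeq : y.1.1.2 = z.1.1.2 := by
      apply LinearMap.ext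
      intro w
      have h5 : w - z.1.1.1 (z.1.1.2 w) ∈ LinearMap.ker y.1.1.2 := by
        rw [hk]; exact proj_mem (hu z) w
      rw [LinearMap.mem_ker, map_sub, sub_eq_zero, ← hueq, hu y] at h5
      exact h5
    have haeq : y.1.2.1 = z.1.2.1 := by
      apply LinearEquiv.ext
      intro x
      rw [← (hBlk y i).2.2.2 x, ← (hBlk z j).2.2.2 x, hueq, hφeq, e2]
    have hceq : y.1.2.2 = z.1.2.2 := by
      apply LinearEquiv.ext
      intro x
      have h6 : y.1.1.1 (y.1.2.2 x) = y.1.1.1 (z.1.2.2 x) := by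
        rw [← (hBlk y i).1 x]
        conv_rhs => rw [hueq]
        rw [← (hBlk z j).1 x, hueq, e3]
      have h7 := congrArg y.1.1.2 h6
      rwa [hu, hu] at h7
    have hyz : y = z := Subtype.ext (Prod.ext (Prod.ext hueq hφeq) (Prod.ext haeq hceq))
    subst hyz
    have ha' : (P y i).1.1 = (P y j).1.1 := by
      apply LinearEquiv.ext
      intro w
      apply Subtype.ext
      rw [← (hBlk y i).2.2.1 w, ← (hBlk y j).2.2.1 w, e2]
    have hc' : (P y i).1.2 = (P y j).1.2 := by
      apply LinearEquiv.ext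
      intro w
      have h8 := prC (hu y) (hBlk y i) (w : V)
      have h9 := prC (hu y) (hBlk y j) (w : V)
      rw [pr_self] at h8 h9
      rw [← h8, ← h9, e3]
    have := hP y (Subtype.ext (Prod.ext ha' hc'))
    rw [this]
  have hfin := Nat.card_le_card_of_injective Θ hΘ
  rw [Nat.card_prod, Nat.card_prod, Nat.card_eq_fintype_card (α := Fin M), Fintype.card_fin] at hfin
  exact hfin

end

end RSF
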