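import Pool.Agent.RSF.Stmts4

/-!
# The number of steps of the recursion
-/

namespace RSF

open Polynomial

noncomputable section

namespace ST

lemma st_le (n : ℕ) : (st n : ℝ) ≤ 16 * Real.sqrt n := by
  induction n using Nat.strong_induction_on with
  | _ n ih =>
    rw [st]
    split_ifs with h
    · simp only [Nat.cast_zero]
      positivity
    · have hn : 1024 ≤ n := by omega
      have hlt : n - n / 32 < n := by omega
      have h1 := ih _ hlt
      have h64 : n - n / 32 + n / 64 ≤ n := by omega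
      have h64' : (n : ℝ) / 64 - 1 ≤ ((n / 64 : ℕ) : ℝ) := by
        have : n < 64 * (n / 64) + 64 := by omega
        have h3 : (n : ℝ) < 64 * ((n / 64 : ℕ) : ℝ) + 64 := by exact_mod_cast this
        linarith
      have hb : ((n - n / 32 : ℕ) : ℝ) ≤ n - n / 128 := by
        have h3 : ((n - n / 32 : ℕ) : ℝ) + ((n / 64 : ℕ) : ℝ) ≤ n := by exact_mod_cast h64
        have h4 : (1024 : ℝ) ≤ n := by exact_mod_cast hn
        linarith
      set s := Real.sqrt (n : ℝ) with hs
      have hs2 : s * s = n := Real.mul_self_sqrt (by positivity)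
      have hs32 : 32 ≤ s := by
        rw [hs, show (32 : ℝ) = Real.sqrt 1024 by
          rw [show (1024 : ℝ) = 32 ^ 2 by norm_num, Real.sqrt_sq (by norm_num)]]
        exact Real.sqrt_le_sqrt (by exact_mod_cast hn)
      have h5 : Real.sqrt ((n - n / 32 : ℕ) : ℝ) ≤ s - 1 / 16 := by
        rw [Real.sqrt_le_left (by linarith)]
        refine le_trans hb ?_
        rw [← hs2]
        nlinarith
      push_cast
      linarith

end ST

theorem t_ST : S_ST := by
  intro c hc
  obtain ⟨r₁, hr₁⟩ := exists_nat_ge ((2 ^ 21) * 2 / c)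
  obtain ⟨r₂, hr₂⟩ := exists_nat_ge ((400 / c) ^ 4)
  refine ⟨max (max r₁ r₂) 1, fun n hn => ?_⟩
  have hn1 : r₁ ≤ n := le_trans (le_trans (le_max_left _ _) (le_max_left _ _)) hn
  have hn2 : r₂ ≤ n := le_trans (le_trans (le_max_right _ _) (le_max_left _ _)) hn
  have hn3 : 1 ≤ n := le_trans (le_max_right _ _) hn
  have hnpos : (0 : ℝ) < n := by exact_mod_cast hn3
  set x : ℝ := Real.sqrt (Real.sqrt n) with hx
  have hx4 : x ^ 4 = n := by
    rw [show (x ^ 4) = (x ^ 2) ^ 2 by ring, hx, Real.sq_sqrt (Real.sqrt_nonneg _),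
      Real.sq_sqrt (by positivity)]
  have hx2 : x ^ 2 = Real.sqrt n := by
    rw [hx, Real.sq_sqrt (Real.sqrt_nonneg _)]
  have hx1 : 1 ≤ x := by
    rw [hx, Real.one_le_sqrt, Real.one_le_sqrt]
    exact_mod_cast hn3
  have hst : (st n : ℝ) ≤ 16 * x ^ 2 := by
    rw [hx2]
    exact ST.st_le n
  have hlog : (Nat.log 2 n : ℝ) ≤ 8 * x := by
    have h1 : (2 : ℝ) ^ (Nat.log 2 n) ≤ n := by
      exact_mod_cast Nat.pow_log_le_self 2 (by omega)
    have h2 : (Nat.log 2 n : ℝ) * Real.log 2 ≤ Real.log n := by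
      rw [← Real.log_pow]
      exact Real.log_le_log (by positivity) h1
    have h3 : Real.log n = 4 * Real.log x := by
      rw [← hx4, Real.log_pow]
      norm_num
    have h4 : Real.log x ≤ x - 1 := Real.log_le_sub_one_of_pos (by linarith)
    have h5 : (1 / 2 : ℝ) < Real.log 2 := by
      have := Real.log_two_gt_d9
      linarith
    have h6 : (0 : ℝ) ≤ Nat.log 2 n := by positivity
    nlinarith
  have hgx : (gx n : ℝ) ≤ 2 ^ 21 + 192 * x ^ 3 := by
    rw [gx]
    push_cast
    have h1 : (st n : ℝ) * (4 + (Nat.log 2 n : ℝ)) ≤ (16 * x ^ 2) * (12 * x) := by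
      apply mul_le_mul hst _ (by positivity) (by positivity)
      linarith
    linarith [show (16 * x ^ 2) * (12 * x) = 192 * x ^ 3 by ring]
  have h21 : (2 : ℝ) ^ 21 ≤ c / 2 * n := by
    have h1 : (2 ^ 21) * 2 / c ≤ (n : ℝ) := le_trans hr₁ (by exact_mod_cast hn1)
    rw [div_le_iff₀ hc] at h1
    linarith
  have hxc : 400 / c ≤ x := by
    have h1 : (400 / c) ^ 4 ≤ x ^ 4 := by
      rw [hx4]
      exact le_trans hr₂ (by exact_mod_cast hn2)
    exact le_of_pow_le_pow_left₀ (by norm_num) (by linarith) h1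
  have hx3 : 192 * x ^ 3 ≤ c / 2 * n := by
    rw [div_le_iff₀ hc] at hxc
    rw [← hx4, show c / 2 * x ^ 4 = (x * c / 2) * x ^ 3 by ring]
    apply mul_le_mul_of_nonneg_right _ (by positivity)
    linarith
  linarith

end

end RSF
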