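import Pool.Agent.RSF.Stmts4

/-!
# RSF, UI: an injective pair `(x, y) ↦ u x + A u y`
-/

namespace RSF

open Polynomial

namespace UI

variable {F V : Type} [Field F] [AddCommGroup V] [Module F V]

/-- a functional with value `1` at a nonzero vector -/
theorem exists_fun {h : ℕ} (x : Fin h → F) (hx : x ≠ 0) :
    ∃ φ : (Fin h → F) →ₗ[F] F, φ x = 1 := by
  obtain ⟨i, hi⟩ := Function.ne_iff.mp hx
  refine ⟨(x i)⁻¹ • LinearMap.proj i, ?_⟩
  simp only [LinearMap.smul_apply, LinearMap.proj_apply, smul_eq_mul]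
  exact inv_mul_cancel₀ hi

/-- the linear map `u ↦ u x + A u y` -/
def L (A : V →ₗ[F] V) {h : ℕ} (z : (Fin h → F) × (Fin h → F)) :
    ((Fin h → F) →ₗ[F] V) →ₗ[F] V where
  toFun u := u z.1 + A (u z.2)
  map_add' u v := by
    simp only [LinearMap.add_apply, map_add]
    abel
  map_smul' c u := by
    simp only [LinearMap.smul_apply, map_smul, RingHom.id_apply, smul_add]

theorem L_apply (A : V →ₗ[F] V) {h : ℕ} (z : (Fin h → F) × (Fin h → F))
    (u : (Fin h → F) →ₗ[F] V) : L A z u = u z.1 + A (u z.2) := rfl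

theorem range_bound [FiniteDimensional F V] (A : V →ₗ[F] V) (k : ℕ)
    (hA : ∀ μ : F, Module.finrank F (LinearMap.ker (A - μ • LinearMap.id)) ≤ k) {h : ℕ}
    (z : (Fin h → F) × (Fin h → F)) (hz : z ≠ 0) :
    Module.finrank F V ≤ Module.finrank F (LinearMap.range (L A z)) + k := by
  by_cases hy : z.2 = 0
  · have hx : z.1 ≠ 0 := by
      intro hx
      exact hz (Prod.ext hx hy)
    obtain ⟨φ, hφ⟩ := exists_fun z.1 hx
    have h1 : LinearMap.range (L A z) = ⊤ := by
      rw [LinearMap.range_eq_top]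
      intro v
      refine ⟨φ.smulRight v, ?_⟩
      rw [L_apply, hy, map_zero, map_zero, add_zero, LinearMap.smulRight_apply, hφ, one_smul]
    rw [h1, finrank_top]
    omega
  · obtain ⟨φ, hφ⟩ := exists_fun z.2 hy
    set μ : F := -(φ z.1) with hμ
    have h1 : LinearMap.range (A - μ • LinearMap.id) ≤ LinearMap.range (L A z) := by
      rintro _ ⟨v, rfl⟩
      refine ⟨φ.smulRight v, ?_⟩
      rw [L_apply, LinearMap.smulRight_apply, LinearMap.smulRight_apply, hφ, one_smul,
        LinearMap.sub_apply, LinearMap.smul_apply, LinearMap.id_apply, hμ, neg_smul]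
      abel
    have h2 := Submodule.finrank_mono h1
    have h3 := LinearMap.finrank_range_add_finrank_ker (A - μ • LinearMap.id)
    have h4 := hA μ
    omega

end UI

theorem t_UI : S_UI := by
  intro F V _ _ _ _ _ A k h hA hk
  classical
  have : Finite V := Module.finite_of_finite F
  have : Finite ((Fin h → F) →ₗ[F] V) := by
    have : Finite ((Fin h → F) → V) := inferInstance
    exact Finite.of_injective (fun u : (Fin h → F) →ₗ[F] V => (u : (Fin h → F) → V))
      DFunLike.coe_injective
  have := Fintype.ofFinite F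
  have := Fintype.ofFinite V
  have := Fintype.ofFinite ((Fin h → F) →ₗ[F] V)
  set q := Fintype.card F with hq
  have hq1 : 1 < q := Fintype.one_lt_card
  set n := Module.finrank F V with hn
  have hfW : Module.finrank F ((Fin h → F) →ₗ[F] V) = h * n := by
    rw [Module.finrank_linearMap, Module.finrank_fin_fun]
  have hcW : Fintype.card ((Fin h → F) →ₗ[F] V) = q ^ (h * n) := by
    rw [Module.card_eq_pow_finrank (K := F) (V := (Fin h → F) →ₗ[F] V), hfW]
  -- the bound for one equation
  have hker : ∀ z : (Fin h → F) × (Fin h → F), z ≠ 0 →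
      (Finset.univ.filter fun u : (Fin h → F) →ₗ[F] V => UI.L (A : V →ₗ[F] V) z u = 0).card ≤
        q ^ (h * n + k - n) := by
    intro z hz
    have h1 : (Finset.univ.filter fun u : (Fin h → F) →ₗ[F] V => UI.L (A : V →ₗ[F] V) z u = 0).card =
        Fintype.card (LinearMap.ker (UI.L (A : V →ₗ[F] V) z)) := by
      rw [← Fintype.card_coe]
      refine Fintype.card_congr (Equiv.subtypeEquivRight fun u => ?_)
      simp [LinearMap.mem_ker]
    rw [h1, Module.card_eq_pow_finrank (K := F)]
    refine Nat.pow_le_pow_right (by omega) ?_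
    have h2 := LinearMap.finrank_range_add_finrank_ker (UI.L (A : V →ₗ[F] V) z)
    have h3 := UI.range_bound (A : V →ₗ[F] V) k hA z hz
    omega
  by_contra hcon
  push Not at hcon
  -- all `u` are bad
  have hbad : ∀ u : (Fin h → F) →ₗ[F] V, ∃ z : (Fin h → F) × (Fin h → F), z ≠ 0 ∧
      UI.L (A : V →ₗ[F] V) z u = 0 := by
    intro u
    have h1 := hcon u
    rw [Function.Injective] at h1
    push Not at h1
    obtain ⟨a, b, hab, hne⟩ := h1
    refine ⟨a - b, sub_ne_zero.mpr hne, ?_⟩
    rw [UI.L_apply, Prod.fst_sub, Prod.snd_sub, map_sub, map_sub, map_sub]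
    have h2 : u a.1 + A (u a.2) = u b.1 + A (u b.2) := hab
    have h3 : u a.1 - u b.1 + (A (u a.2) - A (u b.2)) =
        (u a.1 + A (u a.2)) - (u b.1 + A (u b.2)) := by abel
    calc u a.1 - u b.1 + ((A : V →ₗ[F] V) (u a.2) - (A : V →ₗ[F] V) (u b.2)) =
        (u a.1 + A (u a.2)) - (u b.1 + A (u b.2)) := h3
      _ = 0 := by rw [h2, sub_self]
  have hcov : (Finset.univ : Finset ((Fin h → F) →ₗ[F] V)) ⊆
      ((Finset.univ : Finset ((Fin h → F) × (Fin h → F))).erase 0).biUnion
        fun z => Finset.univ.filter fun u : (Fin h → F) →ₗ[F] V => UI.L (A : V →ₗ[F] V) z u = 0 := by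
    intro u _
    obtain ⟨z, hz, hzu⟩ := hbad u
    exact Finset.mem_biUnion.mpr ⟨z, Finset.mem_erase.mpr ⟨hz, Finset.mem_univ _⟩,
      Finset.mem_filter.mpr ⟨Finset.mem_univ _, hzu⟩⟩
  have h1 := Finset.card_le_card hcov
  have h2 := h1.trans (Finset.card_biUnion_le_card_mul _ _ (q ^ (h * n + k - n))
    fun z hz => hker z (Finset.ne_of_mem_erase hz))
  have h3 : ((Finset.univ : Finset ((Fin h → F) × (Fin h → F))).erase 0).card + 1 = q ^ (2 * h) := by
    rw [Finset.card_erase_add_one (Finset.mem_univ _), Finset.card_univ, Fintype.card_prod,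
      Fintype.card_fun, Fintype.card_fin, ← pow_add, two_mul]
  rw [Finset.card_univ, hcW] at h2
  have h4 : ((Finset.univ : Finset ((Fin h → F) × (Fin h → F))).erase 0).card < q ^ (2 * h) := by
    omega
  have h5 : 0 < q ^ (h * n + k - n) := Nat.pos_of_ne_zero (pow_ne_zero _ (by omega))
  have h6 := Nat.mul_lt_mul_of_pos_right h4 h5
  rw [← pow_add] at h6
  have h7 : q ^ (2 * h + (h * n + k - n)) ≤ q ^ (h * n) := by
    refine Nat.pow_le_pow_right (by omega) ?_
    rcases Nat.eq_zero_or_pos h with hh | hh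
    · subst hh
      omega
    · have : n ≤ h * n := Nat.le_mul_of_pos_left n hh
      omega
  omega

end RSF
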