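import Pool.Agent.RSF.Stmts4

/-!
# Every invertible matrix is conjugate to a product `U L`
-/

namespace RSF

open Matrix

noncomputable section

namespace UL

variable {F : Type} [Field F] {h : ℕ}

set_option linter.unusedSectionVars false

/-- block matrix -/
def bl (A : Matrix (Fin h) (Fin h) F) (y x : Fin h → F) (d : F) :
    Matrix (Fin (h + 1)) (Fin (h + 1)) F :=
  Matrix.of (Fin.snoc (α := fun _ => Fin (h + 1) → F)
    (fun i => Fin.snoc (α := fun _ => F) (A i) (y i)) (Fin.snoc (α := fun _ => F) x d))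

lemma bl_cc (A : Matrix (Fin h) (Fin h) F) (y x : Fin h → F) (d : F) (i j : Fin h) :
    bl A y x d i.castSucc j.castSucc = A i j := by
  simp [bl]

lemma bl_cl (A : Matrix (Fin h) (Fin h) F) (y x : Fin h → F) (d : F) (i : Fin h) :
    bl A y x d i.castSucc (Fin.last h) = y i := by
  simp [bl]

lemma bl_lc (A : Matrix (Fin h) (Fin h) F) (y x : Fin h → F) (d : F) (j : Fin h) :
    bl A y x d (Fin.last h) j.castSucc = x j := by
  simp [bl]

lemma bl_ll (A : Matrix (Fin h) (Fin h) F) (y x : Fin h → F) (d : F) :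
    bl A y x d (Fin.last h) (Fin.last h) = d := by
  simp [bl]

lemma bl_mul (A A' : Matrix (Fin h) (Fin h) F) (y x y' x' : Fin h → F) (d d' : F) :
    bl A y x d * bl A' y' x' d' =
      bl (A * A' + Matrix.of fun i j => y i * x' j) (A *ᵥ y' + fun i => y i * d')
        (x ᵥ* A' + fun j => d * x' j) (x ⬝ᵥ y' + d * d') := by
  ext i j
  rw [Matrix.mul_apply, Fin.sum_univ_castSucc]
  refine Fin.lastCases ?_ (fun i => ?_) i <;> refine Fin.lastCases ?_ (fun j => ?_) j
  · simp only [bl_ll, bl_cl, bl_lc, dotProduct]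
  · simp only [bl_ll, bl_cc, bl_lc, Matrix.vecMul, dotProduct, Pi.add_apply]
  · simp only [bl_ll, bl_cl, bl_cc, Matrix.mulVec, dotProduct, Pi.add_apply]
  · simp only [bl_cc, bl_cl, bl_lc, Matrix.add_apply, Matrix.mul_apply, Matrix.of_apply]

lemma bl_one : bl (1 : Matrix (Fin h) (Fin h) F) 0 0 1 = 1 := by
  ext i j
  refine Fin.lastCases ?_ (fun i => ?_) i <;> refine Fin.lastCases ?_ (fun j => ?_) j
  · simp [bl_ll]
  · rw [bl_lc, Matrix.one_apply_ne (Fin.castSucc_lt_last j).ne']
    rfl
  · rw [bl_cl, Matrix.one_apply_ne (Fin.castSucc_lt_last i).ne]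
    rfl
  · rw [bl_cc, Matrix.one_apply, Matrix.one_apply]
    simp

lemma bl_self (M : Matrix (Fin (h + 1)) (Fin (h + 1)) F) :
    M = bl (Matrix.of fun i j => M i.castSucc j.castSucc) (fun i => M i.castSucc (Fin.last h))
      (fun j => M (Fin.last h) j.castSucc) (M (Fin.last h) (Fin.last h)) := by
  ext i j
  refine Fin.lastCases ?_ (fun i => ?_) i <;> refine Fin.lastCases ?_ (fun j => ?_) j
  · simp [bl_ll]
  · simp [bl_lc]
  · simp [bl_cl]
  · simp [bl_cc]

/-- the block diagonal matrix with blocks `Q`, `1` -/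
def ex (Q : GL (Fin h) F) : GL (Fin (h + 1)) F where
  val := bl Q.1 0 0 1
  inv := bl (Q⁻¹).1 0 0 1
  val_inv := by
    rw [bl_mul, ← bl_one]
    have h1 : Q.1 * (Q⁻¹).1 = 1 := Q.mul_inv
    congr 1
    · rw [h1]
      ext i j
      simp
    · ext i
      simp
    · ext i
      simp
    · simp
  inv_val := by
    rw [bl_mul, ← bl_one]
    have h1 : (Q⁻¹).1 * Q.1 = 1 := Q.inv_mul
    congr 1
    · rw [h1]
      ext i j
      simp
    · ext i
      simp
    · ext i
      simp
    · simp

/-- some conjugate has a nonzero last entry -/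
lemma exists_last (G : GL (Fin (h + 1)) F) :
    ∃ P : GL (Fin (h + 1)) F, (P * G * P⁻¹ : GL (Fin (h + 1)) F).1 (Fin.last h) (Fin.last h) ≠ 0 := by
  by_cases h0 : G.1 (Fin.last h) (Fin.last h) = 0
  · have hex : ∃ i, G.1 i (Fin.last h) ≠ 0 := by
      by_contra hc
      push Not at hc
      have hd : G.1.det = 0 := Matrix.det_eq_zero_of_column_eq_zero (Fin.last h) hc
      have hu : IsUnit G.1.det := (Matrix.isUnit_iff_isUnit_det _).1 G.isUnit
      rw [hd] at hu
      exact not_isUnit_zero hu
    obtain ⟨i, hi⟩ := hex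
    have hne : Fin.last h ≠ i := by
      rintro rfl
      exact hi h0
    let P : GL (Fin (h + 1)) F :=
      { val := transvection (Fin.last h) i 1
        inv := transvection (Fin.last h) i (-1)
        val_inv := by
          rw [transvection_mul_transvection_same _ _ hne]
          simp
        inv_val := by
          rw [transvection_mul_transvection_same _ _ hne]
          simp }
    refine ⟨P, ?_⟩
    show (transvection (Fin.last h) i 1 * G.1 * transvection (Fin.last h) i (-1) :
      Matrix (Fin (h + 1)) (Fin (h + 1)) F) (Fin.last h) (Fin.last h) ≠ 0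
    rw [mul_transvection_apply_of_ne _ _ _ _ hne, transvection_mul_apply_same, h0]
    simpa using hi
  · exact ⟨1, by simpa using h0⟩

/-- the Schur complement -/
def sc (M : Matrix (Fin (h + 1)) (Fin (h + 1)) F) : Matrix (Fin h) (Fin h) F :=
  Matrix.of fun i j => M i.castSucc j.castSucc -
    M i.castSucc (Fin.last h) * M (Fin.last h) j.castSucc / M (Fin.last h) (Fin.last h)

lemma sc_unit (G : GL (Fin (h + 1)) F) (hd : G.1 (Fin.last h) (Fin.last h) ≠ 0) :
    IsUnit (sc G.1) := by
  rw [← Matrix.mulVec_injective_iff_isUnit]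
  have hG : Function.Injective G.1.mulVec :=
    Matrix.mulVec_injective_iff_isUnit.2 G.isUnit
  refine (injective_iff_map_eq_zero (Matrix.mulVecLin (sc G.1))).2 ?_
  intro w hw
  have hw' : ∀ i, ∑ j, sc G.1 i j * w j = 0 := fun i => congrFun hw i
  let s : F := ∑ j, G.1 (Fin.last h) j.castSucc * w j
  let z : Fin (h + 1) → F := Fin.snoc (α := fun _ => F) w (-(s / G.1 (Fin.last h) (Fin.last h)))
  have hz : G.1.mulVec z = 0 := by
    ext i
    rw [Matrix.mulVec, dotProduct, Fin.sum_univ_castSucc]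
    simp only [z, Fin.snoc_castSucc, Fin.snoc_last, Pi.zero_apply]
    refine Fin.lastCases ?_ (fun i => ?_) i
    · show s + _ = 0
      field_simp
      ring
    · have h1 := hw' i
      simp only [sc, Matrix.of_apply, sub_mul, Finset.sum_sub_distrib] at h1
      have h2 : ∑ j, G.1 i.castSucc (Fin.last h) * G.1 (Fin.last h) j.castSucc /
          G.1 (Fin.last h) (Fin.last h) * w j =
          G.1 i.castSucc (Fin.last h) * (s / G.1 (Fin.last h) (Fin.last h)) := by
        rw [show G.1 i.castSucc (Fin.last h) * (s / G.1 (Fin.last h) (Fin.last h)) =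
          (G.1 i.castSucc (Fin.last h) / G.1 (Fin.last h) (Fin.last h)) * s by ring,
          Finset.mul_sum]
        refine Finset.sum_congr rfl fun j _ => ?_
        ring
      rw [h2] at h1
      rw [mul_neg, ← sub_eq_add_neg]
      exact h1
  have h0 : z = 0 := hG (by rw [hz, Matrix.mulVec_zero])
  ext j
  have := congrFun h0 j.castSucc
  simpa [z] using this

lemma step (G : GL (Fin (h + 1)) F) (hd : G.1 (Fin.last h) (Fin.last h) ≠ 0)
    (ih : ∀ G : GL (Fin h) F, ∃ (P : GL (Fin h) F) (U L : Matrix (Fin h) (Fin h) F),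
      (∀ i j, j < i → U i j = 0) ∧ (∀ i j, i < j → L i j = 0) ∧ (∀ i, L i i = 1) ∧
      (P * G * P⁻¹ : GL (Fin h) F).1 = U * L) :
    ∃ (P : GL (Fin (h + 1)) F) (U L : Matrix (Fin (h + 1)) (Fin (h + 1)) F),
      (∀ i j, j < i → U i j = 0) ∧ (∀ i j, i < j → L i j = 0) ∧ (∀ i, L i i = 1) ∧
      (P * G * P⁻¹ : GL (Fin (h + 1)) F).1 = U * L := by
  obtain ⟨Q, U', L', hU, hL, hL1, hQ⟩ := ih (sc_unit G hd).unit
  have hQ' : Q.1 * sc G.1 * (Q⁻¹).1 = U' * L' := hQ
  set d := G.1 (Fin.last h) (Fin.last h) with hdd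
  set D : Matrix (Fin h) (Fin h) F := Matrix.of fun i j => G.1 i.castSucc j.castSucc with hD
  set y : Fin h → F := fun i => G.1 i.castSucc (Fin.last h) with hy
  set x : Fin h → F := fun j => G.1 (Fin.last h) j.castSucc with hx
  have hG : G.1 = bl D y x d := bl_self G.1
  refine ⟨ex Q, bl U' (Q.1 *ᵥ y) 0 d, bl L' 0 (fun j => (x ᵥ* (Q⁻¹).1) j / d) 1, ?_, ?_, ?_, ?_⟩
  · intro i j
    refine Fin.lastCases ?_ (fun i => ?_) i <;> refine Fin.lastCases ?_ (fun j => ?_) j
    · intro hlt
      exact absurd hlt (lt_irrefl _)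
    · intro _
      rw [bl_lc]
      rfl
    · intro hlt
      exact absurd (hlt.trans (Fin.castSucc_lt_last i)) (lt_irrefl _)
    · intro hlt
      rw [bl_cc]
      exact hU i j (Fin.castSucc_lt_castSucc_iff.1 hlt)
  · intro i j
    refine Fin.lastCases ?_ (fun i => ?_) i <;> refine Fin.lastCases ?_ (fun j => ?_) j
    · intro hlt
      exact absurd hlt (lt_irrefl _)
    · intro hlt
      exact absurd (hlt.trans (Fin.castSucc_lt_last j)) (lt_irrefl _)
    · intro _
      rw [bl_cl]
      rfl
    · intro hlt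
      rw [bl_cc]
      exact hL i j (Fin.castSucc_lt_castSucc_iff.1 hlt)
  · intro i
    refine Fin.lastCases ?_ (fun i => ?_) i
    · rw [bl_ll]
    · rw [bl_cc]
      exact hL1 i
  · show bl Q.1 0 0 1 * G.1 * bl (Q⁻¹).1 0 0 1 = _
    rw [hG, bl_mul, bl_mul, bl_mul]
    congr 1
    · have hs : Q.1 * D * (Q⁻¹).1 = Q.1 * sc G.1 * (Q⁻¹).1 +
          Q.1 * (Matrix.of fun i j => y i * (x j / d)) * (Q⁻¹).1 := by
        rw [← Matrix.add_mul, ← Matrix.mul_add]
        congr 2
        ext i j
        simp only [sc, hD, hy, hx, Matrix.add_apply, Matrix.of_apply]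
        ring
      have hr : Q.1 * (Matrix.of fun i j => y i * (x j / d)) * (Q⁻¹).1 =
          Matrix.of fun i j => (Q.1 *ᵥ y) i * ((x ᵥ* (Q⁻¹).1) j / d) := by
        ext i j
        simp only [Matrix.mul_apply, Matrix.of_apply, Matrix.mulVec, Matrix.vecMul, dotProduct]
        rw [Finset.sum_div, Finset.mul_sum]
        refine Finset.sum_congr rfl fun k _ => ?_
        rw [Finset.sum_mul, Finset.sum_mul]
        refine Finset.sum_congr rfl fun l _ => ?_
        ring
      have hz1 : (Matrix.of fun i j => (0 : Fin h → F) i * x j : Matrix (Fin h) (Fin h) F) = 0 := by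
        ext i j
        simp
      have hz2 : ∀ v : Fin h → F,
          (Matrix.of fun i j => v i * (0 : Fin h → F) j : Matrix (Fin h) (Fin h) F) = 0 := by
        intro v
        ext i j
        simp
      rw [hz1, hz2, add_zero, add_zero, hs, hQ', hr]
    · ext i
      simp
    · ext j
      simp only [Matrix.zero_vecMul, Pi.add_apply, Pi.zero_apply, one_mul, zero_add, mul_zero,
        add_zero]
      rw [mul_div_cancel₀ _ hd]
    · simp

end UL

open UL in
theorem t_UL : S_UL := by
  intro F _ h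
  induction h with
  | zero =>
    intro G
    refine ⟨1, 1, 1, fun i => i.elim0, fun i => i.elim0, fun i => i.elim0, ?_⟩
    ext i
    exact i.elim0
  | succ h ih =>
    intro G
    obtain ⟨P0, hP0⟩ := exists_last G
    obtain ⟨P, U, L, hU, hL, hL1, hP⟩ := step (P0 * G * P0⁻¹) hP0 ih
    refine ⟨P * P0, U, L, hU, hL, hL1, ?_⟩
    rw [← hP]
    congr 1
    group

end

end RSF
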