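import Pool.Agent.RSF.Fin1
import Pool.Agent.RSF.GB2
import Pool.Agent.RSF.B1
import Pool.Agent.RSF.BT
import Pool.Agent.RSF.B2
import Pool.Agent.RSF.IV
import Pool.Agent.RSF.CB
import Pool.Agent.RSF.IR
import Pool.Agent.RSF.RE
import Pool.Agent.RSF.ND
import Pool.Agent.RSF.NI
import Pool.Agent.RSF.GH
import Pool.Agent.RSF.HC
import Pool.Agent.RSF.CC
import Pool.Agent.RSF.UL
import Pool.Agent.RSF.LT
import Pool.Agent.RSF.IE
import Pool.Agent.RSF.RU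
import Pool.Agent.RSF.MX
import Pool.Agent.RSF.CY
import Pool.Agent.RSF.UI
import Pool.Agent.RSF.EU
import Pool.Agent.RSF.E2
import Pool.Agent.RSF.EN
import Pool.Agent.RSF.MA
import Pool.Agent.RSF.ST
import Pool.Agent.RSF.NG
import Pool.Agent.RSF.NX
import Pool.Agent.RSF.GB
import Pool.Agent.RSF.LG
import Pool.Agent.RSF.MT2
import Pool.Agent.RSF.MG
import Pool.Agent.RSF.MH
import Pool.Agent.RSF.MB

/-!
# Assembly, part 4
-/

namespace RSF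

theorem f_B2 : S_B2 := t_B2 t_B1 t_BT
theorem f_CB : S_CB := t_CB t_BT t_IV
theorem f_RE : S_RE := t_RE t_B1 f_B2 t_BT t_IV f_CB t_IR
theorem f_NI : S_NI := t_NI t_IR t_IV
theorem f_GH : S_GH := t_GH f_PI
theorem f_LT : S_LT := t_LT t_UL t_HC t_IV
theorem f_MX : S_MX := t_MX t_HC
theorem f_CY : S_CY := t_CY t_B1 f_B2 t_BT f_CB t_IV t_HC t_CC f_LT t_IE t_RU f_MX
theorem f_E2 : S_E2 := t_E2 t_B1 f_B2 t_BT f_CB t_IV t_HC t_CC f_LT t_IE t_EU f_CY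
theorem f_EN : S_EN := t_EN t_B1 f_B2 t_BT f_CB t_IV t_HC t_IR t_IE t_UI f_E2
theorem f_MA : S_MA := t_MA f_RE t_ND f_NI f_GH f_EN
theorem f_NG : S_NG := t_NG f_MA
theorem f_NX : S_NX := t_NX f_NG
theorem f_GB : S_GB := t_GB f_SUB
theorem f_LG : S_LG := t_LG t_CNT f_PI f_PJ f_NX f_GB
theorem f_MainT : MainT := t_MT2 f_HO f_HN t_UP f_KP f_LG t_ST
theorem f_MainG : MainG := t_MG t_H2 f_BH f_R2 f_LG t_ST t_AS
theorem f_MainH : MainH := t_MH f_MainT f_RG t_AS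
theorem f_MainB2 : MainB2 := t_MB f_MainT f_PJ t_AS
theorem f_MainGB : MainGB := mainGB f_MainG f_MainB2

end RSF
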