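import Pool.Agent.RSF.Stmts

/-!
# Module SUB (MP_5b5212_al): the number of subspaces
-/

namespace RSF

namespace SUB

open Module

theorem fib {F V : Type} [Field F] [Finite F] [AddCommGroup V] [Module F V]
    [FiniteDimensional F V] (k : ℕ) (hk : k ≤ finrank F V) :
    Nat.card {W : Submodule F V // finrank F W = k} *
        ∏ i : Fin k, (Nat.card F ^ k - Nat.card F ^ i.val) =
      ∏ i : Fin k, (Nat.card F ^ finrank F V - Nat.card F ^ i.val) := by
  classical
  have : Fintype F := Fintype.ofFinite F
  have : Finite V := Module.finite_of_finite F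
  have : Finite (Submodule F V) := Finite.of_injective (fun W : Submodule F V => (W : Set V))
    SetLike.coe_injective
  have hcV := card_linearIndependent (K := F) (V := V) hk
  have hcW : ∀ W : {W : Submodule F V // finrank F W = k},
      Nat.card {s : Fin k → W.1 // LinearIndependent F s} =
        ∏ i : Fin k, (Nat.card F ^ k - Nat.card F ^ i.val) := by
    intro W
    have h := card_linearIndependent (K := F) (V := W.1) (k := k) (le_of_eq W.2.symm)
    rw [h, W.2, Nat.card_eq_fintype_card]
  rw [Nat.card_eq_fintype_card (α := F), ← hcV]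
  let f : {s : Fin k → V // LinearIndependent F s} → {W : Submodule F V // finrank F W = k} :=
    fun s => ⟨Submodule.span F (Set.range s.1), by
      rw [finrank_span_eq_card s.2, Fintype.card_fin]⟩
  have hfib : ∀ W : {W : Submodule F V // finrank F W = k},
      Nat.card {s : {s : Fin k → V // LinearIndependent F s} // f s = W} =
        Nat.card {s : Fin k → W.1 // LinearIndependent F s} := by
    intro W
    have hmem : ∀ s : {s : {s : Fin k → V // LinearIndependent F s} // f s = W}, ∀ i,
        s.1.1 i ∈ W.1 := by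
      intro s i
      have h := congrArg Subtype.val s.2
      rw [← h]
      exact Submodule.subset_span ⟨i, rfl⟩
    refine Nat.card_congr
      { toFun := fun s => ⟨fun i => ⟨s.1.1 i, hmem s i⟩,
          LinearIndependent.of_comp (Submodule.subtype _) (by exact s.1.2)⟩
        invFun := fun t => ⟨⟨fun i => (t.1 i : V),
          t.2.map' (Submodule.subtype _) (Submodule.ker_subtype _)⟩, ?_⟩
        left_inv := fun s => rfl
        right_inv := fun t => rfl }
    apply Subtype.ext
    show Submodule.span F (Set.range fun i => (t.1 i : V)) = W.1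
    have hli : LinearIndependent F fun i => (t.1 i : V) :=
      t.2.map' (Submodule.subtype _) (Submodule.ker_subtype _)
    apply Submodule.eq_of_le_of_finrank_eq
    · rw [Submodule.span_le]
      rintro _ ⟨i, rfl⟩
      exact (t.1 i).2
    · rw [finrank_span_eq_card hli, Fintype.card_fin, W.2]
  have : Fintype {W : Submodule F V // finrank F W = k} := Fintype.ofFinite _
  have e := Equiv.sigmaFiberEquiv f
  rw [← Nat.card_congr e, Nat.card_sigma]
  rw [Finset.sum_congr rfl fun W _ => (hfib W).trans (hcW W), Finset.sum_const, smul_eq_mul,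
    Finset.card_univ, ← Nat.card_eq_fintype_card, ← Nat.card_eq_fintype_card]

theorem low {q n k : ℕ} (hq : 2 ≤ q) (hk : k ≤ n) :
    q ^ (k * (n - k)) * ∏ i : Fin k, (q ^ k - q ^ i.val) ≤
      ∏ i : Fin k, (q ^ n - q ^ i.val) := by
  have h1 : q ^ (k * (n - k)) = ∏ _i : Fin k, q ^ (n - k) := by
    rw [Finset.prod_const, Finset.card_univ, Fintype.card_fin, ← pow_mul, mul_comm]
  rw [h1, ← Finset.prod_mul_distrib]
  apply Finset.prod_le_prod'
  intro i _
  rw [Nat.mul_sub, ← pow_add, Nat.sub_add_cancel hk]
  apply Nat.sub_le_sub_left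
  exact Nat.le_mul_of_pos_left _ (by positivity)

theorem up (hPI : S_PI) {q k : ℕ} (hq : 2 ≤ q) :
    q ^ (k * k) ≤ 4 * ∏ i : Fin k, (q ^ k - q ^ i.val) := by
  have hq' : (2 : ℝ) ≤ (q : ℝ) := by exact_mod_cast hq
  have hq0 : (q : ℝ) ≠ 0 := by positivity
  have h := hPI (q : ℝ) hq' k
  have h1 : ((∏ i : Fin k, (q ^ k - q ^ i.val) : ℕ) : ℝ) =
      (q : ℝ) ^ (k * k) * ∏ i ∈ Finset.range k, (1 - ((q : ℝ)⁻¹) ^ (i + 1)) := by
    rw [Fin.prod_univ_eq_prod_range (fun i => q ^ k - q ^ i) k, ← Finset.prod_range_reflect]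
    rw [pow_mul]
    have h2 : ((q : ℝ) ^ k) ^ k = ∏ _i ∈ Finset.range k, (q : ℝ) ^ k := by
      rw [Finset.prod_const, Finset.card_range]
    rw [h2, ← Finset.prod_mul_distrib, Nat.cast_prod]
    apply Finset.prod_congr rfl
    intro i hi
    have hi' : i < k := Finset.mem_range.1 hi
    have hle : q ^ (k - 1 - i) ≤ q ^ k := Nat.pow_le_pow_right (by omega) (by omega)
    rw [Nat.cast_sub hle]
    push_cast
    have h3 : (q : ℝ) ^ k = (q : ℝ) ^ (k - 1 - i) * (q : ℝ) ^ (i + 1) := by
      rw [← pow_add]
      congr 1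
      omega
    rw [mul_sub, mul_one, inv_pow]
    congr 1
    rw [h3, mul_assoc, mul_inv_cancel₀ (pow_ne_zero _ hq0), mul_one]
  have h4 : ((q ^ (k * k) : ℕ) : ℝ) ≤ ((4 * ∏ i : Fin k, (q ^ k - q ^ i.val) : ℕ) : ℝ) := by
    rw [Nat.cast_mul, h1]
    push_cast
    have h5 : (0 : ℝ) < (q : ℝ) ^ (k * k) := by positivity
    nlinarith
  exact_mod_cast h4

end SUB

theorem t_SUB : M_SUB := by
  intro hPI F V _ _ _ _ _ k hk
  have hq : 2 ≤ Nat.card F := by
    have : Fintype F := Fintype.ofFinite F
    rw [Nat.card_eq_fintype_card]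
    exact Fintype.one_lt_card
  set q := Nat.card F with hqdef
  set n := Module.finrank F V with hn
  have hf := SUB.fib (F := F) (V := V) k hk
  rw [← hqdef, ← hn] at hf
  set P := ∏ i : Fin k, (q ^ k - q ^ i.val) with hP
  set N := Nat.card {W : Submodule F V // Module.finrank F W = k} with hN
  have hup := SUB.up hPI (k := k) hq
  rw [← hP] at hup
  have hPpos : 0 < P := by
    have : 0 < q ^ (k * k) := by positivity
    omega
  constructor
  · have h1 := SUB.low (n := n) (k := k) hq hk
    rw [← hP, ← hf] at h1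
    exact Nat.le_of_mul_le_mul_right h1 hPpos
  · have h2 : N * P ≤ q ^ (n * k) := by
      rw [hf]
      calc ∏ i : Fin k, (q ^ n - q ^ i.val) ≤ ∏ _i : Fin k, q ^ n :=
            Finset.prod_le_prod' fun i _ => Nat.sub_le _ _
        _ = q ^ (n * k) := by
            rw [Finset.prod_const, Finset.card_univ, Fintype.card_fin, ← pow_mul]
    have h3 : N * q ^ (k * k) ≤ (4 * q ^ (k * (n - k))) * q ^ (k * k) := by
      calc N * q ^ (k * k) ≤ N * (4 * P) := Nat.mul_le_mul_left _ hup
        _ = 4 * (N * P) := by ring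
        _ ≤ 4 * q ^ (n * k) := Nat.mul_le_mul_left _ h2
        _ = (4 * q ^ (k * (n - k))) * q ^ (k * k) := by
            rw [mul_assoc, ← pow_add]
            congr 2
            obtain ⟨d, hd⟩ := Nat.exists_eq_add_of_le hk
            rw [hd, Nat.add_sub_cancel_left]
            ring
    exact Nat.le_of_mul_le_mul_right h3 (by positivity)

end RSF
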