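import Pool.Agent.RSF.Stmts

/-!
# Invariant subspaces of an endomorphism killed by an irreducible polynomial
-/

namespace RSF

open Polynomial

noncomputable section

namespace IW

variable {F V : Type} [Field F] [AddCommGroup V] [Module F V]

/-- the action of `F[X] / (f)` -/
def act (f : F[X]) (A : Module.End F V) (hA : aeval A f = 0) : AdjoinRoot f →+* Module.End F V :=
  Ideal.Quotient.lift (Ideal.span {f}) (aeval A : F[X] →ₐ[F] Module.End F V).toRingHom (by
    intro a ha
    obtain ⟨b, rfl⟩ := Ideal.mem_span_singleton.1 ha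
    simp [hA])

lemma act_mk (f : F[X]) (A : Module.End F V) (hA : aeval A f = 0) (p : F[X]) :
    act f A hA (AdjoinRoot.mk f p) = aeval A p := by
  rfl

lemma aeval_mem (A : Module.End F V) (W : Submodule F V) (hW : ∀ w ∈ W, A w ∈ W) (p : F[X]) :
    ∀ w ∈ W, aeval A p w ∈ W := by
  induction p using Polynomial.induction_on' with
  | add p q hp hq =>
    intro w hw
    rw [map_add, LinearMap.add_apply]
    exact W.add_mem (hp w hw) (hq w hw)
  | monomial n a =>
    intro w hw
    rw [aeval_monomial, Module.End.mul_apply, Module.algebraMap_end_apply]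
    refine W.smul_mem _ ?_
    clear a
    induction n with
    | zero => simpa using hw
    | succ n ih =>
      rw [pow_succ', Module.End.mul_apply]
      exact hW _ ih

end IW

theorem t_IW : M_IW := by
  intro hsub F V _ _ _ _ _ f hf hirr A hA k hk
  haveI : Fact (Irreducible f) := ⟨hirr⟩
  letI : Module (AdjoinRoot f) V := Module.compHom V (IW.act f A hA)
  have hsm : ∀ (p : F[X]) (v : V), (AdjoinRoot.mk f p) • v = aeval A p v := fun p v => rfl
  haveI : IsScalarTower F (AdjoinRoot f) V := by
    refine ⟨fun a c v => ?_⟩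
    obtain ⟨p, rfl⟩ := AdjoinRoot.mk_surjective c
    have h1 : a • (AdjoinRoot.mk f p) = AdjoinRoot.mk f (a • p) := rfl
    rw [h1, hsm, hsm, map_smul, LinearMap.smul_apply]
  have hf0 : f ≠ 0 := hf.ne_zero
  have hfr : Module.finrank F (AdjoinRoot f) = f.natDegree := by
    rw [(AdjoinRoot.powerBasis hf0).finrank, AdjoinRoot.powerBasis_dim]
  haveI : Module.Finite F (AdjoinRoot f) := (AdjoinRoot.powerBasis hf0).finite
  haveI : Finite (AdjoinRoot f) := Module.finite_of_finite F
  haveI : FiniteDimensional (AdjoinRoot f) V := Module.Finite.of_restrictScalars_finite F _ V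
  have hcard : Nat.card (AdjoinRoot f) = Nat.card F ^ f.natDegree := by
    rw [← hfr]
    exact Module.natCard_eq_pow_finrank
  have hdpos : 0 < f.natDegree := hirr.natDegree_pos
  have hmul : ∀ W' : Submodule (AdjoinRoot f) V,
      f.natDegree * Module.finrank (AdjoinRoot f) W' =
        Module.finrank F (W'.restrictScalars F) := by
    intro W'
    rw [← hfr]
    exact Module.finrank_mul_finrank F (AdjoinRoot f) W'
  have hmulV : f.natDegree * Module.finrank (AdjoinRoot f) V = Module.finrank F V := by
    rw [← hfr]
    exact Module.finrank_mul_finrank F (AdjoinRoot f) V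
  -- the subspace over the field of the classes of polynomials
  let up : ∀ W : Submodule F V, (∀ w ∈ W, A w ∈ W) → Submodule (AdjoinRoot f) V := fun W hW =>
    { W.toAddSubmonoid with
      smul_mem' := by
        intro c w hw
        obtain ⟨p, rfl⟩ := AdjoinRoot.mk_surjective c
        rw [hsm]
        exact IW.aeval_mem A W hW p w hw }
  have hup : ∀ W hW, (up W hW).restrictScalars F = W := by
    intro W hW
    ext w
    rfl
  have hmulup : ∀ W hW, f.natDegree * Module.finrank (AdjoinRoot f) (up W hW) =
      Module.finrank F W := by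
    intro W hW
    rw [hmul, hup W hW]
  set n' := Module.finrank (AdjoinRoot f) V with hn'
  set k' := k / f.natDegree with hk'
  by_cases hdvd : f.natDegree ∣ k
  · obtain ⟨j, hj⟩ := hdvd
    have hjk : k' = j := by
      rw [hk', hj]
      exact Nat.mul_div_cancel_left j hdpos
    have hjn : j ≤ n' := by
      rw [hj, ← hmulV] at hk
      exact Nat.le_of_mul_le_mul_left hk hdpos
    have h1 := (hsub (AdjoinRoot f) V j hjn).2
    have h2 : Nat.card {W : Submodule F V // Module.finrank F W = k ∧ ∀ w ∈ W, A w ∈ W} ≤
        Nat.card {W : Submodule (AdjoinRoot f) V // Module.finrank (AdjoinRoot f) W = j} := by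
      haveI : Finite V := Module.finite_of_finite F
      haveI : Finite (Submodule (AdjoinRoot f) V) :=
        Finite.of_injective (fun W : Submodule (AdjoinRoot f) V => (W : Set V))
          SetLike.coe_injective
      refine Nat.card_le_card_of_injective
        (fun W => ⟨up W.1 W.2.2, ?_⟩) ?_
      · exact Nat.eq_of_mul_eq_mul_left hdpos ((hmulup W.1 W.2.2).trans (W.2.1.trans hj))
      · rintro ⟨W, hW⟩ ⟨W', hW'⟩ h
        have h4 : up W hW.2 = up W' hW'.2 := congrArg Subtype.val h
        apply Subtype.ext
        change W = W'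
        rw [← hup W hW.2, ← hup W' hW'.2, h4]
    have h3 : (Nat.card {W : Submodule F V // Module.finrank F W = k ∧ ∀ w ∈ W, A w ∈ W} : ℝ) ≤
        4 * (Nat.card F : ℝ) ^ (f.natDegree * (j * (n' - j))) := by
      have h5 := h2.trans h1
      rw [hcard, ← pow_mul] at h5
      exact_mod_cast h5
    refine h3.trans (le_of_eq ?_)
    have h6 : ((k : ℝ) * ((Module.finrank F V : ℝ) - k) / (f.natDegree : ℝ)) =
        ((f.natDegree * (j * (n' - j)) : ℕ) : ℝ) := by
      have hd0 : (f.natDegree : ℝ) ≠ 0 := by
        exact_mod_cast hdpos.ne'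
      rw [← hmulV, hj]
      push_cast [Nat.cast_sub hjn]
      field_simp
    rw [h6, Real.rpow_natCast]
  · have hemp : IsEmpty {W : Submodule F V // Module.finrank F W = k ∧ ∀ w ∈ W, A w ∈ W} := by
      refine ⟨fun W => hdvd ?_⟩
      exact ⟨_, ((hmulup W.1 W.2.2).trans W.2.1).symm⟩
    rw [Nat.card_eq_zero.2 (Or.inl hemp)]
    simp only [Nat.cast_zero]
    positivity

end

end RSF
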