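import Pool.Agent.RSF.Stmts

/-!
# The limit (module AS)
-/

namespace RSF

namespace AS

theorem card_PS (n : ℕ) (F : Type) [Field F] [Finite F] :
    Nat.card (PS n F) ≤ Nat.card F ^ (n * n) := by
  have h1 : Nat.card (PS n F) ≤ Nat.card (Matrix.SpecialLinearGroup (Fin n) F) :=
    Nat.card_le_card_of_surjective (QuotientGroup.mk : Matrix.SpecialLinearGroup (Fin n) F → PS n F)
      QuotientGroup.mk_surjective
  have h2 : Nat.card (Matrix.SpecialLinearGroup (Fin n) F) ≤ Nat.card (Matrix (Fin n) (Fin n) F) :=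
    Nat.card_le_card_of_injective (fun A => A.1) Subtype.val_injective
  have h3 : Nat.card (Matrix (Fin n) (Fin n) F) = Nat.card F ^ (n * n) := by
    have e : Nat.card (Matrix (Fin n) (Fin n) F) = Nat.card (Fin n → Fin n → F) := rfl
    rw [e, Nat.card_fun, Nat.card_fun, Nat.card_fin, ← pow_mul]
  rw [← h3]
  exact h1.trans h2

theorem lim1 (c C : ℝ) (hc : 0 < c) :
    Filter.Tendsto (fun n : ℕ => C * ((n : ℝ) + 1) ^ C * (2 : ℝ) ^ (-(c * (n : ℝ) / 2)))
      Filter.atTop (nhds 0) := by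
  have h1 : Filter.Tendsto (fun x : ℝ => x ^ C * Real.exp (-(c * Real.log 2 / 2) * x))
      Filter.atTop (nhds 0) :=
    tendsto_rpow_mul_exp_neg_mul_atTop_nhds_zero C (c * Real.log 2 / 2) (by
      have := Real.log_pos (show (1 : ℝ) < 2 by norm_num)
      positivity)
  have h2 : Filter.Tendsto (fun n : ℕ => ((n : ℝ) + 1)) Filter.atTop Filter.atTop :=
    Filter.tendsto_atTop_add_const_right _ _ tendsto_natCast_atTop_atTop
  have h3 := (h1.comp h2).const_mul (C * Real.exp (c * Real.log 2 / 2))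
  rw [mul_zero] at h3
  refine h3.congr fun n => ?_
  simp only [Function.comp]
  rw [Real.rpow_def_of_pos (show (0 : ℝ) < 2 by norm_num)]
  have e1 : Real.exp (Real.log 2 * (-(c * (n : ℝ) / 2))) =
      Real.exp (c * Real.log 2 / 2) * Real.exp (-(c * Real.log 2 / 2) * ((n : ℝ) + 1)) := by
    rw [← Real.exp_add]
    congr 1
    ring
  rw [e1]
  ring

end AS

open AS in
theorem t_AS : S_AS := by
  intro c C hc hC
  obtain ⟨r0, hr0⟩ := exists_nat_ge (2 * C / c)
  refine ⟨r0 + 1, by omega, fun ε hε => ?_⟩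
  obtain ⟨n0, hn0⟩ := (((lim1 c C hc).eventually (gt_mem_nhds hε)).exists_forall_of_atTop)
  -- large `q`
  have hq : Filter.Tendsto (fun Q : ℕ => C * ((n0 : ℝ) + 1) ^ C * (Q : ℝ) ^ (-(c / 2)))
      Filter.atTop (nhds 0) := by
    have h1 : Filter.Tendsto (fun x : ℝ => x ^ (-(c / 2))) Filter.atTop (nhds 0) :=
      tendsto_rpow_neg_atTop (by positivity)
    have h2 := (h1.comp tendsto_natCast_atTop_atTop).const_mul (C * ((n0 : ℝ) + 1) ^ C)
    rw [mul_zero] at h2
    exact h2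
  obtain ⟨Q, hQ⟩ := ((hq.eventually (gt_mem_nhds hε)).exists_forall_of_atTop)
  refine ⟨(Q + 1) ^ (n0 * n0) + 1, fun n hn F _ _ hN => ?_⟩
  have hN2 := hN.trans (card_PS n F)
  have hF : 2 ≤ Nat.card F := by
    have := Finite.one_lt_card (α := F)
    omega
  have hFr : (2 : ℝ) ≤ (Nat.card F : ℝ) := by exact_mod_cast hF
  have hnr : (2 * C / c) ≤ n := hr0.trans (by exact_mod_cast (by omega : r0 ≤ n))
  have hcn : 2 * C ≤ c * n := by
    have := mul_le_mul_of_nonneg_left hnr hc.le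
    rwa [mul_div_cancel₀ _ hc.ne'] at this
  have hexp : C - c * (n : ℝ) ≤ -(c * (n : ℝ) / 2) := by linarith
  have hp : (Nat.card F : ℝ) ^ (C - c * (n : ℝ)) ≤ (Nat.card F : ℝ) ^ (-(c * (n : ℝ) / 2)) :=
    Real.rpow_le_rpow_of_exponent_le (by linarith) hexp
  have hpos : (0 : ℝ) ≤ C * ((n : ℝ) + 1) ^ C := by positivity
  refine (mul_le_mul_of_nonneg_left hp hpos).trans ?_
  rcases le_or_gt n0 n with h | h
  · have h1 : (Nat.card F : ℝ) ^ (-(c * (n : ℝ) / 2)) ≤ (2 : ℝ) ^ (-(c * (n : ℝ) / 2)) :=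
      Real.rpow_le_rpow_of_nonpos (by norm_num) hFr (by
        have : 0 ≤ c * (n : ℝ) := by positivity
        linarith)
    exact (mul_le_mul_of_nonneg_left h1 hpos).trans (hn0 n h).le
  · have hQF : Q ≤ Nat.card F := by
      by_contra hlt
      push Not at hlt
      have h1 : Nat.card F ^ (n * n) ≤ (Q + 1) ^ (n0 * n0) := by
        calc Nat.card F ^ (n * n) ≤ (Q + 1) ^ (n * n) := Nat.pow_le_pow_left (by omega) _
          _ ≤ (Q + 1) ^ (n0 * n0) := Nat.pow_le_pow_right (by omega) (Nat.mul_le_mul h.le h.le)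
      omega
    have hn1 : (1 : ℝ) ≤ n := by exact_mod_cast (by omega : 1 ≤ n)
    have h1 : (Nat.card F : ℝ) ^ (-(c * (n : ℝ) / 2)) ≤ (Nat.card F : ℝ) ^ (-(c / 2)) :=
      Real.rpow_le_rpow_of_exponent_le (by linarith) (by nlinarith)
    have h2 : C * ((n : ℝ) + 1) ^ C ≤ C * ((n0 : ℝ) + 1) ^ C := by
      apply mul_le_mul_of_nonneg_left _ hC.le
      apply Real.rpow_le_rpow (by positivity) _ hC.le
      have : (n : ℝ) ≤ n0 := by exact_mod_cast h.le
      linarith
    calc C * ((n : ℝ) + 1) ^ C * (Nat.card F : ℝ) ^ (-(c * (n : ℝ) / 2))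
        ≤ C * ((n0 : ℝ) + 1) ^ C * (Nat.card F : ℝ) ^ (-(c / 2)) :=
          mul_le_mul h2 h1 (by positivity) (by positivity)
      _ ≤ ε := (hQ _ hQF).le

end RSF
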