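import Pool.Agent.RSF.Stmts

/-!
# The recursion step of the key count (module TS)
-/

namespace RSF

open Polynomial

noncomputable section

namespace TS

theorem finite_End (F V : Type) [Field F] [Finite F] [AddCommGroup V] [Module F V]
    [FiniteDimensional F V] : Finite (Module.End F V) := by
  have := Module.finite_of_finite F (M := V)
  exact DFunLike.finite _

theorem finite_Sub (F V : Type) [Field F] [Finite F] [AddCommGroup V] [Module F V]
    [FiniteDimensional F V] : Finite (Submodule F V) := by
  have := Module.finite_of_finite F (M := V)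
  exact Finite.of_injective (fun W : Submodule F V => (W : Set V)) SetLike.coe_injective

/-- counting by the fibres of a relation -/
theorem fib {α β : Type} [Finite α] [Finite β] (P : α → Prop) (Q : β → Prop) (R : α → β → Prop)
    (hR : ∀ a, P a → ∃ b, Q b ∧ R a b) (N M : ℝ) (hM : 0 ≤ M)
    (hN : (Nat.card {b // Q b} : ℝ) ≤ N)
    (h : ∀ b, Q b → (Nat.card {a // P a ∧ R a b} : ℝ) ≤ M) :
    (Nat.card {a // P a} : ℝ) ≤ N * M := by
  classical
  have := Fintype.ofFinite {b // Q b}
  choose φ hφ using hR
  let ψ : {a // P a} → Σ b : {b // Q b}, {a // P a ∧ R a b.1} := fun a =>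
    ⟨⟨φ a.1 a.2, (hφ a.1 a.2).1⟩, ⟨a.1, a.2, (hφ a.1 a.2).2⟩⟩
  have hψ : Function.Injective ψ := by
    intro a b hab
    have h1 : ((ψ a).2).1 = ((ψ b).2).1 := by rw [hab]
    exact Subtype.ext h1
  have h1 : Nat.card {a // P a} ≤ Nat.card (Σ b : {b // Q b}, {a // P a ∧ R a b.1}) :=
    Nat.card_le_card_of_injective ψ hψ
  rw [Nat.card_sigma] at h1
  have h2 : (Nat.card {a // P a} : ℝ) ≤
      ∑ b : {b // Q b}, (Nat.card {a // P a ∧ R a b.1} : ℝ) := by
    exact_mod_cast h1
  refine h2.trans ((Finset.sum_le_sum fun b _ => h b.1 b.2).trans ?_)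
  rw [Finset.sum_const, Finset.card_univ, nsmul_eq_mul, ← Nat.card_eq_fintype_card]
  exact mul_le_mul_of_nonneg_right hN hM

section

variable {F V : Type} [Field F] [AddCommGroup V] [Module F V]

theorem pow_coe (U : Submodule F V) (A : Module.End F V) (B : Module.End F U)
    (h : ∀ u : U, A u = B u) (n : ℕ) (u : U) : (((B ^ n) u : U) : V) = (A ^ n) (u : V) := by
  induction n generalizing u with
  | zero => simp
  | succ n ih =>
    rw [pow_succ, pow_succ, Module.End.mul_apply, Module.End.mul_apply, ih, h]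

theorem aeval_coe (U : Submodule F V) (A : Module.End F V) (B : Module.End F U)
    (h : ∀ u : U, A u = B u) (p : F[X]) (u : U) :
    ((aeval B p u : U) : V) = aeval A p (u : V) := by
  induction p using Polynomial.induction_on' with
  | add p q hp hq => simp [hp, hq]
  | monomial n a =>
    rw [aeval_monomial, aeval_monomial]
    simp only [Module.End.mul_apply, Module.algebraMap_end_apply, Submodule.coe_smul]
    rw [pow_coe U A B h]

theorem comm_aeval (A : Module.End F V) (p : F[X]) (v : V) :
    A (aeval A p v) = aeval A p (A v) := by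
  have h1 : A * aeval A p = aeval A p * A := by
    have h2 : aeval A (X * p) = aeval A (p * X) := by rw [mul_comm]
    rw [map_mul, map_mul, aeval_X] at h2
    exact h2
  have h3 := congrArg (fun T : Module.End F V => T v) h1
  simpa only [Module.End.mul_apply] using h3

end

theorem expo (s t x y x' y' : ℝ) (hs : 0 < s) (ht : 0 < t) :
    QQ (x + x') (y + y') / (s + t) ≤ QQ x y / s + QQ x' y' / t := by
  have h0 : ∀ a b : ℝ, 0 ≤ QQ a b := by
    intro a b
    rw [QQ]
    nlinarith [sq_nonneg (a - b), sq_nonneg a, sq_nonneg b]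
  have h1 : QQ x y / s + QQ x' y' / t - QQ (x + x') (y + y') / (s + t) =
      QQ (t * x - s * x') (t * y - s * y') / (s * t * (s + t)) := by
    have : s + t ≠ 0 := by positivity
    rw [QQ, QQ, QQ, QQ]
    field_simp
    ring
  have h2 := h0 (t * x - s * x') (t * y - s * y')
  have h3 : 0 ≤ QQ (t * x - s * x') (t * y - s * y') / (s * t * (s + t)) := by positivity
  linarith

end TS

open TS in
theorem t_TS : M_TS := by
  intro hSUB hXA hXW F V _ _ _ _ _ f g hf hirr hg m' C hm' hC hT k
  have hfE := finite_End F V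
  have hfS := finite_Sub F V
  have hq0 : (0 : ℝ) < Nat.card F := by exact_mod_cast Nat.card_pos
  have hq1 : (1 : ℝ) ≤ Nat.card F := by exact_mod_cast Nat.card_pos
  have hd : (0 : ℝ) < f.natDegree := by exact_mod_cast hirr.natDegree_pos
  set q : ℝ := (Nat.card F : ℝ) with hqdef
  set n : ℕ := Module.finrank F V with hn
  set d : ℝ := (f.natDegree : ℝ) with hddef
  -- stage 4 and 3
  have stage3 : ∀ (U : Submodule F V) (u w : ℕ), Module.finrank F U = u →
      (Nat.card {a : Module.End F V × Submodule F V //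
        ((aeval a.1 (f * g) = 0 ∧ Module.finrank F a.2 = k ∧ ∀ x ∈ a.2, a.1 x ∈ a.2) ∧
          (LinearMap.range (aeval a.1 f : Module.End F V)) = U ∧
          Module.finrank F (a.2.map (aeval a.1 f : Module.End F V)) = w)} : ℝ) ≤
        (C * q ^ ((u : ℝ) ^ 2 - QQ u w / m')) *
          (q ^ ((u : ℝ) * ((n : ℝ) - u) + ((n : ℝ) - u) ^ 2 * (1 - 1 / d)) *
            (4 * q ^ (((k : ℝ) - w) * (((n : ℝ) - u) - ((k : ℝ) - w)) / d))) := by
    intro U u w hU
    have hfEU := finite_End F U
    have hfSU := finite_Sub F U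
    refine fib _ (fun p : Module.End F U × Submodule F U =>
        aeval p.1 g = 0 ∧ Module.finrank F p.2 = w ∧ ∀ x ∈ p.2, p.1 x ∈ p.2)
      (fun (a : Module.End F V × Submodule F V) (p : Module.End F U × Submodule F U) =>
        (∀ x : U, a.1 (x : V) = ((p.1 x : U) : V)) ∧
        a.2.map (aeval a.1 f : Module.End F V) = p.2.map U.subtype) ?_ _ _ (by positivity) ?_ ?_
    · rintro ⟨A, W⟩ ⟨⟨h1, h2, h3⟩, h4, h5⟩
      simp only at h1 h2 h3 h4 h5 ⊢
      have hAU : ∀ x ∈ U, A x ∈ U := by
        intro x hx
        rw [← h4] at hx ⊢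
        obtain ⟨v, rfl⟩ := hx
        exact ⟨A v, (comm_aeval A f v).symm⟩
      have hle : W.map (aeval A f : Module.End F V) ≤ U := by
        rw [← h4]
        exact LinearMap.map_le_range
      have hB : ∀ x : U, A x = (A.restrict hAU) x := fun x => rfl
      refine ⟨(A.restrict hAU, (W.map (aeval A f : Module.End F V)).comap U.subtype),
        ⟨?_, ?_, ?_⟩, hB, ?_⟩
      · refine LinearMap.ext fun x => Subtype.ext ?_
        rw [aeval_coe U A _ hB g x]
        have hx : (x : V) ∈ LinearMap.range (aeval A f : Module.End F V) := by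
          rw [h4]
          exact x.2
        obtain ⟨v, hv⟩ := hx
        rw [← hv]
        have h6 : aeval A (g * f) v = 0 := by
          rw [mul_comm g f, h1]
          rfl
        rw [map_mul, Module.End.mul_apply] at h6
        simpa using h6
      · rw [← h5]
        have h7 := Submodule.finrank_map_subtype_eq U
          ((W.map (aeval A f : Module.End F V)).comap U.subtype)
        rw [Submodule.map_comap_subtype, inf_eq_right.2 hle] at h7
        exact h7.symm
      · rintro x ⟨v, hv, hvx⟩
        refine ⟨A v, h3 v hv, ?_⟩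
        rw [← comm_aeval, hvx]
        rfl
      · rw [Submodule.map_comap_subtype, inf_eq_right.2 hle]
    · have h1 := hT U w
      rw [nT, hU] at h1
      exact h1
    · rintro ⟨B, W1⟩ ⟨h1, h2, h3⟩
      simp only at h1 h2 h3
      refine fib _ (fun A : Module.End F V => (∀ x : U, A x = B x) ∧ ∀ v, aeval A f v ∈ U)
        (fun a A => a.1 = A) ?_ _ _ (by positivity) ?_ ?_
      · rintro ⟨A, W⟩ ⟨⟨⟨h4, h5, h6⟩, h7, h8⟩, h9, h10⟩
        refine ⟨A, ⟨h9, fun v => ?_⟩, rfl⟩
        simp only at h7
        rw [← h7]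
        exact ⟨v, rfl⟩
      · have h4 := hXA F V f hf hirr U B
        rw [hU] at h4
        exact h4
      · rintro A ⟨hA1, hA2⟩
        by_cases hr : LinearMap.range (aeval A f : Module.End F V) = U
        · have hfr : Module.finrank F (W1.map U.subtype) = w := by
            rw [Submodule.finrank_map_subtype_eq, h2]
          have h4 := hXW F V f hf hirr A (W1.map U.subtype) k (by
            rw [hr]
            exact Submodule.map_subtype_le U W1) (by
            rintro _ ⟨x, hx, rfl⟩
            refine ⟨B x, h3 x hx, ?_⟩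
            exact (hA1 x).symm)
          rw [hr, hU, hfr] at h4
          refine le_trans ?_ h4
          have hinj : Function.Injective (fun a : {a : Module.End F V × Submodule F V //
              (((aeval a.1 (f * g) = 0 ∧ Module.finrank F a.2 = k ∧ ∀ x ∈ a.2, a.1 x ∈ a.2) ∧
                (LinearMap.range (aeval a.1 f : Module.End F V)) = U ∧
                Module.finrank F (a.2.map (aeval a.1 f : Module.End F V)) = w) ∧
                (∀ x : U, a.1 x = B x) ∧
                a.2.map (aeval a.1 f : Module.End F V) = W1.map U.subtype) ∧ a.1 = A} =>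
              (⟨a.1.2, a.2.1.1.1.2.1, by
                  have h5 := a.2.1.1.1.2.2
                  rwa [a.2.2] at h5, by
                  have h5 := a.2.1.2.2
                  rwa [a.2.2] at h5⟩ :
                {W : Submodule F V // Module.finrank F W = k ∧ (∀ w ∈ W, A w ∈ W) ∧
                  W.map (aeval A f : Module.End F V) = W1.map U.subtype})) := by
            intro a b hab
            have h5 : a.1.2 = b.1.2 := congrArg Subtype.val hab
            exact Subtype.ext (Prod.ext (a.2.2.trans b.2.2.symm) h5)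
          exact_mod_cast Nat.card_le_card_of_injective _ hinj
        · have hz : Nat.card {a : Module.End F V × Submodule F V //
              (((aeval a.1 (f * g) = 0 ∧ Module.finrank F a.2 = k ∧ ∀ x ∈ a.2, a.1 x ∈ a.2) ∧
                (LinearMap.range (aeval a.1 f : Module.End F V)) = U ∧
                Module.finrank F (a.2.map (aeval a.1 f : Module.End F V)) = w) ∧
                (∀ x : U, a.1 x = B x) ∧
                a.2.map (aeval a.1 f : Module.End F V) = W1.map U.subtype) ∧ a.1 = A} = 0 := by
            rw [Nat.card_eq_zero]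
            left
            refine ⟨fun a => hr ?_⟩
            have h5 := a.2.1.1.2.1
            rwa [a.2.2] at h5
          have hz' : (Nat.card {a : Module.End F V × Submodule F V //
              (((aeval a.1 (f * g) = 0 ∧ Module.finrank F a.2 = k ∧ ∀ x ∈ a.2, a.1 x ∈ a.2) ∧
                (LinearMap.range (aeval a.1 f : Module.End F V)) = U ∧
                Module.finrank F (a.2.map (aeval a.1 f : Module.End F V)) = w) ∧
                (∀ x : U, a.1 x = B x) ∧
                a.2.map (aeval a.1 f : Module.End F V) = W1.map U.subtype) ∧ a.1 = A} : ℝ) = 0 := by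
            rw [hz]
            exact Nat.cast_zero
          rw [hz']
          positivity
  -- stage 2
  have stage2 : ∀ (u w : ℕ), u ≤ n →
      (Nat.card {a : Module.End F V × Submodule F V //
        ((aeval a.1 (f * g) = 0 ∧ Module.finrank F a.2 = k ∧ ∀ x ∈ a.2, a.1 x ∈ a.2) ∧
          Module.finrank F (LinearMap.range (aeval a.1 f : Module.End F V)) = u ∧
          Module.finrank F (a.2.map (aeval a.1 f : Module.End F V)) = w)} : ℝ) ≤
        16 * C * q ^ ((n : ℝ) ^ 2 - QQ n k / (m' + d)) := by
    intro u w hu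
    have h1 : (Nat.card {W : Submodule F V // Module.finrank F W = u} : ℝ) ≤
        4 * q ^ ((u : ℝ) * ((n : ℝ) - u)) := by
      have h2 := (hSUB F V u hu).2
      have h3 : (Nat.card {W : Submodule F V // Module.finrank F W = u} : ℝ) ≤
          4 * q ^ (u * (n - u)) := by
        rw [hqdef]
        exact_mod_cast h2
      refine h3.trans (le_of_eq ?_)
      rw [← Real.rpow_natCast q (u * (n - u))]
      push_cast [Nat.cast_sub hu]
      rfl
    have h2 := fib (fun a : Module.End F V × Submodule F V =>
        ((aeval a.1 (f * g) = 0 ∧ Module.finrank F a.2 = k ∧ ∀ x ∈ a.2, a.1 x ∈ a.2) ∧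
          Module.finrank F (LinearMap.range (aeval a.1 f : Module.End F V)) = u ∧
          Module.finrank F (a.2.map (aeval a.1 f : Module.End F V)) = w))
      (fun U : Submodule F V => Module.finrank F U = u)
      (fun a U => LinearMap.range (aeval a.1 f : Module.End F V) = U)
      (fun a ha => ⟨_, ha.2.1, rfl⟩) (4 * q ^ ((u : ℝ) * ((n : ℝ) - u)))
      ((C * q ^ ((u : ℝ) ^ 2 - QQ u w / m')) *
          (q ^ ((u : ℝ) * ((n : ℝ) - u) + ((n : ℝ) - u) ^ 2 * (1 - 1 / d)) *
            (4 * q ^ (((k : ℝ) - w) * (((n : ℝ) - u) - ((k : ℝ) - w)) / d))))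
      (by positivity) h1 (by
        intro U hU
        refine le_trans ?_ (stage3 U u w hU)
        refine le_of_eq ?_
        congr 1
        refine Nat.card_congr (Equiv.subtypeEquivRight fun a => ?_)
        constructor
        · rintro ⟨⟨h3, _, h5⟩, h6⟩
          exact ⟨h3, h6, h5⟩
        · rintro ⟨h3, h6, h5⟩
          exact ⟨⟨h3, by rw [h6, hU], h5⟩, h6⟩)
    refine h2.trans ?_
    have h3 : 4 * q ^ ((u : ℝ) * ((n : ℝ) - u)) * ((C * q ^ ((u : ℝ) ^ 2 - QQ u w / m')) *
          (q ^ ((u : ℝ) * ((n : ℝ) - u) + ((n : ℝ) - u) ^ 2 * (1 - 1 / d)) *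
            (4 * q ^ (((k : ℝ) - w) * (((n : ℝ) - u) - ((k : ℝ) - w)) / d)))) =
        16 * C * q ^ ((n : ℝ) ^ 2 - (QQ u w / m' + QQ ((n : ℝ) - u) ((k : ℝ) - w) / d)) := by
      have h4 : (n : ℝ) ^ 2 - (QQ u w / m' + QQ ((n : ℝ) - u) ((k : ℝ) - w) / d) =
          (u : ℝ) * ((n : ℝ) - u) + (((u : ℝ) ^ 2 - QQ u w / m') +
          (((u : ℝ) * ((n : ℝ) - u) + ((n : ℝ) - u) ^ 2 * (1 - 1 / d)) +
          (((k : ℝ) - w) * (((n : ℝ) - u) - ((k : ℝ) - w)) / d))) := by
        have h5 : QQ ((n : ℝ) - u) ((k : ℝ) - w) = ((n : ℝ) - u) ^ 2 -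
          ((n : ℝ) - u) * ((k : ℝ) - w) + ((k : ℝ) - w) ^ 2 := rfl
        rw [h5]
        field_simp
        ring
      have h6 : ∀ a b c e : ℝ, q ^ (a + (b + (c + e))) = q ^ a * (q ^ b * (q ^ c * q ^ e)) := by
        intro a b c e
        rw [Real.rpow_add hq0, Real.rpow_add hq0, Real.rpow_add hq0]
      rw [h4, h6]
      ring
    rw [h3]
    have h4 : q ^ ((n : ℝ) ^ 2 - (QQ u w / m' + QQ ((n : ℝ) - u) ((k : ℝ) - w) / d)) ≤
        q ^ ((n : ℝ) ^ 2 - QQ n k / (m' + d)) := by
      refine Real.rpow_le_rpow_of_exponent_le hq1 ?_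
      have h5 := expo m' d u w ((n : ℝ) - u) ((k : ℝ) - w) hm' hd
      have h6 : (u : ℝ) + ((n : ℝ) - u) = n := by ring
      have h7 : (w : ℝ) + ((k : ℝ) - w) = k := by ring
      rw [h6, h7] at h5
      linarith
    exact mul_le_mul_of_nonneg_left h4 (by positivity)
  -- stage 1
  have h1 := fib (fun a : Module.End F V × Submodule F V =>
      aeval a.1 (f * g) = 0 ∧ Module.finrank F a.2 = k ∧ ∀ x ∈ a.2, a.1 x ∈ a.2)
    (fun _ : Fin (n + 1) × Fin (n + 1) => True)
    (fun a b => Module.finrank F (LinearMap.range (aeval a.1 f : Module.End F V)) = b.1 ∧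
      Module.finrank F (a.2.map (aeval a.1 f : Module.End F V)) = b.2)
    (fun a _ => ⟨(⟨Module.finrank F (LinearMap.range (aeval a.1 f : Module.End F V)),
        Nat.lt_succ_of_le (Submodule.finrank_le _)⟩,
      ⟨Module.finrank F (a.2.map (aeval a.1 f : Module.End F V)),
        Nat.lt_succ_of_le (Submodule.finrank_le _)⟩), trivial, rfl, rfl⟩)
    (((n : ℝ) + 1) ^ 2) (16 * C * q ^ ((n : ℝ) ^ 2 - QQ n k / (m' + d))) (by positivity)
    (by
      rw [Nat.card_congr (Equiv.subtypeUnivEquiv fun _ => trivial)]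
      refine le_of_eq ?_
      rw [Nat.card_eq_fintype_card, Fintype.card_prod, Fintype.card_fin]
      push_cast
      ring)
    (fun b _ => stage2 b.1 b.2 (Nat.lt_succ_iff.1 b.1.2))
  rw [nT]
  refine h1.trans (le_of_eq ?_)
  ring

end

end RSF
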