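import Pool.Agent.RSF.Stmts

/-!
# Module `XA`: extension of an endomorphism from a subspace

The endomorphisms `A` of `V` which extend `B : End U` and satisfy `f(A) V ≤ U` are determined by the
`U`-component of `A` on a complement `C` of `U` and by the endomorphism induced on `V / U`, which is
killed by `f`.
-/

namespace RSF

open Polynomial

noncomputable section

namespace XA

variable {F V : Type} [Field F] [AddCommGroup V] [Module F V]

/-- a linear map which intertwines `A` and `A'` intertwines `f(A)` and `f(A')` -/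
theorem aeval_intertwine {V' : Type} [AddCommGroup V'] [Module F V'] (g : V →ₗ[F] V')
    (A : Module.End F V) (A' : Module.End F V') (h : ∀ v, g (A v) = A' (g v)) (f : F[X]) (v : V) :
    g (aeval A f v) = aeval A' f (g v) := by
  induction f using Polynomial.induction_on generalizing v with
  | C a =>
    simp only [Polynomial.aeval_C, Module.algebraMap_end_apply, map_smul]
  | add p q hp hq =>
    simp only [map_add, LinearMap.add_apply, hp, hq]
  | monomial k a ih =>
    have e1 : aeval A (C a * X ^ (k + 1)) = aeval A (C a * X ^ k) * A := by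
      rw [pow_succ, ← mul_assoc, map_mul, aeval_X]
    have e2 : aeval A' (C a * X ^ (k + 1)) = aeval A' (C a * X ^ k) * A' := by
      rw [pow_succ, ← mul_assoc, map_mul, aeval_X]
    rw [e1, e2, Module.End.mul_apply, Module.End.mul_apply, ih, h]

/-- `A` preserves `U` -/
theorem le_comap (U : Submodule F V) (B : Module.End F U) (A : Module.End F V)
    (h : ∀ u : U, A u = B u) : U ≤ U.comap A := by
  intro x hx
  rw [Submodule.mem_comap]
  have := h ⟨x, hx⟩
  rw [show A x = (B ⟨x, hx⟩ : V) from this]
  exact (B ⟨x, hx⟩).2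

/-- the induced endomorphism is killed by `f` -/
theorem aeval_mapQ (U : Submodule F V) (A : Module.End F V) (h : U ≤ U.comap A) (f : F[X])
    (hf : ∀ v, aeval A f v ∈ U) : aeval (U.mapQ U A h : Module.End F (V ⧸ U)) f = 0 := by
  apply LinearMap.ext
  intro x
  obtain ⟨v, rfl⟩ := U.mkQ_surjective x
  rw [← aeval_intertwine U.mkQ A (U.mapQ U A h) (fun v => by simp) f v, LinearMap.zero_apply]
  rw [Submodule.mkQ_apply, Submodule.Quotient.mk_eq_zero]
  exact hf v

/-- The injection. -/
theorem card_le [Finite F] [FiniteDimensional F V] (f : F[X]) (U C : Submodule F V)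
    (hc : IsCompl U C) (B : Module.End F U) :
    Nat.card {A : Module.End F V // (∀ u : U, A u = B u) ∧ ∀ v, aeval A f v ∈ U} ≤
      Nat.card (C →ₗ[F] U) * Nat.card {A : Module.End F (V ⧸ U) // aeval A f = 0} := by
  have : Finite V := Module.finite_of_finite F
  have : Finite (C →ₗ[F] U) := Module.finite_of_finite F
  have : Finite (Module.End F (V ⧸ U)) := Module.finite_of_finite F
  rw [← Nat.card_prod]
  let φ : {A : Module.End F V // (∀ u : U, A u = B u) ∧ ∀ v, aeval A f v ∈ U} →
      (C →ₗ[F] U) × {A : Module.End F (V ⧸ U) // aeval A f = 0} := fun A =>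
    ((U.projectionOnto C hc) ∘ₗ A.1 ∘ₗ C.subtype,
      ⟨U.mapQ U A.1 (le_comap U B A.1 A.2.1),
        aeval_mapQ U A.1 (le_comap U B A.1 A.2.1) f A.2.2⟩)
  refine Nat.card_le_card_of_injective φ ?_
  rintro ⟨A, hA⟩ ⟨A', hA'⟩ h
  have h1 := congrArg Prod.fst h
  have h2 := congrArg (fun z => z.2.1) h
  simp only [φ] at h1 h2
  apply Subtype.ext
  apply LinearMap.ext
  intro v
  have hU : ∀ u ∈ U, A u = A' u := fun u hu => by
    have a1 := hA.1 ⟨u, hu⟩
    have a2 := hA'.1 ⟨u, hu⟩
    exact a1.trans a2.symm
  have hC : ∀ c ∈ C, A c = A' c := fun c hcc => by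
    have b1 := LinearMap.congr_fun h1 ⟨c, hcc⟩
    have b2 := LinearMap.congr_fun h2 (U.mkQ c)
    simp only [LinearMap.comp_apply, Submodule.subtype_apply] at b1
    simp only [Submodule.mkQ_apply, Submodule.mapQ_apply] at b2
    rw [Submodule.Quotient.eq] at b2
    have b3 : U.projectionOnto C hc (A c - A' c) = 0 := by
      rw [map_sub, b1, sub_self]
    have b4 := Submodule.projectionOnto_apply_left hc ⟨A c - A' c, b2⟩
    rw [show ((⟨A c - A' c, b2⟩ : U) : V) = A c - A' c from rfl, b3] at b4
    have b5 : A c - A' c = 0 := by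
      have := congrArg Subtype.val b4
      simpa using this.symm
    exact sub_eq_zero.mp b5
  have hv : v ∈ U ⊔ C := by rw [hc.sup_eq_top]; exact Submodule.mem_top
  obtain ⟨u, hu, c, hcc, rfl⟩ := Submodule.mem_sup.mp hv
  rw [map_add, map_add, hU u hu, hC c hcc]

end XA

theorem t_XA : M_XA := by
  intro hIA F V _ _ _ _ _ f hf hfi U B
  obtain ⟨C, hc⟩ := U.exists_isCompl
  have h1 := XA.card_le f U C hc B
  have h2 := hIA F (V ⧸ U) f hf hfi
  have d1 : Module.finrank F U + Module.finrank F C = Module.finrank F V :=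
    Submodule.finrank_add_eq_of_isCompl hc
  have d2 : Module.finrank F (V ⧸ U) + Module.finrank F U = Module.finrank F V :=
    Submodule.finrank_quotient_add_finrank U
  have d1' : (Module.finrank F C : ℝ) = (Module.finrank F V : ℝ) - Module.finrank F U := by
    rw [← d1]; push_cast; ring
  have d2' : (Module.finrank F (V ⧸ U) : ℝ) = (Module.finrank F V : ℝ) - Module.finrank F U := by
    rw [← d2]; push_cast; ring
  have q0 : (0 : ℝ) < (Nat.card F : ℝ) := by exact_mod_cast Nat.card_pos
  have c1 : (Nat.card (C →ₗ[F] U) : ℝ) = (Nat.card F : ℝ) ^ ((Module.finrank F U : ℝ) *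
          ((Module.finrank F V : ℝ) - Module.finrank F U)) := by
    rw [Module.natCard_eq_pow_finrank (K := F) (V := C →ₗ[F] U), Module.finrank_linearMap,
      ← d1', Nat.cast_pow, ← Real.rpow_natCast]
    congr 1
    push_cast
    ring
  rw [Real.rpow_add q0, ← c1]
  rw [d2'] at h2
  calc (Nat.card {A : Module.End F V // (∀ u : U, A u = B u) ∧ ∀ v, aeval A f v ∈ U} : ℝ)
      ≤ (Nat.card (C →ₗ[F] U) : ℝ) * (Nat.card {A : Module.End F (V ⧸ U) // aeval A f = 0} : ℝ) := by
        exact_mod_cast h1
    _ ≤ _ := mul_le_mul_of_nonneg_left h2 (Nat.cast_nonneg _)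

end

end RSF
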