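import Pool.Agent.RSF.Stmts

/-!
# Elements of order dividing `m` in `SL_n(q)` and `PSL_n(q)`: lower bounds (module JL)
-/

namespace RSF

open Polynomial

noncomputable section

namespace JL

variable {F : Type} [Field F] {n : ℕ}

omit [Field F] in
theorem finite_mat [Finite F] : Finite (Matrix (Fin n) (Fin n) F) :=
  inferInstanceAs (Finite (Fin n → Fin n → F))

theorem finite_GL [Finite F] : Finite (GL (Fin n) F) := by
  have := finite_mat (F := F) (n := n)
  exact Finite.of_injective (fun g : GL (Fin n) F => g.1) Units.val_injective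

theorem finite_SL [Finite F] : Finite (Matrix.SpecialLinearGroup (Fin n) F) := by
  have := finite_mat (F := F) (n := n)
  exact Finite.of_injective (fun g : Matrix.SpecialLinearGroup (Fin n) F => g.1)
    Subtype.val_injective

/-- the conjugate -/
def cj (A : Matrix.SpecialLinearGroup (Fin n) F) (g : GL (Fin n) F) :
    Matrix.SpecialLinearGroup (Fin n) F :=
  ⟨g.1 * A.1 * (g⁻¹).1, by
    rw [Matrix.det_mul, Matrix.det_mul, A.2, mul_one, ← Matrix.det_mul]
    have : g.1 * (g⁻¹).1 = 1 := Units.mul_inv g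
    rw [this, Matrix.det_one]⟩

theorem cj_toGL (A : Matrix.SpecialLinearGroup (Fin n) F) (g : GL (Fin n) F) :
    Matrix.SpecialLinearGroup.toGL (cj A g) =
      g * Matrix.SpecialLinearGroup.toGL A * g⁻¹ := by
  apply Units.ext
  rfl

theorem cj_pow (A : Matrix.SpecialLinearGroup (Fin n) F) (g : GL (Fin n) F) {m : ℕ}
    (hA : A ^ m = 1) : cj A g ^ m = 1 := by
  apply Matrix.SpecialLinearGroup.toGL_injective
  rw [map_pow, cj_toGL, conj_pow, ← map_pow, hA, map_one, mul_one, mul_inv_cancel]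

/-- the first count -/
theorem card_GL_le [Finite F] (A : Matrix.SpecialLinearGroup (Fin n) F) {m : ℕ} (hA : A ^ m = 1) :
    Nat.card (GL (Fin n) F) ≤
      Nat.card {A : Matrix.SpecialLinearGroup (Fin n) F // A ^ m = 1} *
        Nat.card {B : Matrix (Fin n) (Fin n) F // B * A.1 = A.1 * B} := by
  have h1 := finite_mat (F := F) (n := n)
  have h2 := finite_SL (F := F) (n := n)
  rw [← Nat.card_prod]
  let ph : GL (Fin n) F → {A : Matrix.SpecialLinearGroup (Fin n) F // A ^ m = 1} := fun g =>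
    ⟨cj A g, cj_pow A g hA⟩
  let s := Function.invFun ph
  have hs : ∀ g, ph (s (ph g)) = ph g := fun g => Function.invFun_eq ⟨g, rfl⟩
  have hcomm : ∀ g, ((s (ph g))⁻¹ * g).1 * A.1 = A.1 * ((s (ph g))⁻¹ * g).1 := by
    intro g
    have e1 : cj A (s (ph g)) = cj A g := congrArg Subtype.val (hs g)
    have e2 := congrArg Matrix.SpecialLinearGroup.toGL e1
    rw [cj_toGL, cj_toGL] at e2
    have e3 : (s (ph g))⁻¹ * g * Matrix.SpecialLinearGroup.toGL A =
        Matrix.SpecialLinearGroup.toGL A * ((s (ph g))⁻¹ * g) := by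
      calc (s (ph g))⁻¹ * g * Matrix.SpecialLinearGroup.toGL A
          = (s (ph g))⁻¹ * (g * Matrix.SpecialLinearGroup.toGL A * g⁻¹) * g := by group
        _ = (s (ph g))⁻¹ * (s (ph g) * Matrix.SpecialLinearGroup.toGL A * (s (ph g))⁻¹) * g := by
            rw [e2]
        _ = Matrix.SpecialLinearGroup.toGL A * ((s (ph g))⁻¹ * g) := by group
    exact congrArg Units.val e3
  refine Nat.card_le_card_of_injective
    (fun g => (ph g, ⟨((s (ph g))⁻¹ * g).1, hcomm g⟩)) ?_
  intro g h e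
  have e1 : ph g = ph h := congrArg Prod.fst e
  have e2 : ((s (ph g))⁻¹ * g).1 = ((s (ph h))⁻¹ * h).1 :=
    congrArg (fun p => (Prod.snd p).1) e
  have e3 : (s (ph g))⁻¹ * g = (s (ph h))⁻¹ * h := Units.ext e2
  rw [e1] at e3
  exact mul_left_cancel e3

/-- the second count -/
theorem card_T_le [Finite F] (m : ℕ) :
    Nat.card {A : Matrix.SpecialLinearGroup (Fin n) F // A ^ m = 1} ≤
      jn (PS n F) m * Nat.card (Subgroup.center (Matrix.SpecialLinearGroup (Fin n) F)) := by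
  have h2 := finite_SL (F := F) (n := n)
  unfold jn
  rw [← Nat.card_prod]
  have hpow : ∀ A : {A : Matrix.SpecialLinearGroup (Fin n) F // A ^ m = 1},
      (mk A.1 : PS n F) ^ m = 1 := by
    rintro ⟨A, hA⟩
    show (QuotientGroup.mk A : PS n F) ^ m = 1
    rw [← QuotientGroup.mk_pow, hA]
    rfl
  have hc : ∀ A : Matrix.SpecialLinearGroup (Fin n) F, (Quotient.out (mk A : PS n F))⁻¹ * A ∈
      Subgroup.center (Matrix.SpecialLinearGroup (Fin n) F) := by
    intro A
    rw [← QuotientGroup.eq]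
    exact QuotientGroup.out_eq' (mk A : PS n F)
  refine Nat.card_le_card_of_injective
    (fun A => (⟨mk A.1, hpow A⟩, ⟨(Quotient.out (mk A.1 : PS n F))⁻¹ * A.1, hc A.1⟩)) ?_
  intro A B e
  have e1 : (mk A.1 : PS n F) = mk B.1 := congrArg (fun p => (Prod.fst p).1) e
  have e2 : (Quotient.out (mk A.1 : PS n F))⁻¹ * A.1 = (Quotient.out (mk B.1 : PS n F))⁻¹ * B.1 :=
    congrArg (fun p => (Prod.snd p).1) e
  rw [e1] at e2
  exact Subtype.ext (mul_left_cancel e2)

theorem card_PS_mul [Finite F] :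
    Nat.card (PS n F) * Nat.card (Subgroup.center (Matrix.SpecialLinearGroup (Fin n) F)) ≤
      Nat.card (GL (Fin n) F) := by
  have h1 := finite_GL (F := F) (n := n)
  rw [← Subgroup.card_eq_card_quotient_mul_card_subgroup]
  exact Nat.card_le_card_of_injective _ Matrix.SpecialLinearGroup.toGL_injective

end JL

open JL in
theorem t_JL : M_JL := by
  intro hJA
  have hq : ∀ (F : Type) [Field F] [Finite F], (0 : ℝ) < Nat.card F := by
    intro F _ _
    exact_mod_cast Nat.card_pos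
  have h1 : S_JL := by
    intro F _ _ n m hm
    obtain ⟨A, hA, hC⟩ := hJA F n m hm
    have e1 : (Nat.card F : ℝ) ^ ((n : ℝ) ^ 2 / m + 4 * (m : ℝ) ^ 2) *
        (Nat.card F : ℝ) ^ (-((n : ℝ) ^ 2 / m) - 4 * (m : ℝ) ^ 2) = 1 := by
      rw [← Real.rpow_add (hq F)]
      have : (n : ℝ) ^ 2 / m + 4 * (m : ℝ) ^ 2 + (-((n : ℝ) ^ 2 / m) - 4 * (m : ℝ) ^ 2) = 0 := by
        ring
      rw [this, Real.rpow_zero]
    have e2 : (Nat.card (GL (Fin n) F) : ℝ) ≤
        Nat.card {A : Matrix.SpecialLinearGroup (Fin n) F // A ^ m = 1} *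
        (Nat.card F : ℝ) ^ ((n : ℝ) ^ 2 / m + 4 * (m : ℝ) ^ 2) := by
      have h := card_GL_le A hA
      have h' : (Nat.card (GL (Fin n) F) : ℝ) ≤
        Nat.card {A : Matrix.SpecialLinearGroup (Fin n) F // A ^ m = 1} *
        Nat.card {B : Matrix (Fin n) (Fin n) F // B * A.1 = A.1 * B} := by exact_mod_cast h
      exact h'.trans (mul_le_mul_of_nonneg_left hC (Nat.cast_nonneg _))
    calc (Nat.card (GL (Fin n) F) : ℝ) *
          (Nat.card F : ℝ) ^ (-((n : ℝ) ^ 2 / m) - 4 * (m : ℝ) ^ 2)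
        ≤ (Nat.card {A : Matrix.SpecialLinearGroup (Fin n) F // A ^ m = 1} *
          (Nat.card F : ℝ) ^ ((n : ℝ) ^ 2 / m + 4 * (m : ℝ) ^ 2)) *
          (Nat.card F : ℝ) ^ (-((n : ℝ) ^ 2 / m) - 4 * (m : ℝ) ^ 2) :=
          mul_le_mul_of_nonneg_right e2 (Real.rpow_nonneg (hq F).le _)
      _ = Nat.card {A : Matrix.SpecialLinearGroup (Fin n) F // A ^ m = 1} := by
          rw [mul_assoc, e1, mul_one]
  refine ⟨h1, ?_⟩
  intro F _ _ n m hm
  have h2 := finite_SL (F := F) (n := n)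
  have hz : (0 : ℝ) < Nat.card (Subgroup.center (Matrix.SpecialLinearGroup (Fin n) F)) := by
    exact_mod_cast Nat.card_pos
  have e1 := h1 F n m hm
  have e2 : (Nat.card {A : Matrix.SpecialLinearGroup (Fin n) F // A ^ m = 1} : ℝ) ≤
      jn (PS n F) m * Nat.card (Subgroup.center (Matrix.SpecialLinearGroup (Fin n) F)) := by
    exact_mod_cast card_T_le m
  have e3 : (Nat.card (PS n F) : ℝ) *
      Nat.card (Subgroup.center (Matrix.SpecialLinearGroup (Fin n) F)) ≤
      Nat.card (GL (Fin n) F) := by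
    exact_mod_cast card_PS_mul
  refine le_of_mul_le_mul_right ?_ hz
  calc (Nat.card (PS n F) : ℝ) * (Nat.card F : ℝ) ^ (-((n : ℝ) ^ 2 / m) - 4 * (m : ℝ) ^ 2) *
        Nat.card (Subgroup.center (Matrix.SpecialLinearGroup (Fin n) F))
      = ((Nat.card (PS n F) : ℝ) *
        Nat.card (Subgroup.center (Matrix.SpecialLinearGroup (Fin n) F))) *
        (Nat.card F : ℝ) ^ (-((n : ℝ) ^ 2 / m) - 4 * (m : ℝ) ^ 2) := by ring
    _ ≤ (Nat.card (GL (Fin n) F) : ℝ) *
        (Nat.card F : ℝ) ^ (-((n : ℝ) ^ 2 / m) - 4 * (m : ℝ) ^ 2) :=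
        mul_le_mul_of_nonneg_right e3 (Real.rpow_nonneg (hq F).le _)
    _ ≤ _ := e1.trans e2

end

end RSF
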