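import Pool.Agent.RSF.Stmts

/-!
# Module `H`: homomorphisms of the groups of genus 1 (oriented) and 2 (non-oriented) are tuples

A homomorphism from a presented group is a function on the generators that kills the relators.
-/

namespace RSF

namespace H

/-- the function on the generators of the oriented group of genus `1` given by a tuple -/
def og {G : Type} {d : ℕ} (p : (Fin d → G) × G × G) : OGen 1 d → G
  | OGen.a _ => p.2.1
  | OGen.b _ => p.2.2
  | OGen.x j => p.1 j

/-- the function on the generators of the non-oriented group of genus `2` given by a tuple -/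
def ng {G : Type} {d : ℕ} (p : (Fin d → G) × G × G) : NGen 2 d → G
  | NGen.a i => if i = 0 then p.2.1 else p.2.2
  | NGen.x j => p.1 j

/-- the tuple of a homomorphism, oriented -/
def ot {G : Type} [Group G] {m : List ℕ} (ρ : OGroup 1 m →* G) : (Fin m.length → G) × G × G :=
  (fun j => ρ (ox 1 m j), ρ (PresentedGroup.of (OGen.a 0)), ρ (PresentedGroup.of (OGen.b 0)))

/-- the tuple of a homomorphism, non-oriented -/
def nt {G : Type} [Group G] {m : List ℕ} (ρ : NGroup 2 m →* G) : (Fin m.length → G) × G × G :=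
  (fun j => ρ (nx 2 m j), ρ (PresentedGroup.of (NGen.a 0)), ρ (PresentedGroup.of (NGen.a 1)))

theorem map_ofFn {A B : Type} [Group A] [Group B] (f : A →* B) {n : ℕ} (g : Fin n → A) :
    f (List.ofFn g).prod = (List.ofFn fun j => f (g j)).prod := by
  rw [map_list_prod, List.map_ofFn]
  rfl

theorem orel {G : Type} [Group G] {m : List ℕ} (p : (Fin m.length → G) × G × G)
    (h1 : ∀ j, p.1 j ^ m.get j = 1)
    (h2 : (List.ofFn p.1).prod * (p.2.1 * p.2.2 * p.2.1⁻¹ * p.2.2⁻¹) = 1) :
    ∀ r ∈ ORel 1 m, FreeGroup.lift (og p) r = 1 := by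
  rintro r (⟨j, rfl⟩ | rfl)
  · rw [map_pow, FreeGroup.lift_apply_of]
    exact h1 j
  · rw [map_mul, map_ofFn, map_ofFn]
    simp only [List.ofFn_succ, List.ofFn_zero, List.prod_cons, List.prod_nil, mul_one, map_mul,
      map_inv, FreeGroup.lift_apply_of]
    exact h2

theorem nrel {G : Type} [Group G] {m : List ℕ} (p : (Fin m.length → G) × G × G)
    (h1 : ∀ j, p.1 j ^ m.get j = 1)
    (h2 : (List.ofFn p.1).prod * (p.2.1 ^ 2 * p.2.2 ^ 2) = 1) :
    ∀ r ∈ NRel 2 m, FreeGroup.lift (ng p) r = 1 := by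
  rintro r (⟨j, rfl⟩ | rfl)
  · rw [map_pow, FreeGroup.lift_apply_of]
    exact h1 j
  · rw [map_mul, map_ofFn, map_ofFn]
    simp only [List.ofFn_succ, List.ofFn_zero, List.prod_cons, List.prod_nil, mul_one, map_pow,
      FreeGroup.lift_apply_of]
    exact h2

theorem ot_pow {G : Type} [Group G] {m : List ℕ} (ρ : OGroup 1 m →* G) (j : Fin m.length) :
    (ot ρ).1 j ^ m.get j = 1 := by
  have h : (PresentedGroup.mk (ORel 1 m)) (FreeGroup.of (OGen.x j) ^ m.get j) = 1 :=
    PresentedGroup.one_of_mem (Or.inl ⟨j, rfl⟩)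
  rw [map_pow] at h
  have h' := congrArg ρ h
  rw [map_pow, map_one] at h'
  exact h'

theorem ot_rel {G : Type} [Group G] {m : List ℕ} (ρ : OGroup 1 m →* G) :
    (List.ofFn (ot ρ).1).prod *
      ((ot ρ).2.1 * (ot ρ).2.2 * (ot ρ).2.1⁻¹ * (ot ρ).2.2⁻¹) = 1 := by
  have h := PresentedGroup.one_of_mem (rels := ORel 1 m) (Or.inr rfl)
  have h' := congrArg ρ h
  rw [map_one, map_mul, map_mul, map_ofFn, map_ofFn, map_ofFn, map_ofFn] at h'
  simp only [List.ofFn_succ, List.ofFn_zero, List.prod_cons, List.prod_nil, mul_one, map_mul,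
      map_inv] at h'
  exact h'

theorem nt_pow {G : Type} [Group G] {m : List ℕ} (ρ : NGroup 2 m →* G) (j : Fin m.length) :
    (nt ρ).1 j ^ m.get j = 1 := by
  have h : (PresentedGroup.mk (NRel 2 m)) (FreeGroup.of (NGen.x j) ^ m.get j) = 1 :=
    PresentedGroup.one_of_mem (Or.inl ⟨j, rfl⟩)
  rw [map_pow] at h
  have h' := congrArg ρ h
  rw [map_pow, map_one] at h'
  exact h'

theorem nt_rel {G : Type} [Group G] {m : List ℕ} (ρ : NGroup 2 m →* G) :
    (List.ofFn (nt ρ).1).prod * ((nt ρ).2.1 ^ 2 * (nt ρ).2.2 ^ 2) = 1 := by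
  have h := PresentedGroup.one_of_mem (rels := NRel 2 m) (Or.inr rfl)
  have h' := congrArg ρ h
  rw [map_one, map_mul, map_mul, map_ofFn, map_ofFn, map_ofFn, map_ofFn] at h'
  simp only [List.ofFn_succ, List.ofFn_zero, List.prod_cons, List.prod_nil, mul_one,
      map_pow] at h'
  exact h'

end H

open H

theorem t_HO : S_HO := by
  intro G _ m E
  refine Nat.card_congr
    { toFun := fun ρ => ⟨ot ρ.1, ot_pow ρ.1, ρ.2, ot_rel ρ.1⟩
      invFun := fun p => ⟨PresentedGroup.toGroup (orel p.1 p.2.1 p.2.2.2), ?_⟩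
      left_inv := ?_
      right_inv := ?_ }
  · have h : (fun j => PresentedGroup.toGroup (orel p.1 p.2.1 p.2.2.2) (ox 1 m j)) = p.1.1 := by
      funext j
      exact PresentedGroup.toGroup.of (orel p.1 p.2.1 p.2.2.2)
    rw [h]
    exact p.2.2.1
  · intro ρ
    apply Subtype.ext
    apply PresentedGroup.ext
    intro x
    refine (PresentedGroup.toGroup.of (orel (ot ρ.1) (ot_pow ρ.1) (ot_rel ρ.1))).trans ?_
    cases x with
    | a i =>
      have hi : i = 0 := Subsingleton.elim _ _
      subst hi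
      rfl
    | b i =>
      have hi : i = 0 := Subsingleton.elim _ _
      subst hi
      rfl
    | x j => rfl
  · intro p
    apply Subtype.ext
    refine Prod.ext ?_ (Prod.ext ?_ ?_)
    · funext j
      exact PresentedGroup.toGroup.of (orel p.1 p.2.1 p.2.2.2)
    · exact PresentedGroup.toGroup.of (orel p.1 p.2.1 p.2.2.2)
    · exact PresentedGroup.toGroup.of (orel p.1 p.2.1 p.2.2.2)

theorem t_HN : S_HN := by
  intro G _ m E
  refine Nat.card_congr
    { toFun := fun ρ => ⟨nt ρ.1, nt_pow ρ.1, ρ.2, nt_rel ρ.1⟩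
      invFun := fun p => ⟨PresentedGroup.toGroup (nrel p.1 p.2.1 p.2.2.2), ?_⟩
      left_inv := ?_
      right_inv := ?_ }
  · have h : (fun j => PresentedGroup.toGroup (nrel p.1 p.2.1 p.2.2.2) (nx 2 m j)) = p.1.1 := by
      funext j
      exact PresentedGroup.toGroup.of (nrel p.1 p.2.1 p.2.2.2)
    rw [h]
    exact p.2.2.1
  · intro ρ
    apply Subtype.ext
    apply PresentedGroup.ext
    intro x
    refine (PresentedGroup.toGroup.of (nrel (nt ρ.1) (nt_pow ρ.1) (nt_rel ρ.1))).trans ?_
    cases x with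
    | a i =>
      rcases (by omega : i.val = 0 ∨ i.val = 1) with h | h
      · have hi : i = 0 := Fin.ext h
        subst hi
        rfl
      · have hi : i = 1 := Fin.ext h
        subst hi
        rfl
    | x j => rfl
  · intro p
    apply Subtype.ext
    refine Prod.ext ?_ (Prod.ext ?_ ?_)
    · funext j
      exact PresentedGroup.toGroup.of (nrel p.1 p.2.1 p.2.2.2)
    · exact PresentedGroup.toGroup.of (nrel p.1 p.2.1 p.2.2.2)
    · exact PresentedGroup.toGroup.of (nrel p.1 p.2.1 p.2.2.2)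

theorem t_H : M_H := ⟨t_HO, t_HN⟩

end RSF
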