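import Pool.Agent.RSF.Stmts2

/-!
# Module BE: sets of `n` nonzero elements with product `1`
-/

set_option autoImplicit false

namespace RSF

namespace BE

open Finset

section group

variable {U : Type} [CommGroup U] [Finite U]

/-- the product, as a homomorphism -/
def pr (U : Type) [CommGroup U] (n : ℕ) : (Fin n → U) →* U where
  toFun β := ∏ i, β i
  map_one' := by simp
  map_mul' a b := by simp [Finset.prod_mul_distrib]

/-- the quotient of two values -/
def qt (U : Type) [CommGroup U] {n : ℕ} (i j : Fin n) : (Fin n → U) →* U where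
  toFun β := β i / β j
  map_one' := by simp
  map_mul' a b := by simp [mul_div_mul_comm]

theorem card_ker_range {A B : Type} [Group A] [Group B] (φ : A →* B) :
    Nat.card A = Nat.card φ.ker * Nat.card φ.range := by
  rw [← Subgroup.index_ker, Subgroup.card_mul_index]

theorem card_H {n : ℕ} (hn : 1 ≤ n) : Nat.card (pr U n).ker = Nat.card U ^ (n - 1) := by
  have h1 := card_ker_range (pr U n)
  have h2 : (pr U n).range = ⊤ := by
    rw [MonoidHom.range_eq_top]
    intro x
    refine ⟨Pi.mulSingle ⟨0, hn⟩ x, ?_⟩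
    change ∏ i, (Pi.mulSingle (⟨0, hn⟩ : Fin n) x : Fin n → U) i = x
    rw [Finset.prod_eq_single (⟨0, hn⟩ : Fin n)]
    · exact Pi.mulSingle_eq_same _ _
    · intro b _ hb
      exact Pi.mulSingle_eq_of_ne hb _
    · intro h
      exact absurd (mem_univ _) h
  rw [h2, Subgroup.card_top, Nat.card_fun, Nat.card_eq_fintype_card (α := Fin n),
    Fintype.card_fin] at h1
  have h3 : 0 < Nat.card U := Nat.card_pos
  obtain ⟨m, rfl⟩ : ∃ m, n = m + 1 := ⟨n - 1, by omega⟩
  rw [pow_succ] at h1
  exact (Nat.eq_of_mul_eq_mul_right h3 h1).symm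

theorem card_pair (h2 : Nat.card (powMonoidHom 2 : U →* U).ker ≤ 2) {n : ℕ} (i j : Fin n)
    (hij : i ≠ j) :
    Nat.card U * Nat.card {β : Fin n → U // ∏ i, β i = 1 ∧ β i = β j} ≤
      2 * Nat.card (pr U n).ker := by
  set φ : (pr U n).ker →* U := (qt U i j).comp (pr U n).ker.subtype with hφ
  have h3 := card_ker_range φ
  have h4 := card_ker_range (powMonoidHom 2 : U →* U)
  have h5 : (powMonoidHom 2 : U →* U).range ≤ φ.range := by
    rintro _ ⟨x, rfl⟩
    have hp : ∀ k : Fin n, (Pi.mulSingle i x * Pi.mulSingle j x⁻¹ : Fin n → U) k =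
        (if k = i then x else 1) * (if k = j then x⁻¹ else 1) := by
      intro k
      rw [Pi.mul_apply, Pi.mulSingle_apply, Pi.mulSingle_apply]
    refine ⟨⟨Pi.mulSingle i x * Pi.mulSingle j x⁻¹, ?_⟩, ?_⟩
    · change ∏ k, (Pi.mulSingle i x * Pi.mulSingle j x⁻¹ : Fin n → U) k = 1
      simp only [hp]
      rw [Finset.prod_mul_distrib, Finset.prod_ite_eq', Finset.prod_ite_eq']
      simp
    · change (Pi.mulSingle i x * Pi.mulSingle j x⁻¹ : Fin n → U) i /
        (Pi.mulSingle i x * Pi.mulSingle j x⁻¹ : Fin n → U) j = x ^ 2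
      rw [hp, hp, if_pos rfl, if_neg hij, if_neg hij.symm, if_pos rfl, mul_one, one_mul,
        div_inv_eq_mul, pow_two]
  have h6 : Nat.card (powMonoidHom 2 : U →* U).range ≤ Nat.card φ.range :=
    Nat.card_mono (Set.toFinite _) h5
  have h7 : Nat.card {β : Fin n → U // ∏ i, β i = 1 ∧ β i = β j} ≤ Nat.card φ.ker := by
    refine Nat.card_le_card_of_injective (fun β => ⟨⟨β.1, β.2.1⟩, ?_⟩) ?_
    · change β.1 i / β.1 j = 1
      rw [β.2.2, div_self']
    · intro β β' h
      exact Subtype.ext (congrArg (fun x : φ.ker => (x.1 : Fin n → U)) h)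
  calc Nat.card U * Nat.card {β : Fin n → U // ∏ i, β i = 1 ∧ β i = β j}
      ≤ (2 * Nat.card φ.range) * Nat.card φ.ker :=
        Nat.mul_le_mul (by rw [h4]; exact Nat.mul_le_mul h2 h6) h7
    _ = 2 * Nat.card (pr U n).ker := by rw [h3]; ring

theorem card_pairs (n : ℕ) :
    2 * (univ.filter fun p : Fin n × Fin n => p.1 < p.2).card ≤ n * n := by
  have h1 : (univ.filter fun p : Fin n × Fin n => p.2 < p.1).card =
      (univ.filter fun p : Fin n × Fin n => p.1 < p.2).card := by
    refine Finset.card_bij' (fun p _ => (p.2, p.1)) (fun p _ => (p.2, p.1)) ?_ ?_ ?_ ?_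
    · intro p hp
      rw [mem_filter] at hp ⊢
      exact ⟨mem_univ _, hp.2⟩
    · intro p hp
      rw [mem_filter] at hp ⊢
      exact ⟨mem_univ _, hp.2⟩
    · intro p _; rfl
    · intro p _; rfl
  have h2 : Disjoint (univ.filter fun p : Fin n × Fin n => p.1 < p.2)
      (univ.filter fun p : Fin n × Fin n => p.2 < p.1) := by
    rw [Finset.disjoint_left]
    intro p hp hp'
    rw [mem_filter] at hp hp'
    exact absurd hp.2 (not_lt.2 hp'.2.le)
  have h3 := Finset.card_le_card (Finset.subset_univ ((univ.filter fun p : Fin n × Fin n =>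
    p.1 < p.2) ∪ univ.filter fun p : Fin n × Fin n => p.2 < p.1))
  rw [Finset.card_union_of_disjoint h2, h1, Finset.card_univ, Fintype.card_prod,
    Fintype.card_fin] at h3
  omega

theorem half (h2 : Nat.card (powMonoidHom 2 : U →* U).ker ≤ 2) {n : ℕ} (hn : 1 ≤ n)
    (hq : 2 * n ^ 2 ≤ Nat.card U) :
    Nat.card U ^ (n - 1) ≤
      2 * Nat.card {β : Fin n → U // ∏ i, β i = 1 ∧ Function.Injective β} := by
  classical
  have : Fintype U := Fintype.ofFinite U
  have hH : Nat.card (pr U n).ker = (univ.filter fun β : Fin n → U => ∏ i, β i = 1).card := by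
    have e : Nat.card (pr U n).ker = Nat.card {β : Fin n → U // ∏ i, β i = 1} := rfl
    rw [e, Nat.card_eq_fintype_card, Fintype.card_subtype]
  have hI : Nat.card {β : Fin n → U // ∏ i, β i = 1 ∧ Function.Injective β} =
      (univ.filter fun β : Fin n → U => ∏ i, β i = 1 ∧ Function.Injective β).card := by
    rw [Nat.card_eq_fintype_card, Fintype.card_subtype]
  set I := (univ.filter fun β : Fin n → U => ∏ i, β i = 1 ∧ Function.Injective β) with hIdef
  set B := (univ.filter fun β : Fin n → U => ∏ i, β i = 1 ∧ ¬ Function.Injective β) with hBdef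
  have hsum : (univ.filter fun β : Fin n → U => ∏ i, β i = 1).card = I.card + B.card := by
    have := Finset.card_filter_add_card_filter_not
      (s := univ.filter fun β : Fin n → U => ∏ i, β i = 1) (fun β => Function.Injective β)
    rw [Finset.filter_filter, Finset.filter_filter] at this
    exact this.symm
  have hB : Nat.card U * B.card ≤ n * n * Nat.card (pr U n).ker := by
    have h3 : B ⊆ (univ.filter fun p : Fin n × Fin n => p.1 < p.2).biUnion
        (fun p => univ.filter fun β : Fin n → U => ∏ i, β i = 1 ∧ β p.1 = β p.2) := by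
      intro β hβ
      rw [hBdef, mem_filter] at hβ
      rw [mem_biUnion]
      have h4 := hβ.2.2
      rw [Function.Injective] at h4
      push Not at h4
      obtain ⟨a, b, hab, hne⟩ := h4
      rcases lt_or_gt_of_ne hne with h | h
      · exact ⟨(a, b), mem_filter.2 ⟨mem_univ _, h⟩, mem_filter.2 ⟨mem_univ _, hβ.2.1, hab⟩⟩
      · exact ⟨(b, a), mem_filter.2 ⟨mem_univ _, h⟩,
          mem_filter.2 ⟨mem_univ _, hβ.2.1, hab.symm⟩⟩
    have h4 := (Finset.card_le_card h3).trans Finset.card_biUnion_le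
    calc Nat.card U * B.card ≤ Nat.card U *
          ∑ p ∈ univ.filter (fun p : Fin n × Fin n => p.1 < p.2),
            (univ.filter fun β : Fin n → U => ∏ i, β i = 1 ∧ β p.1 = β p.2).card :=
          Nat.mul_le_mul_left _ h4
      _ = ∑ p ∈ univ.filter (fun p : Fin n × Fin n => p.1 < p.2), Nat.card U *
            (univ.filter fun β : Fin n → U => ∏ i, β i = 1 ∧ β p.1 = β p.2).card :=
          Finset.mul_sum _ _ _
      _ ≤ ∑ p ∈ univ.filter (fun p : Fin n × Fin n => p.1 < p.2), 2 * Nat.card (pr U n).ker := by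
          refine Finset.sum_le_sum fun p hp => ?_
          have h5 := card_pair h2 p.1 p.2 (mem_filter.1 hp).2.ne
          rw [Nat.card_eq_fintype_card (α := {β : Fin n → U // ∏ i, β i = 1 ∧ β p.1 = β p.2}),
            Fintype.card_subtype] at h5
          exact h5
      _ = (2 * (univ.filter fun p : Fin n × Fin n => p.1 < p.2).card) *
            Nat.card (pr U n).ker := by
          rw [Finset.sum_const, smul_eq_mul]; ring
      _ ≤ n * n * Nat.card (pr U n).ker := Nat.mul_le_mul_right _ (card_pairs n)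
  have hB2 : 2 * B.card ≤ Nat.card (pr U n).ker := by
    have h3 : (n * n) * (2 * B.card) ≤ (n * n) * Nat.card (pr U n).ker := by
      refine le_trans ?_ hB
      have h4 : 2 * n ^ 2 * B.card ≤ Nat.card U * B.card := Nat.mul_le_mul_right _ hq
      calc (n * n) * (2 * B.card) = 2 * n ^ 2 * B.card := by ring
        _ ≤ _ := h4
    exact Nat.le_of_mul_le_mul_left h3 (Nat.mul_pos hn hn)
  rw [← card_H hn, hI]
  omega

end group

theorem sq_ker (F : Type) [Field F] [Finite F] : Nat.card (powMonoidHom 2 : Fˣ →* Fˣ).ker ≤ 2 := by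
  classical
  have h1 : Nat.card (powMonoidHom 2 : Fˣ →* Fˣ).ker ≤ Nat.card ({1, -1} : Finset Fˣ) := by
    refine Nat.card_le_card_of_injective (fun x => ⟨x.1, ?_⟩) ?_
    · have h2 : (x.1 : Fˣ) ^ 2 = 1 := x.2
      have h3 : ((x.1 : Fˣ) : F) ^ 2 = 1 := by
        rw [← Units.val_pow_eq_pow_val, h2, Units.val_one]
      rw [Finset.mem_insert, Finset.mem_singleton]
      rcases sq_eq_one_iff.1 h3 with h | h
      · left; exact Units.ext h
      · right; exact Units.ext (by rw [h, Units.val_neg, Units.val_one])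
    · intro x y h
      exact Subtype.ext (congrArg (fun z : ({1, -1} : Finset Fˣ) => (z : Fˣ)) h)
  refine h1.trans ?_
  rw [Nat.card_eq_fintype_card, Fintype.card_coe]
  exact Finset.card_le_two

open Classical in
theorem inj_le (F : Type) [Field F] [Finite F] (n : ℕ) :
    Nat.card {β : Fin n → Fˣ // ∏ i, β i = 1 ∧ Function.Injective β} ≤
      n.factorial * Nat.card {s : Finset F // s.card = n ∧ (0 : F) ∉ s ∧ ∏ b ∈ s, b = 1} := by
  have : Fintype F := Fintype.ofFinite F
  have hinj : ∀ β : {β : Fin n → Fˣ // ∏ i, β i = 1 ∧ Function.Injective β},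
      Function.Injective (fun i => ((β.1 i : Fˣ) : F)) := by
    intro β a b h
    exact β.2.2 (Units.ext h)
  let f : {β : Fin n → Fˣ // ∏ i, β i = 1 ∧ Function.Injective β} →
      Σ s : {s : Finset F // s.card = n ∧ (0 : F) ∉ s ∧ ∏ b ∈ s, b = 1}, (Fin n ↪ s.1) :=
    fun β => ⟨⟨univ.image (fun i => ((β.1 i : Fˣ) : F)), by
        rw [Finset.card_image_of_injective _ (hinj β), Finset.card_univ, Fintype.card_fin], by
        rw [Finset.mem_image]
        rintro ⟨i, -, hi⟩
        exact (β.1 i).ne_zero hi, by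
        rw [Finset.prod_image (fun a _ b _ h => hinj β h), ← Units.coe_prod, β.2.1,
          Units.val_one]⟩,
      ⟨fun i => ⟨((β.1 i : Fˣ) : F), Finset.mem_image_of_mem _ (mem_univ i)⟩,
        fun a b h => hinj β (congrArg Subtype.val h)⟩⟩
  let g : (Σ s : {s : Finset F // s.card = n ∧ (0 : F) ∉ s ∧ ∏ b ∈ s, b = 1}, (Fin n ↪ s.1)) →
      (Fin n → F) := fun p i => (p.2 i : F)
  have hgf : ∀ β, g (f β) = fun i => ((β.1 i : Fˣ) : F) := fun β => rfl
  have hf : Function.Injective f := by
    intro β β' h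
    have h1 := congrArg g h
    rw [hgf, hgf] at h1
    apply Subtype.ext
    funext i
    exact Units.ext (congrFun h1 i)
  refine (Nat.card_le_card_of_injective f hf).trans ?_
  rw [Nat.card_eq_fintype_card, Fintype.card_sigma, Nat.card_eq_fintype_card]
  refine le_of_eq ?_
  rw [Finset.sum_congr rfl (g := fun _ => n.factorial), Finset.sum_const, Finset.card_univ,
    smul_eq_mul, mul_comm]
  intro s _
  rw [Fintype.card_embedding_eq, Fintype.card_coe, s.2.1, Fintype.card_fin,
    Nat.descFactorial_self]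

end BE

theorem t_BE : S_BE := by
  intro F _ _ n hn hq
  have hU : Nat.card Fˣ = Nat.card F - 1 := Nat.card_units F
  have h1 := BE.half (U := Fˣ) (BE.sq_ker F) hn (by rw [hU]; omega)
  have h2 := BE.inj_le F n
  have h3 : (Nat.card F - 1) ^ (n - 1) ≤ 2 * n.factorial *
      Nat.card {s : Finset F // s.card = n ∧ (0 : F) ∉ s ∧ ∏ b ∈ s, b = 1} := by
    rw [← hU, mul_assoc]
    exact h1.trans (Nat.mul_le_mul_left 2 h2)
  have h4 : ((Nat.card F : ℝ) - 1) = ((Nat.card F - 1 : ℕ) : ℝ) := by
    rw [Nat.cast_sub (by omega), Nat.cast_one]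
  rw [h4]
  exact_mod_cast h3

end RSF
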