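import Pool.Agent.RSF.Stmts3

/-!
# Module `BH`: the homomorphisms with reducible image

The tuples `(t, a, b)` of a homomorphism with reducible image are counted over the pairs `(t, c)`,
`c = b` or `c = a b`; for given `(t, c)` their number is at most the order of the centraliser
of `c`.
-/

namespace RSF

noncomputable section

namespace BH

theorem fin_ps (n : ℕ) (F : Type) [Field F] [Finite F] : Finite (PS n F) := by
  have : Finite (Matrix.SpecialLinearGroup (Fin n) F) := inferInstance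
  exact Quotient.finite _

/-- comparison of the cardinalities of two types that are fibred over the same type -/
theorem card_fib {A B I : Type} [Finite A] [Finite B] [Finite I] (f : A → I) (g : B → I)
    (h : ∀ i, Nat.card {a // f a = i} ≤ Nat.card {b // g b = i}) : Nat.card A ≤ Nat.card B := by
  classical
  have := Fintype.ofFinite I
  rw [← Nat.card_congr (Equiv.sigmaFiberEquiv f), ← Nat.card_congr (Equiv.sigmaFiberEquiv g),
    Nat.card_sigma, Nat.card_sigma]
  exact Finset.sum_le_sum fun i _ => h i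

/-- the condition on the pair `(t, c)` -/
def Cnd {n : ℕ} {F : Type} [Field F] {d : ℕ} (t : Fin d → PS n F) (c : PS n F) : Prop :=
  ∃ W : Submodule F (Fin n → F), W ≠ ⊥ ∧ W ≠ ⊤ ∧ (∀ j, Pres (t j) W) ∧ Pres c W

/-- the fibre of the triples of `RB` -/
theorem fib_RB (F : Type) [Field F] [Finite F] (n : ℕ) (m : List ℕ)
    (i : (Fin m.length → PS n F) × PS n F) (h1 : ∀ j, i.1 j ^ m.get j = 1) (h2 : Cnd i.1 i.2) :
    Nat.card {a : PS n F // Commute a i.2} ≤
      Nat.card {z : {z : (Fin m.length → PS n F) × PS n F × PS n F //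
        (∀ j, z.1 j ^ m.get j = 1) ∧ Commute z.2.1 z.2.2 ∧
        ∃ W : Submodule F (Fin n → F), W ≠ ⊥ ∧ W ≠ ⊤ ∧ (∀ j, Pres (z.1 j) W) ∧
          Pres z.2.2 W} // (z.1.1, z.1.2.2) = i} := by
  have := fin_ps n F
  refine Nat.card_le_card_of_injective
    (fun a => ⟨⟨(i.1, a.1, i.2), h1, a.2, h2⟩, rfl⟩) ?_
  intro a b hab
  have h3 := congrArg (fun z => z.1.1.2.1) hab
  exact Subtype.ext h3

/-- the oriented case, for tuples -/
theorem tup_o (hU : S_U2) (F : Type) [Field F] [Finite F] (n : ℕ) (m : List ℕ) :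
    Nat.card {p : (Fin m.length → PS n F) × PS n F × PS n F // (∀ j, p.1 j ^ m.get j = 1) ∧
        Cnd p.1 p.2.2 ∧
        (List.ofFn p.1).prod * (p.2.1 * p.2.2 * p.2.1⁻¹ * p.2.2⁻¹) = 1} ≤ RB F n m := by
  have := fin_ps n F
  unfold RB
  refine card_fib (fun p => (p.1.1, p.1.2.2)) (fun z => (z.1.1, z.1.2.2)) ?_
  intro i
  by_cases h : (∀ j, i.1 j ^ m.get j = 1) ∧ Cnd i.1 i.2
  · refine le_trans ?_ ((hU (PS n F) (List.ofFn i.1).prod i.2).1.trans
      (fib_RB F n m i h.1 h.2))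
    refine Nat.card_le_card_of_injective (fun p => ⟨p.1.1.2.1, ?_⟩) ?_
    · have h1 := p.1.2.2.2
      have h2 : p.1.1.1 = i.1 := congrArg Prod.fst p.2
      have h3 : p.1.1.2.2 = i.2 := congrArg Prod.snd p.2
      rw [h2, h3] at h1
      exact h1
    · intro p p' hpp
      have h1 : p.1.1.2.1 = p'.1.1.2.1 := congrArg Subtype.val hpp
      obtain ⟨h2, h3⟩ := Prod.mk.inj (p.2.trans p'.2.symm)
      exact Subtype.ext (Subtype.ext (Prod.ext h2 (Prod.ext h1 h3)))
  · have hempty : IsEmpty {p : {p : (Fin m.length → PS n F) × PS n F × PS n F //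
        (∀ j, p.1 j ^ m.get j = 1) ∧ Cnd p.1 p.2.2 ∧
        (List.ofFn p.1).prod * (p.2.1 * p.2.2 * p.2.1⁻¹ * p.2.2⁻¹) = 1} //
          (p.1.1, p.1.2.2) = i} := by
      constructor
      intro p
      apply h
      have h2 : p.1.1.1 = i.1 := congrArg Prod.fst p.2
      have h3 : p.1.1.2.2 = i.2 := congrArg Prod.snd p.2
      rw [← h2, ← h3]
      exact ⟨p.1.2.1, p.1.2.2.1⟩
    rw [Nat.card_eq_zero.2 (Or.inl hempty)]
    exact Nat.zero_le _

/-- the non-oriented case, for tuples -/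
theorem tup_n (hU : S_U2) (F : Type) [Field F] [Finite F] (n : ℕ) (m : List ℕ) :
    Nat.card {p : (Fin m.length → PS n F) × PS n F × PS n F // (∀ j, p.1 j ^ m.get j = 1) ∧
        Cnd p.1 (p.2.1 * p.2.2) ∧
        (List.ofFn p.1).prod * (p.2.1 ^ 2 * p.2.2 ^ 2) = 1} ≤ RB F n m := by
  have := fin_ps n F
  unfold RB
  refine card_fib (fun p => (p.1.1, p.1.2.1 * p.1.2.2)) (fun z => (z.1.1, z.1.2.2)) ?_
  intro i
  by_cases h : (∀ j, i.1 j ^ m.get j = 1) ∧ Cnd i.1 i.2
  · refine le_trans ?_ ((hU (PS n F) (List.ofFn i.1).prod i.2).2.trans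
      (fib_RB F n m i h.1 h.2))
    refine Nat.card_le_card_of_injective (fun p => ⟨p.1.1.2, ?_⟩) ?_
    · have h1 := p.1.2.2.2
      have h2 : p.1.1.1 = i.1 := congrArg Prod.fst p.2
      have h3 : p.1.1.2.1 * p.1.1.2.2 = i.2 := congrArg Prod.snd p.2
      rw [h2] at h1
      exact ⟨h3, h1⟩
    · intro p p' hpp
      have h1 : p.1.1.2 = p'.1.1.2 := congrArg Subtype.val hpp
      obtain ⟨h2, _⟩ := Prod.mk.inj (p.2.trans p'.2.symm)
      exact Subtype.ext (Subtype.ext (Prod.ext h2 h1))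
  · have hempty : IsEmpty {p : {p : (Fin m.length → PS n F) × PS n F × PS n F //
        (∀ j, p.1 j ^ m.get j = 1) ∧ Cnd p.1 (p.2.1 * p.2.2) ∧
        (List.ofFn p.1).prod * (p.2.1 ^ 2 * p.2.2 ^ 2) = 1} //
          (p.1.1, p.1.2.1 * p.1.2.2) = i} := by
      constructor
      intro p
      apply h
      have h2 : p.1.1.1 = i.1 := congrArg Prod.fst p.2
      have h3 : p.1.1.2.1 * p.1.1.2.2 = i.2 := congrArg Prod.snd p.2
      rw [← h2, ← h3]
      exact ⟨p.1.2.1, p.1.2.2.1⟩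
    rw [Nat.card_eq_zero.2 (Or.inl hempty)]
    exact Nat.zero_le _

/-- from `S_H2`: there are finitely many homomorphisms -/
theorem fin_o (hH : S_H2) (G : Type) [Group G] [Finite G] (m : List ℕ) :
    Finite (OGroup 1 m →* G) := by
  have h1 := (hH G m fun _ _ _ => True).1
  have h2 : Nat.card {p : (Fin m.length → G) × G × G // (∀ j, p.1 j ^ m.get j = 1) ∧
      True ∧ (List.ofFn p.1).prod * (p.2.1 * p.2.2 * p.2.1⁻¹ * p.2.2⁻¹) = 1} ≠ 0 := by
    have : Nonempty {p : (Fin m.length → G) × G × G // (∀ j, p.1 j ^ m.get j = 1) ∧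
      True ∧ (List.ofFn p.1).prod * (p.2.1 * p.2.2 * p.2.1⁻¹ * p.2.2⁻¹) = 1} :=
      ⟨⟨(fun _ => 1, 1, 1), fun _ => one_pow _, trivial, by simp [List.ofFn_const]⟩⟩
    exact Nat.card_pos.ne'
  rw [← h1] at h2
  have := Nat.finite_of_card_ne_zero h2
  exact Finite.of_injective (fun ρ : OGroup 1 m →* G => (⟨ρ, trivial⟩ : {ρ : OGroup 1 m →* G //
    True})) fun a b hab => congrArg Subtype.val hab

theorem fin_n (hH : S_H2) (G : Type) [Group G] [Finite G] (m : List ℕ) :
    Finite (NGroup 2 m →* G) := by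
  have h1 := (hH G m fun _ _ _ => True).2
  have h2 : Nat.card {p : (Fin m.length → G) × G × G // (∀ j, p.1 j ^ m.get j = 1) ∧
      True ∧ (List.ofFn p.1).prod * (p.2.1 ^ 2 * p.2.2 ^ 2) = 1} ≠ 0 := by
    have : Nonempty {p : (Fin m.length → G) × G × G // (∀ j, p.1 j ^ m.get j = 1) ∧
      True ∧ (List.ofFn p.1).prod * (p.2.1 ^ 2 * p.2.2 ^ 2) = 1} :=
      ⟨⟨(fun _ => 1, 1, 1), fun _ => one_pow _, trivial, by simp [List.ofFn_const]⟩⟩
    exact Nat.card_pos.ne'
  rw [← h1] at h2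
  have := Nat.finite_of_card_ne_zero h2
  exact Finite.of_injective (fun ρ : NGroup 2 m →* G => (⟨ρ, trivial⟩ : {ρ : NGroup 2 m →* G //
    True})) fun a b hab => congrArg Subtype.val hab

/-- a reducible subgroup has an invariant subspace -/
theorem ex_W {n : ℕ} {F : Type} [Field F] {H : Subgroup (PS n F)} (h : ¬ Irr H) :
    ∃ W : Submodule F (Fin n → F), W ≠ ⊥ ∧ W ≠ ⊤ ∧ ∀ g ∈ H, Pres g W := by
  unfold Irr at h
  push Not at h
  obtain ⟨W, h1, h2, h3⟩ := h
  exact ⟨W, h2, h3, h1⟩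

end BH

open BH in
theorem t_BH : M_BH := by
  intro hH hU F _ _ n m
  have := fin_ps n F
  have := fin_o hH (PS n F) m
  have := fin_n hH (PS n F) m
  constructor
  · have h1 := (hH (PS n F) m fun t _ b => Cnd t b).1
    refine le_trans ?_ (h1.le.trans (tup_o hU F n m))
    refine Nat.card_le_card_of_injective (fun ρ => ⟨ρ.1, ?_⟩) ?_
    · obtain ⟨W, h2, h3, h4⟩ := ex_W ρ.2
      exact ⟨W, h2, h3, fun j => h4 _ ⟨_, rfl⟩, h4 _ ⟨_, rfl⟩⟩
    · intro a b hab
      have h5 := congrArg Subtype.val hab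
      exact Subtype.ext h5
  · have h1 := (hH (PS n F) m fun t a b => Cnd t (a * b)).2
    refine le_trans ?_ (h1.le.trans (tup_n hU F n m))
    refine Nat.card_le_card_of_injective (fun ρ => ⟨ρ.1, ?_⟩) ?_
    · obtain ⟨W, h2, h3, h4⟩ := ex_W ρ.2
      exact ⟨W, h2, h3, fun j => h4 _ ⟨_, rfl⟩, h4 _ (mul_mem ⟨_, rfl⟩ ⟨_, rfl⟩)⟩
    · intro a b hab
      have h5 := congrArg Subtype.val hab
      exact Subtype.ext h5

end

end RSF
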