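import Pool.Agent.RSF.Stmts

/-!
# Module CNT: properties of `fL`
-/

namespace RSF

noncomputable section

open Classical in
/-- the indicator function of `x ^ k = 1` -/
def CNT.dl (G : Type) [Group G] (k : ℕ) (x : G) : ℕ := if x ^ k = 1 then 1 else 0

namespace CNT

variable {G : Type} [Group G] [Fintype G]

open Classical in
theorem fL_sum (L : List ℕ) (g : G) : fL G L g = ∑ t : Fin L.length → G,
    if (∀ j, t j ^ L.get j = 1) ∧ (List.ofFn t).prod = g then 1 else 0 := by
  unfold fL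
  rw [Nat.card_eq_fintype_card, Fintype.card_subtype, Finset.card_filter]

open Classical in
theorem fL_nil (g : G) : fL G [] g = if g = 1 then 1 else 0 := by
  rw [fL_sum]
  have h1 : (Finset.univ : Finset (Fin ([] : List ℕ).length → G)) = {fun i => i.elim0} := by
    apply Finset.eq_singleton_iff_unique_mem.2
    exact ⟨Finset.mem_univ _, fun t _ => funext fun i => i.elim0⟩
  rw [h1, Finset.sum_singleton]
  have h2 : (List.ofFn fun i : Fin ([] : List ℕ).length => (i.elim0 : G)).prod = 1 := by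
    have : (List.ofFn fun i : Fin ([] : List ℕ).length => (i.elim0 : G)) = [] := by
      apply List.eq_nil_of_length_eq_zero
      simp
    rw [this, List.prod_nil]
  rw [h2]
  by_cases h : g = 1
  · rw [if_pos h, if_pos ⟨fun j => j.elim0, h.symm⟩]
  · rw [if_neg h, if_neg (fun h3 => h h3.2.symm)]

theorem fL_cons (k : ℕ) (L : List ℕ) (g : G) :
    fL G (k :: L) g = ∑ x : G, dl G k x * fL G L (x⁻¹ * g) := by
  classical
  rw [fL_sum]
  have h1 : (∑ t : Fin (k :: L).length → G,
      if (∀ j, t j ^ (k :: L).get j = 1) ∧ (List.ofFn t).prod = g then 1 else 0) =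
      ∑ p : G × (Fin L.length → G),
        if (∀ j, (Fin.cons p.1 p.2 : Fin (L.length + 1) → G) j ^ (k :: L).get j = 1) ∧
          (List.ofFn (Fin.cons p.1 p.2 : Fin (L.length + 1) → G)).prod = g then 1 else 0 :=
    (Fintype.sum_equiv (Fin.consEquiv fun _ : Fin (L.length + 1) => G) _ _ (fun p => rfl)).symm
  rw [h1, Fintype.sum_prod_type]
  apply Finset.sum_congr rfl
  intro x _
  rw [fL_sum, Finset.mul_sum]
  apply Finset.sum_congr rfl
  intro t _
  have h2 : (List.ofFn (Fin.cons x t : Fin (L.length + 1) → G)).prod = x * (List.ofFn t).prod := by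
    rw [List.ofFn_succ, List.prod_cons]
    rfl
  have h3 : (∀ j, (Fin.cons x t : Fin (L.length + 1) → G) j ^ (k :: L).get j = 1) ↔
      x ^ k = 1 ∧ ∀ j, t j ^ L.get j = 1 := by
    rw [Fin.forall_fin_succ]
    rfl
  have h4 : ((∀ j, (Fin.cons x t : Fin (L.length + 1) → G) j ^ (k :: L).get j = 1) ∧
      (List.ofFn (Fin.cons x t : Fin (L.length + 1) → G)).prod = g) ↔
      x ^ k = 1 ∧ ((∀ j, t j ^ L.get j = 1) ∧ (List.ofFn t).prod = x⁻¹ * g) := by
    rw [h3, h2, eq_inv_mul_iff_mul_eq, and_assoc]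
  unfold dl
  by_cases hx : x ^ k = 1
  · by_cases ht : (∀ j, t j ^ L.get j = 1) ∧ (List.ofFn t).prod = x⁻¹ * g
    · rw [if_pos hx, one_mul, if_pos ht, if_pos (h4.2 ⟨hx, ht⟩)]
    · rw [if_pos hx, one_mul, if_neg ht, if_neg (fun h => ht (h4.1 h).2)]
  · rw [if_neg hx, zero_mul, if_neg (fun h => hx (h4.1 h).1)]

theorem dl_conj (k : ℕ) (x h : G) : dl G k (h * x * h⁻¹) = dl G k x := by
  unfold dl
  have : (h * x * h⁻¹) ^ k = 1 ↔ x ^ k = 1 := by
    rw [conj_pow]
    constructor
    · intro e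
      have e2 : h * x ^ k = h := by
        have := mul_inv_eq_one.1 e
        exact this
      exact mul_eq_left.1 e2
    · intro e
      rw [e, mul_one, mul_inv_cancel]
  by_cases hx : x ^ k = 1
  · rw [if_pos hx, if_pos (this.2 hx)]
  · rw [if_neg hx, if_neg (fun e => hx (this.1 e))]

theorem dl_inv (k : ℕ) (x : G) : dl G k x⁻¹ = dl G k x := by
  unfold dl
  rw [inv_pow]
  by_cases hx : x ^ k = 1
  · rw [if_pos hx, if_pos (by rw [hx, inv_one])]
  · rw [if_neg hx, if_neg (fun e => hx (inv_eq_one.1 e))]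

theorem fL_conj (L : List ℕ) : ∀ g h : G, fL G L (h * g * h⁻¹) = fL G L g := by
  induction L with
  | nil =>
    intro g h
    rw [fL_nil, fL_nil]
    have : h * g * h⁻¹ = 1 ↔ g = 1 := by
      constructor
      · intro e
        exact mul_eq_left.1 (mul_inv_eq_one.1 e)
      · intro e
        rw [e, mul_one, mul_inv_cancel]
    by_cases hg : g = 1
    · rw [if_pos hg, if_pos (this.2 hg)]
    · rw [if_neg hg, if_neg (fun e => hg (this.1 e))]
  | cons k L ih =>
    intro g h
    rw [fL_cons, fL_cons]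
    refine (Fintype.sum_equiv (MulAut.conj h).toEquiv _ _ fun y => ?_).symm
    change dl G k y * fL G L (y⁻¹ * g) = dl G k (h * y * h⁻¹) * fL G L ((h * y * h⁻¹)⁻¹ * (h * g * h⁻¹))
    rw [dl_conj]
    have : (h * y * h⁻¹)⁻¹ * (h * g * h⁻¹) = h * (y⁻¹ * g) * h⁻¹ := by group
    rw [this, ih]

theorem fL_inv (L : List ℕ) : ∀ g : G, fL G L g⁻¹ = fL G L g := by
  induction L with
  | nil =>
    intro g
    rw [fL_nil, fL_nil]
    by_cases hg : g = 1
    · rw [if_pos hg, if_pos (by rw [hg, inv_one])]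
    · rw [if_neg hg, if_neg (fun e => hg (inv_eq_one.1 e))]
  | cons k L ih =>
    intro g
    rw [fL_cons, fL_cons]
    refine Fintype.sum_equiv (Equiv.inv G) _ _ fun x => ?_
    change dl G k x * fL G L (x⁻¹ * g⁻¹) = dl G k x⁻¹ * fL G L (x⁻¹⁻¹ * g)
    rw [dl_inv, inv_inv]
    have h1 : x⁻¹ * g⁻¹ = (g * x)⁻¹ := by group
    have h2 : x * g = x * (g * x) * x⁻¹ := by group
    rw [h1, ih, h2, fL_conj]

theorem fL_swap (a b : ℕ) (L : List ℕ) (g : G) : fL G (a :: b :: L) g = fL G (b :: a :: L) g := by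
  rw [fL_cons, fL_cons]
  simp_rw [fL_cons, Finset.mul_sum]
  rw [Finset.sum_comm]
  apply Finset.sum_congr rfl
  intro y _
  refine (Fintype.sum_equiv (MulAut.conj y).toEquiv _ _ fun x => ?_).symm
  change dl G b y * (dl G a x * fL G L (x⁻¹ * (y⁻¹ * g))) =
    dl G a (y * x * y⁻¹) * (dl G b y * fL G L (y⁻¹ * ((y * x * y⁻¹)⁻¹ * g)))
  rw [dl_conj]
  have : y⁻¹ * ((y * x * y⁻¹)⁻¹ * g) = x⁻¹ * (y⁻¹ * g) := by group
  rw [this]
  ring

theorem fL_perm {L L' : List ℕ} (h : L.Perm L') : ∀ g : G, fL G L g = fL G L' g := by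
  induction h with
  | nil => intro g; rfl
  | cons k _ ih =>
    intro g
    rw [fL_cons, fL_cons]
    exact Finset.sum_congr rfl fun x _ => by rw [ih]
  | swap a b L =>
    intro g
    exact fL_swap b a L g
  | trans _ _ ih1 ih2 =>
    intro g
    rw [ih1, ih2]

theorem fL_append (L L' : List ℕ) : ∀ g : G,
    fL G (L ++ L') g = ∑ h, fL G L h * fL G L' (h⁻¹ * g) := by
  induction L with
  | nil =>
    intro g
    classical
    rw [List.nil_append, Finset.sum_eq_single (1 : G)]
    · rw [fL_nil, if_pos rfl, one_mul, inv_one, one_mul]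
    · intro h _ hh
      rw [fL_nil, if_neg hh, zero_mul]
    · intro h
      exact absurd (Finset.mem_univ _) h
  | cons k L ih =>
    intro g
    rw [List.cons_append, fL_cons]
    have h1 : ∀ x : G, dl G k x * fL G (L ++ L') (x⁻¹ * g) =
        ∑ h, dl G k x * (fL G L (x⁻¹ * h) * fL G L' (h⁻¹ * g)) := by
      intro x
      rw [ih, Finset.mul_sum]
      refine Fintype.sum_equiv (Equiv.mulLeft x) _ _ fun h => ?_
      change dl G k x * (fL G L h * fL G L' (h⁻¹ * (x⁻¹ * g))) =
        dl G k x * (fL G L (x⁻¹ * (x * h)) * fL G L' ((x * h)⁻¹ * g))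
      have e1 : x⁻¹ * (x * h) = h := by group
      have e2 : (x * h)⁻¹ * g = h⁻¹ * (x⁻¹ * g) := by group
      rw [e1, e2]
    rw [Finset.sum_congr rfl fun x _ => h1 x, Finset.sum_comm]
    apply Finset.sum_congr rfl
    intro h _
    rw [fL_cons, Finset.sum_mul]
    apply Finset.sum_congr rfl
    intro x _
    rw [mul_assoc]

theorem jn_eq (k : ℕ) : jn G k = ∑ x : G, dl G k x := by
  classical
  unfold jn dl
  rw [Nat.card_eq_fintype_card, Fintype.card_subtype, Finset.card_filter]

theorem fL_total (L : List ℕ) : ∑ g : G, fL G L g = JJ G L := by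
  induction L with
  | nil =>
    classical
    rw [Finset.sum_eq_single (1 : G)]
    · rw [fL_nil, if_pos rfl]
      rfl
    · intro h _ hh
      rw [fL_nil, if_neg hh]
    · intro h
      exact absurd (Finset.mem_univ _) h
  | cons k L ih =>
    rw [Finset.sum_congr rfl fun g _ => fL_cons k L g, Finset.sum_comm]
    have h1 : ∀ x : G, ∑ g, dl G k x * fL G L (x⁻¹ * g) = dl G k x * JJ G L := by
      intro x
      rw [← ih, Finset.mul_sum]
      refine Fintype.sum_equiv (Equiv.mulLeft x⁻¹) _ _ fun h => ?_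
      rfl
    rw [Finset.sum_congr rfl fun x _ => h1 x, ← Finset.sum_mul, ← jn_eq]
    rfl

end CNT

open CNT in
theorem t_CNT : S_CNT := by
  intro G _ _
  exact ⟨fun L L' h g => fL_perm h g, fL_inv, fL_conj, fL_append, fL_total⟩

end

end RSF
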