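import Pool.Agent.RSF.Stmts3

/-!
# Classes with a large eigenspace
-/

namespace RSF

open Polynomial

noncomputable section

namespace CR

theorem fin_deg (F : Type) [Field F] [Finite F] (n : ℕ) : {p : F[X] | p.natDegree ≤ n}.Finite := by
  refine Set.Finite.of_finite_image (f := fun p (i : Fin (n + 1)) => p.coeff i) (Set.toFinite _) ?_
  intro p hp r hr h
  ext i
  by_cases hi : i < n + 1
  · exact congrFun h ⟨i, hi⟩
  · rw [coeff_eq_zero_of_natDegree_lt (lt_of_le_of_lt hp (by omega)),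
      coeff_eq_zero_of_natDegree_lt (lt_of_le_of_lt hr (by omega))]

theorem card_monic (F : Type) [Field F] [Finite F] (d : ℕ) :
    Nat.card {p : F[X] // p.Monic ∧ Irreducible p ∧ p.natDegree = d} ≤ Nat.card F ^ d := by
  have h1 : Nat.card (Fin d → F) = Nat.card F ^ d := by
    rw [Nat.card_fun, Nat.card_fin]
  rw [← h1]
  refine Nat.card_le_card_of_injective
    (fun (p : {p : F[X] // p.Monic ∧ Irreducible p ∧ p.natDegree = d}) (i : Fin d) =>
      p.1.coeff i) ?_
  rintro ⟨p, hp, hpi, hpd⟩ ⟨r, hr, hri, hrd⟩ h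
  refine Subtype.ext ?_
  ext i
  rcases lt_trichotomy i d with hi | hi | hi
  · exact congrFun h ⟨i, hi⟩
  · subst hi
    have h2 : p.coeff p.natDegree = 1 := hp
    have h3 : r.coeff r.natDegree = 1 := hr
    rw [hpd] at h2
    rw [hrd] at h3
    change p.coeff i = r.coeff i
    rw [h2, h3]
  · change p.coeff i = r.coeff i
    rw [coeff_eq_zero_of_natDegree_lt (by omega), coeff_eq_zero_of_natDegree_lt (by omega)]

theorem mem_bound {F : Type} [Field F] {n : ℕ} (s : MV F n) (z : F[X] × ℕ) (hz : z ∈ s.1) :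
    z.2 * z.1.natDegree ≤ n := by
  have h1 : z.2 * z.1.natDegree ∈ s.1.map fun p => p.2 * p.1.natDegree :=
    Multiset.mem_map_of_mem _ hz
  have h2 := Multiset.le_sum_of_mem h1
  rw [s.2.2] at h2
  exact h2

theorem mem_bound' {F : Type} [Field F] {n : ℕ} (s : MV F n) (z : F[X] × ℕ) (hz : z ∈ s.1) :
    z.1.natDegree ≤ n ∧ z.2 ≤ n := by
  have h1 := mem_bound s z hz
  obtain ⟨-, hirr, he⟩ := s.2.1 z hz
  have hd : 0 < z.1.natDegree := hirr.natDegree_pos
  constructor
  · exact (Nat.le_mul_of_pos_left _ he).trans h1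
  · exact (Nat.le_mul_of_pos_right _ hd).trans h1

theorem card_bound {F : Type} [Field F] {n : ℕ} (s : MV F n) : Multiset.card s.1 ≤ n := by
  have h1 : Multiset.card s.1 ≤ (s.1.map fun p => p.2 * p.1.natDegree).sum := by
    have h2 := Multiset.card_nsmul_le_sum (s := s.1.map fun p => p.2 * p.1.natDegree) (a := 1) (by
      intro x hx
      obtain ⟨z, hz, rfl⟩ := Multiset.mem_map.mp hx
      obtain ⟨-, hirr, he⟩ := s.2.1 z hz
      exact Nat.mul_pos he hirr.natDegree_pos)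
    rw [Multiset.card_map, smul_eq_mul, mul_one] at h2
    exact h2
  rw [s.2.2] at h1
  exact h1

theorem finite_MV (F : Type) [Field F] [Finite F] (n : ℕ) : Finite (MV F n) := by
  classical
  have hT : ({p : F[X] | p.natDegree ≤ n} ×ˢ (Set.Iic n) : Set (F[X] × ℕ)).Finite :=
    (fin_deg F n).prod (Set.finite_Iic n)
  have : Finite ({p : F[X] | p.natDegree ≤ n} ×ˢ (Set.Iic n) : Set (F[X] × ℕ)) := hT
  refine Finite.of_injective
    (fun (s : MV F n) (t : ({p : F[X] | p.natDegree ≤ n} ×ˢ (Set.Iic n) : Set (F[X] × ℕ))) =>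
      (⟨s.1.count t.1, Nat.lt_succ_of_le ((Multiset.count_le_card _ _).trans (card_bound s))⟩ :
        Fin (n + 1))) ?_
  intro s s' h
  refine Subtype.ext (Multiset.ext.mpr fun z => ?_)
  by_cases hz : z ∈ ({p : F[X] | p.natDegree ≤ n} ×ˢ (Set.Iic n) : Set (F[X] × ℕ))
  · have := congrFun h ⟨z, hz⟩
    exact congrArg Fin.val this
  · have h1 : ∀ s : MV F n, s.1.count z = 0 := by
      intro s
      rw [Multiset.count_eq_zero]
      intro hzs
      have := mem_bound' s z hzs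
      exact hz ⟨this.1, this.2⟩
    rw [h1 s, h1 s']

theorem main (hMR : S_MR) (F : Type) [Field F] [Finite F] (n r : ℕ) (hr : 1 ≤ r) :
    Nat.card {s : MV F n // ∃ p : F[X], p.Monic ∧ Irreducible p ∧ r ≤ sp s.1 p} *
      Nat.card F ^ (r - 1) ≤ 8 * n * Nat.card F ^ n := by
  classical
  have hfin := finite_MV F n
  have : Fintype (MV F n) := Fintype.ofFinite _
  set q := Nat.card F with hq
  have hq0 : 0 < q := Nat.card_pos
  have hPf : ∀ d, {p : F[X] | p.Monic ∧ Irreducible p ∧ p.natDegree = d}.Finite := fun d =>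
    (fin_deg F d).subset fun p hp => hp.2.2.le
  set PP : ℕ → Finset F[X] := fun d => (hPf d).toFinset with hPP
  have hPPc : ∀ d, (PP d).card ≤ q ^ d := by
    intro d
    have h1 := card_monic F d
    have h2 : Nat.card {p : F[X] // p.Monic ∧ Irreducible p ∧ p.natDegree = d} = (PP d).card := by
      rw [hPP]
      exact Nat.card_eq_card_finite_toFinset (hPf d)
    rw [← h2]
    exact h1
  set D : F[X] → Finset (MV F n) := fun p => Finset.univ.filter fun s => r ≤ sp s.1 p with hD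
  have hDc : ∀ p, Nat.card {s : MV F n // r ≤ sp s.1 p} = (D p).card := by
    intro p
    rw [Nat.card_eq_fintype_card, Fintype.card_subtype]
  have hS : Nat.card {s : MV F n // ∃ p : F[X], p.Monic ∧ Irreducible p ∧ r ≤ sp s.1 p} =
      (Finset.univ.filter fun s : MV F n => ∃ p : F[X], p.Monic ∧ Irreducible p ∧
        r ≤ sp s.1 p).card := by
    rw [Nat.card_eq_fintype_card, Fintype.card_subtype]
  have hsub : (Finset.univ.filter fun s : MV F n => ∃ p : F[X], p.Monic ∧ Irreducible p ∧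
        r ≤ sp s.1 p) ⊆ (Finset.Icc 1 n).biUnion fun d => (PP d).biUnion D := by
    intro s hs
    obtain ⟨p, hpm, hpi, hps⟩ := (Finset.mem_filter.mp hs).2
    have hpos : 0 < (s.1.filter fun z => z.1 = p).card := lt_of_lt_of_le (by omega) hps
    obtain ⟨z, hz⟩ := Multiset.card_pos_iff_exists_mem.mp hpos
    obtain ⟨hzs, hzp⟩ := Multiset.mem_filter.mp hz
    have hb := (mem_bound' s z hzs).1
    rw [hzp] at hb
    rw [Finset.mem_biUnion]
    refine ⟨p.natDegree, Finset.mem_Icc.mpr ⟨hpi.natDegree_pos, hb⟩, ?_⟩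
    rw [Finset.mem_biUnion]
    refine ⟨p, (Set.Finite.mem_toFinset _).mpr ⟨hpm, hpi, rfl⟩, ?_⟩
    exact Finset.mem_filter.mpr ⟨Finset.mem_univ _, hps⟩
  have hd : ∀ d ∈ Finset.Icc 1 n, ((PP d).biUnion D).card * q ^ (r - 1) ≤ 8 * q ^ n := by
    intro d hd
    obtain ⟨hd1, -⟩ := Finset.mem_Icc.mp hd
    have hp : ∀ p ∈ PP d, (D p).card * q ^ (r - 1) * q ^ d ≤ 8 * q ^ n := by
      intro p hp
      obtain ⟨hpm, hpi, hpd⟩ := (Set.Finite.mem_toFinset _).mp hp
      have h1 := hMR F n r p hpm hpi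
      rw [hDc p, hpd] at h1
      refine le_trans ?_ h1
      rw [mul_assoc, ← pow_add]
      refine Nat.mul_le_mul_left _ (Nat.pow_le_pow_right hq0 ?_)
      obtain ⟨r', rfl⟩ : ∃ r', r = r' + 1 := ⟨r - 1, by omega⟩
      obtain ⟨d', rfl⟩ : ∃ d', d = d' + 1 := ⟨d - 1, by omega⟩
      have : (r' + 1) * (d' + 1) = r' * d' + r' + d' + 1 := by ring
      rw [this]
      have := Nat.zero_le (r' * d')
      omega
    have h2 : ((PP d).biUnion D).card * q ^ (r - 1) * q ^ d ≤ 8 * q ^ n * q ^ d := by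
      calc ((PP d).biUnion D).card * q ^ (r - 1) * q ^ d
          ≤ (∑ p ∈ PP d, (D p).card) * q ^ (r - 1) * q ^ d :=
            Nat.mul_le_mul_right _ (Nat.mul_le_mul_right _ Finset.card_biUnion_le)
        _ = ∑ p ∈ PP d, (D p).card * q ^ (r - 1) * q ^ d := by
            rw [Finset.sum_mul, Finset.sum_mul]
        _ ≤ ∑ p ∈ PP d, 8 * q ^ n := Finset.sum_le_sum hp
        _ = (PP d).card * (8 * q ^ n) := by rw [Finset.sum_const, smul_eq_mul]
        _ ≤ q ^ d * (8 * q ^ n) := Nat.mul_le_mul_right _ (hPPc d)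
        _ = 8 * q ^ n * q ^ d := by ring
    exact Nat.le_of_mul_le_mul_right h2 (pow_pos hq0 d)
  rw [hS]
  calc (Finset.univ.filter fun s : MV F n => ∃ p : F[X], p.Monic ∧ Irreducible p ∧
        r ≤ sp s.1 p).card * q ^ (r - 1)
      ≤ (∑ d ∈ Finset.Icc 1 n, ((PP d).biUnion D).card) * q ^ (r - 1) :=
        Nat.mul_le_mul_right _ ((Finset.card_le_card hsub).trans Finset.card_biUnion_le)
    _ = ∑ d ∈ Finset.Icc 1 n, ((PP d).biUnion D).card * q ^ (r - 1) := by rw [Finset.sum_mul]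
    _ ≤ ∑ d ∈ Finset.Icc 1 n, 8 * q ^ n := Finset.sum_le_sum hd
    _ = 8 * n * q ^ n := by
      rw [Finset.sum_const, Nat.card_Icc, smul_eq_mul, Nat.add_sub_cancel]; ring

end CR

theorem t_CR : M_CR := by
  intro hKE hMR F _ _ n r hr
  refine le_trans (Nat.mul_le_mul_right _ ?_) (CR.main hMR F n r hr)
  obtain ⟨Φ, h1, h2, h3, h4⟩ := hKE F n
  have hfin := CR.finite_MV F n
  have hch : ∀ x : {x : ConjClasses (GL (Fin n) F) // ∃ A, ConjClasses.mk A = x ∧ ∃ p : F[X],
      p.Monic ∧ Irreducible p ∧ r * p.natDegree ≤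
        Module.finrank F (LinearMap.ker (aeval (Matrix.toLin' A.1) p))},
      ∃ s : {s : MV F n // ∃ p : F[X], p.Monic ∧ Irreducible p ∧ r ≤ sp s.1 p},
        ∃ A, ConjClasses.mk A = x.1 ∧ s.1.1 = Φ A := by
    rintro ⟨x, A, hA, p, hpm, hpi, hp⟩
    refine ⟨⟨⟨Φ A, h1 A, h2 A⟩, p, hpm, hpi, ?_⟩, A, hA, rfl⟩
    rw [h4 A p hpm hpi, mul_comm] at hp
    exact Nat.le_of_mul_le_mul_left hp hpi.natDegree_pos
  choose g hg using hch
  refine Nat.card_le_card_of_injective g ?_
  intro x y hxy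
  obtain ⟨A, hA, hsA⟩ := hg x
  obtain ⟨B, hB, hsB⟩ := hg y
  rw [hxy] at hsA
  refine Subtype.ext ?_
  rw [← hA, ← hB]
  exact ConjClasses.mk_eq_mk_iff_isConj.mpr (h3 A B (hsA.symm.trans hsB))

end

end RSF
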