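import Pool.Agent.RSF.Stmts2

/-!
# Final assembly of (D): arbitrary periods, `q ≥ n ^ K`
-/

namespace RSF

namespace D

noncomputable section

/-- the complement of an event -/
theorem prob_compl {Γ G : Type} [Group Γ] [Group G] (hfin : Finite (Γ →* G))
    (P : (Γ →* G) → Prop) : prob Γ G P = 1 - prob Γ G (fun ρ => ¬ P ρ) := by
  classical
  have hne : Nonempty (Γ →* G) := ⟨1⟩
  have hpos : (0 : ℝ) < Nat.card (Γ →* G) := by exact_mod_cast Nat.card_pos
  have h1 : Nat.card {ρ : Γ →* G // P ρ} + Nat.card {ρ : Γ →* G // ¬ P ρ} = Nat.card (Γ →* G) := by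
    rw [← Nat.card_sum]
    exact Nat.card_congr (Equiv.sumCompl P)
  have h2 : (Nat.card {ρ : Γ →* G // P ρ} : ℝ) + Nat.card {ρ : Γ →* G // ¬ P ρ} =
      Nat.card (Γ →* G) := by exact_mod_cast h1
  unfold prob
  rw [eq_sub_iff_add_eq, ← add_div, h2, div_self hpos.ne']

theorem finite_ogen (g d : ℕ) : Finite (OGen g d) := by
  refine Finite.of_surjective
    (fun s : Fin g ⊕ Fin g ⊕ Fin d => (match s with
      | Sum.inl i => OGen.a i
      | Sum.inr (Sum.inl i) => OGen.b i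
      | Sum.inr (Sum.inr j) => OGen.x j : OGen g d)) ?_
  rintro (i | i | j)
  · exact ⟨Sum.inl i, rfl⟩
  · exact ⟨Sum.inr (Sum.inl i), rfl⟩
  · exact ⟨Sum.inr (Sum.inr j), rfl⟩

theorem finite_ngen (g d : ℕ) : Finite (NGen g d) := by
  refine Finite.of_surjective
    (fun s : Fin g ⊕ Fin d => (match s with
      | Sum.inl i => NGen.a i
      | Sum.inr j => NGen.x j : NGen g d)) ?_
  rintro (i | j)
  · exact ⟨Sum.inl i, rfl⟩
  · exact ⟨Sum.inr j, rfl⟩

theorem finite_ohom (g : ℕ) (m : List ℕ) (G : Type) [Group G] [Finite G] :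
    Finite (OGroup g m →* G) := by
  have := finite_ogen g m.length
  refine Finite.of_injective
    (fun ρ : OGroup g m →* G => fun s : OGen g m.length => ρ (PresentedGroup.of s)) ?_
  intro ρ τ h
  exact PresentedGroup.ext fun s => congrFun h s

theorem finite_nhom (g : ℕ) (m : List ℕ) (G : Type) [Group G] [Finite G] :
    Finite (NGroup g m →* G) := by
  have := finite_ngen g m.length
  refine Finite.of_injective
    (fun ρ : NGroup g m →* G => fun s : NGen g m.length => ρ (PresentedGroup.of s)) ?_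
  intro ρ τ h
  exact PresentedGroup.ext fun s => congrFun h s

theorem card_tors (G : Type) [Group G] [Finite G] (m : List ℕ) :
    Nat.card {t : Fin m.length → G // ∀ j, t j ^ m.get j = 1} = JJ G m := by
  have e : {t : Fin m.length → G // ∀ j, t j ^ m.get j = 1} ≃
      ((j : Fin m.length) → {x : G // x ^ m.get j = 1}) :=
    { toFun := fun t j => ⟨t.1 j, t.2 j⟩
      invFun := fun f => ⟨fun j => (f j).1, fun j => (f j).2⟩
      left_inv := fun t => rfl
      right_inv := fun f => rfl }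
  rw [Nat.card_congr e, Nat.card_pi]
  unfold JJ
  have h1 : (m.map (jn G)).prod = ∏ j : Fin m.length, jn G (m.get j) := by
    conv_lhs => rw [← List.ofFn_get m]
    rw [List.map_ofFn, List.prod_ofFn]
    rfl
  rw [h1]
  rfl

theorem card_fiber (G : Type) [Group G] [Finite G] {I : Type} [Finite I] (Q : I → Prop)
    (R : I → G × G → Prop) (c : ℕ)
    (h : ∀ t, Nat.card {p : G × G // R t p} ≤ c) :
    Nat.card {p : I × G × G // Q p.1 ∧ R p.1 p.2} ≤ Nat.card {t : I // Q t} * c := by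
  have e : {p : I × G × G // Q p.1 ∧ R p.1 p.2} ≃
      ((t : {t : I // Q t}) × {p : G × G // R t.1 p}) :=
    { toFun := fun p => ⟨⟨p.1.1, p.2.1⟩, ⟨p.1.2, p.2.2⟩⟩
      invFun := fun s => ⟨(s.1.1, s.2.1), s.1.2, s.2.2⟩
      left_inv := fun p => rfl
      right_inv := fun s => rfl }
  rw [Nat.card_congr e]
  haveI := Fintype.ofFinite {t : I // Q t}
  rw [Nat.card_sigma, Nat.card_eq_fintype_card]
  calc ∑ a : {t : I // Q t}, Nat.card {p : G × G // R a.1 p}
      ≤ ∑ _a : {t : I // Q t}, c := Finset.sum_le_sum fun a _ => h a.1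
    _ = Fintype.card {t : I // Q t} * c := by simp

/-- the transfer, with the loss `f` -/
theorem final {N NE T TE k g c f J : ℕ} (hJ : T = J) (hJpos : 0 < J) (hg : 0 < g) (hf : 0 < f)
    (hc : c = k * g) (hN : g * J ≤ f * N) (hNE : NE ≤ TE * c) :
    (NE : ℝ) / N ≤ f * k * ((TE : ℝ) / T) := by
  subst hJ
  subst hc
  have h1 : (0 : ℝ) < g := by exact_mod_cast hg
  have h2 : (0 : ℝ) < T := by exact_mod_cast hJpos
  have h0 : (0 : ℝ) < f := by exact_mod_cast hf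
  have h3 : (g : ℝ) * T ≤ f * N := by exact_mod_cast hN
  have h4 : (NE : ℝ) ≤ TE * (k * g) := by exact_mod_cast hNE
  have h5 : (0 : ℝ) < N := by
    have := lt_of_lt_of_le (mul_pos h1 h2) h3
    exact (pos_iff_pos_of_mul_pos this).1 h0
  rw [div_le_iff₀ h5]
  have h6 : (k : ℝ) * ((TE : ℝ) / T) * (g * T) = TE * (k * g) := by
    field_simp
  calc (NE : ℝ) ≤ TE * (k * g) := h4
    _ = (k : ℝ) * ((TE : ℝ) / T) * (g * T) := h6.symm
    _ ≤ (k : ℝ) * ((TE : ℝ) / T) * (f * N) := by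
        apply mul_le_mul_of_nonneg_left h3
        positivity
    _ = _ := by ring

/-- `n! ≤ q ^ (c n)` if `q ≥ n ^ K`, `c K ≥ 1` -/
theorem fac_le (q c : ℝ) (n K : ℕ) (hn : 1 ≤ n) (hq1 : 1 ≤ q) (hK : 1 ≤ K)
    (hq : (n : ℝ) ^ K ≤ q) (hc : 1 ≤ c * K) : (n.factorial : ℝ) ≤ q ^ (c * (n : ℝ)) := by
  have hn0 : (0 : ℝ) ≤ n := Nat.cast_nonneg n
  have hK0 : (0 : ℝ) < K := by exact_mod_cast hK
  have h1 : (n.factorial : ℝ) ≤ (n : ℝ) ^ n := by exact_mod_cast Nat.factorial_le_pow n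
  have h2 : (n : ℝ) ^ n = ((n : ℝ) ^ K) ^ ((n : ℝ) / K) := by
    rw [← Real.rpow_natCast (n : ℝ) K, ← Real.rpow_mul hn0, mul_div_cancel₀ _ hK0.ne',
      Real.rpow_natCast]
  have h3 : ((n : ℝ) ^ K) ^ ((n : ℝ) / K) ≤ q ^ ((n : ℝ) / K) :=
    Real.rpow_le_rpow (by positivity) hq (by positivity)
  have h4 : q ^ ((n : ℝ) / K) ≤ q ^ (c * (n : ℝ)) := by
    apply Real.rpow_le_rpow_of_exponent_le hq1
    rw [div_le_iff₀ hK0]
    nlinarith
  linarith [h2 ▸ h3]

/-- the estimate -/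
theorem bound (q C s c : ℝ) (n : ℕ) (hq : 1 ≤ q) (hC : 0 < C) (hcs : s - 2 = 2 * c)
    (k b t f : ℝ) (hk : k ≤ 4 * q ^ ((n : ℝ) + 1)) (hk0 : 0 ≤ k) (hf0 : 0 ≤ f)
    (hf : f ≤ q ^ (c * (n : ℝ)))
    (ht : 0 ≤ t)
    (hb : b ≤ C * ((n : ℝ) + 1) ^ C * q ^ (C - (s - 1) * (n : ℝ)) * t) :
    16 * f * k * (b / t) ≤
      (64 * C + 1) * ((n : ℝ) + 1) ^ (64 * C + 1) * q ^ ((64 * C + 1) - c * (n : ℝ)) := by
  have hq0 : 0 < q := by linarith
  have hn1 : (1 : ℝ) ≤ (n : ℝ) + 1 := by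
    have : (0 : ℝ) ≤ n := Nat.cast_nonneg n
    linarith
  have hX : 0 ≤ C * ((n : ℝ) + 1) ^ C * q ^ (C - (s - 1) * (n : ℝ)) := by positivity
  have h1 : b / t ≤ C * ((n : ℝ) + 1) ^ C * q ^ (C - (s - 1) * (n : ℝ)) :=
    div_le_of_le_mul₀ ht hX hb
  have hfk : 16 * f * k ≤ 16 * q ^ (c * (n : ℝ)) * (4 * q ^ ((n : ℝ) + 1)) := by
    apply mul_le_mul _ hk hk0 (by positivity)
    linarith
  have h2 : 16 * f * k * (b / t) ≤ 16 * q ^ (c * (n : ℝ)) * (4 * q ^ ((n : ℝ) + 1)) *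
      (C * ((n : ℝ) + 1) ^ C * q ^ (C - (s - 1) * (n : ℝ))) := by
    calc 16 * f * k * (b / t) ≤ 16 * f * k *
          (C * ((n : ℝ) + 1) ^ C * q ^ (C - (s - 1) * (n : ℝ))) :=
          mul_le_mul_of_nonneg_left h1 (by positivity)
      _ ≤ _ := mul_le_mul_of_nonneg_right hfk hX
  refine h2.trans ?_
  have h3 : 16 * q ^ (c * (n : ℝ)) * (4 * q ^ ((n : ℝ) + 1)) *
      (C * ((n : ℝ) + 1) ^ C * q ^ (C - (s - 1) * (n : ℝ))) =
      (64 * C) * ((n : ℝ) + 1) ^ C * q ^ ((C + 1) - c * (n : ℝ)) := by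
    have : q ^ ((C + 1) - c * (n : ℝ)) =
        q ^ (c * (n : ℝ)) * q ^ ((n : ℝ) + 1) * q ^ (C - (s - 1) * (n : ℝ)) := by
      rw [← Real.rpow_add hq0, ← Real.rpow_add hq0]
      congr 1
      have : s = 2 + 2 * c := by linarith
      rw [this]
      ring
    rw [this]
    ring
  rw [h3]
  have h4 : ((n : ℝ) + 1) ^ C ≤ ((n : ℝ) + 1) ^ (64 * C + 1) :=
    Real.rpow_le_rpow_of_exponent_le hn1 (by linarith)
  have h5 : q ^ ((C + 1) - c * (n : ℝ)) ≤ q ^ ((64 * C + 1) - c * (n : ℝ)) :=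
    Real.rpow_le_rpow_of_exponent_le hq (by linarith)
  have h6 : 64 * C ≤ 64 * C + 1 := by linarith
  have h7 : 0 ≤ ((n : ℝ) + 1) ^ C := by positivity
  have h8 : 0 ≤ q ^ ((C + 1) - c * (n : ℝ)) := by positivity
  have h9 : 0 ≤ 64 * C + 1 := by linarith
  have h10 : 0 ≤ ((n : ℝ) + 1) ^ (64 * C + 1) := by positivity
  calc (64 * C) * ((n : ℝ) + 1) ^ C * q ^ ((C + 1) - c * (n : ℝ))
      ≤ (64 * C + 1) * ((n : ℝ) + 1) ^ (64 * C + 1) * q ^ ((C + 1) - c * (n : ℝ)) :=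
        mul_le_mul_of_nonneg_right (mul_le_mul h6 h4 h7 h9) h8
    _ ≤ _ := mul_le_mul_of_nonneg_left h5 (mul_nonneg h9 h10)

end

end D

theorem t_D : M_D := by
  intro hHO hHN hUP hLD hNP hJ2 hKP hRG hAS m hm2 hs
  obtain ⟨C, hC0, hbad⟩ := hRG m hm2 hs
  obtain ⟨c, hc⟩ : ∃ c, c = (sig m - 2) / 2 := ⟨_, rfl⟩
  have hc0 : 0 < c := by
    rw [hc]
    linarith
  obtain ⟨r, hr, hr2⟩ := hAS c (64 * C + 1) hc0 (by linarith)
  refine ⟨max r (2 + 2 * m.sum), 9 + ⌈1 / c⌉₊, fun ε hε => ?_⟩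
  obtain ⟨N, hN⟩ := hr2 ε hε
  refine ⟨N, fun n hn F _ _ hqn hcard => ?_⟩
  have hnr : r ≤ n := le_trans (le_max_left _ _) hn
  have hn2 : 2 + 2 * m.sum ≤ n := le_trans (le_max_right _ _) hn
  have hfinal := hN n hnr F hcard
  have hn1 : 1 ≤ n := by omega
  have hq : (1 : ℝ) ≤ (Nat.card F : ℝ) := by
    have : 0 < Nat.card F := Nat.card_pos
    exact_mod_cast this
  have hk : (Nat.card (ConjClasses (PS n F)) : ℝ) ≤ 4 * (Nat.card F : ℝ) ^ ((n : ℝ) + 1) := by
    have h1 := hKP F n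
    have h2 : (Nat.card (ConjClasses (PS n F)) : ℝ) ≤ 4 * (Nat.card F : ℝ) ^ (n + 1) := by
      exact_mod_cast h1
    have h3 : (Nat.card F : ℝ) ^ ((n : ℝ) + 1) = (Nat.card F : ℝ) ^ (n + 1) := by
      rw [← Real.rpow_natCast]
      push_cast
      rfl
    rw [h3]
    exact h2
  have hcK : 1 ≤ c * ((9 + ⌈1 / c⌉₊ : ℕ) : ℝ) := by
    have h1 : 1 / c ≤ (⌈1 / c⌉₊ : ℝ) := Nat.le_ceil _
    have h2 : c * (1 / c) = 1 := by field_simp
    have h3 : c * (1 / c) ≤ c * (⌈1 / c⌉₊ : ℝ) := mul_le_mul_of_nonneg_left h1 hc0.le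
    push_cast
    nlinarith
  have hfac : (n.factorial : ℝ) ≤ (Nat.card F : ℝ) ^ (c * (n : ℝ)) :=
    D.fac_le _ c n (9 + ⌈1 / c⌉₊) hn1 hq (by omega) (by exact_mod_cast hqn) hcK
  have hb := D.bound (Nat.card F : ℝ) C (sig m) c n hq hC0 (by rw [hc]; ring)
    (Nat.card (ConjClasses (PS n F)) : ℝ) _ _ (n.factorial : ℝ) hk (Nat.cast_nonneg _)
    (Nat.cast_nonneg _) hfac (Nat.cast_nonneg _) (hbad n hn1 F)
  have hb2 := hb.trans hfinal
  -- the lower bound of the number of homomorphisms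
  have h100 : 100 * n ^ 2 ≤ Nat.card F := by
    have e : n ^ (9 + ⌈1 / c⌉₊) = n ^ 2 * n ^ (7 + ⌈1 / c⌉₊) := by
      rw [← pow_add]
      congr 1
      omega
    rw [e] at hqn
    have h1 : 2 ^ 7 ≤ n ^ (7 + ⌈1 / c⌉₊) :=
      le_trans (Nat.pow_le_pow_left (by omega : 2 ≤ n) 7)
        (Nat.pow_le_pow_right (by omega) (by omega))
    nlinarith [Nat.zero_le (n ^ 2)]
  have hmne : m ≠ [] := by
    rintro rfl
    simp [sig] at hs
    norm_num at hs
  have hjn : ∀ k ∈ m, 2 ≤ jn (PS n F) k := by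
    intro k hk
    have h1 : k ≤ m.sum := List.le_sum_of_mem hk
    exact hJ2 F n k (hm2 k hk) (by omega)
  have hld := hLD (PS n F) m (8 * n.factorial) hmne hjn
  have hO := hld.1 fun g hg => (hNP F n (by omega) h100 g hg).1
  have hNn := hld.2 fun g hg => (hNP F n (by omega) h100 g hg).2
  have hJ := D.card_tors (PS n F) m
  have hJpos : 0 < JJ (PS n F) m := by
    rw [← hJ]
    haveI : Nonempty {t : Fin m.length → PS n F // ∀ j, t j ^ m.get j = 1} :=
      ⟨⟨fun _ => 1, fun j => one_pow _⟩⟩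
    exact Nat.card_pos
  have hg : 0 < Nat.card (PS n F) := Nat.card_pos
  have hcm : cm (PS n F) = Nat.card (ConjClasses (PS n F)) * Nat.card (PS n F) := by
    unfold cm
    exact card_comm_eq_card_conjClasses_mul_card (PS n F)
  let E : (Fin m.length → PS n F) → Prop := fun t => ¬ Irr (Subgroup.closure (Set.range t))
  have hfib : ∀ (R : PS n F → PS n F × PS n F → Prop),
      (∀ g, Nat.card {p : PS n F × PS n F // R g p} ≤ cm (PS n F)) →
      Nat.card {p : (Fin m.length → PS n F) × PS n F × PS n F // (∀ j, p.1 j ^ m.get j = 1) ∧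
        E p.1 ∧ R (List.ofFn p.1).prod p.2} ≤
      Nat.card {t : Fin m.length → PS n F // (∀ j, t j ^ m.get j = 1) ∧ E t} * cm (PS n F) := by
    intro R hR
    have h := D.card_fiber (PS n F) (I := Fin m.length → PS n F)
      (fun t => (∀ j, t j ^ m.get j = 1) ∧ E t) (fun t p => R (List.ofFn t).prod p) (cm (PS n F))
      (fun t => hR _)
    refine le_trans (le_of_eq (Nat.card_congr (Equiv.subtypeEquivRight fun p => ?_))) h
    rw [and_assoc]
  have f1 := D.finite_ohom 1 m (PS n F)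
  have f2 := D.finite_nhom 2 m (PS n F)
  have hf0 : 0 < 2 * (8 * n.factorial) := by
    have := Nat.factorial_pos n
    omega
  constructor
  · rw [D.prob_compl f1]
    have h1 : Nat.card (OGroup 1 m →* PS n F) = OT (PS n F) m (fun _ => True) := by
      rw [← hHO (PS n F) m (fun _ => True)]
      exact Nat.card_congr (Equiv.subtypeUnivEquiv fun _ => trivial).symm
    have h2 : prob (OGroup 1 m) (PS n F) (fun ρ => ¬ Irr (oell ρ)) ≤
        ((2 * (8 * n.factorial) : ℕ) : ℝ) * Nat.card (ConjClasses (PS n F)) *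
          ((Nat.card {t : Fin m.length → PS n F // (∀ j, t j ^ m.get j = 1) ∧ E t} : ℝ) /
          Nat.card {t : Fin m.length → PS n F // ∀ j, t j ^ m.get j = 1}) := by
      have h3 := hHO (PS n F) m E
      unfold prob
      rw [h1]
      have h4 : Nat.card {ρ : OGroup 1 m →* PS n F // ¬ Irr (oell ρ)} = OT (PS n F) m E := h3
      rw [h4]
      refine D.final hJ hJpos hg hf0 hcm hO ?_
      exact hfib (fun g p => g * (p.1 * p.2 * p.1⁻¹ * p.2⁻¹) = 1) fun g => (hUP (PS n F) g).1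
    push_cast at h2
    have h5 : prob (OGroup 1 m) (PS n F) (fun ρ => ¬ Irr (oell ρ)) ≤ ε := by
      refine h2.trans (le_trans (le_of_eq ?_) hb2)
      ring
    linarith
  · rw [D.prob_compl f2]
    have h1 : Nat.card (NGroup 2 m →* PS n F) = NT (PS n F) m (fun _ => True) := by
      rw [← hHN (PS n F) m (fun _ => True)]
      exact Nat.card_congr (Equiv.subtypeUnivEquiv fun _ => trivial).symm
    have h2 : prob (NGroup 2 m) (PS n F) (fun ρ => ¬ Irr (nell ρ)) ≤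
        ((2 * (8 * n.factorial) : ℕ) : ℝ) * Nat.card (ConjClasses (PS n F)) *
          ((Nat.card {t : Fin m.length → PS n F // (∀ j, t j ^ m.get j = 1) ∧ E t} : ℝ) /
          Nat.card {t : Fin m.length → PS n F // ∀ j, t j ^ m.get j = 1}) := by
      have h3 := hHN (PS n F) m E
      unfold prob
      rw [h1]
      have h4 : Nat.card {ρ : NGroup 2 m →* PS n F // ¬ Irr (nell ρ)} = NT (PS n F) m E := h3
      rw [h4]
      refine D.final hJ hJpos hg hf0 hcm hNn ?_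
      exact hfib (fun g p => g * (p.1 ^ 2 * p.2 ^ 2) = 1) fun g => (hUP (PS n F) g).2
    push_cast at h2
    have h5 : prob (NGroup 2 m) (PS n F) (fun ρ => ¬ Irr (nell ρ)) ≤ ε := by
      refine h2.trans (le_trans (le_of_eq ?_) hb2)
      ring
    linarith

end RSF
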