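import Pool.Agent.RSF.Stmts3

/-!
# Final assembly of (F): arbitrary periods with `σ > 1`, `q ≥ n ^ K`
-/

namespace RSF

namespace F

noncomputable section

/-- the complement of an event -/
theorem prob_compl {Γ G : Type} [Group Γ] [Group G] (hfin : Finite (Γ →* G))
    (P : (Γ →* G) → Prop) : prob Γ G P = 1 - prob Γ G (fun ρ => ¬ P ρ) := by
  classical
  have hne : Nonempty (Γ →* G) := ⟨1⟩
  have hpos : (0 : ℝ) < Nat.card (Γ →* G) := by exact_mod_cast Nat.card_pos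
  have h1 : Nat.card {ρ : Γ →* G // P ρ} + Nat.card {ρ : Γ →* G // ¬ P ρ} = Nat.card (Γ →* G) := by
    rw [← Nat.card_sum]
    exact Nat.card_congr (Equiv.sumCompl P)
  have h2 : (Nat.card {ρ : Γ →* G // P ρ} : ℝ) + Nat.card {ρ : Γ →* G // ¬ P ρ} =
      Nat.card (Γ →* G) := by exact_mod_cast h1
  unfold prob
  rw [eq_sub_iff_add_eq, ← add_div, h2, div_self hpos.ne']

theorem finite_ogen (g d : ℕ) : Finite (OGen g d) := by
  refine Finite.of_surjective
    (fun s : Fin g ⊕ Fin g ⊕ Fin d => (match s with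
      | Sum.inl i => OGen.a i
      | Sum.inr (Sum.inl i) => OGen.b i
      | Sum.inr (Sum.inr j) => OGen.x j : OGen g d)) ?_
  rintro (i | i | j)
  · exact ⟨Sum.inl i, rfl⟩
  · exact ⟨Sum.inr (Sum.inl i), rfl⟩
  · exact ⟨Sum.inr (Sum.inr j), rfl⟩

theorem finite_ngen (g d : ℕ) : Finite (NGen g d) := by
  refine Finite.of_surjective
    (fun s : Fin g ⊕ Fin d => (match s with
      | Sum.inl i => NGen.a i
      | Sum.inr j => NGen.x j : NGen g d)) ?_
  rintro (i | j)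
  · exact ⟨Sum.inl i, rfl⟩
  · exact ⟨Sum.inr j, rfl⟩

theorem finite_ohom (g : ℕ) (m : List ℕ) (G : Type) [Group G] [Finite G] :
    Finite (OGroup g m →* G) := by
  have := finite_ogen g m.length
  refine Finite.of_injective
    (fun ρ : OGroup g m →* G => fun s : OGen g m.length => ρ (PresentedGroup.of s)) ?_
  intro ρ τ h
  exact PresentedGroup.ext fun s => congrFun h s

theorem finite_nhom (g : ℕ) (m : List ℕ) (G : Type) [Group G] [Finite G] :
    Finite (NGroup g m →* G) := by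
  have := finite_ngen g m.length
  refine Finite.of_injective
    (fun ρ : NGroup g m →* G => fun s : NGen g m.length => ρ (PresentedGroup.of s)) ?_
  intro ρ τ h
  exact PresentedGroup.ext fun s => congrFun h s

theorem card_tors (G : Type) [Group G] [Finite G] (m : List ℕ) :
    Nat.card {t : Fin m.length → G // ∀ j, t j ^ m.get j = 1} = JJ G m := by
  have e : {t : Fin m.length → G // ∀ j, t j ^ m.get j = 1} ≃
      ((j : Fin m.length) → {x : G // x ^ m.get j = 1}) :=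
    { toFun := fun t j => ⟨t.1 j, t.2 j⟩
      invFun := fun f => ⟨fun j => (f j).1, fun j => (f j).2⟩
      left_inv := fun t => rfl
      right_inv := fun f => rfl }
  rw [Nat.card_congr e, Nat.card_pi]
  unfold JJ
  have h1 : (m.map (jn G)).prod = ∏ j : Fin m.length, jn G (m.get j) := by
    conv_lhs => rw [← List.ofFn_get m]
    rw [List.map_ofFn, List.prod_ofFn]
    rfl
  rw [h1]
  rfl

/-- `n! ≤ q ^ (c n)` if `q ≥ n ^ K`, `c K ≥ 1` -/
theorem fac_le (q c : ℝ) (n K : ℕ) (hn : 1 ≤ n) (hq1 : 1 ≤ q) (hK : 1 ≤ K)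
    (hq : (n : ℝ) ^ K ≤ q) (hc : 1 ≤ c * K) : (n.factorial : ℝ) ≤ q ^ (c * (n : ℝ)) := by
  have hn0 : (0 : ℝ) ≤ n := Nat.cast_nonneg n
  have hK0 : (0 : ℝ) < K := by exact_mod_cast hK
  have h1 : (n.factorial : ℝ) ≤ (n : ℝ) ^ n := by exact_mod_cast Nat.factorial_le_pow n
  have h2 : (n : ℝ) ^ n = ((n : ℝ) ^ K) ^ ((n : ℝ) / K) := by
    rw [← Real.rpow_natCast (n : ℝ) K, ← Real.rpow_mul hn0, mul_div_cancel₀ _ hK0.ne',
      Real.rpow_natCast]
  have h3 : ((n : ℝ) ^ K) ^ ((n : ℝ) / K) ≤ q ^ ((n : ℝ) / K) :=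
    Real.rpow_le_rpow (by positivity) hq (by positivity)
  have h4 : q ^ ((n : ℝ) / K) ≤ q ^ (c * (n : ℝ)) := by
    apply Real.rpow_le_rpow_of_exponent_le hq1
    rw [div_le_iff₀ hK0]
    nlinarith
  linarith [h2 ▸ h3]

/-- the transfer, with the loss `f` -/
theorem final {N NE g f J R : ℕ} {X : ℝ} (hJpos : 0 < J) (hg : 0 < g) (hf : 0 < f)
    (hN : g * J ≤ f * N) (hNE : NE ≤ R) (hX : 0 ≤ X) (hR : (R : ℝ) ≤ X * (g * J)) :
    (NE : ℝ) / N ≤ f * X := by
  have h1 : (0 : ℝ) < g := by exact_mod_cast hg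
  have h2 : (0 : ℝ) < J := by exact_mod_cast hJpos
  have h0 : (0 : ℝ) < f := by exact_mod_cast hf
  have h3 : (g : ℝ) * J ≤ f * N := by exact_mod_cast hN
  have h4 : (NE : ℝ) ≤ R := by exact_mod_cast hNE
  have h5 : (0 : ℝ) < N := by
    have := lt_of_lt_of_le (mul_pos h1 h2) h3
    exact (pos_iff_pos_of_mul_pos this).1 h0
  rw [div_le_iff₀ h5]
  calc (NE : ℝ) ≤ R := h4
    _ ≤ X * (g * J) := hR
    _ ≤ X * (f * N) := mul_le_mul_of_nonneg_left h3 hX
    _ = _ := by ring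

/-- the estimate -/
theorem bound (q C s c : ℝ) (n : ℕ) (hq : 1 ≤ q) (hC : 0 < C) (hcs : (s - 1) / 2 = 2 * c)
    (f : ℝ) (hf0 : 0 ≤ f) (hf : f ≤ q ^ (c * (n : ℝ))) :
    16 * f * (C * ((n : ℝ) + 1) ^ C * q ^ (C - (s - 1) / 2 * (n : ℝ))) ≤
      (16 * C + 1) * ((n : ℝ) + 1) ^ (16 * C + 1) * q ^ ((16 * C + 1) - c * (n : ℝ)) := by
  have hq0 : 0 < q := by linarith
  have hn1 : (1 : ℝ) ≤ (n : ℝ) + 1 := by
    have : (0 : ℝ) ≤ n := Nat.cast_nonneg n
    linarith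
  have hX : 0 ≤ C * ((n : ℝ) + 1) ^ C * q ^ (C - (s - 1) / 2 * (n : ℝ)) := by positivity
  have h2 : 16 * f * (C * ((n : ℝ) + 1) ^ C * q ^ (C - (s - 1) / 2 * (n : ℝ))) ≤
      16 * q ^ (c * (n : ℝ)) * (C * ((n : ℝ) + 1) ^ C * q ^ (C - (s - 1) / 2 * (n : ℝ))) :=
    mul_le_mul_of_nonneg_right (by linarith) hX
  refine h2.trans ?_
  have h3 : 16 * q ^ (c * (n : ℝ)) *
      (C * ((n : ℝ) + 1) ^ C * q ^ (C - (s - 1) / 2 * (n : ℝ))) =
      (16 * C) * ((n : ℝ) + 1) ^ C * q ^ (C - c * (n : ℝ)) := by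
    have : q ^ (C - c * (n : ℝ)) =
        q ^ (c * (n : ℝ)) * q ^ (C - (s - 1) / 2 * (n : ℝ)) := by
      rw [← Real.rpow_add hq0]
      congr 1
      rw [hcs]
      ring
    rw [this]
    ring
  rw [h3]
  have h4 : ((n : ℝ) + 1) ^ C ≤ ((n : ℝ) + 1) ^ (16 * C + 1) :=
    Real.rpow_le_rpow_of_exponent_le hn1 (by linarith)
  have h5 : q ^ (C - c * (n : ℝ)) ≤ q ^ ((16 * C + 1) - c * (n : ℝ)) :=
    Real.rpow_le_rpow_of_exponent_le hq (by linarith)
  have h6 : 16 * C ≤ 16 * C + 1 := by linarith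
  have h7 : 0 ≤ ((n : ℝ) + 1) ^ C := by positivity
  have h8 : 0 ≤ q ^ (C - c * (n : ℝ)) := by positivity
  have h9 : 0 ≤ 16 * C + 1 := by linarith
  have h10 : 0 ≤ ((n : ℝ) + 1) ^ (16 * C + 1) := by positivity
  calc (16 * C) * ((n : ℝ) + 1) ^ C * q ^ (C - c * (n : ℝ))
      ≤ (16 * C + 1) * ((n : ℝ) + 1) ^ (16 * C + 1) * q ^ (C - c * (n : ℝ)) :=
        mul_le_mul_of_nonneg_right (mul_le_mul h6 h4 h7 h9) h8
    _ ≤ _ := mul_le_mul_of_nonneg_left h5 (mul_nonneg h9 h10)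

end

end F

theorem t_F : M_F := by
  intro hH2 hLD hNP hJ2 hBH hR2 hAS m hm2 hs
  obtain ⟨C, r0, hC0, hr0, hbad⟩ := hR2 m hm2 hs
  obtain ⟨c, hc⟩ : ∃ c, c = (sig m - 1) / 4 := ⟨_, rfl⟩
  have hc0 : 0 < c := by
    rw [hc]
    linarith
  obtain ⟨r, hr, hr2⟩ := hAS c (16 * C + 1) hc0 (by linarith)
  refine ⟨max (max r r0) (2 + 2 * m.sum), 9 + ⌈1 / c⌉₊, fun ε hε => ?_⟩
  obtain ⟨N, hN⟩ := hr2 ε hε
  refine ⟨N, fun n hn F _ _ hqn hcard => ?_⟩
  have hnr : r ≤ n := le_trans (le_trans (le_max_left _ _) (le_max_left _ _)) hn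
  have hnr0 : r0 ≤ n := le_trans (le_trans (le_max_right _ _) (le_max_left _ _)) hn
  have hn2 : 2 + 2 * m.sum ≤ n := le_trans (le_max_right _ _) hn
  have hfinal := hN n hnr F hcard
  have hn1 : 1 ≤ n := by omega
  have hq : (1 : ℝ) ≤ (Nat.card F : ℝ) := by
    have : 0 < Nat.card F := Nat.card_pos
    exact_mod_cast this
  have hcK : 1 ≤ c * ((9 + ⌈1 / c⌉₊ : ℕ) : ℝ) := by
    have h1 : 1 / c ≤ (⌈1 / c⌉₊ : ℝ) := Nat.le_ceil _
    have h2 : c * (1 / c) = 1 := by field_simp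
    have h3 : c * (1 / c) ≤ c * (⌈1 / c⌉₊ : ℝ) := mul_le_mul_of_nonneg_left h1 hc0.le
    push_cast
    nlinarith
  have hfac : (n.factorial : ℝ) ≤ (Nat.card F : ℝ) ^ (c * (n : ℝ)) :=
    RSF.F.fac_le _ c n (9 + ⌈1 / c⌉₊) hn1 hq (by omega) (by exact_mod_cast hqn) hcK
  have hb := RSF.F.bound (Nat.card F : ℝ) C (sig m) c n hq hC0 (by rw [hc]; ring)
    (n.factorial : ℝ) (Nat.cast_nonneg _) hfac
  have hb2 := hb.trans hfinal
  -- the lower bound of the number of homomorphisms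
  have h100 : 100 * n ^ 2 ≤ Nat.card F := by
    have e : n ^ (9 + ⌈1 / c⌉₊) = n ^ 2 * n ^ (7 + ⌈1 / c⌉₊) := by
      rw [← pow_add]
      congr 1
      omega
    rw [e] at hqn
    have h1 : 2 ^ 7 ≤ n ^ (7 + ⌈1 / c⌉₊) :=
      le_trans (Nat.pow_le_pow_left (by omega : 2 ≤ n) 7)
        (Nat.pow_le_pow_right (by omega) (by omega))
    nlinarith [Nat.zero_le (n ^ 2)]
  have hmne : m ≠ [] := by
    rintro rfl
    simp [sig] at hs
    norm_num at hs
  have hjn : ∀ k ∈ m, 2 ≤ jn (PS n F) k := by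
    intro k hk
    have h1 : k ≤ m.sum := List.le_sum_of_mem hk
    exact hJ2 F n k (hm2 k hk) (by omega)
  have hld := hLD (PS n F) m (8 * n.factorial) hmne hjn
  have hO := hld.1 fun g hg => (hNP F n (by omega) h100 g hg).1
  have hNn := hld.2 fun g hg => (hNP F n (by omega) h100 g hg).2
  have hJ := RSF.F.card_tors (PS n F) m
  have hJpos : 0 < JJ (PS n F) m := by
    rw [← hJ]
    haveI : Nonempty {t : Fin m.length → PS n F // ∀ j, t j ^ m.get j = 1} :=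
      ⟨⟨fun _ => 1, fun j => one_pow _⟩⟩
    exact Nat.card_pos
  have hg : 0 < Nat.card (PS n F) := Nat.card_pos
  have f1 := RSF.F.finite_ohom 1 m (PS n F)
  have f2 := RSF.F.finite_nhom 2 m (PS n F)
  have hf0 : 0 < 2 * (8 * n.factorial) := by
    have := Nat.factorial_pos n
    omega
  have hH := hH2 (PS n F) m (fun _ _ _ => True)
  have hRB := hbad n hnr0 F
  have hX : 0 ≤ C * ((n : ℝ) + 1) ^ C *
      (Nat.card F : ℝ) ^ (C - (sig m - 1) / 2 * (n : ℝ)) := by positivity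
  constructor
  · rw [RSF.F.prob_compl f1]
    have h1 : Nat.card (OGroup 1 m →* PS n F) = OT (PS n F) m (fun _ => True) := by
      refine Eq.trans ?_ hH.1
      exact Nat.card_congr (Equiv.subtypeUnivEquiv fun _ => trivial).symm
    have h2 : prob (OGroup 1 m) (PS n F) (fun ρ => ¬ Irr ρ.range) ≤
        ((2 * (8 * n.factorial) : ℕ) : ℝ) * (C * ((n : ℝ) + 1) ^ C *
          (Nat.card F : ℝ) ^ (C - (sig m - 1) / 2 * (n : ℝ))) := by
      unfold prob
      rw [h1]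
      exact RSF.F.final hJpos hg hf0 hO (hBH F n m).1 hX hRB
    push_cast at h2
    have h5 : prob (OGroup 1 m) (PS n F) (fun ρ => ¬ Irr ρ.range) ≤ ε := by
      refine h2.trans (le_trans (le_of_eq ?_) hb2)
      ring
    linarith
  · rw [RSF.F.prob_compl f2]
    have h1 : Nat.card (NGroup 2 m →* PS n F) = NT (PS n F) m (fun _ => True) := by
      refine Eq.trans ?_ hH.2
      exact Nat.card_congr (Equiv.subtypeUnivEquiv fun _ => trivial).symm
    have h2 : prob (NGroup 2 m) (PS n F) (fun ρ => ¬ Irr ρ.range) ≤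
        ((2 * (8 * n.factorial) : ℕ) : ℝ) * (C * ((n : ℝ) + 1) ^ C *
          (Nat.card F : ℝ) ^ (C - (sig m - 1) / 2 * (n : ℝ))) := by
      unfold prob
      rw [h1]
      exact RSF.F.final hJpos hg hf0 hNn (hBH F n m).2 hX hRB
    push_cast at h2
    have h5 : prob (NGroup 2 m) (PS n F) (fun ρ => ¬ Irr ρ.range) ≤ ε := by
      refine h2.trans (le_trans (le_of_eq ?_) hb2)
      ring
    linarith

end RSF
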