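import Pool.Agent.RSF.Stmts3

/-!
# Module FK: the number of invariant subspaces of a linear map
-/

set_option autoImplicit false

namespace RSF

open Polynomial

noncomputable section

namespace FK

section base

variable {F V : Type} [Field F] [AddCommGroup V] [Module F V]

/-- invariant subspaces -/
def Inv (A : Module.End F V) (W : Submodule F V) : Prop := ∀ w ∈ W, A w ∈ W

/-- minimal invariant subspaces -/
def Smp (A : Module.End F V) (U : Submodule F V) : Prop :=
  U ≠ ⊥ ∧ Inv A U ∧ ∀ U' ≤ U, Inv A U' → U' = ⊥ ∨ U' = U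

theorem pow_mem {A : Module.End F V} {W : Submodule F V} (h : Inv A W) (n : ℕ) :
    ∀ w ∈ W, (A ^ n) w ∈ W := by
  induction n with
  | zero => intro w hw; rw [pow_zero]; exact hw
  | succ n ih => intro w hw; rw [pow_succ]; exact ih _ (h w hw)

theorem inv_aeval {A : Module.End F V} {W : Submodule F V} (h : Inv A W) (p : F[X]) :
    ∀ w ∈ W, aeval A p w ∈ W := by
  induction p using Polynomial.induction_on' with
  | add p q hp hq =>
    intro w hw
    rw [map_add]
    exact add_mem (hp w hw) (hq w hw)
  | monomial n a =>
    intro w hw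
    rw [aeval_monomial]
    change a • ((A ^ n) w) ∈ W
    exact W.smul_mem a (pow_mem h n w hw)

theorem inv_inf {A : Module.End F V} {W W' : Submodule F V} (h : Inv A W) (h' : Inv A W') :
    Inv A (W ⊓ W') := fun w hw => ⟨h w hw.1, h' w hw.2⟩

theorem inv_ker (A : Module.End F V) (p : F[X]) : Inv A (LinearMap.ker (aeval A p)) := by
  intro w hw
  rw [LinearMap.mem_ker] at hw ⊢
  have h1 : aeval A p (A w) = A (aeval A p w) := by
    have h2 : aeval A p * A = A * aeval A p := by
      have h3 : aeval A (p * X) = aeval A (X * p) := by rw [mul_comm]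
      rw [map_mul, map_mul, aeval_X] at h3
      exact h3
    exact congrArg (fun f : Module.End F V => f w) h2
  rw [h1, hw, map_zero]

/-- the map `f ↦ f(A) u` -/
def ph (A : Module.End F V) (u : V) : F[X] →ₗ[F] V where
  toFun f := aeval A f u
  map_add' f g := by rw [map_add]; rfl
  map_smul' c f := by rw [map_smul]; rfl

theorem ph_mul (A : Module.End F V) (u : V) (f g : F[X]) : ph A u (f * g) = aeval A f (ph A u g) := by
  change aeval A (f * g) u = aeval A f (aeval A g u)
  rw [map_mul]
  rfl

theorem ph_range {A : Module.End F V} {U : Submodule F V} (hU : Smp A U) {u : V} (hu : u ∈ U)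
    (hu0 : u ≠ 0) : LinearMap.range (ph A u) = U := by
  have h1 : LinearMap.range (ph A u) ≤ U := by
    rintro _ ⟨f, rfl⟩
    exact inv_aeval hU.2.1 f u hu
  rcases hU.2.2 _ h1 (by
    rintro _ ⟨f, rfl⟩
    refine ⟨X * f, ?_⟩
    rw [ph_mul, aeval_X]) with h2 | h2
  · exfalso
    apply hu0
    have h3 : u ∈ LinearMap.range (ph A u) := ⟨1, by
      change aeval A 1 u = u
      rw [map_one]; rfl⟩
    rw [h2, Submodule.mem_bot] at h3
    exact h3
  · exact h2

theorem exists_kill {A : Module.End F V} {U : Submodule F V} (hU : Inv A U) (s : Multiset F[X]) :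
    ∀ u ∈ U, u ≠ 0 → aeval A s.prod u = 0 → ∃ p ∈ s, ∃ w ∈ U, w ≠ 0 ∧ aeval A p w = 0 := by
  induction s using Multiset.induction_on with
  | empty =>
    intro u _ hu0 h
    rw [Multiset.prod_zero, map_one] at h
    exact absurd h hu0
  | cons p s ih =>
    intro u hu hu0 h
    rw [Multiset.prod_cons, map_mul] at h
    by_cases hw : aeval A s.prod u = 0
    · obtain ⟨p', hp', w, hwU, hw0, hk⟩ := ih u hu hu0 hw
      exact ⟨p', Multiset.mem_cons_of_mem hp', w, hwU, hw0, hk⟩
    · exact ⟨p, Multiset.mem_cons_self p s, _, inv_aeval hU _ u hu, hw, h⟩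

theorem dim_eq {A : Module.End F V} {U : Submodule F V} (hU : Smp A U) {p : F[X]} (hp : p.Monic)
    (hirr : Irreducible p) (hk : ∀ u ∈ U, aeval A p u = 0) :
    Module.finrank F U = p.natDegree := by
  obtain ⟨u, hu, hu0⟩ := Submodule.exists_mem_ne_zero_of_ne_bot hU.1
  set d := p.natDegree with hd
  have hpd : p.degree = (d : WithBot ℕ) := Polynomial.degree_eq_natDegree hp.ne_zero
  let ψ : degreeLT F d →ₗ[F] V := (ph A u).comp (degreeLT F d).subtype
  have hinj : Function.Injective ψ := by
    rw [injective_iff_map_eq_zero]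
    rintro ⟨f, hf⟩ h0
    have h1 : aeval A f u = 0 := h0
    rw [Polynomial.mem_degreeLT] at hf
    by_contra hne
    have hf0 : f ≠ 0 := fun h => hne (Subtype.ext h)
    have hnd : ¬ p ∣ f := by
      intro hdv
      have := Polynomial.degree_le_of_dvd hdv hf0
      rw [hpd] at this
      exact absurd hf (not_lt.2 this)
    obtain ⟨a, b, hab⟩ := (hirr.coprime_iff_not_dvd.2 hnd)
    apply hu0
    have h2 : u = aeval A (a * p + b * f) u := by rw [hab, map_one]; rfl
    rw [h2, map_add, map_mul, map_mul]
    change aeval A a (aeval A p u) + aeval A b (aeval A f u) = 0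
    rw [hk u hu, h1, map_zero, map_zero, add_zero]
  have hrange : LinearMap.range ψ = U := by
    refine le_antisymm ?_ ?_
    · rintro _ ⟨f, rfl⟩
      exact inv_aeval hU.2.1 f.1 u hu
    · rw [← ph_range hU hu hu0]
      rintro _ ⟨f, rfl⟩
      refine ⟨⟨f %ₘ p, ?_⟩, ?_⟩
      · rw [Polynomial.mem_degreeLT, ← hpd]
        exact Polynomial.degree_modByMonic_lt f hp
      · change ph A u (f %ₘ p) = ph A u f
        conv_rhs => rw [← Polynomial.modByMonic_add_div f p]
        rw [map_add, mul_comm p, ph_mul]
        change _ = _ + aeval A (f /ₘ p) (aeval A p u)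
        rw [hk u hu, map_zero, add_zero]
  rw [← hrange, LinearMap.finrank_range_of_inj hinj, (degreeLTEquiv F d).finrank_eq,
    Module.finrank_fin_fun]

open Classical in
/-- the irreducible factors -/
def TT (A : Module.End F V) : Finset F[X] :=
  (UniqueFactorizationMonoid.normalizedFactors (minpoly F A)).toFinset

end base

section fin

variable {F V : Type} [Field F] [AddCommGroup V] [Module F V] [FiniteDimensional F V]

open UniqueFactorizationMonoid Classical in
theorem card_TT (A : Module.End F V) : (TT A).card ≤ Module.finrank F V := by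
  have hm : minpoly F A ≠ 0 := minpoly.ne_zero (Algebra.IsIntegral.isIntegral A)
  have h1 : (TT A).card ≤ Multiset.card (normalizedFactors (minpoly F A)) :=
    Multiset.toFinset_card_le _
  have h2 : ∀ p ∈ normalizedFactors (minpoly F A), 1 ≤ p.natDegree := fun p hp =>
    (irreducible_of_normalized_factor p hp).natDegree_pos
  have h3 : (normalizedFactors (minpoly F A)).prod.natDegree =
      ((normalizedFactors (minpoly F A)).map natDegree).sum := by
    apply Polynomial.natDegree_multiset_prod
    intro h0
    exact (irreducible_of_normalized_factor 0 h0).ne_zero rfl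
  have h4 : Multiset.card (normalizedFactors (minpoly F A)) ≤
      ((normalizedFactors (minpoly F A)).map natDegree).sum := by
    have := Multiset.card_nsmul_le_sum (s := (normalizedFactors (minpoly F A)).map natDegree)
      (a := 1) (by
        intro x hx
        obtain ⟨p, hp, rfl⟩ := Multiset.mem_map.1 hx
        exact h2 p hp)
    rwa [Multiset.card_map, smul_eq_mul, mul_one] at this
  have h5 : (normalizedFactors (minpoly F A)).prod.natDegree = (minpoly F A).natDegree :=
    Polynomial.natDegree_eq_of_degree_eq
      (Polynomial.degree_eq_degree_of_associated (prod_normalizedFactors hm))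
  have h6 : (minpoly F A).natDegree ≤ Module.finrank F V := by
    rw [← LinearMap.charpoly_natDegree A]
    exact Polynomial.natDegree_le_of_dvd (LinearMap.minpoly_dvd_charpoly A)
      (LinearMap.charpoly_monic A).ne_zero
  omega

open UniqueFactorizationMonoid Classical in
theorem exists_poly {A : Module.End F V} {U : Submodule F V} (hU : Smp A U) :
    ∃ p ∈ TT A, p.Monic ∧ Irreducible p ∧ (∀ u ∈ U, aeval A p u = 0) ∧
      Module.finrank F U = p.natDegree := by
  have hm : minpoly F A ≠ 0 := minpoly.ne_zero (Algebra.IsIntegral.isIntegral A)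
  obtain ⟨u, hu, hu0⟩ := Submodule.exists_mem_ne_zero_of_ne_bot hU.1
  have h1 : aeval A (normalizedFactors (minpoly F A)).prod u = 0 := by
    obtain ⟨c, hc⟩ := (prod_normalizedFactors hm).symm.dvd
    rw [hc, map_mul, minpoly.aeval, zero_mul]
    rfl
  obtain ⟨p, hp, w, hw, hw0, hk⟩ := exists_kill hU.2.1 _ u hu hu0 h1
  have hirr := irreducible_of_normalized_factor p hp
  have hmon : p.Monic := by
    have h2 := Polynomial.monic_normalize hirr.ne_zero
    rwa [normalize_normalized_factor p hp] at h2
  have hall : ∀ u ∈ U, aeval A p u = 0 := by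
    rcases hU.2.2 (U ⊓ LinearMap.ker (aeval A p)) inf_le_left (inv_inf hU.2.1 (inv_ker A p))
      with h | h
    · exfalso
      apply hw0
      have h3 : w ∈ U ⊓ LinearMap.ker (aeval A p) := ⟨hw, hk⟩
      rw [h, Submodule.mem_bot] at h3
      exact h3
    · intro u hu
      rw [← h] at hu
      exact hu.2
  exact ⟨p, Multiset.mem_toFinset.2 hp, hmon, hirr, hall, dim_eq hU hmon hirr hall⟩

theorem exists_min {A : Module.End F V} {W : Submodule F V} (hW : Inv A W) (h0 : W ≠ ⊥) :
    ∃ U ≤ W, Smp A U := by
  obtain ⟨U, hU, hmin⟩ := WellFounded.has_min (wellFounded_lt : WellFounded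
    ((· < ·) : Submodule F V → Submodule F V → Prop)) {U | U ≠ ⊥ ∧ U ≤ W ∧ Inv A U}
    ⟨W, h0, le_rfl, hW⟩
  refine ⟨U, hU.2.1, hU.1, hU.2.2, fun U' hle hinv => ?_⟩
  by_contra hcon
  rw [not_or] at hcon
  exact hmin U' ⟨hcon.1, hle.trans hU.2.1, hinv⟩ (lt_of_le_of_ne hle hcon.2)

/-- dimension of the image in the quotient -/
theorem finrank_map (U R : Submodule F V) :
    Module.finrank F (R.map U.mkQ) + Module.finrank F (U.comap R.subtype) =
      Module.finrank F R := by
  have h := LinearMap.finrank_range_add_finrank_ker (U.mkQ.domRestrict R)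
  rw [LinearMap.range_domRestrict, LinearMap.ker_domRestrict] at h
  have e : (LinearMap.ker U.mkQ).comap R.subtype = U.comap R.subtype := by
    rw [Submodule.ker_mkQ]
  rw [← e]
  exact h

theorem aeval_mapQ {A : Module.End F V} {U : Submodule F V} (h : U ≤ U.comap A) (p : F[X]) :
    ∀ v, aeval (U.mapQ U A h) p (U.mkQ v) = U.mkQ (aeval A p v) := by
  have hpow : ∀ (n : ℕ) v, ((U.mapQ U A h) ^ n) (U.mkQ v) = U.mkQ ((A ^ n) v) := by
    intro n
    induction n with
    | zero => intro v; rfl
    | succ n ih =>
      intro v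
      rw [pow_succ, pow_succ]
      change ((U.mapQ U A h) ^ n) ((U.mapQ U A h) (U.mkQ v)) = U.mkQ ((A ^ n) (A v))
      rw [← ih]
      rfl
  induction p using Polynomial.induction_on' with
  | add p q hp hq =>
    intro v
    rw [map_add, map_add]
    change aeval (U.mapQ U A h) p (U.mkQ v) + aeval (U.mapQ U A h) q (U.mkQ v) =
      U.mkQ (aeval A p v + aeval A q v)
    rw [hp, hq, map_add]
  | monomial n a =>
    intro v
    rw [aeval_monomial, aeval_monomial]
    change a • (((U.mapQ U A h) ^ n) (U.mkQ v)) = U.mkQ (a • ((A ^ n) v))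
    rw [hpow, map_smul]

theorem ker_quot {A : Module.End F V} {U : Submodule F V} (h : U ≤ U.comap A) (p : F[X]) :
    Module.finrank F (LinearMap.ker (aeval (U.mapQ U A h) p)) ≤
      Module.finrank F (LinearMap.ker (aeval A p)) := by
  have h1 := LinearMap.finrank_range_add_finrank_ker (aeval (U.mapQ U A h) p)
  have h2 := LinearMap.finrank_range_add_finrank_ker (aeval A p)
  have h3 := finrank_map U (LinearMap.range (aeval A p))
  have h4 : (LinearMap.range (aeval A p)).map U.mkQ ≤
      LinearMap.range (aeval (U.mapQ U A h) p) := by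
    rintro _ ⟨_, ⟨v, rfl⟩, rfl⟩
    exact ⟨U.mkQ v, aeval_mapQ h p v⟩
  have h5 := Submodule.finrank_mono h4
  have h6 : Module.finrank F (U.comap (LinearMap.range (aeval A p)).subtype) ≤
      Module.finrank F U := by
    refine LinearMap.finrank_le_finrank_of_injective
      (f := ((LinearMap.range (aeval A p)).subtype.restrict
        (p := U.comap (LinearMap.range (aeval A p)).subtype) (q := U) fun x hx => hx)) ?_
    intro x y hxy
    apply Subtype.ext
    apply Subtype.ext
    exact congrArg (fun z : U => (z : V)) hxy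
  have h7 := Submodule.finrank_quotient_add_finrank U
  omega

end fin

section count

variable {F V : Type} [Field F] [Finite F] [AddCommGroup V] [Module F V] [FiniteDimensional F V]

theorem count {A : Module.End F V} {p : F[X]} {r : ℕ} (hr : 1 ≤ r) (hp : 1 ≤ p.natDegree)
    (hk : Module.finrank F (LinearMap.ker (aeval A p)) ≤ r * p.natDegree)
    (s : Finset (Submodule F V)) (hs : ∀ U ∈ s, Smp A U ∧ (∀ u ∈ U, aeval A p u = 0) ∧
      Module.finrank F U = p.natDegree) :
    s.card ≤ 2 * Nat.card F ^ (p.natDegree * (r - 1)) := by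
  classical
  have : Finite V := Module.finite_of_finite F
  have : Fintype V := Fintype.ofFinite V
  set q := Nat.card F with hq
  set d := p.natDegree with hd
  have hq2 : 2 ≤ q := Finite.one_lt_card
  have hcard : ∀ U : Submodule F V,
      (Finset.univ.filter fun v : V => v ∈ U ∧ v ≠ 0).card + 1 = q ^ Module.finrank F U := by
    intro U
    have h1 : Nat.card U = q ^ Module.finrank F U := Module.natCard_eq_pow_finrank (K := F)
    rw [← h1]
    have h2 : Nat.card U = (Finset.univ.filter fun v : V => v ∈ U).card := by
      rw [Nat.card_eq_fintype_card, ← Fintype.card_subtype]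
    rw [h2]
    have h3 : (Finset.univ.filter fun v : V => v ∈ U) =
        insert 0 (Finset.univ.filter fun v : V => v ∈ U ∧ v ≠ 0) := by
      ext v
      simp only [Finset.mem_filter, Finset.mem_univ, true_and, Finset.mem_insert]
      constructor
      · intro hv
        by_cases h0 : v = 0
        · exact Or.inl h0
        · exact Or.inr ⟨hv, h0⟩
      · rintro (rfl | ⟨hv, _⟩)
        · exact U.zero_mem
        · exact hv
    rw [h3, Finset.card_insert_of_notMem]
    simp
  have hdisj : ∀ U ∈ s, ∀ U' ∈ s, U ≠ U' →
      Disjoint (Finset.univ.filter fun v : V => v ∈ U ∧ v ≠ 0)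
        (Finset.univ.filter fun v : V => v ∈ U' ∧ v ≠ 0) := by
    intro U hU U' hU' hne
    rw [Finset.disjoint_left]
    intro v hv hv'
    rw [Finset.mem_filter] at hv hv'
    have hS := (hs U hU).1
    have hS' := (hs U' hU').1
    have hv2 : v ∈ U ⊓ U' := ⟨hv.2.1, hv'.2.1⟩
    have hinv := inv_inf hS.2.1 hS'.2.1
    have hn : U ⊓ U' ≠ ⊥ := by
      intro h
      rw [h, Submodule.mem_bot] at hv2
      exact hv.2.2 hv2
    have e1 := (hS.2.2 _ inf_le_left hinv).resolve_left hn
    have e2 := (hS'.2.2 _ inf_le_right hinv).resolve_left hn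
    exact hne (e1.symm.trans e2)
  have hsub : s.biUnion (fun U => Finset.univ.filter fun v : V => v ∈ U ∧ v ≠ 0) ⊆
      Finset.univ.filter fun v : V => v ∈ LinearMap.ker (aeval A p) ∧ v ≠ 0 := by
    intro v hv
    obtain ⟨U, hU, hv⟩ := Finset.mem_biUnion.1 hv
    rw [Finset.mem_filter] at hv ⊢
    exact ⟨hv.1, (hs U hU).2.1 v hv.2.1, hv.2.2⟩
  have h1 := Finset.card_le_card hsub
  rw [Finset.card_biUnion hdisj] at h1
  have h2 : ∑ U ∈ s, (Finset.univ.filter fun v : V => v ∈ U ∧ v ≠ 0).card =
      s.card * (q ^ d - 1) := by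
    rw [Finset.sum_congr rfl (g := fun _ => q ^ d - 1), Finset.sum_const, smul_eq_mul]
    intro U hU
    have := hcard U
    rw [(hs U hU).2.2] at this
    omega
  rw [h2] at h1
  have h3 := hcard (LinearMap.ker (aeval A p))
  have h4 : q ^ Module.finrank F (LinearMap.ker (aeval A p)) ≤ q ^ (r * d) :=
    Nat.pow_le_pow_right (by omega) hk
  have h5 : q ^ (r * d) = q ^ (d * (r - 1)) * q ^ d := by
    rw [← pow_add]
    congr 1
    obtain ⟨r', rfl⟩ : ∃ r', r = r' + 1 := ⟨r - 1, by omega⟩
    simp only [Nat.add_sub_cancel]
    ring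
  have h6 : 2 ≤ q ^ d := hq2.trans (Nat.le_self_pow (by omega) q)
  have h7 : 1 ≤ q ^ (d * (r - 1)) := Nat.one_le_pow _ _ (by omega)
  by_contra hcon
  have hcon' := not_le.1 hcon
  have h8 : s.card * (q ^ d - 1) + 1 ≤ q ^ (d * (r - 1)) * q ^ d := by omega
  obtain ⟨D, hD⟩ : ∃ D, q ^ d = D + 1 := ⟨q ^ d - 1, by omega⟩
  rw [hD] at h8 h6
  have h9 : D + 1 - 1 = D := by omega
  rw [h9] at h8
  have h10 : (2 * q ^ (d * (r - 1)) + 1) * D ≤ s.card * D := Nat.mul_le_mul_right D hcon'
  nlinarith

end count

end FK

open FK in
theorem t_FK : S_FK := by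
  classical
  intro F V _ _ _ _ _ A r hr hA k
  induction k using Nat.strong_induction_on generalizing V with
  | _ k ih =>
    have hfin : ∀ (V' : Type) [AddCommGroup V'] [Module F V'] [FiniteDimensional F V'],
        Finite (Submodule F V') := by
      intro V' _ _ _
      have : Finite V' := Module.finite_of_finite F
      exact Finite.of_injective (fun W : Submodule F V' => (W : Set V')) SetLike.coe_injective
    have hVf := hfin V
    have hq1 : 1 ≤ Nat.card F := Nat.card_pos
    rcases Nat.eq_zero_or_pos k with rfl | hk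
    · have hs : Subsingleton {W : Submodule F V // Module.finrank F W = 0 ∧ ∀ w ∈ W, A w ∈ W} := by
        constructor
        rintro ⟨W, h, _⟩ ⟨W', h', _⟩
        apply Subtype.ext
        rw [Submodule.finrank_eq_zero] at h h'
        exact h.trans h'.symm
      rw [pow_zero, Nat.zero_mul, pow_zero, mul_one]
      exact Finite.card_le_one_iff_subsingleton.2 hs
    · have hinv : ∀ U : {U : Submodule F V // Smp A U ∧ Module.finrank F U ≤ k},
          U.1 ≤ U.1.comap A := fun U u hu => U.2.1.2.1 u hu
      have hpos : ∀ U : {U : Submodule F V // Smp A U ∧ Module.finrank F U ≤ k},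
          1 ≤ Module.finrank F U.1 := by
        intro U
        rw [Nat.one_le_iff_ne_zero]
        intro h
        rw [Submodule.finrank_eq_zero] at h
        exact U.2.1.1 h
      have hmin : ∀ W : {W : Submodule F V // Module.finrank F W = k ∧ ∀ w ∈ W, A w ∈ W},
          ∃ U ≤ W.1, Smp A U := by
        intro W
        refine exists_min W.2.2 fun h => ?_
        have h1 := W.2.1
        rw [h, finrank_bot] at h1
        omega
      choose UW hUW hUS using hmin
      let f : {W : Submodule F V // Module.finrank F W = k ∧ ∀ w ∈ W, A w ∈ W} →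
          Σ U : {U : Submodule F V // Smp A U ∧ Module.finrank F U ≤ k},
            {W' : Submodule F (V ⧸ U.1) // Module.finrank F W' = k - Module.finrank F U.1 ∧
              ∀ w ∈ W', U.1.mapQ U.1 A (hinv U) w ∈ W'} := fun W =>
        ⟨⟨UW W, hUS W, by rw [← W.2.1]; exact Submodule.finrank_mono (hUW W)⟩,
          ⟨W.1.map (UW W).mkQ, by
            have h1 := finrank_map (UW W) W.1
            have h2 : Module.finrank F ((UW W).comap W.1.subtype) = Module.finrank F (UW W) :=
              (Submodule.comapSubtypeEquivOfLe (hUW W)).finrank_eq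
            rw [W.2.1, h2] at h1
            exact (Nat.sub_eq_of_eq_add h1.symm).symm, by
            rintro _ ⟨w, hw, rfl⟩
            exact ⟨A w, W.2.2 w hw, rfl⟩⟩⟩
      let g : (Σ U : {U : Submodule F V // Smp A U ∧ Module.finrank F U ≤ k},
            {W' : Submodule F (V ⧸ U.1) // Module.finrank F W' = k - Module.finrank F U.1 ∧
              ∀ w ∈ W', U.1.mapQ U.1 A (hinv U) w ∈ W'}) → Submodule F V :=
        fun z => z.2.1.comap z.1.1.mkQ
      have hgf : ∀ W, g (f W) = W.1 := by
        intro W
        change (W.1.map (UW W).mkQ).comap (UW W).mkQ = W.1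
        rw [Submodule.comap_map_eq, Submodule.ker_mkQ]
        exact sup_eq_left.2 (hUW W)
      have hf : Function.Injective f := by
        intro W W' h
        apply Subtype.ext
        rw [← hgf W, ← hgf W', h]
      have hfq : ∀ U : {U : Submodule F V // Smp A U ∧ Module.finrank F U ≤ k},
          Finite (Submodule F (V ⧸ U.1)) := fun U => hfin (V ⧸ U.1)
      have hft : Fintype {U : Submodule F V // Smp A U ∧ Module.finrank F U ≤ k} :=
        Fintype.ofFinite _
      have h1 := Nat.card_le_card_of_injective f hf
      rw [Nat.card_sigma] at h1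
      refine h1.trans ?_
      -- the bound for one minimal subspace
      have h2 : ∀ U : {U : Submodule F V // Smp A U ∧ Module.finrank F U ≤ k},
          Nat.card {W' : Submodule F (V ⧸ U.1) // Module.finrank F W' = k - Module.finrank F U.1 ∧
              ∀ w ∈ W', U.1.mapQ U.1 A (hinv U) w ∈ W'} ≤
            (2 * Module.finrank F V) ^ (k - 1) *
              Nat.card F ^ ((k - Module.finrank F U.1) * (r - 1)) := by
        intro U
        have h3 := ih (k - Module.finrank F U.1) (by have := hpos U; omega) (V ⧸ U.1)
          (U.1.mapQ U.1 A (hinv U)) fun p hp hirr => (ker_quot (hinv U) p).trans (hA p hp hirr)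
        refine h3.trans (Nat.mul_le_mul_right _ ?_)
        have h4 := Submodule.finrank_quotient_add_finrank U.1
        have h5 := hpos U
        calc (2 * Module.finrank F (V ⧸ U.1)) ^ (k - Module.finrank F U.1)
            ≤ (2 * Module.finrank F V) ^ (k - Module.finrank F U.1) :=
              Nat.pow_le_pow_left (by omega) _
          _ ≤ (2 * Module.finrank F V) ^ (k - 1) := Nat.pow_le_pow_right (by omega) (by omega)
      have hpoly : ∀ U : {U : Submodule F V // Smp A U ∧ Module.finrank F U ≤ k},
          ∃ p ∈ TT A, p.Monic ∧ Irreducible p ∧ (∀ u ∈ U.1, aeval A p u = 0) ∧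
            Module.finrank F U.1 = p.natDegree := fun U => exists_poly U.2.1
      choose pU hpT hpM hpI hpK hpD using hpoly
      refine (Finset.sum_le_sum fun U _ => h2 U).trans ?_
      rw [← Finset.sum_fiberwise_of_maps_to (g := pU) (fun U _ => hpT U)]
      have h3 : ∀ p ∈ TT A, ∑ U ∈ Finset.univ.filter (fun U => pU U = p),
          (2 * Module.finrank F V) ^ (k - 1) *
              Nat.card F ^ ((k - Module.finrank F U.1) * (r - 1)) ≤
          2 * (2 * Module.finrank F V) ^ (k - 1) * Nat.card F ^ (k * (r - 1)) := by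
        intro p _
        rcases (Finset.univ.filter (fun U => pU U = p)).eq_empty_or_nonempty with he | ⟨U0, hU0⟩
        · rw [he, Finset.sum_empty]
          exact Nat.zero_le _
        · rw [Finset.mem_filter] at hU0
          have hp : p.Monic := hU0.2 ▸ hpM U0
          have hpi : Irreducible p := hU0.2 ▸ hpI U0
          have hd : p.natDegree ≤ k := by
            rw [← hU0.2, ← hpD U0]
            exact U0.2.2
          have hcard : (Finset.univ.filter (fun U => pU U = p)).card ≤
              2 * Nat.card F ^ (p.natDegree * (r - 1)) := by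
            rw [← Finset.card_image_of_injective (f := Subtype.val) _ Subtype.val_injective]
            refine count (A := A) (p := p) hr hpi.natDegree_pos (hA p hp hpi) _ ?_
            intro U hU
            obtain ⟨U', hU', rfl⟩ := Finset.mem_image.1 hU
            rw [Finset.mem_filter] at hU'
            refine ⟨U'.2.1, ?_, ?_⟩
            · have := hpK U'
              rw [hU'.2] at this
              exact this
            · rw [hpD U', hU'.2]
          rw [Finset.sum_congr rfl (g := fun _ => (2 * Module.finrank F V) ^ (k - 1) *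
            Nat.card F ^ ((k - p.natDegree) * (r - 1))), Finset.sum_const, smul_eq_mul]
          · refine (Nat.mul_le_mul_right _ hcard).trans (le_of_eq ?_)
            have e : Nat.card F ^ (k * (r - 1)) = Nat.card F ^ (p.natDegree * (r - 1)) *
                Nat.card F ^ ((k - p.natDegree) * (r - 1)) := by
              rw [← pow_add, ← Nat.add_mul]
              congr 2
              omega
            rw [e]
            ring
          · intro U hU
            rw [Finset.mem_filter] at hU
            rw [hpD U, hU.2]
      refine (Finset.sum_le_sum h3).trans ?_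
      rw [Finset.sum_const, smul_eq_mul]
      refine (Nat.mul_le_mul_right _ (card_TT A)).trans (le_of_eq ?_)
      obtain ⟨k', rfl⟩ : ∃ k', k = k' + 1 := ⟨k - 1, by omega⟩
      rw [Nat.add_sub_cancel, pow_succ]
      ring

end

end RSF
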