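import Pool.Agent.RSF.Stmts

/-!
# Module `FX`: endomorphisms that preserve a fixed subspace

Two subspaces of the same dimension are exchanged by a linear automorphism; conjugation by it gives the
bijection of the endomorphisms.
-/

namespace RSF

open Polynomial

namespace FX

/-- two subspaces of the same dimension are exchanged by a linear automorphism -/
theorem exists_equiv {F V : Type} [Field F] [AddCommGroup V] [Module F V] [FiniteDimensional F V]
    (W0 W : Submodule F V) (h : Module.finrank F W = Module.finrank F W0) :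
    ∃ e : V ≃ₗ[F] V, ∀ v, v ∈ W0 ↔ e v ∈ W := by
  obtain ⟨C0, hC0⟩ := Submodule.exists_isCompl W0
  obtain ⟨C, hC⟩ := Submodule.exists_isCompl W
  have h0 := Submodule.finrank_add_eq_of_isCompl hC0
  have h1 := Submodule.finrank_add_eq_of_isCompl hC
  have h2 : Module.finrank F C0 = Module.finrank F C := by omega
  have e1 : W0 ≃ₗ[F] W := LinearEquiv.ofFinrankEq _ _ h.symm
  have e2 : C0 ≃ₗ[F] C := LinearEquiv.ofFinrankEq _ _ h2
  let e : V ≃ₗ[F] V := (Submodule.prodEquivOfIsCompl W0 C0 hC0).symm.trans
    ((e1.prodCongr e2).trans (Submodule.prodEquivOfIsCompl W C hC))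
  have key : ∀ v ∈ W0, e v ∈ W := by
    intro v hv
    have : (Submodule.prodEquivOfIsCompl W0 C0 hC0).symm v = (⟨v, hv⟩, 0) := by
      rw [LinearEquiv.symm_apply_eq]
      simp [Submodule.coe_prodEquivOfIsCompl']
    simp only [e, LinearEquiv.trans_apply, this]
    simp [Submodule.coe_prodEquivOfIsCompl']
  refine ⟨e, fun v => ⟨key v, fun hv => ?_⟩⟩
  -- dimension count
  have hmap : W0.map (e : V →ₗ[F] V) = W := by
    apply Submodule.eq_of_le_of_finrank_eq
    · rintro x ⟨y, hy, rfl⟩
      exact key y hy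
    · rw [LinearEquiv.finrank_map_eq e W0, h]
  rw [← hmap] at hv
  obtain ⟨y, hy, hye⟩ := hv
  have : y = v := e.injective hye
  rw [← this]
  exact hy

theorem aeval_conj {F V : Type} [Field F] [AddCommGroup V] [Module F V] (e : V ≃ₗ[F] V)
    (A : Module.End F V) (g : F[X]) :
    aeval (LinearEquiv.conj e A) g = LinearEquiv.conj e (aeval A g) := by
  have h := Polynomial.aeval_algHom_apply ((LinearEquiv.conjAlgEquiv F e).toAlgHom) A g
  exact h

theorem finite_end (F V : Type) [Field F] [Finite F] [AddCommGroup V] [Module F V]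
    [FiniteDimensional F V] : Finite (Module.End F V) := by
  have : Finite V := Module.finite_of_finite F
  exact Finite.of_injective (fun A : Module.End F V => (A : V → V)) DFunLike.coe_injective

theorem finite_sub (F V : Type) [Field F] [Finite F] [AddCommGroup V] [Module F V]
    [FiniteDimensional F V] : Finite (Submodule F V) := by
  have : Finite V := Module.finite_of_finite F
  exact Finite.of_injective (fun W : Submodule F V => (W : Set V)) SetLike.coe_injective

theorem card_le (F V : Type) [Field F] [Finite F] [AddCommGroup V] [Module F V]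
    [FiniteDimensional F V] (g : F[X]) (W0 : Submodule F V) :
    Nat.card {W : Submodule F V // Module.finrank F W = Module.finrank F W0} *
      Nat.card {A : Module.End F V // aeval A g = 0 ∧ ∀ w ∈ W0, A w ∈ W0} ≤
      nT F V g (Module.finrank F W0) := by
  have := finite_end F V
  have := finite_sub F V
  rw [← Nat.card_prod]
  unfold nT
  have hE : ∀ W : {W : Submodule F V // Module.finrank F W = Module.finrank F W0},
      ∃ e : V ≃ₗ[F] V, ∀ v, v ∈ W0 ↔ e v ∈ W.1 := fun W => exists_equiv W0 W.1 W.2
  choose e he using hE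
  refine Nat.card_le_card_of_injective
    (fun p => ⟨(LinearEquiv.conj (e p.1) p.2.1, p.1.1), ?_, p.1.2, ?_⟩) ?_
  · simp only [aeval_conj, p.2.2.1, map_zero]
  · intro w hw
    simp only [LinearEquiv.conj_apply_apply]
    rw [← he p.1]
    apply p.2.2.2
    rw [he p.1]
    simpa using hw
  · rintro ⟨W, A⟩ ⟨W', A'⟩ h
    simp only [Subtype.mk.injEq, Prod.mk.injEq] at h
    obtain ⟨h1, h2⟩ := h
    have hW : W = W' := Subtype.ext h2
    subst hW
    have hA : A = A' := Subtype.ext ((LinearEquiv.conj (e W)).injective h1)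
    rw [hA]

end FX

theorem t_FX : M_FX := by
  intro hSUB hT F V _ _ _ _ _ g hg hdeg W0
  have hk : Module.finrank F W0 ≤ Module.finrank F V := Submodule.finrank_le W0
  have h1 := (hSUB F V (Module.finrank F W0) hk).1
  have h2 := hT F V g hg hdeg (Module.finrank F W0)
  have h3 := FX.card_le F V g W0
  have hq : (0 : ℝ) < (Nat.card F : ℝ) := by
    have : 0 < Nat.card F := Nat.card_pos
    exact_mod_cast this
  set q : ℝ := (Nat.card F : ℝ) with hqdef
  set n : ℕ := Module.finrank F V with hn
  set k : ℕ := Module.finrank F W0 with hkdef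
  set S : ℕ := Nat.card {A : Module.End F V // aeval A g = 0 ∧ ∀ w ∈ W0, A w ∈ W0} with hS
  have h4 : (q ^ (((k : ℝ)) * ((n : ℝ) - k))) * (S : ℝ) ≤ (nT F V g k : ℝ) := by
    have h5 : Nat.card F ^ (k * (n - k)) * S ≤ nT F V g k :=
      le_trans (Nat.mul_le_mul_right _ h1) h3
    have h6 : ((Nat.card F ^ (k * (n - k)) * S : ℕ) : ℝ) ≤ (nT F V g k : ℝ) := by
      exact_mod_cast h5
    have h7 : ((Nat.card F ^ (k * (n - k)) * S : ℕ) : ℝ) = (q ^ (((k : ℝ)) * ((n : ℝ) - k))) * S := by
      push_cast
      rw [← Real.rpow_natCast]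
      push_cast [Nat.cast_sub hk]
      rfl
    rw [h7] at h6
    exact h6
  have h8 : (0 : ℝ) < q ^ (((k : ℝ)) * ((n : ℝ) - k)) := Real.rpow_pos_of_pos hq _
  have h9 := le_trans h4 h2
  rw [Real.rpow_sub hq ((n : ℝ) ^ 2 - QQ n k / g.natDegree), ← mul_div_assoc, le_div_iff₀ h8]
  linarith

end RSF
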