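import Pool.Agent.RSF.Stmts

/-!
# Module IA: endomorphisms killed by an irreducible polynomial of degree `d`
-/

set_option autoImplicit false

namespace RSF

open Polynomial

namespace IA

variable {F V : Type} [Field F] [AddCommGroup V] [Module F V]

/-- the map `c ↦ c(A) e` -/
noncomputable def phi (A : Module.End F V) (e : V) : F[X] →ₗ[F] V :=
  (LinearMap.applyₗ e).comp (aeval (R := F) A).toLinearMap

theorem phi_apply (A : Module.End F V) (e : V) (c : F[X]) : phi A e c = aeval A c e := rfl

theorem apply_phi (A : Module.End F V) (e : V) (c : F[X]) : A (phi A e c) = phi A e (X * c) := by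
  rw [phi_apply, phi_apply, map_mul, aeval_X]
  rfl

theorem phi_mod {f : F[X]} (A : Module.End F V) (hA : aeval A f = 0) (e : V)
    (c : F[X]) : phi A e (c %ₘ f) = phi A e c := by
  rw [phi_apply, phi_apply]
  conv_rhs => rw [← modByMonic_add_div c f]
  rw [map_add, map_mul, hA, zero_mul, add_zero]

theorem aeval_mem {A : Module.End F V} {U : Submodule F V} (hU : ∀ u ∈ U, A u ∈ U) (c : F[X])
    {u : V} (hu : u ∈ U) : aeval A c u ∈ U := by
  have hp : ∀ k : ℕ, (A ^ k) u ∈ U := by
    intro k
    induction k with
    | zero => simpa using hu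
    | succ k ih =>
      rw [pow_succ', Module.End.mul_apply]
      exact hU _ ih
  rw [aeval_eq_sum_range, LinearMap.sum_apply]
  exact Submodule.sum_mem _ fun i _ => U.smul_mem _ (hp i)

/-- modulo an invariant subspace the vectors `e, A e, …, A ^ (d - 1) e` are independent -/
theorem eq_zero_of_mem {f : F[X]} (hm : f.Monic) (hf : Irreducible f) {A : Module.End F V}
    (hA : aeval A f = 0) {U : Submodule F V} (hU : ∀ u ∈ U, A u ∈ U) {e : V} (he : e ∉ U)
    {c : F[X]} (hc : c.degree < f.degree) (h : phi A e c ∈ U) : c = 0 := by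
  by_contra hne
  have hcop : IsCoprime f c := by
    rw [hf.coprime_iff_not_dvd]
    exact fun hd => hm.not_dvd_of_degree_lt hne hc hd
  obtain ⟨x, y, hxy⟩ := hcop
  apply he
  have h1 : aeval A (x * f + y * c) e = e := by
    rw [hxy, map_one]
    rfl
  rw [map_add, map_mul, map_mul, hA, mul_zero, zero_add, Module.End.mul_apply] at h1
  rw [← h1]
  exact aeval_mem hU y h

theorem inf_bot {f : F[X]} (hm : f.Monic) (hf : Irreducible f) {A : Module.End F V}
    (hA : aeval A f = 0) {U : Submodule F V} (hU : ∀ u ∈ U, A u ∈ U) {e : V} (he : e ∉ U) :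
    U ⊓ LinearMap.range (phi A e) = ⊥ := by
  rw [eq_bot_iff]
  rintro v ⟨hv1, c, rfl⟩
  rw [Submodule.mem_bot]
  change phi A e c ∈ U at hv1
  rw [← phi_mod A hA] at hv1 ⊢
  rw [eq_zero_of_mem hm hf hA hU he (degree_modByMonic_lt c hm) hv1, map_zero]

theorem finrank_range [FiniteDimensional F V] {f : F[X]} (hm : f.Monic) (hf : Irreducible f)
    {A : Module.End F V} (hA : aeval A f = 0) {U : Submodule F V} (hU : ∀ u ∈ U, A u ∈ U) {e : V}
    (he : e ∉ U) : f.natDegree ≤ Module.finrank F (LinearMap.range (phi A e)) := by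
  have h1 : Function.Injective ((phi A e).domRestrict (degreeLT F f.natDegree)) := by
    rw [← LinearMap.ker_eq_bot, eq_bot_iff]
    rintro ⟨c, hc⟩ h
    rw [LinearMap.mem_ker] at h
    change phi A e c = 0 at h
    rw [mem_degreeLT] at hc
    rw [Submodule.mem_bot]
    apply Subtype.ext
    refine eq_zero_of_mem hm hf hA hU he (c := c) ?_ ?_
    · rwa [degree_eq_natDegree hm.ne_zero]
    · rw [h]
      exact U.zero_mem
  have h2 := LinearMap.finrank_range_of_inj h1
  rw [(degreeLTEquiv F f.natDegree).finrank_eq, Module.finrank_fin_fun] at h2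
  rw [← h2]
  apply Submodule.finrank_mono
  rintro v ⟨c, rfl⟩
  exact ⟨c.1, rfl⟩

theorem finrank_sup [FiniteDimensional F V] {f : F[X]} (hm : f.Monic) (hf : Irreducible f)
    {A : Module.End F V} (hA : aeval A f = 0) {U : Submodule F V} (hU : ∀ u ∈ U, A u ∈ U) {e : V}
    (he : e ∉ U) : Module.finrank F U + f.natDegree ≤
      Module.finrank F (U ⊔ LinearMap.range (phi A e) : Submodule F V) := by
  have h1 := Submodule.finrank_sup_add_finrank_inf_eq U (LinearMap.range (phi A e))
  rw [inf_bot hm hf hA hU he, finrank_bot, add_zero] at h1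
  have h2 := finrank_range hm hf hA hU he
  omega

theorem phi_congr {f : F[X]} (hm : f.Monic) {A A' : Module.End F V}
    (hA : aeval A f = 0) (hA' : aeval A' f = 0) {e : V}
    (h : ∀ i < f.natDegree, (A ^ i) e = (A' ^ i) e) (c : F[X]) : phi A e c = phi A' e c := by
  rw [← phi_mod A hA, ← phi_mod A' hA']
  have hdeg : ∀ i ∈ (c %ₘ f).support, i < f.natDegree := by
    intro i hi
    have h1 : (i : WithBot ℕ) ≤ (c %ₘ f).degree := le_degree_of_mem_supp i hi
    have h2 := lt_of_le_of_lt h1 (degree_modByMonic_lt c hm)
    rw [degree_eq_natDegree hm.ne_zero] at h2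
    exact_mod_cast h2
  rw [phi_apply, phi_apply, aeval_eq_sum_range, aeval_eq_sum_range, LinearMap.sum_apply,
    LinearMap.sum_apply]
  refine Finset.sum_congr rfl fun i _ => ?_
  by_cases hi : (c %ₘ f).coeff i = 0
  · rw [hi, zero_smul, zero_smul]
  · rw [LinearMap.smul_apply, LinearMap.smul_apply, h i (hdeg i (mem_support_iff.2 hi))]

open Classical in
/-- the count with a prescribed restriction -/
theorem count [Finite F] [FiniteDimensional F V] [Fintype (Module.End F V)] {f : F[X]}
    (hm : f.Monic) (hf : Irreducible f) (k : ℕ) :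
    ∀ (U : Submodule F V) (A0 : Module.End F V), aeval A0 f = 0 → (∀ u ∈ U, A0 u ∈ U) →
      Module.finrank F V ≤ Module.finrank F U + k →
      (((Finset.univ.filter fun A : Module.End F V =>
        aeval A f = 0 ∧ ∀ u ∈ U, A u = A0 u).card : ℕ) : ℝ) ≤
        (Nat.card F : ℝ) ^ (((Module.finrank F V : ℝ) - Module.finrank F U) *
          ((Module.finrank F V : ℝ) * (1 - 1 / (f.natDegree : ℝ)))) := by
  have hd : 0 < f.natDegree := hf.natDegree_pos
  have hd' : (1 : ℝ) ≤ f.natDegree := by exact_mod_cast hd
  have hq : (1 : ℝ) < Nat.card F := by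
    exact_mod_cast Finite.one_lt_card
  have : Finite V := Module.finite_of_finite F
  have instT : Fintype (Fin (f.natDegree - 1) → V) := Fintype.ofFinite _
  induction k with
  | zero =>
    intro U A0 hA0 hU hk
    have hUle : Module.finrank F U ≤ Module.finrank F V := Submodule.finrank_le U
    have heq : Module.finrank F U = Module.finrank F V := by omega
    have hUt : U = ⊤ := Submodule.eq_top_of_finrank_eq heq
    rw [heq, sub_self, zero_mul, Real.rpow_zero]
    have hc : (Finset.univ.filter fun A : Module.End F V =>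
        aeval A f = 0 ∧ ∀ u ∈ U, A u = A0 u).card ≤ 1 := by
      rw [Finset.card_le_one]
      intro A hA B hB
      simp only [Finset.mem_filter, Finset.mem_univ, true_and] at hA hB
      ext v
      have hv : v ∈ U := by
        rw [hUt]
        exact Submodule.mem_top
      rw [hA.2 v hv, hB.2 v hv]
    exact_mod_cast hc
  | succ k ih =>
    intro U A0 hA0 hU hk
    by_cases hUt : U = ⊤
    · refine ih U A0 hA0 hU ?_
      rw [hUt, finrank_top]
      omega
    obtain ⟨e, he⟩ : ∃ e, e ∉ U := by
      by_contra hcon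
      push Not at hcon
      exact hUt (eq_top_iff.2 fun v _ => hcon v)
    set S := Finset.univ.filter fun A : Module.End F V => aeval A f = 0 ∧ ∀ u ∈ U, A u = A0 u
      with hS
    let T : Module.End F V → (Fin (f.natDegree - 1) → V) := fun A i => (A ^ (i.val + 1)) e
    have h1 : S.card = ∑ t ∈ (Finset.univ : Finset (Fin (f.natDegree - 1) → V)),
        (S.filter fun A => T A = t).card :=
      Finset.card_eq_sum_card_fiberwise fun A _ => Finset.mem_coe.2 (Finset.mem_univ _)
    set q : ℝ := (Nat.card F : ℝ) with hqdef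
    set n : ℝ := (Module.finrank F V : ℝ) with hn
    set d : ℝ := (f.natDegree : ℝ) with hddef
    set u : ℝ := (Module.finrank F U : ℝ) with hu
    have hn0 : 0 ≤ n := by rw [hn]; positivity
    have hrho : 0 ≤ 1 - 1 / d := by
      have : 1 / d ≤ 1 := by
        rw [div_le_one (by linarith)]
        exact hd'
      linarith
    have hfib : ∀ t ∈ (Finset.univ : Finset (Fin (f.natDegree - 1) → V)),
        (((S.filter fun A => T A = t).card : ℕ) : ℝ) ≤ q ^ ((n - (u + d)) * (n * (1 - 1 / d))) := by
      intro t _
      rcases (S.filter fun A => T A = t).eq_empty_or_nonempty with hemp | ⟨A1, hA1⟩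
      · rw [hemp, Finset.card_empty, Nat.cast_zero]
        positivity
      rw [Finset.mem_filter, hS, Finset.mem_filter] at hA1
      obtain ⟨⟨-, hA1f, hA1U⟩, hA1t⟩ := hA1
      have hU1 : ∀ v ∈ U, A1 v ∈ U := by
        intro v hv
        rw [hA1U v hv]
        exact hU v hv
      have hinv : ∀ v ∈ (U ⊔ LinearMap.range (phi A1 e) : Submodule F V),
          A1 v ∈ (U ⊔ LinearMap.range (phi A1 e) : Submodule F V) := by
        intro v hv
        rw [Submodule.mem_sup] at hv
        obtain ⟨y, hy, z, ⟨c, hc⟩, rfl⟩ := hv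
        rw [map_add, ← hc, apply_phi]
        exact Submodule.add_mem_sup (hU1 y hy) ⟨X * c, rfl⟩
      have hdim := finrank_sup hm hf hA1f hU1 he
      have h2 := ih (U ⊔ LinearMap.range (phi A1 e)) A1 hA1f hinv (by omega)
      have hsub : (S.filter fun A => T A = t) ⊆ Finset.univ.filter fun A : Module.End F V =>
          aeval A f = 0 ∧ ∀ v ∈ (U ⊔ LinearMap.range (phi A1 e) : Submodule F V), A v = A1 v := by
        intro A hA
        rw [Finset.mem_filter, hS, Finset.mem_filter] at hA
        obtain ⟨⟨-, hAf, hAU⟩, hAt⟩ := hA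
        rw [Finset.mem_filter]
        refine ⟨Finset.mem_univ _, hAf, ?_⟩
        have hpow : ∀ i < f.natDegree, (A ^ i) e = (A1 ^ i) e := by
          intro i hi
          rcases i with _ | j
          · rfl
          · have h3 := congrFun (hAt.trans hA1t.symm) ⟨j, by omega⟩
            exact h3
        intro v hv
        rw [Submodule.mem_sup] at hv
        obtain ⟨y, hy, z, ⟨c, hc⟩, rfl⟩ := hv
        rw [map_add, map_add, hAU y hy, hA1U y hy, ← hc]
        congr 1
        rw [apply_phi A1, ← phi_congr hm hAf hA1f hpow c, apply_phi A,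
          phi_congr hm hAf hA1f hpow]
      have h3 : (((S.filter fun A => T A = t).card : ℕ) : ℝ) ≤
          q ^ ((n - (Module.finrank F (U ⊔ LinearMap.range (phi A1 e) : Submodule F V) : ℝ)) *
            (n * (1 - 1 / d))) :=
        le_trans (by exact_mod_cast Finset.card_le_card hsub) h2
      refine h3.trans (Real.rpow_le_rpow_of_exponent_le hq.le ?_)
      apply mul_le_mul_of_nonneg_right _ (mul_nonneg hn0 hrho)
      have h4 : u + d ≤ (Module.finrank F (U ⊔ LinearMap.range (phi A1 e) : Submodule F V) : ℝ) := by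
        rw [hu, hddef]
        exact_mod_cast hdim
      linarith
    have h5 : (S.card : ℝ) ≤
        (Fintype.card (Fin (f.natDegree - 1) → V) : ℝ) * q ^ ((n - (u + d)) * (n * (1 - 1 / d))) := by
      rw [h1, Nat.cast_sum]
      refine (Finset.sum_le_sum hfib).trans ?_
      rw [Finset.sum_const, nsmul_eq_mul, Finset.card_univ]
    refine h5.trans ?_
    have hVcard : (Fintype.card (Fin (f.natDegree - 1) → V) : ℝ) = q ^ (n * (d - 1)) := by
      rw [← Nat.card_eq_fintype_card, Nat.card_fun, Nat.card_eq_fintype_card (α := Fin _),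
        Fintype.card_fin, Module.natCard_eq_pow_finrank (K := F) (V := V), ← pow_mul, Nat.cast_pow,
        ← Real.rpow_natCast]
      congr 1
      rw [Nat.cast_mul, Nat.cast_sub hd, Nat.cast_one]
    rw [hVcard, ← Real.rpow_add (by linarith)]
    apply Real.rpow_le_rpow_of_exponent_le hq.le
    apply le_of_eq
    have hd0 : d ≠ 0 := by linarith
    field_simp
    ring

end IA

/-- Module IA. -/
theorem t_IA : S_IA := by
  intro F V _ _ _ _ _ f hm hf
  classical
  have : Finite (Module.End F V) := Module.finite_of_finite F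
  have : Fintype (Module.End F V) := Fintype.ofFinite _
  rcases (Finset.univ.filter fun A : Module.End F V => aeval A f = 0).eq_empty_or_nonempty with
    hemp | ⟨A0, hA0⟩
  · rw [Nat.card_eq_fintype_card, Fintype.card_subtype, hemp, Finset.card_empty, Nat.cast_zero]
    positivity
  · rw [Finset.mem_filter] at hA0
    have h := IA.count hm hf (Module.finrank F V) (⊥ : Submodule F V) A0 hA0.2
      (by
        intro u hu
        rw [Submodule.mem_bot] at hu
        rw [hu, map_zero]
        exact Submodule.zero_mem _) (by omega)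
    rw [finrank_bot, Nat.cast_zero, sub_zero, ← mul_assoc, ← sq] at h
    refine le_trans ?_ h
    rw [Nat.card_eq_fintype_card, Fintype.card_subtype]
    apply le_of_eq
    congr 2
    ext A
    simp only [Finset.mem_filter, Finset.mem_univ, true_and]
    constructor
    · intro hA
      refine ⟨hA, fun u hu => ?_⟩
      rw [Submodule.mem_bot] at hu
      rw [hu, map_zero, map_zero]
    · exact fun hA => hA.1

end RSF
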