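import Pool.Agent.RSF.Stmts

/-!
# Module JA: a permutation matrix with small commutant
-/

set_option autoImplicit false

namespace RSF

namespace JA

open Equiv Matrix

/-- index type: `a` cycles of length `m + 1` and `r` fixed points -/
abbrev I (a m r : ℕ) : Type := (Fin a × Fin (m + 1)) ⊕ Fin r

/-- the permutation -/
def tau (a m r : ℕ) : Perm (I a m r) :=
  Equiv.sumCongr (Equiv.prodCongrRight fun _ : Fin a => Equiv.addRight (1 : Fin (m + 1)))
    (Equiv.refl (Fin r))

theorem tau_inl (a m r : ℕ) (s : Fin a) (u : Fin (m + 1)) :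
    tau a m r (Sum.inl (s, u)) = Sum.inl (s, u + 1) := rfl

theorem tau_inr (a m r : ℕ) (j : Fin r) : tau a m r (Sum.inr j) = Sum.inr j := rfl

theorem tau_pow_inl (a m r : ℕ) (k : ℕ) (s : Fin a) (u : Fin (m + 1)) :
    (tau a m r ^ k) (Sum.inl (s, u)) = Sum.inl (s, u + k • (1 : Fin (m + 1))) := by
  induction k with
  | zero => simp
  | succ k ih => rw [pow_succ', Equiv.Perm.mul_apply, ih, tau_inl, succ_nsmul, add_assoc]

theorem nsmul_val (m k : ℕ) (h : k < m + 1) : (k • (1 : Fin (m + 1))) = ⟨k, h⟩ := by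
  induction k with
  | zero => simp
  | succ k ih =>
    have h1 : k < m + 1 := by omega
    rw [succ_nsmul, ih h1]
    apply Fin.ext
    have hm : 1 < m + 1 := by omega
    rw [Fin.val_add]
    have h2 : ((1 : Fin (m + 1)) : ℕ) = 1 := by
      rw [Fin.val_one']
      exact Nat.mod_eq_of_lt hm
    rw [h2]
    exact Nat.mod_eq_of_lt h

theorem nsmul_zero' (m : ℕ) : ((m + 1) • (1 : Fin (m + 1))) = 0 := by
  rw [succ_nsmul, nsmul_val m m (by omega)]
  apply Fin.ext
  rw [Fin.val_add]
  rcases m with _ | m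
  · simp
  · simp

theorem tau_pow_inr (a m r : ℕ) (k : ℕ) (j : Fin r) :
    (tau a m r ^ k) (Sum.inr j) = Sum.inr j := by
  induction k with
  | zero => simp
  | succ k ih => rw [pow_succ', Equiv.Perm.mul_apply, ih, tau_inr]

theorem tau_pow_eq (a m r : ℕ) : tau a m r ^ (m + 1) = 1 := by
  ext x
  rcases x with ⟨s, u⟩ | j
  · rw [tau_pow_inl, nsmul_zero']
    simp
  · rw [tau_pow_inr]
    simp

theorem sign_tau (b m r : ℕ) : Equiv.Perm.sign (tau (2 * b) m r) = 1 := by
  unfold tau
  have h := Equiv.Perm.sign_sumCongr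
    (Equiv.prodCongrRight fun _ : Fin (2 * b) => Equiv.addRight (1 : Fin (m + 1)))
    (Equiv.refl (Fin r))
  rw [Equiv.Perm.sumCongr] at h
  rw [h, Equiv.Perm.sign_prodCongrRight]
  rw [Finset.prod_const, Finset.card_univ, Fintype.card_fin, pow_mul, Int.units_sq, one_pow,
    one_mul]
  exact Equiv.Perm.sign_refl

section

variable {n a m r : ℕ} (e : Fin n ≃ I a m r)

/-- transported permutation -/
def sg : Perm (Fin n) := (e.trans (tau a m r)).trans e.symm

theorem sg_apply (i : Fin n) : sg e i = e.symm (tau a m r (e i)) := rfl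

theorem sg_pow (k : ℕ) (i : Fin n) : (sg e ^ k) i = e.symm ((tau a m r ^ k) (e i)) := by
  induction k with
  | zero => simp
  | succ k ih =>
    rw [pow_succ', Equiv.Perm.mul_apply, ih, sg_apply, pow_succ', Equiv.Perm.mul_apply,
      Equiv.apply_symm_apply]

theorem sg_pow_eq : sg e ^ (m + 1) = 1 := by
  ext i
  rw [sg_pow, tau_pow_eq]
  simp

theorem sign_sg : Equiv.Perm.sign (sg e) = Equiv.Perm.sign (tau a m r) := by
  have h := Equiv.Perm.sign_permCongr e.symm (tau a m r)
  rw [← h]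
  congr 1

theorem permMatrix_pow (F : Type) [Field F] (σ : Perm (Fin n)) (k : ℕ) :
    σ.permMatrix F ^ k = (σ ^ k).permMatrix F := by
  induction k with
  | zero => rw [pow_zero, pow_zero, Matrix.permMatrix_one]
  | succ k ih => rw [pow_succ', ih, pow_succ, Matrix.permMatrix_mul]

theorem comm_iff (F : Type) [Field F] (σ : Perm (Fin n)) (B : Matrix (Fin n) (Fin n) F)
    (h : B * σ.permMatrix F = σ.permMatrix F * B) (i j : Fin n) : B (σ i) (σ j) = B i j := by
  rw [PEquiv.mul_toMatrix_toPEquiv, PEquiv.toMatrix_toPEquiv_mul] at h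
  have h2 := congrFun (congrFun h i) (σ j)
  simp only [Matrix.submatrix_apply, id_eq, Equiv.symm_apply_apply] at h2
  exact h2.symm

theorem comm_pow (F : Type) [Field F] (B : Matrix (Fin n) (Fin n) F)
    (h : B * (sg e).permMatrix F = (sg e).permMatrix F * B) (k : ℕ) (i j : I a m r) :
    B (e.symm ((tau a m r ^ k) i)) (e.symm ((tau a m r ^ k) j)) = B (e.symm i) (e.symm j) := by
  induction k with
  | zero => simp
  | succ k ih =>
    have h1 := comm_iff F (sg e) B h (e.symm ((tau a m r ^ k) i)) (e.symm ((tau a m r ^ k) j))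
    rw [sg_apply, sg_apply, Equiv.apply_symm_apply, Equiv.apply_symm_apply] at h1
    rw [pow_succ', Equiv.Perm.mul_apply, Equiv.Perm.mul_apply, h1, ih]

/-- representatives of the cycles -/
def rep (a m r : ℕ) : Fin a ⊕ Fin r → I a m r
  | Sum.inl s => Sum.inl (s, 0)
  | Sum.inr j => Sum.inr j

/-- the coordinates of a commuting matrix -/
def phi (F : Type) [Field F] (B : Matrix (Fin n) (Fin n) F) :
    (I a m r → Fin a → F) × (Fin a ⊕ Fin r → Fin r → F) :=
  (fun i s => B (e.symm i) (e.symm (Sum.inl (s, 0))),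
    fun i j => B (e.symm (rep a m r i)) (e.symm (Sum.inr j)))

theorem phi_inj (F : Type) [Field F] (B C : Matrix (Fin n) (Fin n) F)
    (hB : B * (sg e).permMatrix F = (sg e).permMatrix F * B)
    (hC : C * (sg e).permMatrix F = (sg e).permMatrix F * C)
    (h : phi e F B = phi e F C) : B = C := by
  have h1 := congrArg Prod.fst h
  have h2 := congrArg Prod.snd h
  have key : ∀ i j : I a m r, B (e.symm i) (e.symm j) = C (e.symm i) (e.symm j) := by
    intro i j
    rcases j with ⟨s, u⟩ | j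
    · have h3 : (tau a m r ^ (u : ℕ)) (Sum.inl (s, 0)) = Sum.inl (s, u) := by
        rw [tau_pow_inl, nsmul_val m u u.2]
        simp
      have h4 : (tau a m r ^ (u : ℕ)) ((tau a m r ^ (u : ℕ)).symm i) = i :=
        Equiv.apply_symm_apply _ _
      have h5 := comm_pow e F B hB (u : ℕ) ((tau a m r ^ (u : ℕ)).symm i) (Sum.inl (s, 0))
      have h6 := comm_pow e F C hC (u : ℕ) ((tau a m r ^ (u : ℕ)).symm i) (Sum.inl (s, 0))
      rw [h3, h4] at h5 h6
      rw [h5, h6]
      exact congrFun (congrFun h1 ((tau a m r ^ (u : ℕ)).symm i)) s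
    · rcases i with ⟨s, u⟩ | i
      · have h3 : (tau a m r ^ (u : ℕ)) (Sum.inl (s, 0)) = Sum.inl (s, u) := by
          rw [tau_pow_inl, nsmul_val m u u.2]
          simp
        have h5 := comm_pow e F B hB (u : ℕ) (Sum.inl (s, 0)) (Sum.inr j)
        have h6 := comm_pow e F C hC (u : ℕ) (Sum.inl (s, 0)) (Sum.inr j)
        rw [h3, tau_pow_inr] at h5 h6
        rw [h5, h6]
        exact congrFun (congrFun h2 (Sum.inl s)) j
      · exact congrFun (congrFun h2 (Sum.inr i)) j
  ext i j
  have h7 := key (e i) (e j)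
  rwa [Equiv.symm_apply_apply, Equiv.symm_apply_apply] at h7

theorem card_bound (F : Type) [Field F] [Finite F] :
    Nat.card {B : Matrix (Fin n) (Fin n) F //
      B * (sg e).permMatrix F = (sg e).permMatrix F * B} ≤
      Nat.card F ^ ((a * (m + 1) + r) * a + (a + r) * r) := by
  classical
  have := Fintype.ofFinite F
  have h1 : Nat.card {B : Matrix (Fin n) (Fin n) F //
      B * (sg e).permMatrix F = (sg e).permMatrix F * B} ≤
      Nat.card ((I a m r → Fin a → F) × (Fin a ⊕ Fin r → Fin r → F)) := by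
    refine Nat.card_le_card_of_injective (fun B => phi e F B.1) ?_
    intro B C h
    exact Subtype.ext (phi_inj e F B.1 C.1 B.2 C.2 h)
  refine h1.trans (le_of_eq ?_)
  rw [Nat.card_eq_fintype_card, Nat.card_eq_fintype_card]
  simp only [Fintype.card_prod, Fintype.card_fun, Fintype.card_sum, Fintype.card_fin]
  rw [← pow_mul, ← pow_mul, ← pow_add]
  congr 1
  ring

end

end JA

theorem t_JA : S_JA := by
  intro F _ _ n m hm
  obtain ⟨m, rfl⟩ : ∃ p, m = p + 1 := ⟨m - 1, by omega⟩
  set b : ℕ := n / (2 * (m + 1)) with hb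
  set r : ℕ := n % (2 * (m + 1)) with hr
  have hn : n = (2 * b) * (m + 1) + r := by
    have := Nat.div_add_mod n (2 * (m + 1))
    rw [← hb, ← hr] at this
    rw [← this]
    ring
  have hrlt : r < 2 * (m + 1) := Nat.mod_lt _ (by positivity)
  have hcard : Fintype.card (Fin n) = Fintype.card (JA.I (2 * b) m r) := by
    simp only [Fintype.card_fin, Fintype.card_sum, Fintype.card_prod]
    exact hn
  let e : Fin n ≃ JA.I (2 * b) m r := Fintype.equivOfCardEq hcard
  refine ⟨⟨(JA.sg e).permMatrix F, ?_⟩, ?_, ?_⟩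
  · rw [Matrix.det_permutation, JA.sign_sg, JA.sign_tau]
    simp
  · apply Subtype.ext
    rw [Matrix.SpecialLinearGroup.coe_pow]
    change (JA.sg e).permMatrix F ^ (m + 1) = _
    rw [JA.permMatrix_pow, JA.sg_pow_eq, Matrix.permMatrix_one]
    rfl
  · have h1 := JA.card_bound e F
    have hq : (1 : ℝ) ≤ (Nat.card F : ℝ) := by
      have : 0 < Nat.card F := Nat.card_pos
      exact_mod_cast this
    have h2 : (Nat.card {B : Matrix (Fin n) (Fin n) F //
        B * (JA.sg e).permMatrix F = (JA.sg e).permMatrix F * B} : ℝ) ≤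
        (Nat.card F : ℝ) ^ (((2 * b) * (m + 1) + r) * (2 * b) + (2 * b + r) * r) := by
      exact_mod_cast h1
    refine h2.trans ?_
    rw [← Real.rpow_natCast]
    refine Real.rpow_le_rpow_of_exponent_le hq ?_
    have hM : (0 : ℝ) < ((m + 1 : ℕ) : ℝ) := by positivity
    have hr2 : (r : ℝ) ≤ 2 * ((m + 1 : ℕ) : ℝ) := by
      have : r ≤ 2 * (m + 1) := hrlt.le
      exact_mod_cast this
    have hr0 : (0 : ℝ) ≤ (r : ℝ) := Nat.cast_nonneg _
    have hnr : (n : ℝ) = (2 * b) * ((m + 1 : ℕ) : ℝ) + r := by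
      have := congrArg (fun z : ℕ => (z : ℝ)) hn
      simp only [Nat.cast_add, Nat.cast_mul, Nat.cast_ofNat] at this
      push_cast at this ⊢
      linarith
    have h3 : (n : ℝ) ^ 2 / ((m + 1 : ℕ) : ℝ) =
        (2 * b) * ((2 * b) * ((m + 1 : ℕ) : ℝ) + r) + (2 * b) * r +
          (r : ℝ) ^ 2 / ((m + 1 : ℕ) : ℝ) := by
      rw [hnr]
      field_simp
      ring
    rw [h3]
    have h4 : 0 ≤ (r : ℝ) ^ 2 / ((m + 1 : ℕ) : ℝ) := by positivity
    have h5 : (r : ℝ) ^ 2 ≤ 4 * ((m + 1 : ℕ) : ℝ) ^ 2 := by nlinarith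
    push_cast at h4 h5 ⊢
    nlinarith

end RSF
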