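import Pool.Agent.RSF.Stmts3

/-!
# Module K3 of RSF: commuting pairs and invariant subspaces
-/

namespace RSF

open Polynomial

noncomputable section

namespace K3

/-- pairs of commuting elements, the second one with a property -/
theorem comm_le {G : Type} [Group G] [Finite G] (P : G → Prop) :
    Nat.card {p : G × G // Commute p.1 p.2 ∧ P p.2} ≤
      Nat.card G * Nat.card {x : ConjClasses G // ∃ A, ConjClasses.mk A = x ∧ P A} := by
  classical
  have hrep : ∀ x : ConjClasses G, ∃ g : G, ConjClasses.mk g = x := fun x =>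
    ConjClasses.exists_rep x
  choose rep hrep using hrep
  have ht : ∀ c : G, ∃ t : G, t * rep (ConjClasses.mk c) * t⁻¹ = c := by
    intro c
    have h : IsConj (rep (ConjClasses.mk c)) c := ConjClasses.mk_eq_mk_iff_isConj.mp (hrep _)
    exact isConj_iff.mp h
  choose t ht using ht
  rw [← Nat.card_prod]
  refine Nat.card_le_card_of_injective
    (fun p : {p : G × G // Commute p.1 p.2 ∧ P p.2} =>
      ((p.1.1 * t p.1.2, ⟨ConjClasses.mk p.1.2, p.1.2, rfl, p.2.2⟩) :
        G × {x : ConjClasses G // ∃ A, ConjClasses.mk A = x ∧ P A})) ?_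
  rintro ⟨⟨a, c⟩, hac, hc⟩ ⟨⟨a', c'⟩, hac', hc'⟩ h
  simp only [Prod.mk.injEq, Subtype.mk.injEq] at h
  obtain ⟨h1, h2⟩ := h
  have key : ∀ a c : G, Commute a c →
      (a * t c) * rep (ConjClasses.mk c) * (a * t c)⁻¹ = c := by
    intro a c hac
    calc (a * t c) * rep (ConjClasses.mk c) * (a * t c)⁻¹
        = a * (t c * rep (ConjClasses.mk c) * (t c)⁻¹) * a⁻¹ := by group
      _ = a * c * a⁻¹ := by rw [ht c]
      _ = c := by rw [hac.eq]; group
  have hcc : c = c' := by
    have e1 := key a c hac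
    have e2 := key a' c' hac'
    rw [h1, h2] at e1
    exact e1.symm.trans e2
  subst hcc
  have haa : a = a' := mul_right_cancel h1
  subst haa
  rfl

variable {F : Type} [Field F] [Finite F] {n : ℕ}

/-- the kernels of the irreducible polynomials in `A` have dimension at most `r` times the degree -/
def Bd (A : GL (Fin n) F) (r : ℕ) : Prop :=
  1 ≤ r ∧ ∀ p : F[X], p.Monic → Irreducible p →
    Module.finrank F (LinearMap.ker (aeval (Matrix.toLin' A.1) p)) ≤ r * p.natDegree

theorem bd_n (hn : 1 ≤ n) (A : GL (Fin n) F) : Bd A n := by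
  refine ⟨hn, fun p hp hi => ?_⟩
  have h1 : Module.finrank F (LinearMap.ker (aeval (Matrix.toLin' A.1) p)) ≤ n := by
    have := Submodule.finrank_le (LinearMap.ker (aeval (Matrix.toLin' A.1) p))
    rwa [Module.finrank_fin_fun] at this
  have h2 : 1 ≤ p.natDegree := hi.natDegree_pos
  nlinarith

open Classical in
/-- the least bound -/
def rr (hn : 1 ≤ n) (A : GL (Fin n) F) : ℕ := Nat.find ⟨n, bd_n hn A⟩

theorem rr_spec (hn : 1 ≤ n) (A : GL (Fin n) F) : Bd A (rr hn A) := by
  classical
  exact Nat.find_spec (⟨n, bd_n hn A⟩ : ∃ r, Bd A r)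

theorem rr_le (hn : 1 ≤ n) (A : GL (Fin n) F) : rr hn A ≤ n := by
  classical
  exact Nat.find_min' (⟨n, bd_n hn A⟩ : ∃ r, Bd A r) (bd_n hn A)

theorem rr_min (hn : 1 ≤ n) (A : GL (Fin n) F) {r : ℕ} (h : r < rr hn A) : ¬ Bd A r := by
  classical
  exact Nat.find_min (⟨n, bd_n hn A⟩ : ∃ r, Bd A r) h

theorem classes_all (hKB : S_KB) (hKC : S_KC) (F : Type) [Field F] [Finite F] (n : ℕ) :
    Nat.card (ConjClasses (GL (Fin n) F)) ≤ 4 * Nat.card F ^ n :=
  (hKB F n).trans (hKC F n)

theorem classes_r (hKB : S_KB) (hKC : S_KC) (hKE : S_KE) (hCR : S_CR) (hn : 1 ≤ n) (r : ℕ)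
    (hr : 1 ≤ r) :
    Nat.card {x : ConjClasses (GL (Fin n) F) // ∃ A, ConjClasses.mk A = x ∧ rr hn A = r} *
      Nat.card F ^ (r - 1) ≤ 8 * n * Nat.card F ^ n := by
  rcases Nat.lt_or_ge r 2 with h | h
  · have hr1 : r = 1 := by omega
    subst hr1
    have h1 : Nat.card {x : ConjClasses (GL (Fin n) F) // ∃ A, ConjClasses.mk A = x ∧
        rr hn A = 1} ≤ Nat.card (ConjClasses (GL (Fin n) F)) :=
      Nat.card_le_card_of_injective Subtype.val Subtype.val_injective
    have h2 := classes_all hKB hKC F n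
    have h3 : 4 * Nat.card F ^ n ≤ 8 * n * Nat.card F ^ n := by
      apply Nat.mul_le_mul_right
      omega
    simpa using (h1.trans h2).trans h3
  · refine le_trans ?_ (hCR F n r hr)
    apply Nat.mul_le_mul_right
    obtain ⟨Φ, -, -, -, hΦ⟩ := hKE F n
    refine Nat.card_le_card_of_injective
      (fun x : {x : ConjClasses (GL (Fin n) F) // ∃ A, ConjClasses.mk A = x ∧ rr hn A = r} =>
        (⟨x.1, ?_⟩ : {x : ConjClasses (GL (Fin n) F) // ∃ A, ConjClasses.mk A = x ∧
          ∃ p : F[X], p.Monic ∧ Irreducible p ∧ r * p.natDegree ≤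
            Module.finrank F (LinearMap.ker (aeval (Matrix.toLin' A.1) p))})) ?_
    · obtain ⟨x, A, hA, hrA⟩ := x
      refine ⟨A, hA, ?_⟩
      have hnb : ¬ Bd A (r - 1) := rr_min hn A (by omega)
      unfold Bd at hnb
      push Not at hnb
      obtain ⟨p, hp, hi, hlt⟩ := hnb (by omega)
      refine ⟨p, hp, hi, ?_⟩
      rw [hΦ A p hp hi] at hlt ⊢
      have hd : 0 < p.natDegree := hi.natDegree_pos
      have hs : r - 1 < sp (Φ A) p := by
        rw [mul_comm] at hlt
        exact lt_of_mul_lt_mul_left hlt (Nat.zero_le _)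
      rw [mul_comm r]
      exact Nat.mul_le_mul_left _ (by omega)
    · intro x y hxy
      have hxy' := congrArg (fun z => z.1) hxy
      exact Subtype.ext hxy'

/-- the number of triples as a sum -/
theorem KT_eq (F : Type) [Field F] [Finite F] (n k : ℕ)
    [Fintype {p : GL (Fin n) F × GL (Fin n) F // Commute p.1 p.2}] :
    KT F n k = ∑ p : {p : GL (Fin n) F × GL (Fin n) F // Commute p.1 p.2},
      Nat.card {W : Submodule F (Fin n → F) // Module.finrank F W = k ∧
        ∀ w ∈ W, Matrix.toLin' p.1.2.1 w ∈ W} := by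
  classical
  rw [← Nat.card_sigma]
  unfold KT
  refine Nat.card_congr
    { toFun := fun z => ⟨⟨(z.1.1, z.1.2.1), z.2.1⟩, ⟨z.1.2.2, z.2.2.1, fun w hw => by
        rw [Matrix.toLin'_apply]; exact z.2.2.2 w hw⟩⟩
      invFun := fun s => ⟨(s.1.1.1, s.1.1.2, s.2.1), s.1.2, s.2.2.1, fun w hw => by
        have := s.2.2.2 w hw
        rwa [Matrix.toLin'_apply] at this⟩
      left_inv := fun z => rfl
      right_inv := fun s => rfl }

end K3

theorem t_K3 : M_K3 := by
  intro hKB hKC hSUB hKE hCR hFK F _ _ n k hk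
  classical
  have : Fintype {p : GL (Fin n) F × GL (Fin n) F // Commute p.1 p.2} := Fintype.ofFinite _
  have hq : 1 ≤ Nat.card F := Nat.card_pos
  constructor
  · rw [K3.KT_eq]
    have h1 : ∀ p : {p : GL (Fin n) F × GL (Fin n) F // Commute p.1 p.2},
        Nat.card {W : Submodule F (Fin n → F) // Module.finrank F W = k ∧
          ∀ w ∈ W, Matrix.toLin' p.1.2.1 w ∈ W} ≤ 4 * Nat.card F ^ (k * (n - k)) := by
      intro p
      have h2 := (hSUB F (Fin n → F) k (by rw [Module.finrank_fin_fun]; exact hk)).2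
      rw [Module.finrank_fin_fun] at h2
      refine le_trans ?_ h2
      refine Nat.card_le_card_of_injective
        (fun W : {W : Submodule F (Fin n → F) // Module.finrank F W = k ∧
          ∀ w ∈ W, Matrix.toLin' p.1.2.1 w ∈ W} =>
          (⟨W.1, W.2.1⟩ : {W : Submodule F (Fin n → F) // Module.finrank F W = k})) ?_
      intro x y hxy
      have hxy' := congrArg (fun z => z.1) hxy
      exact Subtype.ext hxy'
    refine (Finset.sum_le_sum fun p _ => h1 p).trans ?_
    rw [Finset.sum_const, Finset.card_univ, smul_eq_mul, ← Nat.card_eq_fintype_card,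
      card_comm_eq_card_conjClasses_mul_card]
    have h3 := K3.classes_all hKB hKC F n
    calc Nat.card (ConjClasses (GL (Fin n) F)) * Nat.card (GL (Fin n) F) *
          (4 * Nat.card F ^ (k * (n - k)))
        ≤ (4 * Nat.card F ^ n) * Nat.card (GL (Fin n) F) * (4 * Nat.card F ^ (k * (n - k))) := by
          apply Nat.mul_le_mul_right
          exact Nat.mul_le_mul_right _ h3
      _ = Nat.card (GL (Fin n) F) * (16 * Nat.card F ^ (n + k * (n - k))) := by
          rw [pow_add]; ring
  · intro hk1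
    have hn : 1 ≤ n := hk1.trans hk
    rw [K3.KT_eq]
    have h1 : ∀ p : {p : GL (Fin n) F × GL (Fin n) F // Commute p.1 p.2},
        Nat.card {W : Submodule F (Fin n → F) // Module.finrank F W = k ∧
          ∀ w ∈ W, Matrix.toLin' p.1.2.1 w ∈ W} ≤
          (2 * n) ^ k * Nat.card F ^ (k * (K3.rr hn p.1.2 - 1)) := by
      intro p
      have hb := K3.rr_spec hn p.1.2
      have h2 := hFK F (Fin n → F) (Matrix.toLin' p.1.2.1) (K3.rr hn p.1.2) hb.1 hb.2 k
      rwa [Module.finrank_fin_fun] at h2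
    refine (Finset.sum_le_sum fun p _ => h1 p).trans ?_
    rw [← Finset.sum_fiberwise_of_maps_to (t := Finset.Icc 1 n)
      (g := fun p : {p : GL (Fin n) F × GL (Fin n) F // Commute p.1 p.2} => K3.rr hn p.1.2)
      (fun p _ => Finset.mem_Icc.mpr ⟨(K3.rr_spec hn p.1.2).1, K3.rr_le hn p.1.2⟩)]
    have h2 : ∀ r ∈ Finset.Icc 1 n,
        ∑ p ∈ (Finset.univ : Finset {p : GL (Fin n) F × GL (Fin n) F // Commute p.1 p.2}).filter
          (fun p => K3.rr hn p.1.2 = r),
          (2 * n) ^ k * Nat.card F ^ (k * (K3.rr hn p.1.2 - 1)) ≤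
        Nat.card (GL (Fin n) F) * (8 * n * (2 * n) ^ k * Nat.card F ^ (k * n)) := by
      intro r hr
      rw [Finset.mem_Icc] at hr
      have e1 : ∑ p ∈ (Finset.univ : Finset {p : GL (Fin n) F × GL (Fin n) F //
          Commute p.1 p.2}).filter (fun p => K3.rr hn p.1.2 = r),
          (2 * n) ^ k * Nat.card F ^ (k * (K3.rr hn p.1.2 - 1)) =
          ((Finset.univ : Finset {p : GL (Fin n) F × GL (Fin n) F //
          Commute p.1 p.2}).filter (fun p => K3.rr hn p.1.2 = r)).card *
            ((2 * n) ^ k * Nat.card F ^ (k * (r - 1))) := by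
        refine (Finset.sum_congr rfl (g := fun _ => (2 * n) ^ k * Nat.card F ^ (k * (r - 1)))
          fun p hp => ?_).trans ?_
        · rw [(Finset.mem_filter.mp hp).2]
        · rw [Finset.sum_const, smul_eq_mul]
      rw [e1]
      have e2 : ((Finset.univ : Finset {p : GL (Fin n) F × GL (Fin n) F //
          Commute p.1 p.2}).filter (fun p => K3.rr hn p.1.2 = r)).card ≤
          Nat.card (GL (Fin n) F) *
            Nat.card {x : ConjClasses (GL (Fin n) F) // ∃ A, ConjClasses.mk A = x ∧
              K3.rr hn A = r} := by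
        refine le_trans (le_of_eq ?_) (K3.comm_le (fun A : GL (Fin n) F => K3.rr hn A = r))
        rw [← Fintype.card_subtype, ← Nat.card_eq_fintype_card]
        refine Nat.card_congr
          { toFun := fun z => ⟨z.1.1, z.1.2, z.2⟩
            invFun := fun z => ⟨⟨z.1, z.2.1⟩, z.2.2⟩
            left_inv := fun z => rfl
            right_inv := fun z => rfl }
      have e3 := K3.classes_r hKB hKC hKE hCR (F := F) hn r hr.1
      set X := Nat.card {x : ConjClasses (GL (Fin n) F) // ∃ A, ConjClasses.mk A = x ∧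
              K3.rr hn A = r} with hX
      have e4 : Nat.card F ^ (k * (r - 1)) = Nat.card F ^ (r - 1) *
          Nat.card F ^ ((k - 1) * (r - 1)) := by
        rw [← pow_add]
        congr 1
        obtain ⟨k', rfl⟩ : ∃ k', k = k' + 1 := ⟨k - 1, by omega⟩
        simp only [Nat.add_sub_cancel]
        ring
      have e5 : Nat.card F ^ n * Nat.card F ^ ((k - 1) * (r - 1)) ≤ Nat.card F ^ (k * n) := by
        rw [← pow_add]
        apply Nat.pow_le_pow_right hq
        obtain ⟨k', rfl⟩ : ∃ k', k = k' + 1 := ⟨k - 1, by omega⟩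
        simp only [Nat.add_sub_cancel]
        have : k' * (r - 1) ≤ k' * n := Nat.mul_le_mul_left _ (by omega)
        nlinarith
      calc ((Finset.univ : Finset {p : GL (Fin n) F × GL (Fin n) F //
          Commute p.1 p.2}).filter (fun p => K3.rr hn p.1.2 = r)).card *
            ((2 * n) ^ k * Nat.card F ^ (k * (r - 1)))
          ≤ (Nat.card (GL (Fin n) F) * X) * ((2 * n) ^ k * Nat.card F ^ (k * (r - 1))) :=
            Nat.mul_le_mul_right _ e2
        _ = Nat.card (GL (Fin n) F) * (2 * n) ^ k * (X * Nat.card F ^ (r - 1)) *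
              Nat.card F ^ ((k - 1) * (r - 1)) := by rw [e4]; ring
        _ ≤ Nat.card (GL (Fin n) F) * (2 * n) ^ k * (8 * n * Nat.card F ^ n) *
              Nat.card F ^ ((k - 1) * (r - 1)) := by
            apply Nat.mul_le_mul_right
            exact Nat.mul_le_mul_left _ e3
        _ = Nat.card (GL (Fin n) F) * (8 * n * (2 * n) ^ k) *
              (Nat.card F ^ n * Nat.card F ^ ((k - 1) * (r - 1))) := by ring
        _ ≤ Nat.card (GL (Fin n) F) * (8 * n * (2 * n) ^ k) * Nat.card F ^ (k * n) :=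
            Nat.mul_le_mul_left _ e5
        _ = _ := by ring
    refine (Finset.sum_le_sum h2).trans ?_
    rw [Finset.sum_const, Nat.card_Icc, smul_eq_mul]
    simp only [Nat.add_sub_cancel]
    apply le_of_eq
    ring

end

end RSF
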