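import Pool.Agent.RSF.Stmts

/-!
# RSF, module KA: the elementary divisors of an invertible matrix

The module of the polynomial ring given by the matrix is a finite product of modules
`F[X] / (p ^ e)`, `p` monic irreducible, `1 ≤ e`. The multiset of the pairs `(p, e)` determines
the conjugacy class, and the sum of the `e * deg p` is the size of the matrix.
-/

set_option autoImplicit false

namespace RSF.KA

open Polynomial Module

noncomputable section

/-- the cyclic module of a pair -/
abbrev Q {F : Type} [Field F] (p : F[X] × ℕ) : Type :=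
  F[X] ⧸ (Submodule.span F[X] {p.1 ^ p.2} : Submodule F[X] F[X])

/-- two maps with the same multiset of values differ by a bijection of the index types -/
theorem exists_equiv {α ι κ : Type} [Fintype ι] [Fintype κ] (f : ι → α) (g : κ → α)
    (h : Finset.univ.val.map f = Finset.univ.val.map g) : ∃ e : ι ≃ κ, f = g ∘ e := by
  classical
  have hc : ∀ a : α, Fintype.card {i // f i = a} = Fintype.card {j // g j = a} := by
    intro a
    have h1 := congrArg (Multiset.count a) h
    rw [Multiset.count_map, Multiset.count_map] at h1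
    rw [Fintype.card_subtype, Fintype.card_subtype, Finset.card_def, Finset.card_def,
      Finset.filter_val, Finset.filter_val]
    have e1 : Multiset.filter (fun i => a = f i) (Finset.univ : Finset ι).val =
        Multiset.filter (fun i => f i = a) (Finset.univ : Finset ι).val :=
      Multiset.filter_congr fun x _ => eq_comm
    have e2 : Multiset.filter (fun i => a = g i) (Finset.univ : Finset κ).val =
        Multiset.filter (fun i => g i = a) (Finset.univ : Finset κ).val :=
      Multiset.filter_congr fun x _ => eq_comm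
    rw [e1, e2] at h1
    exact h1
  let E : ∀ a : α, {i // f i = a} ≃ {j // g j = a} := fun a => Fintype.equivOfCardEq (hc a)
  refine ⟨(Equiv.sigmaFiberEquiv f).symm.trans
    ((Equiv.sigmaCongrRight E).trans (Equiv.sigmaFiberEquiv g)), ?_⟩
  funext i
  have h2 := (E (f i) ⟨i, rfl⟩).2
  exact h2.symm

/-- the decomposition with the multiset -/
def Dec {F : Type} [Field F] (V : Type) [AddCommGroup V] [Module F[X] V]
    (s : Multiset (F[X] × ℕ)) : Prop :=
  ∃ (ι : Type) (_ : Fintype ι) (f : ι → F[X] × ℕ),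
    s = Finset.univ.val.map f ∧ Nonempty (V ≃ₗ[F[X]] ∀ i, Q (f i))

theorem Dec.equiv {F : Type} [Field F] {V W : Type} [AddCommGroup V] [Module F[X] V]
    [AddCommGroup W] [Module F[X] W] {s : Multiset (F[X] × ℕ)} (hV : Dec V s) (hW : Dec W s) :
    Nonempty (V ≃ₗ[F[X]] W) := by
  obtain ⟨ι, _, f, hf, ⟨a⟩⟩ := hV
  obtain ⟨κ, _, g, hg, ⟨b⟩⟩ := hW
  obtain ⟨e, he⟩ := exists_equiv f g (hf.symm.trans hg)
  subst he
  exact ⟨a.trans ((LinearEquiv.piCongrLeft F[X] (fun j => Q (g j)) e).trans b.symm)⟩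

theorem exists_dec {F : Type} [Field F] (V : Type) [AddCommGroup V] [Module F[X] V]
    [Module.Finite F[X] V] (hV : Module.IsTorsion F[X] V) :
    ∃ s : Multiset (F[X] × ℕ), (∀ p ∈ s, p.1.Monic ∧ Irreducible p.1 ∧ 1 ≤ p.2) ∧ Dec V s := by
  classical
  obtain ⟨ι, _, p, hp, e, ⟨E⟩⟩ := Module.equiv_directSum_of_isTorsion (R := F[X]) (M := V) hV
  let f : {i : ι // 1 ≤ e i} → F[X] × ℕ := fun i => (normalize (p i.1), e i.1)
  refine ⟨Finset.univ.val.map f, ?_, {i : ι // 1 ≤ e i}, inferInstance, f, rfl, ?_⟩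
  · intro x hx
    obtain ⟨i, _, rfl⟩ := Multiset.mem_map.1 hx
    refine ⟨Polynomial.monic_normalize (hp i.1).ne_zero, ?_, i.2⟩
    exact (associated_normalize (p i.1)).irreducible (hp i.1)
  · have E1 : V ≃ₗ[F[X]] ∀ i : ι, F[X] ⧸ Submodule.span F[X] {p i ^ e i} :=
      E.trans (DirectSum.linearEquivFunOnFintype F[X] ι _)
    let R : (∀ i : ι, F[X] ⧸ Submodule.span F[X] {p i ^ e i}) →ₗ[F[X]]
        ∀ i : {i : ι // 1 ≤ e i}, F[X] ⧸ Submodule.span F[X] {p i.1 ^ e i.1} :=
      LinearMap.pi fun i => LinearMap.proj i.1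
    have hR : Function.Bijective R := by
      constructor
      · intro x y hxy
        funext i
        by_cases hi : 1 ≤ e i
        · exact congrFun hxy ⟨i, hi⟩
        · have h0 : e i = 0 := by omega
          have hs : Subsingleton (F[X] ⧸ Submodule.span F[X] {p i ^ e i}) := by
            rw [Submodule.Quotient.subsingleton_iff, h0, pow_zero]
            exact Ideal.span_singleton_one
          exact Subsingleton.elim _ _
      · intro y
        refine ⟨fun i => if hi : 1 ≤ e i then y ⟨i, hi⟩ else 0, ?_⟩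
        funext i
        show (if hi : 1 ≤ e i.1 then y ⟨i.1, hi⟩ else 0) = y i
        rw [dif_pos i.2]
    have hsp : ∀ i : {i : ι // 1 ≤ e i}, (Submodule.span F[X] {p i.1 ^ e i.1} : Submodule F[X] F[X])
        = Submodule.span F[X] {(f i).1 ^ (f i).2} := by
      intro i
      have h1 : Associated (p i.1 ^ e i.1) ((f i).1 ^ (f i).2) :=
        (associated_normalize (p i.1)).pow_pow
      exact Ideal.span_singleton_eq_span_singleton.2 h1
    exact ⟨E1.trans ((LinearEquiv.ofBijective R hR).trans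
      (LinearEquiv.piCongrRight fun i => Submodule.quotEquivOfEq _ _ (hsp i)))⟩

theorem sum_eq {F : Type} [Field F] (V : Type) [AddCommGroup V] [Module F[X] V] [Module F V]
    [IsScalarTower F F[X] V] [Module.Finite F V] {s : Multiset (F[X] × ℕ)}
    (hs : ∀ p ∈ s, p.1.Monic ∧ Irreducible p.1 ∧ 1 ≤ p.2) (hV : Dec V s) :
    (s.map fun p => p.2 * p.1.natDegree).sum = Module.finrank F V := by
  obtain ⟨ι, _, f, rfl, ⟨E⟩⟩ := hV
  have E1 : V ≃ₗ[F] ∀ i, Q (f i) := E.restrictScalars F
  have hfin : Module.Finite F (∀ i, Q (f i)) := Module.Finite.equiv E1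
  have hfi : ∀ i, Module.Finite F (Q (f i)) := fun i =>
    Module.Finite.of_surjective (LinearMap.proj i : (∀ i, Q (f i)) →ₗ[F] Q (f i))
      (Function.surjective_eval i)
  rw [E1.finrank_eq, Module.finrank_pi_fintype, Multiset.map_map]
  show ∑ i, (f i).2 * (f i).1.natDegree = _
  refine Finset.sum_congr rfl fun i _ => ?_
  have h1 : Module.finrank F (Q (f i)) = ((f i).1 ^ (f i).2).natDegree :=
    finrank_quotient_span_eq_natDegree
  rw [h1, Polynomial.natDegree_pow]

theorem isConj_of_equiv {F : Type} [Field F] {n : ℕ} (A B : GL (Fin n) F)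
    (h : Nonempty (Module.AEval' (Matrix.toLin' A.1) ≃ₗ[F[X]] Module.AEval' (Matrix.toLin' B.1))) :
    IsConj A B := by
  obtain ⟨E⟩ := h
  let L : (Fin n → F) ≃ₗ[F] (Fin n → F) :=
    (Module.AEval'.of (Matrix.toLin' A.1)).trans
      ((E.restrictScalars F).trans (Module.AEval'.of (Matrix.toLin' B.1)).symm)
  have hL : ∀ m, L (Matrix.toLin' A.1 m) = Matrix.toLin' B.1 (L m) := by
    intro m
    show (Module.AEval'.of (Matrix.toLin' B.1)).symm
        (E (Module.AEval'.of (Matrix.toLin' A.1) (Matrix.toLin' A.1 m))) = _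
    rw [← Module.AEval'.X_smul_of, map_smul, Module.AEval'.of_symm_X_smul]
    rfl
  have hc : (L : (Fin n → F) →ₗ[F] (Fin n → F)) ∘ₗ Matrix.toLin' A.1 =
      Matrix.toLin' B.1 ∘ₗ (L : (Fin n → F) →ₗ[F] (Fin n → F)) := LinearMap.ext hL
  let P : GL (Fin n) F :=
    ⟨LinearMap.toMatrix' (L : (Fin n → F) →ₗ[F] (Fin n → F)),
      LinearMap.toMatrix' (L.symm : (Fin n → F) →ₗ[F] (Fin n → F)), by
        rw [← LinearMap.toMatrix'_comp, LinearEquiv.comp_coe, LinearEquiv.symm_trans_self]
        exact LinearMap.toMatrix'_id, by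
        rw [← LinearMap.toMatrix'_comp, LinearEquiv.comp_coe, LinearEquiv.self_trans_symm]
        exact LinearMap.toMatrix'_id⟩
  have hP : P * A = B * P := by
    apply Units.ext
    show LinearMap.toMatrix' (L : (Fin n → F) →ₗ[F] (Fin n → F)) * A.1 =
      B.1 * LinearMap.toMatrix' (L : (Fin n → F) →ₗ[F] (Fin n → F))
    have h2 := congrArg LinearMap.toMatrix' hc
    rw [LinearMap.toMatrix'_comp, LinearMap.toMatrix'_comp, LinearMap.toMatrix'_toLin',
      LinearMap.toMatrix'_toLin'] at h2
    exact h2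
  rw [isConj_iff]
  exact ⟨P, by rw [hP, mul_inv_cancel_right]⟩

theorem torsion {F : Type} [Field F] {n : ℕ} (φ : (Fin n → F) →ₗ[F] (Fin n → F)) :
    Module.IsTorsion F[X] (Module.AEval' φ) := by
  intro x
  have h0 : φ.charpoly ≠ 0 := φ.charpoly_monic.ne_zero
  refine ⟨⟨φ.charpoly, mem_nonZeroDivisors_of_ne_zero h0⟩, ?_⟩
  show φ.charpoly • x = 0
  have h1 : x = Module.AEval.of F (Fin n → F) φ ((Module.AEval.of F (Fin n → F) φ).symm x) := by
    rw [LinearEquiv.apply_symm_apply]
  rw [h1, ← Module.AEval.of_aeval_smul, LinearMap.aeval_self_charpoly]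
  simp

end

end RSF.KA

namespace RSF

open Polynomial

theorem t_KA : S_KA := by
  classical
  intro F _ _ n
  have key : ∀ A : GL (Fin n) F, ∃ s : Multiset (F[X] × ℕ),
      (∀ p ∈ s, p.1.Monic ∧ Irreducible p.1 ∧ 1 ≤ p.2) ∧
        KA.Dec (Module.AEval' (Matrix.toLin' A.1)) s := fun A =>
    KA.exists_dec _ (KA.torsion _)
  choose Φ h1 h2 using key
  refine ⟨Φ, h1, fun A => ?_, fun A B hAB => ?_⟩
  · have h3 := KA.sum_eq (F := F) (Module.AEval' (Matrix.toLin' A.1)) (h1 A) (h2 A)
    rw [h3]
    have h4 : Module.finrank F (Module.AEval' (Matrix.toLin' A.1)) =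
        Module.finrank F (Fin n → F) :=
      ((Module.AEval'.of (Matrix.toLin' A.1)).finrank_eq).symm
    rw [h4, Module.finrank_fin_fun]
  · apply KA.isConj_of_equiv
    have h3 := h2 A
    rw [hAB] at h3
    exact h3.equiv (h2 B)

end RSF
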