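import Pool.Agent.RSF.Stmts

/-!
# Module KB

The classes of `GL_n(q)` are at most the sequences `h` of monic polynomials with
`∑ (i + 1) deg h i = n`.
-/

namespace RSF

open Polynomial

noncomputable section

namespace KB

open Classical in
/-- the polynomials with exponent `e` -/
def part {F : Type} [Field F] (s : Multiset (F[X] × ℕ)) (e : ℕ) : Multiset F[X] :=
  (s.filter fun p => p.2 = e).map Prod.fst

/-- the product of the polynomials with exponent `e` -/
def hh {F : Type} [Field F] (s : Multiset (F[X] × ℕ)) (e : ℕ) : F[X] := (part s e).prod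

def Ok {F : Type} [Field F] (s : Multiset (F[X] × ℕ)) : Prop :=
  ∀ p ∈ s, p.1.Monic ∧ Irreducible p.1 ∧ 1 ≤ p.2

theorem mem_part {F : Type} [Field F] {s : Multiset (F[X] × ℕ)} {e : ℕ} {p : F[X]} :
    p ∈ part s e ↔ (p, e) ∈ s := by
  unfold part
  rw [Multiset.mem_map]
  constructor
  · rintro ⟨⟨a, b⟩, h, rfl⟩
    rw [Multiset.mem_filter] at h
    obtain ⟨h1, h2⟩ := h
    simp only at h2
    subst h2
    exact h1
  · intro h
    exact ⟨(p, e), Multiset.mem_filter.2 ⟨h, rfl⟩, rfl⟩

theorem hh_monic {F : Type} [Field F] {s : Multiset (F[X] × ℕ)} (hs : Ok s) (e : ℕ) :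
    (hh s e).Monic := by
  unfold hh
  have := monic_multiset_prod_of_monic (part s e) (fun p => p)
    (fun p hp => (hs _ (mem_part.1 hp)).1)
  simpa using this

theorem hh_deg {F : Type} [Field F] {s : Multiset (F[X] × ℕ)} (hs : Ok s) (e : ℕ) :
    (hh s e).natDegree = ((part s e).map natDegree).sum := by
  unfold hh
  exact natDegree_multiset_prod_of_monic _ (fun p hp => (hs _ (mem_part.1 hp)).1)

open Classical in
theorem part_eq {F : Type} [Field F] {s : Multiset (F[X] × ℕ)} (hs : Ok s) (e : ℕ) :
    UniqueFactorizationMonoid.normalizedFactors (hh s e) = part s e := by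
  unfold hh
  have h1 : ∀ p ∈ part s e, Irreducible p := fun p hp => (hs _ (mem_part.1 hp)).2.1
  rw [UniqueFactorizationMonoid.normalizedFactors_multiset_prod _ (fun h => (h1 0 h).ne_zero rfl)]
  rw [Multiset.map_congr rfl (g := fun p => ({p} : Multiset F[X])) ?_]
  · exact Multiset.sum_map_singleton _
  · intro p hp
    rw [UniqueFactorizationMonoid.normalizedFactors_irreducible (h1 p hp)]
    rw [(hs _ (mem_part.1 hp)).1.normalize_eq_self]

open Classical in
theorem count_part {F : Type} [Field F] (s : Multiset (F[X] × ℕ)) (p : F[X]) (e : ℕ) :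
    (part s e).count p = s.count (p, e) := by
  unfold part
  rw [Multiset.count_map, Multiset.filter_filter, Multiset.count_eq_card_filter_eq]
  congr 1
  refine Multiset.filter_congr fun q _ => ?_
  constructor
  · rintro ⟨h1, h2⟩
    exact Prod.ext h1 h2.symm
  · rintro rfl
    exact ⟨rfl, rfl⟩

theorem exp_le {F : Type} [Field F] {s : Multiset (F[X] × ℕ)} (hs : Ok s) {n : ℕ}
    (hn : (s.map fun p => p.2 * p.1.natDegree).sum = n) (p : F[X] × ℕ) (hp : p ∈ s) :
    p.2 ≤ n := by
  have h1 : p.2 * p.1.natDegree ≤ n := by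
    rw [← hn]
    exact Multiset.single_le_sum (fun _ _ => Nat.zero_le _) _
      (Multiset.mem_map_of_mem (fun p : F[X] × ℕ => p.2 * p.1.natDegree) hp)
  have h2 : 0 < p.1.natDegree := (hs p hp).2.1.natDegree_pos
  nlinarith

theorem sum_eq {F : Type} [Field F] {s : Multiset (F[X] × ℕ)} (hs : Ok s) {n : ℕ}
    (hn : (s.map fun p => p.2 * p.1.natDegree).sum = n) :
    ∑ i : Fin n, (i.val + 1) * (hh s (i.val + 1)).natDegree = n := by
  classical
  have h0 : ∀ t : Multiset (F[X] × ℕ), (∀ p ∈ t, 1 ≤ p.2 ∧ p.2 ≤ n) →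
      ∑ i : Fin n, (i.val + 1) * ((part t (i.val + 1)).map natDegree).sum =
        (t.map fun p => p.2 * p.1.natDegree).sum := by
    intro t
    induction t using Multiset.induction_on with
    | empty => intro _; simp [part]
    | cons p t ih =>
      intro h
      have hp := h p (Multiset.mem_cons_self _ _)
      rw [Multiset.map_cons, Multiset.sum_cons, ← ih fun q hq => h q (Multiset.mem_cons_of_mem hq)]
      have e1 : ∀ i : Fin n, (i.val + 1) * ((part (p ::ₘ t) (i.val + 1)).map natDegree).sum =
          (if i = ⟨p.2 - 1, by omega⟩ then p.2 * p.1.natDegree else 0) +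
            (i.val + 1) * ((part t (i.val + 1)).map natDegree).sum := by
        intro i
        unfold part
        by_cases hi : p.2 = i.val + 1
        · rw [Multiset.filter_cons_of_pos (p := fun p : F[X] × ℕ => p.2 = i.val + 1) t hi,
            Multiset.map_cons, Multiset.map_cons,
            Multiset.sum_cons, if_pos (Fin.ext (by simp only; omega)), hi]
          ring
        · rw [Multiset.filter_cons_of_neg (p := fun p : F[X] × ℕ => p.2 = i.val + 1) t hi,
            if_neg, zero_add]
          intro h2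
          apply hi
          have h3 := congrArg Fin.val h2
          simp only at h3
          omega
      rw [Finset.sum_congr rfl fun i _ => e1 i, Finset.sum_add_distrib]
      congr 1
      rw [Finset.sum_ite_eq' Finset.univ]
      simp
  rw [← hn]
  conv_rhs => rw [← h0 s fun p hp => ⟨(hs p hp).2.2, exp_le hs hn p hp⟩]
  subst hn
  exact Finset.sum_congr rfl fun i _ => by rw [hh_deg hs]

/-- the target is finite -/
theorem fin (F : Type) [Field F] [Finite F] (n : ℕ) :
    Finite {h : Fin n → F[X] // (∀ i, (h i).Monic) ∧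
      ∑ i, (i.val + 1) * (h i).natDegree = n} := by
  have hf : ∀ h : {h : Fin n → F[X] // (∀ i, (h i).Monic) ∧
      ∑ i, (i.val + 1) * (h i).natDegree = n}, ∀ i, h.1 i ∈ degreeLT F (n + 1) := by
    intro h i
    have h1 : (i.val + 1) * (h.1 i).natDegree ≤ ∑ i, (i.val + 1) * (h.1 i).natDegree :=
      Finset.single_le_sum (f := fun i : Fin n => (i.val + 1) * (h.1 i).natDegree)
        (fun _ _ => Nat.zero_le _) (Finset.mem_univ i)
    rw [h.2.2] at h1
    rw [mem_degreeLT]
    refine lt_of_le_of_lt degree_le_natDegree ?_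
    have : (h.1 i).natDegree < n + 1 := by nlinarith
    exact_mod_cast this
  have : Finite (degreeLT F (n + 1)) := Finite.of_equiv _ (degreeLTEquiv F (n + 1)).toEquiv.symm
  refine Finite.of_injective (β := Fin n → degreeLT F (n + 1)) (fun h i => ⟨h.1 i, hf h i⟩) ?_
  intro h h' e
  apply Subtype.ext
  funext i
  exact congrArg Subtype.val (congrFun e i)

end KB

theorem t_KB : M_KB := by
  classical
  intro hKA F _ _ n
  obtain ⟨Φ, h1, h2, h3⟩ := hKA F n
  have := KB.fin F n
  refine Nat.card_le_card_of_injective (fun c : ConjClasses (GL (Fin n) F) =>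
    (⟨fun i => KB.hh (Φ (Quotient.out c)) (i.val + 1), fun i => KB.hh_monic (h1 _) _,
      KB.sum_eq (h1 _) (h2 _)⟩ : {h : Fin n → F[X] // (∀ i, (h i).Monic) ∧
        ∑ i, (i.val + 1) * (h i).natDegree = n})) ?_
  intro c c' e
  have e1 : ∀ i : Fin n, KB.hh (Φ (Quotient.out c)) (i.val + 1) =
      KB.hh (Φ (Quotient.out c')) (i.val + 1) := fun i => congrFun (congrArg Subtype.val e) i
  have e2 : Φ (Quotient.out c) = Φ (Quotient.out c') := by
    ext ⟨p, k⟩
    by_cases hk : 1 ≤ k ∧ k ≤ n
    · rw [← KB.count_part, ← KB.count_part, ← KB.part_eq (h1 _), ← KB.part_eq (h1 _)]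
      have := e1 ⟨k - 1, by omega⟩
      simp only at this
      rw [show k - 1 + 1 = k by omega] at this
      rw [this]
    · have h0 : ∀ A, (p, k) ∉ Φ A := fun A hA =>
        hk ⟨(h1 A _ hA).2.2, KB.exp_le (h1 A) (h2 A) _ hA⟩
      rw [Multiset.count_eq_zero_of_notMem (h0 _), Multiset.count_eq_zero_of_notMem (h0 _)]
  have e3 := ConjClasses.mk_eq_mk_iff_isConj.2 (h3 _ _ e2)
  have e4 : ∀ c : ConjClasses (GL (Fin n) F), ConjClasses.mk (Quotient.out c) = c :=
    fun c => Quotient.out_eq c
  rw [e4, e4] at e3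
  exact e3

end

end RSF
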