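import Pool.Agent.RSF.Stmts

/-!
# Module KC

The number of sequences of monic polynomials `h` with `∑ (i + 1) deg h i = n`.
-/

namespace RSF

open Polynomial

noncomputable section

namespace KC

/-- monic polynomials of degree `a` -/
abbrev MD (F : Type) [Field F] (a : ℕ) : Type := {p : F[X] // p.Monic ∧ p.natDegree = a}

def mdEquiv (F : Type) [Field F] (a : ℕ) : MD F a ≃ (Fin a → F) :=
  (monicEquivDegreeLT a).trans (degreeLTEquiv F a).toEquiv

instance mdFinite (F : Type) [Field F] [Finite F] (a : ℕ) : Finite (MD F a) :=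
  Finite.of_equiv _ (mdEquiv F a).symm

theorem card_md (F : Type) [Field F] [Finite F] (a : ℕ) : Nat.card (MD F a) = Nat.card F ^ a := by
  rw [Nat.card_congr (mdEquiv F a), Nat.card_fun, Nat.card_eq_fintype_card (α := Fin a),
    Fintype.card_fin]

/-- the degree vectors -/
abbrev AA (n : ℕ) : Type := {a : Fin n → Fin (n + 1) // ∑ i, (i.val + 1) * (a i).val = n}

abbrev XX (F : Type) [Field F] (n : ℕ) : Type :=
  {h : Fin n → F[X] // (∀ i, (h i).Monic) ∧ ∑ i, (i.val + 1) * (h i).natDegree = n}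

theorem deg_le (F : Type) [Field F] (n : ℕ) (h : XX F n) (i : Fin n) : (h.1 i).natDegree < n + 1 := by
  have h1 : (i.val + 1) * (h.1 i).natDegree ≤ ∑ i, (i.val + 1) * (h.1 i).natDegree :=
    Finset.single_le_sum (f := fun i : Fin n => (i.val + 1) * (h.1 i).natDegree)
      (fun _ _ => Nat.zero_le _) (Finset.mem_univ i)
  rw [h.2.2] at h1
  nlinarith

def toS (F : Type) [Field F] (n : ℕ) (h : XX F n) :
    Σ a : AA n, ∀ i, MD F ((a.1 i).val) :=
  ⟨⟨fun i => ⟨(h.1 i).natDegree, deg_le F n h i⟩, h.2.2⟩, fun i => ⟨h.1 i, h.2.1 i, rfl⟩⟩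

theorem toS_inj (F : Type) [Field F] (n : ℕ) : Function.Injective (toS F n) := by
  intro h h' e
  have key : ∀ h : XX F n, h.1 = fun i => ((toS F n h).2 i).1 := fun h => rfl
  apply Subtype.ext
  rw [key h, key h', e]

theorem card_le (F : Type) [Field F] [Finite F] (n : ℕ) :
    Nat.card (XX F n) ≤ ∑ a : AA n, ∏ i, Nat.card F ^ (a.1 i).val := by
  have h1 := Nat.card_le_card_of_injective (toS F n) (toS_inj F n)
  rw [Nat.card_sigma] at h1
  refine h1.trans (le_of_eq ?_)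
  refine Finset.sum_congr rfl fun a _ => ?_
  rw [Nat.card_pi]
  exact Finset.prod_congr rfl fun i _ => card_md F _

/-- the tail of a degree vector determines it -/
theorem tail_inj (m : ℕ) :
    Function.Injective fun a : AA (m + 1) => fun j : Fin m => a.1 j.succ := by
  intro a b e
  apply Subtype.ext
  have e' : ∀ j : Fin m, a.1 j.succ = b.1 j.succ := fun j => congrFun e j
  have ha := a.2
  have hb := b.2
  rw [Fin.sum_univ_succ] at ha hb
  have hs : ∑ i : Fin m, (i.succ.val + 1) * (a.1 i.succ).val =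
      ∑ i : Fin m, (i.succ.val + 1) * (b.1 i.succ).val :=
    Finset.sum_congr rfl fun j _ => by rw [e' j]
  funext i
  refine Fin.cases ?_ e' i
  apply Fin.ext
  simp only [Fin.val_zero, zero_add, one_mul] at ha hb
  omega

theorem weight (q : ℝ) (hq : 0 < q) (m : ℕ) (a : AA (m + 1)) :
    ∏ i, q ^ (a.1 i).val = q ^ (m + 1) * ∏ j : Fin m, ((q⁻¹) ^ (j.val + 1)) ^ (a.1 j.succ).val := by
  have ha := a.2
  have e1 : q ^ (m + 1) = ∏ i, (q ^ (i.val + 1)) ^ (a.1 i).val := by
    have : ∏ i, (q ^ (i.val + 1)) ^ (a.1 i).val = q ^ (∑ i, (i.val + 1) * (a.1 i).val) := by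
      rw [← Finset.prod_pow_eq_pow_sum]
      exact Finset.prod_congr rfl fun i _ => by rw [← pow_mul]
    rw [this, ha]
  rw [e1, Fin.prod_univ_succ, Fin.prod_univ_succ (fun i : Fin (m + 1) => (q ^ (i.val + 1)) ^ (a.1 i).val),
    mul_assoc, ← Finset.prod_mul_distrib]
  congr 1
  · simp
  · refine Finset.prod_congr rfl fun j _ => ?_
    rw [← mul_pow]
    congr 1
    rw [Fin.val_succ, pow_succ, inv_pow]
    field_simp

theorem sum_geo (x : ℝ) (h0 : 0 ≤ x) (h1 : x < 1) (k : ℕ) :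
    ∑ a : Fin k, x ^ a.val ≤ (1 - x)⁻¹ := by
  rw [Fin.sum_univ_eq_sum_range (fun a => x ^ a)]
  rw [← tsum_geometric_of_lt_one h0 h1]
  exact (summable_geometric_of_lt_one h0 h1).sum_le_tsum _ (fun i _ => by positivity)

theorem sum_bound (q : ℝ) (hq : 2 ≤ q) (hPI : S_PI) (m : ℕ) :
    ∑ a : AA (m + 1), ∏ i, q ^ (a.1 i).val ≤ 4 * q ^ (m + 1) := by
  have hq0 : 0 < q := by linarith
  have e1 : ∑ a : AA (m + 1), ∏ i, q ^ (a.1 i).val =
      q ^ (m + 1) * ∑ a : AA (m + 1),
        ∏ j : Fin m, ((q⁻¹) ^ (j.val + 1)) ^ (a.1 j.succ).val := by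
    rw [Finset.mul_sum]
    exact Finset.sum_congr rfl fun a _ => weight q hq0 m a
  have e2 : ∑ a : AA (m + 1), ∏ j : Fin m, ((q⁻¹) ^ (j.val + 1)) ^ (a.1 j.succ).val ≤
      ∑ b : Fin m → Fin (m + 1 + 1), ∏ j : Fin m, ((q⁻¹) ^ (j.val + 1)) ^ (b j).val := by
    classical
    have := Finset.sum_map (Finset.univ : Finset (AA (m + 1)))
      ⟨fun a : AA (m + 1) => fun j : Fin m => a.1 j.succ, tail_inj m⟩
      (fun b : Fin m → Fin (m + 1 + 1) => ∏ j : Fin m, ((q⁻¹) ^ (j.val + 1)) ^ (b j).val)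
    simp only [Function.Embedding.coeFn_mk] at this
    rw [← this]
    refine Finset.sum_le_sum_of_subset_of_nonneg (Finset.subset_univ _) fun b _ _ => ?_
    positivity
  have e3 : ∑ b : Fin m → Fin (m + 1 + 1), ∏ j : Fin m, ((q⁻¹) ^ (j.val + 1)) ^ (b j).val =
      ∏ j : Fin m, ∑ x : Fin (m + 1 + 1), ((q⁻¹) ^ (j.val + 1)) ^ x.val := by
    rw [Finset.prod_univ_sum]
    simp
  have hx : ∀ j : Fin m, 0 ≤ (q⁻¹) ^ (j.val + 1) ∧ (q⁻¹) ^ (j.val + 1) < 1 := by
    intro j
    refine ⟨by positivity, pow_lt_one₀ (by positivity) ?_ (by omega)⟩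
    exact inv_lt_one_of_one_lt₀ (by linarith)
  have e4 : ∏ j : Fin m, ∑ x : Fin (m + 1 + 1), ((q⁻¹) ^ (j.val + 1)) ^ x.val ≤
      ∏ j : Fin m, (1 - (q⁻¹) ^ (j.val + 1))⁻¹ := by
    refine Finset.prod_le_prod (fun j _ => ?_) fun j _ => sum_geo _ (hx j).1 (hx j).2 _
    exact Finset.sum_nonneg fun x _ => pow_nonneg (hx j).1 _
  have e5 : ∏ j : Fin m, (1 - (q⁻¹) ^ (j.val + 1))⁻¹ ≤ 4 := by
    rw [Finset.prod_inv_distrib, Fin.prod_univ_eq_prod_range (fun i => 1 - (q⁻¹) ^ (i + 1))]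
    have h := hPI q hq m
    rw [inv_le_comm₀ (by linarith) (by norm_num)]
    linarith
  rw [e1, mul_comm 4]
  refine mul_le_mul_of_nonneg_left ?_ (by positivity)
  linarith

end KC

theorem t_KC : M_KC := by
  intro hPI F _ _ n
  have h1 := KC.card_le F n
  refine h1.trans ?_
  have hq : 2 ≤ Nat.card F := by
    have : Nontrivial F := inferInstance
    exact Finite.one_lt_card
  cases n with
  | zero =>
    have : ∑ a : KC.AA 0, ∏ i, Nat.card F ^ (a.1 i).val ≤ 1 := by
      simp only [Finset.univ_eq_empty, Finset.prod_empty, Finset.sum_const, smul_eq_mul, mul_one,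
        Finset.card_univ]
      exact Fintype.card_le_one_iff_subsingleton.2 inferInstance
    simpa using this.trans (by norm_num)
  | succ m =>
    have h2 := KC.sum_bound (Nat.card F : ℝ) (by exact_mod_cast hq) hPI m
    exact_mod_cast h2

end

end RSF
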