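import Pool.Agent.RSF.Stmts3

/-!
# KD: duality for the triples `(a, c, W)`
-/

set_option autoImplicit false

namespace RSF

namespace KD

variable {F : Type} [Field F] {n : ℕ}

/-- the transposed matrix -/
def tr (c : GL (Fin n) F) : GL (Fin n) F :=
  ⟨c.1.transpose, (c⁻¹).1.transpose, by
    rw [← Matrix.transpose_mul, ← Units.val_mul, inv_mul_cancel, Units.val_one,
      Matrix.transpose_one], by
    rw [← Matrix.transpose_mul, ← Units.val_mul, mul_inv_cancel, Units.val_one,
      Matrix.transpose_one]⟩

theorem tr_inj : Function.Injective (tr (F := F) (n := n)) := by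
  intro a b h
  have h1 : a.1.transpose = b.1.transpose := congrArg Units.val h
  exact Units.ext (Matrix.transpose_injective h1)

theorem tr_comm {a c : GL (Fin n) F} (h : Commute a c) : Commute (tr a) (tr c) := by
  apply Units.ext
  change a.1.transpose * c.1.transpose = c.1.transpose * a.1.transpose
  rw [← Matrix.transpose_mul, ← Matrix.transpose_mul]
  congr 1
  exact (congrArg Units.val h.eq).symm

/-- the orthogonal complement for the dot product -/
noncomputable def orth (W : Submodule F (Fin n → F)) : Submodule F (Fin n → F) :=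
  W.dualAnnihilator.comap (dotProductEquiv F (Fin n)).toLinearMap

theorem mem_orth {W : Submodule F (Fin n → F)} {x : Fin n → F} :
    x ∈ orth W ↔ ∀ w ∈ W, x ⬝ᵥ w = 0 := by
  unfold orth
  rw [Submodule.mem_comap, Submodule.mem_dualAnnihilator]
  rfl

theorem orth_inj : Function.Injective (orth (F := F) (n := n)) := by
  intro W W' h
  have h1 : Function.Injective (Submodule.comap (dotProductEquiv F (Fin n)).toLinearMap) :=
    Submodule.comap_injective_of_surjective (dotProductEquiv F (Fin n)).surjective
  exact Subspace.dualAnnihilator_inj.1 (h1 h)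

theorem finrank_orth (W : Submodule F (Fin n → F)) :
    Module.finrank F W + Module.finrank F (orth W) = n := by
  have h1 := Subspace.finrank_add_finrank_dualAnnihilator_eq W
  rw [Module.finrank_fin_fun] at h1
  have h2 : Module.finrank F (orth W) = Module.finrank F W.dualAnnihilator := by
    unfold orth
    rw [Submodule.comap_equiv_eq_map_symm]
    exact LinearEquiv.finrank_map_eq _ _
  rw [h2]
  exact h1

end KD

open KD in
theorem t_KD : S_KD := by
  intro F _ _ n k hk
  unfold KT
  have hfin : Finite (Submodule F (Fin n → F)) := inferInstance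
  refine Nat.card_le_card_of_injective
    (fun z => ⟨(tr z.1.1, tr z.1.2.1, orth z.1.2.2), tr_comm z.2.1, ?_, ?_⟩) ?_
  · have h1 := finrank_orth z.1.2.2
    rw [z.2.2.1] at h1
    change Module.finrank F (orth z.1.2.2) = n - k
    omega
  · intro x hx
    change x ∈ orth z.1.2.2 at hx
    change z.1.2.1.1.transpose.mulVec x ∈ orth z.1.2.2
    rw [mem_orth] at hx ⊢
    intro w hw
    rw [Matrix.mulVec_transpose, ← Matrix.dotProduct_mulVec]
    exact hx _ (z.2.2.2 w hw)
  · rintro ⟨⟨a, c, W⟩, h⟩ ⟨⟨a', c', W'⟩, h'⟩ heq
    have h1 := congrArg Subtype.val heq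
    simp only [Prod.mk.injEq] at h1
    obtain ⟨h2, h3, h4⟩ := h1
    have e1 := tr_inj h2
    have e2 := tr_inj h3
    have e3 := orth_inj h4
    subst e1 e2 e3
    rfl

end RSF
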