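import Pool.Agent.RSF.Stmts3
import Pool.Agent.RSF.KA

/-!
# RSF, module KE: elementary divisors and kernels
-/

set_option autoImplicit false

namespace RSF

open Polynomial Module

noncomputable section

namespace KE

/-- the part of `F[X] / (p h)` killed by `p` -/
theorem finrank_dvd {F : Type} [Field F] (p h g : F[X]) (hp : p ≠ 0) (hh : h ≠ 0)
    (hg : g = p * h) :
    Module.finrank F (Submodule.torsionBy F[X]
      (F[X] ⧸ (Submodule.span F[X] {g} : Submodule F[X] F[X])) p) = p.natDegree := by
  let φ : F[X] →ₗ[F[X]] (F[X] ⧸ (Submodule.span F[X] {g} : Submodule F[X] F[X])) :=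
    (Submodule.mkQ (Submodule.span F[X] {g})).comp (LinearMap.toSpanSingleton F[X] F[X] h)
  have hφ : ∀ a, φ a = Submodule.Quotient.mk (a * h) := fun a => rfl
  have hker : LinearMap.ker φ = Submodule.span F[X] {p} := by
    ext a
    rw [LinearMap.mem_ker, hφ, Submodule.Quotient.mk_eq_zero, Ideal.mem_span_singleton',
      Ideal.mem_span_singleton']
    constructor
    · rintro ⟨b, hb⟩
      refine ⟨b, ?_⟩
      apply mul_right_cancel₀ hh
      rw [← hb, hg, mul_assoc]
    · rintro ⟨b, hb⟩
      refine ⟨b, ?_⟩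
      rw [← hb, hg, mul_assoc]
  have hran : LinearMap.range φ = Submodule.torsionBy F[X] _ p := by
    ext x
    rw [LinearMap.mem_range, Submodule.mem_torsionBy_iff]
    obtain ⟨a, rfl⟩ := Submodule.Quotient.mk_surjective _ x
    constructor
    · rintro ⟨b, hb⟩
      rw [← hb, hφ, ← Submodule.Quotient.mk_smul, Submodule.Quotient.mk_eq_zero,
        Ideal.mem_span_singleton']
      exact ⟨b, by rw [hg, smul_eq_mul]; ring⟩
    · intro hx
      rw [← Submodule.Quotient.mk_smul, Submodule.Quotient.mk_eq_zero,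
        Ideal.mem_span_singleton'] at hx
      obtain ⟨b, hb⟩ := hx
      refine ⟨b, ?_⟩
      rw [hφ]
      congr 1
      apply mul_left_cancel₀ hp
      rw [smul_eq_mul] at hb
      rw [← hb, hg]; ring
  rw [← hran]
  have e1 : (F[X] ⧸ LinearMap.ker φ) ≃ₗ[F] LinearMap.range φ :=
    (φ.quotKerEquivRange).restrictScalars F
  rw [← e1.finrank_eq]
  have e2 : (F[X] ⧸ LinearMap.ker φ) ≃ₗ[F] (F[X] ⧸ (Submodule.span F[X] {p} : Submodule F[X] F[X])) :=
    (Submodule.quotEquivOfEq _ _ hker).restrictScalars F
  rw [e2.finrank_eq]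
  exact finrank_quotient_span_eq_natDegree

/-- the part of `F[X] / (g)` killed by `p`, coprime to `g` -/
theorem finrank_coprime {F : Type} [Field F] (p g : F[X]) (hc : IsCoprime p g) :
    Module.finrank F (Submodule.torsionBy F[X]
      (F[X] ⧸ (Submodule.span F[X] {g} : Submodule F[X] F[X])) p) = 0 := by
  have : Submodule.torsionBy F[X]
      (F[X] ⧸ (Submodule.span F[X] {g} : Submodule F[X] F[X])) p = ⊥ := by
    rw [eq_bot_iff]
    intro x hx
    obtain ⟨a, rfl⟩ := Submodule.Quotient.mk_surjective _ x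
    rw [Submodule.mem_torsionBy_iff, ← Submodule.Quotient.mk_smul,
      Submodule.Quotient.mk_eq_zero, Ideal.mem_span_singleton] at hx
    rw [Submodule.mem_bot, Submodule.Quotient.mk_eq_zero, Ideal.mem_span_singleton]
    exact hc.symm.dvd_of_dvd_mul_left hx
  rw [this]
  exact finrank_bot F _

/-- the kernel on a product -/
def piTor {F : Type} [Field F] {ι : Type} (V : Type) [AddCommGroup V] [Module F[X] V]
    [Module F V] [IsScalarTower F F[X] V]
    (W : ι → Type) [∀ i, AddCommGroup (W i)] [∀ i, Module F[X] (W i)] [∀ i, Module F (W i)]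
    [∀ i, IsScalarTower F F[X] (W i)]
    (E : V ≃ₗ[F[X]] ∀ i, W i) (p : F[X]) :
    Submodule.torsionBy F[X] V p ≃ₗ[F[X]] ∀ i, Submodule.torsionBy F[X] (W i) p where
  toFun x i := ⟨E x.1 i, by
    have h := x.2
    rw [Submodule.mem_torsionBy_iff] at h ⊢
    rw [← Pi.smul_apply, ← map_smul, h, map_zero, Pi.zero_apply]⟩
  invFun y := ⟨E.symm fun i => (y i).1, by
    rw [Submodule.mem_torsionBy_iff, ← map_smul]
    have : (p • fun i => (y i).1) = (0 : ∀ i, W i) := by
      funext i
      exact (Submodule.mem_torsionBy_iff _ _).1 (y i).2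
    rw [this, map_zero]⟩
  map_add' x y := by
    funext i
    apply Subtype.ext
    simp
  map_smul' c x := by
    funext i
    apply Subtype.ext
    simp
  left_inv x := by
    apply Subtype.ext
    simp
  right_inv y := by
    funext i
    apply Subtype.ext
    simp

theorem finrank_tor {F : Type} [Field F] (V : Type) [AddCommGroup V] [Module F[X] V] [Module F V]
    [IsScalarTower F F[X] V] [Module.Finite F V] {s : Multiset (F[X] × ℕ)}
    (hs : ∀ p ∈ s, p.1.Monic ∧ Irreducible p.1 ∧ 1 ≤ p.2) (hV : KA.Dec V s) (p : F[X])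
    (hp : p.Monic) (hpi : Irreducible p) :
    Module.finrank F (Submodule.torsionBy F[X] V p) = p.natDegree * sp s p := by
  classical
  obtain ⟨ι, _, f, rfl, ⟨E⟩⟩ := hV
  have E1 : V ≃ₗ[F] ∀ i, KA.Q (f i) := E.restrictScalars F
  have hfin : Module.Finite F (∀ i, KA.Q (f i)) := Module.Finite.equiv E1
  have hfi : ∀ i, Module.Finite F (KA.Q (f i)) := fun i =>
    Module.Finite.of_surjective (LinearMap.proj i : (∀ i, KA.Q (f i)) →ₗ[F] KA.Q (f i))
      (Function.surjective_eval i)
  have hft : ∀ i, Module.Finite F (Submodule.torsionBy F[X] (KA.Q (f i)) p) := fun i =>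
    Module.Finite.of_injective
      (((Submodule.torsionBy F[X] (KA.Q (f i)) p).subtype).restrictScalars F)
      (Submodule.injective_subtype _)
  have hfree : ∀ i, Module.Free F (Submodule.torsionBy F[X] (KA.Q (f i)) p) := fun i =>
    Module.Free.of_divisionRing F _
  have E2 : Submodule.torsionBy F[X] V p ≃ₗ[F]
      ∀ i, Submodule.torsionBy F[X] (KA.Q (f i)) p :=
    (piTor V (fun i => KA.Q (f i)) E p).restrictScalars F
  rw [E2.finrank_eq, Module.finrank_pi_fintype]
  have h1 : ∀ i, Module.finrank F (Submodule.torsionBy F[X] (KA.Q (f i)) p) =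
      if (f i).1 = p then p.natDegree else 0 := by
    intro i
    obtain ⟨hm, hi, he⟩ := hs (f i) (Multiset.mem_map.2 ⟨i, Finset.mem_univ i, rfl⟩)
    by_cases h : (f i).1 = p
    · rw [if_pos h]
      apply finrank_dvd p (p ^ ((f i).2 - 1)) ((f i).1 ^ (f i).2) hpi.ne_zero
        (pow_ne_zero _ hpi.ne_zero)
      rw [h, ← pow_succ', Nat.sub_add_cancel he]
    · rw [if_neg h]
      apply finrank_coprime
      apply IsCoprime.pow_right
      rw [hpi.coprime_iff_not_dvd]
      intro hd
      apply h
      exact (Polynomial.eq_of_monic_of_associated hm hp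
        (hpi.associated_of_dvd hi hd).symm)
  rw [Finset.sum_congr rfl fun i _ => h1 i, ← Finset.sum_filter, Finset.sum_const, smul_eq_mul,
    mul_comm]
  congr 1
  unfold sp
  rw [Multiset.filter_map, Multiset.card_map]
  rfl

end KE

open KE in
theorem t_KE : S_KE := by
  classical
  intro F _ _ n
  have key : ∀ A : GL (Fin n) F, ∃ s : Multiset (F[X] × ℕ),
      (∀ p ∈ s, p.1.Monic ∧ Irreducible p.1 ∧ 1 ≤ p.2) ∧
        KA.Dec (Module.AEval' (Matrix.toLin' A.1)) s := fun A =>
    KA.exists_dec _ (KA.torsion _)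
  choose Φ h1 h2 using key
  refine ⟨Φ, h1, fun A => ?_, fun A B hAB => ?_, fun A p hp hpi => ?_⟩
  · have h3 := KA.sum_eq (F := F) (Module.AEval' (Matrix.toLin' A.1)) (h1 A) (h2 A)
    rw [h3]
    have h4 : Module.finrank F (Module.AEval' (Matrix.toLin' A.1)) =
        Module.finrank F (Fin n → F) :=
      ((Module.AEval'.of (Matrix.toLin' A.1)).finrank_eq).symm
    rw [h4, Module.finrank_fin_fun]
  · apply KA.isConj_of_equiv
    have h3 := h2 A
    rw [hAB] at h3
    exact h3.equiv (h2 B)
  · rw [← finrank_tor (Module.AEval' (Matrix.toLin' A.1)) (h1 A) (h2 A) p hp hpi]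
    let e := (Module.AEval'.of (Matrix.toLin' A.1)).submoduleMap
      (LinearMap.ker (aeval (Matrix.toLin' A.1) p))
    rw [e.finrank_eq]
    have h5 : Submodule.map ((Module.AEval'.of (Matrix.toLin' A.1)) :
        (Fin n → F) →ₗ[F] Module.AEval' (Matrix.toLin' A.1))
        (LinearMap.ker (aeval (Matrix.toLin' A.1) p)) =
        (Submodule.torsionBy F[X] (Module.AEval' (Matrix.toLin' A.1)) p).restrictScalars F := by
      ext x
      rw [Submodule.mem_map, Submodule.restrictScalars_mem, Submodule.mem_torsionBy_iff]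
      constructor
      · rintro ⟨y, hy, rfl⟩
        rw [LinearMap.mem_ker] at hy
        show p • Module.AEval.of F (Fin n → F) (Matrix.toLin' A.1) y = 0
        rw [← Module.AEval.of_aeval_smul]
        show Module.AEval.of F (Fin n → F) (Matrix.toLin' A.1)
          (aeval (Matrix.toLin' A.1) p y) = 0
        rw [hy, map_zero]
      · intro hx
        refine ⟨(Module.AEval.of F (Fin n → F) (Matrix.toLin' A.1)).symm x, ?_, ?_⟩
        · rw [LinearMap.mem_ker]
          apply (Module.AEval.of F (Fin n → F) (Matrix.toLin' A.1)).injective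
          rw [map_zero]
          have h6 := Module.AEval.of_aeval_smul (R := F) (M := Fin n → F)
            (a := Matrix.toLin' A.1) p
              ((Module.AEval.of F (Fin n → F) (Matrix.toLin' A.1)).symm x)
          rw [LinearEquiv.apply_symm_apply, hx] at h6
          exact h6
        · exact LinearEquiv.apply_symm_apply _ x
    exact congrArg (fun W : Submodule F (Module.AEval' (Matrix.toLin' A.1)) =>
      Module.finrank F W) h5

end

end RSF
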