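import Pool.Agent.RSF.Stmts

/-!
# The number of conjugacy classes of `PSL_n(q)`

`k(PSL) ≤ k(SL)`, `k(SL) |SL| ≤ k(GL) |GL|` (commuting pairs) and `|GL| ≤ q |SL|` (the determinant).
-/

namespace RSF

namespace KP

open Polynomial

/-- a quotient has at most as many classes -/
theorem card_conj_le_of_surj {G H : Type} [Group G] [Group H] [Finite G] (f : G →* H)
    (hf : Function.Surjective f) : Nat.card (ConjClasses H) ≤ Nat.card (ConjClasses G) := by
  haveI : Finite (ConjClasses G) := Finite.of_surjective _ ConjClasses.mk_surjective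
  exact Nat.card_le_card_of_surjective (ConjClasses.map f) (ConjClasses.map_surjective hf)

/-- a subgroup has at most as many commuting pairs -/
theorem card_comm_le_of_inj {G H : Type} [Group G] [Group H] [Finite H] (f : G →* H)
    (hf : Function.Injective f) :
    Nat.card {p : G × G // Commute p.1 p.2} ≤ Nat.card {p : H × H // Commute p.1 p.2} := by
  refine Nat.card_le_card_of_injective
    (fun p => ⟨(f p.1.1, f p.1.2), p.2.map f⟩) ?_
  rintro ⟨⟨a, b⟩, h⟩ ⟨⟨c, d⟩, h'⟩ he
  simp only [Subtype.mk.injEq, Prod.mk.injEq] at he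
  obtain ⟨h1, h2⟩ := he
  have h3 := hf h1
  have h4 := hf h2
  subst h3
  subst h4
  rfl

/-- `|GL| ≤ q |SL|` -/
theorem card_GL_le {F : Type} [Field F] [Finite F] (n : ℕ) :
    Nat.card (GL (Fin n) F) ≤ Nat.card F * Nat.card (Matrix.SpecialLinearGroup (Fin n) F) := by
  classical
  let d : GL (Fin n) F →* Fˣ := Matrix.GeneralLinearGroup.det
  have h1 : Nat.card d.ker * d.ker.index = Nat.card (GL (Fin n) F) := Subgroup.card_mul_index _
  have h2 : d.ker.index = Nat.card d.range := Subgroup.index_ker d
  have h3 : Nat.card d.range ≤ Nat.card Fˣ :=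
    Nat.card_le_card_of_injective (fun x => x.1) Subtype.val_injective
  have h4 : Nat.card Fˣ ≤ Nat.card F :=
    Nat.card_le_card_of_injective (fun x : Fˣ => (x : F)) Units.val_injective
  have h5 : Nat.card d.ker ≤ Nat.card (Matrix.SpecialLinearGroup (Fin n) F) := by
    refine Nat.card_le_card_of_injective
      (fun x : d.ker => (⟨(x.1 : Matrix (Fin n) (Fin n) F), ?_⟩ :
        Matrix.SpecialLinearGroup (Fin n) F)) ?_
    · have h := x.2
      rw [MonoidHom.mem_ker] at h
      have h' := congrArg (fun u : Fˣ => (u : F)) h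
      simpa [d] using h'
    · intro x y hxy
      have h : (x.1 : Matrix (Fin n) (Fin n) F) = (y.1 : Matrix (Fin n) (Fin n) F) :=
        congrArg Subtype.val hxy
      exact Subtype.ext (Units.ext h)
  calc Nat.card (GL (Fin n) F) = Nat.card d.ker * d.ker.index := h1.symm
    _ = Nat.card d.ker * Nat.card d.range := by rw [h2]
    _ ≤ Nat.card (Matrix.SpecialLinearGroup (Fin n) F) * Nat.card F :=
      Nat.mul_le_mul h5 (h3.trans h4)
    _ = Nat.card F * Nat.card (Matrix.SpecialLinearGroup (Fin n) F) := Nat.mul_comm _ _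

end KP

theorem t_KP : M_KP := by
  intro hKB hKC F _ _ n
  have hB := hKB F n
  have hC := hKC F n
  have hGL : Nat.card (ConjClasses (GL (Fin n) F)) ≤ 4 * Nat.card F ^ n := hB.trans hC
  have h1 : Nat.card (ConjClasses (PS n F)) ≤
      Nat.card (ConjClasses (Matrix.SpecialLinearGroup (Fin n) F)) :=
    KP.card_conj_le_of_surj
      (QuotientGroup.mk' (Subgroup.center (Matrix.SpecialLinearGroup (Fin n) F)))
      (QuotientGroup.mk'_surjective _)
  have h2 := card_comm_eq_card_conjClasses_mul_card (Matrix.SpecialLinearGroup (Fin n) F)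
  have h3 := card_comm_eq_card_conjClasses_mul_card (GL (Fin n) F)
  have h4 := KP.card_comm_le_of_inj
    (Matrix.SpecialLinearGroup.toGL : Matrix.SpecialLinearGroup (Fin n) F →* GL (Fin n) F)
    Matrix.SpecialLinearGroup.toGL_injective
  rw [h2, h3] at h4
  have h5 := KP.card_GL_le (F := F) n
  have hpos : 0 < Nat.card (Matrix.SpecialLinearGroup (Fin n) F) := Nat.card_pos
  have h6 : Nat.card (ConjClasses (Matrix.SpecialLinearGroup (Fin n) F)) *
      Nat.card (Matrix.SpecialLinearGroup (Fin n) F) ≤
      (Nat.card (ConjClasses (GL (Fin n) F)) * Nat.card F) *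
        Nat.card (Matrix.SpecialLinearGroup (Fin n) F) := by
    refine h4.trans ?_
    rw [Nat.mul_assoc]
    exact Nat.mul_le_mul_left _ h5
  have h7 : Nat.card (ConjClasses (Matrix.SpecialLinearGroup (Fin n) F)) ≤
      Nat.card (ConjClasses (GL (Fin n) F)) * Nat.card F := Nat.le_of_mul_le_mul_right h6 hpos
  calc Nat.card (ConjClasses (PS n F)) ≤ _ := h1
    _ ≤ Nat.card (ConjClasses (GL (Fin n) F)) * Nat.card F := h7
    _ ≤ (4 * Nat.card F ^ n) * Nat.card F := Nat.mul_le_mul_right _ hGL
    _ = 4 * Nat.card F ^ (n + 1) := by rw [pow_succ, Nat.mul_assoc]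

end RSF
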