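import Pool.Agent.RSF.Stmts3
import Pool.Agent.RSF.KP

/-!
# Commuting pairs and invariant subspaces: from `PSL_n` to `GL_n`
-/

namespace RSF

namespace KQ

open Polynomial

/-- The centraliser of the image of `C` modulo the centre injects into the centraliser of `C`. -/
theorem exists_J {G : Type} [Group G] (C : G) :
    ∃ J : G ⧸ Subgroup.center G → G,
      (∀ a : G ⧸ Subgroup.center G, Commute a (QuotientGroup.mk C) → Commute (J a) C) ∧
      (∀ a b : G ⧸ Subgroup.center G, J a = J b → a = b ∨
        ¬ Commute a (QuotientGroup.mk C) ∨ ¬ Commute b (QuotientGroup.mk C)) := by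
  classical
  let f : G ⧸ Subgroup.center G → G := fun a => a.out * C * a.out⁻¹ * C⁻¹
  have hout : ∀ a : G ⧸ Subgroup.center G, (QuotientGroup.mk a.out : G ⧸ Subgroup.center G) = a :=
    fun a => Quotient.out_eq' a
  have hfc : ∀ a : G ⧸ Subgroup.center G, Commute a (QuotientGroup.mk C) →
      f a ∈ Subgroup.center G := by
    intro a ha
    rw [← QuotientGroup.eq_one_iff]
    change (QuotientGroup.mk (a.out * C * a.out⁻¹ * C⁻¹) : G ⧸ Subgroup.center G) = 1
    rw [QuotientGroup.mk_mul, QuotientGroup.mk_mul, QuotientGroup.mk_mul, QuotientGroup.mk_inv,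
      QuotientGroup.mk_inv, hout, ha.eq]
    group
  let r : G → G ⧸ Subgroup.center G := fun z =>
    if h : ∃ a : G ⧸ Subgroup.center G, Commute a (QuotientGroup.mk C) ∧ f a = z then h.choose
    else 1
  have hr : ∀ a : G ⧸ Subgroup.center G, Commute a (QuotientGroup.mk C) → f (r (f a)) = f a := by
    intro a ha
    have h : ∃ b : G ⧸ Subgroup.center G, Commute b (QuotientGroup.mk C) ∧ f b = f a := ⟨a, ha, rfl⟩
    have h1 : r (f a) = h.choose := dif_pos h
    rw [h1]
    exact h.choose_spec.2
  refine ⟨fun a => ((r (f a))⁻¹ * a).out * f a, ?_, ?_⟩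
  · intro a ha
    have hc := hfc a ha
    rw [Subgroup.mem_center_iff] at hc
    have h1 := hr a ha
    set g : G := ((r (f a))⁻¹ * a).out with hg
    have hmg : (QuotientGroup.mk g : G ⧸ Subgroup.center G) = (r (f a))⁻¹ * a := hout _
    have h2 : (QuotientGroup.mk ((r (f a)).out * g) : G ⧸ Subgroup.center G) =
        QuotientGroup.mk a.out := by
      rw [QuotientGroup.mk_mul, hmg, hout, hout]
      group
    rw [QuotientGroup.eq, Subgroup.mem_center_iff] at h2
    have h3 := h2 C
    have h4 : f a = (r (f a)).out * g * C * ((r (f a)).out * g)⁻¹ * C⁻¹ := by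
      change a.out * C * a.out⁻¹ * C⁻¹ = _
      have h5 : a.out = (r (f a)).out * g * (((r (f a)).out * g)⁻¹ * a.out) := by group
      have h6 : a.out * C = (r (f a)).out * g * C * (((r (f a)).out * g)⁻¹ * a.out) := by
        calc a.out * C = (r (f a)).out * g * ((((r (f a)).out * g)⁻¹ * a.out) * C) := by group
          _ = (r (f a)).out * g * (C * (((r (f a)).out * g)⁻¹ * a.out)) := by rw [h3]
          _ = _ := by group
      rw [h6]
      group
    have h7 : (r (f a)).out * g * C * ((r (f a)).out * g)⁻¹ * C⁻¹ =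
        (r (f a)).out * C * (r (f a)).out⁻¹ * C⁻¹ := by
      rw [← h4]
      exact h1.symm
    have h8 : g * C * g⁻¹ = C := by
      have h9 := congrArg (fun t => (r (f a)).out⁻¹ * t * C * (r (f a)).out) h7
      calc g * C * g⁻¹ = (r (f a)).out⁻¹ *
            ((r (f a)).out * g * C * ((r (f a)).out * g)⁻¹ * C⁻¹) * C * (r (f a)).out := by group
        _ = (r (f a)).out⁻¹ * ((r (f a)).out * C * (r (f a)).out⁻¹ * C⁻¹) * C *
            (r (f a)).out := h9
        _ = C := by group
    have h10 : Commute g C := by
      change g * C = C * g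
      calc g * C = g * C * g⁻¹ * g := by group
        _ = C * g := by rw [h8]
    have h11 : Commute (f a) C := by
      have := hc C
      exact this.symm
    exact h10.mul_left h11
  · intro a b hab
    by_cases ha : Commute a (QuotientGroup.mk C)
    · by_cases hb : Commute b (QuotientGroup.mk C)
      · left
        simp only at hab
        have h1 : (QuotientGroup.mk (f a) : G ⧸ Subgroup.center G) = 1 :=
          (QuotientGroup.eq_one_iff _).mpr (hfc a ha)
        have h2 : (QuotientGroup.mk (f b) : G ⧸ Subgroup.center G) = 1 :=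
          (QuotientGroup.eq_one_iff _).mpr (hfc b hb)
        have h3 : (QuotientGroup.mk (((r (f a))⁻¹ * a).out * f a) : G ⧸ Subgroup.center G) =
            QuotientGroup.mk (((r (f b))⁻¹ * b).out * f b) :=
          congrArg (fun t : G => (QuotientGroup.mk t : G ⧸ Subgroup.center G)) hab
        have h5 : (QuotientGroup.mk (((r (f a))⁻¹ * a).out * f a) : G ⧸ Subgroup.center G) =
            (r (f a))⁻¹ * a :=
          ((QuotientGroup.mk_mul _ _ _).trans (congrArg₂ _ (hout _) h1)).trans (mul_one _)
        have h6 : (QuotientGroup.mk (((r (f b))⁻¹ * b).out * f b) : G ⧸ Subgroup.center G) =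
            (r (f b))⁻¹ * b :=
          ((QuotientGroup.mk_mul _ _ _).trans (congrArg₂ _ (hout _) h2)).trans (mul_one _)
        rw [h5, h6] at h3
        rw [h3] at hab
        have h4 : f a = f b := mul_left_cancel hab
        rw [h4] at h3
        exact mul_left_cancel h3
      · exact Or.inr (Or.inr hb)
    · exact Or.inr (Or.inl ha)

end KQ

theorem t_KQ : S_KQ := by
  classical
  intro F _ _ n k _
  have hmain : KS F n k * Nat.card (Subgroup.center (Matrix.SpecialLinearGroup (Fin n) F)) ≤
      KT F n k := by
    choose J hJ1 hJ2 using fun C : Matrix.SpecialLinearGroup (Fin n) F => KQ.exists_J C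
    rw [KS, ← Nat.card_prod, KT]
    have hlift : ∀ (c : PS n F) (z : Subgroup.center (Matrix.SpecialLinearGroup (Fin n) F)),
        mk (c.out * (z : Matrix.SpecialLinearGroup (Fin n) F)) = c := by
      intro c z
      have h1 : (QuotientGroup.mk c.out : PS n F) = c := Quotient.out_eq' c
      have h2 : (QuotientGroup.mk (z : Matrix.SpecialLinearGroup (Fin n) F) : PS n F) = 1 :=
        (QuotientGroup.eq_one_iff _).mpr z.2
      change (QuotientGroup.mk (c.out * (z : Matrix.SpecialLinearGroup (Fin n) F)) : PS n F) = c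
      rw [QuotientGroup.mk_mul, h1, h2, mul_one]
    refine Nat.card_le_card_of_injective
      (fun p => ⟨(Matrix.SpecialLinearGroup.toGL
          (J (p.1.1.2.1.out * (p.2 : Matrix.SpecialLinearGroup (Fin n) F)) p.1.1.1),
        Matrix.SpecialLinearGroup.toGL
          (p.1.1.2.1.out * (p.2 : Matrix.SpecialLinearGroup (Fin n) F)), p.1.1.2.2), ?_, ?_, ?_⟩) ?_
    · obtain ⟨⟨⟨a, c, W⟩, h1, h2, h3⟩, z⟩ := p
      refine Commute.map ?_ _
      refine hJ1 _ a ?_
      have h := hlift c z
      rw [mk] at h
      change Commute a (QuotientGroup.mk (c.out * (z : Matrix.SpecialLinearGroup (Fin n) F)))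
      rw [h]
      exact h1
    · exact p.1.2.2.1
    · obtain ⟨⟨⟨a, c, W⟩, h1, h2, h3⟩, z⟩ := p
      intro w hw
      exact h3 _ (hlift c z) w hw
    · rintro ⟨⟨⟨a, c, W⟩, h1, h2, h3⟩, z⟩ ⟨⟨⟨a', c', W'⟩, h1', h2', h3'⟩, z'⟩ he
      simp only [Subtype.mk.injEq, Prod.mk.injEq] at he
      obtain ⟨e1, e2, e3⟩ := he
      have e4 := Matrix.SpecialLinearGroup.toGL_injective e1
      have e5 := Matrix.SpecialLinearGroup.toGL_injective e2
      have e6 : c = c' := by
        rw [← hlift c z, ← hlift c' z', e5]
      subst e6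
      have e7 : (z : Matrix.SpecialLinearGroup (Fin n) F) = z' := mul_left_cancel e5
      have e8 : z = z' := Subtype.ext e7
      subst e8
      subst e3
      have hc : (QuotientGroup.mk (c.out * (z : Matrix.SpecialLinearGroup (Fin n) F)) : PS n F) =
        c := hlift c z
      rcases hJ2 _ a a' e4 with h | h | h
      · subst h
        rfl
      · rw [hc] at h
        exact absurd h1 h
      · rw [hc] at h
        exact absurd h1' h
  have hGL := KP.card_GL_le (F := F) n
  have hSL : Nat.card (Matrix.SpecialLinearGroup (Fin n) F) =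
      Nat.card (PS n F) * Nat.card (Subgroup.center (Matrix.SpecialLinearGroup (Fin n) F)) :=
    Subgroup.card_eq_card_quotient_mul_card_subgroup _
  calc KS F n k * Nat.card (GL (Fin n) F)
      ≤ KS F n k * (Nat.card F * Nat.card (Matrix.SpecialLinearGroup (Fin n) F)) :=
        Nat.mul_le_mul_left _ hGL
    _ = Nat.card F * Nat.card (PS n F) *
        (KS F n k * Nat.card (Subgroup.center (Matrix.SpecialLinearGroup (Fin n) F))) := by
      rw [hSL]; ring
    _ ≤ Nat.card F * Nat.card (PS n F) * KT F n k := Nat.mul_le_mul_left _ hmain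

end RSF
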