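import Pool.Agent.RSF.Stmts

/-!
# The two lower bounds
-/

namespace RSF

open Finset

namespace L

variable {G : Type} [Group G] [Fintype G]

theorem cnt (m : List ℕ) (c : G → G → G) :
    Nat.card {p : (Fin m.length → G) × G × G // (∀ j, p.1 j ^ m.get j = 1) ∧ True ∧
      (List.ofFn p.1).prod * c p.2.1 p.2.2 = 1} = ∑ a, ∑ b, fL G m (c a b)⁻¹ := by
  classical
  have e : {p : (Fin m.length → G) × G × G // (∀ j, p.1 j ^ m.get j = 1) ∧ True ∧
      (List.ofFn p.1).prod * c p.2.1 p.2.2 = 1} ≃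
      Σ q : G × G, {t : Fin m.length → G // (∀ j, t j ^ m.get j = 1) ∧
        (List.ofFn t).prod = (c q.1 q.2)⁻¹} :=
    { toFun := fun p => ⟨p.1.2, p.1.1, p.2.1, eq_inv_of_mul_eq_one_left p.2.2.2⟩
      invFun := fun s => ⟨(s.2.1, s.1), s.2.2.1, trivial, by
        have h := s.2.2.2
        show (List.ofFn s.2.1).prod * c s.1.1 s.1.2 = 1
        rw [h, inv_mul_cancel]⟩
      left_inv := fun p => rfl
      right_inv := fun s => rfl }
  rw [Nat.card_congr e, Nat.card_sigma, Fintype.sum_prod_type]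
  rfl

/-- the convolution square -/
theorem conv (h : S_CNT) (m L : List ℕ) (hL : m.Perm (L ++ L)) (u v : G) :
    fL G m (u * v⁻¹) = ∑ w, fL G L (u * w⁻¹) * fL G L (v * w⁻¹) := by
  obtain ⟨h1, h2, _, h4, _⟩ := h G
  rw [h1 m (L ++ L) hL, h4]
  refine Fintype.sum_equiv ((Equiv.inv G).trans (Equiv.mulRight u)) _ _ fun x => ?_
  show fL G L x * fL G L (x⁻¹ * (u * v⁻¹)) = fL G L (u * (x⁻¹ * u)⁻¹) * fL G L (v * (x⁻¹ * u)⁻¹)
  rw [← h2 L (v * (x⁻¹ * u)⁻¹)]
  congr 2 <;> group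

omit [Fintype G] in
theorem JJ_eq (m L : List ℕ) (hL : m.Perm (L ++ L)) : JJ G m = JJ G L ^ 2 := by
  unfold JJ
  rw [(hL.map (jn G)).prod_eq, List.map_append, List.prod_append, sq]

theorem sum_row (h : S_CNT) (L : List ℕ) (u : G) : ∑ w, fL G L (u * w⁻¹) = JJ G L := by
  rw [← (h G).2.2.2.2 L]
  refine Fintype.sum_equiv ((Equiv.inv G).trans (Equiv.mulLeft u)) _ _ fun x => rfl

theorem sum_col (h : S_CNT) (L : List ℕ) (w : G) : ∑ u, fL G L (u * w⁻¹) = JJ G L := by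
  rw [← (h G).2.2.2.2 L]
  refine Fintype.sum_equiv (Equiv.mulRight w⁻¹) _ _ fun x => rfl

/-- averaging over the conjugates -/
theorem avg (K : G → ℕ) :
    Fintype.card G * ∑ a, K a * ∑ b, K (b * a * b⁻¹) = ∑ a, (∑ b, K (b * a * b⁻¹)) ^ 2 := by
  have hc : ∀ c a : G, (∑ b, K (b * (c * a * c⁻¹) * b⁻¹)) = ∑ b, K (b * a * b⁻¹) := by
    intro c a
    refine Fintype.sum_equiv (Equiv.mulRight c) _ _ fun x => ?_
    show K (x * (c * a * c⁻¹) * x⁻¹) = K (x * c * a * (x * c)⁻¹)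
    congr 1
    group
  have h1 : ∀ c : G, (∑ a, K a * ∑ b, K (b * a * b⁻¹)) =
      ∑ a, K (c * a * c⁻¹) * ∑ b, K (b * a * b⁻¹) := by
    intro c
    rw [← Equiv.sum_comp (MulAut.conj c).toEquiv]
    refine Finset.sum_congr rfl fun a _ => ?_
    show K (c * a * c⁻¹) * (∑ b, K (b * (c * a * c⁻¹) * b⁻¹)) = _
    rw [hc]
  calc Fintype.card G * ∑ a, K a * ∑ b, K (b * a * b⁻¹)
      = ∑ _c : G, ∑ a, K a * ∑ b, K (b * a * b⁻¹) := by
        rw [Finset.sum_const, Finset.card_univ, smul_eq_mul]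
    _ = ∑ c : G, ∑ a, K (c * a * c⁻¹) * ∑ b, K (b * a * b⁻¹) :=
        Finset.sum_congr rfl fun c _ => h1 c
    _ = ∑ a, ∑ c : G, K (c * a * c⁻¹) * ∑ b, K (b * a * b⁻¹) := Finset.sum_comm
    _ = ∑ a, (∑ b, K (b * a * b⁻¹)) ^ 2 := by
        refine Finset.sum_congr rfl fun a _ => ?_
        rw [← Finset.sum_mul, sq]

/-- Cauchy-Schwarz for one row -/
theorem row (K : G → ℕ) : (∑ a, K a) ^ 2 ≤ ∑ a, K a * ∑ b, K (b * a * b⁻¹) := by
  have h0 : 0 < Fintype.card G := Fintype.card_pos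
  have h1 := avg K
  have h2 : (∑ a, ∑ b, K (b * a * b⁻¹)) ^ 2 ≤
      Fintype.card G * ∑ a, (∑ b, K (b * a * b⁻¹)) ^ 2 := sq_sum_le_card_mul_sum_sq
  have h3 : (∑ a, ∑ b, K (b * a * b⁻¹)) = Fintype.card G * ∑ a, K a := by
    rw [Finset.sum_comm]
    have : ∀ b : G, (∑ a, K (b * a * b⁻¹)) = ∑ a, K a := fun b =>
      Equiv.sum_comp (MulAut.conj b).toEquiv K
    rw [Finset.sum_congr rfl fun b _ => this b, Finset.sum_const, Finset.card_univ, smul_eq_mul]
  rw [h3, ← h1] at h2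
  have h4 : Fintype.card G ^ 2 * (∑ a, K a) ^ 2 ≤
      Fintype.card G ^ 2 * ∑ a, K a * ∑ b, K (b * a * b⁻¹) := by
    calc Fintype.card G ^ 2 * (∑ a, K a) ^ 2 = (Fintype.card G * ∑ a, K a) ^ 2 := by ring
      _ ≤ _ := h2
      _ = _ := by ring
  exact Nat.le_of_mul_le_mul_left h4 (pow_pos h0 2)

end L

theorem t_L : M_L := by
  intro hcnt hev
  refine ⟨?_, ?_⟩
  · intro G _ _ m hm
    classical
    have : Fintype G := Fintype.ofFinite G
    obtain ⟨l, hl⟩ := hev m hm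
    have h1 : OT G m (fun _ => True) = ∑ w, ∑ a, fL G l (a * w⁻¹) *
        ∑ b, fL G l (b * a * b⁻¹ * w⁻¹) := by
      unfold OT
      rw [L.cnt m (fun a b : G => a * b * a⁻¹ * b⁻¹)]
      have h2 : ∀ a b : G, fL G m (a * b * a⁻¹ * b⁻¹)⁻¹ =
          ∑ w, fL G l (a * w⁻¹) * fL G l (b * a * b⁻¹ * w⁻¹) := by
        intro a b
        rw [(hcnt G).2.1, ← L.conv hcnt m l hl]
        congr 1
        group
      rw [Finset.sum_congr rfl fun a _ => Finset.sum_congr rfl fun b _ => h2 a b]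
      rw [Finset.sum_congr rfl fun a _ => Finset.sum_comm]
      rw [Finset.sum_comm]
      refine Finset.sum_congr rfl fun w _ => Finset.sum_congr rfl fun a _ => ?_
      rw [Finset.mul_sum]
    rw [h1, L.JJ_eq m l hl, Nat.card_eq_fintype_card]
    calc Fintype.card G * JJ G l ^ 2 = ∑ _w : G, JJ G l ^ 2 := by
          rw [Finset.sum_const, Finset.card_univ, smul_eq_mul]
      _ ≤ _ := Finset.sum_le_sum fun w _ => by
          rw [← L.sum_col hcnt l w]
          exact L.row (fun u => fL G l (u * w⁻¹))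
  · intro G _ _ m hm
    classical
    have : Fintype G := Fintype.ofFinite G
    obtain ⟨l, hl⟩ := hev m hm
    have h1 : NT G m (fun _ => True) = ∑ w, (∑ a, fL G l (a ^ 2 * w⁻¹)) ^ 2 := by
      unfold NT
      rw [L.cnt m (fun a b : G => a ^ 2 * b ^ 2)]
      have h2 : ∀ a b : G, fL G m (a ^ 2 * b ^ 2)⁻¹ =
          ∑ w, fL G l (a ^ 2 * w⁻¹) * fL G l ((b⁻¹) ^ 2 * w⁻¹) := by
        intro a b
        rw [(hcnt G).2.1, ← L.conv hcnt m l hl]
        congr 1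
        group
      rw [Finset.sum_congr rfl fun a _ => Finset.sum_congr rfl fun b _ => h2 a b]
      rw [Finset.sum_congr rfl fun a _ => Finset.sum_comm]
      rw [Finset.sum_comm]
      refine Finset.sum_congr rfl fun w _ => ?_
      rw [sq, Finset.sum_mul]
      refine Finset.sum_congr rfl fun a _ => ?_
      rw [← Finset.mul_sum]
      congr 1
      exact Equiv.sum_comp (Equiv.inv G) (fun b => fL G l (b ^ 2 * w⁻¹))
    have h0 : 0 < Fintype.card G := Fintype.card_pos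
    rw [h1, L.JJ_eq m l hl, Nat.card_eq_fintype_card]
    have h2 : (∑ w, ∑ a, fL G l (a ^ 2 * w⁻¹)) ^ 2 ≤
        Fintype.card G * ∑ w, (∑ a, fL G l (a ^ 2 * w⁻¹)) ^ 2 := sq_sum_le_card_mul_sum_sq
    have h3 : (∑ w, ∑ a, fL G l (a ^ 2 * w⁻¹)) = Fintype.card G * JJ G l := by
      rw [Finset.sum_comm, Finset.sum_congr rfl fun a _ => L.sum_row hcnt l (a ^ 2),
        Finset.sum_const, Finset.card_univ, smul_eq_mul]
    rw [h3] at h2
    have h4 : Fintype.card G * (Fintype.card G * JJ G l ^ 2) ≤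
        Fintype.card G * ∑ w, (∑ a, fL G l (a ^ 2 * w⁻¹)) ^ 2 := by
      calc Fintype.card G * (Fintype.card G * JJ G l ^ 2) = (Fintype.card G * JJ G l) ^ 2 := by ring
        _ ≤ _ := h2
    exact Nat.le_of_mul_le_mul_left h4 h0

end RSF
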