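import Pool.Agent.RSF.Stmts2

/-!
# Module `LD`: the lower bound of the number of homomorphisms
-/

namespace RSF

namespace LD

/-- the tuples -/
abbrev TP (G : Type) [Group G] (m : List ℕ) : Type :=
  {t : Fin m.length → G // ∀ j, t j ^ m.get j = 1}

theorem card_TP (G : Type) [Group G] [Finite G] (m : List ℕ) : Nat.card (TP G m) = JJ G m := by
  classical
  have h1 : Nat.card (TP G m) = Nat.card ((j : Fin m.length) → {x : G // x ^ m.get j = 1}) :=
    Nat.card_congr (Equiv.subtypePiEquivPi (p := fun j x => x ^ m.get j = 1))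
  rw [h1, Nat.card_pi, JJ]
  have h2 : ∀ j : Fin m.length, Nat.card {x : G // x ^ m.get j = 1} = jn G (m.get j) :=
    fun _ => rfl
  simp only [h2]
  rw [← Fin.prod_univ_fun_getElem]
  rfl

/-- the tuples with product `1` -/
abbrev T1 (G : Type) [Group G] (m : List ℕ) : Type := {t : TP G m // (List.ofFn t.1).prod = 1}

theorem card_T1 (G : Type) [Group G] [Finite G] (k : ℕ) (L : List ℕ) :
    Nat.card (T1 G (k :: L)) * jn G k ≤ Nat.card (TP G (k :: L)) := by
  rw [jn, ← Nat.card_prod]
  refine Nat.card_le_card_of_injective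
    (fun z : T1 G (k :: L) × {x : G // x ^ k = 1} =>
      (⟨(Fin.cons z.2.1 (Fin.tail (n := L.length) (α := fun _ => G) z.1.1.1) :
        Fin (L.length + 1) → G), ?_⟩ : TP G (k :: L))) ?_
  · intro j
    refine Fin.cases ?_ (fun j => ?_) j
    · exact z.2.2
    · exact z.1.1.2 j.succ
  · rintro ⟨⟨⟨t, ht⟩, ht1⟩, x, hx⟩ ⟨⟨⟨t', ht'⟩, ht1'⟩, x', hx'⟩ h
    have h0 : (Fin.cons x (Fin.tail (n := L.length) (α := fun _ => G) t) :
        Fin (L.length + 1) → G) = Fin.cons x' (Fin.tail (n := L.length) (α := fun _ => G) t') :=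
      congrArg Subtype.val h
    have hx0 : x = x' := by
      have := congrFun h0 0
      simpa using this
    have htail : Fin.tail (n := L.length) (α := fun _ => G) t =
        Fin.tail (n := L.length) (α := fun _ => G) t' := by
      funext j
      have := congrFun h0 j.succ
      simpa using this
    have e1 : t 0 * (List.ofFn (Fin.tail (n := L.length) (α := fun _ => G) t)).prod = 1 := by
      have h2 : (List.ofFn t).prod = 1 := ht1
      have h3 : List.ofFn (n := L.length + 1) t = t 0 :: List.ofFn (fun j : Fin L.length => t j.succ) :=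
        List.ofFn_succ
      have h4 : (List.ofFn (n := L.length + 1) t).prod = 1 := h2
      rw [h3, List.prod_cons] at h4
      exact h4
    have e1' : t' 0 * (List.ofFn (Fin.tail (n := L.length) (α := fun _ => G) t')).prod = 1 := by
      have h2 : (List.ofFn t').prod = 1 := ht1'
      have h3 : List.ofFn (n := L.length + 1) t' =
          t' 0 :: List.ofFn (fun j : Fin L.length => t' j.succ) := List.ofFn_succ
      have h4 : (List.ofFn (n := L.length + 1) t').prod = 1 := h2
      rw [h3, List.prod_cons] at h4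
      exact h4
    have e2 : t 0 = t' 0 := by
      rw [htail] at e1
      rw [eq_inv_of_mul_eq_one_left e1, eq_inv_of_mul_eq_one_left e1']
    have e3 : t = t' := by
      funext j
      refine Fin.cases (motive := fun j : Fin (L.length + 1) => t j = t' j) e2 (fun j => ?_) j
      exact congrFun htail j
    subst e3
    subst hx0
    rfl

theorem general (G : Type) [Group G] [Finite G] (m : List ℕ) (c : ℕ) (hm : m ≠ [])
    (h2 : ∀ k ∈ m, 2 ≤ jn G k) (w : G → G → G)
    (hw : ∀ g : G, g ≠ 1 → Nat.card G ≤ c * Nat.card {p : G × G // g * w p.1 p.2 = 1}) :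
    Nat.card G * JJ G m ≤ 2 * c * Nat.card {p : (Fin m.length → G) × G × G //
      (∀ j, p.1 j ^ m.get j = 1) ∧ True ∧ (List.ofFn p.1).prod * w p.2.1 p.2.2 = 1} := by
  classical
  obtain ⟨k, L, rfl⟩ := List.exists_cons_of_ne_nil hm
  have h3 : 2 * Nat.card (T1 G (k :: L)) ≤ Nat.card (TP G (k :: L)) := by
    have h4 := card_T1 G k L
    have h5 := h2 k (by simp)
    calc 2 * Nat.card (T1 G (k :: L)) ≤ Nat.card (T1 G (k :: L)) * jn G k := by
          rw [Nat.mul_comm]; exact Nat.mul_le_mul_left _ h5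
      _ ≤ _ := h4
  have h6 : Nat.card (T1 G (k :: L)) +
      Nat.card {t : TP G (k :: L) // ¬ (List.ofFn t.1).prod = 1} = Nat.card (TP G (k :: L)) := by
    rw [← Nat.card_sum]
    exact Nat.card_congr (Equiv.sumCompl _)
  have h7 : Nat.card (TP G (k :: L)) ≤
      2 * Nat.card {t : TP G (k :: L) // ¬ (List.ofFn t.1).prod = 1} := by omega
  have : Fintype {t : TP G (k :: L) // ¬ (List.ofFn t.1).prod = 1} := Fintype.ofFinite _
  have h8 : Nat.card G * Nat.card {t : TP G (k :: L) // ¬ (List.ofFn t.1).prod = 1} ≤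
      c * Nat.card ((t : {t : TP G (k :: L) // ¬ (List.ofFn t.1).prod = 1}) ×
        {p : G × G // (List.ofFn t.1.1).prod * w p.1 p.2 = 1}) := by
    rw [Nat.card_sigma, Finset.mul_sum, Nat.card_eq_fintype_card (α := {t : TP G (k :: L) //
      ¬ (List.ofFn t.1).prod = 1}), Nat.mul_comm, ← smul_eq_mul, ← Finset.card_univ,
      ← Finset.sum_const]
    exact Finset.sum_le_sum fun t _ => hw _ t.2
  have h9 : Nat.card ((t : {t : TP G (k :: L) // ¬ (List.ofFn t.1).prod = 1}) ×
        {p : G × G // (List.ofFn t.1.1).prod * w p.1 p.2 = 1}) ≤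
      Nat.card {p : (Fin (k :: L).length → G) × G × G //
      (∀ j, p.1 j ^ (k :: L).get j = 1) ∧ True ∧ (List.ofFn p.1).prod * w p.2.1 p.2.2 = 1} := by
    refine Nat.card_le_card_of_injective
      (fun z => ⟨(z.1.1.1, z.2.1), z.1.1.2, trivial, z.2.2⟩) ?_
    rintro ⟨⟨⟨t, ht⟩, ht1⟩, p, hp⟩ ⟨⟨⟨t', ht'⟩, ht1'⟩, p', hp'⟩ h
    simp only [Subtype.mk.injEq, Prod.mk.injEq] at h
    obtain ⟨rfl, rfl⟩ := h
    rfl
  rw [← card_TP]
  calc Nat.card G * Nat.card (TP G (k :: L))
      ≤ Nat.card G * (2 * Nat.card {t : TP G (k :: L) // ¬ (List.ofFn t.1).prod = 1}) :=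
        Nat.mul_le_mul_left _ h7
    _ = 2 * (Nat.card G * Nat.card {t : TP G (k :: L) // ¬ (List.ofFn t.1).prod = 1}) := by ring
    _ ≤ 2 * (c * _) := Nat.mul_le_mul_left _ h8
    _ ≤ 2 * (c * _) := Nat.mul_le_mul_left _ (Nat.mul_le_mul_left _ h9)
    _ = _ := by ring

end LD

theorem t_LD : S_LD := by
  intro G _ _ m c hm h2
  constructor
  · intro hw
    exact LD.general G m c hm h2 (fun a b => a * b * a⁻¹ * b⁻¹) hw
  · intro hw
    exact LD.general G m c hm h2 (fun a b => a ^ 2 * b ^ 2) hw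

end RSF
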