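import Pool.Agent.RSF.Stmts3

/-!
# Module MR: multisets with many pairs with first component `p`
-/

namespace RSF

open Polynomial

noncomputable section

namespace MR

variable {F : Type} [Field F]

/-- the weight of a pair -/
def w (z : F[X] × ℕ) : ℕ := z.2 * z.1.natDegree

/-- lower the exponent -/
def dec (z : F[X] × ℕ) : F[X] × ℕ := (z.1, z.2 - 1)

/-- raise the exponent -/
def inc (z : F[X] × ℕ) : F[X] × ℕ := (z.1, z.2 + 1)

open Classical in
/-- the pairs with first component `p` -/
def Pp (p : F[X]) (s : Multiset (F[X] × ℕ)) : Multiset (F[X] × ℕ) := s.filter fun z => z.1 = p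

open Classical in
/-- the other pairs -/
def Qp (p : F[X]) (s : Multiset (F[X] × ℕ)) : Multiset (F[X] × ℕ) := s.filter fun z => ¬ z.1 = p

/-- the pairs with first component `p`, with lowered exponents, without the exponents `0` -/
def Pr (p : F[X]) (s : Multiset (F[X] × ℕ)) : Multiset (F[X] × ℕ) :=
  ((Pp p s).map dec).filter fun z => 1 ≤ z.2

/-- lower the exponents of `p` by `1` -/
def red (p : F[X]) (s : Multiset (F[X] × ℕ)) : Multiset (F[X] × ℕ) := Qp p s + Pr p s

theorem sp_eq (p : F[X]) (s : Multiset (F[X] × ℕ)) : sp s p = (Pp p s).card := rfl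

theorem add_eq (p : F[X]) (s : Multiset (F[X] × ℕ)) : Pp p s + Qp p s = s := by
  classical
  exact Multiset.filter_add_not _ _

theorem mem_Pp {p : F[X]} {s : Multiset (F[X] × ℕ)} {z : F[X] × ℕ} :
    z ∈ Pp p s ↔ z ∈ s ∧ z.1 = p := by
  classical
  exact Multiset.mem_filter

theorem mem_Qp {p : F[X]} {s : Multiset (F[X] × ℕ)} {z : F[X] × ℕ} :
    z ∈ Qp p s ↔ z ∈ s ∧ ¬ z.1 = p := by
  classical
  exact Multiset.mem_filter

theorem mem_Pr {p : F[X]} {s : Multiset (F[X] × ℕ)} {z : F[X] × ℕ} (h : z ∈ Pr p s) :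
    (∃ y ∈ s, y.1 = z.1) ∧ z.1 = p ∧ 1 ≤ z.2 := by
  obtain ⟨h1, h2⟩ := Multiset.mem_filter.1 h
  obtain ⟨y, hy, rfl⟩ := Multiset.mem_map.1 h1
  have h3 := mem_Pp.1 hy
  exact ⟨⟨y, h3.1, rfl⟩, h3.2, h2⟩

theorem sum_Pr (p : F[X]) (s : Multiset (F[X] × ℕ)) :
    ((Pr p s).map w).sum = (((Pp p s).map dec).map w).sum := by
  have h1 := Multiset.filter_add_not (fun z : F[X] × ℕ => 1 ≤ z.2) ((Pp p s).map dec)
  have h2 : (((((Pp p s).map dec)).filter fun z : F[X] × ℕ => ¬ 1 ≤ z.2).map w).sum = 0 := by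
    apply Multiset.sum_eq_zero
    intro x hx
    obtain ⟨z, hz, rfl⟩ := Multiset.mem_map.1 hx
    have h3 := (Multiset.mem_filter.1 hz).2
    have h4 : z.2 = 0 := by omega
    rw [w, h4, zero_mul]
  conv_rhs => rw [← h1]
  rw [Multiset.map_add, Multiset.sum_add, h2, add_zero]
  rfl

theorem sum_dec (p : F[X]) (s : Multiset (F[X] × ℕ)) (hs : ∀ z ∈ s, 1 ≤ z.2) :
    (((Pp p s).map dec).map w).sum + (Pp p s).card * p.natDegree = ((Pp p s).map w).sum := by
  have h1 : (Pp p s).map w = (Pp p s).map (fun z => w (dec z) + p.natDegree) := by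
    refine Multiset.map_congr rfl fun z hz => ?_
    have h2 := mem_Pp.1 hz
    have h3 := hs z h2.1
    have h4 : z.2 = (z.2 - 1) + 1 := by omega
    simp only [w, dec]
    rw [h2.2]
    conv_lhs => rw [h4]
    ring
  rw [h1, Multiset.sum_map_add, Multiset.map_map, Multiset.map_const', Multiset.sum_replicate,
    smul_eq_mul]
  rfl

theorem sum_red (p : F[X]) (s : Multiset (F[X] × ℕ)) (hs : ∀ z ∈ s, 1 ≤ z.2) :
    ((red p s).map w).sum + sp s p * p.natDegree = (s.map w).sum := by
  conv_rhs => rw [← add_eq p s]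
  rw [Multiset.map_add, Multiset.sum_add, ← sum_dec p s hs, red, Multiset.map_add,
    Multiset.sum_add, sum_Pr, sp_eq]
  ring

theorem red_Q (p : F[X]) (s : Multiset (F[X] × ℕ)) : Qp p (red p s) = Qp p s := by
  classical
  have h1 : Qp p (red p s) = (Qp p s).filter (fun z => ¬ z.1 = p) +
      (Pr p s).filter (fun z => ¬ z.1 = p) := by
    unfold Qp red
    rw [Multiset.filter_add]
    try rfl
  rw [h1, Multiset.filter_eq_self.2 (fun z hz => (mem_Qp.1 hz).2),
    Multiset.filter_eq_nil.2 (fun z hz h => h (mem_Pr hz).2.1), add_zero]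

theorem red_P (p : F[X]) (s : Multiset (F[X] × ℕ)) : Pp p (red p s) = Pr p s := by
  classical
  have h1 : Pp p (red p s) = (Qp p s).filter (fun z => z.1 = p) +
      (Pr p s).filter (fun z => z.1 = p) := by
    unfold Pp red
    rw [Multiset.filter_add]
    try rfl
  rw [h1, Multiset.filter_eq_self.2 (fun z hz => (mem_Pr hz).2.1),
    Multiset.filter_eq_nil.2 (fun z hz h => (mem_Qp.1 hz).2 h), zero_add]

theorem P_dec (p : F[X]) (s : Multiset (F[X] × ℕ)) :
    (Pp p s).map dec = Pr p s + Multiset.replicate ((Pp p s).card - (Pr p s).card) (p, 0) := by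
  have h1 := Multiset.filter_add_not (fun z : F[X] × ℕ => 1 ≤ z.2) ((Pp p s).map dec)
  have h2 : (((Pp p s).map dec)).filter (fun z : F[X] × ℕ => ¬ 1 ≤ z.2) =
      Multiset.replicate ((((Pp p s).map dec)).filter (fun z : F[X] × ℕ => ¬ 1 ≤ z.2)).card
        (p, 0) := by
    rw [Multiset.eq_replicate_card]
    intro z hz
    obtain ⟨h3, h4⟩ := Multiset.mem_filter.1 hz
    obtain ⟨y, hy, rfl⟩ := Multiset.mem_map.1 h3
    have h5 : (dec y).1 = p := (mem_Pp.1 hy).2
    have h6 : (dec y).2 = 0 := by omega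
    exact Prod.ext h5 h6
  have h3 := congrArg Multiset.card h1
  rw [Multiset.card_add, Multiset.card_map] at h3
  have h4 : ((((Pp p s).map dec)).filter (fun z : F[X] × ℕ => ¬ 1 ≤ z.2)).card =
      (Pp p s).card - (Pr p s).card := by
    have h5 : (Pr p s).card = (((Pp p s).map dec).filter fun z => 1 ≤ z.2).card := rfl
    omega
  rw [h4] at h2
  rw [← h2]
  exact h1.symm

theorem P_inc (p : F[X]) (s : Multiset (F[X] × ℕ)) (hs : ∀ z ∈ s, 1 ≤ z.2) :
    ((Pp p s).map dec).map inc = Pp p s := by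
  rw [Multiset.map_map]
  conv_rhs => rw [← Multiset.map_id (Pp p s)]
  refine Multiset.map_congr rfl fun z hz => ?_
  have h3 := hs z (mem_Pp.1 hz).1
  refine Prod.ext rfl ?_
  change z.2 - 1 + 1 = z.2
  omega

theorem red_inj (p : F[X]) {s t : Multiset (F[X] × ℕ)} (hs : ∀ z ∈ s, 1 ≤ z.2)
    (ht : ∀ z ∈ t, 1 ≤ z.2) (hc : sp s p = sp t p) (h : red p s = red p t) : s = t := by
  have h1 : Qp p s = Qp p t := by rw [← red_Q, h, red_Q]
  have h2 : Pr p s = Pr p t := by rw [← red_P, h, red_P]
  have h3 : (Pp p s).map dec = (Pp p t).map dec := by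
    rw [P_dec, P_dec, h2]
    rw [sp_eq, sp_eq] at hc
    rw [hc]
  have h4 : Pp p s = Pp p t := by rw [← P_inc p s hs, h3, P_inc p t ht]
  rw [← add_eq p s, ← add_eq p t, h1, h4]

end MR

open MR in
theorem t_MR : M_MR := by
  classical
  intro hMS F _ _ n r p hp hirr
  set q := Nat.card F with hq
  set d := p.natDegree with hd
  have hd1 : 1 ≤ d := hirr.natDegree_pos
  have hq2 : 2 ≤ q := by
    rw [hq]
    exact Finite.one_lt_card
  have hfin : Finite (MV F n) := (hMS F n).1
  -- the sum
  have hsum : ∀ s : MV F n, ((red p s.1).map w).sum + sp s.1 p * d = n := by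
    intro s
    rw [sum_red p s.1 (fun z hz => (s.2.1 z hz).2.2)]
    exact s.2.2
  -- the classes
  have hb : ∀ j, {s : MV F n | sp s.1 p = j}.ncard * q ^ (j * d) ≤ 4 * q ^ n := by
    intro j
    by_cases hj : j * d ≤ n
    · have h1 : Finite (MV F (n - j * d)) := (hMS F (n - j * d)).1
      have h2 : {s : MV F n | sp s.1 p = j}.ncard ≤ Nat.card (MV F (n - j * d)) := by
        rw [← Nat.card_coe_set_eq]
        refine Nat.card_le_card_of_injective (fun s : {s : MV F n | sp s.1 p = j} =>
          (⟨red p s.1.1, ?_, ?_⟩ : MV F (n - j * d))) ?_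
        · intro z hz
          rcases Multiset.mem_add.1 hz with hz | hz
          · exact s.1.2.1 z (mem_Qp.1 hz).1
          · obtain ⟨⟨y, hy, hyz⟩, -, h4⟩ := mem_Pr hz
            have h5 := s.1.2.1 y hy
            rw [hyz] at h5
            exact ⟨h5.1, h5.2.1, h4⟩
        · have h3 := hsum s.1
          have h4 : sp s.1.1 p = j := s.2
          rw [h4] at h3
          have h5 : ((red p s.1.1).map fun p => p.2 * p.1.natDegree).sum =
            ((red p s.1.1).map w).sum := rfl
          rw [h5]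
          omega
        · intro s t hst
          have h3 : red p s.1.1 = red p t.1.1 := congrArg Subtype.val hst
          have h4 : sp s.1.1 p = sp t.1.1 p := s.2.trans t.2.symm
          exact Subtype.ext (Subtype.ext (red_inj p (fun z hz => (s.1.2.1 z hz).2.2)
            (fun z hz => (t.1.2.1 z hz).2.2) h4 h3))
      have h3 := h2.trans (hMS F (n - j * d)).2
      calc {s : MV F n | sp s.1 p = j}.ncard * q ^ (j * d)
          ≤ (4 * q ^ (n - j * d)) * q ^ (j * d) := Nat.mul_le_mul_right _ h3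
        _ = 4 * q ^ n := by
            rw [mul_assoc, ← pow_add, Nat.sub_add_cancel hj]
    · have h1 : {s : MV F n | sp s.1 p = j} = ∅ := by
        rw [Set.eq_empty_iff_forall_notMem]
        intro s hs
        have h2 := hsum s
        have h3 : sp s.1 p = j := hs
        rw [h3] at h2
        omega
      rw [h1, Set.ncard_empty, zero_mul]
      exact Nat.zero_le _
  -- the tail
  have ha : ∀ k r, n + 1 ≤ r + k →
      {s : MV F n | r ≤ sp s.1 p}.ncard * q ^ (r * d) ≤ 8 * q ^ n := by
    intro k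
    induction k with
    | zero =>
      intro r hr
      have h1 : {s : MV F n | r ≤ sp s.1 p} = ∅ := by
        rw [Set.eq_empty_iff_forall_notMem]
        intro s hs
        have h2 := hsum s
        have h3 : r ≤ sp s.1 p := hs
        have h4 : sp s.1 p * 1 ≤ sp s.1 p * d := Nat.mul_le_mul_left _ hd1
        omega
      rw [h1, Set.ncard_empty, zero_mul]
      exact Nat.zero_le _
    | succ k ih =>
      intro r hr
      have h1 := ih (r + 1) (by omega)
      have h2 := hb r
      have h3 : {s : MV F n | r ≤ sp s.1 p}.ncard ≤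
          {s : MV F n | sp s.1 p = r}.ncard + {s : MV F n | r + 1 ≤ sp s.1 p}.ncard := by
        refine (Set.ncard_le_ncard (t := {s : MV F n | sp s.1 p = r} ∪
          {s : MV F n | r + 1 ≤ sp s.1 p}) ?_ (Set.toFinite _)).trans (Set.ncard_union_le _ _)
        intro s hs
        have h4 : r ≤ sp s.1 p := hs
        rcases Nat.eq_or_lt_of_le h4 with h5 | h5
        · exact Or.inl h5.symm
        · exact Or.inr h5
      have h4 : 2 ≤ q ^ d := hq2.trans (Nat.le_self_pow (by omega) q)
      have h5 : {s : MV F n | r + 1 ≤ sp s.1 p}.ncard * q ^ (r * d) * 2 ≤ 8 * q ^ n := by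
        refine le_trans ?_ h1
        have e : q ^ ((r + 1) * d) = q ^ (r * d) * q ^ d := by rw [← pow_add]; congr 1; ring
        rw [e, ← mul_assoc]
        exact Nat.mul_le_mul_left _ h4
      have h6 : {s : MV F n | r ≤ sp s.1 p}.ncard * q ^ (r * d) ≤
          {s : MV F n | sp s.1 p = r}.ncard * q ^ (r * d) +
          {s : MV F n | r + 1 ≤ sp s.1 p}.ncard * q ^ (r * d) := by
        rw [← add_mul]
        exact Nat.mul_le_mul_right _ h3
      omega
  have h1 := ha (n + 1) r (by omega)
  rw [← Nat.card_coe_set_eq] at h1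
  exact h1

end

end RSF
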