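import Pool.Agent.RSF.Stmts3
import Pool.Agent.RSF.KB

/-!
# Module MS: the number of multisets

The multisets of pairs `(p, e)` inject into the sequences of monic polynomials of `S_KC`.
-/

namespace RSF

open Polynomial

noncomputable section

namespace MS

/-- the target -/
abbrev Tg (F : Type) [Field F] (n : ℕ) : Type :=
  {h : Fin n → F[X] // (∀ i, (h i).Monic) ∧ ∑ i, (i.val + 1) * (h i).natDegree = n}

/-- the map to the sequences -/
def f {F : Type} [Field F] {n : ℕ} (s : MV F n) : Tg F n :=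
  ⟨fun i => KB.hh s.1 (i.val + 1), fun _ => KB.hh_monic s.2.1 _, KB.sum_eq s.2.1 s.2.2⟩

theorem f_inj {F : Type} [Field F] {n : ℕ} : Function.Injective (f : MV F n → Tg F n) := by
  classical
  intro s s' e
  have e1 : ∀ i : Fin n, KB.hh s.1 (i.val + 1) = KB.hh s'.1 (i.val + 1) :=
    fun i => congrFun (congrArg Subtype.val e) i
  apply Subtype.ext
  ext ⟨p, k⟩
  by_cases hk : 1 ≤ k ∧ k ≤ n
  · rw [← KB.count_part, ← KB.count_part, ← KB.part_eq s.2.1, ← KB.part_eq s'.2.1]
    have h := e1 ⟨k - 1, by omega⟩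
    simp only at h
    rw [show k - 1 + 1 = k by omega] at h
    rw [h]
  · have h0 : ∀ s : MV F n, (p, k) ∉ s.1 := fun s hA =>
      hk ⟨(s.2.1 _ hA).2.2, KB.exp_le s.2.1 s.2.2 _ hA⟩
    rw [Multiset.count_eq_zero_of_notMem (h0 s), Multiset.count_eq_zero_of_notMem (h0 s')]

end MS

theorem t_MS : M_MS := by
  intro hKC F _ _ n
  have hf : Finite (MS.Tg F n) := KB.fin F n
  refine ⟨Finite.of_injective _ (MS.f_inj (F := F) (n := n)), ?_⟩
  exact (Nat.card_le_card_of_injective _ (MS.f_inj (F := F) (n := n))).trans (hKC F n)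

end

end RSF
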