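import Pool.Agent.RSF.Stmts2

/-!
# The number of representations of a matrix as a commutator and as a product of two squares

Module `NL` of `Pool/Agent/RSF/PAPER.md`, part 2.
-/

namespace RSF

open Polynomial

namespace NL

noncomputable section

/-! ## Counting -/

theorem fib {α β : Type} [Finite α] [Finite β] (P : α → Prop) (Q : α → β → Prop) (M : ℝ)
    (h : ∀ a, P a → M ≤ Nat.card {b // Q a b}) :
    (Nat.card {a // P a} : ℝ) * M ≤ Nat.card {p : α × β // P p.1 ∧ Q p.1 p.2} := by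
  classical
  letI := Fintype.ofFinite α
  letI := Fintype.ofFinite β
  let e : {p : α × β // P p.1 ∧ Q p.1 p.2} ≃ Σ a : {a // P a}, {b // Q a.1 b} :=
    { toFun := fun p => ⟨⟨p.1.1, p.2.1⟩, ⟨p.1.2, p.2.2⟩⟩
      invFun := fun x => ⟨(x.1.1, x.2.1), x.1.2, x.2.2⟩
      left_inv := fun p => rfl
      right_inv := fun x => rfl }
  rw [Nat.card_congr e, Nat.card_sigma]
  push_cast
  calc (Nat.card {a // P a} : ℝ) * M = ∑ a : {a // P a}, M := by
        simp [Nat.card_eq_fintype_card]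
    _ ≤ _ := Finset.sum_le_sum fun a _ => h a.1 a.2

/-! ## The polynomials `rp s` -/

section poly

variable {F : Type} [Field F]

theorem rp_monic (s : Finset F) : (rp s).Monic :=
  monic_prod_of_monic _ _ fun b _ => monic_X_sub_C b

theorem rp_natDegree (s : Finset F) : (rp s).natDegree = s.card := by
  unfold rp
  rw [natDegree_prod_of_monic _ _ fun b _ => monic_X_sub_C b]
  simp

theorem rp_eval {s : Finset F} {b : F} (hb : b ∈ s) : (rp s).eval b = 0 := by
  unfold rp
  rw [eval_prod]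
  exact Finset.prod_eq_zero hb (by simp)

theorem rp_inj {s s' : Finset F} (h : rp s = rp s') : s = s' := by
  have h1 : (rp s).roots = s.val := roots_prod_X_sub_C s
  have h2 : (rp s').roots = s'.val := roots_prod_X_sub_C s'
  apply Finset.val_injective
  rw [← h1, ← h2, h]

theorem eq_rp (p : F[X]) (s : Finset F) (hp : p.Monic) (hd : p.natDegree = s.card)
    (h : ∀ b ∈ s, p.eval b = 0) : p = rp s := by
  rcases Nat.eq_zero_or_pos s.card with h0 | h0
  · have hs : s = ∅ := Finset.card_eq_zero.1 h0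
    subst hs
    have : p.natDegree = 0 := by simpa using hd
    have h1 : p = 1 := eq_one_of_monic_natDegree_zero hp this
    simp [h1, rp]
  · have hdeg : p.degree = (rp s).degree := by
      rw [degree_eq_natDegree hp.ne_zero, degree_eq_natDegree (rp_monic s).ne_zero, hd,
        rp_natDegree]
    apply eq_of_degree_sub_lt_of_eval_finset_eq s
    · refine lt_of_lt_of_le (degree_sub_lt_left hdeg hp.ne_zero ?_) ?_
      · rw [hp.leadingCoeff, (rp_monic s).leadingCoeff]
      · rw [degree_eq_natDegree hp.ne_zero, hd]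
    · intro x hx
      rw [h x hx, rp_eval hx]

theorem rp_zero (s : Finset F) : (rp s).coeff 0 = (-1) ^ s.card * ∏ b ∈ s, b := by
  unfold rp
  rw [coeff_zero_eq_eval_zero, eval_prod]
  simp only [eval_sub, eval_X, eval_C, zero_sub]
  rw [Finset.prod_neg]

end poly

/-! ## Matrices with given characteristic polynomial -/

section mat

variable {F : Type} [Field F] {n : ℕ}

theorem det_of (B : Matrix (Fin n) (Fin n) F) (s : Finset F) (hs : s.card = n)
    (h1 : ∏ b ∈ s, b = 1) (h : B.charpoly = rp s) : B.det = 1 := by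
  rw [Matrix.det_eq_sign_charpoly_coeff, h, rp_zero, hs, h1, Fintype.card_fin, mul_one,
    ← mul_pow]
  simp

theorem charpoly_inv' [DecidableEq F] (B : Matrix (Fin n) (Fin n) F) (s : Finset F)
    (hs : s.card = n) (h0 : (0 : F) ∉ s) (h1 : ∏ b ∈ s, b = 1) (h : B.charpoly = rp s) :
    B⁻¹.charpoly = rp (s.image fun b => b⁻¹) := by
  have hcard : (s.image fun b => b⁻¹).card = n := by
    rw [Finset.card_image_of_injective _ inv_injective, hs]
  have hdet : B.det = 1 := det_of B s hs h1 h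
  have hu : IsUnit B.det := by rw [hdet]; exact isUnit_one
  apply eq_rp _ _ (Matrix.charpoly_monic _)
  · rw [Matrix.charpoly_natDegree_eq_dim, Fintype.card_fin, hcard]
  · intro c hc
    obtain ⟨b, hb, rfl⟩ := Finset.mem_image.1 hc
    have hb0 : b ≠ 0 := fun hh => h0 (hh ▸ hb)
    have hev : (Matrix.scalar (Fin n) b - B).det = 0 := by
      rw [← Matrix.eval_charpoly, h, rp_eval hb]
    rw [Matrix.eval_charpoly]
    have hmul : B * (Matrix.scalar (Fin n) b⁻¹ - B⁻¹) =
        (-b⁻¹) • (Matrix.scalar (Fin n) b - B) := by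
      rw [mul_sub, Matrix.mul_nonsing_inv B hu, smul_sub, neg_smul, neg_smul, sub_neg_eq_add]
      have e1 : B * Matrix.scalar (Fin n) b⁻¹ = b⁻¹ • B := by
        rw [Matrix.scalar_apply, ← Matrix.smul_one_eq_diagonal, mul_smul_comm, mul_one]
      have e2 : b⁻¹ • Matrix.scalar (Fin n) b = (1 : Matrix (Fin n) (Fin n) F) := by
        rw [Matrix.scalar_apply, ← Matrix.smul_one_eq_diagonal, smul_smul, inv_mul_cancel₀ hb0,
          one_smul]
      rw [e1, e2]
      abel
    have h2 : B.det * (Matrix.scalar (Fin n) b⁻¹ - B⁻¹).det = 0 := by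
      rw [← Matrix.det_mul, hmul, Matrix.det_smul, hev, mul_zero]
    rw [hdet, one_mul] at h2
    exact h2

end mat

/-! ## The number of factorisations -/

/-- `s` has `n` elements, not `0`, with product `1` -/
def Gd {F : Type} [Field F] (n : ℕ) (s : Finset F) : Prop :=
  s.card = n ∧ (0 : F) ∉ s ∧ ∏ b ∈ s, b = 1

theorem Gd.inv {F : Type} [Field F] [DecidableEq F] {n : ℕ} {s : Finset F} (h : Gd n s) :
    Gd n (s.image fun b => b⁻¹) := by
  obtain ⟨h1, h2, h3⟩ := h
  refine ⟨?_, ?_, ?_⟩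
  · rw [Finset.card_image_of_injective _ inv_injective, h1]
  · intro h0
    obtain ⟨b, hb, hb'⟩ := Finset.mem_image.1 h0
    exact h2 (inv_eq_zero.1 hb' ▸ hb)
  · rw [Finset.prod_image fun a _ b _ h => inv_injective h, Finset.prod_inv_distrib, h3, inv_one]

/-- the factorisations with given characteristic polynomials -/
def ZZ {F : Type} [Field F] {n : ℕ} (A : Matrix (Fin n) (Fin n) F) (s s' : Finset F)
    (z : Matrix (Fin n) (Fin n) F × Matrix (Fin n) (Fin n) F) : Prop :=
  z.1 * z.2 = A ∧ z.1.charpoly = rp s ∧ z.2.charpoly = rp s'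

theorem ns_of {F : Type} [Field F] {n : ℕ} (A : Matrix (Fin n) (Fin n) F)
    (hA : ¬ ∃ μ : F, A = Matrix.scalar (Fin n) μ) : NS (Matrix.toLin' A) := by
  rintro ⟨μ, hμ⟩
  apply hA
  refine ⟨μ, ?_⟩
  apply Matrix.toLin'.injective
  apply LinearMap.ext
  intro v
  rw [hμ v, Matrix.scalar_apply, ← Matrix.smul_one_eq_diagonal, map_smul, Matrix.toLin'_one]
  simp

theorem card_ZZ (hXN : S_XN) {F : Type} [Field F] [Finite F] {n : ℕ} (hn : 2 ≤ n)
    (hq : 12 ≤ Nat.card F)
    (A : Matrix (Fin n) (Fin n) F) (hA : ¬ ∃ μ : F, A = Matrix.scalar (Fin n) μ)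
    (hdet : A.det = 1) (s s' : Finset F) (hs : Gd n s) (hs' : Gd n s') :
    (Nat.card F : ℝ) ^ (n * (n - 1)) * (1 - 11 / (Nat.card F : ℝ)) ^ (n - 1) ≤
      ((Nat.card F : ℝ) - 1) ^ (n - 1) * Nat.card {z // ZZ A s s' z} := by
  have hfr : Module.finrank F (Fin n → F) = n := by simp
  have h := hXN F (Fin n → F) (Matrix.toLin' A) s s' hq (by rw [hfr]; omega)
    (by rw [hfr]; exact hs.1) (by rw [hfr]; exact hs'.1) hs.2.1 hs'.2.1
    (by rw [LinearMap.det_toLin', hdet, hs.2.2, hs'.2.2, one_mul]) (fun _ => ns_of A hA)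
  rw [hfr] at h
  refine h.trans ?_
  have hq1 : (0 : ℝ) ≤ ((Nat.card F : ℝ) - 1) ^ (n - 1) := by
    apply pow_nonneg
    have : (12 : ℝ) ≤ Nat.card F := by exact_mod_cast hq
    linarith
  apply mul_le_mul_of_nonneg_left _ hq1
  have : XX F (Fin n → F) (Matrix.toLin' A) (rp s) (rp s') ≤ Nat.card {z // ZZ A s s' z} := by
    unfold XX
    let φ : {z : Module.End F (Fin n → F) × Module.End F (Fin n → F) //
        z.1 * z.2 = Matrix.toLin' A ∧ z.1.charpoly = rp s ∧ z.2.charpoly = rp s'} →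
        {z // ZZ A s s' z} := fun z =>
      ⟨(LinearMap.toMatrix' z.1.1, LinearMap.toMatrix' z.1.2), by
        obtain ⟨⟨z1, z2⟩, h1, h2, h3⟩ := z
        refine ⟨?_, ?_, ?_⟩
        · show LinearMap.toMatrix' z1 * LinearMap.toMatrix' z2 = A
          rw [← LinearMap.toMatrix'_mul]
          have h1' : z1 * z2 = Matrix.toLin' A := h1
          rw [h1', LinearMap.toMatrix'_toLin']
        · show (LinearMap.toMatrix' z1).charpoly = rp s
          rw [← Matrix.charpoly_toLin', Matrix.toLin'_toMatrix']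
          exact h2
        · show (LinearMap.toMatrix' z2).charpoly = rp s'
          rw [← Matrix.charpoly_toLin', Matrix.toLin'_toMatrix']
          exact h3⟩
    apply Nat.card_le_card_of_injective φ
    rintro ⟨⟨z1, z2⟩, hz⟩ ⟨⟨w1, w2⟩, hw⟩ hzw
    have h1 := congrArg Subtype.val hzw
    have h2 : LinearMap.toMatrix' z1 = LinearMap.toMatrix' w1 := congrArg Prod.fst h1
    have h3 : LinearMap.toMatrix' z2 = LinearMap.toMatrix' w2 := congrArg Prod.snd h1
    have h4 := LinearMap.toMatrix'.injective h2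
    have h5 := LinearMap.toMatrix'.injective h3
    subst h4
    subst h5
    rfl
  exact_mod_cast this

/-! ## The order of `SL_n` -/

theorem card_SL_le {F : Type} [Field F] [Finite F] {n : ℕ} (hn : 1 ≤ n) :
    (Nat.card (Matrix.SpecialLinearGroup (Fin n) F) : ℝ) * ((Nat.card F : ℝ) - 1) ≤
      (Nat.card F : ℝ) ^ (n * n) := by
  classical
  have hpos : 1 ≤ Nat.card F := Nat.card_pos
  have key : Nat.card (Fˣ × Matrix.SpecialLinearGroup (Fin n) F) ≤
      Nat.card (Matrix (Fin n) (Fin n) F) := by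
    let i0 : Fin n := ⟨0, hn⟩
    let D : Fˣ → Matrix (Fin n) (Fin n) F := fun u =>
      Matrix.diagonal fun i => if i = i0 then (u : F) else 1
    have hD : ∀ u, (D u).det = (u : F) := by
      intro u
      show (Matrix.diagonal fun i => if i = i0 then (u : F) else 1).det = _
      rw [Matrix.det_diagonal, Finset.prod_ite_eq' Finset.univ i0 (fun _ => (u : F))]
      simp
    apply Nat.card_le_card_of_injective fun p : Fˣ × Matrix.SpecialLinearGroup (Fin n) F =>
      D p.1 * p.2.1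
    rintro ⟨u, S⟩ ⟨v, T⟩ h
    have h' : D u * S.1 = D v * T.1 := h
    have huv : u = v := by
      have := congrArg Matrix.det h'
      rw [Matrix.det_mul, Matrix.det_mul, hD, hD, S.2, T.2, mul_one, mul_one] at this
      exact Units.ext this
    subst huv
    have hun : IsUnit (D u).det := by rw [hD]; exact u.isUnit
    have hST : S.1 = T.1 := by
      have h2 := congrArg (fun M => (D u)⁻¹ * M) h'
      simp only [← mul_assoc, Matrix.nonsing_inv_mul _ hun, one_mul] at h2
      exact h2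
    have : S = T := Subtype.ext hST
    rw [this]
  have hM : Nat.card (Matrix (Fin n) (Fin n) F) = Nat.card F ^ (n * n) := by
    show Nat.card (Fin n → Fin n → F) = _
    rw [Nat.card_fun, Nat.card_fun, Nat.card_fin, ← pow_mul]
  rw [Nat.card_prod, Nat.card_units, hM] at key
  have key' : ((Nat.card F - 1 : ℕ) : ℝ) * Nat.card (Matrix.SpecialLinearGroup (Fin n) F) ≤
      (Nat.card F : ℝ) ^ (n * n) := by exact_mod_cast key
  rw [Nat.cast_sub hpos] at key'
  push_cast at key'
  linarith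

/-! ## The numerical inequality -/

theorem num (q : ℝ) (n : ℕ) (hn : 2 ≤ n) (hq : 100 * (n : ℝ) ^ 2 ≤ q) :
    q ^ n ≤ 4 * (q - 1) ^ n * (1 - 11 / q) ^ (n - 1) := by
  have hn' : (2 : ℝ) ≤ n := by exact_mod_cast hn
  have hq0 : (400 : ℝ) ≤ q := by nlinarith
  have hqpos : (0 : ℝ) < q := by linarith
  have hn2 : (n : ℝ) * 100 ≤ q := by nlinarith
  have e1 : (1 : ℝ) / 2 ≤ (1 - 1 / q) ^ n := by
    have hb := one_add_mul_le_pow (a := -(1 / q)) (by
      have : 1 / q ≤ 1 := by rw [div_le_one hqpos]; linarith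
      linarith) n
    have h2 : (n : ℝ) * (1 / q) ≤ 1 / 100 := by
      rw [mul_one_div, div_le_div_iff₀ hqpos (by norm_num)]
      linarith
    have h3 : (1 : ℝ) + -(1 / q) = 1 - 1 / q := by ring
    rw [h3] at hb
    linarith
  have e2 : (1 : ℝ) / 2 ≤ (1 - 11 / q) ^ (n - 1) := by
    have hb := one_add_mul_le_pow (a := -(11 / q)) (by
      have : 11 / q ≤ 1 := by rw [div_le_one hqpos]; linarith
      linarith) (n - 1)
    have hn1 : ((n - 1 : ℕ) : ℝ) ≤ n := by exact_mod_cast Nat.sub_le n 1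
    have h2 : ((n - 1 : ℕ) : ℝ) * (11 / q) ≤ 11 / 100 := by
      rw [mul_div_assoc', div_le_div_iff₀ hqpos (by norm_num)]
      nlinarith
    have h3 : (1 : ℝ) + -(11 / q) = 1 - 11 / q := by ring
    rw [h3] at hb
    linarith
  have e3 : (q - 1) ^ n = q ^ n * (1 - 1 / q) ^ n := by
    rw [← mul_pow]
    congr 1
    field_simp
  rw [e3]
  have hqn : 0 < q ^ n := pow_pos hqpos n
  have e4 : (1 : ℝ) / 4 ≤ (1 - 1 / q) ^ n * (1 - 11 / q) ^ (n - 1) := by
    have := mul_le_mul e1 e2 (by norm_num) (by linarith)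
    linarith
  nlinarith

/-! ## The count of the triples -/

theorem count (hXN : S_XN) (hBE : S_BE) {F : Type} [Field F] [Finite F] {n : ℕ} (hn : 2 ≤ n)
    (hq : 100 * n ^ 2 ≤ Nat.card F)
    (A : Matrix (Fin n) (Fin n) F) (hA : ¬ ∃ μ : F, A = Matrix.scalar (Fin n) μ)
    (hdet : A.det = 1) (f : Finset F → Finset F) (hf : ∀ s, Gd n s → Gd n (f s))
    (R : Matrix (Fin n) (Fin n) F × Matrix (Fin n) (Fin n) F →
      Matrix.SpecialLinearGroup (Fin n) F → Prop)
    (hR : ∀ s z, Gd n s → ZZ A s (f s) z →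
      (Nat.card F - 1) ^ (n - 1) ≤ Nat.card {S // R z S}) :
    Nat.card (Matrix.SpecialLinearGroup (Fin n) F) ≤ 8 * n.factorial *
      Nat.card {w : (Finset F × (Matrix (Fin n) (Fin n) F × Matrix (Fin n) (Fin n) F)) ×
        Matrix.SpecialLinearGroup (Fin n) F //
        (Gd n w.1.1 ∧ ZZ A w.1.1 (f w.1.1) w.1.2) ∧ R w.1.2 w.2} := by
  classical
  have hpos : 1 ≤ Nat.card F := Nat.card_pos
  have hn2 : 4 ≤ n ^ 2 := by nlinarith
  have hq12 : 12 ≤ Nat.card F := by nlinarith
  have hqR : 100 * (n : ℝ) ^ 2 ≤ (Nat.card F : ℝ) := by exact_mod_cast hq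
  have hq12R : (12 : ℝ) ≤ (Nat.card F : ℝ) := by exact_mod_cast hq12
  have hBE' := hBE F n (by omega) (by nlinarith)
  have hsub : ((Nat.card F - 1 : ℕ) : ℝ) = (Nat.card F : ℝ) - 1 := by
    rw [Nat.cast_sub hpos]
    push_cast
    ring
  have : Finite (Matrix (Fin n) (Fin n) F) := by
    show Finite (Fin n → Fin n → F)
    infer_instance
  have : Finite (Finset F) := by
    letI := Fintype.ofFinite F
    infer_instance
  -- first step
  have s1 : (Nat.card {s : Finset F // Gd n s} : ℝ) *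
      ((Nat.card F : ℝ) ^ (n * (n - 1)) * (1 - 11 / (Nat.card F : ℝ)) ^ (n - 1) /
        ((Nat.card F : ℝ) - 1) ^ (n - 1)) ≤
      Nat.card {p : Finset F × (Matrix (Fin n) (Fin n) F × Matrix (Fin n) (Fin n) F) //
        Gd n p.1 ∧ ZZ A p.1 (f p.1) p.2} := by
    apply fib (fun s => Gd n s) (fun s z => ZZ A s (f s) z)
    intro s hs
    have h := card_ZZ hXN hn hq12 A hA hdet s (f s) hs (hf s hs)
    have hp : (0 : ℝ) < ((Nat.card F : ℝ) - 1) ^ (n - 1) := pow_pos (by linarith) _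
    rw [div_le_iff₀ hp]
    linarith
  have s2 := fib (fun p : Finset F × (Matrix (Fin n) (Fin n) F × Matrix (Fin n) (Fin n) F) =>
      Gd n p.1 ∧ ZZ A p.1 (f p.1) p.2) (fun p S => R p.2 S) (((Nat.card F : ℝ) - 1) ^ (n - 1))
    (by
      intro p hp
      have h := hR p.1 p.2 hp.1 hp.2
      have h' : (((Nat.card F - 1) ^ (n - 1) : ℕ) : ℝ) ≤ Nat.card {S // R p.2 S} := by
        exact_mod_cast h
      rw [Nat.cast_pow, hsub] at h'
      exact h')
  set K : ℝ := ((Nat.card {w : (Finset F × (Matrix (Fin n) (Fin n) F ×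
        Matrix (Fin n) (Fin n) F)) × Matrix.SpecialLinearGroup (Fin n) F //
        (Gd n w.1.1 ∧ ZZ A w.1.1 (f w.1.1) w.1.2) ∧ R w.1.2 w.2} : ℕ) : ℝ) with hK
  set K1 : ℝ := ((Nat.card {p : Finset F × (Matrix (Fin n) (Fin n) F ×
        Matrix (Fin n) (Fin n) F) // Gd n p.1 ∧ ZZ A p.1 (f p.1) p.2} : ℕ) : ℝ) with hK1
  have hBE'' : ((Nat.card F : ℝ) - 1) ^ (n - 1) ≤
      2 * (n.factorial : ℝ) * (Nat.card {s : Finset F // Gd n s} : ℝ) := hBE'
  set Ks : ℝ := ((Nat.card {s : Finset F // Gd n s} : ℕ) : ℝ) with hKs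
  have hSL := card_SL_le (F := F) (n := n) (by omega)
  have hnum := num (Nat.card F : ℝ) n hn hqR
  set q : ℝ := (Nat.card F : ℝ) with hqdef
  set P : ℝ := (q - 1) ^ (n - 1) with hP
  set E : ℝ := (1 - 11 / q) ^ (n - 1) with hE
  have hq1 : 0 < q - 1 := by linarith
  have hPpos : 0 < P := pow_pos hq1 _
  have hqpos : 0 < q := by linarith
  have hEpos : 0 ≤ E := by
    apply pow_nonneg
    have : 11 / q ≤ 1 := by rw [div_le_one hqpos]; linarith
    linarith
  have hfac : (0 : ℝ) < n.factorial := by exact_mod_cast n.factorial_pos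
  have hQ : 0 < q ^ (n * (n - 1)) := pow_pos hqpos _
  -- combine
  have c1 : Ks * (q ^ (n * (n - 1)) * E) ≤ K := by
    have h1 : Ks * (q ^ (n * (n - 1)) * E / P) * P ≤ K1 * P :=
      mul_le_mul_of_nonneg_right s1 hPpos.le
    have h2 : Ks * (q ^ (n * (n - 1)) * E / P) * P = Ks * (q ^ (n * (n - 1)) * E) := by
      field_simp
    linarith
  have c2 : P * (q ^ (n * (n - 1)) * E) ≤ 2 * (n.factorial : ℝ) * K := by
    have h1 := mul_le_mul_of_nonneg_right hBE'' (mul_nonneg hQ.le hEpos)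
    have h2 := mul_le_mul_of_nonneg_left c1 (by positivity : (0 : ℝ) ≤ 2 * (n.factorial : ℝ))
    calc P * (q ^ (n * (n - 1)) * E) ≤ 2 * (n.factorial : ℝ) * Ks * (q ^ (n * (n - 1)) * E) := h1
      _ = 2 * (n.factorial : ℝ) * (Ks * (q ^ (n * (n - 1)) * E)) := by ring
      _ ≤ _ := h2
  have hnn : n * n = n * (n - 1) + n := by
    obtain ⟨m, rfl⟩ : ∃ m, n = m + 1 := ⟨n - 1, by omega⟩
    simp only [Nat.add_sub_cancel]
    ring
  have hPn : (q - 1) ^ n = P * (q - 1) := by
    rw [hP, ← pow_succ]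
    congr 1
    omega
  have c3 : (Nat.card (Matrix.SpecialLinearGroup (Fin n) F) : ℝ) * (q - 1) ≤
      (8 * (n.factorial : ℝ) * K) * (q - 1) := by
    calc (Nat.card (Matrix.SpecialLinearGroup (Fin n) F) : ℝ) * (q - 1) ≤ q ^ (n * n) := hSL
      _ = q ^ (n * (n - 1)) * q ^ n := by rw [hnn, pow_add]
      _ ≤ q ^ (n * (n - 1)) * (4 * (q - 1) ^ n * E) := mul_le_mul_of_nonneg_left hnum hQ.le
      _ = 4 * (P * (q ^ (n * (n - 1)) * E)) * (q - 1) := by rw [hPn]; ring
      _ ≤ 4 * (2 * (n.factorial : ℝ) * K) * (q - 1) := by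
        apply mul_le_mul_of_nonneg_right _ hq1.le
        linarith
      _ = _ := by ring
  have c4 := le_of_mul_le_mul_right c3 hq1
  rw [hK] at c4
  exact_mod_cast c4

end

end NL

theorem t_NL : M_NL := by
  classical
  intro hXN hBE hTC F _ _ n hn hq A hA
  have : Finite (Matrix (Fin n) (Fin n) F) := by
    show Finite (Fin n → Fin n → F)
    infer_instance
  constructor
  · -- commutators: `a = B`, `b = S`, `S B⁻¹ = C S`
    have hc := NL.count hXN hBE hn hq A.1 hA A.2 (fun s => s.image fun b => b⁻¹)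
      (fun s hs => hs.inv) (fun z S => S.1 * z.1⁻¹ = z.2 * S.1)
      (by
        intro s z hs hz
        exact hTC F n (s.image fun b => b⁻¹) (by omega) hs.inv.1 hs.inv.2.1 z.1⁻¹ z.2
          (NL.charpoly_inv' z.1 s hs.1 hs.2.1 hs.2.2 hz.2.1) hz.2.2)
    refine hc.trans (Nat.mul_le_mul_left _ ?_)
    apply Nat.card_le_card_of_injective (fun w : {w : (Finset F × (Matrix (Fin n) (Fin n) F ×
        Matrix (Fin n) (Fin n) F)) × Matrix.SpecialLinearGroup (Fin n) F //
        (NL.Gd n w.1.1 ∧ NL.ZZ A.1 w.1.1 (w.1.1.image fun b => b⁻¹) w.1.2) ∧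
          w.2.1 * w.1.2.1⁻¹ = w.1.2.2 * w.2.1} =>
      (⟨(⟨w.1.1.2.1, NL.det_of _ w.1.1.1 w.2.1.1.1 w.2.1.1.2.2 w.2.1.2.2.1⟩, w.1.2), by
        obtain ⟨⟨⟨s, B, C⟩, S⟩, ⟨hs, hz⟩, hS⟩ := w
        have hB : B.det = 1 := NL.det_of _ s hs.1 hs.2.2 hz.2.1
        have hu : IsUnit B.det := by rw [hB]; exact isUnit_one
        have hBC : B * C = A.1 := hz.1
        have hS' : S.1 * B⁻¹ = C * S.1 := hS
        have key : ∀ b : Matrix.SpecialLinearGroup (Fin n) F, b.1 = B →
            b * S * b⁻¹ * S⁻¹ = A := by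
          intro b hb
          rw [mul_inv_eq_iff_eq_mul, mul_inv_eq_iff_eq_mul]
          apply Subtype.ext
          show b.1 * S.1 = A.1 * S.1 * b.1
          rw [hb, ← hBC, mul_assoc B C S.1, ← hS', mul_assoc B, mul_assoc S.1,
            Matrix.nonsing_inv_mul _ hu, mul_one]
        exact key ⟨B, hB⟩ rfl⟩ :
        {p : Matrix.SpecialLinearGroup (Fin n) F × Matrix.SpecialLinearGroup (Fin n) F //
          p.1 * p.2 * p.1⁻¹ * p.2⁻¹ = A}))
    rintro ⟨⟨⟨s, B, C⟩, S⟩, ⟨hs, hz⟩, hS⟩ ⟨⟨⟨s', B', C'⟩, S'⟩, ⟨hs', hz'⟩, hS'⟩ h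
    have h1 := congrArg Subtype.val h
    have h2 : S = S' := congrArg Prod.snd h1
    have h3 : B = B' := congrArg Subtype.val (congrArg Prod.fst h1)
    subst h2
    subst h3
    have hss : s = s' := NL.rp_inj (hz.2.1.symm.trans hz'.2.1)
    subst hss
    have hB : B.det = 1 := NL.det_of _ s hs.1 hs.2.2 hz.2.1
    have hu : IsUnit B.det := by rw [hB]; exact isUnit_one
    have hCC : C = C' := by
      have e : B * C = B * C' := hz.1.trans hz'.1.symm
      have e2 := congrArg (fun M => B⁻¹ * M) e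
      simp only [← mul_assoc, Matrix.nonsing_inv_mul _ hu, one_mul] at e2
      exact e2
    subst hCC
    rfl
  · -- squares: `a = S`, `b = S⁻¹ C`, `S C = B S`
    have hc := NL.count hXN hBE hn hq A.1 hA A.2 (fun s => s)
      (fun s hs => hs) (fun z S => S.1 * z.2 = z.1 * S.1)
      (by
        intro s z hs hz
        exact hTC F n s (by omega) hs.1 hs.2.1 z.2 z.1 hz.2.2 hz.2.1)
    refine hc.trans (Nat.mul_le_mul_left _ ?_)
    apply Nat.card_le_card_of_injective (fun w : {w : (Finset F × (Matrix (Fin n) (Fin n) F ×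
        Matrix (Fin n) (Fin n) F)) × Matrix.SpecialLinearGroup (Fin n) F //
        (NL.Gd n w.1.1 ∧ NL.ZZ A.1 w.1.1 w.1.1 w.1.2) ∧
          w.2.1 * w.1.2.2 = w.1.2.1 * w.2.1} =>
      (⟨(w.1.2, w.1.2⁻¹ * ⟨w.1.1.2.2, NL.det_of _ w.1.1.1 w.2.1.1.1 w.2.1.1.2.2 w.2.1.2.2.2⟩), by
        obtain ⟨⟨⟨s, B, C⟩, S⟩, ⟨hs, hz⟩, hS⟩ := w
        have hB : B.det = 1 := NL.det_of _ s hs.1 hs.2.2 hz.2.1
        have hC : C.det = 1 := NL.det_of _ s hs.1 hs.2.2 hz.2.2
        have key : ∀ b c : Matrix.SpecialLinearGroup (Fin n) F, b.1 = B → c.1 = C →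
            S ^ 2 * (S⁻¹ * c) ^ 2 = A := by
          intro b c hb hc
          have hBC : b * c = A := by
            apply Subtype.ext
            show b.1 * c.1 = A.1
            rw [hb, hc]
            exact hz.1
          have hSC : S * c = b * S := by
            apply Subtype.ext
            show S.1 * c.1 = b.1 * S.1
            rw [hb, hc]
            exact hS
          have e1 : S ^ 2 * (S⁻¹ * c) ^ 2 = S * c * S⁻¹ * c := by
            simp only [pow_two]
            group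
          rw [e1, hSC, mul_assoc b S, mul_inv_cancel, mul_one, hBC]
        exact key ⟨B, hB⟩ ⟨C, hC⟩ rfl rfl⟩ :
        {p : Matrix.SpecialLinearGroup (Fin n) F × Matrix.SpecialLinearGroup (Fin n) F //
          p.1 ^ 2 * p.2 ^ 2 = A}))
    rintro ⟨⟨⟨s, B, C⟩, S⟩, ⟨hs, hz⟩, hS⟩ ⟨⟨⟨s', B', C'⟩, S'⟩, ⟨hs', hz'⟩, hS'⟩ h
    have h1 := congrArg Subtype.val h
    have h2 : S = S' := congrArg Prod.fst h1
    subst h2
    have h3 := congrArg Prod.snd h1
    have h4 := mul_left_cancel h3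
    have h5 : C = C' := congrArg Subtype.val h4
    subst h5
    have hC : C.det = 1 := NL.det_of _ s hs.1 hs.2.2 hz.2.2
    have hu : IsUnit C.det := by rw [hC]; exact isUnit_one
    have hBB : B = B' := by
      have e : B * C = B' * C := hz.1.trans hz'.1.symm
      have e2 := congrArg (fun M => M * C⁻¹) e
      simp only [mul_assoc, Matrix.mul_nonsing_inv _ hu, mul_one] at e2
      exact e2
    subst hBB
    have hss : s = s' := NL.rp_inj (hz.2.1.symm.trans hz'.2.1)
    subst hss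
    rfl

end RSF
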