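import Pool.Agent.RSF.Stmts

/-!
# Module PW

Elements of `PSL_n(F)` with `x ^ m = 1` that preserve a subspace.
-/

namespace RSF

open Polynomial

noncomputable section

namespace PW

variable {F : Type} [Field F] {n : ℕ}

/-- the centre of `SL_n(F)` -/
abbrev Z (n : ℕ) (F : Type) [Field F] : Subgroup (Matrix.SpecialLinearGroup (Fin n) F) :=
  Subgroup.center (Matrix.SpecialLinearGroup (Fin n) F)

theorem ex_scalar (c : Z n F) : ∃ r : F, Matrix.scalar (Fin n) r = c.1.1 := by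
  obtain ⟨r, -, hr⟩ := Matrix.SpecialLinearGroup.mem_center_iff.mp c.2
  exact ⟨r, hr⟩

/-- the scalar of a central element -/
def rr (c : Z n F) : F := (ex_scalar c).choose

theorem rr_spec (c : Z n F) : Matrix.scalar (Fin n) (rr c) = c.1.1 := (ex_scalar c).choose_spec

theorem rr_inj : Function.Injective (rr : Z n F → F) := by
  intro c d h
  apply Subtype.ext
  apply Subtype.ext
  rw [← rr_spec c, ← rr_spec d, h]

instance finSL [Finite F] : Finite (Matrix.SpecialLinearGroup (Fin n) F) :=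
  Subtype.finite

instance finPS [Finite F] : Finite (PS n F) :=
  Finite.of_surjective (mk : Matrix.SpecialLinearGroup (Fin n) F → PS n F)
    (QuotientGroup.mk_surjective)

instance finEnd [Finite F] : Finite (Module.End F (Fin n → F)) :=
  Finite.of_equiv _ (Matrix.toLin' (R := F) (m := Fin n) (n := Fin n)).toEquiv

theorem card_Z_le [Finite F] : Nat.card (Z n F) ≤ Nat.card F :=
  Nat.card_le_card_of_injective rr rr_inj

theorem card_Z_pos [Finite F] : 0 < Nat.card (Z n F) := Nat.card_pos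

/-- a lift -/
def lft (x : PS n F) : Matrix.SpecialLinearGroup (Fin n) F := Quotient.out x

theorem mk_lft (x : PS n F) : mk (lft x) = x := Quotient.out_eq x

theorem mk_eq_iff (A B : Matrix.SpecialLinearGroup (Fin n) F) :
    mk A = mk B ↔ A⁻¹ * B ∈ Z n F := QuotientGroup.eq

theorem mk_mul (A B : Matrix.SpecialLinearGroup (Fin n) F) : mk (A * B) = mk A * mk B := rfl

theorem mk_one : mk (1 : Matrix.SpecialLinearGroup (Fin n) F) = 1 := rfl

theorem mk_pow (A : Matrix.SpecialLinearGroup (Fin n) F) (m : ℕ) : mk (A ^ m) = mk A ^ m := rfl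

theorem mk_central (c : Z n F) : mk c.1 = 1 := (QuotientGroup.eq_one_iff _).mpr c.2

theorem mk_eq_one_iff (A : Matrix.SpecialLinearGroup (Fin n) F) : mk A = 1 ↔ A ∈ Z n F :=
  QuotientGroup.eq_one_iff _

/-- lifts of a set, lower bound -/
theorem card_lift_ge [Finite F] (P : PS n F → Prop) :
    Nat.card (Z n F) * Nat.card {x : PS n F // P x} ≤
      Nat.card {A : Matrix.SpecialLinearGroup (Fin n) F // P (mk A)} := by
  rw [← Nat.card_prod]
  refine Nat.card_le_card_of_injective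
    (fun p : Z n F × {x : PS n F // P x} =>
      (⟨lft p.2.1 * p.1.1, by
        rw [mk_mul, mk_lft, mk_central, mul_one]
        exact p.2.2⟩ : {A : Matrix.SpecialLinearGroup (Fin n) F // P (mk A)})) ?_
  rintro ⟨c, x⟩ ⟨d, y⟩ h
  have h1 : lft x.1 * c.1 = lft y.1 * d.1 := congrArg Subtype.val h
  have h2 : x = y := by
    apply Subtype.ext
    have := congrArg mk h1
    rwa [mk_mul, mk_mul, mk_lft, mk_lft, mk_central, mk_central, mul_one, mul_one] at this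
  subst h2
  have h3 : c = d := Subtype.ext (mul_left_cancel h1)
  rw [h3]

/-- lifts of a set, upper bound -/
theorem card_lift_le [Finite F] (P : PS n F → Prop)
    (Q : Matrix.SpecialLinearGroup (Fin n) F → Prop) (hQ : ∀ A, Q A → P (mk A)) :
    Nat.card {A : Matrix.SpecialLinearGroup (Fin n) F // Q A} ≤
      Nat.card (Z n F) * Nat.card {x : PS n F // P x} := by
  rw [← Nat.card_prod]
  refine Nat.card_le_card_of_injective
    (fun A : {A : Matrix.SpecialLinearGroup (Fin n) F // Q A} =>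
      ((⟨(lft (mk A.1))⁻¹ * A.1, (mk_eq_iff _ _).mp (mk_lft _)⟩, ⟨mk A.1, hQ _ A.2⟩) :
        Z n F × {x : PS n F // P x})) ?_
  intro A B h
  have h1 : (lft (mk A.1))⁻¹ * A.1 = (lft (mk B.1))⁻¹ * B.1 :=
    congrArg Subtype.val (congrArg Prod.fst h)
  have h2 : mk A.1 = mk B.1 := congrArg Subtype.val (congrArg Prod.snd h)
  rw [h2] at h1
  exact Subtype.ext (mul_left_cancel h1)

/-- the endomorphisms with `B ^ m = r` that preserve `W` -/
abbrev EW (W : Submodule F (Fin n → F)) (m : ℕ) (r : F) : Type :=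
  {B : Module.End F (Fin n → F) // aeval B (X ^ m - C r) = 0 ∧ ∀ w ∈ W, B w ∈ W}

theorem toLin_pow (A : Matrix.SpecialLinearGroup (Fin n) F) (m : ℕ) :
    Matrix.toLin' (A ^ m).1 = (Matrix.toLin' A.1) ^ m := by
  rw [Matrix.SpecialLinearGroup.coe_pow, Matrix.toLin'_pow]

theorem aeval_toLin (A : Matrix.SpecialLinearGroup (Fin n) F) (m : ℕ) (c : Z n F)
    (h : A ^ m = c.1) : aeval (Matrix.toLin' A.1) (X ^ m - C (rr c)) = 0 := by
  rw [map_sub, map_pow, aeval_X, aeval_C, ← toLin_pow, h, ← rr_spec c, sub_eq_zero]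
  apply LinearMap.ext
  intro v
  rw [Matrix.toLin'_apply, Module.algebraMap_end_apply]
  ext i
  simp [Matrix.mulVec_diagonal]

theorem card_lift_sum [Finite F] [Fintype (Z n F)] (m : ℕ) (W : Submodule F (Fin n → F)) :
    Nat.card {A : Matrix.SpecialLinearGroup (Fin n) F // mk A ^ m = 1 ∧ Pres (mk A) W} ≤
      ∑ c : Z n F, Nat.card (EW W m (rr c)) := by
  rw [← Nat.card_sigma]
  refine Nat.card_le_card_of_injective
    (fun A : {A : Matrix.SpecialLinearGroup (Fin n) F // mk A ^ m = 1 ∧ Pres (mk A) W} =>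
      (⟨⟨A.1 ^ m, (mk_eq_one_iff _).mp A.2.1⟩, ⟨Matrix.toLin' A.1.1,
        aeval_toLin A.1 m ⟨A.1 ^ m, (mk_eq_one_iff _).mp A.2.1⟩ rfl, fun w hw => by
          rw [Matrix.toLin'_apply]
          exact A.2.2 A.1 rfl w hw⟩⟩ : Σ c : Z n F, EW W m (rr c))) ?_
  intro A B h
  apply Subtype.ext
  apply Subtype.ext
  apply Matrix.toLin'.injective
  have key : ∀ s t : (Σ c : Z n F, EW W m (rr c)), s = t → s.2.1 = t.2.1 := by
    rintro s t rfl
    rfl
  exact key _ _ h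

/-- the order of `GL_n(F)` -/
theorem card_GL_ge (hPI : S_PI) [Finite F] :
    (Nat.card F : ℝ) ^ (n ^ 2) / 4 ≤ (Nat.card (GL (Fin n) F) : ℝ) := by
  have : Fintype F := Fintype.ofFinite F
  have hq : (2 : ℝ) ≤ (Nat.card F : ℝ) := by
    exact_mod_cast Finite.one_lt_card (α := F)
  have h0 : (0 : ℝ) < (Nat.card F : ℝ) := by linarith
  have h1 : (Nat.card (GL (Fin n) F) : ℝ) =
      ∏ i ∈ Finset.range n, ((Nat.card F : ℝ) ^ n - (Nat.card F : ℝ) ^ i) := by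
    rw [Matrix.card_GL_field, Nat.card_eq_fintype_card, Nat.cast_prod,
      Finset.prod_range fun i => ((Fintype.card F : ℝ) ^ n - (Fintype.card F : ℝ) ^ i)]
    refine Finset.prod_congr rfl fun i _ => ?_
    rw [Nat.cast_sub]
    · push_cast
      rfl
    · exact Nat.pow_le_pow_right Fintype.card_pos i.2.le
  rw [h1, ← Finset.prod_range_reflect]
  have h2 : ∏ j ∈ Finset.range n, ((Nat.card F : ℝ) ^ n - (Nat.card F : ℝ) ^ (n - 1 - j)) =
      (Nat.card F : ℝ) ^ (n ^ 2) * ∏ j ∈ Finset.range n, (1 - ((Nat.card F : ℝ)⁻¹) ^ (j + 1)) := by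
    have h3 : (Nat.card F : ℝ) ^ (n ^ 2) = ∏ _j ∈ Finset.range n, (Nat.card F : ℝ) ^ n := by
      rw [Finset.prod_const, Finset.card_range, ← pow_mul, sq]
    rw [h3, ← Finset.prod_mul_distrib]
    refine Finset.prod_congr rfl fun j hj => ?_
    have hj' : j < n := Finset.mem_range.mp hj
    have h4 : (Nat.card F : ℝ) ^ n = (Nat.card F : ℝ) ^ (n - 1 - j) * (Nat.card F : ℝ) ^ (j + 1) := by
      rw [← pow_add]
      congr 1
      omega
    rw [mul_sub, mul_one, inv_pow]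
    congr 1
    rw [h4, mul_assoc, mul_inv_cancel₀ (pow_ne_zero _ h0.ne'), mul_one]
  rw [h2]
  have h5 := hPI (Nat.card F : ℝ) hq n
  have h6 : (0 : ℝ) ≤ (Nat.card F : ℝ) ^ (n ^ 2) := by positivity
  calc (Nat.card F : ℝ) ^ (n ^ 2) / 4 = (Nat.card F : ℝ) ^ (n ^ 2) * (1 / 4) := by ring
    _ ≤ _ := mul_le_mul_of_nonneg_left h5 h6

end PW

open PW in
theorem t_PW : M_PW := by
  intro hPI hFX hJL F _ _ n m hm W
  classical
  have : Fintype (Z n F) := Fintype.ofFinite _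
  set q : ℝ := (Nat.card F : ℝ) with hq
  set k : ℝ := (Module.finrank F W : ℝ) with hk
  have hq2 : (2 : ℝ) ≤ q := by
    rw [hq]
    exact_mod_cast Finite.one_lt_card (α := F)
  have hq0 : (0 : ℝ) < q := by linarith
  set B0 : ℝ := (16 * ((n : ℝ) + 1) ^ 2) ^ m with hB0
  have hB0p : 0 < B0 := by positivity
  set Bd : ℝ := B0 * q ^ ((n : ℝ) ^ 2 - QQ n k / m - k * ((n : ℝ) - k)) with hBd
  have hBdp : 0 < Bd := by positivity
  -- upper bound for the lifts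
  have hfx : ∀ c : Z n F, (Nat.card (EW W m (rr c)) : ℝ) ≤ Bd := by
    intro c
    have h := hFX F (Fin n → F) (X ^ m - C (rr c)) (monic_X_pow_sub_C _ (by omega))
      (by rw [natDegree_X_pow_sub_C]; exact hm) W
    rw [natDegree_X_pow_sub_C, Module.finrank_fintype_fun_eq_card, Fintype.card_fin] at h
    exact h
  have hz0 : (0 : ℝ) < (Nat.card (Z n F) : ℝ) := by exact_mod_cast card_Z_pos
  have hzq : (Nat.card (Z n F) : ℝ) ≤ q := by
    rw [hq]
    exact_mod_cast card_Z_le (n := n) (F := F)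
  have hS : (Nat.card {x : PS n F // x ^ m = 1 ∧ Pres x W} : ℝ) ≤ Bd := by
    have h1 : (Nat.card (Z n F) : ℝ) * (Nat.card {x : PS n F // x ^ m = 1 ∧ Pres x W} : ℝ) ≤
        ∑ c : Z n F, (Nat.card (EW W m (rr c)) : ℝ) := by
      exact_mod_cast (card_lift_ge fun x : PS n F => x ^ m = 1 ∧ Pres x W).trans
        (card_lift_sum m W)
    have h2 : ∑ c : Z n F, (Nat.card (EW W m (rr c)) : ℝ) ≤ (Nat.card (Z n F) : ℝ) * Bd := by
      calc ∑ c : Z n F, (Nat.card (EW W m (rr c)) : ℝ) ≤ ∑ _c : Z n F, Bd :=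
            Finset.sum_le_sum fun c _ => hfx c
        _ = (Nat.card (Z n F) : ℝ) * Bd := by
            rw [Finset.sum_const, Finset.card_univ, nsmul_eq_mul, Nat.card_eq_fintype_card]
    exact le_of_mul_le_mul_left (h1.trans h2) hz0
  -- lower bound for `jn`
  have hJ : q ^ (n ^ 2) / 4 * q ^ (-((n : ℝ) ^ 2 / m) - 4 * (m : ℝ) ^ 2) ≤
      q * (jn (PS n F) m : ℝ) := by
    have h1 : (Nat.card (GL (Fin n) F) : ℝ) * q ^ (-((n : ℝ) ^ 2 / m) - 4 * (m : ℝ) ^ 2) ≤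
        (Nat.card {A : Matrix.SpecialLinearGroup (Fin n) F // A ^ m = 1} : ℝ) := hJL F n m hm
    have h2 : (Nat.card {A : Matrix.SpecialLinearGroup (Fin n) F // A ^ m = 1} : ℝ) ≤
        (Nat.card (Z n F) : ℝ) * (jn (PS n F) m : ℝ) := by
      exact_mod_cast card_lift_le (fun x : PS n F => x ^ m = 1)
        (fun A : Matrix.SpecialLinearGroup (Fin n) F => A ^ m = 1)
        (fun A hA => by rw [← mk_pow, hA, mk_one])
    have h3 : q ^ (n ^ 2) / 4 ≤ (Nat.card (GL (Fin n) F) : ℝ) := card_GL_ge hPI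
    have h4 : (0 : ℝ) ≤ q ^ (-((n : ℝ) ^ 2 / m) - 4 * (m : ℝ) ^ 2) := by positivity
    have h5 : (0 : ℝ) ≤ (jn (PS n F) m : ℝ) := Nat.cast_nonneg _
    calc q ^ (n ^ 2) / 4 * q ^ (-((n : ℝ) ^ 2 / m) - 4 * (m : ℝ) ^ 2)
        ≤ (Nat.card (GL (Fin n) F) : ℝ) * q ^ (-((n : ℝ) ^ 2 / m) - 4 * (m : ℝ) ^ 2) :=
          mul_le_mul_of_nonneg_right h3 h4
      _ ≤ (Nat.card (Z n F) : ℝ) * (jn (PS n F) m : ℝ) := h1.trans h2
      _ ≤ q * (jn (PS n F) m : ℝ) := mul_le_mul_of_nonneg_right hzq h5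
  -- the end
  refine hS.trans ?_
  have hm0 : (0 : ℝ) < (m : ℝ) := by exact_mod_cast hm
  have e1 : q ^ (1 + 4 * (m : ℝ) ^ 2 - k * ((n : ℝ) - k) * (1 - 1 / (m : ℝ))) =
      q ^ (4 * (m : ℝ) ^ 2 - k * ((n : ℝ) - k) * (1 - 1 / (m : ℝ))) * q := by
    rw [show 1 + 4 * (m : ℝ) ^ 2 - k * ((n : ℝ) - k) * (1 - 1 / (m : ℝ)) =
      (4 * (m : ℝ) ^ 2 - k * ((n : ℝ) - k) * (1 - 1 / (m : ℝ))) + 1 by ring,
      Real.rpow_add hq0, Real.rpow_one]
  have e2 : Bd = 4 * B0 * q ^ (4 * (m : ℝ) ^ 2 - k * ((n : ℝ) - k) * (1 - 1 / (m : ℝ))) *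
      (q ^ (n ^ 2) / 4 * q ^ (-((n : ℝ) ^ 2 / m) - 4 * (m : ℝ) ^ 2)) := by
    have e3 : q ^ (n ^ 2) = q ^ ((n : ℝ) ^ 2) := by
      rw [← Real.rpow_natCast q (n ^ 2)]
      congr 1
      push_cast
      rfl
    rw [e3, hBd]
    have e4 : 4 * B0 * q ^ (4 * (m : ℝ) ^ 2 - k * ((n : ℝ) - k) * (1 - 1 / (m : ℝ))) *
        (q ^ ((n : ℝ) ^ 2) / 4 * q ^ (-((n : ℝ) ^ 2 / m) - 4 * (m : ℝ) ^ 2)) =
        B0 * (q ^ (4 * (m : ℝ) ^ 2 - k * ((n : ℝ) - k) * (1 - 1 / (m : ℝ))) *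
          q ^ ((n : ℝ) ^ 2) * q ^ (-((n : ℝ) ^ 2 / m) - 4 * (m : ℝ) ^ 2)) := by ring
    rw [e4, ← Real.rpow_add hq0, ← Real.rpow_add hq0]
    congr 2
    unfold QQ
    field_simp
    ring
  rw [e1, e2]
  have e5 : (0 : ℝ) ≤ 4 * B0 * q ^ (4 * (m : ℝ) ^ 2 - k * ((n : ℝ) - k) * (1 - 1 / (m : ℝ))) := by
    positivity
  calc 4 * B0 * q ^ (4 * (m : ℝ) ^ 2 - k * ((n : ℝ) - k) * (1 - 1 / (m : ℝ))) *
        (q ^ (n ^ 2) / 4 * q ^ (-((n : ℝ) ^ 2 / m) - 4 * (m : ℝ) ^ 2))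
      ≤ 4 * B0 * q ^ (4 * (m : ℝ) ^ 2 - k * ((n : ℝ) - k) * (1 - 1 / (m : ℝ))) *
        (q * (jn (PS n F) m : ℝ)) := mul_le_mul_of_nonneg_left hJ e5
    _ = _ := by ring

end

end RSF
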