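import Pool.Agent.RSF.Stmts3

/-!
# The number of triples with a common invariant subspace, `σ > 1`
-/

namespace RSF

open Polynomial

noncomputable section

namespace R2

/-! ### Analysis -/

theorem exists_r1 {s : ℝ} (hs : 0 < s) :
    ∃ r : ℕ, 1 ≤ r ∧ ∀ n : ℕ, r ≤ n → 2 * (n : ℝ) ≤ 2 ^ (s * n / 4) := by
  have hb : 1 < (2 : ℝ) ^ (s / 4) := Real.one_lt_rpow (by norm_num) (by linarith)
  have h1 := tendsto_pow_const_div_const_pow_of_one_lt 1 hb
  have h2 : ∀ᶠ n : ℕ in Filter.atTop, (n : ℝ) ^ 1 / ((2 : ℝ) ^ (s / 4)) ^ n < 1 / 2 :=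
    h1.eventually (gt_mem_nhds (by norm_num))
  obtain ⟨r, hr⟩ := Filter.eventually_atTop.1 h2
  refine ⟨max r 1, le_max_right _ _, fun n hn => ?_⟩
  have h3 := hr n (le_trans (le_max_left _ _) hn)
  have h4 : (0 : ℝ) < ((2 : ℝ) ^ (s / 4)) ^ n := by positivity
  rw [div_lt_iff₀ h4, pow_one] at h3
  have h5 : ((2 : ℝ) ^ (s / 4)) ^ n = 2 ^ (s * n / 4) := by
    rw [← Real.rpow_natCast, ← Real.rpow_mul (by norm_num)]
    congr 1
    ring
  rw [h5] at h3
  linarith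

theorem ana {σ : ℝ} (hσ : 1 < σ) : ∃ r : ℕ, 1 ≤ r ∧ ∀ n : ℕ, r ≤ n → ∀ q : ℝ, 2 ≤ q →
    ∀ k : ℕ, 1 ≤ k → 2 * k ≤ n → ∀ x : ℝ, 0 ≤ x →
    x ≤ 16 * q ^ ((n : ℝ) + k * ((n : ℝ) - k)) →
    x ≤ 8 * (n : ℝ) ^ 2 * (2 * (n : ℝ)) ^ k * q ^ ((k : ℝ) * n) →
    x * q ^ (-((k : ℝ) * ((n : ℝ) - k) * σ)) ≤ 16 * (n : ℝ) ^ 2 * q ^ (-((σ - 1) / 2 * n)) := by
  obtain ⟨r1, hr1, h1⟩ := exists_r1 (s := σ - 1) (by linarith)
  obtain ⟨r2, hr2⟩ := exists_nat_ge (8 * σ * (1 + (σ - 1) / 2) / (σ - 1) ^ 2)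
  refine ⟨max r1 r2, le_trans hr1 (le_max_left _ _), ?_⟩
  intro n hn q hq k hk hkn x hx0 hx1 hx2
  have hn1 : r1 ≤ n := le_trans (le_max_left _ _) hn
  have hn2 : (r2 : ℝ) ≤ n := by exact_mod_cast le_trans (le_max_right _ _) hn
  have hnpos : (1 : ℝ) ≤ n := by exact_mod_cast le_trans hr1 hn1
  have hq0 : 0 < q := by linarith
  have hq1 : 1 ≤ q := by linarith
  have hkr : (1 : ℝ) ≤ k := by exact_mod_cast hk
  have hknr : 2 * (k : ℝ) ≤ n := by exact_mod_cast hkn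
  have hs : 0 < σ - 1 := by linarith
  have hn2' : (1 : ℝ) ≤ (n : ℝ) ^ 2 := by nlinarith
  by_cases hc : 4 * σ * k ≤ (σ - 1) * n
  · -- second bound
    have e1 : (2 * (n : ℝ)) ^ k ≤ q ^ ((σ - 1) * n / 4 * k) := by
      have e2 : (2 * (n : ℝ)) ^ k ≤ ((2 : ℝ) ^ ((σ - 1) * n / 4)) ^ k :=
        pow_le_pow_left₀ (by positivity) (h1 n hn1) k
      have e3 : ((2 : ℝ) ^ ((σ - 1) * n / 4)) ^ k = 2 ^ ((σ - 1) * n / 4 * k) := by
        rw [← Real.rpow_natCast, ← Real.rpow_mul (by norm_num)]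
      rw [e3] at e2
      refine le_trans e2 (Real.rpow_le_rpow (by norm_num) hq ?_)
      have : 0 ≤ (σ - 1) * n / 4 := by positivity
      positivity
    have e4 : x * q ^ (-((k : ℝ) * ((n : ℝ) - k) * σ)) ≤
        8 * (n : ℝ) ^ 2 * q ^ ((σ - 1) * n / 4 * k) * q ^ ((k : ℝ) * n) *
          q ^ (-((k : ℝ) * ((n : ℝ) - k) * σ)) := by
      refine mul_le_mul_of_nonneg_right (le_trans hx2 ?_) (Real.rpow_nonneg hq0.le _)
      refine mul_le_mul_of_nonneg_right ?_ (Real.rpow_nonneg hq0.le _)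
      exact mul_le_mul_of_nonneg_left e1 (by positivity)
    refine le_trans e4 ?_
    rw [mul_assoc, mul_assoc, ← Real.rpow_add hq0, ← Real.rpow_add hq0]
    refine mul_le_mul (by nlinarith) ?_ (Real.rpow_nonneg hq0.le _) (by positivity)
    apply Real.rpow_le_rpow_of_exponent_le hq1
    have e5 : 4 * σ * k * k ≤ (σ - 1) * n * k := mul_le_mul_of_nonneg_right hc (by linarith)
    have e6 : (σ - 1) * n * 1 ≤ (σ - 1) * n * k :=
      mul_le_mul_of_nonneg_left hkr (by positivity)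
    nlinarith
  · -- first bound
    push Not at hc
    have e4 : x * q ^ (-((k : ℝ) * ((n : ℝ) - k) * σ)) ≤
        16 * q ^ ((n : ℝ) + k * ((n : ℝ) - k)) * q ^ (-((k : ℝ) * ((n : ℝ) - k) * σ)) :=
      mul_le_mul_of_nonneg_right hx1 (Real.rpow_nonneg hq0.le _)
    refine le_trans e4 ?_
    rw [mul_assoc, ← Real.rpow_add hq0]
    refine mul_le_mul (by nlinarith) ?_ (Real.rpow_nonneg hq0.le _) (by positivity)
    apply Real.rpow_le_rpow_of_exponent_le hq1
    -- n - k (n - k) (σ - 1) ≤ - (σ - 1) n / 2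
    have e5 : (k : ℝ) * n ≤ 2 * (k * ((n : ℝ) - k)) := by nlinarith
    have e7 : 8 * σ * (1 + (σ - 1) / 2) ≤ (σ - 1) ^ 2 * n := by
      have := le_trans hr2 hn2
      rw [div_le_iff₀ (by positivity)] at this
      linarith
    have e8 : (σ - 1) * ((σ - 1) * n) ≤ (σ - 1) * (4 * σ * k) :=
      mul_le_mul_of_nonneg_left hc.le hs.le
    have hσ0 : 0 < σ := by linarith
    have e9 : 8 * σ * (1 + (σ - 1) / 2) ≤ 8 * σ * ((σ - 1) * k / 2) := by nlinarith
    have e10 : 1 + (σ - 1) / 2 ≤ (σ - 1) * k / 2 :=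
      le_of_mul_le_mul_left e9 (by positivity)
    have e11 : (1 + (σ - 1) / 2) * n ≤ (σ - 1) * k / 2 * n :=
      mul_le_mul_of_nonneg_right e10 (by linarith)
    have e12 : (σ - 1) * ((k : ℝ) * n) ≤ (σ - 1) * (2 * (k * ((n : ℝ) - k))) :=
      mul_le_mul_of_nonneg_left e5 hs.le
    nlinarith

/-! ### Counting -/

variable {n : ℕ} {F : Type} [Field F] [Finite F]

instance finitePS : Finite (PS n F) := by
  have : Finite (Matrix.SpecialLinearGroup (Fin n) F) :=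
    Finite.of_injective (fun A : Matrix.SpecialLinearGroup (Fin n) F => A.1)
      Subtype.val_injective
  exact Finite.of_surjective (fun A : Matrix.SpecialLinearGroup (Fin n) F => mk A)
    (QuotientGroup.mk_surjective)

/-- the proper nonzero subspaces -/
abbrev Sub (n : ℕ) (F : Type) [Field F] : Type :=
  {W : Submodule F (Fin n → F) // 1 ≤ Module.finrank F W ∧ Module.finrank F W < n}

instance finiteSubm : Finite (Submodule F (Fin n → F)) :=
  Finite.of_injective (fun W : Submodule F (Fin n → F) => (W : Set (Fin n → F)))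
    SetLike.coe_injective

/-- the pairs for a subspace -/
abbrev Pr (W : Submodule F (Fin n → F)) : Type :=
  {p : PS n F × PS n F // Commute p.1 p.2 ∧ Pres p.2 W}

theorem card_le (m : List ℕ) :
    RB F n m ≤ Nat.card (Σ W : Sub n F, (∀ j : Fin m.length,
      {x : PS n F // x ^ m.get j = 1 ∧ Pres x W.1}) × Pr W.1) := by
  unfold RB
  choose W hW1 hW2 hP hc using fun z : {z : (Fin m.length → PS n F) × PS n F × PS n F //
    (∀ j, z.1 j ^ m.get j = 1) ∧ Commute z.2.1 z.2.2 ∧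
    ∃ W : Submodule F (Fin n → F), W ≠ ⊥ ∧ W ≠ ⊤ ∧ (∀ j, Pres (z.1 j) W) ∧ Pres z.2.2 W} =>
      z.2.2.2
  have hW : ∀ z, 1 ≤ Module.finrank F (W z) ∧ Module.finrank F (W z) < n := by
    intro z
    refine ⟨?_, ?_⟩
    · rw [Nat.one_le_iff_ne_zero]
      intro h3
      exact hW1 z (Submodule.finrank_eq_zero.1 h3)
    · have h3 := Submodule.finrank_lt (hW2 z)
      rwa [Module.finrank_fin_fun] at h3
  refine Nat.card_le_card_of_injective (fun z => ⟨⟨W z, hW z⟩, fun j =>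
    ⟨z.1.1 j, z.2.1 j, hP z j⟩, ⟨z.1.2, z.2.2.1, hc z⟩⟩) ?_
  intro z z' h
  have h1 : ∀ (p q : Σ W : Sub n F, (∀ j : Fin m.length,
      {x : PS n F // x ^ m.get j = 1 ∧ Pres x W.1}) × Pr W.1), p = q →
      (∀ j, (p.2.1 j).1 = (q.2.1 j).1) ∧ p.2.2.1 = q.2.2.1 := by
    rintro p q rfl
    exact ⟨fun _ => rfl, rfl⟩
  obtain ⟨h2, h3⟩ := h1 _ _ h
  apply Subtype.ext
  apply Prod.ext
  · funext j
    exact h2 j
  · exact h3

theorem JJ_eq (m : List ℕ) :
    (JJ (PS n F) m : ℝ) = ∏ j : Fin m.length, (jn (PS n F) (m.get j) : ℝ) := by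
  unfold JJ
  rw [← Fin.prod_univ_fun_getElem m (jn (PS n F))]
  push_cast
  rfl

/-- the bound for one subspace -/
theorem prod_le (hPW : S_PW) (m : List ℕ) (hm : ∀ k ∈ m, 2 ≤ k) (W : Submodule F (Fin n → F)) :
    (∏ j : Fin m.length, (Nat.card {x : PS n F // x ^ m.get j = 1 ∧ Pres x W} : ℝ)) ≤
      4 ^ m.length * (16 * ((n : ℝ) + 1) ^ 2) ^ (∑ j : Fin m.length, m.get j) *
      (Nat.card F : ℝ) ^ ((∑ j : Fin m.length, (1 + 4 * (m.get j : ℝ) ^ 2)) -
        (Module.finrank F W : ℝ) * ((n : ℝ) - Module.finrank F W) * sig m) *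
      ∏ j : Fin m.length, (jn (PS n F) (m.get j) : ℝ) := by
  have hq : (0 : ℝ) < Nat.card F := by exact_mod_cast Nat.card_pos
  have hsig : sig m = ∑ j : Fin m.length, (1 - 1 / (m.get j : ℝ)) := by
    unfold sig
    rw [← Fin.sum_univ_fun_getElem m (fun k : ℕ => 1 - 1 / (k : ℝ))]
    rfl
  have h1 : ∀ j : Fin m.length, (Nat.card {x : PS n F // x ^ m.get j = 1 ∧ Pres x W} : ℝ) ≤
      4 * (16 * ((n : ℝ) + 1) ^ 2) ^ m.get j * (Nat.card F : ℝ) ^ (1 + 4 * (m.get j : ℝ) ^ 2 -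
        (Module.finrank F W : ℝ) * ((n : ℝ) - Module.finrank F W) * (1 - 1 / (m.get j : ℝ))) *
      jn (PS n F) (m.get j) := fun j =>
    hPW F n (m.get j) (le_trans (by norm_num) (hm _ (List.get_mem m j))) W
  refine le_trans (Finset.prod_le_prod (fun j _ => Nat.cast_nonneg _) fun j _ => h1 j) ?_
  rw [Finset.prod_mul_distrib, Finset.prod_mul_distrib, Finset.prod_mul_distrib,
    Finset.prod_const, Finset.card_univ, Fintype.card_fin, Finset.prod_pow_eq_pow_sum,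
    ← Real.rpow_sum_of_pos hq]
  have h2 : ∑ j : Fin m.length, (1 + 4 * (m.get j : ℝ) ^ 2 -
        (Module.finrank F W : ℝ) * ((n : ℝ) - Module.finrank F W) * (1 - 1 / (m.get j : ℝ))) =
      (∑ j : Fin m.length, (1 + 4 * (m.get j : ℝ) ^ 2)) -
        (Module.finrank F W : ℝ) * ((n : ℝ) - Module.finrank F W) * sig m := by
    rw [Finset.sum_sub_distrib, ← Finset.mul_sum, ← hsig]
  rw [h2]

theorem sum_KS [Fintype (Sub n F)] [DecidableEq ℕ] (k : ℕ) :
    ∑ W ∈ Finset.univ.filter (fun W : Sub n F => Module.finrank F W.1 = k),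
      (Nat.card (Pr W.1) : ℝ) ≤ KS F n k := by
  have h1 : ∑ W ∈ Finset.univ.filter (fun W : Sub n F => Module.finrank F W.1 = k),
      Nat.card (Pr W.1) ≤ KS F n k := by
    have h2 : ∑ W ∈ Finset.univ.filter (fun W : Sub n F => Module.finrank F W.1 = k),
        Nat.card (Pr W.1) =
        Nat.card (Σ W : {W : Sub n F // Module.finrank F W.1 = k}, Pr W.1.1) := by
      rw [Nat.card_sigma]
      rw [Finset.sum_subtype (Finset.univ.filter (fun W : Sub n F => Module.finrank F W.1 = k))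
        (p := fun W => Module.finrank F W.1 = k) (fun W => by simp)]
    rw [h2]
    unfold KS
    refine Nat.card_le_card_of_injective (fun x => ⟨(x.2.1.1, x.2.1.2, x.1.1.1), x.2.2.1,
      x.1.2, x.2.2.2⟩) ?_
    rintro ⟨⟨⟨W, hW⟩, hWk⟩, ⟨p, hp⟩⟩ ⟨⟨⟨W', hW'⟩, hWk'⟩, ⟨p', hp'⟩⟩ h
    have h3 := congrArg Subtype.val h
    simp only [Prod.mk.injEq] at h3
    obtain ⟨h4, h5, h6⟩ := h3
    subst h6
    have h7 : p = p' := Prod.ext h4 h5
    subst h7
    rfl
  have h8 := (Nat.cast_le (α := ℝ)).2 h1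
  rwa [Nat.cast_sum] at h8

/-- the bounds for `KS` -/
theorem KS_le (hK3 : S_K3) (hKD : S_KD) (hKQ : S_KQ) {k : ℕ} (hk : 1 ≤ k) (hkn : k < n) :
    ((KS F n k : ℝ) ≤ (Nat.card F : ℝ) * Nat.card (PS n F) *
      (16 * (Nat.card F : ℝ) ^ (n + k * (n - k)))) ∧
    ((KS F n k : ℝ) ≤ (Nat.card F : ℝ) * Nat.card (PS n F) *
      (8 * (n : ℝ) ^ 2 * (2 * (n : ℝ)) ^ (min k (n - k)) *
        (Nat.card F : ℝ) ^ (min k (n - k) * n))) := by
  have hfin : Finite (GL (Fin n) F) := by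
    infer_instance
  have hgl : (0 : ℝ) < Nat.card (GL (Fin n) F) := by exact_mod_cast Nat.card_pos
  have h1 := hKQ F n k (by omega)
  have h1' : (KS F n k : ℝ) * Nat.card (GL (Fin n) F) ≤
      Nat.card F * Nat.card (PS n F) * KT F n k := by exact_mod_cast h1
  have hP : (0 : ℝ) ≤ Nat.card F * Nat.card (PS n F) := by positivity
  have key : ∀ X : ℕ, KT F n k ≤ Nat.card (GL (Fin n) F) * X →
      (KS F n k : ℝ) ≤ (Nat.card F : ℝ) * Nat.card (PS n F) * X := by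
    intro X hX
    have hX' : (KT F n k : ℝ) ≤ Nat.card (GL (Fin n) F) * X := by exact_mod_cast hX
    have h2 : (KS F n k : ℝ) * Nat.card (GL (Fin n) F) ≤
        (Nat.card F * Nat.card (PS n F) * X) * Nat.card (GL (Fin n) F) := by
      refine le_trans h1' (le_trans (mul_le_mul_of_nonneg_left hX' hP) (le_of_eq ?_))
      ring
    exact le_of_mul_le_mul_right h2 hgl
  obtain ⟨h3, h4⟩ := hK3 F n k hkn.le
  constructor
  · have := key _ h3
    push_cast at this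
    exact this
  · rcases le_total k (n - k) with h | h
    · rw [min_eq_left h]
      have := key _ (h4 hk)
      push_cast at this
      exact this
    · rw [min_eq_right h]
      have h5 := (hK3 F n (n - k) (by omega)).2 (by omega)
      have h6 := le_trans (hKD F n k hkn.le) h5
      have := key _ h6
      push_cast at this
      exact this

end R2

open R2 in
theorem t_R2 : M_R2 := by
  intro hPW hK3 hKD hKQ m hm hσ
  obtain ⟨r, hr1, hr⟩ := ana hσ
  set M : ℕ := ∑ j : Fin m.length, m.get j with hM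
  set A : ℝ := ∑ j : Fin m.length, (1 + 4 * (m.get j : ℝ) ^ 2) with hA
  have hA0 : 0 ≤ A := Finset.sum_nonneg fun j _ => by positivity
  set B : ℝ := 16 * (4 ^ m.length * 16 ^ M) with hB
  have hB0 : 0 < B := by positivity
  have hM0 : (0 : ℝ) ≤ 2 * (M : ℝ) + 3 := by positivity
  refine ⟨B + (2 * M + 3) + (A + 1), r, by linarith, hr1, ?_⟩
  intro n hn F _ _
  have : Fintype (Sub n F) := Fintype.ofFinite _
  have hq2 : (2 : ℝ) ≤ Nat.card F := by exact_mod_cast Finite.one_lt_card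
  have hq1 : (1 : ℝ) ≤ Nat.card F := by linarith
  have hq : (0 : ℝ) < Nat.card F := by linarith
  set C : ℝ := B + (2 * M + 3) + (A + 1) with hC
  set J : ℝ := (JJ (PS n F) m : ℝ) with hJ
  have hJ0 : 0 ≤ J := Nat.cast_nonneg _
  set P : ℝ := (Nat.card (PS n F) : ℝ) with hP
  have hP0 : 0 < P := by
    rw [hP]
    exact_mod_cast Nat.card_pos
  set K : ℝ := 4 ^ m.length * (16 * ((n : ℝ) + 1) ^ 2) ^ M with hK
  have hK0 : 0 ≤ K := by positivity
  set q : ℝ := (Nat.card F : ℝ) with hqd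
  have h1 : (RB F n m : ℝ) ≤ ∑ W : Sub n F, (∏ j : Fin m.length,
        (Nat.card {x : PS n F // x ^ m.get j = 1 ∧ Pres x W.1} : ℝ)) * Nat.card (Pr W.1) := by
    refine le_trans (Nat.cast_le.2 (card_le (n := n) (F := F) m)) (le_of_eq ?_)
    rw [Nat.card_sigma, Nat.cast_sum]
    refine Finset.sum_congr rfl fun W _ => ?_
    rw [Nat.card_prod, Nat.card_pi, Nat.cast_mul, Nat.cast_prod]
  have h2 : ∑ W : Sub n F, (∏ j : Fin m.length,
        (Nat.card {x : PS n F // x ^ m.get j = 1 ∧ Pres x W.1} : ℝ)) * Nat.card (Pr W.1) ≤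
      ∑ W : Sub n F, K * J * (q ^ (A - (Module.finrank F W.1 : ℝ) *
        ((n : ℝ) - Module.finrank F W.1) * sig m) * Nat.card (Pr W.1)) := by
    refine Finset.sum_le_sum fun W _ => ?_
    rw [← mul_assoc]
    refine mul_le_mul_of_nonneg_right ?_ (Nat.cast_nonneg _)
    refine le_trans (prod_le hPW m hm W.1) (le_of_eq ?_)
    rw [hJ, JJ_eq, ← hA, ← hM, ← hK]
    ring
  have hmap : ∀ W ∈ (Finset.univ : Finset (Sub n F)), Module.finrank F W.1 ∈ Finset.Ico 1 n :=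
    fun W _ => Finset.mem_Ico.2 W.2
  have h3 : ∀ k ∈ Finset.Ico 1 n, ∑ W ∈ Finset.univ.filter (fun W : Sub n F =>
      Module.finrank F W.1 = k), q ^ (A - (Module.finrank F W.1 : ℝ) *
        ((n : ℝ) - Module.finrank F W.1) * sig m) * Nat.card (Pr W.1) ≤
      q ^ A * (q * P * (16 * (n : ℝ) ^ 2 * q ^ (-((sig m - 1) / 2 * n)))) := by
    intro k hk
    rw [Finset.mem_Ico] at hk
    have hkn : (k : ℝ) ≤ n := by exact_mod_cast hk.2.le
    have e1 : ∑ W ∈ Finset.univ.filter (fun W : Sub n F =>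
      Module.finrank F W.1 = k), q ^ (A - (Module.finrank F W.1 : ℝ) *
        ((n : ℝ) - Module.finrank F W.1) * sig m) * Nat.card (Pr W.1) =
        q ^ (A - (k : ℝ) * ((n : ℝ) - k) * sig m) * ∑ W ∈ Finset.univ.filter
          (fun W : Sub n F => Module.finrank F W.1 = k), (Nat.card (Pr W.1) : ℝ) := by
      rw [Finset.mul_sum]
      refine Finset.sum_congr rfl fun W hW => ?_
      rw [Finset.mem_filter] at hW
      rw [hW.2]
    rw [e1]
    have e2 : q ^ (A - (k : ℝ) * ((n : ℝ) - k) * sig m) * ∑ W ∈ Finset.univ.filter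
          (fun W : Sub n F => Module.finrank F W.1 = k), (Nat.card (Pr W.1) : ℝ) ≤
        q ^ (A - (k : ℝ) * ((n : ℝ) - k) * sig m) * KS F n k :=
      mul_le_mul_of_nonneg_left (sum_KS k) (Real.rpow_nonneg hq.le _)
    refine le_trans e2 ?_
    obtain ⟨b1, b2⟩ := KS_le (F := F) hK3 hKD hKQ hk.1 hk.2
    set k' : ℕ := min k (n - k) with hk'
    have hk'1 : 1 ≤ k' := by omega
    have hk'2 : 2 * k' ≤ n := by omega
    have hkk : (k : ℝ) * ((n : ℝ) - k) = (k' : ℝ) * ((n : ℝ) - k') := by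
      rcases le_total k (n - k) with h | h
      · rw [hk', min_eq_left h]
      · rw [hk', min_eq_right h, Nat.cast_sub hk.2.le]
        ring
    have hqP : 0 < q * P := mul_pos hq hP0
    have hx0 : 0 ≤ (KS F n k : ℝ) / (q * P) := by positivity
    have c1 : (KS F n k : ℝ) / (q * P) ≤ 16 * q ^ ((n : ℝ) + k' * ((n : ℝ) - k')) := by
      rw [div_le_iff₀ hqP]
      refine le_trans b1 (le_of_eq ?_)
      have d1 : (n : ℝ) + k' * ((n : ℝ) - k') = ((n + k * (n - k) : ℕ) : ℝ) := by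
        rw [← hkk]
        push_cast [Nat.cast_sub hk.2.le]
        ring
      rw [d1, Real.rpow_natCast]
      ring
    have c2 : (KS F n k : ℝ) / (q * P) ≤
        8 * (n : ℝ) ^ 2 * (2 * (n : ℝ)) ^ k' * q ^ ((k' : ℝ) * n) := by
      rw [div_le_iff₀ hqP]
      refine le_trans b2 (le_of_eq ?_)
      have d1 : (k' : ℝ) * n = ((k' * n : ℕ) : ℝ) := by push_cast; ring
      rw [d1, Real.rpow_natCast]
      ring
    have c3 := hr n hn q hq2 k' hk'1 hk'2 _ hx0 c1 c2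
    have c4 : q ^ (A - (k : ℝ) * ((n : ℝ) - k) * sig m) * (KS F n k : ℝ) =
        q ^ A * (q * P * ((KS F n k : ℝ) / (q * P) * q ^ (-((k' : ℝ) * ((n : ℝ) - k') * sig m)))) := by
      rw [sub_eq_add_neg, Real.rpow_add hq, hkk]
      field_simp
    rw [c4]
    refine mul_le_mul_of_nonneg_left ?_ (Real.rpow_nonneg hq.le _)
    exact mul_le_mul_of_nonneg_left c3 hqP.le
  have h4 : ∑ W : Sub n F, q ^ (A - (Module.finrank F W.1 : ℝ) *
        ((n : ℝ) - Module.finrank F W.1) * sig m) * (Nat.card (Pr W.1) : ℝ) ≤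
      (n : ℝ) * (q ^ A * (q * P * (16 * (n : ℝ) ^ 2 * q ^ (-((sig m - 1) / 2 * n))))) := by
    rw [← Finset.sum_fiberwise_of_maps_to hmap]
    refine le_trans (Finset.sum_le_sum h3) ?_
    rw [Finset.sum_const, Nat.card_Ico, nsmul_eq_mul]
    refine mul_le_mul_of_nonneg_right ?_ (by positivity)
    exact_mod_cast Nat.sub_le n 1
  have hn0 : (0 : ℝ) ≤ n := Nat.cast_nonneg n
  have h5 : (RB F n m : ℝ) ≤ K * J * ((n : ℝ) * (q ^ A * (q * P * (16 * (n : ℝ) ^ 2 *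
      q ^ (-((sig m - 1) / 2 * n)))))) := by
    refine le_trans h1 (le_trans h2 ?_)
    rw [← Finset.mul_sum]
    exact mul_le_mul_of_nonneg_left h4 (mul_nonneg hK0 hJ0)
  refine le_trans h5 ?_
  have h6 : K * (16 * (n : ℝ) ^ 3) ≤ B * ((n : ℝ) + 1) ^ (2 * M + 3) := by
    have e1 : K * (16 * (n : ℝ) ^ 3) = B * (((n : ℝ) + 1) ^ (2 * M) * (n : ℝ) ^ 3) := by
      rw [hK, hB, mul_pow, ← pow_mul]
      ring
    rw [e1, pow_add ((n : ℝ) + 1) (2 * M) 3]
    apply mul_le_mul_of_nonneg_left _ hB0.le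
    refine mul_le_mul_of_nonneg_left ?_ (by positivity)
    exact pow_le_pow_left₀ hn0 (by linarith) 3
  have h7 : ((n : ℝ) + 1) ^ (2 * M + 3) ≤ ((n : ℝ) + 1) ^ C := by
    rw [← Real.rpow_natCast]
    apply Real.rpow_le_rpow_of_exponent_le (by linarith)
    push_cast
    linarith
  have h8 : q ^ A * q * q ^ (-((sig m - 1) / 2 * n)) ≤ q ^ (C - (sig m - 1) / 2 * (n : ℝ)) := by
    have e1 : q ^ A * q * q ^ (-((sig m - 1) / 2 * n)) =
        q ^ (A + 1 + -((sig m - 1) / 2 * n)) := by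
      rw [Real.rpow_add hq, Real.rpow_add hq, Real.rpow_one]
    rw [e1]
    apply Real.rpow_le_rpow_of_exponent_le hq1
    linarith
  have h9 : K * (16 * (n : ℝ) ^ 3) ≤ C * ((n : ℝ) + 1) ^ C := by
    refine le_trans h6 ?_
    exact mul_le_mul (by linarith) h7 (by positivity) (by linarith)
  have h10 : K * (16 * (n : ℝ) ^ 3) * (q ^ A * q * q ^ (-((sig m - 1) / 2 * n))) ≤
      C * ((n : ℝ) + 1) ^ C * q ^ (C - (sig m - 1) / 2 * (n : ℝ)) :=
    mul_le_mul h9 h8 (by positivity) (mul_nonneg (by linarith) (Real.rpow_nonneg (by linarith) _))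
  calc K * J * ((n : ℝ) * (q ^ A * (q * P * (16 * (n : ℝ) ^ 2 *
      q ^ (-((sig m - 1) / 2 * n))))))
      = K * (16 * (n : ℝ) ^ 3) * (q ^ A * q * q ^ (-((sig m - 1) / 2 * n))) * (P * J) := by
        ring
    _ ≤ _ := mul_le_mul_of_nonneg_right h10 (mul_nonneg hP0.le hJ0)

end

end RSF
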