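import Pool.Agent.RSF.Stmts

/-!
# The number of tuples that generate a reducible subgroup
-/

namespace RSF

open Polynomial

noncomputable section

namespace RT

variable {n : ℕ} {F : Type} [Field F] [Finite F]

instance finitePS : Finite (PS n F) := by
  have : Finite (Matrix.SpecialLinearGroup (Fin n) F) :=
    Finite.of_injective (fun A : Matrix.SpecialLinearGroup (Fin n) F => A.1)
      Subtype.val_injective
  exact Finite.of_surjective (fun A : Matrix.SpecialLinearGroup (Fin n) F => mk A)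
    (QuotientGroup.mk_surjective)

/-- a reducible tuple preserves a proper nonzero subspace -/
theorem exists_W {d : ℕ} {t : Fin d → PS n F} (h : ¬ Irr (Subgroup.closure (Set.range t))) :
    ∃ W : Submodule F (Fin n → F), (1 ≤ Module.finrank F W ∧ Module.finrank F W < n) ∧
      ∀ j, Pres (t j) W := by
  unfold Irr at h
  push Not at h
  obtain ⟨W, hW, h1, h2⟩ := h
  refine ⟨W, ⟨?_, ?_⟩, fun j => hW _ (Subgroup.subset_closure ⟨j, rfl⟩)⟩
  · rw [Nat.one_le_iff_ne_zero]
    intro h3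
    exact h1 (Submodule.finrank_eq_zero.1 h3)
  · have h3 := Submodule.finrank_lt h2
    rwa [Module.finrank_fin_fun] at h3

/-- the proper nonzero subspaces -/
abbrev Sub (n : ℕ) (F : Type) [Field F] : Type :=
  {W : Submodule F (Fin n → F) // 1 ≤ Module.finrank F W ∧ Module.finrank F W < n}

instance finiteSub : Finite (Sub n F) := by
  have : Finite (Submodule F (Fin n → F)) :=
    Finite.of_injective (fun W : Submodule F (Fin n → F) => (W : Set (Fin n → F)))
      SetLike.coe_injective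
  infer_instance

theorem card_le (m : List ℕ) :
    Nat.card {t : Fin m.length → PS n F // (∀ j, t j ^ m.get j = 1) ∧
        ¬ Irr (Subgroup.closure (Set.range t))} ≤
      Nat.card (Σ W : Sub n F, ∀ j : Fin m.length, {x : PS n F // x ^ m.get j = 1 ∧ Pres x W.1}) := by
  choose W hW hP using fun t : {t : Fin m.length → PS n F // (∀ j, t j ^ m.get j = 1) ∧
        ¬ Irr (Subgroup.closure (Set.range t))} => exists_W t.2.2
  refine Nat.card_le_card_of_injective (fun t => ⟨⟨W t, hW t⟩, fun j =>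
    ⟨t.1 j, t.2.1 j, hP t j⟩⟩) ?_
  intro t t' h
  apply Subtype.ext
  funext j
  have h1 : ∀ (p q : Σ W : Sub n F, ∀ j : Fin m.length,
      {x : PS n F // x ^ m.get j = 1 ∧ Pres x W.1}), p = q → (p.2 j).1 = (q.2 j).1 := by
    rintro p q rfl
    rfl
  exact h1 _ _ h

theorem card_tuples (m : List ℕ) :
    (Nat.card {t : Fin m.length → PS n F // ∀ j, t j ^ m.get j = 1} : ℝ) =
      ∏ j : Fin m.length, (jn (PS n F) (m.get j) : ℝ) := by
  have h1 : Nat.card {t : Fin m.length → PS n F // ∀ j, t j ^ m.get j = 1} =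
      Nat.card (∀ j : Fin m.length, {x : PS n F // x ^ m.get j = 1}) :=
    Nat.card_congr (Equiv.subtypePiEquivPi (p := fun (j : Fin m.length) (x : PS n F) =>
      x ^ m.get j = 1))
  rw [h1, Nat.card_pi]
  unfold jn
  push_cast
  rfl

/-- the bound for one subspace -/
theorem prod_le (hPW : S_PW) (m : List ℕ) (hm : ∀ k ∈ m, 2 ≤ k) (W : Submodule F (Fin n → F)) :
    (∏ j : Fin m.length, (Nat.card {x : PS n F // x ^ m.get j = 1 ∧ Pres x W} : ℝ)) ≤
      4 ^ m.length * (16 * ((n : ℝ) + 1) ^ 2) ^ (∑ j : Fin m.length, m.get j) *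
      (Nat.card F : ℝ) ^ ((∑ j : Fin m.length, (1 + 4 * (m.get j : ℝ) ^ 2)) -
        (Module.finrank F W : ℝ) * ((n : ℝ) - Module.finrank F W) * sig m) *
      ∏ j : Fin m.length, (jn (PS n F) (m.get j) : ℝ) := by
  have hq : (0 : ℝ) < Nat.card F := by exact_mod_cast Nat.card_pos
  have hsig : sig m = ∑ j : Fin m.length, (1 - 1 / (m.get j : ℝ)) := by
    unfold sig
    rw [← Fin.sum_univ_fun_getElem m (fun k : ℕ => 1 - 1 / (k : ℝ))]
    rfl
  have h1 : ∀ j : Fin m.length, (Nat.card {x : PS n F // x ^ m.get j = 1 ∧ Pres x W} : ℝ) ≤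
      4 * (16 * ((n : ℝ) + 1) ^ 2) ^ m.get j * (Nat.card F : ℝ) ^ (1 + 4 * (m.get j : ℝ) ^ 2 -
        (Module.finrank F W : ℝ) * ((n : ℝ) - Module.finrank F W) * (1 - 1 / (m.get j : ℝ))) *
      jn (PS n F) (m.get j) := fun j =>
    hPW F n (m.get j) (le_trans (by norm_num) (hm _ (List.get_mem m j))) W
  refine le_trans (Finset.prod_le_prod (fun j _ => Nat.cast_nonneg _) fun j _ => h1 j) ?_
  rw [Finset.prod_mul_distrib, Finset.prod_mul_distrib, Finset.prod_mul_distrib,
    Finset.prod_const, Finset.card_univ, Fintype.card_fin, Finset.prod_pow_eq_pow_sum,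
    ← Real.rpow_sum_of_pos hq]
  have h2 : ∑ j : Fin m.length, (1 + 4 * (m.get j : ℝ) ^ 2 -
        (Module.finrank F W : ℝ) * ((n : ℝ) - Module.finrank F W) * (1 - 1 / (m.get j : ℝ))) =
      (∑ j : Fin m.length, (1 + 4 * (m.get j : ℝ) ^ 2)) -
        (Module.finrank F W : ℝ) * ((n : ℝ) - Module.finrank F W) * sig m := by
    rw [Finset.sum_sub_distrib, ← Finset.mul_sum, ← hsig]
  rw [h2]

/-- the sum over the subspaces -/
theorem sum_le (hSUB : S_SUB) {σ A : ℝ} (hσ : 1 ≤ σ) [Fintype (Sub n F)] :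
    ∑ W : Sub n F, (Nat.card F : ℝ) ^ (A - (Module.finrank F W.1 : ℝ) *
        ((n : ℝ) - Module.finrank F W.1) * σ) ≤
      4 * (n : ℝ) * (Nat.card F : ℝ) ^ (A + (σ - 1) - (σ - 1) * n) := by
  classical
  have hq1 : (1 : ℝ) ≤ Nat.card F := by exact_mod_cast Nat.card_pos
  have hq : (0 : ℝ) < Nat.card F := lt_of_lt_of_le one_pos hq1
  have hmap : ∀ W ∈ (Finset.univ : Finset (Sub n F)), Module.finrank F W.1 ∈ Finset.Ico 1 n :=
    fun W _ => Finset.mem_Ico.2 W.2
  rw [← Finset.sum_fiberwise_of_maps_to hmap]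
  have h1 : ∀ k ∈ Finset.Ico 1 n, ∑ W ∈ Finset.univ.filter (fun W : Sub n F =>
      Module.finrank F W.1 = k), (Nat.card F : ℝ) ^ (A - (Module.finrank F W.1 : ℝ) *
        ((n : ℝ) - Module.finrank F W.1) * σ) ≤
      4 * (Nat.card F : ℝ) ^ (A + (σ - 1) - (σ - 1) * n) := by
    intro k hk
    rw [Finset.mem_Ico] at hk
    have hkn : (k : ℝ) ≤ n := by exact_mod_cast hk.2.le
    have hk1 : (1 : ℝ) ≤ k := by exact_mod_cast hk.1
    have hkn1 : (k : ℝ) + 1 ≤ n := by exact_mod_cast hk.2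
    have h2 : ∑ W ∈ Finset.univ.filter (fun W : Sub n F =>
      Module.finrank F W.1 = k), (Nat.card F : ℝ) ^ (A - (Module.finrank F W.1 : ℝ) *
        ((n : ℝ) - Module.finrank F W.1) * σ) =
        ((Finset.univ.filter (fun W : Sub n F => Module.finrank F W.1 = k)).card : ℝ) *
          (Nat.card F : ℝ) ^ (A - (k : ℝ) * ((n : ℝ) - k) * σ) := by
      rw [Finset.sum_congr rfl (g := fun _ => (Nat.card F : ℝ) ^ (A - (k : ℝ) *
        ((n : ℝ) - k) * σ))]
      · rw [Finset.sum_const, nsmul_eq_mul]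
      · intro W hW
        rw [Finset.mem_filter] at hW
        rw [hW.2]
    have h3 : (Finset.univ.filter (fun W : Sub n F => Module.finrank F W.1 = k)).card ≤
        Nat.card {W : Submodule F (Fin n → F) // Module.finrank F W = k} := by
      have : Finite (Submodule F (Fin n → F)) :=
        Finite.of_injective (fun W : Submodule F (Fin n → F) => (W : Set (Fin n → F)))
          SetLike.coe_injective
      rw [← Fintype.card_subtype, ← Nat.card_eq_fintype_card]
      refine Nat.card_le_card_of_injective (fun W => ⟨W.1.1, W.2⟩) ?_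
      intro W W' h
      apply Subtype.ext
      apply Subtype.ext
      exact congrArg (fun x : {W : Submodule F (Fin n → F) // Module.finrank F W = k} => x.1) h
    have h4 : (Nat.card {W : Submodule F (Fin n → F) // Module.finrank F W = k} : ℝ) ≤
        4 * (Nat.card F : ℝ) ^ ((k : ℝ) * ((n : ℝ) - k)) := by
      have h5 := (hSUB F (Fin n → F) k (by rw [Module.finrank_fin_fun]; exact hk.2.le)).2
      rw [Module.finrank_fin_fun] at h5
      have h6 : ((k : ℝ) * ((n : ℝ) - k)) = ((k * (n - k) : ℕ) : ℝ) := by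
        push_cast [Nat.cast_sub hk.2.le]
        ring
      rw [h6, Real.rpow_natCast]
      exact_mod_cast h5
    rw [h2]
    have h7 : (0 : ℝ) ≤ (Nat.card F : ℝ) ^ (A - (k : ℝ) * ((n : ℝ) - k) * σ) :=
      Real.rpow_nonneg hq.le _
    have h8 : ((Finset.univ.filter (fun W : Sub n F => Module.finrank F W.1 = k)).card : ℝ) ≤
        4 * (Nat.card F : ℝ) ^ ((k : ℝ) * ((n : ℝ) - k)) :=
      le_trans (by exact_mod_cast h3) h4
    refine le_trans (mul_le_mul_of_nonneg_right h8 h7) ?_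
    rw [mul_assoc, ← Real.rpow_add hq]
    refine mul_le_mul_of_nonneg_left ?_ (by norm_num)
    apply Real.rpow_le_rpow_of_exponent_le hq1
    have h9 : (n : ℝ) - 1 ≤ (k : ℝ) * ((n : ℝ) - k) := by nlinarith
    have h10 : (σ - 1) * ((n : ℝ) - 1) ≤ (σ - 1) * ((k : ℝ) * ((n : ℝ) - k)) :=
      mul_le_mul_of_nonneg_left h9 (by linarith)
    nlinarith
  refine le_trans (Finset.sum_le_sum h1) ?_
  rw [Finset.sum_const, Nat.card_Ico, nsmul_eq_mul]
  have h11 : ((n - 1 : ℕ) : ℝ) ≤ n := by exact_mod_cast Nat.sub_le n 1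
  have h12 : (0 : ℝ) ≤ 4 * (Nat.card F : ℝ) ^ (A + (σ - 1) - (σ - 1) * n) :=
    mul_nonneg (by norm_num) (Real.rpow_nonneg hq.le _)
  refine le_trans (mul_le_mul_of_nonneg_right h11 h12) (le_of_eq ?_)
  ring

end RT

open RT in
theorem t_RT : M_RT := by
  intro hSG hSUB hPW m hm
  have hσ : 2 < sig m := hSG m hm
  set M : ℕ := ∑ j : Fin m.length, m.get j with hM
  set A : ℝ := ∑ j : Fin m.length, (1 + 4 * (m.get j : ℝ) ^ 2) with hA
  have hA0 : 0 ≤ A := Finset.sum_nonneg fun j _ => by positivity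
  set B : ℝ := 4 ^ (m.length + 1) * 16 ^ M with hB
  have hB0 : 0 < B := by positivity
  have hs0 : 0 < sig m - 1 := by linarith
  have hM0 : (0 : ℝ) ≤ 2 * (M : ℝ) + 1 := by positivity
  refine ⟨B + (2 * M + 1) + (A + (sig m - 1)), by linarith, ?_⟩
  intro n hn F _ _
  have : Fintype (Sub n F) := Fintype.ofFinite _
  have hq1 : (1 : ℝ) ≤ Nat.card F := by exact_mod_cast Nat.card_pos
  have hq : (0 : ℝ) < Nat.card F := lt_of_lt_of_le one_pos hq1
  set C : ℝ := B + (2 * M + 1) + (A + (sig m - 1)) with hC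
  set J : ℝ := (Nat.card {t : Fin m.length → PS n F // ∀ j, t j ^ m.get j = 1} : ℝ) with hJ
  have hJ0 : 0 ≤ J := Nat.cast_nonneg _
  set K : ℝ := 4 ^ m.length * (16 * ((n : ℝ) + 1) ^ 2) ^ M with hK
  have hK0 : 0 ≤ K := by positivity
  have h1 : (Nat.card {t : Fin m.length → PS n F // (∀ j, t j ^ m.get j = 1) ∧
        ¬ Irr (Subgroup.closure (Set.range t))} : ℝ) ≤
      ∑ W : Sub n F, ∏ j : Fin m.length,
        (Nat.card {x : PS n F // x ^ m.get j = 1 ∧ Pres x W.1} : ℝ) := by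
    refine le_trans (Nat.cast_le.2 (card_le (n := n) (F := F) m)) (le_of_eq ?_)
    rw [Nat.card_sigma, Nat.cast_sum]
    refine Finset.sum_congr rfl fun W _ => ?_
    rw [Nat.card_pi, Nat.cast_prod]
  have h2 : ∑ W : Sub n F, ∏ j : Fin m.length,
        (Nat.card {x : PS n F // x ^ m.get j = 1 ∧ Pres x W.1} : ℝ) ≤
      ∑ W : Sub n F, K * J * (Nat.card F : ℝ) ^ (A - (Module.finrank F W.1 : ℝ) *
        ((n : ℝ) - Module.finrank F W.1) * sig m) := by
    refine Finset.sum_le_sum fun W _ => ?_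
    refine le_trans (prod_le hPW m hm.two W.1) (le_of_eq ?_)
    rw [hJ, card_tuples, ← hA, ← hM, ← hK]
    ring
  have h3 : K * J * ∑ W : Sub n F, (Nat.card F : ℝ) ^ (A - (Module.finrank F W.1 : ℝ) *
        ((n : ℝ) - Module.finrank F W.1) * sig m) ≤
      K * J * (4 * (n : ℝ) * (Nat.card F : ℝ) ^ (A + (sig m - 1) - (sig m - 1) * n)) :=
    mul_le_mul_of_nonneg_left (sum_le hSUB (by linarith)) (mul_nonneg hK0 hJ0)
  rw [Finset.mul_sum] at h3
  refine le_trans h1 (le_trans h2 (le_trans h3 ?_))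
  have hn0 : (0 : ℝ) ≤ n := Nat.cast_nonneg n
  have h4 : K * (4 * (n : ℝ)) ≤ B * ((n : ℝ) + 1) ^ (2 * M + 1) := by
    have e1 : K * (4 * (n : ℝ)) = B * (((n : ℝ) + 1) ^ (2 * M) * n) := by
      rw [hK, hB, mul_pow, ← pow_mul, pow_succ 4 m.length]
      ring
    rw [e1, pow_succ ((n : ℝ) + 1) (2 * M)]
    apply mul_le_mul_of_nonneg_left _ hB0.le
    exact mul_le_mul_of_nonneg_left (by linarith) (by positivity)
  have h5 : ((n : ℝ) + 1) ^ (2 * M + 1) ≤ ((n : ℝ) + 1) ^ C := by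
    rw [← Real.rpow_natCast]
    apply Real.rpow_le_rpow_of_exponent_le (by linarith)
    push_cast
    linarith
  have h6 : (Nat.card F : ℝ) ^ (A + (sig m - 1) - (sig m - 1) * n) ≤
      (Nat.card F : ℝ) ^ (C - (sig m - 1) * n) := by
    apply Real.rpow_le_rpow_of_exponent_le hq1
    linarith
  have h7 : K * (4 * (n : ℝ)) ≤ C * ((n : ℝ) + 1) ^ C := by
    refine le_trans h4 ?_
    exact mul_le_mul (by linarith) h5 (by positivity) (by linarith)
  have h8 : K * (4 * (n : ℝ)) * (Nat.card F : ℝ) ^ (A + (sig m - 1) - (sig m - 1) * n) ≤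
      C * ((n : ℝ) + 1) ^ C * (Nat.card F : ℝ) ^ (C - (sig m - 1) * n) :=
    mul_le_mul h7 h6 (Real.rpow_nonneg hq.le _)
      (mul_nonneg (by linarith) (Real.rpow_nonneg (by linarith) _))
  calc K * J * (4 * (n : ℝ) * (Nat.card F : ℝ) ^ (A + (sig m - 1) - (sig m - 1) * n))
      = K * (4 * (n : ℝ)) * (Nat.card F : ℝ) ^ (A + (sig m - 1) - (sig m - 1) * n) * J := by
        ring
    _ ≤ _ := mul_le_mul_of_nonneg_right h8 hJ0

end

end RSF
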