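import Pool.Agent.RSF.Stmts

/-!
MP_5b5212_al, module SM: three small statements.
-/

namespace RSF

namespace SM

theorem ev (n : ℕ) : ∀ m : List ℕ, m.length = n → (∀ k, Even (m.count k)) →
    ∃ L : List ℕ, m.Perm (L ++ L) := by
  induction n using Nat.strong_induction_on with
  | _ n ih =>
    intro m hm hev
    match m, hm, hev with
    | [], _, _ => exact ⟨[], List.Perm.refl _⟩
    | a :: t, hm, hev =>
      have ha : a ∈ t := by
        have h := hev a
        rw [List.count_cons_self] at h
        have h2 : t.count a ≠ 0 := by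
          intro h0
          rw [h0] at h
          exact absurd h (by decide)
        exact List.count_pos_iff.1 (Nat.pos_of_ne_zero h2)
      have hp : t.Perm (a :: t.erase a) := List.perm_cons_erase ha
      have hlen : (t.erase a).length < n := by
        have h1 := hp.length_eq
        simp only [List.length_cons] at h1 hm
        omega
      have hev' : ∀ k, Even ((t.erase a).count k) := by
        intro k
        have h := hev k
        rw [List.count_cons, hp.count_eq, List.count_cons] at h
        by_cases hk : (a == k) = true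
        · rw [if_pos hk] at h
          have : (t.erase a).count k + 1 + 1 = (t.erase a).count k + 2 := rfl
          rw [this] at h
          exact (Nat.even_add.1 h).2 (by decide)
        · rw [if_neg hk] at h
          simpa using h
      obtain ⟨L, hL⟩ := ih _ hlen (t.erase a) rfl hev'
      refine ⟨a :: L, ?_⟩
      refine ((hp.cons a).trans ((hL.cons a).cons a)).trans ?_
      simp only [List.cons_append]
      exact (List.perm_middle.symm).cons a

theorem t_EV : S_EV := fun m hm => ev m.length m rfl hm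

theorem pi_two (n : ℕ) :
    1 / 4 + (1 / 2 : ℝ) ^ (n + 2) ≤ ∏ i ∈ Finset.range (n + 1), (1 - (1 / 2 : ℝ) ^ (i + 1)) := by
  induction n with
  | zero => norm_num
  | succ n ih =>
    rw [Finset.prod_range_succ]
    have h0 : (0 : ℝ) ≤ 1 - (1 / 2 : ℝ) ^ (n + 1 + 1) := by
      have : (1 / 2 : ℝ) ^ (n + 1 + 1) ≤ 1 := pow_le_one₀ (by norm_num) (by norm_num)
      linarith
    refine le_trans ?_ (mul_le_mul_of_nonneg_right ih h0)
    have hx : (1 / 2 : ℝ) ^ (n + 1 + 1) = (1 / 2 : ℝ) ^ n / 4 := by
      rw [pow_succ, pow_succ]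
      ring
    have hx2 : (1 / 2 : ℝ) ^ (n + 1 + 2) = (1 / 2 : ℝ) ^ n / 8 := by
      rw [pow_succ, pow_succ, pow_succ]
      ring
    have hy0 : (0 : ℝ) ≤ (1 / 2 : ℝ) ^ n := by positivity
    have hy1 : (1 / 2 : ℝ) ^ n ≤ 1 := pow_le_one₀ (by norm_num) (by norm_num)
    rw [hx, hx2]
    nlinarith [mul_nonneg hy0 (sub_nonneg.2 hy1)]

theorem t_PI : S_PI := by
  intro q hq n
  have h1 : ∏ i ∈ Finset.range n, (1 - (1 / 2 : ℝ) ^ (i + 1)) ≤
      ∏ i ∈ Finset.range n, (1 - (q⁻¹) ^ (i + 1)) := by
    refine Finset.prod_le_prod ?_ ?_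
    · intro i _
      have : (1 / 2 : ℝ) ^ (i + 1) ≤ 1 := pow_le_one₀ (by norm_num) (by norm_num)
      linarith
    · intro i _
      have hq0 : 0 < q := by linarith
      have h2 : q⁻¹ ≤ 1 / 2 := by
        rw [inv_eq_one_div]
        exact one_div_le_one_div_of_le (by norm_num) hq
      have := pow_le_pow_left₀ (inv_nonneg.2 hq0.le) h2 (i + 1)
      linarith
  refine le_trans ?_ h1
  cases n with
  | zero => norm_num
  | succ n =>
    have := pi_two n
    have h3 : (0 : ℝ) ≤ (1 / 2 : ℝ) ^ (n + 2) := by positivity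
    linarith

theorem sig_cons (k : ℕ) (m : List ℕ) : sig (k :: m) = (1 - 1 / (k : ℝ)) + sig m := by
  simp [sig]

theorem term_half {k : ℕ} (hk : 2 ≤ k) : (1 / 2 : ℝ) ≤ 1 - 1 / (k : ℝ) := by
  have h : (2 : ℝ) ≤ k := by exact_mod_cast hk
  have : 1 / (k : ℝ) ≤ 1 / 2 := one_div_le_one_div_of_le (by norm_num) h
  linarith

theorem term_two_thirds {k : ℕ} (hk : 3 ≤ k) : (2 / 3 : ℝ) ≤ 1 - 1 / (k : ℝ) := by
  have h : (3 : ℝ) ≤ k := by exact_mod_cast hk
  have : 1 / (k : ℝ) ≤ 1 / 3 := one_div_le_one_div_of_le (by norm_num) h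
  linarith

theorem sig_ge (m : List ℕ) (h : ∀ k ∈ m, 2 ≤ k) : (m.length : ℝ) / 2 ≤ sig m := by
  induction m with
  | nil => simp [sig]
  | cons k m ih =>
    rw [sig_cons, List.length_cons]
    have h1 := ih fun k hk => h k (List.mem_cons_of_mem _ hk)
    have h2 := term_half (h k List.mem_cons_self)
    push_cast
    linarith

theorem sig_ge' (m : List ℕ) (h : ∀ k ∈ m, 2 ≤ k) (h3 : ∃ k ∈ m, 3 ≤ k) :
    (m.length : ℝ) / 2 + 1 / 6 ≤ sig m := by
  induction m with
  | nil => simp at h3
  | cons k m ih =>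
    rw [sig_cons, List.length_cons]
    push_cast
    obtain ⟨j, hj, hj3⟩ := h3
    rcases List.mem_cons.1 hj with hj' | hj'
    · subst hj'
      have h1 := sig_ge m fun k hk => h k (List.mem_cons_of_mem _ hk)
      have h2 := term_two_thirds hj3
      linarith
    · have h1 := ih (fun k hk => h k (List.mem_cons_of_mem _ hk)) ⟨j, hj', hj3⟩
      have h2 := term_half (h k List.mem_cons_self)
      linarith

theorem t_SG : S_SG := by
  intro m hm
  rcases Nat.lt_or_ge 4 m.length with hl | hl
  · have h1 := sig_ge m hm.two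
    have h2 : (5 : ℝ) ≤ m.length := by exact_mod_cast hl
    linarith
  · have h4 : m.length = 4 := le_antisymm hl hm.len
    have h3 : ∃ k ∈ m, 3 ≤ k := by
      by_contra hcon
      push Not at hcon
      refine hm.ne ?_
      have : m = List.replicate 4 2 := by
        rw [List.eq_replicate_iff]
        refine ⟨h4, fun k hk => ?_⟩
        have h5 := hcon k hk
        have h6 := hm.two k hk
        omega
      rw [this]
      rfl
    have h1 := sig_ge' m hm.two h3
    rw [h4] at h1
    push_cast at h1
    linarith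

end SM

/-- module `SM` -/
theorem t_SM : M_SM := ⟨SM.t_EV, SM.t_PI, SM.t_SG⟩

end RSF
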