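import Pool.Agent.RSF.Stmts

/-!
# The key count (module T)
-/

namespace RSF

open Polynomial

noncomputable section

namespace T

variable {F V : Type} [Field F] [Finite F] [AddCommGroup V] [Module F V] [FiniteDimensional F V]

theorem finite_V (F V : Type) [Field F] [Finite F] [AddCommGroup V] [Module F V]
    [FiniteDimensional F V] : Finite V := Module.finite_of_finite F

theorem finite_End (F V : Type) [Field F] [Finite F] [AddCommGroup V] [Module F V]
    [FiniteDimensional F V] : Finite (Module.End F V) := by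
  have := finite_V F V
  exact DFunLike.finite _

theorem finite_Sub (F V : Type) [Field F] [Finite F] [AddCommGroup V] [Module F V]
    [FiniteDimensional F V] : Finite (Submodule F V) := by
  have := finite_V F V
  exact Finite.of_injective (fun W : Submodule F V => (W : Set V)) SetLike.coe_injective

/-- the pairs as a sum over the endomorphisms -/
def pairEquiv (g : F[X]) (k : ℕ) :
    {p : Module.End F V × Submodule F V //
      aeval p.1 g = 0 ∧ Module.finrank F p.2 = k ∧ ∀ w ∈ p.2, p.1 w ∈ p.2} ≃
    Σ A : {A : Module.End F V // aeval A g = 0},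
      {W : Submodule F V // Module.finrank F W = k ∧ ∀ w ∈ W, A.1 w ∈ W} where
  toFun p := ⟨⟨p.1.1, p.2.1⟩, ⟨p.1.2, p.2.2⟩⟩
  invFun p := ⟨(p.1.1, p.2.1), p.1.2, p.2.2⟩
  left_inv _ := rfl
  right_inv _ := rfl

theorem nT_le (g : F[X]) (k : ℕ) (M : ℝ)
    (hM : ∀ A : Module.End F V, aeval A g = 0 →
      (Nat.card {W : Submodule F V // Module.finrank F W = k ∧ ∀ w ∈ W, A w ∈ W} : ℝ) ≤ M) :
    (nT F V g k : ℝ) ≤ Nat.card {A : Module.End F V // aeval A g = 0} * M := by
  have h1 := finite_End F V
  have h2 := finite_Sub F V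
  have := Fintype.ofFinite {A : Module.End F V // aeval A g = 0}
  have h3 : nT F V g k = ∑ A : {A : Module.End F V // aeval A g = 0},
      Nat.card {W : Submodule F V // Module.finrank F W = k ∧ ∀ w ∈ W, A.1 w ∈ W} := by
    rw [nT, Nat.card_congr (pairEquiv g k), Nat.card_sigma]
  rw [h3, Nat.cast_sum]
  calc ∑ A : {A : Module.End F V // aeval A g = 0},
        (Nat.card {W : Submodule F V // Module.finrank F W = k ∧ ∀ w ∈ W, A.1 w ∈ W} : ℝ)
      ≤ ∑ _A : {A : Module.End F V // aeval A g = 0}, M :=
        Finset.sum_le_sum fun A _ => hM A.1 A.2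
    _ = Nat.card {A : Module.End F V // aeval A g = 0} * M := by
        rw [Finset.sum_const, Finset.card_univ, Nat.card_eq_fintype_card, nsmul_eq_mul]

theorem nT_eq_zero (g : F[X]) (k : ℕ) (hk : Module.finrank F V < k) : nT F V g k = 0 := by
  rw [nT, Nat.card_eq_zero]
  left
  refine ⟨fun p => ?_⟩
  have h1 := Submodule.finrank_le p.1.2
  have h2 := p.2.2.1
  omega

theorem q_pos (F : Type) [Field F] [Finite F] : (0 : ℝ) < Nat.card F := by
  exact_mod_cast Nat.card_pos

theorem base (hIA : S_IA) (hIW : S_IW) (f : F[X]) (hf : f.Monic) (hirr : Irreducible f) (k : ℕ) :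
    (nT F V f k : ℝ) ≤ 4 * (Nat.card F : ℝ) ^
      ((Module.finrank F V : ℝ) ^ 2 - QQ (Module.finrank F V) k / f.natDegree) := by
  have hq := q_pos F
  by_cases hk : k ≤ Module.finrank F V
  · have h1 := hIA F V f hf hirr
    have h2 := nT_le (F := F) (V := V) f k _ fun A hA => hIW F V f hf hirr A hA k hk
    have hd : (0 : ℝ) < f.natDegree := by exact_mod_cast hirr.natDegree_pos
    have h3 : (4 : ℝ) * (Nat.card F : ℝ) ^
        ((k : ℝ) * ((Module.finrank F V : ℝ) - k) / (f.natDegree : ℝ)) ≥ 0 := by positivity
    refine h2.trans ((mul_le_mul_of_nonneg_right h1 h3).trans (le_of_eq ?_))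
    have h4 : (Module.finrank F V : ℝ) ^ 2 - QQ (Module.finrank F V) k / f.natDegree =
        (Module.finrank F V : ℝ) ^ 2 * (1 - 1 / (f.natDegree : ℝ)) +
        (k : ℝ) * ((Module.finrank F V : ℝ) - k) / (f.natDegree : ℝ) := by
      rw [QQ]
      field_simp
      ring
    rw [h4, Real.rpow_add hq]
    ring
  · rw [nT_eq_zero f k (not_le.1 hk)]
    simp only [Nat.cast_zero]
    positivity

end T

open T in
theorem t_T : M_T := by
  intro hIA hIW hTS F V _ _ _ _ _ g hg hdeg k
  have key : ∀ d : ℕ, ∀ (V : Type) [AddCommGroup V] [Module F V] [FiniteDimensional F V]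
      (g : F[X]), g.Monic → g.natDegree = d → 1 ≤ d → ∀ k : ℕ,
      (nT F V g k : ℝ) ≤ (16 * ((Module.finrank F V : ℝ) + 1) ^ 2) ^ g.natDegree *
        (Nat.card F : ℝ) ^
          ((Module.finrank F V : ℝ) ^ 2 - QQ (Module.finrank F V) k / g.natDegree) := by
    intro d
    induction d using Nat.strong_induction_on with
    | _ d ih =>
      intro V _ _ _ g hg hgd hd k
      have hq := q_pos F
      have hnu : ¬ IsUnit g := by
        intro hu
        have := natDegree_eq_zero_of_isUnit hu
        omega
      obtain ⟨f, hf, hirr, g', rfl⟩ := exists_monic_irreducible_factor g hnu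
      have hg' : g'.Monic := hf.of_mul_monic_left hg
      have hdf : 0 < f.natDegree := hirr.natDegree_pos
      have hmul : (f * g').natDegree = f.natDegree + g'.natDegree := hf.natDegree_mul hg'
      have hn0 : (0 : ℝ) ≤ Module.finrank F V := Nat.cast_nonneg _
      have hB1 : (1 : ℝ) ≤ 16 * ((Module.finrank F V : ℝ) + 1) ^ 2 := by nlinarith
      have hB4 : (4 : ℝ) ≤ 16 * ((Module.finrank F V : ℝ) + 1) ^ 2 := by nlinarith
      by_cases hz : g'.natDegree = 0
      · have hg1 : g' = 1 := hg'.natDegree_eq_zero.1 hz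
        subst hg1
        rw [mul_one]
        refine (base hIA hIW f hf hirr k).trans ?_
        refine mul_le_mul_of_nonneg_right ?_ (by positivity)
        exact hB4.trans (le_self_pow₀ hB1 hdf.ne')
      · have h1 : ∀ (U : Submodule F V) (w : ℕ), (nT F U g' w : ℝ) ≤
            (16 * ((Module.finrank F V : ℝ) + 1) ^ 2) ^ g'.natDegree * (Nat.card F : ℝ) ^
              ((Module.finrank F U : ℝ) ^ 2 - QQ (Module.finrank F U) w / (g'.natDegree : ℝ)) := by
          intro U w
          refine (ih g'.natDegree (by omega) U g' hg' rfl (by omega) w).trans ?_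
          refine mul_le_mul_of_nonneg_right ?_ (by positivity)
          have hU : (Module.finrank F U : ℝ) ≤ Module.finrank F V := by
            exact_mod_cast Submodule.finrank_le U
          gcongr
        have h2 := hTS F V f g' hf hirr hg' (g'.natDegree : ℝ)
          ((16 * ((Module.finrank F V : ℝ) + 1) ^ 2) ^ g'.natDegree)
          (by exact_mod_cast Nat.pos_of_ne_zero hz) (one_le_pow₀ hB1) h1 k
        refine h2.trans ?_
        have h3 : ((f * g').natDegree : ℝ) = (g'.natDegree : ℝ) + f.natDegree := by
          rw [hmul]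
          push_cast
          ring
        rw [h3]
        refine mul_le_mul_of_nonneg_right ?_ (by positivity)
        rw [← pow_succ', hmul]
        exact pow_le_pow_right₀ hB1 (by omega)
  exact key g.natDegree V g hg rfl hdeg k

end

end RSF
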