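import Pool.Agent.RSF.Stmts2

/-!
# RSF, module TC: conjugating matrices of determinant `1`
-/

namespace RSF

open Polynomial

noncomputable section

namespace TC

/-- A matrix whose characteristic polynomial has the distinct roots `β i` is diagonalised by an
invertible matrix. -/
theorem diag {F : Type} [Field F] {n : ℕ} (B : Matrix (Fin n) (Fin n) F) (β : Fin n → F)
    (hβ : Function.Injective β) (h : ∀ i, B.charpoly.eval (β i) = 0) :
    ∃ P : Matrix (Fin n) (Fin n) F, P.det ≠ 0 ∧ B * P = P * Matrix.diagonal β := by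
  have h1 : ∀ i, ∃ v : Fin n → F, v ≠ 0 ∧ B.mulVec v = β i • v := by
    intro i
    have h2 := h i
    rw [Matrix.eval_charpoly, ← Matrix.exists_mulVec_eq_zero_iff] at h2
    obtain ⟨v, hv, hv'⟩ := h2
    refine ⟨v, hv, ?_⟩
    rw [Matrix.sub_mulVec, sub_eq_zero] at hv'
    rw [← hv', Matrix.scalar_apply]
    ext k
    rw [Matrix.mulVec_diagonal, Pi.smul_apply, smul_eq_mul]
  choose v hv hv' using h1
  have hli : LinearIndependent F v := by
    refine Module.End.eigenvectors_linearIndependent' (Matrix.toLin' B) β hβ v fun i => ?_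
    rw [Module.End.hasEigenvector_iff]
    refine ⟨?_, hv i⟩
    rw [Module.End.mem_eigenspace_iff, Matrix.toLin'_apply, hv' i]
  let P : Matrix (Fin n) (Fin n) F := (Matrix.of v).transpose
  have hcol : P.col = v := rfl
  refine ⟨P, ?_, ?_⟩
  · have : IsUnit P := Matrix.linearIndependent_cols_iff_isUnit.1 (by rw [hcol]; exact hli)
    exact ((Matrix.isUnit_iff_isUnit_det P).1 this).ne_zero
  · ext k j
    rw [Matrix.mul_diagonal]
    have := congrFun (hv' j) k
    rw [Pi.smul_apply, smul_eq_mul, mul_comm] at this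
    exact this

end TC

theorem t_TC : S_TC := by
  intro F _ _ n s hn hs h0 B B' hB hB'
  obtain ⟨k, rfl⟩ : ∃ k, n = k + 1 := ⟨n - 1, by omega⟩
  rw [Nat.add_sub_cancel]
  let e := Finset.equivFinOfCardEq hs
  let β : Fin (k + 1) → F := fun i => (e.symm i : F)
  have hβ : Function.Injective β := fun i j h => e.symm.injective (Subtype.ext h)
  have hroot : ∀ i, (rp s).eval (β i) = 0 := by
    intro i
    unfold rp
    rw [eval_prod]
    refine Finset.prod_eq_zero (e.symm i).2 ?_
    rw [eval_sub, eval_X, eval_C]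
    exact sub_self _
  obtain ⟨P, hP, hBP⟩ := TC.diag B β hβ (by rw [hB]; exact hroot)
  obtain ⟨Q, hQ, hBQ⟩ := TC.diag B' β hβ (by rw [hB']; exact hroot)
  let c : Fˣ := Units.mk0 (P.det * Q.det⁻¹) (mul_ne_zero hP (inv_ne_zero hQ))
  let t : (Fin k → Fˣ) → (Fin (k + 1) → F) := fun u => fun i =>
    ((Fin.cons (c * (∏ j, u j)⁻¹) u : Fin (k + 1) → Fˣ) i : F)
  have ht : ∀ u, ∏ i, t u i = P.det * Q.det⁻¹ := by
    intro u
    have : ∏ i, t u i = ((∏ i, (Fin.cons (c * (∏ j, u j)⁻¹) u : Fin (k + 1) → Fˣ) i : Fˣ) : F) := by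
      rw [Units.coe_prod]
    rw [this, Fin.prod_cons, inv_mul_cancel_right]
    rfl
  have hPu : IsUnit P.det := isUnit_iff_ne_zero.2 hP
  have hQu : IsUnit Q.det := isUnit_iff_ne_zero.2 hQ
  let f : (Fin k → Fˣ) →
      {S : Matrix.SpecialLinearGroup (Fin (k + 1)) F // S.1 * B = B' * S.1} := fun u =>
    ⟨⟨Q * Matrix.diagonal (t u) * P⁻¹, by
      rw [Matrix.det_mul, Matrix.det_mul, Matrix.det_diagonal, ht, Matrix.det_nonsing_inv,
        Ring.inverse_eq_inv']
      field_simp⟩, by
      change Q * Matrix.diagonal (t u) * P⁻¹ * B = B' * (Q * Matrix.diagonal (t u) * P⁻¹)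
      have h1 : P⁻¹ * B = Matrix.diagonal β * P⁻¹ := by
        have h2 : B = P * Matrix.diagonal β * P⁻¹ := by
          rw [← hBP, Matrix.mul_assoc, Matrix.mul_nonsing_inv P hPu, Matrix.mul_one]
        have h3 : P⁻¹ * (P * Matrix.diagonal β * P⁻¹) = Matrix.diagonal β * P⁻¹ := by
          rw [Matrix.mul_assoc, Matrix.nonsing_inv_mul_cancel_left P _ hPu]
        rw [← h3, ← h2]
      calc Q * Matrix.diagonal (t u) * P⁻¹ * B = Q * (Matrix.diagonal (t u) * (P⁻¹ * B)) := by
            simp only [Matrix.mul_assoc]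
        _ = Q * ((Matrix.diagonal (t u) * Matrix.diagonal β) * P⁻¹) := by
            rw [h1, Matrix.mul_assoc]
        _ = Q * ((Matrix.diagonal β * Matrix.diagonal (t u)) * P⁻¹) := by
            rw [(Matrix.commute_diagonal (t u) β).eq]
        _ = (Q * Matrix.diagonal β) * (Matrix.diagonal (t u) * P⁻¹) := by
            simp only [Matrix.mul_assoc]
        _ = (B' * Q) * (Matrix.diagonal (t u) * P⁻¹) := by rw [hBQ]
        _ = B' * (Q * Matrix.diagonal (t u) * P⁻¹) := by simp only [Matrix.mul_assoc]⟩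
  have hf : Function.Injective f := by
    intro u u' h
    have h1 : Q * Matrix.diagonal (t u) * P⁻¹ = Q * Matrix.diagonal (t u') * P⁻¹ :=
      congrArg (fun S => S.1.1) h
    have h2 : Q * Matrix.diagonal (t u) = Q * Matrix.diagonal (t u') := by
      have := congrArg (fun M => M * P) h1
      simpa only [Matrix.mul_assoc, Matrix.nonsing_inv_mul P hPu, Matrix.mul_one] using this
    have h3 : Matrix.diagonal (t u) = Matrix.diagonal (t u') := by
      have := congrArg (fun M => Q⁻¹ * M) h2
      simpa only [Matrix.nonsing_inv_mul_cancel_left Q _ hQu] using this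
    have h4 : t u = t u' := Matrix.diagonal_injective h3
    funext i
    have h5 := congrFun h4 i.succ
    exact Units.ext h5
  have hcard : Nat.card (Fin k → Fˣ) = (Nat.card F - 1) ^ k := by
    rw [Nat.card_fun, Nat.card_units, Nat.card_fin]
  rw [← hcard]
  have : Finite (Matrix.SpecialLinearGroup (Fin (k + 1)) F) :=
    Finite.of_injective (fun S => S.1) Subtype.val_injective
  exact Nat.card_le_card_of_injective f hf

end

end RSF
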