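import Pool.Agent.RSF.Stmts3

/-!
# Module U2 (MP_5b5212_al): upper bounds by the order of a centraliser
-/

namespace RSF

namespace U2

theorem aux1 {G : Type} [Group G] {a a0 c d : G} (h0 : a0 * c * a0⁻¹ = d)
    (h1 : a * c * a⁻¹ = d) : a0⁻¹ * a * c = c * (a0⁻¹ * a) := by
  have h3 : a * c = d * a := by
    rw [← h1]
    group
  have h4 : a0⁻¹ * d = c * a0⁻¹ := by
    rw [← h0]
    group
  rw [mul_assoc, h3, ← mul_assoc, h4, mul_assoc]

theorem aux2 {G : Type} [Group G] {a b c g : G} (hc : a * b = c)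
    (h : g * (a ^ 2 * b ^ 2) = 1) : a * c * a⁻¹ = g⁻¹ * c⁻¹ := by
  have h1 : a ^ 2 * b ^ 2 = g⁻¹ := (inv_eq_of_mul_eq_one_right h).symm
  rw [← h1, ← hc, pow_two, pow_two]
  group

theorem card_le {G : Type} [Group G] [Finite G] (c d : G) :
    Nat.card {a : G // a * c * a⁻¹ = d} ≤ Nat.card {a : G // Commute a c} := by
  by_cases h : ∃ a0 : G, a0 * c * a0⁻¹ = d
  · obtain ⟨a0, h0⟩ := h
    refine Nat.card_le_card_of_injective
      (fun a : {a : G // a * c * a⁻¹ = d} =>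
        (⟨a0⁻¹ * a.1, ?_⟩ : {a : G // Commute a c})) ?_
    · exact aux1 h0 a.2
    · rintro ⟨a, h⟩ ⟨a', h'⟩ he
      simp only [Subtype.mk.injEq] at he
      exact Subtype.ext (mul_left_cancel he)
  · have : IsEmpty {a : G // a * c * a⁻¹ = d} := ⟨fun a => h ⟨a.1, a.2⟩⟩
    rw [Nat.card_of_isEmpty]
    exact Nat.zero_le _

end U2

theorem t_U2 : S_U2 := by
  intro G _ _ g c
  constructor
  · refine le_trans (Nat.card_le_card_of_injective
      (fun a : {a : G // g * (a * c * a⁻¹ * c⁻¹) = 1} =>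
        (⟨a.1, ?_⟩ : {a : G // a * c * a⁻¹ = g⁻¹ * c})) ?_) (U2.card_le c (g⁻¹ * c))
    · have h := a.2
      have h1 : a.1 * c * a.1⁻¹ * c⁻¹ = g⁻¹ := (inv_eq_of_mul_eq_one_right h).symm
      rw [← h1]
      group
    · intro a a' he
      apply Subtype.ext
      simpa using he
  · refine le_trans (Nat.card_le_card_of_injective
      (fun p : {p : G × G // p.1 * p.2 = c ∧ g * (p.1 ^ 2 * p.2 ^ 2) = 1} =>
        (⟨p.1.1, ?_⟩ : {a : G // a * c * a⁻¹ = g⁻¹ * c⁻¹})) ?_) (U2.card_le c (g⁻¹ * c⁻¹))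
    · exact U2.aux2 p.2.1 p.2.2
    · rintro ⟨⟨a, b⟩, h, h2⟩ ⟨⟨a', b'⟩, h', h2'⟩ he
      simp only [Subtype.mk.injEq] at he
      subst he
      have h3 : a * b = a * b' := h.trans h'.symm
      have h4 : b = b' := mul_left_cancel h3
      subst h4
      rfl

end RSF
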