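import Pool.Agent.RSF.Stmts

/-!
# Module UP (MP_5b5212_al): upper bounds by the number of commuting pairs
-/

namespace RSF

namespace UP

theorem card_le {G : Type} [Group G] [Finite G] (f : G → G) :
    Nat.card {p : G × G // p.1 * p.2 * p.1⁻¹ = f p.2} ≤ cm G := by
  classical
  have hch : ∀ b : G, ∃ c : G, ∀ a : G, a * b * a⁻¹ = f b → c * b * c⁻¹ = f b := by
    intro b
    by_cases h : ∃ a, a * b * a⁻¹ = f b
    · obtain ⟨a, ha⟩ := h
      exact ⟨a, fun _ _ => ha⟩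
    · exact ⟨1, fun a ha => absurd ⟨a, ha⟩ h⟩
  choose c hc using hch
  unfold cm
  refine Nat.card_le_card_of_injective
    (fun p : {p : G × G // p.1 * p.2 * p.1⁻¹ = f p.2} =>
      (⟨((c p.1.2)⁻¹ * p.1.1, p.1.2), ?_⟩ : {p : G × G // Commute p.1 p.2})) ?_
  · have h1 := p.2
    have h2 := hc p.1.2 p.1.1 h1
    show (c p.1.2)⁻¹ * p.1.1 * p.1.2 = p.1.2 * ((c p.1.2)⁻¹ * p.1.1)
    have h3 : p.1.1 * p.1.2 = f p.1.2 * p.1.1 := by
      rw [← h1]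
      group
    have h4 : (c p.1.2)⁻¹ * f p.1.2 = p.1.2 * (c p.1.2)⁻¹ := by
      rw [← h2]
      group
    rw [mul_assoc, h3, ← mul_assoc, h4, mul_assoc]
  · rintro ⟨⟨a, b⟩, h⟩ ⟨⟨a', b'⟩, h'⟩ he
    simp only [Subtype.mk.injEq, Prod.mk.injEq] at he
    obtain ⟨h1, rfl⟩ := he
    have h2 : a = a' := mul_left_cancel h1
    subst h2
    rfl

end UP

theorem t_UP : S_UP := by
  intro G _ _ g
  constructor
  · refine le_trans (Nat.card_le_card_of_injective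
      (fun p : {p : G × G // g * (p.1 * p.2 * p.1⁻¹ * p.2⁻¹) = 1} =>
        (⟨p.1, ?_⟩ : {p : G × G // p.1 * p.2 * p.1⁻¹ = (fun b => g⁻¹ * b) p.2})) ?_)
      (UP.card_le fun b => g⁻¹ * b)
    · have h := p.2
      show p.1.1 * p.1.2 * p.1.1⁻¹ = g⁻¹ * p.1.2
      have h1 : p.1.1 * p.1.2 * p.1.1⁻¹ * p.1.2⁻¹ = g⁻¹ := (inv_eq_of_mul_eq_one_right h).symm
      rw [← h1]
      group
    · intro p p' he
      apply Subtype.ext
      simpa using he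
  · refine le_trans (Nat.card_le_card_of_injective
      (fun p : {p : G × G // g * (p.1 ^ 2 * p.2 ^ 2) = 1} =>
        (⟨(p.1.1, p.1.1 * p.1.2), ?_⟩ :
          {p : G × G // p.1 * p.2 * p.1⁻¹ = (fun c => g⁻¹ * c⁻¹) p.2})) ?_)
      (UP.card_le fun c => g⁻¹ * c⁻¹)
    · have h := p.2
      show p.1.1 * (p.1.1 * p.1.2) * p.1.1⁻¹ = g⁻¹ * (p.1.1 * p.1.2)⁻¹
      have h1 : p.1.1 ^ 2 * p.1.2 ^ 2 = g⁻¹ := (inv_eq_of_mul_eq_one_right h).symm
      rw [← h1, pow_two, pow_two]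
      group
    · rintro ⟨⟨a, b⟩, h⟩ ⟨⟨a', b'⟩, h'⟩ he
      simp only [Subtype.mk.injEq, Prod.mk.injEq] at he
      obtain ⟨rfl, h2⟩ := he
      have h3 : b = b' := mul_left_cancel h2
      subst h3
      rfl

end RSF
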