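import Pool.Agent.RSF.Stmts2

/-!
# Counting of pairs (v, f)
-/

namespace RSF

open Polynomial

noncomputable section

namespace VF

variable {F V : Type} [Field F] [Finite F] [AddCommGroup V] [Module F V] [FiniteDimensional F V]

omit [Finite F] [FiniteDimensional F V] in
lemma exists_duals (x y : V) (h : LinearIndependent F ![x, y]) :
    ∃ g k : V →ₗ[F] F, g x = 1 ∧ g y = 0 ∧ k x = 0 ∧ k y = 1 := by
  let L : F × F →ₗ[F] V :=
    (LinearMap.toSpanSingleton F V x).coprod (LinearMap.toSpanSingleton F V y)
  have hLa : ∀ a b : F, L (a, b) = a • x + b • y := fun a b => by simp [L]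
  have hL : LinearMap.ker L = ⊥ := by
    rw [LinearMap.ker_eq_bot']
    rintro ⟨a, b⟩ hab
    rw [hLa] at hab
    obtain ⟨h1, h2⟩ := LinearIndependent.pair_iff.1 h a b hab
    rw [h1, h2]; rfl
  obtain ⟨G, hG⟩ := L.exists_leftInverse_of_injective hL
  have hGx : G x = (1, 0) := by
    have := LinearMap.congr_fun hG (1, 0)
    simpa [hLa] using this
  have hGy : G y = (0, 1) := by
    have := LinearMap.congr_fun hG (0, 1)
    simpa [hLa] using this
  exact ⟨LinearMap.fst F F F ∘ₗ G, LinearMap.snd F F F ∘ₗ G, by simp [hGx], by simp [hGy],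
    by simp [hGx], by simp [hGy]⟩

omit [Finite F] in
lemma card_dual [Finite F] : Nat.card (V →ₗ[F] F) = Nat.card F ^ Module.finrank F V := by
  have h := Module.natCard_eq_pow_finrank (K := F) (V := V →ₗ[F] F)
  rw [h]
  congr 1
  exact Subspace.dual_finrank_eq

/-- the number of functionals with two prescribed values -/
lemma card_fiber (x y : V) (h : LinearIndependent F ![x, y]) (t : F) :
    Nat.card {f : V →ₗ[F] F // f x = 1 ∧ f y = t} * Nat.card F ^ 2 =
      Nat.card F ^ Module.finrank F V := by
  obtain ⟨g, k, hgx, hgy, hkx, hky⟩ := exists_duals x y h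
  rw [← card_dual (F := F) (V := V)]
  have e : ({f : V →ₗ[F] F // f x = 1 ∧ f y = t} × (F × F)) ≃ (V →ₗ[F] F) :=
    { toFun := fun p => p.1.1 + p.2.1 • g + p.2.2 • k
      invFun := fun f => (⟨f - (f x - 1) • g - (f y - t) • k, by simp [hgx, hkx], by
        simp [hgy, hky]⟩, (f x - 1, f y - t))
      left_inv := by
        rintro ⟨⟨f, h1, h2⟩, a, b⟩
        ext1
        · apply Subtype.ext
          ext w
          simp [h1, h2, hgx, hgy, hkx, hky]
          ring
        · simp [h1, h2, hgx, hgy, hkx, hky]
      right_inv := by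
        intro f
        ext w
        simp
        ring }
  rw [← Nat.card_congr e, Nat.card_prod, Nat.card_prod]
  ring

lemma card_ker (g : V →ₗ[F] F) (x : V) (hg : g x = 1) :
    Nat.card {w : V // g w = 0} * Nat.card F = Nat.card F ^ Module.finrank F V := by
  rw [← Module.natCard_eq_pow_finrank (K := F) (V := V)]
  have e : ({w : V // g w = 0} × F) ≃ V :=
    { toFun := fun p => p.1.1 + p.2 • x
      invFun := fun v => (⟨v - g v • x, by simp [hg]⟩, g v)
      left_inv := by
        rintro ⟨⟨w, hw⟩, a⟩
        ext1
        · apply Subtype.ext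
          simp [hw, hg]
        · simp [hw, hg]
      right_inv := by
        intro v
        simp }
  rw [← Nat.card_congr e, Nat.card_prod]

omit [Finite F] [FiniteDimensional F V] in
lemma dep_eq (A : Module.End F V) (v : V) (h : ¬ LinearIndependent F ![v, A v])
    (g k : V →ₗ[F] F) : g v * k (A v) = k v * g (A v) := by
  rw [LinearIndependent.pair_iff] at h
  push Not at h
  obtain ⟨a, b, hab, hne⟩ := h
  have h1 := congrArg g hab
  have h2 := congrArg k hab
  simp only [map_add, map_smul, map_zero, smul_eq_mul] at h1 h2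
  by_cases hb : b = 0
  · have ha : a ≠ 0 := fun ha => hne ha hb
    rw [hb] at hab
    have hv : v = 0 := by
      have : a • v = 0 := by simpa using hab
      exact (smul_eq_zero.1 this).resolve_left ha
    rw [hv]; simp
  · have : b * (g v * k (A v) - k v * g (A v)) = 0 := by
      linear_combination g v * h2 - k v * h1
    have := (mul_eq_zero.1 this).resolve_left hb
    linear_combination this

/-- the number of vectors for which `v`, `A v` are dependent -/
lemma card_dep [Fintype F] [Fintype V] [DecidableEq V] (A : Module.End F V) (x : V)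
    (hx : LinearIndependent F ![x, A x]) (s : Finset V)
    (hs : ∀ v ∈ s, ¬ LinearIndependent F ![v, A v]) :
    s.card * Nat.card F ≤ 2 * Nat.card F ^ Module.finrank F V := by
  classical
  obtain ⟨g, k, hgx, hgy, hkx, hky⟩ := exists_duals x (A x) hx
  have key : s.card ≤ 2 * (Finset.univ.filter fun w : V => g w = 0).card := by
    apply Finset.card_le_mul_card_image_of_maps_to (f := fun v => v - g v • x)
    · intro v _
      simp [hgx]
    · intro b _
      rcases Finset.eq_empty_or_nonempty (s.filter fun v => v - g v • x = b) with he | ⟨v1, hv1⟩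
      · rw [he]; simp
      · rw [Finset.mem_filter] at hv1
        obtain ⟨hv1s, hv1b⟩ := hv1
        have hgb : g b = 0 := by rw [← hv1b]; simp [hgx]
        have quad : ∀ v ∈ s, v - g v • x = b →
            g v * (k (A b) + g v) = k b * g (A b) := by
          intro v hv hvb
          have hvv : v = b + g v • x := by rw [← hvb]; simp
          have h1 := dep_eq A v (hs v hv) g k
          have h2 : k (A v) = k (A b) + g v := by
            conv_lhs => rw [hvv]
            simp [hky]
          have h3 : g (A v) = g (A b) := by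
            conv_lhs => rw [hvv]
            simp [hgy]
          have h4 : k v = k b := by
            conv_lhs => rw [hvv]
            simp [hkx]
          rw [h2, h3, h4] at h1
          exact h1
        have hsub : (s.filter fun v => v - g v • x = b) ⊆
            {b + g v1 • x, b + (-g v1 - k (A b)) • x} := by
          intro v hv
          rw [Finset.mem_filter] at hv
          have e1 := quad v hv.1 hv.2
          have e2 := quad v1 hv1s hv1b
          have hvv : v = b + g v • x := by rw [← hv.2]; simp
          have e3 : (g v - g v1) * (g v + g v1 + k (A b)) = 0 := by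
            linear_combination e1 - e2
          rw [Finset.mem_insert, Finset.mem_singleton]
          rcases mul_eq_zero.1 e3 with h | h
          · left
            rw [← sub_eq_zero.1 h]
            exact hvv
          · right
            have : g v = -g v1 - k (A b) := by linear_combination h
            rw [← this]
            exact hvv
        exact (Finset.card_le_card hsub).trans Finset.card_le_two
  have h2 := card_ker g x hgx
  rw [← h2]
  have h3 : (Finset.univ.filter fun w : V => g w = 0).card = Nat.card {w : V // g w = 0} := by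
    rw [Nat.card_eq_fintype_card, Fintype.card_subtype]
  rw [h3] at key
  calc s.card * Nat.card F ≤ (2 * Nat.card {w : V // g w = 0}) * Nat.card F :=
        Nat.mul_le_mul_right _ key
    _ = _ := by ring

/-- the number of bad pairs for one value `μ` -/
lemma card_bad [Fintype V] [Fintype (V →ₗ[F] F)] [DecidableEq (V × (V →ₗ[F] F))]
    (A : Module.End F V) (hA : Function.Injective A) (t μ : F) (hμ : ∃ v, A v ≠ μ • v)
    (s : Finset (V × (V →ₗ[F] F)))
    (hs : ∀ z ∈ s, z.2 z.1 = 1 ∧ ∀ w, z.2 w = 0 → A w - (z.2 (A w) / t) • A z.1 = μ • w) :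
    s.card ≤ 2 * Nat.card F ^ Module.finrank F V := by
  classical
  set s1 := s.filter fun z => ∃ w, z.2 w = 0 ∧ A w ≠ μ • w with hs1
  set s2 := s.filter fun z => ¬ ∃ w, z.2 w = 0 ∧ A w ≠ μ • w with hs2
  have h0 : s1.card + s2.card = s.card := Finset.card_filter_add_card_filter_not _
  have h1 : s1.card ≤ Nat.card F ^ Module.finrank F V := by
    rw [← card_dual (F := F) (V := V), Nat.card_eq_fintype_card, ← Finset.card_univ]
    apply Finset.card_le_card_of_injOn (fun z => z.2) (fun _ _ => Finset.mem_univ _)
    rintro ⟨v, f⟩ hz ⟨v', f'⟩ hz' hff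
    simp only at hff
    subst hff
    rw [Finset.mem_coe, hs1, Finset.mem_filter] at hz hz'
    obtain ⟨hz, w, hw0, hw⟩ := hz
    have e1 := (hs _ hz).2 w hw0
    have e2 := (hs _ hz'.1).2 w hw0
    simp only at e1 e2 hw0
    have e3 : (f (A w) / t) • A v = (f (A w) / t) • A v' := by
      have e4 : (f (A w) / t) • A v = A w - μ • w := by rw [← e1]; abel
      have e5 : (f (A w) / t) • A v' = A w - μ • w := by rw [← e2]; abel
      rw [e4, e5]
    have hc : f (A w) / t ≠ 0 := by
      intro hc
      rw [hc, zero_smul, sub_zero] at e1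
      exact hw e1
    have e6 : A v = A v' := smul_right_injective V hc e3
    rw [hA e6]
  have h2 : s2.card ≤ Nat.card F ^ Module.finrank F V := by
    rw [← Module.natCard_eq_pow_finrank (K := F) (V := V), Nat.card_eq_fintype_card,
      ← Finset.card_univ]
    apply Finset.card_le_card_of_injOn (fun z => z.1) (fun _ _ => Finset.mem_univ _)
    rintro ⟨v, f⟩ hz ⟨v', f'⟩ hz' hff
    simp only at hff
    subst hff
    rw [Finset.mem_coe, hs2, Finset.mem_filter] at hz hz'
    obtain ⟨hz, hw⟩ := hz
    obtain ⟨hz', hw'⟩ := hz'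
    push Not at hw hw'
    simp only at hw hw'
    have f1 : f v = 1 := (hs _ hz).1
    have f1' : f' v = 1 := (hs _ hz').1
    have e1 : ∀ w, A w - μ • w = f w • (A v - μ • v) := by
      intro w
      have := hw (w - f w • v) (by simp [f1])
      rw [map_sub, map_smul, smul_sub] at this
      rw [smul_sub, smul_comm (f w) μ v]
      calc A w - μ • w = (A w - f w • A v) + f w • A v - μ • w := by abel
        _ = (μ • w - μ • f w • v) + f w • A v - μ • w := by rw [this]
        _ = _ := by abel
    have e1' : ∀ w, A w - μ • w = f' w • (A v - μ • v) := by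
      intro w
      have := hw' (w - f' w • v) (by simp [f1'])
      rw [map_sub, map_smul, smul_sub] at this
      rw [smul_sub, smul_comm (f' w) μ v]
      calc A w - μ • w = (A w - f' w • A v) + f' w • A v - μ • w := by abel
        _ = (μ • w - μ • f' w • v) + f' w • A v - μ • w := by rw [this]
        _ = _ := by abel
    have hne : A v - μ • v ≠ 0 := by
      intro h
      obtain ⟨w, hw⟩ := hμ
      apply hw
      have := e1 w
      rw [h, smul_zero] at this
      exact sub_eq_zero.1 this
    have : f = f' := by
      ext w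
      have := (e1 w).symm.trans (e1' w)
      exact smul_left_injective F hne this
    rw [this]
  omega

/-- the values `μ` are eigenvalues in dimension at least three -/
lemma exists_eig (A : Module.End F V) (h3 : 3 ≤ Module.finrank F V) (f : V →ₗ[F] F) (v : V)
    (t μ : F) (h : ∀ w, f w = 0 → A w - (f (A w) / t) • A v = μ • w) :
    A.HasEigenvalue μ := by
  let e : V →ₗ[F] F × F := f.prod (f ∘ₗ A)
  have hk : LinearMap.ker e ≠ ⊥ := by
    apply LinearMap.ker_ne_bot_of_finrank_lt
    rw [Module.finrank_prod, Module.finrank_self]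
    omega
  obtain ⟨w, hw, hw0⟩ := Submodule.exists_mem_ne_zero_of_ne_bot hk
  rw [LinearMap.mem_ker] at hw
  have h1 : f w = 0 := congrArg Prod.fst hw
  have h2 : f (A w) = 0 := congrArg Prod.snd hw
  have h4 := h w h1
  rw [h2, zero_div, zero_smul, sub_zero] at h4
  exact Module.End.hasEigenvalue_of_hasEigenvector
    ⟨Module.End.mem_eigenspace_iff.2 h4, hw0⟩

omit [Finite F] in
lemma card_eig [Fintype F] (A : Module.End F V) (s : Finset F)
    (hs : ∀ μ ∈ s, A.HasEigenvalue μ) : s.card ≤ Module.finrank F V := by
  classical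
  have h1 : s ⊆ A.charpoly.roots.toFinset := by
    intro μ hμ
    rw [Multiset.mem_toFinset, mem_roots (LinearMap.charpoly_monic A).ne_zero]
    exact (Module.End.hasEigenvalue_iff_isRoot_charpoly A μ).1 (hs μ hμ)
  calc s.card ≤ A.charpoly.roots.toFinset.card := Finset.card_le_card h1
    _ ≤ Multiset.card A.charpoly.roots := Multiset.toFinset_card_le _
    _ ≤ A.charpoly.natDegree := card_roots' _
    _ = Module.finrank F V := LinearMap.charpoly_natDegree A

lemma pow_aux (q n : ℕ) (hq : 2 ≤ q) (hn : 3 ≤ n) : n * q ^ n ≤ 3 * q ^ (2 * n - 3) := by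
  obtain ⟨m, rfl⟩ := Nat.exists_eq_add_of_le hn
  have h1 : m + 3 ≤ 3 * q ^ m := by
    induction m with
    | zero => simp
    | succ m ih =>
      have h2 := ih (by omega)
      have h3 : 1 ≤ q ^ m := Nat.one_le_pow _ _ (by omega)
      calc m + 1 + 3 ≤ 2 * (3 * q ^ m) := by omega
        _ ≤ q * (3 * q ^ m) := Nat.mul_le_mul_right _ hq
        _ = 3 * q ^ (m + 1) := by ring
  have e : 2 * (3 + m) - 3 = m + (3 + m) := by omega
  rw [e, pow_add q m (3 + m), ← mul_assoc]
  apply Nat.mul_le_mul_right
  omega

end VF

open VF in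
theorem t_VF : S_VF := by
  classical
  intro F V _ _ _ _ _ A t h2 hA hNS ht
  haveI : Finite V := Module.finite_of_finite F
  haveI : Finite (V →ₗ[F] F) := Module.finite_of_finite F
  letI := Fintype.ofFinite V
  letI := Fintype.ofFinite F
  letI := Fintype.ofFinite (V →ₗ[F] F)
  set n := Module.finrank F V with hn
  set q := Nat.card F with hq
  have hq2 : 2 ≤ q := by
    rw [hq]; exact Finite.one_lt_card
  -- a vector which is not an eigenvector
  obtain ⟨x, hx⟩ : ∃ x, LinearIndependent F ![x, A x] := by
    by_contra hc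
    push Not at hc
    obtain ⟨a, ha⟩ := LinearMap.exists_eq_smul_id_of_forall_notLinearIndependent hc
    exact hNS ⟨a, fun v => by rw [ha]; simp⟩
  have hμ : ∀ μ : F, ∃ v, A v ≠ μ • v := by
    intro μ
    by_contra hc
    push Not at hc
    exact hNS ⟨μ, hc⟩
  -- all pairs
  let T : Finset (V × (V →ₗ[F] F)) := Finset.univ.filter fun z => z.2 z.1 = 1 ∧ z.2 (A z.1) = t
  let D : Finset V := Finset.univ.filter fun v => ¬ LinearIndependent F ![v, A v]
  let L : Finset V := Finset.univ.filter fun v => LinearIndependent F ![v, A v]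
  have hD : D.card * q ≤ 2 * q ^ n := card_dep A x hx D (fun v hv => (Finset.mem_filter.1 hv).2)
  have hLD : L.card + D.card = q ^ n := by
    rw [hq, hn, ← Module.natCard_eq_pow_finrank (K := F) (V := V), Nat.card_eq_fintype_card,
      ← Finset.card_univ]
    exact Finset.card_filter_add_card_filter_not _
  have hT : L.card * q ^ n ≤ T.card * q ^ 2 := by
    have h1 : T.card = ∑ v : V, (T.filter fun z => z.1 = v).card :=
      Finset.card_eq_sum_card_fiberwise (fun z _ => Finset.mem_univ _)
    have h3 : ∀ v ∈ L, (T.filter fun z => z.1 = v).card * q ^ 2 = q ^ n := by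
      intro v hv
      have hv' := (Finset.mem_filter.1 hv).2
      rw [hq, hn, ← card_fiber v (A v) hv' t]
      congr 1
      rw [Nat.card_eq_fintype_card, Fintype.card_subtype]
      apply Finset.card_nbij' (fun z => z.2) (fun f => (v, f))
      · rintro ⟨v', f⟩ hz
        simp only [T, Finset.coe_filter, Finset.mem_filter, Finset.mem_univ, true_and,
          Set.mem_ofPred_eq] at hz ⊢
        obtain ⟨hz, rfl⟩ := hz
        exact hz
      · intro f hf
        simp only [T, Finset.coe_filter, Finset.mem_filter, Finset.mem_univ, true_and,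
          Set.mem_ofPred_eq, and_true] at hf ⊢
        exact hf
      · rintro ⟨v', f⟩ hz
        simp only [T, Finset.coe_filter, Finset.mem_filter, Finset.mem_univ, true_and,
          Set.mem_ofPred_eq] at hz
        rw [hz.2]
      · intro f _
        rfl
    calc L.card * q ^ n = ∑ v ∈ L, q ^ n := by rw [Finset.sum_const, smul_eq_mul]
      _ = ∑ v ∈ L, (T.filter fun z => z.1 = v).card * q ^ 2 :=
          Finset.sum_congr rfl fun v hv => (h3 v hv).symm
      _ ≤ ∑ v : V, (T.filter fun z => z.1 = v).card * q ^ 2 :=
          Finset.sum_le_sum_of_subset (Finset.subset_univ _)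
      _ = T.card * q ^ 2 := by rw [h1, Finset.sum_mul]
  -- lower bound for T
  have hT2 : q ^ (2 * n - 2) ≤ T.card + 2 * q ^ (2 * n - 3) := by
    have e1 : q ^ (2 * n - 2) * q ^ 2 = q ^ n * q ^ n := by
      rw [← pow_add, ← pow_add]; congr 1; omega
    have e2 : 2 * q ^ (2 * n - 3) * q ^ 3 = 2 * (q ^ n * q ^ n) := by
      rw [mul_assoc, ← pow_add, ← pow_add]; congr 2; omega
    have hq0 : 0 < q ^ 3 := by positivity
    apply Nat.le_of_mul_le_mul_right _ hq0
    calc q ^ (2 * n - 2) * q ^ 3 = (q ^ (2 * n - 2) * q ^ 2) * q := by ring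
      _ = (q ^ n * q ^ n) * q := by rw [e1]
      _ = ((L.card + D.card) * q ^ n) * q := by rw [hLD]
      _ = (L.card * q ^ n) * q + (D.card * q) * q ^ n := by ring
      _ ≤ (T.card * q ^ 2) * q + (2 * q ^ n) * q ^ n :=
          Nat.add_le_add (Nat.mul_le_mul_right _ hT) (Nat.mul_le_mul_right _ hD)
      _ = (T.card + 2 * q ^ (2 * n - 3)) * q ^ 3 := by rw [add_mul, e2]; ring
  -- the good pairs
  let S : Finset (V × (V →ₗ[F] F)) := Finset.univ.filter fun z => z.2 z.1 = 1 ∧ z.2 (A z.1) = t ∧
    (3 ≤ n → ¬ ∃ μ : F, ∀ w, z.2 w = 0 → A w - (z.2 (A w) / t) • A z.1 = μ • w)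
  have hS : Nat.card {z : V × (V →ₗ[F] F) // z.2 z.1 = 1 ∧ z.2 (A z.1) = t ∧
        (3 ≤ n →
          ¬ ∃ μ : F, ∀ w, z.2 w = 0 → A w - (z.2 (A w) / t) • A z.1 = μ • w)} = S.card := by
    rw [Nat.card_eq_fintype_card, Fintype.card_subtype]
  have hTS : T.card ≤ S.card + 6 * q ^ (2 * n - 3) := by
    by_cases h3 : 3 ≤ n
    · let Eg : Finset F := Finset.univ.filter fun μ => A.HasEigenvalue μ
      let Bd : F → Finset (V × (V →ₗ[F] F)) := fun μ => Finset.univ.filter fun z =>
        z.2 z.1 = 1 ∧ ∀ w, z.2 w = 0 → A w - (z.2 (A w) / t) • A z.1 = μ • w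
      have hsub : T ⊆ S ∪ Eg.biUnion Bd := by
        intro z hz
        simp only [T, Finset.mem_filter, Finset.mem_univ, true_and] at hz
        by_cases hb : ∃ μ : F, ∀ w, z.2 w = 0 → A w - (z.2 (A w) / t) • A z.1 = μ • w
        · obtain ⟨μ, hμz⟩ := hb
          apply Finset.mem_union_right
          rw [Finset.mem_biUnion]
          refine ⟨μ, ?_, ?_⟩
          · simp only [Eg, Finset.mem_filter, Finset.mem_univ, true_and]
            exact exists_eig A h3 z.2 z.1 t μ hμz
          · simp only [Bd, Finset.mem_filter, Finset.mem_univ, true_and]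
            exact ⟨hz.1, hμz⟩
        · apply Finset.mem_union_left
          simp only [S, Finset.mem_filter, Finset.mem_univ, true_and]
          exact ⟨hz.1, hz.2, fun _ => hb⟩
      have h4 : (Eg.biUnion Bd).card ≤ Eg.card * (2 * q ^ n) := by
        apply Finset.card_biUnion_le_card_mul
        intro μ _
        exact card_bad A hA t μ (hμ μ) (Bd μ) (fun z hz => (Finset.mem_filter.1 hz).2)
      have h5 : Eg.card ≤ n := card_eig A Eg (fun μ hm => (Finset.mem_filter.1 hm).2)
      have h6 := pow_aux q n hq2 h3
      calc T.card ≤ (S ∪ Eg.biUnion Bd).card := Finset.card_le_card hsub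
        _ ≤ S.card + (Eg.biUnion Bd).card := Finset.card_union_le _ _
        _ ≤ S.card + n * (2 * q ^ n) :=
            Nat.add_le_add_left (h4.trans (Nat.mul_le_mul_right _ h5)) _
        _ = S.card + 2 * (n * q ^ n) := by ring
        _ ≤ S.card + 2 * (3 * q ^ (2 * n - 3)) :=
            Nat.add_le_add_left (Nat.mul_le_mul_left _ h6) _
        _ = _ := by ring
    · have : T ⊆ S := by
        intro z hz
        simp only [T, Finset.mem_filter, Finset.mem_univ, true_and] at hz
        simp only [S, Finset.mem_filter, Finset.mem_univ, true_and]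
        exact ⟨hz.1, hz.2, fun h => absurd h h3⟩
      exact (Finset.card_le_card this).trans (Nat.le_add_right _ _)
  rw [hS]
  have h7 : q ^ (2 * n - 2) ≤ S.card + 8 * q ^ (2 * n - 3) := by
    have := hT2.trans (Nat.add_le_add_right hTS _)
    omega
  have h8 : ((q : ℝ)) ^ (2 * n - 2) ≤ S.card + 8 * (q : ℝ) ^ (2 * n - 3) := by
    exact_mod_cast h7
  have h9 : (0 : ℝ) ≤ (q : ℝ) ^ (2 * n - 3) := by positivity
  linarith

end

end RSF
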