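import Pool.Agent.RSF.Stmts2

/-!
# Number of factorisations with given eigenvalues: induction on the dimension
-/

namespace RSF

open Polynomial

noncomputable section

namespace XN

/-- The determinant of the Schur complement. -/
theorem det_step {F V : Type} [Field F] [AddCommGroup V] [Module F V] [FiniteDimensional F V]
    (A : Module.End F V) (t : F) (v : V) (f : V →ₗ[F] F)
    (A' : Module.End F (LinearMap.ker f)) (hfv : f v = 1) (hfA : f (A v) = t)
    (hA' : ∀ w : LinearMap.ker f, (A' w : V) = A w - (f (A w) / t) • A v) :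
    LinearMap.det A = LinearMap.det A' * t := by
  set g : Module.Dual F V := -(t⁻¹ • (f ∘ₗ A ∘ₗ (LinearMap.id - f.smulRight v))) with hg
  have hgx : ∀ x, g x = -(t⁻¹ * f (A (x - f x • v))) := fun x => by
    simp [hg]
  set T : V →ₗ[F] V := LinearMap.transvection g v with hT
  have hgv : g v = 0 := by
    rw [hgx, hfv]; simp
  have hdT : LinearMap.det T = 1 := by
    rw [hT, LinearMap.transvection.det, hgv, add_zero]
  set E : V →ₗ[F] V := A ∘ₗ T with hE
  have hEx : ∀ x, E x = A x + g x • A v := fun x => by
    simp [hE, hT, LinearMap.transvection.apply]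
  have hEw : ∀ w : LinearMap.ker f, E w = A' w := fun w => by
    have hw : f (w : V) = 0 := w.2
    rw [hEx, hA', hgx, hw]
    simp only [zero_smul, sub_zero, neg_smul, ← sub_eq_add_neg]
    rw [div_eq_inv_mul]
  have hdE : LinearMap.det E = LinearMap.det A := by
    rw [hE, LinearMap.det_comp, hdT, mul_one]
  have hle : LinearMap.ker f ≤ (LinearMap.ker f).comap E := by
    intro w hw
    rw [Submodule.mem_comap]
    have := hEw ⟨w, hw⟩
    simp only at this
    rw [this]
    exact (A' ⟨w, hw⟩).2
  have hfE : ∀ x, f (E x) = t * f x := by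
    intro x
    have hxw : x - f x • v ∈ LinearMap.ker f := by
      rw [LinearMap.mem_ker, map_sub, map_smul, hfv]; simp
    have h1 : f (E (x - f x • v)) = 0 := hle hxw
    have h2 : E v = A v := by rw [hEx, hgv]; simp
    rw [map_sub, map_smul, map_sub, map_smul, h2, hfA, smul_eq_mul, sub_eq_zero] at h1
    rw [h1, mul_comm]
  have key := LinearMap.det_eq_det_mul_det (LinearMap.ker f) E hle
  have hres : E.restrict hle = A' := by
    ext w
    rw [LinearMap.coe_restrict_apply]
    exact hEw w
  have hQ : (LinearMap.ker f).mapQ (LinearMap.ker f) E hle = t • LinearMap.id := by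
    refine LinearMap.ext fun x => ?_
    induction x using Submodule.Quotient.induction_on with
    | _ w =>
      rw [Submodule.mapQ_apply, LinearMap.smul_apply, LinearMap.id_apply,
        ← Submodule.Quotient.mk_smul, Submodule.Quotient.eq, LinearMap.mem_ker, map_sub, hfE,
        map_smul, smul_eq_mul, sub_self]
  have hrk : Module.finrank F (V ⧸ LinearMap.ker f) = 1 := by
    have h1 := LinearMap.finrank_range_add_finrank_ker f
    have h2 := Submodule.finrank_quotient_add_finrank (LinearMap.ker f)
    have h3 : LinearMap.range f = ⊤ := by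
      rw [LinearMap.range_eq_top]
      intro y
      exact ⟨y • v, by rw [map_smul, hfv]; simp⟩
    rw [h3, finrank_top, Module.finrank_self] at h1
    omega
  rw [hdE, hres, hQ, LinearMap.det_smul, hrk, pow_one, LinearMap.det_id, mul_one] at key
  exact key

theorem finrank_ker {F V : Type} [Field F] [AddCommGroup V] [Module F V] [FiniteDimensional F V]
    (v : V) (f : V →ₗ[F] F) (hfv : f v = 1) :
    Module.finrank F (LinearMap.ker f) + 1 = Module.finrank F V := by
  have h1 := LinearMap.finrank_range_add_finrank_ker f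
  have h3 : LinearMap.range f = ⊤ := by
    rw [LinearMap.range_eq_top]
    intro y
    exact ⟨y • v, by rw [map_smul, hfv]; simp⟩
  rw [h3, finrank_top, Module.finrank_self] at h1
  omega

/-- In dimension `1` every endomorphism is a scalar. -/
theorem charpoly_one {F V : Type} [Field F] [AddCommGroup V] [Module F V] [FiniteDimensional F V]
    (h : Module.finrank F V = 1) (b : F) :
    (b • LinearMap.id : Module.End F V).charpoly = X - C b := by
  have hn : Nontrivial V := Module.nontrivial_of_finrank_pos (R := F) (by omega)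
  have hm := LinearMap.charpoly_monic (b • LinearMap.id : Module.End F V)
  have hd := LinearMap.charpoly_natDegree (R := F) (b • LinearMap.id : Module.End F V)
  rw [h] at hd
  have ha := LinearMap.aeval_self_charpoly (b • LinearMap.id : Module.End F V)
  have hX := hm.eq_X_add_C hd
  rw [hX] at ha ⊢
  obtain ⟨x, hx⟩ := exists_ne (0 : V)
  have h2 := congrArg (fun g : Module.End F V => g x) ha
  simp only [map_add, aeval_X, aeval_C, LinearMap.add_apply, LinearMap.smul_apply,
    LinearMap.id_apply, Module.algebraMap_end_apply, LinearMap.zero_apply] at h2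
  rw [← add_smul, smul_eq_zero] at h2
  rcases h2 with h2 | h2
  · have h3 : (b • LinearMap.id : Module.End F V).charpoly.coeff 0 = -b :=
      eq_neg_of_add_eq_zero_right h2
    rw [h3, map_neg, sub_eq_add_neg]
  · exact absurd h2 hx

theorem finite_XX {F V : Type} [Field F] [Finite F] [AddCommGroup V] [Module F V]
    [FiniteDimensional F V] (A : Module.End F V) (p r : F[X]) :
    Finite {z : Module.End F V × Module.End F V //
      z.1 * z.2 = A ∧ z.1.charpoly = p ∧ z.2.charpoly = r} := by
  have : Finite V := Module.finite_of_finite F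
  have h1 : Finite (Module.End F V) :=
    Finite.of_injective (fun g : Module.End F V => (g : V → V)) DFunLike.coe_injective
  infer_instance

theorem base {F V : Type} [Field F] [Finite F] [AddCommGroup V] [Module F V]
    [FiniteDimensional F V] (A : Module.End F V) (s s' : Finset F)
    (hn : Module.finrank F V = 1) (hs : s.card = 1) (hs' : s'.card = 1)
    (hd : LinearMap.det A = (∏ b ∈ s, b) * ∏ c ∈ s', c) : 1 ≤ XX F V A (rp s) (rp s') := by
  obtain ⟨b, rfl⟩ := Finset.card_eq_one.mp hs
  obtain ⟨c, rfl⟩ := Finset.card_eq_one.mp hs'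
  obtain ⟨a, ha, -⟩ := LinearMap.existsUnique_eq_smul_id_of_finrank_eq_one hn A
  rw [ha, LinearMap.det_smul, hn, pow_one, LinearMap.det_id, mul_one, Finset.prod_singleton,
    Finset.prod_singleton] at hd
  have : Finite {z : Module.End F V × Module.End F V //
      z.1 * z.2 = A ∧ z.1.charpoly = rp {b} ∧ z.2.charpoly = rp {c}} := finite_XX A _ _
  have hne : Nonempty {z : Module.End F V × Module.End F V //
      z.1 * z.2 = A ∧ z.1.charpoly = rp {b} ∧ z.2.charpoly = rp {c}} := by
    refine ⟨⟨(b • LinearMap.id, c • LinearMap.id), ?_, ?_, ?_⟩⟩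
    · rw [ha, hd]
      ext x
      simp only [Module.End.mul_apply, LinearMap.smul_apply, LinearMap.id_apply, mul_smul]
    · rw [charpoly_one hn]; simp [rp]
    · rw [charpoly_one hn]; simp [rp]
  exact Nat.card_pos

theorem main (hVF : S_VF) (hXS : S_XS) (n : ℕ) :
    ∀ (F V : Type) [Field F] [Finite F] [AddCommGroup V] [Module F V] [FiniteDimensional F V]
    (A : Module.End F V) (s s' : Finset F), 12 ≤ Nat.card F → Module.finrank F V = n + 1 →
    s.card = n + 1 → s'.card = n + 1 → (0 : F) ∉ s → (0 : F) ∉ s' →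
    LinearMap.det A = (∏ b ∈ s, b) * ∏ c ∈ s', c → (1 ≤ n → NS A) →
    (Nat.card F : ℝ) ^ ((n + 1) * n) * (1 - 11 / (Nat.card F : ℝ)) ^ n ≤
      ((Nat.card F : ℝ) - 1) ^ n * XX F V A (rp s) (rp s') := by
  induction n with
  | zero =>
    intro F V _ _ _ _ _ A s s' hq hn hs hs' h0 h0' hd hNS
    have := base A s s' hn hs hs' hd
    simp only [mul_zero, pow_zero, mul_one, one_mul]
    exact_mod_cast this
  | succ n ih =>
    intro F V _ _ _ _ _ A s s' hq hn hs hs' h0 h0' hd hNS
    classical
    have hsne : s.Nonempty := Finset.card_pos.mp (by omega)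
    have hsne' : s'.Nonempty := Finset.card_pos.mp (by omega)
    obtain ⟨b, hb⟩ := hsne
    obtain ⟨c, hc⟩ := hsne'
    have hb0 : b ≠ 0 := fun h => h0 (h ▸ hb)
    have hc0 : c ≠ 0 := fun h => h0' (h ▸ hc)
    have hbc : b * c ≠ 0 := mul_ne_zero hb0 hc0
    have hP : ∏ b ∈ s, b = b * ∏ x ∈ s.erase b, x := (Finset.mul_prod_erase s _ hb).symm
    have hP' : ∏ c ∈ s', c = c * ∏ x ∈ s'.erase c, x := (Finset.mul_prod_erase s' _ hc).symm
    have hps : ∏ b ∈ s, b ≠ 0 := Finset.prod_ne_zero_iff.mpr fun x hx h => h0 (h ▸ hx)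
    have hps' : ∏ c ∈ s', c ≠ 0 := Finset.prod_ne_zero_iff.mpr fun x hx h => h0' (h ▸ hx)
    have hdA : LinearMap.det A ≠ 0 := by rw [hd]; exact mul_ne_zero hps hps'
    have hinj : Function.Injective A := by
      rw [← LinearMap.ker_eq_bot]
      by_contra hk
      exact hdA (LinearMap.det_eq_zero_iff_ker_ne_bot.mpr hk)
    have hNS' : NS A := hNS (by omega)
    have hcard : (s.erase b).card = n + 1 := by rw [Finset.card_erase_of_mem hb]; omega
    have hcard' : (s'.erase c).card = n + 1 := by rw [Finset.card_erase_of_mem hc]; omega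
    set q : ℝ := (Nat.card F : ℝ) with hqdef
    have hq12 : (12 : ℝ) ≤ q := by rw [hqdef]; exact_mod_cast hq
    have hq0 : (0 : ℝ) < q := by linarith
    have hq1 : (0 : ℝ) < q - 1 := by linarith
    set M : ℝ := q ^ ((n + 1) * n) * (1 - 11 / q) ^ n / (q - 1) ^ n with hM
    have hu : (0 : ℝ) ≤ 1 - 11 / q := by
      rw [sub_nonneg, div_le_one hq0]; linarith
    have hM0 : 0 ≤ M := by
      rw [hM]; positivity
    have hstep := hXS F V A (s.erase b) (s'.erase c) b c M (by omega) (by rw [hcard, hn])
      (by rw [hcard', hn]) (Finset.notMem_erase b s) (Finset.notMem_erase c s') hb0 hc0 (by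
        intro v f A' hfv hfA hA' hNA'
        have hk := finrank_ker v f hfv
        have hdet := det_step A (b * c) v f A' hfv hfA hA'
        have := ih F (LinearMap.ker f) A' (s.erase b) (s'.erase c) hq (by omega) hcard hcard'
          (fun h => h0 (Finset.mem_of_mem_erase h)) (fun h => h0' (Finset.mem_of_mem_erase h))
          (by
            have h1 : LinearMap.det A' * (b * c) =
                ((∏ x ∈ s.erase b, x) * ∏ x ∈ s'.erase c, x) * (b * c) := by
              rw [← hdet, hd, hP, hP']; ring
            exact mul_right_cancel₀ hbc h1) (fun h => hNA' (by omega))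
        rw [hM, div_le_iff₀ (pow_pos hq1 n), mul_comm (XX F (LinearMap.ker f) A' _ _ : ℝ)]
        exact this)
    have hvf := hVF F V A (b * c) (by omega) hinj hNS' hbc
    have hrs : (X - C b) * rp (s.erase b) = rp s := Finset.mul_prod_erase s _ hb
    have hrs' : (X - C c) * rp (s'.erase c) = rp s' := Finset.mul_prod_erase s' _ hc
    rw [hrs, hrs'] at hstep
    have h3 := (mul_le_mul_of_nonneg_right hvf hM0).trans hstep
    have e1 : 2 * Module.finrank F V - 2 = 2 * n + 2 := by omega
    have e2 : 2 * Module.finrank F V - 3 = 2 * n + 1 := by omega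
    rw [e1, e2] at h3
    have h4 : q ^ (2 * n + 2) - 11 * q ^ (2 * n + 1) = q ^ (2 * n + 2) * (1 - 11 / q) := by
      have : q ^ (2 * n + 2) = q ^ (2 * n + 1) * q := pow_succ q (2 * n + 1)
      rw [this]
      field_simp
    rw [← hqdef, h4] at h3
    have h5 : q ^ ((n + 1 + 1) * (n + 1)) * (1 - 11 / q) ^ (n + 1) =
        (q - 1) ^ n * (q ^ (2 * n + 2) * (1 - 11 / q) * M) := by
      rw [hM]
      have h6 : (q - 1) ^ n ≠ 0 := (pow_pos hq1 n).ne'
      rw [show (n + 1 + 1) * (n + 1) = (2 * n + 2) + (n + 1) * n by ring, pow_add q,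
        pow_succ (1 - 11 / q)]
      field_simp
    rw [h5, pow_succ (q - 1), mul_assoc ((q - 1) ^ n)]
    exact mul_le_mul_of_nonneg_left h3 (pow_pos hq1 n).le

end XN

theorem t_XN : M_XN := by
  intro hVF hXS F V _ _ _ _ _ A s s' hq hn hs hs' h0 h0' hd hNS
  obtain ⟨n, hn'⟩ : ∃ n, Module.finrank F V = n + 1 := ⟨Module.finrank F V - 1, by omega⟩
  have := XN.main hVF hXS n F V A s s' hq hn' (by omega) (by omega) h0 h0' hd
    (fun h => hNS (by omega))
  rw [hn']
  simpa using this

end

end RSF
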