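import Pool.Agent.RSF.Stmts2

set_option autoImplicit false

/-!
# Module XS: the recursion step for the number of factorisations
-/

namespace RSF

open Polynomial

namespace XS

noncomputable section

variable {F V : Type} [Field F] [AddCommGroup V] [Module F V]

/-- the projection to `ker f` along `v` -/
def pr (v : V) (f : V →ₗ[F] F) (h : f v = 1) : V →ₗ[F] LinearMap.ker f :=
  LinearMap.codRestrict (LinearMap.ker f) (LinearMap.id - f.smulRight v) (by
    intro u
    rw [LinearMap.mem_ker]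
    simp [h])

theorem pr_coe (v : V) (f : V →ₗ[F] F) (h : f v = 1) (u : V) :
    ((pr v f h u : LinearMap.ker f) : V) = u - f u • v := by
  simp [pr]

theorem pr_ker (v : V) (f : V →ₗ[F] F) (h : f v = 1) (w : LinearMap.ker f) :
    pr v f h w = w := by
  apply Subtype.ext
  rw [pr_coe, LinearMap.mem_ker.1 w.2, zero_smul, sub_zero]

theorem pr_v (v : V) (f : V →ₗ[F] F) (h : f v = 1) : pr v f h v = 0 := by
  apply Subtype.ext
  rw [pr_coe, h, one_smul, sub_self]
  rfl

/-- the decomposition of `V` -/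
def eq (v : V) (f : V →ₗ[F] F) (h : f v = 1) : V ≃ₗ[F] F × LinearMap.ker f :=
  LinearEquiv.ofLinear (LinearMap.prod f (pr v f h))
    (LinearMap.coprod (LinearMap.toSpanSingleton F V v) (LinearMap.ker f).subtype)
    (by
      apply LinearMap.ext
      rintro ⟨a, w⟩
      have h1 : f (w : V) = 0 := LinearMap.mem_ker.1 w.2
      have h2 : pr v f h (w : V) = w := pr_ker v f h w
      simp [h, h1, h2, pr_v])
    (by
      apply LinearMap.ext
      intro u
      simp [pr_coe])

theorem eq_apply (v : V) (f : V →ₗ[F] F) (h : f v = 1) (u : V) :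
    eq v f h u = (f u, pr v f h u) := rfl

theorem eq_symm_apply (v : V) (f : V →ₗ[F] F) (h : f v = 1) (a : F) (w : LinearMap.ker f) :
    (eq v f h).symm (a, w) = a • v + w := by
  simp [eq]

theorem cp_up {H : Type} [AddCommGroup H] [Module F H] [FiniteDimensional F H]
    (T : Module.End F (F × H)) (c : F) (g : H →ₗ[F] F) (T' : Module.End F H)
    (hT : ∀ a w, T (a, w) = (c * a + g w, T' w)) :
    T.charpoly = (X - C c) * T'.charpoly := by
  classical
  let b₂ := Module.Free.chooseBasis F H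
  let b := (Module.Basis.singleton Unit F).prod b₂
  rw [← LinearMap.charpoly_toMatrix T b, ← LinearMap.charpoly_toMatrix T' b₂]
  have h1 : LinearMap.toMatrix b b T = Matrix.fromBlocks (Matrix.of fun _ _ => c)
      (Matrix.of fun _ j => g (b₂ j)) 0 (LinearMap.toMatrix b₂ b₂ T') := by
    ext i j
    rcases i with i | i <;> rcases j with j | j <;>
      simp [b, LinearMap.toMatrix_apply, hT]
  rw [h1, Matrix.charpoly_fromBlocks_zero₂₁]
  congr 1
  simp [Matrix.charpoly, Matrix.charmatrix]

theorem cp_low {H : Type} [AddCommGroup H] [Module F H] [FiniteDimensional F H]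
    (T : Module.End F (F × H)) (c : F) (w0 : H) (T' : Module.End F H)
    (hT : ∀ a w, T (a, w) = (c * a, a • w0 + T' w)) :
    T.charpoly = (X - C c) * T'.charpoly := by
  classical
  let b₂ := Module.Free.chooseBasis F H
  let b := (Module.Basis.singleton Unit F).prod b₂
  rw [← LinearMap.charpoly_toMatrix T b, ← LinearMap.charpoly_toMatrix T' b₂]
  have h1 : LinearMap.toMatrix b b T = Matrix.fromBlocks (Matrix.of fun _ _ => c)
      0 (Matrix.of fun i _ => b₂.repr w0 i) (LinearMap.toMatrix b₂ b₂ T') := by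
    ext i j
    rcases i with i | i <;> rcases j with j | j <;>
      simp [b, LinearMap.toMatrix_apply, hT]
  rw [h1, Matrix.charpoly_fromBlocks_zero₁₂]
  congr 1
  simp [Matrix.charpoly, Matrix.charmatrix]

/-- the first factor -/
def Bm (A : Module.End F V) (v : V) (f : V →ₗ[F] F) (h : f v = 1) (c : F)
    (B' : Module.End F (LinearMap.ker f)) : Module.End F V :=
  f.smulRight (c⁻¹ • A v) + (LinearMap.ker f).subtype ∘ₗ B' ∘ₗ pr v f h

theorem Bm_apply (A : Module.End F V) (v : V) (f : V →ₗ[F] F) (h : f v = 1) (c : F)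
    (B' : Module.End F (LinearMap.ker f)) (u : V) :
    Bm A v f h c B' u = f u • (c⁻¹ • A v) + B' (pr v f h u) := rfl

/-- the second factor -/
def Cm (A : Module.End F V) (v : V) (f : V →ₗ[F] F) (h : f v = 1) (b c : F)
    (C' : Module.End F (LinearMap.ker f)) : Module.End F V :=
  (c • f + (c / (b * c)) • (f ∘ₗ A ∘ₗ (LinearMap.ker f).subtype ∘ₗ pr v f h)).smulRight v +
    (LinearMap.ker f).subtype ∘ₗ C' ∘ₗ pr v f h

theorem Cm_apply (A : Module.End F V) (v : V) (f : V →ₗ[F] F) (h : f v = 1) (b c : F)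
    (C' : Module.End F (LinearMap.ker f)) (u : V) :
    Cm A v f h b c C' u =
      (c * f u + (c / (b * c)) * f (A (pr v f h u))) • v + C' (pr v f h u) := rfl

theorem cp_B [FiniteDimensional F V] (A : Module.End F V) (v : V) (f : V →ₗ[F] F) (h : f v = 1)
    (b c : F) (hc : c ≠ 0) (hA : f (A v) = b * c) (B' : Module.End F (LinearMap.ker f)) :
    (Bm A v f h c B').charpoly = (X - C b) * B'.charpoly := by
  rw [← LinearEquiv.charpoly_conj (eq v f h)]
  apply cp_low _ b (pr v f h (c⁻¹ • A v)) B'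
  intro a w
  rw [LinearEquiv.conj_apply_apply, eq_symm_apply, eq_apply, Bm_apply]
  have h1 : f (w : V) = 0 := LinearMap.mem_ker.1 w.2
  have h2 : pr v f h (w : V) = w := pr_ker v f h w
  have h3 : f (B' w : V) = 0 := LinearMap.mem_ker.1 (B' w).2
  have h4 : pr v f h (B' w : V) = B' w := pr_ker v f h _
  simp only [map_add, map_smul, h, h1, h2, pr_v, smul_eq_mul, mul_one, add_zero, smul_zero,
    zero_add, hA, h3, h4]
  refine Prod.ext ?_ ?_
  · show a * (c⁻¹ * (b * c)) = b * a
    field_simp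
  · rfl

theorem cp_C [FiniteDimensional F V] (A : Module.End F V) (v : V) (f : V →ₗ[F] F) (h : f v = 1)
    (b c : F) (C' : Module.End F (LinearMap.ker f)) :
    (Cm A v f h b c C').charpoly = (X - C c) * C'.charpoly := by
  rw [← LinearEquiv.charpoly_conj (eq v f h)]
  apply cp_up _ c ((c / (b * c)) • (f ∘ₗ A ∘ₗ (LinearMap.ker f).subtype)) C'
  intro a w
  rw [LinearEquiv.conj_apply_apply, eq_symm_apply, eq_apply, Cm_apply]
  have h1 : f (w : V) = 0 := LinearMap.mem_ker.1 w.2
  have h2 : pr v f h (w : V) = w := pr_ker v f h w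
  have h3 : f (C' w : V) = 0 := LinearMap.mem_ker.1 (C' w).2
  have h4 : pr v f h (C' w : V) = C' w := pr_ker v f h _
  simp only [map_add, map_smul, h, h1, h2, pr_v, smul_eq_mul, mul_one, add_zero, smul_zero,
    zero_add, h3, h4]
  refine Prod.ext ?_ ?_
  · rfl
  · rfl

theorem mul_eq (A : Module.End F V) (v : V) (f : V →ₗ[F] F) (h : f v = 1) (b c : F) (hb : b ≠ 0)
    (hc : c ≠ 0) (hA : f (A v) = b * c) (A' B' C' : Module.End F (LinearMap.ker f))
    (hA' : ∀ w : LinearMap.ker f, (A' w : V) = A w - (f (A w) / (b * c)) • A v)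
    (hBC : B' * C' = A') : Bm A v f h c B' * Cm A v f h b c C' = A := by
  apply LinearMap.ext
  intro u
  rw [Module.End.mul_apply, Cm_apply]
  have h3 : f (C' (pr v f h u) : V) = 0 := LinearMap.mem_ker.1 (C' _).2
  have h4 : pr v f h (C' (pr v f h u) : V) = C' (pr v f h u) := pr_ker v f h _
  rw [Bm_apply, map_add, map_smul, h, h3, map_add, map_smul, pr_v, h4, smul_zero, zero_add,
    ← Module.End.mul_apply, hBC, hA', smul_eq_mul, mul_one, add_zero, smul_smul, pr_coe, map_sub,
    map_smul, map_sub, map_smul, hA, smul_eq_mul]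
  have h5 : (c * f u + c / (b * c) * (f (A u) - f u * (b * c))) * c⁻¹ =
      (f (A u) - f u * (b * c)) / (b * c) + f u := by
    field_simp
    ring
  rw [h5, add_smul]
  abel

theorem rp_root {s : Finset F} {b : F} (hb : b ∉ s) : ¬ (rp s).IsRoot b := by
  rw [rp, IsRoot.def, eval_prod, Finset.prod_eq_zero_iff]
  rintro ⟨a, ha, h⟩
  simp only [eval_sub, eval_X, eval_C] at h
  rw [sub_eq_zero] at h
  exact hb (h ▸ ha)

theorem inj_of {H : Type} [AddCommGroup H] [Module F H] [FiniteDimensional F H]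
    (T : Module.End F H) {s : Finset F} {b : F} (hb : b ∉ s) (hT : T.charpoly = rp s) (w : H)
    (hw : T w = b • w) : w = 0 := by
  by_contra hne
  have h1 : T.HasEigenvalue b := Module.End.hasEigenvalue_of_hasEigenvector
    (x := w) ⟨Module.End.mem_eigenspace_iff.2 hw, hne⟩
  rw [Module.End.hasEigenvalue_iff_isRoot_charpoly, hT] at h1
  exact rp_root hb h1

/-- the relation between the pairs `(v, f)` and the factorisations -/
def Rel [FiniteDimensional F V] (A : Module.End F V) (s s' : Finset F) (b c : F)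
    (z : V × (V →ₗ[F] F))
    (y : Module.End F V × Module.End F V) : Prop :=
  ∃ (h : z.2 z.1 = 1) (B' C' : Module.End F (LinearMap.ker z.2)), z.2 (A z.1) = b * c ∧
    B'.charpoly = rp s ∧ C'.charpoly = rp s' ∧ y.1 = Bm A z.1 z.2 h c B' ∧
      y.2 = Cm A z.1 z.2 h b c C'

theorem rel_v [FiniteDimensional F V] {A : Module.End F V} {s s' : Finset F} {b c : F} {z : V × (V →ₗ[F] F)}
    {y : Module.End F V × Module.End F V} (hr : Rel A s s' b c z y) : y.2 z.1 = c • z.1 := by
  obtain ⟨h, B', C', hA, _, _, _, h2⟩ := hr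
  rw [h2, Cm_apply, pr_v, h]
  simp

theorem rel_line [FiniteDimensional F V] {A : Module.End F V} {s s' : Finset F} {b c : F}
    {z : V × (V →ₗ[F] F)} (hc : c ∉ s')
    {y : Module.End F V × Module.End F V} (hr : Rel A s s' b c z y) (u : V) (hu : y.2 u = c • u) :
    u = z.2 u • z.1 := by
  obtain ⟨h, B', C', hA, _, h3, _, h2⟩ := hr
  rw [h2, Cm_apply] at hu
  have h4 : C' (pr z.1 z.2 h u) = c • pr z.1 z.2 h u := by
    have h5 := congrArg (pr z.1 z.2 h) hu
    rw [map_add, map_smul, map_smul, pr_v, smul_zero, zero_add, pr_ker] at h5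
    exact h5
  have h6 := inj_of C' hc h3 _ h4
  have h7 := pr_coe z.1 z.2 h u
  rw [h6] at h7
  have h8 : (0 : V) = u - z.2 u • z.1 := h7
  exact (sub_eq_zero.1 h8.symm)

theorem rel_ker [FiniteDimensional F V] {A : Module.End F V} {s s' : Finset F} {b c : F}
    {z : V × (V →ₗ[F] F)} (hb : b ∉ s) (hc0 : c ≠ 0)
    {y : Module.End F V × Module.End F V} (hr : Rel A s s' b c z y) :
    LinearMap.ker z.2 = LinearMap.range (y.1 - b • LinearMap.id) := by
  obtain ⟨h, B', C', hA, h3, _, h1, _⟩ := hr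
  apply le_antisymm
  · intro w hw
    let D : LinearMap.ker z.2 →ₗ[F] LinearMap.ker z.2 := B' - b • LinearMap.id
    have h4 : Function.Injective D := by
      rw [← LinearMap.ker_eq_bot, LinearMap.ker_eq_bot']
      intro m hm
      apply inj_of B' hb h3
      have hm' : B' m - b • m = 0 := hm
      exact sub_eq_zero.1 hm'
    have h5 : Function.Surjective D := LinearMap.injective_iff_surjective.1 h4
    obtain ⟨w', hw'⟩ := h5 ⟨w, hw⟩
    refine ⟨w', ?_⟩
    rw [h1, LinearMap.sub_apply, Bm_apply]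
    have h6 : z.2 (w' : V) = 0 := LinearMap.mem_ker.1 w'.2
    have h7 : pr z.1 z.2 h (w' : V) = w' := pr_ker _ _ h w'
    rw [h6, h7, zero_smul, zero_add]
    exact congrArg Subtype.val hw'
  · rintro _ ⟨u, rfl⟩
    rw [LinearMap.mem_ker, h1, LinearMap.sub_apply, Bm_apply, map_sub, map_add, map_smul, map_smul,
      hA, LinearMap.mem_ker.1 (B' _).2]
    simp only [smul_eq_mul, add_zero, LinearMap.smul_apply, LinearMap.id_apply, map_smul]
    field_simp
    ring

/-- for a factorisation, the pairs `(v, f)` are determined by a nonzero scalar -/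
theorem rel_count [Finite F] [FiniteDimensional F V] (A : Module.End F V) (s s' : Finset F)
    (b c : F) (hb : b ∉ s) (hc : c ∉ s') (hc0 : c ≠ 0) (y : Module.End F V × Module.End F V) :
    Nat.card {z : V × (V →ₗ[F] F) // Rel A s s' b c z y} ≤ Nat.card F - 1 := by
  classical
  rcases isEmpty_or_nonempty {z : V × (V →ₗ[F] F) // Rel A s s' b c z y} with he | ⟨⟨z0, h0⟩⟩
  · rw [Nat.card_of_isEmpty]
    exact Nat.zero_le _
  · rw [← Nat.card_units F]
    have hz : ∀ z : {z : V × (V →ₗ[F] F) // Rel A s s' b c z y}, z0.2 z.1.1 ≠ 0 := by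
      rintro ⟨z, hz⟩ h1
      have h2 := rel_line hc h0 z.1 (rel_v hz)
      have h1' : z0.2 z.1 = 0 := h1
      rw [h1', zero_smul] at h2
      obtain ⟨h3, _⟩ := hz
      rw [h2, map_zero] at h3
      exact zero_ne_one h3
    apply Nat.card_le_card_of_injective
      (fun z : {z : V × (V →ₗ[F] F) // Rel A s s' b c z y} => Units.mk0 (z0.2 z.1.1) (hz z))
    rintro ⟨z, h1⟩ ⟨z', h2⟩ he
    have he' : z0.2 z.1 = z0.2 z'.1 := by
      have := congrArg Units.val he
      exact this
    have k1 := rel_line hc h0 z.1 (rel_v h1)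
    have k2 := rel_line hc h0 z'.1 (rel_v h2)
    have k3 : z.1 = z'.1 := by rw [k1, k2, he']
    have k4 : LinearMap.ker z.2 = LinearMap.ker z'.2 :=
      (rel_ker hb hc0 h1).trans (rel_ker hb hc0 h2).symm
    obtain ⟨e1, _⟩ := h1
    obtain ⟨e2, _⟩ := h2
    apply Subtype.ext
    show z = z'
    refine Prod.ext k3 ?_
    apply LinearMap.ext
    intro u
    have k5 : u - z.2 u • z.1 ∈ LinearMap.ker z.2 := by
      rw [LinearMap.mem_ker, map_sub, map_smul, e1]
      simp
    rw [k4, LinearMap.mem_ker, map_sub, map_smul, k3, e2, smul_eq_mul, mul_one, sub_eq_zero] at k5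
    exact k5.symm

end

end XS

open XS

theorem t_XS : S_XS := by
  classical
  intro F V _ _ _ _ _ A s s' b c M hn hs hs' hb hc hb0 hc0 hM
  have : Finite V := Module.finite_of_finite F
  have : Finite (V →ₗ[F] F) := DFunLike.finite _
  have : Finite (Module.End F V) := DFunLike.finite _
  have := Fintype.ofFinite V
  have := Fintype.ofFinite (V →ₗ[F] F)
  have := Fintype.ofFinite (Module.End F V)
  set Z : Finset (V × (V →ₗ[F] F)) := Finset.univ.filter fun z => z.2 z.1 = 1 ∧
    z.2 (A z.1) = b * c ∧ (3 ≤ Module.finrank F V →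
          ¬ ∃ μ : F, ∀ w, z.2 w = 0 → A w - (z.2 (A w) / (b * c)) • A z.1 = μ • w) with hZ
  set Y : Finset (Module.End F V × Module.End F V) := Finset.univ.filter fun y =>
    y.1 * y.2 = A ∧ y.1.charpoly = (X - C b) * rp s ∧ y.2.charpoly = (X - C c) * rp s' with hY
  have h1 : (Nat.card {z : V × (V →ₗ[F] F) // z.2 z.1 = 1 ∧ z.2 (A z.1) = b * c ∧
        (3 ≤ Module.finrank F V →
          ¬ ∃ μ : F, ∀ w, z.2 w = 0 → A w - (z.2 (A w) / (b * c)) • A z.1 = μ • w)}) =
      Z.card := by
    rw [Nat.card_eq_fintype_card, Fintype.card_subtype]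
  have h2 : XX F V A ((X - C b) * rp s) ((X - C c) * rp s') = Y.card := by
    rw [XX, Nat.card_eq_fintype_card, Fintype.card_subtype]
  have key := Finset.card_nsmul_le_card_nsmul (s := Z) (t := Y) (R := ℝ) (Rel A s s' b c)
    (m := M) (n := (Nat.card F : ℝ) - 1) ?_ ?_
  · rw [h1, h2]
    rw [nsmul_eq_mul, nsmul_eq_mul] at key
    rw [mul_comm ((Nat.card F : ℝ) - 1)]
    exact key
  · intro z hz
    rw [hZ, Finset.mem_filter] at hz
    obtain ⟨_, hz1, hz2, hz3⟩ := hz
    have hbc : b * c ≠ 0 := mul_ne_zero hb0 hc0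
    let A' : Module.End F (LinearMap.ker z.2) := LinearMap.codRestrict (LinearMap.ker z.2)
      ((A - ((b * c)⁻¹ • (z.2 ∘ₗ A)).smulRight (A z.1)) ∘ₗ (LinearMap.ker z.2).subtype) (by
        intro u
        rw [LinearMap.mem_ker]
        simp only [LinearMap.comp_apply, LinearMap.sub_apply, LinearMap.smulRight_apply,
          LinearMap.smul_apply, map_sub, map_smul, hz2, smul_eq_mul, Submodule.subtype_apply]
        field_simp
        ring)
    have hA' : ∀ w : LinearMap.ker z.2, (A' w : V) = A w - (z.2 (A w) / (b * c)) • A z.1 := by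
      intro w
      show A w - ((b * c)⁻¹ * z.2 (A w)) • A z.1 = _
      rw [div_eq_inv_mul]
    have h3 := hM z.1 z.2 A' hz1 hz2 hA' (by
      intro h3 h4
      obtain ⟨μ, hμ⟩ := h4
      apply hz3 h3
      refine ⟨μ, ?_⟩
      intro w hw
      have h5 := congrArg Subtype.val (hμ ⟨w, hw⟩)
      rw [hA'] at h5
      exact h5)
    refine h3.trans ?_
    rw [XX, Nat.cast_le]
    have h4 : (Y.bipartiteAbove (Rel A s s' b c) z).card =
        Nat.card {y // y ∈ Y.bipartiteAbove (Rel A s s' b c) z} := by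
      rw [Nat.card_eq_fintype_card, Fintype.card_coe]
    rw [h4]
    have h5 : ∀ p : {p : Module.End F (LinearMap.ker z.2) × Module.End F (LinearMap.ker z.2) //
        p.1 * p.2 = A' ∧ p.1.charpoly = rp s ∧ p.2.charpoly = rp s'},
        (Bm A z.1 z.2 hz1 c p.1.1, Cm A z.1 z.2 hz1 b c p.1.2) ∈
          Y.bipartiteAbove (Rel A s s' b c) z := by
      rintro ⟨⟨B', C'⟩, p1, p2, p3⟩
      rw [Finset.mem_bipartiteAbove, hY, Finset.mem_filter]
      refine ⟨⟨Finset.mem_univ _, ?_, ?_, ?_⟩, hz1, B', C', hz2, p2, p3, rfl, rfl⟩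
      · exact mul_eq A z.1 z.2 hz1 b c hb0 hc0 hz2 A' B' C' hA' p1
      · have h6 := cp_B A z.1 z.2 hz1 b c hc0 hz2 B'
        exact h6.trans (congrArg (fun q => (X - C b) * q) p2)
      · have h6 := cp_C A z.1 z.2 hz1 b c C'
        exact h6.trans (congrArg (fun q => (X - C c) * q) p3)
    apply Nat.card_le_card_of_injective (fun p => (⟨_, h5 p⟩ :
      {y // y ∈ Y.bipartiteAbove (Rel A s s' b c) z}))
    rintro ⟨⟨B', C'⟩, p1, p2, p3⟩ ⟨⟨B'', C''⟩, q1, q2, q3⟩ he
    have he1 := congrArg (fun y => y.1.1) he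
    have he2 := congrArg (fun y => y.1.2) he
    have he1' : Bm A z.1 z.2 hz1 c B' = Bm A z.1 z.2 hz1 c B'' := he1
    have he2' : Cm A z.1 z.2 hz1 b c C' = Cm A z.1 z.2 hz1 b c C'' := he2
    have e1 : B' = B'' := by
      apply LinearMap.ext
      intro w
      have k := congrArg (fun T => T (w : V)) he1'
      simp only [Bm_apply] at k
      have k2 : pr z.1 z.2 hz1 (w : V) = w := pr_ker _ _ hz1 w
      rw [k2] at k
      exact Subtype.ext (add_left_cancel k)
    have e2 : C' = C'' := by
      apply LinearMap.ext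
      intro w
      have k := congrArg (fun T => T (w : V)) he2'
      simp only [Cm_apply] at k
      have k2 : pr z.1 z.2 hz1 (w : V) = w := pr_ker _ _ hz1 w
      rw [k2] at k
      exact Subtype.ext (add_left_cancel k)
    subst e1 e2
    rfl
  · intro y hy
    have h3 := rel_count A s s' b c hb hc hc0 y
    have h4 : (Z.bipartiteBelow (Rel A s s' b c) y).card ≤
        Nat.card {z : V × (V →ₗ[F] F) // Rel A s s' b c z y} := by
      rw [Nat.card_eq_fintype_card, Fintype.card_subtype]
      apply Finset.card_le_card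
      intro z hz
      rw [Finset.mem_bipartiteBelow] at hz
      rw [Finset.mem_filter]
      exact ⟨Finset.mem_univ _, hz.2⟩
    have h5 : 1 ≤ Nat.card F := Nat.card_pos
    have h6 : ((Z.bipartiteBelow (Rel A s s' b c) y).card : ℝ) ≤ ((Nat.card F - 1 : ℕ) : ℝ) := by
      exact_mod_cast h4.trans h3
    rw [Nat.cast_sub h5, Nat.cast_one] at h6
    exact h6

end RSF
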