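import Pool.Agent.RSF.Stmts

/-!
# Invariant subspaces with a given image under `f(A)`
-/

namespace RSF

open Polynomial

noncomputable section

namespace XW2

variable {F V V₂ : Type} [Field F] [AddCommGroup V] [Module F V] [AddCommGroup V₂] [Module F V₂]

lemma aeval_mem (A : Module.End F V) (W : Submodule F V) (hW : ∀ w ∈ W, A w ∈ W) (p : F[X]) :
    ∀ w ∈ W, aeval A p w ∈ W := by
  induction p using Polynomial.induction_on' with
  | add p q hp hq =>
    intro w hw
    rw [map_add, LinearMap.add_apply]
    exact W.add_mem (hp w hw) (hq w hw)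
  | monomial n a =>
    intro w hw
    rw [aeval_monomial, Module.End.mul_apply, Module.algebraMap_end_apply]
    refine W.smul_mem _ ?_
    clear a
    induction n with
    | zero => simpa using hw
    | succ n ih =>
      rw [pow_succ', Module.End.mul_apply]
      exact hW _ ih

/-- intertwining maps -/
lemma aeval_inter (A : Module.End F V) (A₂ : Module.End F V₂) (φ : V →ₗ[F] V₂)
    (h : ∀ v, φ (A v) = A₂ (φ v)) (p : F[X]) (v : V) :
    φ (aeval A p v) = aeval A₂ p (φ v) := by
  induction p using Polynomial.induction_on' with
  | add p q hp hq =>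
    rw [map_add, LinearMap.add_apply, map_add, hp, hq, map_add, LinearMap.add_apply]
  | monomial n a =>
    rw [aeval_monomial, aeval_monomial, Module.End.mul_apply, Module.End.mul_apply,
      Module.algebraMap_end_apply, Module.algebraMap_end_apply, map_smul]
    congr 1
    induction n with
    | zero => simp
    | succ n ih =>
      rw [pow_succ', pow_succ', Module.End.mul_apply, Module.End.mul_apply, h, ih]

end XW2

theorem t_XW2 : M_XW := by
  intro hIW F V _ _ _ _ _ f hf hirr A W' k hW' hinv
  classical
  set g : Module.End F V := aeval A f with hg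
  -- the case of no subspace
  by_cases hemp : Nonempty {W : Submodule F V // Module.finrank F W = k ∧ (∀ w ∈ W, A w ∈ W) ∧
        W.map g = W'}
  swap
  · haveI := not_nonempty_iff.1 hemp
    rw [Nat.card_of_isEmpty]
    simp only [Nat.cast_zero]
    positivity
  -- the preimage
  set P : Submodule F V := W'.comap g with hP
  have hcomm : ∀ v, A (g v) = g (A v) := by
    intro v
    have := XW2.aeval_inter A A A (fun v => rfl) f v
    exact this
  have hPinv : ∀ v ∈ P, A v ∈ P := by
    intro v hv
    rw [hP, Submodule.mem_comap] at hv ⊢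
    rw [← hcomm]
    exact hinv _ hv
  have hW'P : W' ≤ P := by
    intro w hw
    rw [hP, Submodule.mem_comap]
    exact XW2.aeval_mem A W' hinv f w hw
  set B : Module.End F P := A.restrict hPinv with hB
  set Q : Submodule F P := W'.comap P.subtype with hQ
  have hQinv : Q ≤ Q.comap B := by
    intro v hv
    rw [Submodule.mem_comap, hQ, Submodule.mem_comap]
    rw [hQ, Submodule.mem_comap] at hv
    exact hinv _ hv
  set A' : Module.End F (P ⧸ Q) := Q.mapQ Q B hQinv with hA'
  have hA'f : aeval A' f = 0 := by
    ext v
    have h1 := XW2.aeval_inter B A' Q.mkQ (fun v => rfl) f v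
    have h2 := XW2.aeval_inter B A P.subtype (fun v => rfl) f v
    rw [LinearMap.comp_apply, LinearMap.comp_apply, ← h1, LinearMap.zero_apply, Submodule.mkQ_apply,
      Submodule.Quotient.mk_eq_zero, hQ, Submodule.mem_comap, h2]
    exact v.2
  -- dimensions
  have hQW' : Module.finrank F Q = Module.finrank F W' :=
    (Submodule.comapSubtypeEquivOfLe hW'P).finrank_eq
  have hPdim : Module.finrank F P = Module.finrank F W' + Module.finrank F (LinearMap.ker g) := by
    have h1 := LinearMap.finrank_range_add_finrank_ker (g.domRestrict P)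
    have h2 : LinearMap.range (g.domRestrict P) = W' := by
      rw [LinearMap.range_domRestrict, hP, Submodule.map_comap_eq, inf_eq_right]
      exact hW'
    have h3 : Module.finrank F (LinearMap.ker (g.domRestrict P)) =
        Module.finrank F (LinearMap.ker g) := by
      rw [LinearMap.ker_domRestrict]
      refine (Submodule.comapSubtypeEquivOfLe ?_).finrank_eq
      intro v hv
      rw [hP, Submodule.mem_comap, LinearMap.mem_ker.1 hv]
      exact W'.zero_mem
    rw [h2, h3] at h1
    exact h1.symm
  have hn := LinearMap.finrank_range_add_finrank_ker g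
  have hV' : Module.finrank F (P ⧸ Q) = Module.finrank F (LinearMap.ker g) := by
    have := Submodule.finrank_quotient_add_finrank Q
    omega
  -- properties of the subspaces
  have hle1 : ∀ W : Submodule F V, (∀ w ∈ W, A w ∈ W) → W.map g = W' → W' ≤ W := by
    intro W hW hWm
    rw [← hWm]
    rintro _ ⟨w, hw, rfl⟩
    exact XW2.aeval_mem A W hW f w hw
  have hle2 : ∀ W : Submodule F V, W.map g = W' → W ≤ P := by
    intro W hWm w hw
    rw [hP, Submodule.mem_comap, ← hWm]
    exact Submodule.mem_map_of_mem hw
  have hfr : ∀ W : Submodule F V, (∀ w ∈ W, A w ∈ W) → W.map g = W' →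
      Module.finrank F ((W.comap P.subtype).map Q.mkQ) + Module.finrank F W' =
        Module.finrank F W := by
    intro W hW hWm
    have h1 := LinearMap.finrank_range_add_finrank_ker (Q.mkQ.domRestrict (W.comap P.subtype))
    rw [LinearMap.range_domRestrict, LinearMap.ker_domRestrict, Submodule.ker_mkQ] at h1
    have h2 : Module.finrank F (Q.comap (W.comap P.subtype).subtype) = Module.finrank F Q := by
      refine (Submodule.comapSubtypeEquivOfLe ?_).finrank_eq
      rw [hQ]
      exact Submodule.comap_mono (hle1 W hW hWm)
    have h3 : Module.finrank F (W.comap P.subtype) = Module.finrank F W :=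
      (Submodule.comapSubtypeEquivOfLe (hle2 W hWm)).finrank_eq
    have h4 : Module.finrank F (Submodule.submoduleOf Q (W.comap P.subtype)) =
        Module.finrank F Q := h2
    omega
  obtain ⟨W₀, hW₀k, hW₀i, hW₀m⟩ := hemp
  have hf0 := hfr W₀ hW₀i hW₀m
  have hle : k - Module.finrank F W' ≤ Module.finrank F (P ⧸ Q) := by
    have := Submodule.finrank_le ((W₀.comap P.subtype).map Q.mkQ)
    omega
  have hwk : Module.finrank F W' ≤ k := by omega
  have key := hIW F (P ⧸ Q) f hf hirr A' hA'f (k - Module.finrank F W') hle
  have hinj : Nat.card {W : Submodule F V // Module.finrank F W = k ∧ (∀ w ∈ W, A w ∈ W) ∧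
        W.map g = W'} ≤ Nat.card {W : Submodule F (P ⧸ Q) //
          Module.finrank F W = k - Module.finrank F W' ∧ ∀ w ∈ W, A' w ∈ W} := by
    haveI : Finite V := Module.finite_of_finite F
    haveI : Finite (P ⧸ Q) := Module.finite_of_finite F
    refine Nat.card_le_card_of_injective (fun W => ⟨(W.1.comap P.subtype).map Q.mkQ, ?_, ?_⟩) ?_
    · have := hfr W.1 W.2.2.1 W.2.2.2
      have := W.2.1
      omega
    · rintro _ ⟨w, hw, rfl⟩
      refine ⟨B w, ?_, rfl⟩
      exact W.2.2.1 _ hw
    · rintro ⟨W, hWk, hWi, hWm⟩ ⟨U, hUk, hUi, hUm⟩ h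
      have h1 : (W.comap P.subtype).map Q.mkQ = (U.comap P.subtype).map Q.mkQ :=
        congrArg Subtype.val h
      have h2 : ∀ X : Submodule F V, (∀ w ∈ X, A w ∈ X) → X.map g = W' →
          (((X.comap P.subtype).map Q.mkQ).comap Q.mkQ).map P.subtype = X := by
        intro X hXi hXm
        rw [Submodule.comap_map_mkQ]
        have h3 : Q ⊔ X.comap P.subtype = X.comap P.subtype := by
          rw [sup_eq_right, hQ]
          exact Submodule.comap_mono (hle1 X hXi hXm)
        rw [h3, Submodule.map_comap_eq, Submodule.range_subtype, inf_eq_right]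
        exact hle2 X hXm
      have h4 : W = U := by
        rw [← h2 W hWi hWm, ← h2 U hUi hUm, h1]
      exact Subtype.ext h4
  have hcast : ((k - Module.finrank F W' : ℕ) : ℝ) = (k : ℝ) - Module.finrank F W' := by
    push_cast [Nat.cast_sub hwk]
    ring
  have hker : (Module.finrank F (LinearMap.ker g) : ℝ) =
      (Module.finrank F V : ℝ) - Module.finrank F (LinearMap.range g) := by
    have : (Module.finrank F (LinearMap.range g) : ℝ) + Module.finrank F (LinearMap.ker g) =
        Module.finrank F V := by exact_mod_cast hn
    linarith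
  rw [hV', hcast, hker] at key
  exact le_trans (by exact_mod_cast hinj) key

end

end RSF
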