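import Pool.Agent.RSF.Stmts3
import Pool.Agent.RSF.A
import Pool.Agent.RSF.AS
import Pool.Agent.RSF.B
import Pool.Agent.RSF.BE
import Pool.Agent.RSF.BH
import Pool.Agent.RSF.C
import Pool.Agent.RSF.CNT
import Pool.Agent.RSF.CR
import Pool.Agent.RSF.D
import Pool.Agent.RSF.E
import Pool.Agent.RSF.F
import Pool.Agent.RSF.FK
import Pool.Agent.RSF.FX
import Pool.Agent.RSF.H
import Pool.Agent.RSF.H2
import Pool.Agent.RSF.IA
import Pool.Agent.RSF.IW
import Pool.Agent.RSF.J2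
import Pool.Agent.RSF.JA
import Pool.Agent.RSF.JL
import Pool.Agent.RSF.K3
import Pool.Agent.RSF.KA
import Pool.Agent.RSF.KB
import Pool.Agent.RSF.KC
import Pool.Agent.RSF.KD
import Pool.Agent.RSF.KE
import Pool.Agent.RSF.KP
import Pool.Agent.RSF.KQ
import Pool.Agent.RSF.L
import Pool.Agent.RSF.LD
import Pool.Agent.RSF.MR
import Pool.Agent.RSF.MS
import Pool.Agent.RSF.NL
import Pool.Agent.RSF.NP
import Pool.Agent.RSF.PW
import Pool.Agent.RSF.R2
import Pool.Agent.RSF.RG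
import Pool.Agent.RSF.RT
import Pool.Agent.RSF.SM
import Pool.Agent.RSF.SUB
import Pool.Agent.RSF.T
import Pool.Agent.RSF.TC
import Pool.Agent.RSF.TS
import Pool.Agent.RSF.U2
import Pool.Agent.RSF.UP
import Pool.Agent.RSF.VF
import Pool.Agent.RSF.XA
import Pool.Agent.RSF.XN
import Pool.Agent.RSF.XS
import Pool.Agent.RSF.XW2

/-!
# Assembly, parts 1 to 3
-/

namespace RSF

theorem f_EV : S_EV := t_SM.1
theorem f_PI : S_PI := t_SM.2.1
theorem f_SG : S_SG := t_SM.2.2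
theorem f_LO : S_LO := (t_L t_CNT f_EV).1
theorem f_LN : S_LN := (t_L t_CNT f_EV).2
theorem f_HO : S_HO := t_H.1
theorem f_HN : S_HN := t_H.2
theorem f_MainC : MainC := t_C f_HO f_HN f_LO f_LN t_UP
theorem f_KB : S_KB := t_KB t_KA
theorem f_KC : S_KC := t_KC f_PI
theorem f_KP : S_KP := t_KP f_KB f_KC
theorem f_SUB : S_SUB := t_SUB f_PI
theorem f_IW : S_IW := t_IW f_SUB
theorem f_XA : S_XA := t_XA t_IA
theorem f_XW : S_XW := t_XW2 f_IW
theorem f_TS : S_TS := t_TS f_SUB f_XA f_XW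
theorem f_T : S_T := t_T t_IA f_IW f_TS
theorem f_FX : S_FX := t_FX f_SUB f_T
theorem f_JL : S_JL := (t_JL t_JA).1
theorem f_PJ : S_PJ := (t_JL t_JA).2
theorem f_PW : S_PW := t_PW f_PI f_FX f_JL
theorem f_RT : S_RT := t_RT f_SG f_SUB f_PW
theorem f_MainA : MainA := t_A f_MainC f_KP f_SG f_RT t_AS
theorem f_MainB : MainB := t_B f_MainC f_KP f_PJ t_AS
theorem f_XN : S_XN := t_XN t_VF t_XS
theorem f_NL : S_NL := t_NL f_XN t_BE t_TC
theorem f_NP : S_NP := t_NP f_NL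
theorem f_RG : S_RG := t_RG f_SUB f_PW
theorem f_MainD : MainD := t_D f_HO f_HN t_UP t_LD f_NP t_J2 f_KP f_RG t_AS
theorem f_MS : S_MS := t_MS f_KC
theorem f_MR : S_MR := t_MR f_MS
theorem f_CR : S_CR := t_CR t_KE f_MR
theorem f_K3 : S_K3 := t_K3 f_KB f_KC f_SUB t_KE f_CR t_FK
theorem f_BH : S_BH := t_BH t_H2 t_U2
theorem f_R2 : S_R2 := t_R2 f_PW f_K3 t_KD t_KQ
theorem f_MainE : MainE := t_E t_H2 f_LO f_LN f_BH f_R2 t_AS
theorem f_MainF : MainF := t_F t_H2 t_LD f_NP t_J2 f_BH f_R2 t_AS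

end RSF
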