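import Mathlib

/-!
# Random homomorphisms from Fuchsian groups onto finite simple groups (MP_5b5212_al)

The co-compact Fuchsian groups by their standard presentations, random homomorphisms to a finite
group, irreducible subgroups of `PSL_n(F)`, and the main statements. Paper: `Pool/Agent/RSF/PAPER.md`.
-/

namespace RSF

noncomputable section

/-- generators of the oriented group of genus `g` with `d` periods -/
inductive OGen (g d : ℕ) : Type
  | a (i : Fin g) : OGen g d
  | b (i : Fin g) : OGen g d
  | x (j : Fin d) : OGen g d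

/-- generators of the non-oriented group of genus `g` with `d` periods -/
inductive NGen (g d : ℕ) : Type
  | a (i : Fin g) : NGen g d
  | x (j : Fin d) : NGen g d

/-- relations: `x_j ^ m_j = 1` and `x_1 ... x_d [a_1, b_1] ... [a_g, b_g] = 1` -/
def ORel (g : ℕ) (m : List ℕ) : Set (FreeGroup (OGen g m.length)) :=
  {w | (∃ j : Fin m.length, w = FreeGroup.of (OGen.x j) ^ m.get j) ∨
    w = (List.ofFn fun j : Fin m.length => FreeGroup.of (OGen.x j)).prod *
      (List.ofFn fun i : Fin g =>
        (FreeGroup.of (OGen.a i) * FreeGroup.of (OGen.b i) * (FreeGroup.of (OGen.a i))⁻¹ *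
          (FreeGroup.of (OGen.b i))⁻¹ : FreeGroup (OGen g m.length))).prod}

/-- relations: `x_j ^ m_j = 1` and `x_1 ... x_d a_1 ^ 2 ... a_g ^ 2 = 1` -/
def NRel (g : ℕ) (m : List ℕ) : Set (FreeGroup (NGen g m.length)) :=
  {w | (∃ j : Fin m.length, w = FreeGroup.of (NGen.x j) ^ m.get j) ∨
    w = (List.ofFn fun j : Fin m.length => FreeGroup.of (NGen.x j)).prod *
      (List.ofFn fun i : Fin g => (FreeGroup.of (NGen.a i) ^ 2 : FreeGroup (NGen g m.length))).prod}

/-- the oriented co-compact group of genus `g` with the list of periods `m` -/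
abbrev OGroup (g : ℕ) (m : List ℕ) : Type := PresentedGroup (ORel g m)

/-- the non-oriented co-compact group of genus `g` with the list of periods `m` -/
abbrev NGroup (g : ℕ) (m : List ℕ) : Type := PresentedGroup (NRel g m)

/-- the elliptic generator `x_j` -/
def ox (g : ℕ) (m : List ℕ) (j : Fin m.length) : OGroup g m := PresentedGroup.of (OGen.x j)

/-- the elliptic generator `x_j` -/
def nx (g : ℕ) (m : List ℕ) (j : Fin m.length) : NGroup g m := PresentedGroup.of (NGen.x j)

/-- the probability that a (uniform) random homomorphism has the property `P` -/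
def prob (Γ G : Type) [Group Γ] [Group G] (P : (Γ →* G) → Prop) : ℝ :=
  (Nat.card {ρ : Γ →* G // P ρ} : ℝ) / Nat.card (Γ →* G)

/-- `PSL_n(F)` -/
abbrev PS (n : ℕ) (F : Type) [Field F] : Type := Matrix.ProjectiveSpecialLinearGroup (Fin n) F

/-- the image in `PSL_n(F)` -/
def mk {n : ℕ} {F : Type} [Field F] (A : Matrix.SpecialLinearGroup (Fin n) F) : PS n F :=
  QuotientGroup.mk A

/-- the element `g` of `PSL_n(F)` preserves the subspace `W` of `F^n` -/
def Pres {n : ℕ} {F : Type} [Field F] (g : PS n F) (W : Submodule F (Fin n → F)) : Prop :=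
  ∀ A : Matrix.SpecialLinearGroup (Fin n) F, mk A = g → ∀ w ∈ W, A.1.mulVec w ∈ W

/-- the subgroup `H` of `PSL_n(F)` is irreducible: the only subspaces of `F^n` preserved by all its
elements are `0` and `F^n` -/
def Irr {n : ℕ} {F : Type} [Field F] (H : Subgroup (PS n F)) : Prop :=
  ∀ W : Submodule F (Fin n → F), (∀ g ∈ H, Pres g W) → W = ⊥ ∨ W = ⊤

/-- the subgroup generated by the images of the elliptic generators -/
def oell {g : ℕ} {m : List ℕ} {G : Type} [Group G] (ρ : OGroup g m →* G) : Subgroup G :=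
  Subgroup.closure (Set.range fun j => ρ (ox g m j))

/-- the subgroup generated by the images of the elliptic generators -/
def nell {g : ℕ} {m : List ℕ} {G : Type} [Group G] (ρ : NGroup g m →* G) : Subgroup G :=
  Subgroup.closure (Set.range fun j => ρ (nx g m j))

/-- The periods: at least `2` each, every value occurs an even number of times, at least four of them,
not `(2,2,2,2)`. -/
structure Good (m : List ℕ) : Prop where
  two : ∀ k ∈ m, 2 ≤ k
  even : ∀ k, Even (m.count k)
  len : 4 ≤ m.length
  ne : m ≠ [2, 2, 2, 2]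

/-- `σ = ∑ (1 - 1 / m_i)` -/
def sig (m : List ℕ) : ℝ := (m.map fun k : ℕ => 1 - 1 / (k : ℝ)).sum

/-- (A). A random homomorphism to `PSL_n(q)` has irreducible image, even the subgroup generated by the
images of the elliptic generators is irreducible, with probability tending to `1` as
`|PSL_n(q)| → ∞`, `n ≥ r`. -/
def MainA : Prop :=
  ∀ m : List ℕ, Good m → ∃ r : ℕ, ∀ ε : ℝ, 0 < ε → ∃ N : ℕ, ∀ n, r ≤ n →
    ∀ (F : Type) [Field F] [Finite F], N ≤ Nat.card (PS n F) →
      1 - ε ≤ prob (OGroup 1 m) (PS n F) (fun ρ => Irr (oell ρ)) ∧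
      1 - ε ≤ prob (NGroup 2 m) (PS n F) (fun ρ => Irr (nell ρ))

/-- `H` is contained in a conjugate of `M` -/
def InConj {G : Type} [Group G] (H M : Subgroup G) : Prop :=
  ∃ g : G, ∀ h ∈ H, g⁻¹ * h * g ∈ M

/-- (B). For `θ > (∑ 1/m_i)/(d-1)` there is `η > 0` such that the image is not contained in a conjugate
of one of any `q ^ (η n²)` given subgroups of index at least `q ^ (θ n²)`, with probability tending
to `1`. -/
def MainB : Prop :=
  ∀ m : List ℕ, Good m → ∀ θ : ℝ, (m.length - sig m) < θ * (m.length - 1) →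
    ∃ (η : ℝ) (r : ℕ), 0 < η ∧ ∀ ε : ℝ, 0 < ε → ∃ N : ℕ, ∀ n, r ≤ n →
    ∀ (F : Type) [Field F] [Finite F], N ≤ Nat.card (PS n F) →
    ∀ S : Set (Subgroup (PS n F)), (S.ncard : ℝ) ≤ (Nat.card F : ℝ) ^ (η * (n : ℝ) ^ 2) →
      (∀ M ∈ S, (Nat.card F : ℝ) ^ (θ * (n : ℝ) ^ 2) ≤ M.index) →
      prob (OGroup 1 m) (PS n F) (fun ρ => ∃ M ∈ S, InConj (oell ρ) M) ≤ ε ∧
      prob (NGroup 2 m) (PS n F) (fun ρ => ∃ M ∈ S, InConj (nell ρ) M) ≤ ε

/-- (C). For every finite group `G` and every set `E` of tuples, the probability that the tuple of the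
images of the elliptic generators is in `E` is at most `k(G)` times the probability for independent
uniform elements `t j` with `t j ^ m_j = 1`. -/
def MainC : Prop :=
  ∀ m : List ℕ, (∀ k, Even (m.count k)) → ∀ (G : Type) [Group G] [Finite G]
    (E : (Fin m.length → G) → Prop),
    prob (OGroup 1 m) G (fun ρ => E fun j => ρ (ox 1 m j)) ≤
      Nat.card (ConjClasses G) *
        ((Nat.card {t : Fin m.length → G // (∀ j, t j ^ m.get j = 1) ∧ E t} : ℝ) /
          Nat.card {t : Fin m.length → G // ∀ j, t j ^ m.get j = 1}) ∧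
    prob (NGroup 2 m) G (fun ρ => E fun j => ρ (nx 2 m j)) ≤
      Nat.card (ConjClasses G) *
        ((Nat.card {t : Fin m.length → G // (∀ j, t j ^ m.get j = 1) ∧ E t} : ℝ) /
          Nat.card {t : Fin m.length → G // ∀ j, t j ^ m.get j = 1})

end

end RSF
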