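import Pool.Agent.RSF.Stmts2

/-!
# Module J2: an element of order dividing `k` in `PSL_n(F)`, not the identity
-/

set_option autoImplicit false

namespace RSF

namespace J2

open Equiv Matrix

/-- index type: two cycles of length `m + 1` and `r` fixed points -/
abbrev I (m r : ℕ) : Type := (Fin 2 × Fin (m + 1)) ⊕ Fin r

/-- the permutation -/
def tau (m r : ℕ) : Perm (I m r) :=
  Equiv.sumCongr (Equiv.prodCongrRight fun _ : Fin 2 => Equiv.addRight (1 : Fin (m + 1)))
    (Equiv.refl (Fin r))

theorem tau_inl (m r : ℕ) (s : Fin 2) (u : Fin (m + 1)) :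
    tau m r (Sum.inl (s, u)) = Sum.inl (s, u + 1) := rfl

theorem tau_inr (m r : ℕ) (j : Fin r) : tau m r (Sum.inr j) = Sum.inr j := rfl

theorem tau_pow_inl (m r : ℕ) (k : ℕ) (s : Fin 2) (u : Fin (m + 1)) :
    (tau m r ^ k) (Sum.inl (s, u)) = Sum.inl (s, u + k • (1 : Fin (m + 1))) := by
  induction k with
  | zero => simp
  | succ k ih => rw [pow_succ', Equiv.Perm.mul_apply, ih, tau_inl, succ_nsmul, add_assoc]

theorem nsmul_zero' (m : ℕ) : ((m + 1) • (1 : Fin (m + 1))) = 0 := by
  have h := card_nsmul_eq_zero (G := Fin (m + 1)) (x := 1)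
  rwa [Fintype.card_fin] at h

theorem tau_pow_inr (m r : ℕ) (k : ℕ) (j : Fin r) :
    (tau m r ^ k) (Sum.inr j) = Sum.inr j := by
  induction k with
  | zero => simp
  | succ k ih => rw [pow_succ', Equiv.Perm.mul_apply, ih, tau_inr]

theorem tau_pow_eq (m r : ℕ) : tau m r ^ (m + 1) = 1 := by
  ext x
  rcases x with ⟨s, u⟩ | j
  · rw [tau_pow_inl, nsmul_zero']
    simp
  · rw [tau_pow_inr]
    simp

theorem sign_tau (m r : ℕ) : Equiv.Perm.sign (tau m r) = 1 := by
  unfold tau
  have h := Equiv.Perm.sign_sumCongr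
    (Equiv.prodCongrRight fun _ : Fin 2 => Equiv.addRight (1 : Fin (m + 1)))
    (Equiv.refl (Fin r))
  rw [Equiv.Perm.sumCongr] at h
  rw [h, Equiv.Perm.sign_prodCongrRight]
  rw [Finset.prod_const, Finset.card_univ, Fintype.card_fin, Int.units_sq, one_mul]
  exact Equiv.Perm.sign_refl

section

variable {n m r : ℕ} (e : Fin n ≃ I m r)

/-- transported permutation -/
def sg : Perm (Fin n) := (e.trans (tau m r)).trans e.symm

theorem sg_apply (i : Fin n) : sg e i = e.symm (tau m r (e i)) := rfl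

theorem sg_pow (k : ℕ) (i : Fin n) : (sg e ^ k) i = e.symm ((tau m r ^ k) (e i)) := by
  induction k with
  | zero => simp
  | succ k ih =>
    rw [pow_succ', Equiv.Perm.mul_apply, ih, sg_apply, pow_succ', Equiv.Perm.mul_apply,
      Equiv.apply_symm_apply]

theorem sg_pow_eq : sg e ^ (m + 1) = 1 := by
  ext i
  rw [sg_pow, tau_pow_eq]
  simp

theorem sign_sg : Equiv.Perm.sign (sg e) = Equiv.Perm.sign (tau m r) := by
  have h := Equiv.Perm.sign_permCongr e.symm (tau m r)
  rw [← h]
  congr 1

theorem permMatrix_pow (F : Type) [Field F] (σ : Perm (Fin n)) (k : ℕ) :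
    σ.permMatrix F ^ k = (σ ^ k).permMatrix F := by
  induction k with
  | zero => rw [pow_zero, pow_zero, Matrix.permMatrix_one]
  | succ k ih => rw [pow_succ', ih, pow_succ, Matrix.permMatrix_mul]

end

theorem pm_entry {n : ℕ} (F : Type) [Field F] (σ : Perm (Fin n)) (i : Fin n) :
    σ.permMatrix F i (σ i) = 1 := by
  rw [Equiv.Perm.permMatrix, PEquiv.toMatrix_apply, Equiv.toPEquiv_apply]
  simp

end J2

theorem t_J2 : S_J2 := by
  intro F _ _ n k hk hn
  obtain ⟨m, rfl⟩ : ∃ p, k = p + 1 := ⟨k - 1, by omega⟩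
  set r : ℕ := n - 2 * (m + 1) with hr
  have hcard : Fintype.card (Fin n) = Fintype.card (J2.I m r) := by
    simp only [Fintype.card_fin, Fintype.card_sum, Fintype.card_prod]
    omega
  let e : Fin n ≃ J2.I m r := Fintype.equivOfCardEq hcard
  have hdet : ((J2.sg e).permMatrix F).det = 1 := by
    rw [Matrix.det_permutation, J2.sign_sg, J2.sign_tau]
    simp
  let A : Matrix.SpecialLinearGroup (Fin n) F := ⟨(J2.sg e).permMatrix F, hdet⟩
  have hA : A ^ (m + 1) = 1 := by
    apply Subtype.ext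
    rw [Matrix.SpecialLinearGroup.coe_pow]
    change (J2.sg e).permMatrix F ^ (m + 1) = _
    rw [J2.permMatrix_pow, J2.sg_pow_eq, Matrix.permMatrix_one]
    rfl
  have hA2 : mk A ^ (m + 1) = (1 : PS n F) := by
    unfold mk
    rw [← QuotientGroup.mk_pow, hA]
    rfl
  have hA3 : mk A ≠ (1 : PS n F) := by
    intro h
    have h1 : A ∈ Subgroup.center (Matrix.SpecialLinearGroup (Fin n) F) :=
      (QuotientGroup.eq_one_iff A).1 h
    rw [Matrix.SpecialLinearGroup.mem_center_iff] at h1
    obtain ⟨c, -, hc⟩ := h1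
    let i : Fin n := e.symm (Sum.inl (0, 0))
    have h2 : J2.sg e i ≠ i := by
      intro h3
      rw [J2.sg_apply] at h3
      have h4 : J2.tau m r (e i) = e i := by
        apply e.symm.injective
        rw [h3, Equiv.symm_apply_apply]
      have h5 : e i = Sum.inl (0, 0) := Equiv.apply_symm_apply _ _
      rw [h5, J2.tau_inl] at h4
      have h6 := congrArg Prod.snd (Sum.inl.inj h4)
      simp only [zero_add] at h6
      have h7 := congrArg Fin.val h6
      rw [Fin.val_one', Nat.mod_eq_of_lt (by omega)] at h7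
      simp at h7
    have h8 : A.1 i (J2.sg e i) = 1 := J2.pm_entry F _ i
    rw [← hc, Matrix.scalar_apply, Matrix.diagonal_apply_ne' _ h2] at h8
    exact zero_ne_one h8
  have hfin : Finite (PS n F) := by
    have : Finite (Matrix.SpecialLinearGroup (Fin n) F) :=
      Finite.of_injective (fun A => A.1) Subtype.val_injective
    exact Finite.of_surjective (mk : Matrix.SpecialLinearGroup (Fin n) F → PS n F)
      (QuotientGroup.mk_surjective)
  unfold jn
  have hnt : Nontrivial {x : PS n F // x ^ (m + 1) = 1} :=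
    ⟨⟨⟨mk A, hA2⟩, ⟨1, one_pow _⟩, fun h => hA3 (congrArg Subtype.val h)⟩⟩
  exact Finite.one_lt_card

end RSF
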