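import Pool.Agent.RSF.Stmts

/-!
# The lower bound for the number of homomorphisms
-/

namespace RSF

noncomputable section

namespace L2

variable {G : Type} [Group G] [Fintype G]

theorem card_sum {T : Type} [Finite T] (P : T → Prop) (f : T → G) (c : G × G → G) :
    Nat.card {p : T × G × G // P p.1 ∧ True ∧ f p.1 * c p.2 = 1} =
      ∑ ab : G × G, Nat.card {t : T // P t ∧ f t = (c ab)⁻¹} := by
  have e : {p : T × G × G // P p.1 ∧ True ∧ f p.1 * c p.2 = 1} ≃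
      Σ ab : G × G, {t : T // P t ∧ f t = (c ab)⁻¹} :=
    { toFun := fun p => ⟨p.1.2, ⟨p.1.1, p.2.1, eq_inv_of_mul_eq_one_left p.2.2.2⟩⟩
      invFun := fun x => ⟨(x.2.1, x.1), x.2.2.1, trivial, by rw [x.2.2.2, inv_mul_cancel]⟩
      left_inv := fun p => rfl
      right_inv := fun x => rfl }
  rw [Nat.card_congr e, Nat.card_sigma]

/-- the kernel -/
def K (G : Type) [Group G] (L : List ℕ) (u w : G) : ℕ := fL G L (u * w⁻¹)

theorem conv (hC : S_CNT) {m L : List ℕ} (hp : m.Perm (L ++ L)) (u v : G) :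
    fL G m (u * v⁻¹) = ∑ w, K G L u w * K G L v w := by
  obtain ⟨h1, h2, h3, h4, h5⟩ := hC G
  rw [h1 _ _ hp, h4]
  unfold K
  rw [← Equiv.sum_comp ((Equiv.inv G).trans (Equiv.mulLeft u))]
  refine Finset.sum_congr rfl fun w _ => ?_
  simp only [Equiv.trans_apply, Equiv.inv_apply, Equiv.coe_mulLeft]
  congr 1
  rw [← h2 L (v * w⁻¹)]
  congr 1
  group

theorem sumK (hC : S_CNT) (L : List ℕ) (w : G) : ∑ u, K G L u w = JJ G L := by
  obtain ⟨h1, h2, h3, h4, h5⟩ := hC G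
  rw [← h5 L]
  exact Equiv.sum_comp (Equiv.mulRight w⁻¹) (fL G L)

theorem sumK' (hC : S_CNT) (L : List ℕ) (u : G) : ∑ w, K G L u w = JJ G L := by
  obtain ⟨h1, h2, h3, h4, h5⟩ := hC G
  rw [← h5 L]
  exact Equiv.sum_comp ((Equiv.inv G).trans (Equiv.mulLeft u)) (fL G L)

omit [Fintype G] in
theorem JJ_perm {m L : List ℕ} (hp : m.Perm (L ++ L)) : JJ G m = JJ G L ^ 2 := by
  unfold JJ
  rw [(hp.map (jn G)).prod_eq, List.map_append, List.prod_append, sq]

theorem key (hC : S_CNT) (L : List ℕ) (w : G) :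
    JJ G L ^ 2 ≤ ∑ a, ∑ b, K G L a w * K G L (b * a * b⁻¹) w := by
  set N : ℕ := Fintype.card G with hN
  have hN0 : 0 < N := Fintype.card_pos
  set S : G → ℕ := fun a => ∑ b, K G L (b * a * b⁻¹) w with hS
  have hcl : ∀ c a, S (c * a * c⁻¹) = S a := by
    intro c a
    rw [hS]
    simp only
    rw [← Equiv.sum_comp (Equiv.mulRight c) (fun b => K G L (b * a * b⁻¹) w)]
    refine Finset.sum_congr rfl fun b _ => ?_
    congr 1
    rw [Equiv.coe_mulRight]
    group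
  have hX : ∑ a, ∑ b, K G L a w * K G L (b * a * b⁻¹) w = ∑ a, K G L a w * S a := by
    refine Finset.sum_congr rfl fun a _ => ?_
    rw [hS, Finset.mul_sum]
  rw [hX]
  have h1 : N * ∑ a, K G L a w * S a = ∑ a, S a ^ 2 := by
    have h2 : ∀ c : G, ∑ a, K G L a w * S a = ∑ a, K G L (c * a * c⁻¹) w * S a := by
      intro c
      rw [← Equiv.sum_comp (MulAut.conj c).toEquiv]
      refine Finset.sum_congr rfl fun a _ => ?_
      have h3 : (MulAut.conj c).toEquiv a = c * a * c⁻¹ := rfl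
      rw [h3, hcl]
    have h4 : ∑ _c : G, ∑ a, K G L a w * S a = ∑ c : G, ∑ a, K G L (c * a * c⁻¹) w * S a :=
      Finset.sum_congr rfl fun c _ => h2 c
    rw [Finset.sum_const, Finset.card_univ, smul_eq_mul, ← hN] at h4
    rw [h4, Finset.sum_comm]
    refine Finset.sum_congr rfl fun a _ => ?_
    rw [← Finset.sum_mul, sq]
  have h5 : ∑ a, S a = N * JJ G L := by
    rw [hS, Finset.sum_comm]
    have h6 : ∀ b : G, ∑ a, K G L (b * a * b⁻¹) w = JJ G L := by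
      intro b
      rw [← sumK hC L w]
      exact Equiv.sum_comp (MulAut.conj b).toEquiv (fun u => K G L u w)
    rw [Finset.sum_congr rfl fun b _ => h6 b, Finset.sum_const, Finset.card_univ, smul_eq_mul]
  have h7 : (∑ a, S a) ^ 2 ≤ N * ∑ a, S a ^ 2 := by
    have := sq_sum_le_card_mul_sum_sq (s := (Finset.univ : Finset G)) (f := S)
    rwa [Finset.card_univ] at this
  rw [h5, ← h1] at h7
  have h8 : N * N * JJ G L ^ 2 ≤ N * N * ∑ a, K G L a w * S a := by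
    calc N * N * JJ G L ^ 2 = (N * JJ G L) ^ 2 := by ring
      _ ≤ N * (N * ∑ a, K G L a w * S a) := h7
      _ = _ := by ring
  exact Nat.le_of_mul_le_mul_left h8 (Nat.mul_pos hN0 hN0)

theorem LO (hC : S_CNT) {m L : List ℕ} (hp : m.Perm (L ++ L)) :
    Nat.card G * JJ G m ≤ OT G m (fun _ => True) := by
  have h1 : OT G m (fun _ => True) =
      ∑ ab : G × G, fL G m (ab.1 * (ab.2 * ab.1 * ab.2⁻¹)⁻¹) := by
    unfold OT
    rw [card_sum (fun t : Fin m.length → G => ∀ j, t j ^ m.get j = 1)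
      (fun t => (List.ofFn t).prod) (fun ab => ab.1 * ab.2 * ab.1⁻¹ * ab.2⁻¹)]
    refine Finset.sum_congr rfl fun ab _ => ?_
    have h2 : fL G m (ab.1 * (ab.2 * ab.1 * ab.2⁻¹)⁻¹) =
        fL G m (ab.1 * ab.2 * ab.1⁻¹ * ab.2⁻¹)⁻¹ := by
      rw [(hC G).2.1]
      congr 1
      group
    rw [h2]
    rfl
  rw [h1, JJ_perm hp, Nat.card_eq_fintype_card]
  have h3 : ∑ ab : G × G, fL G m (ab.1 * (ab.2 * ab.1 * ab.2⁻¹)⁻¹) =
      ∑ w, ∑ a, ∑ b, K G L a w * K G L (b * a * b⁻¹) w := by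
    rw [Fintype.sum_prod_type]
    have h4 : ∀ a b : G, fL G m (a * (b * a * b⁻¹)⁻¹) = ∑ w, K G L a w * K G L (b * a * b⁻¹) w :=
      fun a b => conv hC hp _ _
    simp only [h4]
    calc ∑ a, ∑ b, ∑ w, K G L a w * K G L (b * a * b⁻¹) w
        = ∑ a, ∑ w, ∑ b, K G L a w * K G L (b * a * b⁻¹) w :=
          Finset.sum_congr rfl fun a _ => Finset.sum_comm
      _ = _ := Finset.sum_comm
  rw [h3, ← Finset.card_univ, ← smul_eq_mul, ← Finset.sum_const]
  exact Finset.sum_le_sum fun w _ => key hC L w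

theorem LN (hC : S_CNT) {m L : List ℕ} (hp : m.Perm (L ++ L)) :
    Nat.card G * JJ G m ≤ NT G m (fun _ => True) := by
  have h1 : NT G m (fun _ => True) = ∑ ab : G × G, fL G m (ab.1 ^ 2 * ((ab.2⁻¹) ^ 2)⁻¹) := by
    unfold NT
    rw [card_sum (fun t : Fin m.length → G => ∀ j, t j ^ m.get j = 1)
      (fun t => (List.ofFn t).prod) (fun ab => ab.1 ^ 2 * ab.2 ^ 2)]
    refine Finset.sum_congr rfl fun ab _ => ?_
    have h2 : fL G m (ab.1 ^ 2 * ((ab.2⁻¹) ^ 2)⁻¹) = fL G m (ab.1 ^ 2 * ab.2 ^ 2)⁻¹ := by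
      rw [(hC G).2.1]
      congr 1
      group
    rw [h2]
    rfl
  rw [h1, JJ_perm hp, Nat.card_eq_fintype_card]
  set N : ℕ := Fintype.card G with hN
  have hN0 : 0 < N := Fintype.card_pos
  set S : G → ℕ := fun w => ∑ a, K G L (a ^ 2) w with hS
  have h3 : ∑ ab : G × G, fL G m (ab.1 ^ 2 * ((ab.2⁻¹) ^ 2)⁻¹) = ∑ w, S w ^ 2 := by
    rw [Fintype.sum_prod_type]
    have h4 : ∀ a b : G, fL G m (a ^ 2 * ((b⁻¹) ^ 2)⁻¹) =
        ∑ w, K G L (a ^ 2) w * K G L ((b⁻¹) ^ 2) w := fun a b => conv hC hp _ _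
    simp only [h4]
    calc ∑ a : G, ∑ b : G, ∑ w, K G L (a ^ 2) w * K G L ((b⁻¹) ^ 2) w
        = ∑ a : G, ∑ w, ∑ b : G, K G L (a ^ 2) w * K G L ((b⁻¹) ^ 2) w :=
          Finset.sum_congr rfl fun a _ => Finset.sum_comm
      _ = ∑ w, ∑ a : G, ∑ b : G, K G L (a ^ 2) w * K G L ((b⁻¹) ^ 2) w := Finset.sum_comm
      _ = _ := by
        refine Finset.sum_congr rfl fun w _ => ?_
        have h5 : ∑ b : G, K G L ((b⁻¹) ^ 2) w = S w :=
          Equiv.sum_comp (Equiv.inv G) (fun a => K G L (a ^ 2) w)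
        rw [← Finset.sum_mul_sum, h5, sq]
  rw [h3]
  have h6 : ∑ w, S w = N * JJ G L := by
    rw [hS, Finset.sum_comm]
    rw [Finset.sum_congr rfl fun a _ => sumK' hC L (a ^ 2), Finset.sum_const, Finset.card_univ,
      smul_eq_mul]
  have h7 : (∑ w, S w) ^ 2 ≤ N * ∑ w, S w ^ 2 := by
    have := sq_sum_le_card_mul_sum_sq (s := (Finset.univ : Finset G)) (f := S)
    rwa [Finset.card_univ] at this
  rw [h6] at h7
  have h8 : N * (N * JJ G L ^ 2) ≤ N * ∑ w, S w ^ 2 := by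
    calc N * (N * JJ G L ^ 2) = (N * JJ G L) ^ 2 := by ring
      _ ≤ _ := h7
  exact Nat.le_of_mul_le_mul_left h8 hN0

end L2

theorem t_L2 : M_L := by
  intro hC hE
  constructor
  · intro G _ _ m hm
    have : Fintype G := Fintype.ofFinite G
    obtain ⟨L, hL⟩ := hE m hm
    exact L2.LO hC hL
  · intro G _ _ m hm
    have : Fintype G := Fintype.ofFinite G
    obtain ⟨L, hL⟩ := hE m hm
    exact L2.LN hC hL

end

end RSF
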