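import Pool.Agent.RSF.Stmts4

/-!
# Module NI (second copy): the number of pairs of irreducible elements
-/

namespace RSF

open Polynomial IntermediateField

noncomputable section

namespace NI2

/-- cosets of the centraliser -/
theorem card_conj {G : Type} [Group G] [Finite G] (x c : G) :
    Nat.card {g : G // g * x * g⁻¹ = c} ≤ Nat.card {w : G // Commute w x} := by
  rcases isEmpty_or_nonempty {g : G // g * x * g⁻¹ = c} with h | ⟨⟨g₀, h₀⟩⟩
  · rw [Nat.card_of_isEmpty]
    exact Nat.zero_le _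
  · have key : ∀ g : {g : G // g * x * g⁻¹ = c}, Commute (g₀⁻¹ * g.1) x := by
      intro g
      show g₀⁻¹ * g.1 * x = x * (g₀⁻¹ * g.1)
      have h1 : g.1 * x * g.1⁻¹ = g₀ * x * g₀⁻¹ := g.2.trans h₀.symm
      have h2 : g.1 * x = g₀ * x * g₀⁻¹ * g.1 := by
        rw [← h1]
        group
      rw [mul_assoc, h2]
      group
    refine Nat.card_le_card_of_injective
      (fun g : {g : G // g * x * g⁻¹ = c} =>
        (⟨g₀⁻¹ * g.1, key g⟩ : {w : G // Commute w x})) ?_
    intro g g' hgg
    have h1 := congrArg Subtype.val hgg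
    exact Subtype.ext (mul_left_cancel h1)

/-- counting by fibres -/
theorem card_fib {X Y : Type} [Finite X] [Finite Y] (f : X → Y) (n : ℕ)
    (hf : ∀ y, Nat.card {x // f x = y} ≤ n) : Nat.card X ≤ n * Nat.card Y := by
  have : Fintype Y := Fintype.ofFinite Y
  have h1 : Nat.card X = Nat.card (Σ y, {x // f x = y}) :=
    Nat.card_congr (Equiv.sigmaFiberEquiv f).symm
  rw [h1, Nat.card_sigma]
  calc ∑ y, Nat.card {x // f x = y} ≤ ∑ _y : Y, n := Finset.sum_le_sum fun y _ => hf y
    _ = n * Nat.card Y := by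
      rw [Finset.sum_const, Finset.card_univ, Nat.card_eq_fintype_card, smul_eq_mul, mul_comm]

theorem arith (q h G A P g : ℕ) (hq : 2 ≤ q) (hh : 6 ≤ h)
    (h1 : G * g ≤ h * (q ^ h - 1) * A) (h2 : G * A ≤ (q ^ h - 1) * P)
    (h3 : q ^ h - 1 ≤ 2 * (q - 1) * g) : G ^ 2 ≤ 2 * h * q ^ (h + 1) * P := by
  have hZpos : 0 < q ^ h - 1 := by
    have : 1 < q ^ h := Nat.one_lt_pow (by omega) hq
    omega
  have hZle : (q - 1) * (q ^ h - 1) ≤ q ^ (h + 1) := by
    rw [pow_succ, mul_comm (q ^ h)]
    exact Nat.mul_le_mul (Nat.sub_le _ _) (Nat.sub_le _ _)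
  generalize q ^ h - 1 = Z at *
  have e1 : G * G * Z ≤ 2 * (q - 1) * (h * Z * (Z * P)) := by
    calc G * G * Z ≤ G * G * (2 * (q - 1) * g) := Nat.mul_le_mul_left _ h3
      _ = 2 * (q - 1) * (G * (G * g)) := by ring
      _ ≤ 2 * (q - 1) * (G * (h * Z * A)) :=
        Nat.mul_le_mul_left _ (Nat.mul_le_mul_left _ h1)
      _ = 2 * (q - 1) * (h * Z * (G * A)) := by ring
      _ ≤ 2 * (q - 1) * (h * Z * (Z * P)) :=
        Nat.mul_le_mul_left _ (Nat.mul_le_mul_left _ h2)
  have e2 : G * G ≤ 2 * (q - 1) * (h * (Z * P)) := by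
    apply Nat.le_of_mul_le_mul_right _ hZpos
    calc G * G * Z ≤ _ := e1
      _ = 2 * (q - 1) * (h * (Z * P)) * Z := by ring
  calc G ^ 2 = G * G := sq G
    _ ≤ 2 * (q - 1) * (h * (Z * P)) := e2
    _ = 2 * h * ((q - 1) * Z) * P := by ring
    _ ≤ 2 * h * q ^ (h + 1) * P :=
      Nat.mul_le_mul_right _ (Nat.mul_le_mul_left _ hZle)

/-- the number of elements of norm one -/
theorem norm_count (F K : Type) [Field F] [Finite F] [Field K] [Finite K] [Algebra F K] :
    Nat.card K - 1 ≤ (Nat.card F - 1) * Nat.card {β : K // Algebra.norm F β = 1} := by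
  let f : Kˣ →* Fˣ := Units.map (Algebra.norm F : K →* F)
  have h1 : Nat.card f.ker * Nat.card f.range = Nat.card Kˣ := by
    rw [← Subgroup.index_ker, Subgroup.card_mul_index]
  have h2 : Nat.card f.range ≤ Nat.card Fˣ :=
    Nat.card_le_card_of_injective _ Subtype.val_injective
  have h3 : Nat.card f.ker ≤ Nat.card {β : K // Algebra.norm F β = 1} := by
    have key : ∀ u : f.ker, Algebra.norm F ((u.1 : Kˣ) : K) = 1 := by
      intro u
      have h4 : f u.1 = 1 := u.2
      exact congrArg (fun x : Fˣ => (x : F)) h4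
    refine Nat.card_le_card_of_injective
      (fun u : f.ker => (⟨((u.1 : Kˣ) : K), key u⟩ : {β : K // Algebra.norm F β = 1})) ?_
    intro u u' huu
    exact Subtype.ext (Units.ext (congrArg Subtype.val huu))
  rw [Nat.card_units] at h1 h2
  rw [← h1, mul_comm]
  exact Nat.mul_le_mul h2 h3

theorem sum_pow (q : ℕ) (hq : 2 ≤ q) (m : ℕ) : ∑ d ∈ Finset.Icc 1 m, q ^ d ≤ q ^ (m + 1) := by
  induction m with
  | zero => simp
  | succ m ih =>
    rw [Finset.sum_Icc_succ_top (by omega)]
    calc ∑ k ∈ Finset.Icc 1 m, q ^ k + q ^ (m + 1) ≤ q ^ (m + 1) + q ^ (m + 1) := by omega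
      _ = q ^ (m + 1) * 2 := by ring
      _ ≤ q ^ (m + 1) * q := Nat.mul_le_mul_left _ hq
      _ = q ^ (m + 1 + 1) := (pow_succ q (m + 1)).symm

/-- the number of elements of proper subfields -/
theorem bad_count (F K : Type) [Field F] [Finite F] [Field K] [Finite K] [Algebra F K] (h : ℕ)
    (hK : Module.finrank F K = h) (hh : 6 ≤ h) :
    Nat.card {β : K // (minpoly F β).natDegree ≠ h} ≤ Nat.card F ^ (h - 2) := by
  classical
  have : Fintype K := Fintype.ofFinite K
  set q := Nat.card F with hq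
  have hq2 : 2 ≤ q := Finite.one_lt_card
  have hfd : FiniteDimensional F K := Module.finite_of_finrank_pos (by omega)
  -- solutions of `x ^ (q ^ d) = x`
  have hS : ∀ d, 1 ≤ d → (Finset.univ.filter fun β : K => β ^ q ^ d = β).card ≤ q ^ d := by
    intro d hd
    have hne : (X ^ q ^ d - X : K[X]) ≠ 0 :=
      FiniteField.X_pow_card_pow_sub_X_ne_zero K (by omega) (by omega)
    have hdeg : (X ^ q ^ d - X : K[X]).natDegree = q ^ d :=
      FiniteField.X_pow_card_pow_sub_X_natDegree_eq K (by omega) (by omega)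
    calc (Finset.univ.filter fun β : K => β ^ q ^ d = β).card
        ≤ (X ^ q ^ d - X : K[X]).roots.toFinset.card := by
          refine Finset.card_le_card fun β hβ => ?_
          rw [Multiset.mem_toFinset, mem_roots hne, IsRoot.def, eval_sub, eval_pow, eval_X,
            (Finset.mem_filter.1 hβ).2, sub_self]
      _ ≤ (X ^ q ^ d - X : K[X]).roots.card := Multiset.toFinset_card_le _
      _ ≤ (X ^ q ^ d - X : K[X]).natDegree := card_roots' _
      _ = q ^ d := hdeg
  have hsub : (Finset.univ.filter fun β : K => (minpoly F β).natDegree ≠ h) ⊆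
      (Finset.Icc 1 (h / 2)).biUnion fun d => Finset.univ.filter fun β : K => β ^ q ^ d = β := by
    intro β hβ
    have hβ' := (Finset.mem_filter.1 hβ).2
    have hint : IsIntegral F β := IsIntegral.of_finite F β
    rw [← IntermediateField.adjoin.finrank hint] at hβ'
    set d := Module.finrank F F⟮β⟯ with hd
    have hdpos : 1 ≤ d := Module.finrank_pos
    have hmul : d * Module.finrank F⟮β⟯ K = h := by
      rw [hd, Module.finrank_mul_finrank, hK]
    have hr : 2 ≤ Module.finrank F⟮β⟯ K := by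
      by_contra hlt
      have h0 : Module.finrank F⟮β⟯ K ≠ 0 := by
        intro h0
        rw [h0, mul_zero] at hmul
        omega
      have h1 : Module.finrank F⟮β⟯ K = 1 := by omega
      rw [h1, mul_one] at hmul
      exact hβ' hmul
    have hdle : d ≤ h / 2 := by
      rw [Nat.le_div_iff_mul_le (by norm_num)]
      calc d * 2 ≤ d * Module.finrank F⟮β⟯ K := Nat.mul_le_mul_left _ hr
        _ = h := hmul
    rw [Finset.mem_biUnion]
    refine ⟨d, Finset.mem_Icc.2 ⟨hdpos, hdle⟩, Finset.mem_filter.2 ⟨Finset.mem_univ _, ?_⟩⟩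
    have hc : Nat.card F⟮β⟯ = q ^ d := by
      rw [Module.natCard_eq_pow_finrank (K := F) (V := F⟮β⟯)]
    have hg1 : (AdjoinSimple.gen F β) ^ (q ^ d) = AdjoinSimple.gen F β := by
      have : Fintype F⟮β⟯ := Fintype.ofFinite _
      have h4 := FiniteField.pow_card (AdjoinSimple.gen F β)
      rwa [Fintype.card_eq_nat_card, hc] at h4
    have h5 := congrArg (algebraMap F⟮β⟯ K) hg1
    rwa [map_pow, AdjoinSimple.algebraMap_gen] at h5
  have h6 : Nat.card {β : K // (minpoly F β).natDegree ≠ h} =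
      (Finset.univ.filter fun β : K => (minpoly F β).natDegree ≠ h).card := by
    rw [Nat.card_eq_fintype_card, Fintype.card_subtype]
  rw [h6]
  calc (Finset.univ.filter fun β : K => (minpoly F β).natDegree ≠ h).card
      ≤ ((Finset.Icc 1 (h / 2)).biUnion fun d =>
          Finset.univ.filter fun β : K => β ^ q ^ d = β).card := Finset.card_le_card hsub
    _ ≤ ∑ d ∈ Finset.Icc 1 (h / 2), (Finset.univ.filter fun β : K => β ^ q ^ d = β).card :=
      Finset.card_biUnion_le
    _ ≤ ∑ d ∈ Finset.Icc 1 (h / 2), q ^ d :=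
      Finset.sum_le_sum fun d hd => hS d (Finset.mem_Icc.1 hd).1
    _ ≤ q ^ (h / 2 + 1) := sum_pow q hq2 _
    _ ≤ q ^ (h - 2) := Nat.pow_le_pow_right (by omega) (by omega)

/-- the number of good elements -/
theorem good_count (F K : Type) [Field F] [Finite F] [Field K] [Finite K] [Algebra F K] (h : ℕ)
    (hK : Module.finrank F K = h) (hc : Nat.card K = Nat.card F ^ h) (hh : 6 ≤ h) :
    Nat.card F ^ h - 1 ≤ 2 * (Nat.card F - 1) *
      Nat.card {β : K // Algebra.norm F β = 1 ∧ (minpoly F β).natDegree = h} := by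
  classical
  have : Fintype K := Fintype.ofFinite K
  have h1 := norm_count F K
  have h2 := bad_count F K h hK hh
  rw [hc] at h1
  have h3 : Nat.card {β : K // Algebra.norm F β = 1} ≤
      Nat.card {β : K // Algebra.norm F β = 1 ∧ (minpoly F β).natDegree = h} +
        Nat.card {β : K // (minpoly F β).natDegree ≠ h} := by
    rw [Nat.card_eq_fintype_card, Nat.card_eq_fintype_card, Nat.card_eq_fintype_card,
      Fintype.card_subtype, Fintype.card_subtype, Fintype.card_subtype]
    refine le_trans (Finset.card_le_card ?_) (Finset.card_union_le _ _)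
    intro β hβ
    rw [Finset.mem_union, Finset.mem_filter, Finset.mem_filter]
    have hβ' := (Finset.mem_filter.1 hβ).2
    by_cases h4 : (minpoly F β).natDegree = h
    · exact Or.inl ⟨Finset.mem_univ _, hβ', h4⟩
    · exact Or.inr ⟨Finset.mem_univ _, h4⟩
  have hq2 : 2 ≤ Nat.card F := Finite.one_lt_card
  generalize Nat.card {β : K // Algebra.norm F β = 1} = a at *
  generalize Nat.card {β : K // Algebra.norm F β = 1 ∧ (minpoly F β).natDegree = h} = g at *
  generalize Nat.card {β : K // (minpoly F β).natDegree ≠ h} = b at *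
  generalize Nat.card F = q at *
  obtain ⟨k, rfl⟩ : ∃ k, h = k + 2 := ⟨h - 2, by omega⟩
  obtain ⟨p, rfl⟩ : ∃ p, q = p + 1 := ⟨q - 1, by omega⟩
  have h5 : k + 2 - 2 = k := by omega
  have h6 : p + 1 - 1 = p := by omega
  rw [h5] at h2
  rw [h6] at h1 ⊢
  have hP : 1 ≤ (p + 1) ^ k := Nat.one_le_pow _ _ (by omega)
  have h7 : (p + 1) ^ (k + 2) = (p + 1) ^ k * (p + 1) ^ 2 := pow_add _ _ _
  rw [h7] at h1 ⊢
  generalize (p + 1) ^ k = P at *
  have h8 : p * a ≤ p * g + p * P := by
    calc p * a ≤ p * (g + P) := Nat.mul_le_mul_left _ (by omega)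
      _ = p * g + p * P := by ring
  have h9 : P * (p + 1) ^ 2 ≤ p * g + p * P + 1 := by omega
  have h10 : P * (p + 1) ^ 2 = P * p ^ 2 + 2 * (p * P) + P := by ring
  have h11 : 2 * p * g = 2 * (p * g) := by ring
  rw [h11]
  rw [h10] at h9 ⊢
  have h12 : P ≤ P * p ^ 2 := Nat.le_mul_of_pos_right _ (Nat.pow_pos (by omega))
  omega

section conj

variable {F : Type} [Field F] {V : Type} [AddCommGroup V] [Module F V] [FiniteDimensional F V]

theorem chp_conj (g b : GV F V) : chp (g * b * g⁻¹) = chp b := by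
  have h1 : ((g * b * g⁻¹ : GV F V) : V →ₗ[F] V) = LinearEquiv.conj g (b : V →ₗ[F] V) := by
    ext x
    rfl
  unfold chp
  rw [h1, LinearEquiv.charpoly_conj]

theorem dt_conj (g b : GV F V) : dt (g * b * g⁻¹) = dt b := by
  have h1 : ((g * b * g⁻¹ : GV F V) : V →ₗ[F] V) =
      (g : V →ₗ[F] V) ∘ₗ (b : V →ₗ[F] V) ∘ₗ (g.symm : V →ₗ[F] V) := by
    ext x
    rfl
  unfold dt
  rw [h1, LinearMap.det_conj]

end conj

section mult

variable {F K : Type} [Field F] [Field K] [Algebra F K] [FiniteDimensional F K]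
  {V : Type} [AddCommGroup V] [Module F V] [FiniteDimensional F V]

/-- multiplication -/
def mE (β : K) (hβ : β ≠ 0) : K ≃ₗ[F] K :=
  { LinearMap.mul F K β with
    invFun := fun x => β⁻¹ * x
    left_inv := fun x => by
      show β⁻¹ * (β * x) = x
      rw [← mul_assoc, inv_mul_cancel₀ hβ, one_mul]
    right_inv := fun x => by
      show β * (β⁻¹ * x) = x
      rw [← mul_assoc, mul_inv_cancel₀ hβ, one_mul] }

/-- multiplication, transported to `V` -/
def bE (ψ : V ≃ₗ[F] K) (β : K) (hβ : β ≠ 0) : GV F V := (ψ.trans (mE β hβ)).trans ψ.symm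

theorem bE_coe (ψ : V ≃ₗ[F] K) (β : K) (hβ : β ≠ 0) :
    ((bE ψ β hβ : GV F V) : V →ₗ[F] V) = LinearEquiv.conj ψ.symm (LinearMap.mul F K β) := by
  ext x
  rfl

theorem bE_dt (ψ : V ≃ₗ[F] K) (β : K) (hβ : β ≠ 0) : dt (bE ψ β hβ) = Algebra.norm F β := by
  have h1 : ((bE ψ β hβ : GV F V) : V →ₗ[F] V) =
      (ψ.symm : K →ₗ[F] V) ∘ₗ LinearMap.mul F K β ∘ₗ (ψ.symm.symm : V →ₗ[F] K) := by
    ext x
    rfl
  unfold dt
  rw [h1, LinearMap.det_conj, Algebra.norm_apply]
  rfl

theorem charpoly_mul (β : K) (h : (minpoly F β).natDegree = Module.finrank F K) :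
    (LinearMap.mul F K β).charpoly = minpoly F β := by
  have hint : IsIntegral F β := IsIntegral.of_finite F β
  have h1 : (minpoly F β) ∣ (LinearMap.mul F K β).charpoly := by
    apply minpoly.dvd
    have h2 := LinearMap.aeval_self_charpoly (LinearMap.mul F K β)
    have h3 : aeval (LinearMap.mul F K β) (LinearMap.mul F K β).charpoly =
        LinearMap.mul F K (aeval β (LinearMap.mul F K β).charpoly) := by
      have h4 : LinearMap.mul F K β = Algebra.lmul F K β := rfl
      have h5 := Polynomial.aeval_algHom_apply (Algebra.lmul F K) β (LinearMap.mul F K β).charpoly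
      exact h5
    rw [h3] at h2
    have h6 := congrArg (fun f : K →ₗ[F] K => f 1) h2
    simpa using h6
  refine Polynomial.eq_of_monic_of_dvd_of_natDegree_le (minpoly.monic hint)
    (LinearMap.charpoly_monic _) h1 ?_
  rw [LinearMap.charpoly_natDegree, h]

theorem bE_chp (ψ : V ≃ₗ[F] K) (β : K) (hβ : β ≠ 0)
    (h : (minpoly F β).natDegree = Module.finrank F K) : chp (bE ψ β hβ) = minpoly F β := by
  unfold chp
  rw [bE_coe, LinearEquiv.charpoly_conj, charpoly_mul β h]

end mult

end NI2

open NI2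

/-- **module NI, second copy** -/
theorem t_NI2 : M_NI := by
  intro hIR hIV F _ _ h e hh
  classical
  obtain ⟨p, hp⟩ := CharP.exists F
  have hpp : Fact p.Prime := ⟨(CharP.char_is_prime_or_zero F p).resolve_right
    (CharP.char_ne_zero_of_finite F p)⟩
  have : NeZero h := ⟨by omega⟩
  let K := FiniteField.Extension F p h
  have hfr : Module.finrank F K = h := FiniteField.finrank_extension F p h
  have hcard : Nat.card K = Nat.card F ^ h := FiniteField.natCard_extension F p h
  have : Finite K := inferInstance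
  have hfinG : Finite (GV F (Fin h → F)) :=
    Finite.of_injective (fun e : GV F (Fin h → F) => (e : (Fin h → F) → (Fin h → F)))
      DFunLike.coe_injective
  let ψ : (Fin h → F) ≃ₗ[F] K := LinearEquiv.ofFinrankEq _ _ (by
    rw [hfr, Module.finrank_fin_fun])
  have hnz : ∀ β : {β : K // Algebra.norm F β = 1 ∧ (minpoly F β).natDegree = h}, β.1 ≠ 0 := by
    intro β h0
    have h1 := β.2.1
    rw [h0, Algebra.norm_zero] at h1
    exact zero_ne_one h1
  have hbchp : ∀ β : {β : K // Algebra.norm F β = 1 ∧ (minpoly F β).natDegree = h},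
      chp (bE ψ β.1 (hnz β)) = minpoly F β.1 := fun β => bE_chp ψ β.1 (hnz β) (by rw [β.2.2, hfr])
  have hbirr : ∀ β : {β : K // Algebra.norm F β = 1 ∧ (minpoly F β).natDegree = h},
      Irreducible (chp (bE ψ β.1 (hnz β))) := by
    intro β
    rw [hbchp]
    exact minpoly.irreducible (IsIntegral.of_finite F β.1)
  have hcz : ∀ a : GV F (Fin h → F), Irreducible (chp a) →
      Nat.card {w : GV F (Fin h → F) // Commute w a} ≤ Nat.card F ^ h - 1 := by
    intro a ha
    have h1 := (hIR F h a ha).1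
    unfold cz at h1
    omega
  refine arith (Nat.card F) h (Nat.card (GV F (Fin h → F)))
    (Nat.card {a : GV F (Fin h → F) // dt a = 1 ∧ Irreducible (chp a)}) _
    (Nat.card {β : K // Algebra.norm F β = 1 ∧ (minpoly F β).natDegree = h})
    Finite.one_lt_card hh ?_ ?_ (good_count F K h hfr hcard hh)
  · -- first step
    rw [← Nat.card_prod]
    have hmem : ∀ x : GV F (Fin h → F) ×
        {β : K // Algebra.norm F β = 1 ∧ (minpoly F β).natDegree = h},
        dt (x.1 * bE ψ x.2.1 (hnz x.2) * x.1⁻¹) = 1 ∧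
          Irreducible (chp (x.1 * bE ψ x.2.1 (hnz x.2) * x.1⁻¹)) := by
      intro x
      rw [dt_conj, chp_conj, bE_dt]
      exact ⟨x.2.2.1, hbirr x.2⟩
    refine card_fib (fun x : GV F (Fin h → F) ×
        {β : K // Algebra.norm F β = 1 ∧ (minpoly F β).natDegree = h} =>
        (⟨x.1 * bE ψ x.2.1 (hnz x.2) * x.1⁻¹, hmem x⟩ :
          {a : GV F (Fin h → F) // dt a = 1 ∧ Irreducible (chp a)})) _ fun a => ?_
    -- the fibre
    have hne : chp a.1 ≠ 0 := a.2.2.ne_zero
    have hmap : (chp a.1).map (algebraMap F K) ≠ 0 := by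
      rw [Ne, Polynomial.map_eq_zero]
      exact hne
    have hR : Nat.card {β : K // β ∈ ((chp a.1).map (algebraMap F K)).roots.toFinset} ≤ h := by
      rw [Nat.card_eq_fintype_card, Fintype.card_coe]
      calc _ ≤ ((chp a.1).map (algebraMap F K)).roots.card := Multiset.toFinset_card_le _
        _ ≤ ((chp a.1).map (algebraMap F K)).natDegree := card_roots' _
        _ = h := by
          rw [natDegree_map]
          unfold chp
          rw [LinearMap.charpoly_natDegree, Module.finrank_fin_fun]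
    have hroot : ∀ x : {x : GV F (Fin h → F) ×
        {β : K // Algebra.norm F β = 1 ∧ (minpoly F β).natDegree = h} //
        (⟨x.1 * bE ψ x.2.1 (hnz x.2) * x.1⁻¹, hmem x⟩ :
          {a : GV F (Fin h → F) // dt a = 1 ∧ Irreducible (chp a)}) = a},
        x.1.2.1 ∈ ((chp a.1).map (algebraMap F K)).roots.toFinset := by
      intro x
      have h1 : x.1.1 * bE ψ x.1.2.1 (hnz x.1.2) * x.1.1⁻¹ = a.1 := congrArg Subtype.val x.2
      rw [Multiset.mem_toFinset, mem_roots hmap, IsRoot.def, eval_map_algebraMap, ← h1, chp_conj,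
        hbchp]
      exact minpoly.aeval F _
    have hf2 := card_fib (fun x : {x : GV F (Fin h → F) ×
        {β : K // Algebra.norm F β = 1 ∧ (minpoly F β).natDegree = h} //
        (⟨x.1 * bE ψ x.2.1 (hnz x.2) * x.1⁻¹, hmem x⟩ :
          {a : GV F (Fin h → F) // dt a = 1 ∧ Irreducible (chp a)}) = a} =>
        (⟨x.1.2.1, hroot x⟩ :
          {β : K // β ∈ ((chp a.1).map (algebraMap F K)).roots.toFinset})) (Nat.card F ^ h - 1)
      (fun r => by
        rcases isEmpty_or_nonempty {x : {x : GV F (Fin h → F) ×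
            {β : K // Algebra.norm F β = 1 ∧ (minpoly F β).natDegree = h} //
            (⟨x.1 * bE ψ x.2.1 (hnz x.2) * x.1⁻¹, hmem x⟩ :
              {a : GV F (Fin h → F) // dt a = 1 ∧ Irreducible (chp a)}) = a} //
            (⟨x.1.2.1, hroot x⟩ :
              {β : K // β ∈ ((chp a.1).map (algebraMap F K)).roots.toFinset}) = r} with h0 | ⟨⟨x₀, hx₀⟩⟩
        · rw [Nat.card_of_isEmpty]
          exact Nat.zero_le _
        · have hβ : ∀ x : {x : {x : GV F (Fin h → F) ×
            {β : K // Algebra.norm F β = 1 ∧ (minpoly F β).natDegree = h} //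
            (⟨x.1 * bE ψ x.2.1 (hnz x.2) * x.1⁻¹, hmem x⟩ :
              {a : GV F (Fin h → F) // dt a = 1 ∧ Irreducible (chp a)}) = a} //
            (⟨x.1.2.1, hroot x⟩ :
              {β : K // β ∈ ((chp a.1).map (algebraMap F K)).roots.toFinset}) = r},
              x.1.1.2 = x₀.1.2 := by
            intro x
            apply Subtype.ext
            exact (congrArg Subtype.val x.2).trans (congrArg Subtype.val hx₀).symm
          have hcj : ∀ x : {x : {x : GV F (Fin h → F) ×
            {β : K // Algebra.norm F β = 1 ∧ (minpoly F β).natDegree = h} //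
            (⟨x.1 * bE ψ x.2.1 (hnz x.2) * x.1⁻¹, hmem x⟩ :
              {a : GV F (Fin h → F) // dt a = 1 ∧ Irreducible (chp a)}) = a} //
            (⟨x.1.2.1, hroot x⟩ :
              {β : K // β ∈ ((chp a.1).map (algebraMap F K)).roots.toFinset}) = r},
              x.1.1.1 * bE ψ x₀.1.2.1 (hnz x₀.1.2) * x.1.1.1⁻¹ = a.1 := by
            intro x
            have h1 : x.1.1.1 * bE ψ x.1.1.2.1 (hnz x.1.1.2) * x.1.1.1⁻¹ = a.1 :=
              congrArg Subtype.val x.1.2
            rw [hβ x] at h1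
            exact h1
          refine le_trans (Nat.card_le_card_of_injective (fun x =>
            (⟨x.1.1.1, hcj x⟩ : {g : GV F (Fin h → F) //
              g * bE ψ x₀.1.2.1 (hnz x₀.1.2) * g⁻¹ = a.1})) ?_)
            (le_trans (card_conj _ _) (hcz _ (hbirr x₀.1.2)))
          intro x x' hxx
          have h1 : x.1.1.1 = x'.1.1.1 := congrArg Subtype.val hxx
          exact Subtype.ext (Subtype.ext (Prod.ext h1 ((hβ x).trans (hβ x').symm))))
    calc _ ≤ (Nat.card F ^ h - 1) *
          Nat.card {β : K // β ∈ ((chp a.1).map (algebraMap F K)).roots.toFinset} := hf2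
      _ ≤ (Nat.card F ^ h - 1) * h := Nat.mul_le_mul_left _ hR
      _ = h * (Nat.card F ^ h - 1) := mul_comm _ _
  · -- second step
    rw [← Nat.card_prod]
    have hirr : ∀ a : GV F (Fin h → F), Irreducible (chp a) → Irreducible (chp (pw e a)) := by
      intro a ha
      unfold pw
      cases e
      · simp only [Bool.false_eq_true, if_false]
        exact (hIV F (Fin h → F) (Fin h → F) a a).2.2.1 ha
      · simp only [if_true]
        exact ha
    refine card_fib (fun x : GV F (Fin h → F) ×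
        {a : GV F (Fin h → F) // dt a = 1 ∧ Irreducible (chp a)} =>
        (⟨(x.2.1, x.1 * pw e x.2.1 * x.1⁻¹), x.2.2.1, x.2.2.2,
          isConj_iff.2 ⟨x.1, rfl⟩⟩ :
          {y : GV F (Fin h → F) × GV F (Fin h → F) // dt y.1 = 1 ∧ Irreducible (chp y.1) ∧
            IsConj (pw e y.1) y.2})) _ fun y => ?_
    refine le_trans (Nat.card_le_card_of_injective (fun x =>
      (⟨x.1.1, ?_⟩ : {g : GV F (Fin h → F) // g * pw e y.1.1 * g⁻¹ = y.1.2})) ?_)
      (le_trans (card_conj _ _) (hcz _ (hirr _ y.2.2.1)))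
    · have h1 := congrArg Subtype.val x.2
      have h2 : x.1.2.1 = y.1.1 := congrArg Prod.fst h1
      have h3 : x.1.1 * pw e x.1.2.1 * x.1.1⁻¹ = y.1.2 := congrArg Prod.snd h1
      rw [← h2]
      exact h3
    · intro x x' hxx
      have h1 : x.1.1 = x'.1.1 := congrArg Subtype.val hxx
      have h2 : x.1.2.1 = y.1.1 := congrArg Prod.fst (congrArg Subtype.val x.2)
      have h3 : x'.1.2.1 = y.1.1 := congrArg Prod.fst (congrArg Subtype.val x'.2)
      exact Subtype.ext (Prod.ext h1 (Subtype.ext (h2.trans h3.symm)))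

end

end RSF
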