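import Pool.Agent.RSF.Stmts4

namespace RSF

namespace RU

open Polynomial

/-- A linear map that is upper unitriangular with non-zero superdiagonal in a spanning family is cyclic. -/
theorem cyc_of {F V : Type} [Field F] [AddCommGroup V] [Module F V] (k : ℕ) (f : V →ₗ[F] V)
    (b : Fin (k + 1) → V) (hb : ⊤ ≤ Submodule.span F (Set.range b))
    (A : Matrix (Fin (k + 1)) (Fin (k + 1)) F)
    (hf : ∀ j, f (b j) = ∑ i, A i j • b i) (h1 : ∀ i, A i i = 1) (h0 : ∀ i j, j < i → A i j = 0)
    (hs : ∀ i : Fin k, A i.castSucc i.succ ≠ 0) : Cyc f := by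
  refine ⟨b (Fin.last k), fun W hv hW => ?_⟩
  have key : ∀ j : Fin (k + 1), ∃ x : Fin (k + 1) → F, (∑ i, x i • b i) ∈ W ∧ x j ≠ 0 ∧
      ∀ i, j < i → x i = 0 := by
    intro j
    induction j using Fin.reverseInduction with
    | last =>
      refine ⟨Pi.single (Fin.last k) 1, ?_, by simp, ?_⟩
      · have : (∑ i, (Pi.single (Fin.last k) 1 : Fin (k + 1) → F) i • b i) = b (Fin.last k) := by
          rw [Finset.sum_eq_single (Fin.last k)]
          · simp
          · intro i _ hi
            rw [Pi.single_eq_of_ne hi, zero_smul]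
          · intro h; exact absurd (Finset.mem_univ _) h
        rw [this]; exact hv
      · intro i hi
        exact absurd (Fin.le_last i) (not_le.2 hi)
    | cast j ih =>
      obtain ⟨x, hx, hx0, hx1⟩ := ih
      have hlt : j.castSucc < j.succ := Fin.castSucc_lt_succ
      have hge : ∀ l, j.castSucc < l → j.succ ≤ l := by
        intro l h
        rw [Fin.le_iff_val_le_val]
        rw [Fin.lt_def] at h
        simp only [Fin.val_castSucc, Fin.val_succ] at *
        omega
      -- `y = f x - x`
      refine ⟨fun i => (∑ l, x l * A i l) - x i, ?_, ?_, ?_⟩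
      · have e : (∑ i, ((∑ l, x l * A i l) - x i) • b i) =
            f (∑ i, x i • b i) - ∑ i, x i • b i := by
          simp only [sub_smul, Finset.sum_sub_distrib, map_sum, map_smul, hf, Finset.smul_sum,
            Finset.sum_smul, mul_smul]
          congr 1
          rw [Finset.sum_comm]
        rw [e]
        exact W.sub_mem (hW _ hx) hx
      · have h2 : (∑ l, x l * A j.castSucc l) = x j.castSucc * A j.castSucc j.castSucc +
            x j.succ * A j.castSucc j.succ := by
          rw [← Finset.sum_subset (Finset.subset_univ ({j.castSucc, j.succ} : Finset (Fin (k + 1))))]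
          · rw [Finset.sum_pair hlt.ne]
          · intro l _ hl
            simp only [Finset.mem_insert, Finset.mem_singleton, not_or] at hl
            rcases lt_or_gt_of_ne hl.1 with h | h
            · rw [h0 _ _ h, mul_zero]
            · rw [hx1 l (lt_of_le_of_ne (hge l h) (Ne.symm hl.2)), zero_mul]
        change (∑ l, x l * A j.castSucc l) - x j.castSucc ≠ 0
        rw [h2, h1, mul_one, add_sub_cancel_left]
        exact mul_ne_zero hx0 (hs j)
      · intro i hi
        have hi' := hge i hi
        have h2 : (∑ l, x l * A i l) = x i := by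
          rw [Finset.sum_eq_single i]
          · rw [h1, mul_one]
          · intro l _ hl
            rcases lt_or_gt_of_ne hl with h | h
            · rw [h0 _ _ h, mul_zero]
            · rw [hx1 l (lt_of_le_of_lt hi' h), zero_mul]
          · intro h; exact absurd (Finset.mem_univ _) h
        change (∑ l, x l * A i l) - x i = 0
        rw [h2, sub_self]
  have key2 : ∀ n : ℕ, ∀ j : Fin (k + 1), j.val = n → b j ∈ W := by
    intro n
    induction n using Nat.strong_induction_on with
    | _ n ih =>
      intro j hj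
      obtain ⟨x, hx, hx0, hx1⟩ := key j
      have h2 : (∑ i, x i • b i) = x j • b j + ∑ i ∈ Finset.univ.erase j, x i • b i :=
        (Finset.add_sum_erase _ _ (Finset.mem_univ j)).symm
      have h3 : (∑ i ∈ Finset.univ.erase j, x i • b i) ∈ W := by
        refine W.sum_mem fun i hi => ?_
        rcases lt_or_gt_of_ne (Finset.ne_of_mem_erase hi) with h | h
        · exact W.smul_mem _ (ih i.val (by rw [← hj]; exact h) i rfl)
        · rw [hx1 i h, zero_smul]; exact W.zero_mem
      have h4 : x j • b j ∈ W := by
        have : x j • b j = (∑ i, x i • b i) - ∑ i ∈ Finset.univ.erase j, x i • b i := by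
          rw [h2, add_sub_cancel_right]
        rw [this]; exact W.sub_mem hx h3
      have h5 : b j = (x j)⁻¹ • (x j • b j) := by rw [smul_smul, inv_mul_cancel₀ hx0, one_smul]
      rw [h5]; exact W.smul_mem _ h4
  refine top_le_iff.1 (hb.trans (Submodule.span_le.2 ?_))
  rintro _ ⟨j, rfl⟩
  exact key2 _ j rfl

theorem span_single {F : Type} [Field F] (n : ℕ) (σ : Fin n ≃ Fin n) :
    ⊤ ≤ Submodule.span F (Set.range fun i => (Pi.single (σ i) 1 : Fin n → F)) := by
  intro x _
  have h : x = ∑ i, x (σ i) • (Pi.single (σ i) 1 : Fin n → F) := by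
    rw [Equiv.sum_comp σ (fun i => x i • (Pi.single i 1 : Fin n → F))]
    ext j
    simp [Finset.sum_apply, Pi.single_apply]
  rw [h]
  exact Submodule.sum_mem _ fun i _ => Submodule.smul_mem _ _ (Submodule.subset_span ⟨i, rfl⟩)

theorem toLin_single {F : Type} [Field F] (n : ℕ) (U : Matrix (Fin n) (Fin n) F)
    (σ : Fin n ≃ Fin n) (j : Fin n) :
    Matrix.toLin' U (Pi.single (σ j) 1) =
      ∑ i, U (σ i) (σ j) • (Pi.single (σ i) 1 : Fin n → F) := by
  rw [Equiv.sum_comp σ (fun i => U i (σ j) • (Pi.single i 1 : Fin n → F))]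
  ext l
  simp [Finset.sum_apply, Pi.single_apply]

end RU

theorem t_RU : S_RU := by
  intro F _ k U h1
  refine ⟨fun h0 hs => ⟨?_, ?_⟩, fun h0 hs => ⟨?_, ?_⟩⟩
  · exact RU.cyc_of k _ (fun i => Pi.single i 1) (RU.span_single (k + 1) (Equiv.refl _)) U
      (fun j => RU.toLin_single (k + 1) U (Equiv.refl _) j) h1 h0 hs
  · have h : U.charpoly = ∏ i, (Polynomial.X - Polynomial.C (U i i)) :=
      Matrix.charpoly_of_isUpperTriangular _ (fun i j h => h0 i j h)
    rw [h]
    simp [h1]
  · refine RU.cyc_of k _ (fun i => Pi.single (Fin.revPerm i) 1) (RU.span_single (k + 1) Fin.revPerm)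
      (fun i j => U (Fin.revPerm i) (Fin.revPerm j))
      (fun j => RU.toLin_single (k + 1) U Fin.revPerm j) (fun i => h1 _) ?_ ?_
    · intro i j h
      exact h0 _ _ (by simpa using h)
    · intro i
      simp only [Fin.revPerm_apply, Fin.rev_castSucc, Fin.rev_succ]
      exact hs _
  · have h : U.transpose.charpoly = ∏ i, (Polynomial.X - Polynomial.C (U.transpose i i)) :=
      Matrix.charpoly_of_isUpperTriangular _ (fun i j h => h0 j i h)
    rw [← Matrix.charpoly_transpose, h]
    simp [h1]

end RSF
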