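import Pool.Agent.RSF.Defs

/-!
# Statements of the modules

`S_X` is the statement of module `X`; the module proves `theorem t_X : M_X` (or `t_X : S_X` if there is
no `M_X`) in the file `Pool/Agent/RSF/X.lean`, importing only this file. Paper:
`Pool/Agent/RSF/PAPER.md`.
-/

namespace RSF

open Polynomial

noncomputable section

/-! ## 1. Homomorphisms and tuples, every finite group -/

/-- the number of elements with `x ^ k = 1` -/
def jn (G : Type) [Group G] (k : ℕ) : ℕ := Nat.card {x : G // x ^ k = 1}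

/-- the product of the `jn` -/
def JJ (G : Type) [Group G] (m : List ℕ) : ℕ := (m.map (jn G)).prod

/-- the number of commuting pairs, `|G| k(G)` (`card_comm_eq_card_conjClasses_mul_card`) -/
def cm (G : Type) [Group G] : ℕ := Nat.card {p : G × G // Commute p.1 p.2}

/-- the number of tuples `t` with `t j ^ m_j = 1` and product `g` -/
def fL (G : Type) [Group G] (m : List ℕ) (g : G) : ℕ :=
  Nat.card {t : Fin m.length → G // (∀ j, t j ^ m.get j = 1) ∧ (List.ofFn t).prod = g}

/-- the number of homomorphisms of the oriented group of genus `1` whose tuple is in `E` -/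
def OT (G : Type) [Group G] (m : List ℕ) (E : (Fin m.length → G) → Prop) : ℕ :=
  Nat.card {p : (Fin m.length → G) × G × G // (∀ j, p.1 j ^ m.get j = 1) ∧ E p.1 ∧
    (List.ofFn p.1).prod * (p.2.1 * p.2.2 * p.2.1⁻¹ * p.2.2⁻¹) = 1}

/-- the number of homomorphisms of the non-oriented group of genus `2` whose tuple is in `E` -/
def NT (G : Type) [Group G] (m : List ℕ) (E : (Fin m.length → G) → Prop) : ℕ :=
  Nat.card {p : (Fin m.length → G) × G × G // (∀ j, p.1 j ^ m.get j = 1) ∧ E p.1 ∧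
    (List.ofFn p.1).prod * (p.2.1 ^ 2 * p.2.2 ^ 2) = 1}

/-- `PresentedGroup.toGroup`, `PresentedGroup.ext` -/
def S_HO : Prop :=
  ∀ (G : Type) [Group G] (m : List ℕ) (E : (Fin m.length → G) → Prop),
    Nat.card {ρ : OGroup 1 m →* G // E fun j => ρ (ox 1 m j)} = OT G m E

def S_HN : Prop :=
  ∀ (G : Type) [Group G] (m : List ℕ) (E : (Fin m.length → G) → Prop),
    Nat.card {ρ : NGroup 2 m →* G // E fun j => ρ (nx 2 m j)} = NT G m E

/-- module `H` -/
def M_H : Prop := S_HO ∧ S_HN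

/-- Properties of `fL`. First prove the recursion `fL (k :: L) g = ∑ x with x ^ k = 1, fL L (x⁻¹ g)`.
Order: `(x, y) ↦ (x y x⁻¹, x)` exchanges two neighbours and preserves the product. -/
def S_CNT : Prop :=
  ∀ (G : Type) [Group G] [Fintype G],
    (∀ L L' : List ℕ, L.Perm L' → ∀ g, fL G L g = fL G L' g) ∧
    (∀ L g, fL G L g⁻¹ = fL G L g) ∧
    (∀ L g h, fL G L (h * g * h⁻¹) = fL G L g) ∧
    (∀ L L' g, fL G (L ++ L') g = ∑ h, fL G L h * fL G L' (h⁻¹ * g)) ∧
    (∀ L, ∑ g, fL G L g = JJ G L)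

def S_EV : Prop :=
  ∀ m : List ℕ, (∀ k, Even (m.count k)) → ∃ L : List ℕ, m.Perm (L ++ L)

/-- Paper (1), oriented: `OT` is `∑ a b, fL m [a,b]`; with `K u w = fL L (u w⁻¹)`,
`fL m (u v⁻¹) = ∑ w, K u w * K v w`; for fixed `w` the sum is
`(1/|G|) ∑ a, (∑ b, K (b a b⁻¹) w)^2`; Cauchy-Schwarz. -/
def S_LO : Prop :=
  ∀ (G : Type) [Group G] [Finite G] (m : List ℕ), (∀ k, Even (m.count k)) →
    Nat.card G * JJ G m ≤ OT G m (fun _ => True)


/-- Paper (1), non-oriented. -/
def S_LN : Prop :=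
  ∀ (G : Type) [Group G] [Finite G] (m : List ℕ), (∀ k, Even (m.count k)) →
    Nat.card G * JJ G m ≤ NT G m (fun _ => True)

def M_L : Prop := S_CNT → S_EV → S_LO ∧ S_LN

/-- Paper (2). For each `b` the set of `a` is empty or a coset of the centraliser of `b`; in the second
case put `c = a b`. -/
def S_UP : Prop :=
  ∀ (G : Type) [Group G] [Finite G] (g : G),
    Nat.card {p : G × G // g * (p.1 * p.2 * p.1⁻¹ * p.2⁻¹) = 1} ≤ cm G ∧
    Nat.card {p : G × G // g * (p.1 ^ 2 * p.2 ^ 2) = 1} ≤ cm G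

/-- The transfer. -/
def M_C : Prop := S_HO → S_HN → S_LO → S_LN → S_UP → MainC

/-! ## 2. The number of classes of `GL_n(q)` and `PSL_n(q)` -/

/-- Paper (3). The module `V` of the polynomial ring given by `A` (`Module.AEval'`) is a direct sum of
modules `F[X] / (p ^ e)` (`Module.equiv_directSum_of_isTorsion`); `Φ A` is the multiset of the
pairs `(p, e)`, `p` monic irreducible, `1 ≤ e`. -/
def S_KA : Prop :=
  ∀ (F : Type) [Field F] [Finite F] (n : ℕ),
    ∃ Φ : GL (Fin n) F → Multiset (F[X] × ℕ),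
      (∀ A, ∀ p ∈ Φ A, p.1.Monic ∧ Irreducible p.1 ∧ 1 ≤ p.2) ∧
      (∀ A, ((Φ A).map fun p => p.2 * p.1.natDegree).sum = n) ∧
      ∀ A B, Φ A = Φ B → IsConj A B

/-- `h (e - 1)` is the product of the `p` with `(p, e) ∈ Φ A` -/
def S_KB : Prop :=
  ∀ (F : Type) [Field F] [Finite F] (n : ℕ),
    Nat.card (ConjClasses (GL (Fin n) F)) ≤
      Nat.card {h : Fin n → F[X] // (∀ i, (h i).Monic) ∧ ∑ i, (i.val + 1) * (h i).natDegree = n}

def M_KB : Prop := S_KA → S_KB

/-- The number is the sum of the `q ^ (∑ a_i)` over the `a` with `∑ (i + 1) a_i = n`, at most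
`q ^ n ∏_{i ≥ 1} ∑_a q ^ (-i a)`. -/
def S_KC : Prop :=
  ∀ (F : Type) [Field F] [Finite F] (n : ℕ),
    Nat.card {h : Fin n → F[X] // (∀ i, (h i).Monic) ∧ ∑ i, (i.val + 1) * (h i).natDegree = n} ≤
      4 * Nat.card F ^ n

/-- the product of the `1 - q ^ (-i)`: induction with `1/4 + 1/2^(n+1)` for `q = 2` -/
def S_PI : Prop :=
  ∀ (q : ℝ), 2 ≤ q → ∀ n : ℕ, 1 / 4 ≤ ∏ i ∈ Finset.range n, (1 - (q⁻¹) ^ (i + 1))

def M_KC : Prop := S_PI → S_KC

/-- `k(PSL) ≤ k(SL)` (quotient), `k(SL) |SL| = cm SL ≤ cm GL = k(GL) |GL|`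
(`card_comm_eq_card_conjClasses_mul_card`) and `|GL| ≤ (q - 1) |SL|` (kernel of `det`). -/
def S_KP : Prop :=
  ∀ (F : Type) [Field F] [Finite F] (n : ℕ),
    Nat.card (ConjClasses (PS n F)) ≤ 4 * Nat.card F ^ (n + 1)

def M_KP : Prop := S_KB → S_KC → S_KP

/-! ## 3. Pairs of an endomorphism and an invariant subspace -/

/-- the number of `k`-dimensional subspaces -/
def S_SUB : Prop :=
  ∀ (F V : Type) [Field F] [Finite F] [AddCommGroup V] [Module F V] [FiniteDimensional F V] (k : ℕ),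
    k ≤ Module.finrank F V →
    Nat.card F ^ (k * (Module.finrank F V - k)) ≤
      Nat.card {W : Submodule F V // Module.finrank F W = k} ∧
    Nat.card {W : Submodule F V // Module.finrank F W = k} ≤
      4 * Nat.card F ^ (k * (Module.finrank F V - k))

def M_SUB : Prop := S_PI → S_SUB

/-- Endomorphisms killed by an irreducible polynomial of degree `d`: for the first standard basis
vector `e`, `A e, …, A ^ (d - 1) e` are arbitrary and `A ^ d e` is determined, and so on: at most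
`q ^ (n (d - 1) n / d)`. -/
def S_IA : Prop :=
  ∀ (F V : Type) [Field F] [Finite F] [AddCommGroup V] [Module F V] [FiniteDimensional F V]
    (f : F[X]), f.Monic → Irreducible f →
    (Nat.card {A : Module.End F V // aeval A f = 0} : ℝ) ≤
      (Nat.card F : ℝ) ^ ((Module.finrank F V : ℝ) ^ 2 * (1 - 1 / (f.natDegree : ℝ)))

/-- Invariant subspaces of an endomorphism killed by an irreducible polynomial of degree `d`: they are
the subspaces over the field `F[X]/(f)`. -/
def S_IW : Prop :=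
  ∀ (F V : Type) [Field F] [Finite F] [AddCommGroup V] [Module F V] [FiniteDimensional F V]
    (f : F[X]), f.Monic → Irreducible f → ∀ A : Module.End F V, aeval A f = 0 → ∀ k : ℕ,
    k ≤ Module.finrank F V →
    (Nat.card {W : Submodule F V // Module.finrank F W = k ∧ ∀ w ∈ W, A w ∈ W} : ℝ) ≤
      4 * (Nat.card F : ℝ) ^
        ((k : ℝ) * ((Module.finrank F V : ℝ) - k) / (f.natDegree : ℝ))

def M_IW : Prop := S_SUB → S_IW

/-- Extension of `B` from `U` to `V` such that `f(A) V ≤ U`: on a complement `C` of `U` the component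
with values in `U` is arbitrary, the other one is killed by `f` (S_IA for `V / U`). -/
def S_XA : Prop :=
  ∀ (F V : Type) [Field F] [Finite F] [AddCommGroup V] [Module F V] [FiniteDimensional F V]
    (f : F[X]), f.Monic → Irreducible f → ∀ (U : Submodule F V) (B : Module.End F U),
    (Nat.card {A : Module.End F V // (∀ u : U, A u = B u) ∧ ∀ v, aeval A f v ∈ U} : ℝ) ≤
      (Nat.card F : ℝ) ^ ((Module.finrank F U : ℝ) *
          ((Module.finrank F V : ℝ) - Module.finrank F U) +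
        ((Module.finrank F V : ℝ) - Module.finrank F U) ^ 2 * (1 - 1 / (f.natDegree : ℝ)))

def M_XA : Prop := S_IA → S_XA

/-- Given `W' ≤ f(A) V` invariant: the invariant `W` with `f(A) W = W'` correspond to some invariant
subspaces of `f(A)⁻¹(W') / W'` (dimension `n - u`, killed by `f`; S_IW). -/
def S_XW : Prop :=
  ∀ (F V : Type) [Field F] [Finite F] [AddCommGroup V] [Module F V] [FiniteDimensional F V]
    (f : F[X]), f.Monic → Irreducible f → ∀ (A : Module.End F V) (W' : Submodule F V) (k : ℕ),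
    W' ≤ LinearMap.range (aeval A f : Module.End F V) → (∀ w ∈ W', A w ∈ W') →
    (Nat.card {W : Submodule F V // Module.finrank F W = k ∧ (∀ w ∈ W, A w ∈ W) ∧
        W.map (aeval A f : Module.End F V) = W'} : ℝ) ≤
      4 * (Nat.card F : ℝ) ^ (((k : ℝ) - Module.finrank F W') *
        (((Module.finrank F V : ℝ) -
            Module.finrank F (LinearMap.range (aeval A f : Module.End F V))) -
          ((k : ℝ) - Module.finrank F W')) / (f.natDegree : ℝ))

def M_XW : Prop := S_IW → S_XW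

/-- the number of pairs `(A, W)`, `g(A) = 0`, `W` of dimension `k`, `A W ≤ W` -/
def nT (F V : Type) [Field F] [AddCommGroup V] [Module F V] (g : F[X]) (k : ℕ) : ℕ :=
  Nat.card {p : Module.End F V × Submodule F V //
    aeval p.1 g = 0 ∧ Module.finrank F p.2 = k ∧ ∀ w ∈ p.2, p.1 w ∈ p.2}

/-- `Q(n,k)` -/
def QQ (n k : ℝ) : ℝ := n ^ 2 - n * k + k ^ 2

/-- the recursion step: `g = f g'`, `U` the range of `f(A)`, `W' = f(A) W` -/
def S_TS : Prop :=
  ∀ (F V : Type) [Field F] [Finite F] [AddCommGroup V] [Module F V] [FiniteDimensional F V]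
    (f g : F[X]), f.Monic → Irreducible f → g.Monic → ∀ (m' : ℝ) (C : ℝ), 0 < m' → 1 ≤ C →
    (∀ (U : Submodule F V) (w : ℕ), (nT F U g w : ℝ) ≤ C * (Nat.card F : ℝ) ^
      ((Module.finrank F U : ℝ) ^ 2 - QQ (Module.finrank F U) w / m')) →
    ∀ k : ℕ, (nT F V (f * g) k : ℝ) ≤ 16 * ((Module.finrank F V : ℝ) + 1) ^ 2 * C *
      (Nat.card F : ℝ) ^
        ((Module.finrank F V : ℝ) ^ 2 - QQ (Module.finrank F V) k / (m' + f.natDegree))

def M_TS : Prop := S_SUB → S_XA → S_XW → S_TS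

/-- Paper (4). Induction on the number of irreducible factors. -/
def S_T : Prop :=
  ∀ (F V : Type) [Field F] [Finite F] [AddCommGroup V] [Module F V] [FiniteDimensional F V]
    (g : F[X]), g.Monic → 1 ≤ g.natDegree → ∀ k : ℕ,
    (nT F V g k : ℝ) ≤ (16 * ((Module.finrank F V : ℝ) + 1) ^ 2) ^ g.natDegree *
      (Nat.card F : ℝ) ^ ((Module.finrank F V : ℝ) ^ 2 - QQ (Module.finrank F V) k / g.natDegree)

def M_T : Prop := S_IA → S_IW → S_TS → S_T

/-- for a fixed subspace: the number does not depend on `W0` and there are at least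
`q ^ (k (n - k))` subspaces -/
def S_FX : Prop :=
  ∀ (F V : Type) [Field F] [Finite F] [AddCommGroup V] [Module F V] [FiniteDimensional F V]
    (g : F[X]), g.Monic → 1 ≤ g.natDegree → ∀ W0 : Submodule F V,
    (Nat.card {A : Module.End F V // aeval A g = 0 ∧ ∀ w ∈ W0, A w ∈ W0} : ℝ) ≤
      (16 * ((Module.finrank F V : ℝ) + 1) ^ 2) ^ g.natDegree *
      (Nat.card F : ℝ) ^ ((Module.finrank F V : ℝ) ^ 2 -
        QQ (Module.finrank F V) (Module.finrank F W0) / g.natDegree -
        (Module.finrank F W0 : ℝ) * ((Module.finrank F V : ℝ) - Module.finrank F W0))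

def M_FX : Prop := S_SUB → S_T → S_FX

/-! ## 4. Elements of order dividing `m` in `SL_n(q)` and `PSL_n(q)` -/

/-- Paper (5). A permutation matrix with an even number `a` of `m`-cycles and `r = n - a m < 2 m`
fixed points; a commuting matrix is determined by its columns at one point of each `m`-cycle
(`n` entries) and at the fixed points (constant on the cycles, `a + r` entries):
`a n + r (a + r) ≤ n ^ 2 / m + 4 m ^ 2`. -/
def S_JA : Prop :=
  ∀ (F : Type) [Field F] [Finite F] (n m : ℕ), 1 ≤ m →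
    ∃ A : Matrix.SpecialLinearGroup (Fin n) F, A ^ m = 1 ∧
      (Nat.card {B : Matrix (Fin n) (Fin n) F // B * A.1 = A.1 * B} : ℝ) ≤
        (Nat.card F : ℝ) ^ ((n : ℝ) ^ 2 / m + 4 * (m : ℝ) ^ 2)

/-- the class of this matrix in `GL_n` -/
def S_JL : Prop :=
  ∀ (F : Type) [Field F] [Finite F] (n m : ℕ), 1 ≤ m →
    (Nat.card (GL (Fin n) F) : ℝ) * (Nat.card F : ℝ) ^ (-((n : ℝ) ^ 2 / m) - 4 * (m : ℝ) ^ 2) ≤
      Nat.card {A : Matrix.SpecialLinearGroup (Fin n) F // A ^ m = 1}

/-- in `PSL_n(q)`: divide by the order of the centre -/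
def S_PJ : Prop :=
  ∀ (F : Type) [Field F] [Finite F] (n m : ℕ), 1 ≤ m →
    (Nat.card (PS n F) : ℝ) * (Nat.card F : ℝ) ^ (-((n : ℝ) ^ 2 / m) - 4 * (m : ℝ) ^ 2) ≤
      jn (PS n F) m

/-- module `JL` -/
def M_JL : Prop := S_JA → S_JL ∧ S_PJ

/-- Paper (6). The elements `x` with `x ^ m = 1` that preserve `W`: lifts `A` with `A ^ m = λ`,
`λ ^ n = 1` (S_FX for `X ^ m - λ`). -/
def S_PW : Prop :=
  ∀ (F : Type) [Field F] [Finite F] (n m : ℕ), 1 ≤ m → ∀ W : Submodule F (Fin n → F),
    (Nat.card {x : PS n F // x ^ m = 1 ∧ Pres x W} : ℝ) ≤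
      4 * (16 * ((n : ℝ) + 1) ^ 2) ^ m *
      (Nat.card F : ℝ) ^ (1 + 4 * (m : ℝ) ^ 2 -
        (Module.finrank F W : ℝ) * ((n : ℝ) - Module.finrank F W) * (1 - 1 / (m : ℝ))) *
      jn (PS n F) m

def M_PW : Prop := S_PI → S_FX → S_JL → S_PW

/-! ## 5. The end -/

/-- `2 < σ` for good lists -/
def S_SG : Prop := ∀ m : List ℕ, Good m → 2 < sig m

/-- The number of tuples that generate a reducible subgroup: sum over the subspaces `W`. -/
def S_RT : Prop :=
  ∀ m : List ℕ, Good m → ∃ C : ℝ, 0 < C ∧ ∀ n, 1 ≤ n → ∀ (F : Type) [Field F] [Finite F],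
    (Nat.card {t : Fin m.length → PS n F // (∀ j, t j ^ m.get j = 1) ∧
        ¬ Irr (Subgroup.closure (Set.range t))} : ℝ) ≤
      C * ((n : ℝ) + 1) ^ C * (Nat.card F : ℝ) ^ (C - (sig m - 1) * (n : ℝ)) *
        Nat.card {t : Fin m.length → PS n F // ∀ j, t j ^ m.get j = 1}

def M_RT : Prop := S_SG → S_SUB → S_PW → S_RT

/-- module `SM`: three small statements -/
def M_SM : Prop := S_EV ∧ S_PI ∧ S_SG

/-- the limit: `C (n+1)^C q^(C - c n)` tends to `0` for `n ≥ r` -/
def S_AS : Prop :=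
  ∀ (c C : ℝ), 0 < c → 0 < C → ∃ r : ℕ, 1 ≤ r ∧ ∀ ε : ℝ, 0 < ε → ∃ N : ℕ, ∀ n, r ≤ n →
    ∀ (F : Type) [Field F] [Finite F], N ≤ Nat.card (PS n F) →
      C * ((n : ℝ) + 1) ^ C * (Nat.card F : ℝ) ^ (C - c * (n : ℝ)) ≤ ε

/-- (A): `MainC` for the tuples that generate a reducible subgroup, `k(G) ≤ 4 q ^ (n + 1)` (S_KP). The
sets of homomorphisms are finite and not empty. -/
def M_A : Prop := MainC → S_KP → S_SG → S_RT → S_AS → MainA

/-- (B): the tuples in a conjugate of `M`: at most `M.index * |M| ^ d`; `MainC`, S_KP, S_PJ. -/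
def M_B : Prop := MainC → S_KP → S_PJ → S_AS → MainB

/-- the theorem handed in -/
def Main : Prop := MainA ∧ MainB ∧ MainC

end

end RSF
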