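import Pool.Agent.RSF.Stmts

/-!
# Statements of the modules, second part: arbitrary periods, `q ≥ n ^ K`

The parity condition on the periods is only used for the lower bound of the number of homomorphisms.
For `q ≥ n ^ K` it is replaced by a lower bound for the number of representations of a
non-scalar matrix `A` of determinant `1` as a commutator (and as `a ^ 2 b ^ 2`): count the
factorisations `A = B C` with given (different) eigenvalues of `B` and `C`. Paper: `PAPER.md`,
part 2.
-/

namespace RSF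

open Polynomial

noncomputable section

/-- (D). Arbitrary periods with `σ > 2`, `q ≥ n ^ K`: the image, even the subgroup generated by the images
of the elliptic generators, is irreducible with probability tending to `1`. -/
def MainD : Prop :=
  ∀ m : List ℕ, (∀ k ∈ m, 2 ≤ k) → 2 < sig m → ∃ r K : ℕ, ∀ ε : ℝ, 0 < ε → ∃ N : ℕ, ∀ n, r ≤ n →
    ∀ (F : Type) [Field F] [Finite F], n ^ K ≤ Nat.card F → N ≤ Nat.card (PS n F) →
      1 - ε ≤ prob (OGroup 1 m) (PS n F) (fun ρ => Irr (oell ρ)) ∧
      1 - ε ≤ prob (NGroup 2 m) (PS n F) (fun ρ => Irr (nell ρ))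

/-- the polynomial with the roots `s` -/
def rp {F : Type} [Field F] (s : Finset F) : F[X] := ∏ b ∈ s, (X - C b)

/-- the number of factorisations `A = B C` with given characteristic polynomials -/
def XX (F V : Type) [Field F] [AddCommGroup V] [Module F V] [FiniteDimensional F V]
    (A : Module.End F V) (p r : F[X]) : ℕ :=
  Nat.card {z : Module.End F V × Module.End F V //
    z.1 * z.2 = A ∧ z.1.charpoly = p ∧ z.2.charpoly = r}

/-- `A` is not a scalar -/
def NS {F V : Type} [Field F] [AddCommGroup V] [Module F V] (A : Module.End F V) : Prop :=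
  ¬ ∃ μ : F, ∀ v, A v = μ • v

/-- The pairs `(v, f)` with `f v = 1`, `f (A v) = t` for which the endomorphism
`w ↦ A w - (f (A w) / t) A v` of `ker f` is not a scalar. `v` not an eigenvector: at least
`q^n - q^(n-1) - q` vectors, `q^(n-2)` functionals for each. Bad pairs: `(A - μ) (ker f) ≤ ⟨A v⟩`, so
`dim ker (A - μ) ≥ n - 2`, at most `3` values of `μ`; if `A - μ = u ⊗ φ` has rank `1` then `f`
is a multiple of `φ` or `A v` of `u`: at most `2 q^n` pairs; if the rank is `2` then
`ker (A - μ) ≤ ker f` (`q^2` functionals `f`), and `A v` is on the line `(A - μ) (ker f)`: at most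
`q^3` pairs. -/
def S_VF : Prop :=
  ∀ (F V : Type) [Field F] [Finite F] [AddCommGroup V] [Module F V] [FiniteDimensional F V]
    (A : Module.End F V) (t : F), 2 ≤ Module.finrank F V → Function.Injective A → NS A → t ≠ 0 →
    (Nat.card F : ℝ) ^ (2 * Module.finrank F V - 2) -
        11 * (Nat.card F : ℝ) ^ (2 * Module.finrank F V - 3) ≤
      Nat.card {z : V × (V →ₗ[F] F) // z.2 z.1 = 1 ∧ z.2 (A z.1) = t ∧
        (3 ≤ Module.finrank F V →
          ¬ ∃ μ : F, ∀ w, z.2 w = 0 → A w - (z.2 (A w) / t) • A z.1 = μ • w)}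

/-- The recursion step. Given `(v, f)` and a factorisation `A' = B' C'` on `H = ker f`,
`A' w = A w - (f (A w) / t) A v`, `t = b c`, put `C v = c v`, `C w = C' w + (c f (A w) / t) v`,
`B v = c⁻¹ A v`, `B w = B' w` for `w ∈ H`. Then `B C = A`, the characteristic polynomials are
multiplied by `X - b`, `X - c`. `(B, C)` determines the line of `v` (the eigenline of `C` for `c`)
and `H` (the range of `B - b`), so every `(B, C)` is obtained at most `q - 1` times. -/
def S_XS : Prop :=
  ∀ (F V : Type) [Field F] [Finite F] [AddCommGroup V] [Module F V] [FiniteDimensional F V]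
    (A : Module.End F V) (s s' : Finset F) (b c : F) (M : ℝ), 2 ≤ Module.finrank F V →
    s.card + 1 = Module.finrank F V → s'.card + 1 = Module.finrank F V → b ∉ s → c ∉ s' →
    b ≠ 0 → c ≠ 0 →
    (∀ (v : V) (f : V →ₗ[F] F) (A' : Module.End F (LinearMap.ker f)), f v = 1 → f (A v) = b * c →
      (∀ w : LinearMap.ker f, (A' w : V) = A w - (f (A w) / (b * c)) • A v) →
      (3 ≤ Module.finrank F V → NS A') →
      M ≤ XX F (LinearMap.ker f) A' (rp s) (rp s')) →
    (Nat.card {z : V × (V →ₗ[F] F) // z.2 z.1 = 1 ∧ z.2 (A z.1) = b * c ∧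
        (3 ≤ Module.finrank F V →
          ¬ ∃ μ : F, ∀ w, z.2 w = 0 → A w - (z.2 (A w) / (b * c)) • A z.1 = μ • w)} : ℝ) * M ≤
      ((Nat.card F : ℝ) - 1) * XX F V A ((X - C b) * rp s) ((X - C c) * rp s')

/-- Induction on the dimension. `det A' = det A / (b c)`. -/
def S_XN : Prop :=
  ∀ (F V : Type) [Field F] [Finite F] [AddCommGroup V] [Module F V] [FiniteDimensional F V]
    (A : Module.End F V) (s s' : Finset F), 12 ≤ Nat.card F → 1 ≤ Module.finrank F V →
    s.card = Module.finrank F V → s'.card = Module.finrank F V → (0 : F) ∉ s → (0 : F) ∉ s' →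
    LinearMap.det A = (∏ b ∈ s, b) * ∏ c ∈ s', c → (2 ≤ Module.finrank F V → NS A) →
    (Nat.card F : ℝ) ^ (Module.finrank F V * (Module.finrank F V - 1)) *
        (1 - 11 / (Nat.card F : ℝ)) ^ (Module.finrank F V - 1) ≤
      ((Nat.card F : ℝ) - 1) ^ (Module.finrank F V - 1) * XX F V A (rp s) (rp s')

def M_XN : Prop := S_VF → S_XS → S_XN

/-- The sets of `n` nonzero elements with product `1`: `n!` times their number is the number of injective
`β : Fin n → Fˣ` with product `1`; there are `(q-1)^(n-1)` functions with product `1` and at most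
`n (n - 1) (q-1)^(n-2)` of them are not injective. -/
def S_BE : Prop :=
  ∀ (F : Type) [Field F] [Finite F] (n : ℕ), 1 ≤ n → 2 * n ^ 2 + 1 ≤ Nat.card F →
    ((Nat.card F : ℝ) - 1) ^ (n - 1) ≤
      2 * (n.factorial : ℝ) *
        Nat.card {s : Finset F // s.card = n ∧ (0 : F) ∉ s ∧ ∏ b ∈ s, b = 1}

/-- Matrices with the same `n` different eigenvalues in `F` are conjugate; the conjugating matrices of
determinant `1` are a coset of the diagonal matrices of determinant `1`. -/
def S_TC : Prop :=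
  ∀ (F : Type) [Field F] [Finite F] (n : ℕ) (s : Finset F), 1 ≤ n → s.card = n → (0 : F) ∉ s →
    ∀ B B' : Matrix (Fin n) (Fin n) F, B.charpoly = rp s → B'.charpoly = rp s →
    (Nat.card F - 1) ^ (n - 1) ≤
      Nat.card {S : Matrix.SpecialLinearGroup (Fin n) F // S.1 * B = B' * S.1}

/-- Number of representations in `SL_n(q)`. For every set `s` (S_BE): the factorisations `A = B C`
with `B.charpoly = rp s` and `C.charpoly = rp s⁻¹` (`rp s` in the second case) (S_XN), and for each of them
the `S` with `S B⁻¹ = C S` (`S C = B S` in the second case: `a = S`, `b = S⁻¹ C`, `a^2 b^2 = (S C S⁻¹) C`)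
(S_TC). `|SL_n| ≤ q^(n^2-1)`. -/
def S_NL : Prop :=
  ∀ (F : Type) [Field F] [Finite F] (n : ℕ), 2 ≤ n → 100 * n ^ 2 ≤ Nat.card F →
    ∀ A : Matrix.SpecialLinearGroup (Fin n) F, (¬ ∃ μ : F, A.1 = Matrix.scalar (Fin n) μ) →
    Nat.card (Matrix.SpecialLinearGroup (Fin n) F) ≤ 8 * n.factorial *
      Nat.card {p : Matrix.SpecialLinearGroup (Fin n) F × Matrix.SpecialLinearGroup (Fin n) F //
        p.1 * p.2 * p.1⁻¹ * p.2⁻¹ = A} ∧
    Nat.card (Matrix.SpecialLinearGroup (Fin n) F) ≤ 8 * n.factorial *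
      Nat.card {p : Matrix.SpecialLinearGroup (Fin n) F × Matrix.SpecialLinearGroup (Fin n) F //
        p.1 ^ 2 * p.2 ^ 2 = A}

def M_NL : Prop := S_XN → S_BE → S_TC → S_NL

/-- The same in `PSL_n(q)`, for every `g ≠ 1`. -/
def S_NP : Prop :=
  ∀ (F : Type) [Field F] [Finite F] (n : ℕ), 2 ≤ n → 100 * n ^ 2 ≤ Nat.card F →
    ∀ g : PS n F, g ≠ 1 →
    Nat.card (PS n F) ≤ 8 * n.factorial *
      Nat.card {p : PS n F × PS n F // g * (p.1 * p.2 * p.1⁻¹ * p.2⁻¹) = 1} ∧
    Nat.card (PS n F) ≤ 8 * n.factorial *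
      Nat.card {p : PS n F × PS n F // g * (p.1 ^ 2 * p.2 ^ 2) = 1}

def M_NP : Prop := S_NL → S_NP

/-- For every group: if every `g ≠ 1` has at least `|G| / c` representations then the number of
homomorphisms is at least `|G| JJ / (2 c)`: at most half of the tuples have product `1`. -/
def S_LD : Prop :=
  ∀ (G : Type) [Group G] [Finite G] (m : List ℕ) (c : ℕ), m ≠ [] → (∀ k ∈ m, 2 ≤ jn G k) →
    ((∀ g : G, g ≠ 1 → Nat.card G ≤ c *
        Nat.card {p : G × G // g * (p.1 * p.2 * p.1⁻¹ * p.2⁻¹) = 1}) →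
      Nat.card G * JJ G m ≤ 2 * c * OT G m (fun _ => True)) ∧
    ((∀ g : G, g ≠ 1 → Nat.card G ≤ c *
        Nat.card {p : G × G // g * (p.1 ^ 2 * p.2 ^ 2) = 1}) →
      Nat.card G * JJ G m ≤ 2 * c * NT G m (fun _ => True))

/-- two disjoint `k`-cycles: an even permutation, not a scalar matrix -/
def S_J2 : Prop :=
  ∀ (F : Type) [Field F] [Finite F] (n k : ℕ), 2 ≤ k → 2 * k ≤ n → 2 ≤ jn (PS n F) k

/-- The number of tuples that generate a reducible subgroup, general lists (the proof of S_RT). -/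
def S_RG : Prop :=
  ∀ m : List ℕ, (∀ k ∈ m, 2 ≤ k) → 2 < sig m → ∃ C : ℝ, 0 < C ∧ ∀ n, 1 ≤ n →
    ∀ (F : Type) [Field F] [Finite F],
    (Nat.card {t : Fin m.length → PS n F // (∀ j, t j ^ m.get j = 1) ∧
        ¬ Irr (Subgroup.closure (Set.range t))} : ℝ) ≤
      C * ((n : ℝ) + 1) ^ C * (Nat.card F : ℝ) ^ (C - (sig m - 1) * (n : ℝ)) *
        Nat.card {t : Fin m.length → PS n F // ∀ j, t j ^ m.get j = 1}

def M_RG : Prop := S_SUB → S_PW → S_RG

/-- (D): as for (A), the probability of not irreducible is at most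
`16 n! k(G) * (bad tuples) / (tuples)`, `n! ≤ n^n ≤ q^(n/K)` for `q ≥ n^K`, `K ≥ 2/(σ-2)`. -/
def M_D : Prop := S_HO → S_HN → S_UP → S_LD → S_NP → S_J2 → S_KP → S_RG → S_AS → MainD

end

end RSF
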