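import Pool.Agent.RSF.Stmts2

/-!
# Statements of the modules, third part: `σ > 1`

The image (not only the subgroup generated by the elliptic elements) is irreducible as soon as
`σ > 1`. Now the triples `(a, c, W)` with `a`, `c` commuting and `W` invariant under `c` are
counted. Paper: `PAPER.md`, part 3.
-/

namespace RSF

open Polynomial

noncomputable section

/-- (E). Periods with even multiplicities, `σ > 1` (for periods at least `2`: at least two periods, not
`(2,2)`): a random homomorphism to `PSL_n(q)` has irreducible image with probability tending to `1`. -/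
def MainE : Prop :=
  ∀ m : List ℕ, (∀ k ∈ m, 2 ≤ k) → (∀ k, Even (m.count k)) → 1 < sig m →
    ∃ r : ℕ, ∀ ε : ℝ, 0 < ε → ∃ N : ℕ, ∀ n, r ≤ n →
    ∀ (F : Type) [Field F] [Finite F], N ≤ Nat.card (PS n F) →
      1 - ε ≤ prob (OGroup 1 m) (PS n F) (fun ρ => Irr ρ.range) ∧
      1 - ε ≤ prob (NGroup 2 m) (PS n F) (fun ρ => Irr ρ.range)

/-- (F). Arbitrary periods with `σ > 1`, `q ≥ n ^ K`. -/
def MainF : Prop :=
  ∀ m : List ℕ, (∀ k ∈ m, 2 ≤ k) → 1 < sig m → ∃ r K : ℕ, ∀ ε : ℝ, 0 < ε → ∃ N : ℕ, ∀ n, r ≤ n →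
    ∀ (F : Type) [Field F] [Finite F], n ^ K ≤ Nat.card F → N ≤ Nat.card (PS n F) →
      1 - ε ≤ prob (OGroup 1 m) (PS n F) (fun ρ => Irr ρ.range) ∧
      1 - ε ≤ prob (NGroup 2 m) (PS n F) (fun ρ => Irr ρ.range)

/-! ## Homomorphisms -/

/-- the generators that are not elliptic -/
def oa (m : List ℕ) : OGroup 1 m := PresentedGroup.of (OGen.a 0)

def ob (m : List ℕ) : OGroup 1 m := PresentedGroup.of (OGen.b 0)

def na (m : List ℕ) (i : Fin 2) : NGroup 2 m := PresentedGroup.of (NGen.a i)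

/-- S_HO and S_HN with a condition on the images of all generators (same proof). -/
def S_H2 : Prop :=
  ∀ (G : Type) [Group G] (m : List ℕ) (E : (Fin m.length → G) → G → G → Prop),
    Nat.card {ρ : OGroup 1 m →* G // E (fun j => ρ (ox 1 m j)) (ρ (oa m)) (ρ (ob m))} =
      Nat.card {p : (Fin m.length → G) × G × G // (∀ j, p.1 j ^ m.get j = 1) ∧
        E p.1 p.2.1 p.2.2 ∧
        (List.ofFn p.1).prod * (p.2.1 * p.2.2 * p.2.1⁻¹ * p.2.2⁻¹) = 1} ∧
    Nat.card {ρ : NGroup 2 m →* G // E (fun j => ρ (nx 2 m j)) (ρ (na m 0)) (ρ (na m 1))} =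
      Nat.card {p : (Fin m.length → G) × G × G // (∀ j, p.1 j ^ m.get j = 1) ∧
        E p.1 p.2.1 p.2.2 ∧ (List.ofFn p.1).prod * (p.2.1 ^ 2 * p.2.2 ^ 2) = 1}

/-- First: empty or a coset of the centraliser of `c`. Second: `b = a⁻¹ c`, `a ^ 2 b ^ 2 = a c a⁻¹ c`. -/
def S_U2 : Prop :=
  ∀ (G : Type) [Group G] [Finite G] (g c : G),
    Nat.card {a : G // g * (a * c * a⁻¹ * c⁻¹) = 1} ≤ Nat.card {a : G // Commute a c} ∧
    Nat.card {p : G × G // p.1 * p.2 = c ∧ g * (p.1 ^ 2 * p.2 ^ 2) = 1} ≤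
      Nat.card {a : G // Commute a c}

/-- the number of `(t, a, c)`, `a` and `c` commute, and the `t j` and `c` preserve a common `W` -/
def RB (F : Type) [Field F] (n : ℕ) (m : List ℕ) : ℕ :=
  Nat.card {z : (Fin m.length → PS n F) × PS n F × PS n F //
    (∀ j, z.1 j ^ m.get j = 1) ∧ Commute z.2.1 z.2.2 ∧
    ∃ W : Submodule F (Fin n → F), W ≠ ⊥ ∧ W ≠ ⊤ ∧ (∀ j, Pres (z.1 j) W) ∧ Pres z.2.2 W}

/-- The homomorphisms with reducible image. Oriented: `c = ρ b`; for given `(t, c)` the number of `a` is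
at most the order of the centraliser of `c` (S_U2, `g = ∏ t`). Non-oriented: `c = ρ a_0 * ρ a_1`. Write both
cardinalities as sums over the `(t, c)` for which `W` exists. -/
def S_BH : Prop :=
  ∀ (F : Type) [Field F] [Finite F] (n : ℕ) (m : List ℕ),
    Nat.card {ρ : OGroup 1 m →* PS n F // ¬ Irr ρ.range} ≤ RB F n m ∧
    Nat.card {ρ : NGroup 2 m →* PS n F // ¬ Irr ρ.range} ≤ RB F n m

def M_BH : Prop := S_H2 → S_U2 → S_BH

/-! ## Classes with a large eigenspace -/

open Classical in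
/-- the number of pairs with first component `p` -/
def sp {F : Type} [Field F] (s : Multiset (F[X] × ℕ)) (p : F[X]) : ℕ :=
  (s.filter fun z => z.1 = p).card

/-- S_KA (proof: `Pool/Agent/RSF/KA.lean`, which may be imported) with one more property: the kernel of
`p(A)` has dimension `deg p` times the number of elementary divisors that are powers of `p`. In
`KA.Dec` the module is `∀ i, F[X] / (p_i ^ e_i)`; kernel and cokernel of the multiplication by `p`
have the same dimension, and the cokernel of `p` on `F[X] / (p_i ^ e_i)` is `F[X] / (p)` for `p_i = p`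
and `0` otherwise (coprime). -/
def S_KE : Prop :=
  ∀ (F : Type) [Field F] [Finite F] (n : ℕ),
    ∃ Φ : GL (Fin n) F → Multiset (F[X] × ℕ),
      (∀ A, ∀ p ∈ Φ A, p.1.Monic ∧ Irreducible p.1 ∧ 1 ≤ p.2) ∧
      (∀ A, ((Φ A).map fun p => p.2 * p.1.natDegree).sum = n) ∧
      (∀ A B, Φ A = Φ B → IsConj A B) ∧
      ∀ A, ∀ p : F[X], p.Monic → Irreducible p →
        Module.finrank F (LinearMap.ker (aeval (Matrix.toLin' A.1) p)) =
          p.natDegree * sp (Φ A) p

/-- the multisets that occur for `n` -/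
def MV (F : Type) [Field F] (n : ℕ) : Type :=
  {s : Multiset (F[X] × ℕ) // (∀ p ∈ s, p.1.Monic ∧ Irreducible p.1 ∧ 1 ≤ p.2) ∧
    (s.map fun p => p.2 * p.1.natDegree).sum = n}

/-- The proof is inside `Pool/Agent/RSF/KB.lean` (which may be imported): the multisets inject into the
sequences `h` of S_KC. -/
def S_MS : Prop :=
  ∀ (F : Type) [Field F] [Finite F] (n : ℕ), Finite (MV F n) ∧ Nat.card (MV F n) ≤ 4 * Nat.card F ^ n

def M_MS : Prop := S_KC → S_MS

/-- `p` monic irreducible of degree `d`. The multisets in `MV F n` with `sp s p = j`: take `1` off the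
exponents of all pairs `(p, e)` and delete the pairs `(p, 0)`: an injection (for fixed `j`) to
`MV F (n - j d)`, so at most `4 q ^ (n - j d)`; the sum over `j ≥ r` is at most `8 q ^ (n - r d)`. -/
def S_MR : Prop :=
  ∀ (F : Type) [Field F] [Finite F] (n r : ℕ) (p : F[X]), p.Monic → Irreducible p →
    Nat.card {s : MV F n // r ≤ sp s.1 p} * Nat.card F ^ (r * p.natDegree) ≤ 8 * Nat.card F ^ n

def M_MR : Prop := S_MS → S_MR

/-- Sum of S_MR over the at most `q ^ d` monic irreducible `p` of degree `d`, `1 ≤ d`, `r d ≤ n`: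
`∑_d q ^ d * 8 q ^ (n - r d) ≤ 8 n q ^ (n - r + 1)`, as `d - r d ≤ 1 - r`. -/
def S_CR : Prop :=
  ∀ (F : Type) [Field F] [Finite F] (n r : ℕ), 1 ≤ r →
    Nat.card {x : ConjClasses (GL (Fin n) F) // ∃ A, ConjClasses.mk A = x ∧ ∃ p : F[X], p.Monic ∧
      Irreducible p ∧ r * p.natDegree ≤
        Module.finrank F (LinearMap.ker (aeval (Matrix.toLin' A.1) p))} *
      Nat.card F ^ (r - 1) ≤ 8 * n * Nat.card F ^ n

def M_CR : Prop := S_KE → S_MR → S_CR

/-- If the kernel of `p(A)` has dimension at most `r deg p` for all monic irreducible `p` then `A` has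
at most `(2 dim V) ^ k q ^ (k (r - 1))` invariant subspaces of dimension `k`. Induction on `k` (all `V`): an
invariant `W ≠ 0` contains a minimal invariant `U ≠ 0`; `U` is killed by an irreducible factor `p` of
the characteristic polynomial (at most `dim V` different ones), `dim U = deg p = d ≤ k`, and `U` is
generated by each of its `q ^ d - 1` nonzero vectors, which are in the kernel of `p(A)`: at most
`(q ^ (r d) - 1) / (q ^ d - 1) ≤ 2 q ^ (d (r - 1))` such `U` for `p`. `W / U` is an invariant subspace of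
`V / U`, and `V / U` satisfies the hypothesis (the kernel of `p(A)` has the dimension of the
cokernel, and the cokernel of the quotient is smaller). -/
def S_FK : Prop :=
  ∀ (F V : Type) [Field F] [Finite F] [AddCommGroup V] [Module F V] [FiniteDimensional F V]
    (A : Module.End F V) (r : ℕ), 1 ≤ r →
    (∀ p : F[X], p.Monic → Irreducible p →
      Module.finrank F (LinearMap.ker (aeval A p)) ≤ r * p.natDegree) → ∀ k : ℕ,
    Nat.card {W : Submodule F V // Module.finrank F W = k ∧ ∀ w ∈ W, A w ∈ W} ≤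
      (2 * Module.finrank F V) ^ k * Nat.card F ^ (k * (r - 1))

/-! ## Commuting pairs and invariant subspaces -/

/-- the number of `(a, c, W)` in `GL_n`: `a`, `c` commute, `dim W = k`, `c W ≤ W` -/
def KT (F : Type) [Field F] (n k : ℕ) : ℕ :=
  Nat.card {z : GL (Fin n) F × GL (Fin n) F × Submodule F (Fin n → F) //
    Commute z.1 z.2.1 ∧ Module.finrank F z.2.2 = k ∧ ∀ w ∈ z.2.2, z.2.1.1.mulVec w ∈ z.2.2}

/-- the same in `PSL_n` -/
def KS (F : Type) [Field F] (n k : ℕ) : ℕ :=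
  Nat.card {z : PS n F × PS n F × Submodule F (Fin n → F) //
    Commute z.1 z.2.1 ∧ Module.finrank F z.2.2 = k ∧ Pres z.2.1 z.2.2}

/-- First: number of commuting pairs (`|GL| k(GL)`, S_KB, S_KC) times number of subspaces (S_SUB). Second:
for a set of classes the number of commuting pairs `(a, c)`, `c` in the union, is `|GL|` times
the number of classes. For `c` let `r ≥ 1` be least with `dim ker p(c) ≤ r deg p` for all `p`
(`r ≤ n`). If `r ≥ 2` then `dim ker p(c) ≥ r deg p` for some `p`, because `deg p` divides it (S_KE): at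
most `8 n q ^ (n - r + 1)` classes (S_CR), also for `r = 1` (all classes). S_FK: the number is at most
`|GL| ∑_{r = 1}^n 8 n q ^ (n - r + 1) (2 n) ^ k q ^ (k (r - 1))`, and
`n + (k - 1) (r - 1) ≤ n + (k - 1) (n - 1) ≤ k n`. -/
def S_K3 : Prop :=
  ∀ (F : Type) [Field F] [Finite F] (n k : ℕ), k ≤ n →
    KT F n k ≤ Nat.card (GL (Fin n) F) * (16 * Nat.card F ^ (n + k * (n - k))) ∧
    (1 ≤ k → KT F n k ≤
      Nat.card (GL (Fin n) F) * (8 * n ^ 2 * (2 * n) ^ k * Nat.card F ^ (k * n)))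

def M_K3 : Prop := S_KB → S_KC → S_SUB → S_KE → S_CR → S_FK → S_K3

/-- Duality: inverse transposed matrices, `W` to the orthogonal complement for the dot product. -/
def S_KD : Prop :=
  ∀ (F : Type) [Field F] [Finite F] (n k : ℕ), k ≤ n → KT F n k ≤ KT F n (n - k)

/-- `Z` the centre of `SL_n`. For `C ∈ SL_n` the centraliser of `mk C` in `PSL_n` has at most as many
elements as the centraliser of `C` in `SL_n` (the `A` with `[A, C] ∈ Z` form a group, `A ↦ [A, C]` is a
homomorphism to `Z` with kernel the centraliser of `C`). Sum over `C ∈ SL_n`: `|Z| KS` is at most the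
number of triples in `SL_n`, at most `KT`; `|GL| ≤ q |SL|` (kernel of `det`), `|SL| = |Z| |PSL|`. -/
def S_KQ : Prop :=
  ∀ (F : Type) [Field F] [Finite F] (n k : ℕ), 1 ≤ n →
    KS F n k * Nat.card (GL (Fin n) F) ≤ Nat.card F * Nat.card (PS n F) * KT F n k

/-- The sum over `k` and `W` of the product of S_PW times the number of pairs:
`RB ≤ ∑_{0 < k < n} C₁ (n+1)^C₁ q^(C₁ - k (n-k) σ) JJ KS(n,k)`, and with `k' = min k (n-k) ≥ 1`
(S_KD) `KS(n,k) ≤ q |PSL| 16 q^(n + k (n-k))` and `≤ q |PSL| 8 n^2 (2n)^k' q^(k' n)` (S_KQ, S_K3). If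
`4 σ k' ≤ (σ-1) n` use the second: `k' n - k' (n-k') σ ≤ - (3/4) (σ-1) k' n` and
`2 n ≤ 2^((σ-1) n / 4)` for `n ≥ r`. Otherwise use the first: `k (n-k) ≥ k' n / 2` and
`n - k (n-k) (σ-1) ≤ - (σ-1) n / 2` for `n ≥ r`. -/
def S_R2 : Prop :=
  ∀ m : List ℕ, (∀ k ∈ m, 2 ≤ k) → 1 < sig m → ∃ (C : ℝ) (r : ℕ), 0 < C ∧ 1 ≤ r ∧ ∀ n, r ≤ n →
    ∀ (F : Type) [Field F] [Finite F],
    (RB F n m : ℝ) ≤ C * ((n : ℝ) + 1) ^ C *
      (Nat.card F : ℝ) ^ (C - (sig m - 1) / 2 * (n : ℝ)) *
        (Nat.card (PS n F) * JJ (PS n F) m)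

def M_R2 : Prop := S_PW → S_K3 → S_KD → S_KQ → S_R2

/-- `|G| JJ ≤ OT` (S_LO), `OT` is the number of homomorphisms (S_H2), S_BH, S_R2, S_AS with
`c = (σ-1)/2`. -/
def M_E : Prop := S_H2 → S_LO → S_LN → S_BH → S_R2 → S_AS → MainE

/-- `|G| JJ ≤ 16 n! OT` (S_LD with `c = 8 n!`, S_NP, S_J2), S_BH, S_R2, `n! ≤ n^n ≤ q^(n/K)` with
`K ≥ 4/(σ-1)`, S_AS with `c = (σ-1)/4`. -/
def M_F : Prop := S_H2 → S_LD → S_NP → S_J2 → S_BH → S_R2 → S_AS → MainF

end

end RSF
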